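import Pool.Agent.Lib.A590Alg1

/-!
Block AL, part 2: the norm on the Fermat curve and the open conditions on the parameters.
-/

open scoped ComplexConjugate ComplexOrder ContDiff Topology InnerProductSpace
open MeasureTheory Filter

noncomputable section

namespace A590

theorem curve_reduce (r : MvPolynomial (Fin 2) ℂ) : ∃ r0 r1 r2 r3 : Polynomial ℂ, ∀ x y : ℂ,
    fF x y 1 = 0 → MvPolynomial.eval ![x, y] r
      = r0.eval x + r1.eval x * y + r2.eval x * y ^ 2 + r3.eval x * y ^ 3 := by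
  induction r using MvPolynomial.induction_on with
  | C a => exact ⟨Polynomial.C a, 0, 0, 0, fun x y _ => by simp⟩
  | add p q hp hq =>
    obtain ⟨p0, p1, p2, p3, hp⟩ := hp
    obtain ⟨q0, q1, q2, q3, hq⟩ := hq
    refine ⟨p0 + q0, p1 + q1, p2 + q2, p3 + q3, fun x y h => ?_⟩
    simp only [map_add, hp x y h, hq x y h, Polynomial.eval_add]
    ring
  | mul_X p i hp =>
    obtain ⟨p0, p1, p2, p3, hp⟩ := hp
    fin_cases i
    · refine ⟨p0 * Polynomial.X, p1 * Polynomial.X, p2 * Polynomial.X, p3 * Polynomial.X,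
        fun x y h => ?_⟩
      simp [hp x y h]
      ring
    · refine ⟨p3 * (Polynomial.X ^ 4 - 1), p0, p1, p2, fun x y h => ?_⟩
      simp [hp x y h]
      simp only [fF] at h
      linear_combination (p3.eval x) * h

/-- norm of a polynomial function on the Fermat curve -/
theorem curve_norm (r : MvPolynomial (Fin 2) ℂ) : ∃ N : Polynomial ℂ, ∀ x y : ℂ, fF x y 1 = 0 →
    N.eval x = ∏ k : Fin 4, MvPolynomial.eval ![x, Complex.I ^ (k : ℕ) * y] r := by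
  obtain ⟨r0, r1, r2, r3, h⟩ := curve_reduce r
  refine ⟨(r0 ^ 2 + r2 ^ 2 * (Polynomial.X ^ 4 - 1) - 2 * r1 * r3 * (Polynomial.X ^ 4 - 1)) ^ 2
    - (2 * r0 * r2 - r1 ^ 2 - r3 ^ 2 * (Polynomial.X ^ 4 - 1)) ^ 2 * (Polynomial.X ^ 4 - 1),
    fun x y hf => ?_⟩
  have hI : Complex.I ^ 2 = -1 := Complex.I_sq
  have hk : ∀ k : ℕ, fF x (Complex.I ^ k * y) 1 = 0 := fun k => by
    simp only [fF] at hf ⊢
    rw [mul_pow, ← pow_mul, mul_comm k 4, pow_mul, Complex.I_pow_four, one_pow, one_mul]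
    exact hf
  have ht : x ^ 4 - 1 = y ^ 4 := by simp only [fF] at hf; linear_combination -hf
  rw [Fin.prod_univ_four]
  simp only [h x _ (hk _)]
  simp only [Polynomial.eval_sub, Polynomial.eval_add, Polynomial.eval_mul, Polynomial.eval_pow,
    Polynomial.eval_X, Polynomial.eval_one, Polynomial.eval_ofNat, ht]
  generalize r0.eval x = a0
  generalize r1.eval x = a1
  generalize r2.eval x = a2
  generalize r3.eval x = a3
  have e0 : ((0 : Fin 4) : ℕ) = 0 := rfl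
  have e1 : ((1 : Fin 4) : ℕ) = 1 := rfl
  have e2 : ((2 : Fin 4) : ℕ) = 2 := rfl
  have e3 : ((3 : Fin 4) : ℕ) = 3 := rfl
  have i3 : Complex.I ^ 3 = -Complex.I := Complex.I_pow_three
  rw [e0, e1, e2, e3, pow_zero, pow_one, hI, i3]
  have p1 : (a0 + a1 * (1 * y) + a2 * (1 * y) ^ 2 + a3 * (1 * y) ^ 3)
      * (a0 + a1 * (-1 * y) + a2 * (-1 * y) ^ 2 + a3 * (-1 * y) ^ 3)
      = (a0 ^ 2 + a2 ^ 2 * y ^ 4 - 2 * a1 * a3 * y ^ 4)
        + (2 * a0 * a2 - a1 ^ 2 - a3 ^ 2 * y ^ 4) * y ^ 2 := by ring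
  have q1 : (Complex.I * y) ^ 2 = -y ^ 2 := by rw [mul_pow, hI]; ring
  have q2 : (Complex.I * y) ^ 3 = -(Complex.I * y ^ 3) := by rw [mul_pow, i3]; ring
  have q3 : (-Complex.I * y) ^ 2 = -y ^ 2 := by rw [neg_mul, neg_sq, q1]
  have q4 : (-Complex.I * y) ^ 3 = Complex.I * y ^ 3 := by
    rw [neg_mul, neg_pow, q2]; ring
  have p2 : (a0 + a1 * (Complex.I * y) + a2 * (Complex.I * y) ^ 2 + a3 * (Complex.I * y) ^ 3)
      * (a0 + a1 * (-Complex.I * y) + a2 * (-Complex.I * y) ^ 2 + a3 * (-Complex.I * y) ^ 3)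
      = (a0 ^ 2 + a2 ^ 2 * y ^ 4 - 2 * a1 * a3 * y ^ 4)
        - (2 * a0 * a2 - a1 ^ 2 - a3 ^ 2 * y ^ 4) * y ^ 2 := by
    rw [q1, q2, q3, q4]
    linear_combination (-(a1 * y - a3 * y ^ 3) ^ 2) * hI
  calc _ = ((a0 ^ 2 + a2 ^ 2 * y ^ 4 - 2 * a1 * a3 * y ^ 4)
        + (2 * a0 * a2 - a1 ^ 2 - a3 ^ 2 * y ^ 4) * y ^ 2)
        * ((a0 ^ 2 + a2 ^ 2 * y ^ 4 - 2 * a1 * a3 * y ^ 4)
        - (2 * a0 * a2 - a1 ^ 2 - a3 ^ 2 * y ^ 4) * y ^ 2) := by ring
    _ = _ := by rw [← p1, ← p2]; ring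

theorem curve_finite (r : MvPolynomial (Fin 2) ℂ) (h : MvPolynomial.eval ![1, 0] r ≠ 0) :
    {x : ℂ | ∃ y, fF x y 1 = 0 ∧ MvPolynomial.eval ![x, y] r = 0}.Finite := by
  obtain ⟨N, hN⟩ := curve_norm r
  have h0 : N ≠ 0 := by
    intro h0
    have := hN 1 0 (by simp [fF])
    rw [h0] at this
    simp only [Polynomial.eval_zero, mul_zero, Finset.prod_const] at this
    exact pow_ne_zero _ h this.symm
  refine (Polynomial.finite_setOfPred_isRoot h0).subset ?_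
  rintro x ⟨y, hf, hr⟩
  change N.eval x = 0
  rw [hN x y hf]
  exact Finset.prod_eq_zero (Finset.mem_univ 0) (by simpa using hr)

section Res
variable {K : Type*} [CommRing K]

def rB1 (a b e b1 b2 b3 b4 : K) : K :=
  b4 * (2 * a * b * e - b ^ 3) + a * b3 * (b ^ 2 - a * e) - a ^ 2 * b2 * b + a ^ 3 * b1

def rB0 (a b e b0 b2 b3 b4 : K) : K :=
  b4 * (a * e ^ 2 - b ^ 2 * e) + a * b3 * b * e - a ^ 2 * b2 * e + a ^ 3 * b0

def rS (a b e b0 b1 b2 b3 b4 : K) : K :=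
  a * rB0 a b e b0 b2 b3 b4 ^ 2 - b * rB0 a b e b0 b2 b3 b4 * rB1 a b e b1 b2 b3 b4
    + e * rB1 a b e b1 b2 b3 b4 ^ 2

theorem rS_eq_zero {a b e b0 b1 b2 b3 b4 t : K} (hA : a * t ^ 2 + b * t + e = 0)
    (hB : b4 * t ^ 4 + b3 * t ^ 3 + b2 * t ^ 2 + b1 * t + b0 = 0) :
    rS a b e b0 b1 b2 b3 b4 = 0 := by
  have h : rB0 a b e b0 b2 b3 b4 = -(rB1 a b e b1 b2 b3 b4 * t) := by
    simp only [rB0, rB1]
    linear_combination a ^ 3 * hB - (b4 * a ^ 2 * t ^ 2 + (a ^ 2 * b3 - a * b * b4) * t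
      + (a ^ 2 * b2 - a * b * b3 - a * e * b4 + b ^ 2 * b4)) * hA
  simp only [rS, h]
  linear_combination (rB1 a b e b1 b2 b3 b4) ^ 2 * hA

def cb0 (c d u x : K) : K := -(c + d * u) * x ^ 2 + (d + c * u)
def cb1 (c d u x : K) : K := 4 * c * x ^ 5 + 2 * c * u * x ^ 3 + (2 * d * u - 4 * c) * x
def cb2 (c d u x y : K) : K :=
  c ^ 2 * (d + c * u) * x ^ 6 + (c + 3 * c * d * (d + c * u)) * x ^ 4 + 2 * x ^ 3 * y
    + (2 * d + 3 * d ^ 2 * (d + c * u)) * x ^ 2 + 2 * u * x * y - 2 * c * (c + d * u) * y ^ 3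
    + d ^ 2 * (c + d * u)
def cb3 (c d u x y : K) : K :=
  2 * c * (d + c * u) * x ^ 4 * y + (2 + 4 * d * (d + c * u)) * x ^ 2 * y + 2 * c * d * x * y ^ 3
    + 2 * d * (c + d * u) * y + 2 * y ^ 3 * c ^ 2 * x ^ 3
def cb4 (c d u x y : K) : K :=
  2 * d * x ^ 3 + (c + d - c * d ^ 2 + c * u - d ^ 3 * u - d * u) * x ^ 2 * y ^ 2 + 2 * c * x
    + (c - 2 * d - d ^ 3 + d * u - c * d ^ 2 * u) * y ^ 2

theorem ZT_expand (c d u x y t : K) : ZT c d u x y 1 t - t * ZU c x y t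
    = cb4 c d u x y * t ^ 4 + cb3 c d u x y * t ^ 3 + cb2 c d u x y * t ^ 2 + cb1 c d u x * t
      + cb0 c d u x := by
  simp only [ZT, ZU, cb0, cb1, cb2, cb3, cb4]; ring

/-- the eliminant of `A` and `ZT - t ZU` -/
def Rs (c d u x y : K) : K :=
  rS (P0 c d x 1 ^ 2) (-2 * Q0 x y 1) (-(y * P0 c d x 1)) (cb0 c d u x) (cb1 c d u x)
    (cb2 c d u x y) (cb3 c d u x y) (cb4 c d u x y)

theorem map_Rs {L : Type*} [CommRing L] (g : K →+* L) (c d u x y : K) :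
    g (Rs c d u x y) = Rs (g c) (g d) (g u) (g x) (g y) := by
  simp only [Rs, rS, rB0, rB1, cb0, cb1, cb2, cb3, cb4, P0, Q0, map_add, map_sub, map_mul,
    map_pow, map_neg, map_one, map_ofNat]

theorem Rs_eq_zero {c d u x y t : K} (hA : AA c d x y 1 t = 0)
    (hB : ZT c d u x y 1 t = t * ZU c x y t) : Rs c d u x y = 0 := by
  refine rS_eq_zero (t := t) ?_ ?_
  · simp only [AA] at hA
    linear_combination hA
  · rw [← ZT_expand, hB, sub_self]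

end Res

theorem nice_nhds : ∀ᶠ w : ℂ × ℂ × ℂ in 𝓝 (1, 0, 0),
    w.1 ^ 2 - w.2.1 ^ 2 = 1 → Nice w.1 w.2.1 w.2.2 := by
  have ev : ∀ g : ℂ × ℂ × ℂ → ℂ, ContinuousAt g (1, 0, 0) → g (1, 0, 0) ≠ 0 →
      ∀ᶠ w in 𝓝 ((1, 0, 0) : ℂ × ℂ × ℂ), g w ≠ 0 := fun g hg h0 => hg.eventually_ne h0
  have h1 := ev (fun w => w.1) (by fun_prop) (by simp)
  have h2 := ev (fun w => w.2.1 ^ 2 + w.2.1 * w.1 - w.1 ^ 2) (by fun_prop) (by simp)
  have h3 := ev (fun w => Rs w.1 w.2.1 w.2.2 1 0)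
    (by unfold Rs rS rB0 rB1 cb0 cb1 cb2 cb3 cb4 P0 Q0; fun_prop)
    (by norm_num [Rs, rS, rB0, rB1, cb0, cb1, cb2, cb3, cb4, P0, Q0])
  have h4 := ev (fun w => w.2.1 + w.1) (by fun_prop) (by simp)
  have h5 := ev (fun w => -(w.1 + w.2.1 * w.2.2) + (w.2.1 + w.1 * w.2.2)) (by fun_prop) (by simp)
  have h6 := ev (fun w => (w.1 + w.2.1 * w.2.2) + (w.2.1 + w.1 * w.2.2)) (by fun_prop) (by simp)
  have h7 := ev (fun w => ZT w.1 w.2.1 w.2.2 1 0 1 (-2 / (w.2.1 + w.1) ^ 2))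
    (by
      have hc : ContinuousAt (fun w : ℂ × ℂ × ℂ => -2 / (w.2.1 + w.1) ^ 2) (1, 0, 0) :=
        ContinuousAt.div (by fun_prop) (by fun_prop) (by simp)
      unfold ZT; fun_prop)
    (by norm_num [ZT])
  filter_upwards [h1, h2, h3, h4, h5, h6, h7] with w h1 h2 h3 h4 h5 h6 h7 hcd
  obtain ⟨c, d, u⟩ := w
  dsimp only at h1 h2 h3 h4 h5 h6 h7 hcd ⊢
  refine ⟨hcd, h1, fun x y hf => ?_, ?_, ?_, fun t ht => ?_, fun x hx => ?_⟩
  · by_contra hn
    push Not at hn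
    obtain ⟨hP, hQ⟩ := hn
    simp only [fF, P0, Q0] at hf hP hQ
    apply h2
    linear_combination (-c ^ 2) * hf + c ^ 2 * (y ^ 2 + x) * hQ + (d + c - c * x ^ 2) * hP
  · have := curve_finite (Q0 (MvPolynomial.X 0) (MvPolynomial.X 1) 1 ^ 2 + MvPolynomial.X 1
      * P0 (MvPolynomial.C c) (MvPolynomial.C d) (MvPolynomial.X 0) 1 ^ 3) (by simp [Q0])
    refine this.subset ?_
    rintro x ⟨y, hf, h⟩
    refine ⟨y, hf, ?_⟩
    simpa [Q0, P0] using h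
  · have := curve_finite (Rs (MvPolynomial.C c) (MvPolynomial.C d) (MvPolynomial.C u)
      (MvPolynomial.X 0) (MvPolynomial.X 1)) (by rw [map_Rs]; simpa using h3)
    refine this.subset ?_
    rintro x ⟨y, t, hf, hA, hB⟩
    refine ⟨y, hf, ?_⟩
    rw [map_Rs]
    simpa using Rs_eq_zero hA hB
  · by_cases h0 : t = 0
    · subst h0
      intro h
      apply h5
      simp only [ZT] at h
      linear_combination h
    · have : t = -2 / (d + c) ^ 2 := by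
        field_simp
        apply mul_left_cancel₀ h0
        simp only [AA, P0, Q0] at ht
        linear_combination ht
      rw [this]; exact h7
  · have : (x ^ 2 - 1) * (x ^ 2 + 1) = 0 := by linear_combination hx
    intro h
    simp only [ZT] at h
    rcases mul_eq_zero.1 this with h0 | h0
    · apply h5
      linear_combination h + (c + d * u) * h0
    · apply h6
      linear_combination h + (c + d * u) * h0

end A590
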