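import Pool.Agent.Lib.A590Iface

/-!
Block AL, part 1: polynomial identities and derivatives for the family on the cone.
-/

open scoped ComplexConjugate ComplexOrder ContDiff Topology InnerProductSpace
open MeasureTheory Filter

noncomputable section

namespace A590

section AL
variable {K : Type*} [CommRing K]

theorem AA_eq (c d X Y U T : K) :
    AA c d X Y U T = X * (c ^ 2 * X ^ 3 * T ^ 2) + U * cp c d X Y U T := by
  simp only [AA, cp, P0, Q0]; ring

theorem cross_UX (c d X Y U T : K) :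
    U * ZX c d X Y U T - X * ZU c X Y T = 2 * AA c d X Y U T * Y ^ 3 := by
  rw [AA_eq]; simp only [ZX, ZU]; ring

theorem cross_XY (c d p X Y U T : K) (hf : fF X Y U = 0) :
    X * ZY c d p X Y U T - Y * ZX c d X Y U T = 2 * AA c d X Y U T * U ^ 3 := by
  rw [AA_eq]; simp only [ZX, ZY, hf]
  simp only [fF] at hf
  linear_combination (-2 * cp c d X Y U T) * hf

theorem cross_YU (c d p X Y U T : K) (hf : fF X Y U = 0) :
    Y * ZU c X Y T - U * ZY c d p X Y U T = -2 * AA c d X Y U T * X ^ 3 := by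
  rw [AA_eq]; simp only [ZU, ZY, hf]
  simp only [fF] at hf
  linear_combination (-2 * (c ^ 2 * X ^ 3 * T ^ 2)) * hf

theorem disc_eq (c d X Y U T : K) :
    P0 c d X U ^ 2 * AA c d X Y U T = (P0 c d X U ^ 2 * T - Q0 X Y U * U ^ 3) ^ 2
      - U ^ 3 * (Q0 X Y U ^ 2 * U ^ 3 + Y * P0 c d X U ^ 3) := by
  simp only [AA]; ring

/-- the key identity; `(dX1, dX2)`, `(dY1, dY2)` are the derivatives of `(s1, s2)` -/
theorem key_T (c d u X Y U T : K) (hf : fF X Y U = 0) (hcd : c ^ 2 - d ^ 2 = 1) :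
    Y ^ 2 * (U * ZT c d u X Y U T - T * ZU c X Y T)
      + 2 * Y * ((Y ^ 3 * (2 * c * X * T ^ 2) + X ^ 3 * U ^ 3) * s2 c d X Y U T
        - (Y ^ 3 * (-U * T ^ 2 + Y * (2 * c * X) * T) + X ^ 3 * (2 * Y * T ^ 2 + P0 c d X U * T))
          * s1 c d X Y U T)
      = U * (N1 c d u X U (s1 c d X Y U T) (s2 c d X Y U T) * s2 c d X Y U T
        - N2 c d u X U (s1 c d X Y U T) (s2 c d X Y U T) * s1 c d X Y U T) := by
  simp only [fF] at hf
  simp only [ZT, ZU, s1, s2, N1, N2, P0, Q0]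
  linear_combination (2*X^3*Y*T^3*c^2 - X^2*U*T^4*c*d^2 - X^2*U*T^4*c - X^2*U*T^4*d^3*u
    - X^2*U*T^4*d*u - 4*X*Y^2*U^3*T*c + 4*X*Y^2*T^4*c + 2*X*Y*U^2*T^3*c*d - 2*Y*U^4*T^2*c^2
    - 2*Y*U^4*T^2*c*d*u + 2*Y*U^4*T^2 - U^3*T^4*c*d^2*u - U^3*T^4*d^3) * hf
    + (X^6*U*T^4*c + X^6*U*T^4*d*u - X^4*Y^2*U^3*T^2*c - X^4*U^3*T^4*c*u + X^4*U^3*T^4*d
    - 2*X^2*Y^3*U^3*T^3 - 2*X^2*Y^2*U^5*T^2*d - 2*X^2*Y*U^6*T^2*u - 2*X^2*U^5*T^4*d*u
    + 2*Y*U^8*T^2) * hcd
end AL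

theorem s_ne {c d x y t : ℂ} (hy : y ≠ 0) (hD : Q0 x y 1 ^ 2 + y * P0 c d x 1 ^ 3 ≠ 0) :
    (s1 c d x y 1 t, s2 c d x y 1 t) ≠ 0 := by
  intro h
  have h1 : s1 c d x y 1 t = 0 := congrArg Prod.fst h
  have h2 : s2 c d x y 1 t = 0 := congrArg Prod.snd h
  simp only [s1, s2] at h1 h2
  by_cases ht : t = 0
  · subst ht; apply hy; simpa using h1
  · have h3 : Q0 x y 1 * t + y * P0 c d x 1 = 0 := by
      apply mul_left_cancel₀ ht; linear_combination h2
    apply hD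
    apply mul_left_cancel₀ hy
    linear_combination (Q0 x y 1) ^ 2 * h1
      - P0 c d x 1 * (Q0 x y 1 * t - y * P0 c d x 1) * h3

theorem contDiff_coord (i : Fin 4) : ContDiff ℂ ∞ fun z : E 4 => z i :=
  (EuclideanSpace.proj i : E 4 →L[ℂ] ℂ).contDiff

theorem hasFDerivAt_coord (i : Fin 4) (z : E 4) :
    HasFDerivAt (fun z : E 4 => z i) (EuclideanSpace.proj i : E 4 →L[ℂ] ℂ) z :=
  (EuclideanSpace.proj i : E 4 →L[ℂ] ℂ).hasFDerivAt

theorem homMap_f4 : HomMap f4 4 := by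
  have h0 := contDiff_coord 0
  have h1 := contDiff_coord 1
  have h2 := contDiff_coord 2
  refine ⟨?_, fun c z => ?_⟩
  · unfold f4 fF; fun_prop
  · simp only [f4, fF, PiLp.smul_apply, smul_eq_mul]; ring

theorem homMap_A4 (c d : ℂ) : HomMap (A4 c d) 6 := by
  have h0 := contDiff_coord 0
  have h1 := contDiff_coord 1
  have h2 := contDiff_coord 2
  have h3 := contDiff_coord 3
  refine ⟨?_, fun a z => ?_⟩
  · unfold A4 AA P0 Q0; fun_prop
  · simp only [A4, AA, P0, Q0, PiLp.smul_apply, smul_eq_mul]; ring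

@[simp] theorem Z4_0 (c d u p : ℂ) (z : E 4) :
    Z4 c d u p z 0 = ZX c d (z 0) (z 1) (z 2) (z 3) := rfl
@[simp] theorem Z4_1 (c d u p : ℂ) (z : E 4) :
    Z4 c d u p z 1 = ZY c d p (z 0) (z 1) (z 2) (z 3) := rfl
@[simp] theorem Z4_2 (c d u p : ℂ) (z : E 4) :
    Z4 c d u p z 2 = ZU c (z 0) (z 1) (z 3) := rfl
@[simp] theorem Z4_3 (c d u p : ℂ) (z : E 4) :
    Z4 c d u p z 3 = ZT c d u (z 0) (z 1) (z 2) (z 3) := rfl

theorem homMap_Z4 (c d u p : ℂ) : HomMap (Z4 c d u p) 8 := by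
  have h0 := contDiff_coord 0
  have h1 := contDiff_coord 1
  have h2 := contDiff_coord 2
  have h3 := contDiff_coord 3
  refine ⟨?_, fun a z => ?_⟩
  · rw [contDiff_euclidean]
    intro i
    fin_cases i
    · change ContDiff ℂ ∞ fun z : E 4 => ZX c d (z 0) (z 1) (z 2) (z 3)
      unfold ZX cp P0 Q0; fun_prop
    · change ContDiff ℂ ∞ fun z : E 4 => ZY c d p (z 0) (z 1) (z 2) (z 3)
      unfold ZY cp P0 Q0 fF; fun_prop
    · change ContDiff ℂ ∞ fun z : E 4 => ZU c (z 0) (z 1) (z 3)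
      unfold ZU; fun_prop
    · change ContDiff ℂ ∞ fun z : E 4 => ZT c d u (z 0) (z 1) (z 2) (z 3)
      unfold ZT; fun_prop
  · ext i
    fin_cases i
    · change ZX c d (a * z 0) (a * z 1) (a * z 2) (a * z 3) = a ^ 8 * ZX c d (z 0) (z 1) (z 2) (z 3)
      simp only [ZX, cp, P0, Q0]; ring
    · change ZY c d p (a * z 0) (a * z 1) (a * z 2) (a * z 3)
        = a ^ 8 * ZY c d p (z 0) (z 1) (z 2) (z 3)
      simp only [ZY, cp, P0, Q0, fF]; ring
    · change ZU c (a * z 0) (a * z 1) (a * z 3) = a ^ 8 * ZU c (z 0) (z 1) (z 3)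
      simp only [ZU]; ring
    · change ZT c d u (a * z 0) (a * z 1) (a * z 2) (a * z 3)
        = a ^ 8 * ZT c d u (z 0) (z 1) (z 2) (z 3)
      simp only [ZT]; ring

/-- the derivative in a direction is the derivative along the line -/
theorem fderiv_eq_of_line {F : Type*} [NormedAddCommGroup F] [NormedSpace ℂ F] {g : E 4 → F}
    {z v : E 4} (hg : DifferentiableAt ℂ g z) {D : F}
    (h : HasDerivAt (fun t : ℂ => g (z + t • v)) D 0) : fderiv ℂ g z v = D := by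
  have h1 : HasLineDerivAt ℂ g (fderiv ℂ g z v) z v := hg.hasFDerivAt.hasLineDerivAt v
  exact h1.unique h

theorem hasDerivAt_line (z v : E 4) (i : Fin 4) :
    HasDerivAt (fun t : ℂ => (z + t • v) i) (v i) 0 := by
  have : (fun t : ℂ => (z + t • v) i) = fun t : ℂ => z i + t * v i := by
    funext t; simp
  rw [this]
  simpa using ((hasDerivAt_id (0 : ℂ)).mul_const (v i)).const_add (z i)

theorem fderiv_f4 (z v : E 4) :
    fderiv ℂ f4 z v = 4 * (z 1 ^ 3 * v 1 - z 0 ^ 3 * v 0 + z 2 ^ 3 * v 2) := by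
  apply fderiv_eq_of_line (homMap_f4.cd.differentiable (by simp) z)
  have h := (((hasDerivAt_line z v 1).fun_pow 4).fun_sub
    ((hasDerivAt_line z v 0).fun_pow 4)).fun_add ((hasDerivAt_line z v 2).fun_pow 4)
  refine h.congr_deriv ?_
  simp; ring

theorem tang4 (c d u p : ℂ) (z : E 4) :
    fderiv ℂ f4 z (Z4 c d u p z) = 4 * p * z 1 ^ 3 * z 2 ^ 2 * z 3 ^ 2 * f4 z := by
  rw [fderiv_f4]
  simp only [Z4_0, Z4_1, Z4_2, ZX, ZY, ZU, f4]
  ring

theorem fderiv_A4_T (c d : ℂ) (z : E 4) :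
    fderiv ℂ (A4 c d) z (EuclideanSpace.single 3 1)
      = 2 * (P0 c d (z 0) (z 2) ^ 2 * z 3 - Q0 (z 0) (z 1) (z 2) * z 2 ^ 3) := by
  apply fderiv_eq_of_line ((homMap_A4 c d).cd.differentiable (by simp) z)
  have e : (fun t : ℂ => A4 c d (z + t • EuclideanSpace.single 3 1)) = fun t : ℂ =>
      P0 c d (z 0) (z 2) ^ 2 * (z 3 + t) ^ 2 - 2 * Q0 (z 0) (z 1) (z 2) * z 2 ^ 3 * (z 3 + t)
        - z 1 * P0 c d (z 0) (z 2) * z 2 ^ 3 := by
    funext t
    simp [A4, AA]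
  rw [e]
  have h1 : HasDerivAt (fun t : ℂ => z 3 + t) 1 0 := (hasDerivAt_id (0 : ℂ)).const_add _
  have h := (((h1.pow 2).const_mul (P0 c d (z 0) (z 2) ^ 2)).sub
    (h1.const_mul (2 * Q0 (z 0) (z 1) (z 2) * z 2 ^ 3))).sub_const
      (z 1 * P0 c d (z 0) (z 2) * z 2 ^ 3)
  convert h using 1
  simp; ring

/-- if the plane part of `Z` is parallel to the plane part of `z` then `A = 0` -/
theorem A4_eq_zero {c d u p : ℂ} {z : E 4} (hf : f4 z = 0) (hz : ¬ (z 0 = 0 ∧ z 1 = 0 ∧ z 2 = 0))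
    (h1 : z 2 * Z4 c d u p z 0 = z 0 * Z4 c d u p z 2)
    (h2 : z 0 * Z4 c d u p z 1 = z 1 * Z4 c d u p z 0)
    (h3 : z 1 * Z4 c d u p z 2 = z 2 * Z4 c d u p z 1) : A4 c d z = 0 := by
  by_contra hA
  apply hz
  simp only [Z4_0, Z4_1, Z4_2] at h1 h2 h3
  have e1 := cross_UX c d (z 0) (z 1) (z 2) (z 3)
  have e2 := cross_XY c d p (z 0) (z 1) (z 2) (z 3) hf
  have e3 := cross_YU c d p (z 0) (z 1) (z 2) (z 3) hf
  have hA2 : 2 * AA c d (z 0) (z 1) (z 2) (z 3) ≠ 0 := mul_ne_zero two_ne_zero hA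
  refine ⟨?_, ?_, ?_⟩
  · apply pow_eq_zero_iff (n := 3) (by norm_num) |>.1
    apply mul_left_cancel₀ hA2
    linear_combination e3 - h3
  · apply pow_eq_zero_iff (n := 3) (by norm_num) |>.1
    apply mul_left_cancel₀ hA2
    linear_combination h1 - e1
  · apply pow_eq_zero_iff (n := 3) (by norm_num) |>.1
    apply mul_left_cancel₀ hA2
    linear_combination h2 - e2

theorem finite_quad {a b e : ℂ} (h : a ≠ 0 ∨ b ≠ 0) :
    {t : ℂ | a * t ^ 2 + b * t + e = 0}.Finite := by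
  have hp : (Polynomial.C a * Polynomial.X ^ 2 + Polynomial.C b * Polynomial.X
      + Polynomial.C e : Polynomial ℂ) ≠ 0 := by
    intro h0
    have h2 := congrArg (fun p => Polynomial.coeff p 2) h0
    have h1 := congrArg (fun p => Polynomial.coeff p 1) h0
    simp [Polynomial.coeff_C, Polynomial.coeff_X_pow] at h1 h2
    tauto
  refine (Polynomial.finite_setOfPred_isRoot hp).subset fun t ht => ?_
  simpa [Polynomial.IsRoot] using ht

/-- on each ruling `A` has finitely many roots -/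
theorem ruling_roots {c d u : ℂ} (h : Nice c d u) {X Y U : ℂ} (hf : fF X Y U = 0)
    (hz : ¬ (X = 0 ∧ Y = 0 ∧ U = 0)) : {t : ℂ | AA c d X Y U t = 0}.Finite := by
  have key : P0 c d X U ^ 2 ≠ 0 ∨ -2 * Q0 X Y U * U ^ 3 ≠ 0 := by
    by_cases hU : U = 0
    · left
      subst hU
      have hX : X ≠ 0 := by
        intro hX
        subst hX
        apply hz
        refine ⟨rfl, ?_, rfl⟩
        simpa [fF] using hf
      simp [P0, h.c_ne, hX]
    · have hf' : fF (X / U) (Y / U) 1 = 0 := by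
        simp only [fF] at hf ⊢
        field_simp
        linear_combination hf
      rcases h.noPQ _ _ hf' with h1 | h1
      · left
        refine pow_ne_zero _ fun h2 => h1 ?_
        simp only [P0] at h2 ⊢
        field_simp
        linear_combination h2
      · right
        refine mul_ne_zero (mul_ne_zero (by norm_num) fun h2 => h1 ?_) (pow_ne_zero _ hU)
        simp only [Q0] at h2 ⊢
        field_simp
        linear_combination h2
  refine (finite_quad (e := -(Y * P0 c d X U * U ^ 3)) key).subset fun t ht => ?_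
  simp only [Set.mem_ofPred_eq, AA] at ht ⊢
  linear_combination ht

/-- derivative of `s1` in the direction `(a, b, e, f)` -/
def Ds1 (c d X Y U T a b e f : ℂ) : ℂ :=
  (2 * d * U * e + 2 * c * X * a) * T ^ 2 + 2 * P0 c d X U * T * f + b * U ^ 3 + 3 * Y * U ^ 2 * e

/-- derivative of `s2` in the direction `(a, b, e, f)` -/
def Ds2 (c d X Y U T a b e f : ℂ) : ℂ :=
  (2 * Y * b - a * U - X * e) * T ^ 2 + 2 * Q0 X Y U * T * f + b * P0 c d X U * T
    + Y * (2 * d * U * e + 2 * c * X * a) * T + Y * P0 c d X U * f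

theorem hasDerivAt_s1 (c d : ℂ) (z v : E 4) :
    HasDerivAt (fun t : ℂ => (s4 c d (z + t • v)).1)
      (Ds1 c d (z 0) (z 1) (z 2) (z 3) (v 0) (v 1) (v 2) (v 3)) 0 := by
  have h0 := hasDerivAt_line z v 0
  have h1 := hasDerivAt_line z v 1
  have h2 := hasDerivAt_line z v 2
  have h3 := hasDerivAt_line z v 3
  have h := ((((h2.fun_pow 2).const_mul d).fun_add ((h0.fun_pow 2).const_mul c)).fun_mul
    (h3.fun_pow 2)).fun_add (h1.fun_mul (h2.fun_pow 3))
  refine h.congr_deriv ?_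
  simp [Ds1, P0]; ring

theorem hasDerivAt_s2 (c d : ℂ) (z v : E 4) :
    HasDerivAt (fun t : ℂ => (s4 c d (z + t • v)).2)
      (Ds2 c d (z 0) (z 1) (z 2) (z 3) (v 0) (v 1) (v 2) (v 3)) 0 := by
  have h0 := hasDerivAt_line z v 0
  have h1 := hasDerivAt_line z v 1
  have h2 := hasDerivAt_line z v 2
  have h3 := hasDerivAt_line z v 3
  have h := (((h1.fun_pow 2).fun_sub (h0.fun_mul h2)).fun_mul (h3.fun_pow 2)).fun_add
    ((h1.fun_mul (((h2.fun_pow 2).const_mul d).fun_add ((h0.fun_pow 2).const_mul c))).fun_mul h3)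
  refine h.congr_deriv ?_
  simp [Ds2, P0, Q0]; ring

theorem contDiff_s4 (c d : ℂ) : ContDiff ℂ ∞ (s4 c d) := by
  have h0 := contDiff_coord 0
  have h1 := contDiff_coord 1
  have h2 := contDiff_coord 2
  have h3 := contDiff_coord 3
  unfold s4 s1 s2 P0 Q0; fun_prop

theorem flat_alg {c d X Y U T a b e f n1 n2 : ℂ}
    (hUX : U * a - X * e = 2 * AA c d X Y U T * Y ^ 3)
    (hYU : Y * e - U * b = -2 * AA c d X Y U T * X ^ 3)
    (key : Y ^ 2 * (U * f - T * e)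
      + 2 * Y * ((Y ^ 3 * (2 * c * X * T ^ 2) + X ^ 3 * U ^ 3) * s2 c d X Y U T
        - (Y ^ 3 * (-U * T ^ 2 + Y * (2 * c * X) * T) + X ^ 3 * (2 * Y * T ^ 2 + P0 c d X U * T))
          * s1 c d X Y U T)
      = U * (n1 * s2 c d X Y U T - n2 * s1 c d X Y U T)) :
    U * (Y * (Ds1 c d X Y U T a b e f * s2 c d X Y U T - Ds2 c d X Y U T a b e f * s1 c d X Y U T)
      - AA c d X Y U T * (n1 * s2 c d X Y U T - n2 * s1 c d X Y U T)) = 0 := by
  have h : U * (Y * (Ds1 c d X Y U T a b e f * s2 c d X Y U T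
        - Ds2 c d X Y U T a b e f * s1 c d X Y U T))
      = Y * ((2 * c * X * T ^ 2) * s2 c d X Y U T
          - (-U * T ^ 2 + Y * (2 * c * X) * T) * s1 c d X Y U T) * (U * a - X * e)
        - Y * (U ^ 3 * s2 c d X Y U T - (2 * Y * T ^ 2 + P0 c d X U * T) * s1 c d X Y U T)
          * (Y * e - U * b)
        + AA c d X Y U T * (Y ^ 2 * (U * f - T * e)) := by
    simp only [Ds1, Ds2, s1, s2, AA, P0, Q0]; ring
  rw [hUX, hYU] at h
  linear_combination h + AA c d X Y U T * key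

theorem hasDerivAt_fst' {g : ℂ → ℂ × ℂ} {g' : ℂ × ℂ} {x : ℂ} (h : HasDerivAt g g' x) :
    HasDerivAt (fun t => (g t).1) g'.1 x :=
  (ContinuousLinearMap.fst ℂ ℂ ℂ).hasFDerivAt.comp_hasDerivAt x h

theorem hasDerivAt_snd' {g : ℂ → ℂ × ℂ} {g' : ℂ × ℂ} {x : ℂ} (h : HasDerivAt g g' x) :
    HasDerivAt (fun t => (g t).2) g'.2 x :=
  (ContinuousLinearMap.snd ℂ ℂ ℂ).hasFDerivAt.comp_hasDerivAt x h

theorem exists_lam {w s : ℂ × ℂ} (hs : s ≠ 0) (h : w.1 * s.2 - w.2 * s.1 = 0) :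
    ∃ lam : ℂ, w.1 = lam * s.1 ∧ w.2 = lam * s.2 := by
  by_cases h1 : s.1 = 0
  · have h2 : s.2 ≠ 0 := fun h2 => hs (Prod.ext h1 h2)
    refine ⟨w.2 / s.2, ?_, by field_simp⟩
    rw [h1] at h ⊢
    have : w.1 * s.2 = 0 := by linear_combination h
    simpa [h2] using this
  · refine ⟨w.1 / s.1, by field_simp, ?_⟩
    field_simp
    linear_combination -h

/-- the solutions are flat along `Z`: derivative of `det (φ (X / U), s)` along `Z` on the cone -/
theorem flat_Z {c d u p : ℂ} (hcd : c ^ 2 - d ^ 2 = 1) {z : E 4} (hf : f4 z = 0) (hU : z 2 ≠ 0)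
    (hY : z 1 ≠ 0) (hs : s4 c d z ≠ 0) : ∃ lam : ℂ, ∀ φ : ℂ → ℂ × ℂ, IsSol c d u φ (z 0 / z 2) →
      DifferentiableAt ℂ (fun w : E 4 => det2 (φ (w 0 / w 2)) (s4 c d w)) z ∧
      fderiv ℂ (fun w : E 4 => det2 (φ (w 0 / w 2)) (s4 c d w)) z (Z4 c d u p z)
        = lam * det2 (φ (z 0 / z 2)) (s4 c d z) := by
  have hf' : fF (z 0) (z 1) (z 2) = 0 := hf
  have hUX := cross_UX c d (z 0) (z 1) (z 2) (z 3)
  have hal := flat_alg hUX (cross_YU c d p (z 0) (z 1) (z 2) (z 3) hf')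
    (key_T c d u (z 0) (z 1) (z 2) (z 3) hf' hcd)
  have hal' := (mul_eq_zero.1 hal).resolve_left hU
  set v := Z4 c d u p z with hv
  set A := AA c d (z 0) (z 1) (z 2) (z 3) with hA
  set S1 := s1 c d (z 0) (z 1) (z 2) (z 3) with hS1
  set S2 := s2 c d (z 0) (z 1) (z 2) (z 3) with hS2
  set D1 := Ds1 c d (z 0) (z 1) (z 2) (z 3) (v 0) (v 1) (v 2) (v 3) with hD1
  set D2 := Ds2 c d (z 0) (z 1) (z 2) (z 3) (v 0) (v 1) (v 2) (v 3) with hD2
  have hal2 : z 1 * (D1 * S2 - D2 * S1)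
      - A * (N1 c d u (z 0) (z 2) S1 S2 * S2 - N2 c d u (z 0) (z 2) S1 S2 * S1) = 0 := hal'
  obtain ⟨lam, hl1, hl2⟩ := exists_lam (s := s4 c d z)
    (w := (D1 - A / z 1 * N1 c d u (z 0) (z 2) S1 S2, D2 - A / z 1 * N2 c d u (z 0) (z 2) S1 S2))
    hs (by
      change (D1 - A / z 1 * N1 c d u (z 0) (z 2) S1 S2) * S2
        - (D2 - A / z 1 * N2 c d u (z 0) (z 2) S1 S2) * S1 = 0
      field_simp
      linear_combination hal2)
  change D1 - A / z 1 * N1 c d u (z 0) (z 2) S1 S2 = lam * S1 at hl1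
  change D2 - A / z 1 * N2 c d u (z 0) (z 2) S1 S2 = lam * S2 at hl2
  refine ⟨lam, fun φ hφ => ?_⟩
  have hx : DifferentiableAt ℂ (fun w : E 4 => w 0 / w 2) z := by
    simp only [div_eq_mul_inv]
    exact (hasFDerivAt_coord 0 z).differentiableAt.fun_mul
      ((hasFDerivAt_coord 2 z).differentiableAt.fun_inv hU)
  have hφx : DifferentiableAt ℂ (fun w : E 4 => φ (w 0 / w 2)) z :=
    DifferentiableAt.comp (g := φ) (f := fun w : E 4 => w 0 / w 2) z hφ.differentiableAt hx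
  have hs4 : DifferentiableAt ℂ (s4 c d) z := (contDiff_s4 c d).differentiable (by simp) z
  have hdiff : DifferentiableAt ℂ (fun w : E 4 => det2 (φ (w 0 / w 2)) (s4 c d w)) z := by
    unfold det2
    exact (hφx.fst.mul hs4.snd).sub (hφx.snd.mul hs4.fst)
  refine ⟨hdiff, fderiv_eq_of_line hdiff ?_⟩
  have hxl : HasDerivAt (fun t : ℂ => (z + t • v) 0 / (z + t • v) 2)
      ((v 0 * z 2 - z 0 * v 2) / z 2 ^ 2) 0 := by
    have := (hasDerivAt_line z v 0).fun_div (hasDerivAt_line z v 2) (by simpa using hU)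
    simpa using this
  have hφ' : HasDerivAt φ (Mx c d u (z 0 / z 2) (φ (z 0 / z 2)))
      ((fun t : ℂ => (z + t • v) 0 / (z + t • v) 2) 0) := by
    simpa [IsSol] using hφ
  have hφl := hφ'.scomp (0 : ℂ) hxl
  have h := ((hasDerivAt_fst' hφl).fun_mul (hasDerivAt_s2 c d z v)).fun_sub
    ((hasDerivAt_snd' hφl).fun_mul (hasDerivAt_s1 c d z v))
  refine h.congr_deriv ?_
  have e0 : v 0 * z 2 - z 0 * v 2 = 2 * A * z 1 ^ 3 := by
    rw [← hUX]; simp only [hv, Z4_0, Z4_2]; ring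
  have e1 : (z 0 / z 2) ^ 4 - 1 = z 1 ^ 4 / z 2 ^ 4 := by
    simp only [fF] at hf'
    field_simp
    linear_combination -hf'
  have e2 : D1 = lam * S1 + A / z 1 * N1 c d u (z 0) (z 2) S1 S2 := by linear_combination hl1
  have e3 : D2 = lam * S2 + A / z 1 * N2 c d u (z 0) (z 2) S1 S2 := by linear_combination hl2
  simp only [zero_smul, add_zero, Function.comp, Prod.smul_fst, Prod.smul_snd, smul_eq_mul, Mx,
    det2, s4, ← hD1, ← hD2, ← hS1, ← hS2, e0, e1]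
  rw [e2, e3]
  simp only [N1, N2]
  field_simp
  ring

end A590
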