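import Pool.Agent.Lib.A590Iface

/-!
Calculus of `dz` and `dzb`.
-/

open scoped ComplexConjugate ComplexOrder ContDiff Topology InnerProductSpace
open MeasureTheory Filter

set_option linter.unusedSectionVars false

noncomputable section

namespace A590

variable {n : ℕ}

section K0
variable {V : Type*} [NormedAddCommGroup V] [NormedSpace ℝ V] [NormedSpace ℂ V]
  [IsScalarTower ℝ ℂ V]

theorem dz_congr {g h : V → ℂ} {z : V} (H : g =ᶠ[𝓝 z] h) (v : V) : dz g z v = dz h z v := by
  unfold dz; rw [H.fderiv_eq]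
theorem dzb_congr {g h : V → ℂ} {z : V} (H : g =ᶠ[𝓝 z] h) (v : V) : dzb g z v = dzb h z v := by
  unfold dzb; rw [H.fderiv_eq]
theorem dz_const (a : ℂ) (z v : V) : dz (fun _ => a) z v = 0 := by simp [dz]
theorem dzb_const (a : ℂ) (z v : V) : dzb (fun _ => a) z v = 0 := by simp [dzb]
theorem dz_add {g h : V → ℂ} {z : V} (hg : DifferentiableAt ℝ g z) (hh : DifferentiableAt ℝ h z)
    (v : V) : dz (fun w => g w + h w) z v = dz g z v + dz h z v := by
  unfold dz; rw [fderiv_fun_add hg hh]; simp only [add_apply]; ring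
theorem dzb_add {g h : V → ℂ} {z : V} (hg : DifferentiableAt ℝ g z) (hh : DifferentiableAt ℝ h z)
    (v : V) : dzb (fun w => g w + h w) z v = dzb g z v + dzb h z v := by
  unfold dzb; rw [fderiv_fun_add hg hh]; simp only [add_apply]; ring
theorem dz_sub {g h : V → ℂ} {z : V} (hg : DifferentiableAt ℝ g z) (hh : DifferentiableAt ℝ h z)
    (v : V) : dz (fun w => g w - h w) z v = dz g z v - dz h z v := by
  unfold dz; rw [fderiv_fun_sub hg hh]; simp only [sub_apply]; ring
theorem dzb_sub {g h : V → ℂ} {z : V} (hg : DifferentiableAt ℝ g z) (hh : DifferentiableAt ℝ h z)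
    (v : V) : dzb (fun w => g w - h w) z v = dzb g z v - dzb h z v := by
  unfold dzb; rw [fderiv_fun_sub hg hh]; simp only [sub_apply]; ring
theorem dz_mul {g h : V → ℂ} {z : V} (hg : DifferentiableAt ℝ g z) (hh : DifferentiableAt ℝ h z)
    (v : V) : dz (fun w => g w * h w) z v = dz g z v * h z + g z * dz h z v := by
  unfold dz; rw [fderiv_fun_mul hg hh]
  simp only [add_apply, smul_apply, smul_eq_mul]; ring
theorem dzb_mul {g h : V → ℂ} {z : V} (hg : DifferentiableAt ℝ g z) (hh : DifferentiableAt ℝ h z)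
    (v : V) : dzb (fun w => g w * h w) z v = dzb g z v * h z + g z * dzb h z v := by
  unfold dzb; rw [fderiv_fun_mul hg hh]
  simp only [add_apply, smul_apply, smul_eq_mul]; ring
theorem dz_sum {ι : Type*} (s : Finset ι) {g : ι → V → ℂ} {z : V}
    (hg : ∀ i ∈ s, DifferentiableAt ℝ (g i) z) (v : V) :
    dz (fun w => ∑ i ∈ s, g i w) z v = ∑ i ∈ s, dz (g i) z v := by
  unfold dz; rw [fderiv_fun_sum hg]
  simp only [sum_apply, Finset.mul_sum, ← Finset.sum_sub_distrib,
    Finset.sum_div]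
theorem dzb_sum {ι : Type*} (s : Finset ι) {g : ι → V → ℂ} {z : V}
    (hg : ∀ i ∈ s, DifferentiableAt ℝ (g i) z) (v : V) :
    dzb (fun w => ∑ i ∈ s, g i w) z v = ∑ i ∈ s, dzb (g i) z v := by
  unfold dzb; rw [fderiv_fun_sum hg]
  simp only [sum_apply, Finset.mul_sum, ← Finset.sum_add_distrib,
    Finset.sum_div]

omit [NormedSpace ℂ V] [IsScalarTower ℝ ℂ V] in
theorem fderiv_inv_apply {g : V → ℂ} {z : V} (hg : DifferentiableAt ℝ g z) (h0 : g z ≠ 0) (v : V) :
    fderiv ℝ (fun w => (g w)⁻¹) z v = -fderiv ℝ g z v / g z ^ 2 := by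
  have h1 : HasFDerivAt (fun x : ℂ => x⁻¹)
      ((ContinuousLinearMap.toSpanSingleton ℂ (-(g z ^ 2)⁻¹)).restrictScalars ℝ) (g z) :=
    (hasDerivAt_inv h0).hasFDerivAt.restrictScalars ℝ
  have h2 := (h1.comp z hg.hasFDerivAt).fderiv
  have : (fun w => (g w)⁻¹) = (fun x : ℂ => x⁻¹) ∘ g := rfl
  rw [this, h2]
  simp
  ring

theorem dz_inv {g : V → ℂ} {z : V} (hg : DifferentiableAt ℝ g z) (h0 : g z ≠ 0) (v : V) :
    dz (fun w => (g w)⁻¹) z v = -dz g z v / g z ^ 2 := by
  unfold dz; rw [fderiv_inv_apply hg h0, fderiv_inv_apply hg h0]; ring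
theorem dzb_inv {g : V → ℂ} {z : V} (hg : DifferentiableAt ℝ g z) (h0 : g z ≠ 0) (v : V) :
    dzb (fun w => (g w)⁻¹) z v = -dzb g z v / g z ^ 2 := by
  unfold dzb; rw [fderiv_inv_apply hg h0, fderiv_inv_apply hg h0]; ring

omit [NormedSpace ℂ V] [IsScalarTower ℝ ℂ V] in
theorem fderiv_conj_apply (g : V → ℂ) (z v : V) :
    fderiv ℝ (fun w => conj (g w)) z v = conj (fderiv ℝ g z v) := by
  have : (fun w => conj (g w)) = Complex.conjCLE ∘ g := rfl
  rw [this, ContinuousLinearEquiv.comp_fderiv]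
  simp

theorem dz_conj (g : V → ℂ) (z v : V) : dz (fun w => conj (g w)) z v = conj (dzb g z v) := by
  unfold dz dzb; rw [fderiv_conj_apply, fderiv_conj_apply]
  simp only [map_div₀, map_add, map_mul, Complex.conj_I, map_ofNat]; ring
theorem dzb_conj (g : V → ℂ) (z v : V) : dzb (fun w => conj (g w)) z v = conj (dz g z v) := by
  unfold dz dzb; rw [fderiv_conj_apply, fderiv_conj_apply]
  simp only [map_div₀, map_sub, map_mul, Complex.conj_I, map_ofNat]; ring

theorem fderiv_holo_apply {V' : Type*} [NormedAddCommGroup V'] [NormedSpace ℝ V']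
    [NormedSpace ℂ V'] [IsScalarTower ℝ ℂ V'] {g : V → V'} {z : V} (hg : DifferentiableAt ℂ g z)
    (v : V) : fderiv ℝ g z v = fderiv ℂ g z v := by
  rw [hg.fderiv_restrictScalars ℝ]; rfl

theorem dz_holo {g : V → ℂ} {z : V} (hg : DifferentiableAt ℂ g z) (v : V) :
    dz g z v = fderiv ℂ g z v := by
  unfold dz; rw [fderiv_holo_apply hg, fderiv_holo_apply hg, map_smul, smul_eq_mul]
  linear_combination (-(fderiv ℂ g z v) / 2) * Complex.I_mul_I
theorem dzb_holo {g : V → ℂ} {z : V} (hg : DifferentiableAt ℂ g z) (v : V) :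
    dzb g z v = 0 := by
  unfold dzb; rw [fderiv_holo_apply hg, fderiv_holo_apply hg, map_smul, smul_eq_mul]
  linear_combination ((fderiv ℂ g z v) / 2) * Complex.I_mul_I
theorem dz_add_vec (g : V → ℂ) (z v w : V) : dz g z (v + w) = dz g z v + dz g z w := by
  unfold dz; simp only [smul_add, map_add]; ring
theorem dzb_add_vec (g : V → ℂ) (z v w : V) : dzb g z (v + w) = dzb g z v + dzb g z w := by
  unfold dzb; simp only [smul_add, map_add]; ring

theorem real_clm_smul (L : V →L[ℝ] ℂ) (c : ℂ) (v : V) :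
    L (c • v) = c.re * L v + c.im * L (Complex.I • v) := by
  have h : c • v = c.re • v + c.im • (Complex.I • v) := by
    conv_lhs => rw [← Complex.re_add_im c]
    rw [add_smul, mul_smul]
    congr 1
    · exact IsScalarTower.algebraMap_smul ℂ c.re v
    · exact IsScalarTower.algebraMap_smul ℂ c.im _
  rw [h, map_add, map_smul, map_smul]; simp

theorem dz_smul_vec (g : V → ℂ) (z v : V) (c : ℂ) : dz g z (c • v) = c * dz g z v := by
  unfold dz
  rw [smul_smul, real_clm_smul _ c, real_clm_smul _ (Complex.I * c)]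
  conv_rhs => rw [← Complex.re_add_im c]
  simp only [Complex.mul_re, Complex.I_re, Complex.I_im, Complex.mul_im]
  push_cast
  linear_combination ((c.im : ℂ) * fderiv ℝ g z (Complex.I • v) / 2) * Complex.I_mul_I
theorem dzb_smul_vec (g : V → ℂ) (z v : V) (c : ℂ) :
    dzb g z (c • v) = conj c * dzb g z v := by
  unfold dzb
  rw [smul_smul, real_clm_smul _ c, real_clm_smul _ (Complex.I * c)]
  have hc : conj c = (c.re : ℂ) - c.im * Complex.I := by
    apply Complex.ext <;> simp
  rw [hc]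
  simp only [Complex.mul_re, Complex.I_re, Complex.I_im, Complex.mul_im]
  push_cast
  linear_combination ((c.im : ℂ) * fderiv ℝ g z (Complex.I • v) / 2) * Complex.I_mul_I
theorem dz_zero_vec (g : V → ℂ) (z : V) : dz g z 0 = 0 := by simp [dz]
theorem dzb_zero_vec (g : V → ℂ) (z : V) : dzb g z 0 = 0 := by simp [dzb]
theorem dz_sub_vec (g : V → ℂ) (z v w : V) : dz g z (v - w) = dz g z v - dz g z w := by
  unfold dz; simp only [smul_sub, map_sub]; ring
theorem dzb_sub_vec (g : V → ℂ) (z v w : V) : dzb g z (v - w) = dzb g z v - dzb g z w := by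
  unfold dzb; simp only [smul_sub, map_sub]; ring
/-- `fderiv ℝ = dz + dzb`. -/
theorem dz_add_dzb (g : V → ℂ) (z v : V) : dz g z v + dzb g z v = fderiv ℝ g z v := by
  unfold dz dzb; ring
theorem dzb_ofReal (ψ : V → ℝ) (z v : V) :
    dzb (fun w => (ψ w : ℂ)) z v = conj (rz ψ z v) := by
  rw [rz, ← dzb_conj]; simp only [Complex.conj_ofReal]

omit [NormedSpace ℂ V] [IsScalarTower ℝ ℂ V] in
theorem differentiableAt_ofReal {ψ : V → ℝ} {z : V} (h : DifferentiableAt ℝ ψ z) :
    DifferentiableAt ℝ (fun w => (ψ w : ℂ)) z :=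
  Complex.ofRealCLM.differentiableAt.comp z h

omit [NormedSpace ℂ V] [IsScalarTower ℝ ℂ V] in
theorem fderiv_ofReal_apply {ψ : V → ℝ} {z : V} (h : DifferentiableAt ℝ ψ z) (v : V) :
    fderiv ℝ (fun w => (ψ w : ℂ)) z v = (fderiv ℝ ψ z v : ℝ) := by
  have := (Complex.ofRealCLM.hasFDerivAt.comp z h.hasFDerivAt).fderiv
  have h2 : (fun w => (ψ w : ℂ)) = Complex.ofRealCLM ∘ ψ := rfl
  rw [h2, this]; simp

omit [IsScalarTower ℝ ℂ V] in
theorem rz_eq {ψ : V → ℝ} {z : V} (h : DifferentiableAt ℝ ψ z) (v : V) :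
    rz ψ z v = ((fderiv ℝ ψ z v : ℝ) - Complex.I * (fderiv ℝ ψ z (Complex.I • v) : ℝ)) / 2 := by
  rw [rz, dz, fderiv_ofReal_apply h, fderiv_ofReal_apply h]

/-- chain rule with a real function of a real function -/
theorem rz_comp {β : ℝ → ℝ} {s : V → ℝ} {z : V} (hβ : DifferentiableAt ℝ β (s z))
    (hs : DifferentiableAt ℝ s z) (v : V) :
    rz (fun w => β (s w)) z v = (deriv β (s z) : ℝ) * rz s z v := by
  have h1 : HasFDerivAt (fun w => β (s w)) (deriv β (s z) • fderiv ℝ s z) z :=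
    hβ.hasDerivAt.comp_hasFDerivAt z hs.hasFDerivAt
  rw [rz_eq h1.differentiableAt, rz_eq hs, h1.fderiv]
  simp only [smul_apply, smul_eq_mul]
  push_cast; ring
theorem rz_mul {g h : V → ℝ} {z : V} (hg : DifferentiableAt ℝ g z) (hh : DifferentiableAt ℝ h z)
    (v : V) : rz (fun w => g w * h w) z v = rz g z v * h z + g z * rz h z v := by
  unfold rz
  simp only [Complex.ofReal_mul]
  exact dz_mul (differentiableAt_ofReal hg) (differentiableAt_ofReal hh) v
theorem rz_add {g h : V → ℝ} {z : V} (hg : DifferentiableAt ℝ g z) (hh : DifferentiableAt ℝ h z)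
    (v : V) : rz (fun w => g w + h w) z v = rz g z v + rz h z v := by
  unfold rz
  simp only [Complex.ofReal_add]
  exact dz_add (differentiableAt_ofReal hg) (differentiableAt_ofReal hh) v
theorem rz_sub {g h : V → ℝ} {z : V} (hg : DifferentiableAt ℝ g z) (hh : DifferentiableAt ℝ h z)
    (v : V) : rz (fun w => g w - h w) z v = rz g z v - rz h z v := by
  unfold rz
  simp only [Complex.ofReal_sub]
  exact dz_sub (differentiableAt_ofReal hg) (differentiableAt_ofReal hh) v
theorem rz_const (a : ℝ) (z v : V) : rz (fun _ => a) z v = 0 := dz_const _ _ _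
theorem rz_congr {g h : V → ℝ} {z : V} (H : g =ᶠ[𝓝 z] h) (v : V) : rz g z v = rz h z v :=
  dz_congr (H.mono fun w hw => by simp only [hw]) v
theorem rz_add_vec (g : V → ℝ) (z v w : V) : rz g z (v + w) = rz g z v + rz g z w :=
  dz_add_vec _ _ _ _
theorem rz_sub_vec (g : V → ℝ) (z v w : V) : rz g z (v - w) = rz g z v - rz g z w :=
  dz_sub_vec _ _ _ _
theorem rz_smul_vec (g : V → ℝ) (z v : V) (c : ℂ) : rz g z (c • v) = c * rz g z v :=
  dz_smul_vec _ _ _ _
theorem rz_inv {g : V → ℝ} {z : V} (hg : DifferentiableAt ℝ g z) (h0 : g z ≠ 0) (v : V) :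
    rz (fun w => (g w)⁻¹) z v = -rz g z v / (g z : ℂ) ^ 2 := by
  unfold rz
  simp only [Complex.ofReal_inv]
  exact dz_inv (differentiableAt_ofReal hg) (by exact_mod_cast h0) v
/-- real part of a complex function -/
theorem rz_re {g : V → ℂ} {z : V} (hg : DifferentiableAt ℝ g z) (v : V) :
    rz (fun w => (g w).re) z v = (dz g z v + conj (dzb g z v)) / 2 := by
  have h : (fun w => (((g w).re : ℝ) : ℂ)) = fun w => (g w + conj (g w)) * 2⁻¹ := by
    funext w; rw [Complex.re_eq_add_conj]; ring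
  have hc : DifferentiableAt ℝ (fun w => conj (g w)) z :=
    Complex.conjCLE.differentiableAt.comp z hg
  rw [rz, h, dz_mul (hg.fun_add hc) (differentiableAt_const _), dz_const, dz_add hg hc, dz_conj]
  ring

/-- chain rule with a holomorphic inner map -/
theorem dz_comp_holo {V' : Type*} [NormedAddCommGroup V'] [NormedSpace ℝ V'] [NormedSpace ℂ V']
    [IsScalarTower ℝ ℂ V'] {G : V' → ℂ} {x : V → V'} {z : V} (hG : DifferentiableAt ℝ G (x z))
    (hx : DifferentiableAt ℂ x z) (v : V) :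
    dz (fun w => G (x w)) z v = dz G (x z) (fderiv ℂ x z v) := by
  unfold dz
  rw [fderiv_fun_comp z hG (hx.restrictScalars ℝ)]
  simp only [ContinuousLinearMap.comp_apply, fderiv_holo_apply hx, map_smul]
theorem dzb_comp_holo {V' : Type*} [NormedAddCommGroup V'] [NormedSpace ℝ V'] [NormedSpace ℂ V']
    [IsScalarTower ℝ ℂ V'] {G : V' → ℂ} {x : V → V'} {z : V} (hG : DifferentiableAt ℝ G (x z))
    (hx : DifferentiableAt ℂ x z) (v : V) :
    dzb (fun w => G (x w)) z v = dzb G (x z) (fderiv ℂ x z v) := by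
  unfold dzb
  rw [fderiv_fun_comp z hG (hx.restrictScalars ℝ)]
  simp only [ContinuousLinearMap.comp_apply, fderiv_holo_apply hx, map_smul]
theorem rz_comp_holo {V' : Type*} [NormedAddCommGroup V'] [NormedSpace ℝ V'] [NormedSpace ℂ V']
    [IsScalarTower ℝ ℂ V'] {G : V' → ℝ} {x : V → V'} {z : V} (hG : DifferentiableAt ℝ G (x z))
    (hx : DifferentiableAt ℂ x z) (v : V) :
    rz (fun w => G (x w)) z v = rz G (x z) (fderiv ℂ x z v) :=
  dz_comp_holo (G := fun w => (G w : ℂ)) (differentiableAt_ofReal hG) hx v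

/-- derivatives of the inner product of two holomorphic maps -/
theorem dz_inner {F : Type*} [NormedAddCommGroup F] [InnerProductSpace ℂ F] {P Q : V → F} {z : V}
    (hP : DifferentiableAt ℂ P z) (hQ : DifferentiableAt ℂ Q z) (v : V) :
    DifferentiableAt ℝ (fun w => ⟪P w, Q w⟫_ℂ) z ∧
    dz (fun w => ⟪P w, Q w⟫_ℂ) z v = ⟪P z, fderiv ℂ Q z v⟫_ℂ ∧
    dzb (fun w => ⟪P w, Q w⟫_ℂ) z v = ⟪fderiv ℂ P z v, Q z⟫_ℂ := by
  have h := HasFDerivAt.inner ℂ (hP.hasFDerivAt.restrictScalars ℝ)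
    (hQ.hasFDerivAt.restrictScalars ℝ)
  refine ⟨h.differentiableAt, ?_, ?_⟩
  · unfold dz
    rw [h.fderiv]
    simp only [ContinuousLinearMap.comp_apply, fderivInnerCLM_apply, ContinuousLinearMap.prod_apply,
      ContinuousLinearMap.coe_restrictScalars', map_smul, inner_smul_left, inner_smul_right,
      Complex.conj_I]
    linear_combination
      ((⟪fderiv ℂ P z v, Q z⟫_ℂ - ⟪P z, fderiv ℂ Q z v⟫_ℂ) / 2) * Complex.I_mul_I
  · unfold dzb
    rw [h.fderiv]
    simp only [ContinuousLinearMap.comp_apply, fderivInnerCLM_apply, ContinuousLinearMap.prod_apply,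
      ContinuousLinearMap.coe_restrictScalars', map_smul, inner_smul_left, inner_smul_right,
      Complex.conj_I]
    linear_combination
      ((⟪P z, fderiv ℂ Q z v⟫_ℂ - ⟪fderiv ℂ P z v, Q z⟫_ℂ) / 2) * Complex.I_mul_I

/-- square norm of a holomorphic map -/
theorem rz_normSq {F : Type*} [NormedAddCommGroup F] [InnerProductSpace ℂ F] {P : V → F} {z : V}
    (hP : DifferentiableAt ℂ P z) (v : V) :
    rz (fun w => ‖P w‖ ^ 2) z v = ⟪P z, fderiv ℂ P z v⟫_ℂ := by
  have h : (fun w => ((‖P w‖ ^ 2 : ℝ) : ℂ)) = fun w => ⟪P w, P w⟫_ℂ := by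
    funext w; rw [inner_self_eq_norm_sq_to_K]; simp
  rw [rz, h, (dz_inner hP hP v).2.1]

theorem differentiableAt_normSq {F : Type*} [NormedAddCommGroup F] [InnerProductSpace ℂ F]
    {P : V → F} {z : V} (hP : DifferentiableAt ℂ P z) :
    DifferentiableAt ℝ (fun w => ‖P w‖ ^ 2) z :=
  (hP.restrictScalars ℝ).norm_sq ℂ

omit [IsScalarTower ℝ ℂ V] in
theorem norm_dz_le (g : V → ℂ) (z v : V) : ‖dz g z v‖ ≤ ‖fderiv ℝ g z‖ * ‖v‖ := by
  unfold dz
  have h1 := (fderiv ℝ g z).le_opNorm v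
  have h2 := (fderiv ℝ g z).le_opNorm (Complex.I • v)
  rw [norm_smul, Complex.norm_I, one_mul] at h2
  have h3 := norm_sub_le (fderiv ℝ g z v) (Complex.I * fderiv ℝ g z (Complex.I • v))
  rw [norm_mul, Complex.norm_I, one_mul] at h3
  rw [norm_div, Complex.norm_ofNat]; linarith
omit [IsScalarTower ℝ ℂ V] in
theorem norm_dzb_le (g : V → ℂ) (z v : V) : ‖dzb g z v‖ ≤ ‖fderiv ℝ g z‖ * ‖v‖ := by
  unfold dzb
  have h1 := (fderiv ℝ g z).le_opNorm v
  have h2 := (fderiv ℝ g z).le_opNorm (Complex.I • v)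
  rw [norm_smul, Complex.norm_I, one_mul] at h2
  have h3 := norm_add_le (fderiv ℝ g z v) (Complex.I * fderiv ℝ g z (Complex.I • v))
  rw [norm_mul, Complex.norm_I, one_mul] at h3
  rw [norm_div, Complex.norm_ofNat]; linarith

/-- Euler: if `g (c • z) = c ^ k * g z` for `c` near `1` then `dz g z z = k * g z`, `dzb g z z = 0` -/
theorem dz_radial {g : V → ℂ} {z : V} (hg : DifferentiableAt ℝ g z) (k : ℤ)
    (h : ∀ᶠ c in 𝓝 (1 : ℂ), g (c • z) = c ^ k * g z) :
    dz g z z = k * g z ∧ dzb g z z = 0 := by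
  have hx : DifferentiableAt ℂ (fun c : ℂ => c • z) 1 := by fun_prop
  have hg' : DifferentiableAt ℝ g ((fun c : ℂ => c • z) 1) := by simpa using hg
  have hd : fderiv ℂ (fun c : ℂ => c • z) 1 1 = z := by
    have : HasDerivAt (fun c : ℂ => c • z) ((1 : ℂ) • z) 1 := (hasDerivAt_id (1 : ℂ)).smul_const z
    rw [fderiv_apply_one_eq_deriv, this.deriv, one_smul]
  have hp : HasDerivAt (fun c : ℂ => c ^ k * g z) ((k : ℂ) * 1 ^ (k - 1) * g z) 1 :=
    (hasDerivAt_zpow k (1 : ℂ) (Or.inl one_ne_zero)).mul_const _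
  have h1 := dz_comp_holo (x := fun c : ℂ => c • z) (z := 1) hg' hx (1 : ℂ)
  have h2 := dzb_comp_holo (x := fun c : ℂ => c • z) (z := 1) hg' hx (1 : ℂ)
  rw [hd, one_smul] at h1 h2
  rw [dz_congr h, dz_holo hp.differentiableAt, fderiv_apply_one_eq_deriv, hp.deriv] at h1
  rw [dzb_congr h, dzb_holo hp.differentiableAt] at h2
  exact ⟨by rw [← h1]; simp, h2.symm⟩

/-- scaling of the derivatives -/
theorem dz_scale {g : V → ℂ} {z : V} {c a : ℂ} (hc : c ≠ 0) (hg : DifferentiableAt ℝ g z)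
    (hgc : DifferentiableAt ℝ g (c • z))
    (h : ∀ᶠ w in 𝓝 z, g (c • w) = a * g w) (v : V) :
    dz g (c • z) v = a * c⁻¹ * dz g z v ∧ dzb g (c • z) v = a * (conj c)⁻¹ * dzb g z v := by
  have hx : DifferentiableAt ℂ (fun w : V => c • w) z := by fun_prop
  have hd : fderiv ℂ (fun w : V => c • w) z v = c • v := by
    rw [fderiv_fun_const_smul differentiableAt_fun_id]; simp
  have h1 := dz_comp_holo (G := g) hgc hx v
  have h2 := dzb_comp_holo (G := g) hgc hx v
  rw [hd, dz_smul_vec, dz_congr h, dz_mul (differentiableAt_const _) hg, dz_const] at h1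
  rw [hd, dzb_smul_vec, dzb_congr h, dzb_mul (differentiableAt_const _) hg, dzb_const] at h2
  have hc' : conj c ≠ 0 := by simpa using hc
  constructor
  · field_simp; linear_combination -h1
  · field_simp; linear_combination -h2

theorem contDiffAt_dz {g : V → ℂ} {z : V} (hg : ContDiffAt ℝ ∞ g z) (v : V) :
    ContDiffAt ℝ ∞ (fun p : V × V => dz g p.1 p.2) (z, v) ∧
    ContDiffAt ℝ ∞ (fun p : V × V => dzb g p.1 p.2) (z, v) := by
  have h1 : ContDiffAt ℝ ∞ (fun p : V × V => fderiv ℝ g p.1) (z, v) :=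
    (hg.fderiv_right (m := ∞) (by simp)).comp (z, v) contDiffAt_fst
  have h2 : ContDiffAt ℝ ∞ (fun p : V × V => fderiv ℝ g p.1 p.2) (z, v) :=
    h1.clm_apply contDiffAt_snd
  have hI : ContDiff ℝ ∞ (fun p : V × V => Complex.I • p.2) :=
    (((Complex.I • ContinuousLinearMap.id ℂ V).restrictScalars ℝ).contDiff).comp contDiff_snd
  have h3 : ContDiffAt ℝ ∞ (fun p : V × V => fderiv ℝ g p.1 (Complex.I • p.2)) (z, v) :=
    h1.clm_apply hI.contDiffAt
  constructor
  · exact (h2.sub (contDiffAt_const.mul h3)).div_const _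
  · exact (h2.add (contDiffAt_const.mul h3)).div_const _

theorem contDiffAt_dz_fixed {g : V → ℂ} {z : V} (hg : ContDiffAt ℝ ∞ g z) (v : V) :
    ContDiffAt ℝ ∞ (fun w : V => dz g w v) z ∧ ContDiffAt ℝ ∞ (fun w : V => dzb g w v) z :=
  ⟨(contDiffAt_dz hg v).1.comp z (f := fun w : V => (w, v)) (by fun_prop),
    (contDiffAt_dz hg v).2.comp z (f := fun w : V => (w, v)) (by fun_prop)⟩
end K0

theorem eq_sum_single (v : E n) : v = ∑ j, v j • EuclideanSpace.single j (1 : ℂ) := by
  ext i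
  simp [Pi.single_apply]

theorem dz_eq_sum (g : E n → ℂ) (z v : E n) : dz g z v = ∑ j, pd j g z * v j := by
  conv_lhs => rw [eq_sum_single v]
  have : ∀ s : Finset (Fin n), dz g z (∑ j ∈ s, v j • EuclideanSpace.single j (1 : ℂ))
      = ∑ j ∈ s, pd j g z * v j := by
    intro s
    induction s using Finset.induction_on with
    | empty => simp [dz_zero_vec]
    | insert a s ha ih => rw [Finset.sum_insert ha, Finset.sum_insert ha, dz_add_vec, ih,
        dz_smul_vec, pd, mul_comm]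
  exact this _
theorem dzb_eq_sum (g : E n → ℂ) (z v : E n) : dzb g z v = ∑ k, pdb k g z * conj (v k) := by
  conv_lhs => rw [eq_sum_single v]
  have : ∀ s : Finset (Fin n), dzb g z (∑ j ∈ s, v j • EuclideanSpace.single j (1 : ℂ))
      = ∑ j ∈ s, pdb j g z * conj (v j) := by
    intro s
    induction s using Finset.induction_on with
    | empty => simp [dzb_zero_vec]
    | insert a s ha ih => rw [Finset.sum_insert ha, Finset.sum_insert ha, dzb_add_vec, ih,
        dzb_smul_vec, pdb, mul_comm]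
  exact this _

theorem st_contDiff : ContDiff ℝ ∞ st :=
  Real.smoothTransition.contDiff.comp (contDiff_id.sub contDiff_const)
theorem st_zero {x : ℝ} (h : x ≤ 1) : st x = 0 :=
  Real.smoothTransition.zero_of_nonpos (by linarith)
theorem st_one {x : ℝ} (h : 2 ≤ x) : st x = 1 :=
  Real.smoothTransition.one_of_one_le (by linarith)
theorem st_pos {x : ℝ} (h : 1 < x) : 0 < st x :=
  Real.smoothTransition.pos_of_pos (by linarith)
theorem st_lt_one {x : ℝ} (h : x < 2) : st x < 1 :=
  Real.smoothTransition.lt_one_of_lt_one (by linarith)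
theorem st_nonneg (x : ℝ) : 0 ≤ st x := Real.smoothTransition.nonneg _
theorem st_le_one (x : ℝ) : st x ≤ 1 := Real.smoothTransition.le_one _
theorem st_mono : Monotone st := fun _ _ h =>
  Real.smoothTransition.monotone (by linarith)
@[fun_prop] theorem st_continuous : Continuous st := st_contDiff.continuous
theorem st_differentiable : Differentiable ℝ st := st_contDiff.differentiable (by simp)
@[fun_prop] theorem st_deriv_continuous : Continuous (deriv st) :=
  st_contDiff.continuous_deriv (by simp)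
theorem st_deriv_zero {x : ℝ} (h : x < 1 ∨ 2 < x) : deriv st x = 0 := by
  rcases h with h | h
  · have : st =ᶠ[𝓝 x] fun _ => 0 :=
      (gt_mem_nhds h).mono fun y hy => st_zero (le_of_lt hy)
    rw [this.deriv_eq]; simp
  · have : st =ᶠ[𝓝 x] fun _ => 1 :=
      (lt_mem_nhds h).mono fun y hy => st_one (le_of_lt hy)
    rw [this.deriv_eq]; simp
theorem st_deriv : ∃ C : ℝ, ∀ x, 0 ≤ deriv st x ∧ deriv st x ≤ C ∧
    ((x < 1 ∨ 2 < x) → deriv st x = 0) := by
  obtain ⟨C, hC⟩ := (isCompact_Icc (a := (1 : ℝ)) (b := 2)).exists_bound_of_continuousOn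
    st_deriv_continuous.continuousOn
  refine ⟨max C 0, fun x => ⟨st_mono.deriv_nonneg, ?_, st_deriv_zero⟩⟩
  by_cases hx : x ∈ Set.Icc (1 : ℝ) 2
  · exact ((le_abs_self _).trans (hC x hx)).trans (le_max_left _ _)
  · rw [st_deriv_zero]
    · exact le_max_right _ _
    · rw [Set.mem_Icc, not_and_or, not_le, not_le] at hx; exact hx

end A590
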