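import Pool.Agent.Lib.A590Leak2

/-!
The leak estimates, part 3.
-/

open scoped ComplexConjugate ComplexOrder ContDiff Topology InnerProductSpace
open MeasureTheory Filter

noncomputable section

namespace A590

variable {n : ℕ}

namespace PL

theorem real_D {l N D R h ε c K t a b A H C C1 : ℝ} (hl : 0 < l) (hD : 0 ≤ D) (hR : 0 ≤ R)
    (hc : 0 < c) (hK : 0 < K) (hε : 0 < ε) (hA : 0 < A) (ha : 0 ≤ a) (haA : a ≤ A) (hbH : b ≤ H)
    (hH : 0 ≤ H) (hKH : 2 * H ≤ K) (hC : 0 ≤ C) (hC1 : 0 ≤ C1) (hN : ε * c / 2 ≤ N)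
    (e : N * D = l * h) (h1 : l * a - ε * b ≤ h) (h2 : h ≤ l * a + ε * b)
    (e2 : N * R ≤ l ^ 2 * C1 + ε * (C1 * l + C * a)) (ht : t = K * ε / A) :
    D * R ≤ l * (2 * C1 / c * (D ^ 2 / ε) + C1 / c * (l ^ 2 / ε + ε)
      + (if t ≤ l then 2 * C * A / K * (t * D ^ 2 / l ^ 3) else 0) + 4 * (K + H) * C / c ^ 2 * a) := by
  have hN0 : 0 < N := lt_of_lt_of_le (by positivity) hN
  have ht0 : 0 < t := by rw [ht]; positivity
  have s1 : R ≤ (l ^ 2 * C1 + ε * (C1 * l)) / (ε * c / 2) + ε * C * a / N := by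
    have : R ≤ (l ^ 2 * C1 + ε * (C1 * l)) / N + ε * C * a / N := by
      rw [← add_div, le_div_iff₀ hN0]; linarith
    refine this.trans (add_le_add_left ?_ _)
    gcongr
  have s2 : D * ((l ^ 2 * C1 + ε * (C1 * l)) / (ε * c / 2))
      ≤ l * (2 * C1 / c * (D ^ 2 / ε) + C1 / c * (l ^ 2 / ε + ε)) := by
    have k1 : D * ((l ^ 2 * C1 + ε * (C1 * l)) / (ε * c / 2))
        = l * (C1 / (c * ε) * (2 * D * l + 2 * D * ε)) := by field_simp
    have k2 : l * (2 * C1 / c * (D ^ 2 / ε) + C1 / c * (l ^ 2 / ε + ε))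
        = l * (C1 / (c * ε) * (2 * D ^ 2 + l ^ 2 + ε ^ 2)) := by field_simp; ring
    rw [k1, k2]
    refine mul_le_mul_of_nonneg_left (mul_le_mul_of_nonneg_left ?_ (by positivity)) hl.le
    nlinarith [sq_nonneg (D - l), sq_nonneg (D - ε)]
  have s3 : D * (ε * C * a / N) ≤ l * ((if t ≤ l then 2 * C * A / K * (t * D ^ 2 / l ^ 3) else 0)
      + 4 * (K + H) * C / c ^ 2 * a) := by
    have hb : ε * b ≤ ε * H := by gcongr
    by_cases hc1 : K * ε ≤ l * a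
    · have k0 : t ≤ l := by
        rw [ht, div_le_iff₀ hA]; exact hc1.trans (by gcongr)
      rw [if_pos k0]
      have k1 : l * a / 2 ≤ h := by nlinarith
      have k2 : l * (l * a / 2) ≤ N * D := e ▸ mul_le_mul_of_nonneg_left k1 hl.le
      have k3 : a / N ≤ 2 * D / l ^ 2 := by
        rw [div_le_div_iff₀ hN0 (by positivity)]; nlinarith
      have k4 : l * (2 * C * A / K * (t * D ^ 2 / l ^ 3)) = D * (ε * C * (2 * D / l ^ 2)) := by
        rw [ht]; field_simp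
      have k5 : 0 ≤ l * (4 * (K + H) * C / c ^ 2 * a) := by positivity
      have k6 : D * (ε * C * a / N) ≤ D * (ε * C * (2 * D / l ^ 2)) := by
        rw [mul_div_assoc]; gcongr
      rw [mul_add, k4]; linarith
    · have k1 : D ≤ 2 * (K + H) / c * l :=
        real_small hl.le hD hε hc hN e (by nlinarith)
      have k2 : ε * C * a / N ≤ ε * C * a / (ε * c / 2) := by gcongr
      have k3 : 0 ≤ l * (if t ≤ l then 2 * C * A / K * (t * D ^ 2 / l ^ 3) else 0) := by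
        split_ifs <;> positivity
      have k4 : D * (ε * C * a / N) ≤ (2 * (K + H) / c * l) * (ε * C * a / (ε * c / 2)) := by
        gcongr
      have k5 : (2 * (K + H) / c * l) * (ε * C * a / (ε * c / 2))
          = l * (4 * (K + H) * C / c ^ 2 * a) := by field_simp; ring
      rw [mul_add]; linarith
  have := mul_le_mul_of_nonneg_left s1 hD
  nlinarith

end PL

open PL

/-- Case D: the flux through the level `ϑ ε` is `O(ϑ)`. -/
theorem Degen.plD {S : Setup n} (D : Degen S) (hj : S.j = 2)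
    (hY : ∀ᵐ ξ ∂(D.m0 : Measure (Xi n)), S.f ξ.z = 0 → S.W ξ.z = 0)
    {ψ : E n → ℝ} (hψ : RHom0 ψ) (hpos : ∀ z, 0 ≤ ψ z)
    (hreg : ∀ z ∈ tsupport ψ, ‖z‖ = 1 → S.f z = 0 → ∀ c : ℂ, S.Z z ≠ c • z) {C : ℝ}
    (hZ : ∀ z : E n, ‖z‖ = 1 → ‖rz ψ z (S.Z z)‖ ≤ C * (‖S.f z‖ + ‖S.W z‖)) :
    ∃ C' ϑ0 : ℝ, 0 < ϑ0 ∧ ∀ ϑ : ℝ, 0 < ϑ → ϑ < ϑ0 → ∀ η : ℝ, 0 < η → ∀ᶠ k in atTop,
      ∫ ξ, ψ ξ.z * (deriv st (‖S.f ξ.z‖ ^ 2 / (ϑ * D.ε k)) / (ϑ * D.ε k)
        * ‖fderiv ℂ S.f ξ.z ξ.v‖ ^ 2) ∂(D.m k : Measure (Xi n)) ≤ C' * ϑ + η := by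
  have hf := S.hf.cont
  have hZc := S.hZ.cont
  have hψc := hψ.cont
  have hDc := S.hf.cont_Dxi Xi.continuous_v
  have hK : IsClosed {ξ : Xi n | ξ.z ∈ tsupport ψ} := (isClosed_tsupport ψ).preimage Xi.continuous_z
  have hs : Continuous fun ξ : Xi n => ‖S.f ξ.z‖ ^ 2 := by fun_prop
  have hz0 : ∀ ξ : Xi n, ‖S.f ξ.z‖ ^ 2 = 0 → S.f ξ.z = 0 := fun ξ h => by simpa using h
  obtain ⟨c, hc, H2⟩ := exists_lower hK ((cont_perp hZc).comp Xi.continuous_z).norm hs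
    (fun _ => norm_nonneg _) (fun _ => sq_nonneg _) fun ξ hξ h =>
      perp_ne (hreg _ hξ ξ.norm_z (hz0 ξ h))
  have hηc := (cont_eta S).comp Xi.continuous_z
  obtain ⟨A, hA, HA⟩ := exists_bound hηc
  obtain ⟨H, hH, HH⟩ := exists_bound ((cont_ht S).comp Xi.continuous_z)
  obtain ⟨Q, hQ, HQ⟩ := exists_bound
    ((cont_perp (continuous_const (y := S.q))).comp Xi.continuous_z)
  obtain ⟨Cq, hCq, HCq⟩ := exists_bound (hψ.cont_rz (continuous_const (y := S.q)))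
  obtain ⟨Fb, hFb, HF⟩ := exists_bound (hf.comp Xi.continuous_z)
  simp only [Function.comp_def] at H2 HA HH HQ HCq HF hηc
  set C0 := max C 1 with hC0
  have hC00 : 0 < C0 := by positivity
  set C1 := max Cq (C0 * (1 + S.r * ‖S.q‖)) with hC1
  have hC10 : 0 < C1 := by positivity
  have hZ' : ∀ ξ : Xi n, ‖rz ψ ξ.z (S.Z ξ.z)‖ ≤ C1 * ‖S.f ξ.z‖ + C0 * ‖eta S ξ.z‖ := by
    intro ξ
    have k1 : ‖S.W ξ.z‖ ≤ ‖eta S ξ.z‖ + S.r * ‖S.q‖ * ‖S.f ξ.z‖ := by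
      have e : S.W ξ.z = eta S ξ.z + S.r * S.f ξ.z * ⟪ξ.z, S.q⟫_ℂ := by simp [eta]
      rw [e]
      refine (norm_add_le _ _).trans (add_le_add_right ?_ _)
      have k2 := norm_inner_le_norm (𝕜 := ℂ) ξ.z S.q
      rw [ξ.norm_z, one_mul] at k2
      rw [norm_mul, norm_mul, Complex.norm_natCast]
      calc _ ≤ S.r * ‖S.f ξ.z‖ * ‖S.q‖ := by gcongr
        _ = _ := by ring
    have k3 : C0 * (1 + S.r * ‖S.q‖) * ‖S.f ξ.z‖ ≤ C1 * ‖S.f ξ.z‖ := by
      gcongr; exact le_max_right _ _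
    calc _ ≤ C * (‖S.f ξ.z‖ + ‖S.W ξ.z‖) := hZ _ ξ.norm_z
      _ ≤ C0 * (‖S.f ξ.z‖ + (‖eta S ξ.z‖ + S.r * ‖S.q‖ * ‖S.f ξ.z‖)) := by
          gcongr; exact le_max_left _ _
      _ ≤ _ := by linarith
  have hr : (1 : ℝ) ≤ S.r := by exact_mod_cast S.hr
  refine ⟨2 * C1 / c * (9 * S.r) + 2 * C1 / c, c / (4 * Q), by positivity,
    fun ϑ hϑ hϑ0 η hη => ?_⟩
  set K := max (2 * H) (36 * C0 * A * S.r / η) with hKdef
  have hK0 : 0 < K := lt_max_of_lt_left (by positivity)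
  have hK1 : 2 * H ≤ K := le_max_left _ _
  have hK2 : 36 * C0 * A * S.r ≤ K * η := by
    rw [← div_le_iff₀ hη]; exact le_max_right _ _
  set C2 := 4 * (K + H) * C0 / c ^ 2 with hC2
  obtain ⟨e, he, He⟩ := small_null D hηc.norm (fun _ => norm_nonneg _) (η := η / (3 * C2))
    (hY.mono fun ξ hξ h0 => by simp [eta, hξ h0, h0]) (by positivity)
  have hlim : ∀ᶠ k in atTop, D.ε k < min (min e c / (2 * ϑ)) (η / 3 * c / C1) :=
    D.lim.eventually (gt_mem_nhds (by positivity))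
  filter_upwards [He, hlim] with k hk1 hk2
  have hε := D.pos k
  set ε := D.ε k with hεdef
  have hk3 : 2 * (ϑ * ε) ≤ min e c := by
    have := (hk2.le.trans (min_le_left _ _))
    rw [le_div_iff₀ (by positivity)] at this; linarith
  have hk4 : C1 / c * ε ≤ η / 3 := by
    have := (hk2.le.trans (min_le_right _ _))
    rw [le_div_iff₀ hC10] at this
    rw [div_mul_eq_mul_div, div_le_iff₀ hc]; linarith
  have hθ : 0 < ϑ * ε := by positivity
  set t := K * ε / A with ht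
  have ht0 : 0 < t := by positivity
  have hN : ∀ ξ : Xi n, Dir (S.V ε ξ.z) ξ → ξ.z ∈ tsupport ψ → ‖S.f ξ.z‖ ^ 2 ≤ 2 * (ϑ * ε) →
      ε * c / 2 ≤ ‖⟪ξ.v, S.V ε ξ.z⟫_ℂ‖ := by
    intro ξ hd hξ hl
    have k1 := dir_N hε hd
    have k2 := H2 ξ hξ (hl.trans (hk3.trans (min_le_right _ _)))
    have k3 : ‖S.f ξ.z‖ ^ S.j * ‖perp ξ.z S.q‖ ≤ 2 * (ϑ * ε) * Q := by
      rw [hj]; gcongr; exact HQ ξ
    rw [lt_div_iff₀ (by positivity)] at hϑ0
    have k5 := mul_le_mul_of_nonneg_left k2 hε.le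
    have k6 := mul_le_mul_of_nonneg_left hϑ0.le hε.le
    linarith
  have eD : ∀ ξ : Xi n, Dir (S.V ε ξ.z) ξ → ‖⟪ξ.v, S.V ε ξ.z⟫_ℂ‖ * ‖fderiv ℂ S.f ξ.z ξ.v‖
      = ‖S.f ξ.z‖ * ‖S.f ξ.z * eta S ξ.z + ε * PL.ht S ξ.z‖ := fun ξ hd => by
    rw [← norm_mul, dir_D hd, norm_mul, hj]; simp
  have hint0 : Continuous fun ξ : Xi n =>
      ϑ * ε * ‖fderiv ℂ S.f ξ.z ξ.v‖ ^ 2 / (‖S.f ξ.z‖ ^ 2 + ϑ * ε) ^ 2 :=
    Continuous.div (by fun_prop) (by fun_prop) fun ξ => by positivity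
  have hint1 : Continuous fun ξ : Xi n =>
      √(t ^ 2) * ‖fderiv ℂ S.f ξ.z ξ.v‖ ^ 2 / √(‖S.f ξ.z‖ ^ 2 + t ^ 2) ^ 3 :=
    Continuous.div (by fun_prop) (by fun_prop) fun ξ =>
      pow_ne_zero _ (Real.sqrt_pos.2 (by positivity)).ne'
  have hint2 : Continuous fun ξ : Xi n =>
      ‖eta S ξ.z‖ * (1 - st (‖S.f ξ.z‖ ^ 2 / e)) := hηc.norm.mul (by fun_prop)
  have i0 := (cont_integrable (m := (D.m k : Measure (Xi n))) hint0).const_mul (2 * C1 / c * (9 * ϑ))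
  have i1 := (cont_integrable (m := (D.m k : Measure (Xi n))) hint1).const_mul (6 * C0 * A / K)
  have i2 := (cont_integrable (m := (D.m k : Measure (Xi n))) hint2).const_mul C2
  have i3 : Integrable (fun _ : Xi n => C1 / c * (2 * ϑ + ε)) (D.m k : Measure (Xi n)) :=
    integrable_const _
  have hI := ineq (D.closed k) S.hf hψ hpos hθ le_rfl (δ1 := min (ϑ * ε) (ε ^ 2))
    (C0 := 2 * (A + H) / c) (by positivity)
    ((D.dir k).mono fun ξ hd h1 h2 => by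
      have k0 : ‖S.f ξ.z‖ ≤ ε := (pow_le_pow_iff_left₀ (norm_nonneg _) hε.le two_ne_zero).1
        (h2.trans (min_le_right _ _))
      refine real_small (norm_nonneg _) (norm_nonneg _) hε hc (hN ξ hd (subset_tsupport _ h1)
        (by linarith [min_le_left (ϑ * ε) (ε ^ 2)])) (eD ξ hd) ((norm_h_le _ _ hε).trans ?_)
      have k1 : ‖S.f ξ.z * eta S ξ.z‖ ≤ ε * A := by rw [norm_mul]; gcongr; exact HA ξ
      have k2 := mul_le_mul_of_nonneg_left (HH ξ) hε.le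
      linarith)
    (g := fun ξ => 2 * C1 / c * (9 * ϑ) *
        (ϑ * ε * ‖fderiv ℂ S.f ξ.z ξ.v‖ ^ 2 / (‖S.f ξ.z‖ ^ 2 + ϑ * ε) ^ 2)
      + C1 / c * (2 * ϑ + ε)
      + 6 * C0 * A / K * (√(t ^ 2) * ‖fderiv ℂ S.f ξ.z ξ.v‖ ^ 2 / √(‖S.f ξ.z‖ ^ 2 + t ^ 2) ^ 3)
      + C2 * (‖eta S ξ.z‖ * (1 - st (‖S.f ξ.z‖ ^ 2 / e))))
    (((i0.add i3).add i1).add i2)
    (fun ξ => by
      have := sub_nonneg.2 (st_le_one (‖S.f ξ.z‖ ^ 2 / e))
      positivity)
    ((D.dir k).mono fun ξ hd h1 h2 => by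
      have p1 := sub_nonneg.2 (st_le_one (‖S.f ξ.z‖ ^ 2 / e))
      by_cases hξ : ξ.z ∈ tsupport ψ
      swap
      · rw [rz_of_not_mem hξ, norm_zero, mul_zero]; positivity
      have hl : 0 < ‖S.f ξ.z‖ := norm_pos_iff.2 h1
      have e2 : ‖⟪ξ.v, S.V ε ξ.z⟫_ℂ‖ * ‖rz ψ ξ.z ξ.v‖
          ≤ ‖S.f ξ.z‖ ^ 2 * C1 + ε * (C1 * ‖S.f ξ.z‖ + C0 * ‖eta S ξ.z‖) := by
        rw [← norm_mul, dir_rz hd hψ, hj]
        refine (norm_h_le _ _ hε).trans (add_le_add ?_ ?_)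
        · rw [norm_mul, norm_pow]; gcongr; exact (HCq ξ).trans (le_max_left _ _)
        · gcongr; exact hZ' ξ
      have k1 := norm_h_ge (S.f ξ.z * eta S ξ.z) (PL.ht S ξ.z) hε
      have k2 := norm_h_le (S.f ξ.z * eta S ξ.z) (PL.ht S ξ.z) hε
      rw [norm_mul] at k1 k2
      refine (real_D hl (norm_nonneg _) (norm_nonneg _) hc hK0 hε hA (norm_nonneg _) (HA ξ) (HH ξ)
        hH.le hK1 hC00.le hC10.le (hN ξ hd hξ h2) (eD ξ hd) k1 k2 e2 ht).trans ?_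
      refine mul_le_mul_of_nonneg_left ?_ hl.le
      have k4 : st (‖S.f ξ.z‖ ^ 2 / e) = 0 := st_zero (by
        rw [div_le_one he]; exact h2.trans (hk3.trans (min_le_left _ _)))
      rw [k4, sub_zero, mul_one]
      refine add_le_add (add_le_add (add_le_add ?_ ?_) ?_) le_rfl
      · rw [mul_assoc (2 * C1 / c)]
        refine mul_le_mul_of_nonneg_left ?_ (by positivity)
        rw [div_le_iff₀ hε]
        have := low_bound (D := ‖fderiv ℂ S.f ξ.z ξ.v‖) hθ (sq_nonneg _) h2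
        linarith
      · refine mul_le_mul_of_nonneg_left (add_le_add_left ?_ _) (by positivity)
        rw [div_le_iff₀ hε]; linarith
      · split_ifs with h3
        · have k6 := half_bound (D := ‖fderiv ℂ S.f ξ.z ξ.v‖) ht0 h3
          have k8 := mul_le_mul_of_nonneg_left k6 (show 0 ≤ 2 * C0 * A / K by positivity)
          have k9 : 6 * C0 * A / K = 2 * C0 * A / K * 3 := by ring
          rw [k9]; linarith
        · positivity)
  rw [integral_add (by exact (i0.add i3).add i1) i2, integral_add (by exact i0.add i3) i1,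
    integral_add i0 i3,
    integral_const_mul, integral_const_mul, integral_const_mul] at hI
  simp only [sub_self, mul_zero, integral_zero, add_zero, integral_const, probReal_univ,
    smul_eq_mul, one_mul] at hI
  rw [integral_const_mul C2] at hI
  have f0 := flux_le (D.closed k) S.hf hθ
  have f1 := flux_half (D.closed k) S.hf (show 0 < t ^ 2 by positivity)
  rw [probReal_univ, mul_one] at f0 f1
  have f4 : 6 * C0 * A / K * (2 * S.r) ≤ η / 3 := by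
    rw [div_mul_eq_mul_div, div_le_iff₀ hK0]; linarith
  have f5 : C2 * (η / (3 * C2)) = η / 3 := by
    have : C2 ≠ 0 := by positivity
    clear_value C2
    field_simp
  have f6 := mul_le_mul_of_nonneg_left f1 (show 0 ≤ 6 * C0 * A / K by positivity)
  have f7 := mul_le_mul_of_nonneg_left hk1 (show 0 ≤ C2 by positivity)
  have f8 := mul_le_mul_of_nonneg_left f0 (show 0 ≤ 2 * C1 / c * (9 * ϑ) by positivity)
  have f9 : (2 * C1 / c * (9 * S.r) + 2 * C1 / c) * ϑ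
      = 2 * C1 / c * (9 * ϑ) * S.r + C1 / c * (2 * ϑ) := by ring
  have f10 : C1 / c * (2 * ϑ + ε) = C1 / c * (2 * ϑ) + C1 / c * ε := by ring
  rw [f9]; linarith

end A590
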