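import Pool.Agent.Lib.A590Canard1
import Pool.Agent.Lib.A590Leak

/-!
Block D of MP_a590e5_an: the canard lemma.
-/

open scoped ComplexConjugate ComplexOrder ContDiff Topology InnerProductSpace
open MeasureTheory Filter

noncomputable section

namespace A590

variable {n : ℕ}

theorem Degen.canard {S : Setup n} (D : Degen S) (hj : S.j = 2)
    (hY : ∀ᵐ ξ ∂(D.m0 : Measure (Xi n)), S.f ξ.z = 0 ∧ S.W ξ.z = 0)
    (pr : E n →L[ℂ] E n) (hpr : ∀ z, pr (pr z) = pr z) (l a1 a2 : E n →L[ℂ] ℂ)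
    (hl : ∀ z, l (pr z) = 0) (hlq : l S.q ≠ 0) (ha1 : a1 S.q = 0) (ha2 : a2 S.q = 0)
    (hinj : ∀ z, pr z = z → a1 z = 0 → a2 z = 0 → z = 0)
    (p : E n) (hp1 : ‖p‖ = 1) (hp : pr p = p) (hreg : ∀ c : ℂ, S.Z p ≠ c • p)
    (hroot : l (S.Z p) = 0) (R : Finset (E n))
    (hR : ∀ z, pr z = z → l (S.Z z) = 0 → ∃ w ∈ R, ∃ c : ℂ, z = c • w) {C : ℝ}
    (hdist : ∀ᶠ z in 𝓝 p, ‖z - pr z‖ ≤ C * (‖S.f z‖ + ‖S.W z‖)) :
    ∀ᵐ ξ ∂(D.m0 : Measure (Xi n)), pr ξ.z ≠ ξ.z :=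
  Can.canard_of D hj (fun hψ hpos hreg _ hZ => D.plD hj (hY.mono fun _ H _ => H.2) hψ hpos hreg hZ)
    hY pr hpr l a1 a2 hl hlq ha1 ha2 hinj p hp1 hp hreg hroot R hR hdist

end A590
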