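import Pool.Agent.Lib.A590Iface

/-!
Block L of MP_a590e5_an: weak limits of closed directed measures.
-/

open scoped ComplexConjugate ComplexOrder ContDiff Topology InnerProductSpace
open MeasureTheory Filter

noncomputable section

namespace A590

variable {n : ℕ}

theorem Setup.exists_eps (S : Setup n) (H : Degen S → False) :
    ∃ ε : ℝ, 0 < ε ∧ NoMeas (S.V ε) := by
  by_contra hcon
  have h1 : ∀ k : ℕ, ∃ m : ProbabilityMeasure (Xi n), ClosedM (m : Measure (Xi n)) ∧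
      ∀ᵐ ξ ∂(m : Measure (Xi n)), Dir (S.V (1 / ((k : ℝ) + 1)) ξ.z) ξ := by
    intro k
    by_contra h2
    exact hcon ⟨1 / ((k : ℝ) + 1), by positivity, fun m hm hc hd => h2 ⟨⟨m, hm⟩, hc, hd⟩⟩
  choose m hc hd using h1
  obtain ⟨m0, φ, hφ, hlim⟩ := CompactSpace.tendsto_subseq m
  exact H
    { ε := fun k => 1 / ((φ k : ℝ) + 1)
      pos := fun k => by positivity
      lim := (tendsto_one_div_add_atTop_nhds_zero_nat (𝕜 := ℝ)).comp hφ.tendsto_atTop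
      m := m ∘ φ
      m0 := m0
      conv := hlim
      closed := fun k => hc _
      dir := fun k => hd _ }

theorem Xi.integrable {F : Type*} [NormedAddCommGroup F] {g : Xi n → F} (hg : Continuous g)
    (m : Measure (Xi n)) [IsFiniteMeasure m] : Integrable g m :=
  hg.integrable_of_hasCompactSupport (HasCompactSupport.of_compactSpace g)

theorem Degen.tendsto_fixed {S : Setup n} (D : Degen S) {g : Xi n → ℂ} (hg : Continuous g) :
    Tendsto (fun k => ∫ ξ, g ξ ∂(D.m k : Measure (Xi n))) atTop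
      (𝓝 (∫ ξ, g ξ ∂(D.m0 : Measure (Xi n)))) :=
  (ProbabilityMeasure.tendsto_iff_forall_integral_rclike_tendsto ℂ).1 D.conv
    (BoundedContinuousFunction.mkOfCompact ⟨g, hg⟩)

theorem Degen.tendsto_fixed_real {S : Setup n} (D : Degen S) {g : Xi n → ℝ} (hg : Continuous g) :
    Tendsto (fun k => ∫ ξ, g ξ ∂(D.m k : Measure (Xi n))) atTop
      (𝓝 (∫ ξ, g ξ ∂(D.m0 : Measure (Xi n)))) :=
  ProbabilityMeasure.tendsto_iff_forall_integral_tendsto.1 D.conv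
    (BoundedContinuousFunction.mkOfCompact ⟨g, hg⟩)

theorem Degen.tendsto_cont {S : Setup n} (D : Degen S) {G : ℝ × Xi n → ℂ} (hG : Continuous G) :
    Tendsto (fun k => ∫ ξ, G (D.ε k, ξ) ∂(D.m k : Measure (Xi n))) atTop
      (𝓝 (∫ ξ, G (0, ξ) ∂(D.m0 : Measure (Xi n)))) := by
  let Γ : C(ℝ, C(Xi n, ℂ)) := ContinuousMap.curry ⟨G, hG⟩
  have h1 : Tendsto (fun k => ‖Γ (D.ε k) - Γ 0‖) atTop (𝓝 0) :=
    tendsto_iff_norm_sub_tendsto_zero.1 ((Γ.continuous.tendsto 0).comp D.lim)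
  have hc : ∀ e : ℝ, Continuous fun ξ : Xi n => G (e, ξ) := fun e => by fun_prop
  have h2 : Tendsto (fun k => ∫ ξ, G (D.ε k, ξ) ∂(D.m k : Measure (Xi n)) -
      ∫ ξ, G (0, ξ) ∂(D.m k : Measure (Xi n))) atTop (𝓝 0) := by
    refine squeeze_zero_norm (fun k => ?_) h1
    rw [← integral_sub (Xi.integrable (hc _) _) (Xi.integrable (hc _) _)]
    have := norm_integral_le_of_norm_le_const (μ := (D.m k : Measure (Xi n)))
      (f := fun ξ => G (D.ε k, ξ) - G (0, ξ)) (C := ‖Γ (D.ε k) - Γ 0‖)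
      (Eventually.of_forall fun ξ => (Γ (D.ε k) - Γ 0).norm_coe_le_norm ξ)
    simpa using this
  simpa using h2.add (D.tendsto_fixed (hc 0))

theorem Degen.tendsto_cont_real {S : Setup n} (D : Degen S) {G : ℝ × Xi n → ℝ}
    (hG : Continuous G) :
    Tendsto (fun k => ∫ ξ, G (D.ε k, ξ) ∂(D.m k : Measure (Xi n))) atTop
      (𝓝 (∫ ξ, G (0, ξ) ∂(D.m0 : Measure (Xi n)))) := by
  have h := D.tendsto_cont (G := fun p => (G p : ℂ)) (Complex.continuous_ofReal.comp hG)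
  simp only [integral_complex_ofReal] at h
  exact Filter.tendsto_ofReal_iff.1 h

/-- `G k` agrees on the open set `O` with `G0` (almost everywhere), `G0` is continuous on `O`,
everything is bounded by a continuous `b` which vanishes `m0`-almost everywhere outside `O`. -/
theorem Degen.tendsto_open {S : Setup n} (D : Degen S) {O : Set (Xi n)} (hO : IsOpen O)
    {G : ℕ → Xi n → ℂ} {G0 : Xi n → ℂ} {b : Xi n → ℝ} (hb : Continuous b)
    (hG : ∀ k, Continuous (G k)) (hGb : ∀ k ξ, ‖G k ξ‖ ≤ b ξ) (h0 : ContinuousOn G0 O)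
    (h0b : ∀ ξ, ‖G0 ξ‖ ≤ b ξ) (h0m : Measurable G0)
    (heq : ∀ k, ∀ᵐ ξ ∂(D.m k : Measure (Xi n)), ξ ∈ O → G k ξ = G0 ξ)
    (hnull : ∀ᵐ ξ ∂(D.m0 : Measure (Xi n)), ξ ∉ O → b ξ = 0) :
    Tendsto (fun k => ∫ ξ, G k ξ ∂(D.m k : Measure (Xi n))) atTop
      (𝓝 (∫ ξ, G0 ξ ∂(D.m0 : Measure (Xi n)))) := by
  obtain ⟨ρ, hρ, hρ0, hρ1⟩ : ∃ ρ : Xi n → ℝ, Continuous ρ ∧ (∀ ξ, ξ ∉ O → ρ ξ = 0) ∧
      ∀ ξ ∈ O, 0 < ρ ξ := by
    rcases Oᶜ.eq_empty_or_nonempty with h | h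
    · exact ⟨fun _ => 1, continuous_const, fun ξ hξ => absurd (h ▸ hξ : ξ ∈ (∅ : Set _)) id,
        fun _ _ => one_pos⟩
    · exact ⟨fun ξ => Metric.infDist ξ Oᶜ, Metric.continuous_infDist_pt _,
        fun ξ hξ => Metric.infDist_zero_of_mem hξ,
        fun ξ hξ => (hO.isClosed_compl.notMem_iff_infDist_pos h).1 fun h' => h' hξ⟩
  have hρn : ∀ ξ, 0 ≤ ρ ξ := fun ξ => by
    by_cases h : ξ ∈ O
    · exact (hρ1 ξ h).le
    · exact (hρ0 ξ h).ge
  have hbn : ∀ ξ, 0 ≤ b ξ := fun ξ => (norm_nonneg _).trans (h0b ξ)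
  let θ : ℕ → Xi n → ℝ := fun j ξ => min 1 (j * ρ ξ)
  have hθc : ∀ j, Continuous (θ j) := fun j => by fun_prop
  have hθ0 : ∀ j ξ, 0 ≤ θ j ξ := fun j ξ => le_min zero_le_one (mul_nonneg j.cast_nonneg (hρn ξ))
  have hθ1 : ∀ j ξ, θ j ξ ≤ 1 := fun j ξ => min_le_left _ _
  have hθz : ∀ j ξ, ξ ∉ O → θ j ξ = 0 := fun j ξ h => by simp [θ, hρ0 ξ h]
  have hprod : ∀ j, Continuous fun ξ => (θ j ξ : ℂ) * G0 ξ := by
    intro j
    refine continuous_iff_continuousAt.2 fun ξ => ?_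
    by_cases h : ξ ∈ O
    · exact (Complex.continuous_ofReal.comp (hθc j)).continuousAt.mul
        (h0.continuousAt (hO.mem_nhds h))
    · have h1 : Tendsto (fun x => θ j x * b x) (𝓝 ξ) (𝓝 0) := by
        have h3 : Continuous fun x => θ j x * b x := (hθc j).mul hb
        simpa [hθz j ξ h] using h3.tendsto ξ
      have h2 : Tendsto (fun x => (θ j x : ℂ) * G0 x) (𝓝 ξ) (𝓝 0) := by
        refine squeeze_zero_norm (fun x => ?_) h1
        rw [norm_mul, Complex.norm_real, Real.norm_of_nonneg (hθ0 j x)]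
        exact mul_le_mul_of_nonneg_left (h0b x) (hθ0 j x)
      simpa [ContinuousAt, hθz j ξ h] using h2
  have hrc : ∀ j, Continuous fun ξ => (1 - θ j ξ) * b ξ := fun j => by fun_prop
  have hpt : ∀ j ξ, ‖G0 ξ - (θ j ξ : ℂ) * G0 ξ‖ ≤ (1 - θ j ξ) * b ξ := by
    intro j ξ
    have : G0 ξ - (θ j ξ : ℂ) * G0 ξ = ((1 - θ j ξ : ℝ) : ℂ) * G0 ξ := by push_cast; ring
    rw [this, norm_mul, Complex.norm_real, Real.norm_of_nonneg (sub_nonneg.2 (hθ1 j ξ))]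
    exact mul_le_mul_of_nonneg_left (h0b ξ) (sub_nonneg.2 (hθ1 j ξ))
  have hk : ∀ j k, ‖∫ ξ, G k ξ ∂(D.m k : Measure (Xi n)) -
      ∫ ξ, (θ j ξ : ℂ) * G0 ξ ∂(D.m k : Measure (Xi n))‖ ≤
      ∫ ξ, (1 - θ j ξ) * b ξ ∂(D.m k : Measure (Xi n)) := by
    intro j k
    rw [← integral_sub (Xi.integrable (hG k) _) (Xi.integrable (hprod j) _)]
    refine norm_integral_le_of_norm_le (Xi.integrable (hrc j) _) ?_
    filter_upwards [heq k] with ξ hξ
    by_cases h : ξ ∈ O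
    · rw [hξ h]; exact hpt j ξ
    · simpa [hθz j ξ h] using hGb k ξ
  have hI0 : Integrable G0 (D.m0 : Measure (Xi n)) :=
    (Xi.integrable hb _).mono' h0m.aestronglyMeasurable (Eventually.of_forall h0b)
  have hl : ∀ j, ‖∫ ξ, G0 ξ ∂(D.m0 : Measure (Xi n)) -
      ∫ ξ, (θ j ξ : ℂ) * G0 ξ ∂(D.m0 : Measure (Xi n))‖ ≤
      ∫ ξ, (1 - θ j ξ) * b ξ ∂(D.m0 : Measure (Xi n)) := by
    intro j
    rw [← integral_sub hI0 (Xi.integrable (hprod j) _)]
    exact norm_integral_le_of_norm_le (Xi.integrable (hrc j) _) (Eventually.of_forall (hpt j))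
  have hdc : Tendsto (fun j => ∫ ξ, (1 - θ j ξ) * b ξ ∂(D.m0 : Measure (Xi n))) atTop (𝓝 0) := by
    have := tendsto_integral_of_dominated_convergence (μ := (D.m0 : Measure (Xi n)))
      (F := fun j ξ => (1 - θ j ξ) * b ξ) (f := fun _ => (0 : ℝ)) b
      (fun j => (hrc j).aestronglyMeasurable) (Xi.integrable hb _)
      (fun j => Eventually.of_forall fun ξ => by
        rw [Real.norm_of_nonneg (mul_nonneg (sub_nonneg.2 (hθ1 j ξ)) (hbn ξ))]
        exact mul_le_of_le_one_left (hbn ξ) (by linarith [hθ0 j ξ])) ?_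
    · simpa using this
    · filter_upwards [hnull] with ξ hξ
      by_cases h : ξ ∈ O
      · have h1 : Tendsto (fun j : ℕ => (j : ℝ) * ρ ξ) atTop atTop :=
          tendsto_natCast_atTop_atTop.atTop_mul_const (hρ1 ξ h)
        refine tendsto_const_nhds.congr' ?_
        filter_upwards [h1.eventually_ge_atTop 1] with j hj
        simp [θ, min_eq_left hj]
      · simp [hξ h]
  refine Metric.tendsto_nhds.2 fun η hη => ?_
  obtain ⟨j, hj⟩ := (hdc.eventually (gt_mem_nhds (show (0 : ℝ) < η / 3 by positivity))).exists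
  filter_upwards [(D.tendsto_fixed_real (hrc j)).eventually (gt_mem_nhds hj),
    Metric.tendsto_nhds.1 (D.tendsto_fixed (hprod j)) (η / 3) (by positivity)] with k h1 h2
  have h3 := hk j k
  have h4 := hl j
  rw [← dist_eq_norm] at h3 h4
  have h5 := dist_triangle4 (∫ ξ, G k ξ ∂(D.m k : Measure (Xi n)))
    (∫ ξ, (θ j ξ : ℂ) * G0 ξ ∂(D.m k : Measure (Xi n)))
    (∫ ξ, (θ j ξ : ℂ) * G0 ξ ∂(D.m0 : Measure (Xi n))) (∫ ξ, G0 ξ ∂(D.m0 : Measure (Xi n)))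
  rw [dist_comm] at h4
  linarith

theorem Xi.cont_fderiv {g : E n → ℂ} (hg : ContDiffOn ℝ ∞ g {0}ᶜ) :
    Continuous fun ξ : Xi n => fderiv ℝ g ξ.z :=
  (hg.continuousOn_fderiv_of_isOpen isOpen_compl_singleton (by simp)).comp_continuous
    Xi.continuous_z fun ξ => ξ.z_ne

theorem Degen.closed0 {S : Setup n} (D : Degen S) : ClosedM (D.m0 : Measure (Xi n)) := by
  intro α hα
  have hc : Continuous fun ξ : Xi n => ∑ j, dzb (fun w => α w j) ξ.z ξ.v * ξ.v j := by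
    refine continuous_finsetSum _ fun j _ => ?_
    have h1 := Xi.cont_fderiv (contDiffOn_pi.1 hα.1 j)
    unfold dzb
    fun_prop
  have h := D.tendsto_fixed hc
  simp only [fun k => D.closed k α hα] at h
  exact tendsto_nhds_unique tendsto_const_nhds h |>.symm

/-- A closed condition passes to the limit. -/
theorem Degen.ae_limit {S : Setup n} (D : Degen S) {F : Type*} [NormedAddCommGroup F]
    {G : ℝ × Xi n → F} (hG : Continuous G)
    (h : ∀ k, ∀ᵐ ξ ∂(D.m k : Measure (Xi n)), G (D.ε k, ξ) = 0) :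
    ∀ᵐ ξ ∂(D.m0 : Measure (Xi n)), G (0, ξ) = 0 := by
  have h1 := D.tendsto_cont_real (G := fun p => ‖G p‖) hG.norm
  have h2 : ∀ k, ∫ ξ, ‖G (D.ε k, ξ)‖ ∂(D.m k : Measure (Xi n)) = 0 := fun k =>
    integral_eq_zero_of_ae (by filter_upwards [h k] with ξ hξ using by simp [hξ])
  simp only [h2] at h1
  have h3 := (tendsto_nhds_unique tendsto_const_nhds h1).symm
  rw [integral_eq_zero_iff_of_nonneg (fun ξ => norm_nonneg _)
    (Xi.integrable (by fun_prop) _)] at h3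
  filter_upwards [h3] with ξ hξ using norm_eq_zero.1 hξ

theorem Degen.dir_off {S : Setup n} (D : Degen S) :
    ∀ᵐ ξ ∂(D.m0 : Measure (Xi n)), S.f ξ.z ≠ 0 → Dir S.q ξ := by
  have hf := S.hf.cd.continuous
  have hZ := S.hZ.cd.continuous
  have hV : Continuous fun p : ℝ × Xi n => S.V p.1 p.2.z := by
    unfold Setup.V
    fun_prop
  have h := D.ae_limit (G := fun p => S.V p.1 p.2.z -
    (⟪p.2.z, S.V p.1 p.2.z⟫_ℂ • p.2.z + ⟪p.2.v, S.V p.1 p.2.z⟫_ℂ • p.2.v)) (by fun_prop)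
    fun k => by filter_upwards [D.dir k] with ξ hξ using sub_eq_zero.2 hξ
  filter_upwards [h] with ξ hξ h0
  have h1 := sub_eq_zero.1 hξ
  simp only [Setup.V, Complex.ofReal_zero, zero_smul, add_zero, inner_smul_right, mul_smul,
    ← smul_add] at h1
  exact smul_right_injective _ (pow_ne_zero _ h0) h1

theorem Degen.dir_on_aux {S : Setup n} (D : Degen S)
    (heu : ∀ z, fderiv ℂ S.f z z = (S.r : ℂ) • S.f z)
    (hs : ∀ᵐ ξ ∂(D.m0 : Measure (Xi n)), S.f ξ.z = 0 → fderiv ℂ S.f ξ.z ξ.v = 0) :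
    ∀ᵐ ξ ∂(D.m0 : Measure (Xi n)), S.f ξ.z = 0 → S.W ξ.z ≠ 0 → Dir (S.Z ξ.z) ξ := by
  have hf := S.hf.cd.continuous
  have hZ := S.hZ.cd.continuous
  have hh := S.hh
  have hD := S.hf.cd.continuous_fderiv (by simp)
  let η : Xi n → ℂ := fun ξ => fderiv ℂ S.f ξ.z S.q - ⟪ξ.z, S.q⟫_ℂ * (S.r * S.f ξ.z)
  let ht : Xi n → ℂ := fun ξ => S.h ξ.z * S.f ξ.z - ⟪ξ.z, S.Z ξ.z⟫_ℂ * (S.r * S.f ξ.z)
  let qp : Xi n → E n := fun ξ => S.q - ⟪ξ.z, S.q⟫_ℂ • ξ.z
  let Zp : Xi n → E n := fun ξ => S.Z ξ.z - ⟪ξ.z, S.Z ξ.z⟫_ℂ • ξ.z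
  let a : Xi n → E n := fun ξ => η ξ • Zp ξ - ht ξ • qp ξ
  let b : Xi n → E n := fun ξ => η ξ • ξ.v - fderiv ℂ S.f ξ.z ξ.v • qp ξ
  have ha : Continuous a := by fun_prop
  have hb : Continuous b := by fun_prop
  have h := D.ae_limit (G := fun p => ⟪b p.2, b p.2⟫_ℂ • a p.2 - ⟪b p.2, a p.2⟫_ℂ • b p.2)
    (by fun_prop) fun k => ?_
  · filter_upwards [h, hs] with ξ hξ h1 h0 hW
    have h2 : η ξ = S.W ξ.z := by simp [η, h0, Setup.W]
    have h3 : a ξ = S.W ξ.z • Zp ξ := by simp [a, ht, h2, h0]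
    have h4 : b ξ = S.W ξ.z • ξ.v := by simp [b, h2, h1 h0]
    have hvv : ⟪ξ.v, ξ.v⟫_ℂ = 1 := by rw [inner_self_eq_norm_sq_to_K, ξ.norm_v]; simp
    have h5 : ⟪ξ.v, Zp ξ⟫_ℂ = ⟪ξ.v, S.Z ξ.z⟫_ℂ := by
      simp [Zp, ξ.inner_vz]
    have h6 := sub_eq_zero.1 hξ
    simp only [h3, h4, inner_smul_left, inner_smul_right, hvv, h5, smul_smul] at h6
    have hW' : S.W ξ.z * conj (S.W ξ.z) * S.W ξ.z ≠ 0 :=
      mul_ne_zero (mul_ne_zero hW ((map_ne_zero _).2 hW)) hW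
    have h7 : Zp ξ = ⟪ξ.v, S.Z ξ.z⟫_ℂ • ξ.v := by
      refine smul_right_injective _ hW' ?_
      simp only [smul_smul]
      convert h6 using 2 <;> ring
    rw [Dir, ← h7]
    simp [Zp]
  · filter_upwards [D.dir k] with ξ hξ
    set c2 := ⟪ξ.v, S.V (D.ε k) ξ.z⟫_ℂ with hc2
    have he : (D.ε k : ℂ) ≠ 0 := by exact_mod_cast (D.pos k).ne'
    have h1 : S.f ξ.z ^ S.j • qp ξ + (D.ε k : ℂ) • Zp ξ = c2 • ξ.v := by
      have h2 : S.V (D.ε k) ξ.z - ⟪ξ.z, S.V (D.ε k) ξ.z⟫_ℂ • ξ.z = c2 • ξ.v :=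
        sub_eq_iff_eq_add'.2 hξ
      rw [← h2]
      simp only [Setup.V, qp, Zp, inner_add_right, inner_smul_right]
      module
    have h2 : S.f ξ.z ^ S.j * η ξ + (D.ε k : ℂ) * ht ξ = c2 * fderiv ℂ S.f ξ.z ξ.v := by
      have h3 := congrArg (fderiv ℂ S.f ξ.z) h1
      simpa only [qp, Zp, map_add, map_sub, map_smul, heu, S.tang, smul_eq_mul] using h3
    have h3 : (D.ε k : ℂ) • a ξ = c2 • b ξ := by
      simp only [a, b]
      linear_combination (norm := module) η ξ • h1 - h2 • qp ξ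
    have h4 : a ξ = ((D.ε k : ℂ)⁻¹ * c2) • b ξ := by
      rw [mul_smul, ← h3, smul_smul, inv_mul_cancel₀ he, one_smul]
    simp only [h4, inner_smul_right, smul_smul]
    rw [mul_comm, sub_self]

end A590
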