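import Pool.Agent.Lib.A590Core2
import Pool.Agent.Lib.A590Limit1

/-!
Block D of MP_a590e5_an: the canard lemma, given the leak estimate `plD` as a hypothesis.
-/

open scoped ComplexConjugate ComplexOrder ContDiff Topology InnerProductSpace
open MeasureTheory Filter

noncomputable section

namespace A590

namespace Can

variable {n : ℕ}

theorem rh_at {ψ : E n → ℝ} (h : RHom0 ψ) {z : E n} (hz : z ≠ 0) : ContDiffAt ℝ ∞ ψ z :=
  h.cd.contDiffAt (isOpen_compl_singleton.mem_nhds hz)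

theorem rh_diff {ψ : E n → ℝ} (h : RHom0 ψ) {z : E n} (hz : z ≠ 0) : DifferentiableAt ℝ ψ z :=
  (rh_at h hz).differentiableAt (by simp)

theorem rh_of_at {ψ : E n → ℝ} (h1 : ∀ z : E n, z ≠ 0 → ContDiffAt ℝ ∞ ψ z)
    (h2 : ∀ z : E n, z ≠ 0 → ∀ c : ℂ, c ≠ 0 → ψ (c • z) = ψ z) : RHom0 ψ :=
  ⟨fun z hz => (h1 z hz).contDiffWithinAt, h2⟩

theorem rh_comp {ψ : E n → ℝ} (h : RHom0 ψ) {β : ℝ → ℝ} (hβ : ContDiff ℝ ∞ β) :
    RHom0 fun z => β (ψ z) :=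
  rh_of_at (fun z hz => hβ.contDiffAt.comp z (rh_at h hz)) fun z hz c hc => by
    rw [h.hom z hz c hc]

theorem rh_mul {φ ψ : E n → ℝ} (h : RHom0 φ) (h' : RHom0 ψ) : RHom0 fun z => φ z * ψ z :=
  rh_of_at (fun z hz => (rh_at h hz).mul (rh_at h' hz)) fun z hz c hc => by
    rw [h.hom z hz c hc, h'.hom z hz c hc]

theorem ofReal_at {ψ : E n → ℝ} {z : E n} (h : ContDiffAt ℝ ∞ ψ z) :
    ContDiffAt ℝ ∞ (fun w => (ψ w : ℂ)) z :=
  Complex.ofRealCLM.contDiff.contDiffAt.comp z h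

theorem rz_scale {ψ : E n → ℝ} (h : RHom0 ψ) {z : E n} (hz : z ≠ 0) {c : ℂ} (hc : c ≠ 0)
    (v : E n) : rz ψ (c • z) v = c⁻¹ * rz ψ z v := by
  have h1 := (dz_scale (g := fun w => (ψ w : ℂ)) (a := 1) hc
    (differentiableAt_ofReal (rh_diff h hz))
    (differentiableAt_ofReal (rh_diff h (smul_ne_zero hc hz)))
    ((isOpen_compl_singleton.mem_nhds hz : ({0}ᶜ : Set (E n)) ∈ 𝓝 z) |> fun H =>
      Filter.mem_of_superset H fun w hw => by
        simp only [Set.mem_ofPred_eq, one_mul]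
        rw [h.hom w hw c hc]) v).1
  simpa [rz] using h1

theorem hm_real {F : Type*} [NormedAddCommGroup F] [NormedSpace ℂ F] [NormedSpace ℝ F]
    [IsScalarTower ℝ ℂ F] {P : E n → F} {r : ℕ} (hP : HomMap P r) : ContDiff ℝ ∞ P :=
  hP.cd.restrict_scalars ℝ

theorem hm_diff {F : Type*} [NormedAddCommGroup F] [NormedSpace ℂ F] {P : E n → F} {r : ℕ}
    (hP : HomMap P r) (z : E n) : DifferentiableAt ℂ P z :=
  hP.cd.contDiffAt.differentiableAt (by simp)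

theorem hm_comp {Z : E n → E n} {d : ℕ} (hZ : HomMap Z d) (l : E n →L[ℂ] ℂ) :
    HomMap (fun z => l (Z z)) d :=
  ⟨l.contDiff.comp hZ.cd, fun c z => by rw [hZ.hom, map_smul]⟩

/-- the derivative of a function on projective space along a homogeneous field is smooth -/
theorem rz_field_at {ψ : E n → ℝ} (h : RHom0 ψ) {Z : E n → E n} {d : ℕ} (hZ : HomMap Z d)
    {z : E n} (hz : z ≠ 0) : ContDiffAt ℝ ∞ (fun w => rz ψ w (Z w)) z :=
  (contDiffAt_dz (ofReal_at (rh_at h hz)) (Z z)).1.comp z (f := fun w => (w, Z w))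
    (contDiffAt_id.prodMk (hm_real hZ).contDiffAt)

theorem rz_field_scale {ψ : E n → ℝ} (h : RHom0 ψ) {Z : E n → E n} {d : ℕ} (hZ : HomMap Z d)
    {z : E n} (hz : z ≠ 0) {c : ℂ} (hc : c ≠ 0) :
    rz ψ (c • z) (Z (c • z)) = c ^ d * c⁻¹ * rz ψ z (Z z) := by
  rw [hZ.hom, rz_smul_vec, rz_scale h hz hc]; ring

/-- The function `us`. -/
theorem exists_us {Z : E n → E n} {d : ℕ} (hZ : HomMap Z d) (l : E n →L[ℂ] ℂ) :
    ∃ us : E n → ℝ, RHom0 us ∧ ∀ z : E n, z ≠ 0 → l z = 0 →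
      us z = sP (fun w => l (Z w)) d z ^ 2 ∧ rz us z (Z z) = 0 ∧
      ∀ v, l v = 0 → rz us z v
        = (2 * sP (fun w => l (Z w)) d z : ℝ) * rz (sP (fun w => l (Z w)) d) z v := by
  have hP := hm_comp hZ l
  set s0 : E n → ℝ := sP (fun w => l (Z w)) d with hs0
  have hs : RHom0 s0 := hP.rhom0
  set kk : E n → ℂ := fun w =>
    conj (l (Z w)) * rz s0 w (Z w) * (((‖w‖ ^ 2) ^ d : ℝ) : ℂ)⁻¹ with hkk
  have hN : ∀ z : E n, z ≠ 0 → (((‖z‖ ^ 2) ^ d : ℝ) : ℂ) ≠ 0 := fun z hz => by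
    have : 0 < ‖z‖ := norm_pos_iff.2 hz
    exact_mod_cast (by positivity : (‖z‖ ^ 2) ^ d ≠ 0)
  have hk : ∀ z : E n, z ≠ 0 → ContDiffAt ℝ ∞ kk z := fun z hz => by
    refine ContDiffAt.mul (ContDiffAt.mul ?_ (rz_field_at hs hZ hz)) ?_
    · exact Complex.conjCLE.contDiff.contDiffAt.comp z (hm_real hP).contDiffAt
    · exact (ofReal_at ((contDiff_norm_sq ℂ).contDiffAt.pow d)).inv (hN z hz)
  have hl : ∀ z : E n, ContDiffAt ℝ ∞ (fun w => l w) z := fun z =>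
    (l.contDiff.restrict_scalars ℝ).contDiffAt
  have hg : ∀ z : E n, z ≠ 0 → ContDiffAt ℝ ∞ (fun w => (l w * kk w).re) z := fun z hz =>
    Complex.reCLM.contDiff.contDiffAt.comp z ((hl z).mul (hk z hz))
  refine ⟨fun w => s0 w * s0 w - 4 * (l w * kk w).re, rh_of_at (fun z hz => ?_) ?_, ?_⟩
  · exact ((rh_at hs hz).mul (rh_at hs hz)).sub (contDiffAt_const.mul (hg z hz))
  · intro z hz c hc
    rw [hs.hom z hz c hc]
    congr 3
    simp only [hkk]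
    rw [rz_field_scale hs hZ hz hc, hZ.hom, map_smul, map_smul, norm_smul]
    have h1 : (((‖c‖ * ‖z‖) ^ 2) ^ d : ℝ) = (‖c‖ ^ 2) ^ d * (‖z‖ ^ 2) ^ d := by ring
    have h2 : (((‖c‖ ^ 2) ^ d : ℝ) : ℂ) = c ^ d * conj c ^ d := by
      rw [← mul_pow, Complex.mul_conj, Complex.normSq_eq_norm_sq]; push_cast; ring
    have h3 : conj c ≠ 0 := by simpa using hc
    rw [h1, Complex.ofReal_mul, h2]
    simp only [smul_eq_mul, map_mul, map_pow]
    have h4 := hN z hz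
    field_simp
  · intro z hz hlz
    have hd : ∀ v, rz (fun w => s0 w * s0 w - 4 * (l w * kk w).re) z v
        = (2 * s0 z : ℝ) * rz s0 z v - 2 * (l v * kk z) := by
      intro v
      have d1 := rh_diff hs hz
      have d2 := (hg z hz).differentiableAt (by simp)
      have d3 := (hl z).differentiableAt (by simp)
      have d4 := (hk z hz).differentiableAt (by simp)
      rw [rz_sub (d1.fun_mul d1) ((differentiableAt_const _).fun_mul d2), rz_mul d1 d1,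
        rz_mul (differentiableAt_const _) d2, rz_const, rz_re (d3.fun_mul d4), dz_mul d3 d4,
        dzb_mul d3 d4, dz_holo l.differentiableAt, dzb_holo l.differentiableAt, l.fderiv, hlz]
      simp only [zero_mul, add_zero, map_zero]
      push_cast
      ring
    refine ⟨by simp only [hlz, zero_mul, Complex.zero_re]; ring, ?_, fun v hv => ?_⟩
    · rw [hd]
      have h5 : ((s0 z : ℝ) : ℂ) = l (Z z) * conj (l (Z z)) * (((‖z‖ ^ 2) ^ d : ℝ) : ℂ)⁻¹ := by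
        rw [Complex.mul_conj, Complex.normSq_eq_norm_sq, hs0, sP, ← pow_mul]
        push_cast; ring
      simp only [hkk]
      push_cast at h5 ⊢
      rw [h5]; ring
    · rw [hd, hv]; simp

theorem exists_small {X : Type*} [TopologicalSpace X] {K O : Set X} (hK : IsCompact K)
    (hO : IsOpen O) {g : X → ℝ} (hg : ContinuousOn g K) (h : ∀ z ∈ K, g z ≤ 0 → z ∈ O) :
    ∃ δ : ℝ, 0 < δ ∧ ∀ z ∈ K, g z < δ → z ∈ O := by
  rcases (K \ O).eq_empty_or_nonempty with h0 | h0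
  · exact ⟨1, one_pos, fun z hz _ => by
      by_contra hc
      exact (h0 ▸ (⟨hz, hc⟩ : z ∈ K \ O) : z ∈ (∅ : Set X))⟩
  · obtain ⟨x, hx, hm⟩ := (hK.diff hO).exists_isMinOn h0 (hg.mono Set.sdiff_subset)
    refine ⟨g x, lt_of_not_ge fun hc => hx.2 (h x hx.1 hc), fun z hz hlt => ?_⟩
    by_contra hc
    exact absurd (hm (⟨hz, hc⟩ : z ∈ K \ O)) (not_le.2 hlt)

/-- A unit vector close to the line through `p` is a unimodular multiple of a point near `p`. -/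
theorem exists_cone (p : E n) (hp1 : ‖p‖ = 1) {U : Set (E n)} (hU : U ∈ 𝓝 p) :
    ∃ δ : ℝ, 0 < δ ∧ ∀ z : E n, ‖z‖ = 1 → ‖z - ⟪p, z⟫_ℂ • p‖ ^ 2 < δ →
      ∃ c : ℂ, ‖c‖ = 1 ∧ ∃ z' ∈ U, z = c • z' := by
  obtain ⟨U', hU'U, hU'o, hpU'⟩ := mem_nhds_iff.1 hU
  have hO : IsOpen (⋃ c : {c : ℂ // ‖c‖ = 1}, (fun z : E n => (c.1)⁻¹ • z) ⁻¹' U') :=
    isOpen_iUnion fun c => hU'o.preimage (by fun_prop)
  obtain ⟨δ, hδ, H⟩ := exists_small (isCompact_sphere (0 : E n) 1) hO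
    (g := fun z => ‖z - ⟪p, z⟫_ℂ • p‖ ^ 2) (by fun_prop) (by
      intro z hz h0
      have h1 : ‖z - ⟪p, z⟫_ℂ • p‖ = 0 := by
        have := sq_nonneg ‖z - ⟪p, z⟫_ℂ • p‖
        exact pow_eq_zero_iff (two_ne_zero) |>.1 (le_antisymm h0 this)
      have h2 : z = ⟪p, z⟫_ℂ • p := sub_eq_zero.1 (norm_eq_zero.1 h1)
      have hz1 : ‖z‖ = 1 := by simpa using hz
      have h3 : ‖⟪p, z⟫_ℂ‖ = 1 := by
        have := congrArg norm h2
        rw [norm_smul, hp1, hz1, mul_one] at this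
        exact this.symm
      have h4 : ⟪p, z⟫_ℂ ≠ 0 := by
        intro h; rw [h, norm_zero] at h3; exact zero_ne_one h3
      refine Set.mem_iUnion.2 ⟨⟨_, h3⟩, ?_⟩
      show (⟪p, z⟫_ℂ)⁻¹ • z ∈ U'
      conv => enter [2, 2]; rw [h2]
      rw [smul_smul, inv_mul_cancel₀ h4, one_smul]
      exact hpU')
  refine ⟨δ, hδ, fun z hz hlt => ?_⟩
  obtain ⟨c, hc⟩ := Set.mem_iUnion.1 (H z (by simpa using hz) hlt)
  have hc0 : c.1 ≠ 0 := by
    intro h; have := c.2; rw [h, norm_zero] at this; exact zero_ne_one this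
  exact ⟨c.1, c.2, _, hU'U hc, by rw [smul_smul, mul_inv_cancel₀ hc0, one_smul]⟩

/-- The weight `ψ`. -/
theorem exists_psi {Z : E n → E n} {d : ℕ} (hZ : HomMap Z d) (pr : E n →L[ℂ] E n)
    (l : E n →L[ℂ] ℂ) (hl : ∀ z, l (pr z) = 0) (p : E n) (hp1 : ‖p‖ = 1) (hp : pr p = p)
    (hroot : l (Z p) = 0) (R : Finset (E n))
    (hR : ∀ z, pr z = z → l (Z z) = 0 → ∃ w ∈ R, ∃ c : ℂ, z = c • w)
    {U : Set (E n)} (hU : U ∈ 𝓝 p) :
    ∃ ψ : E n → ℝ, RHom0 ψ ∧ (∀ z, 0 ≤ ψ z) ∧ ψ p = 1 ∧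
      (∀ z : E n, ‖z‖ = 1 → (ψ =ᶠ[𝓝 z] fun _ => 0) ∨ ∃ c : ℂ, ‖c‖ = 1 ∧ ∃ z' ∈ U, z = c • z') ∧
      (∀ z : E n, z ≠ 0 → pr z = z → rz ψ z (Z z) = 0) ∧
      ∀ z : E n, z ≠ 0 → pr z = z → ∃ t : ℝ, t ≤ 0 ∧ ∀ v, l v = 0 →
        rz ψ z v = t * rz (sP (fun w => l (Z w)) d) z v := by
  have hP := hm_comp hZ l
  obtain ⟨us, hus, Hus⟩ := exists_us hZ l
  set s0 : E n → ℝ := sP (fun w => l (Z w)) d with hs0
  have hs : RHom0 s0 := hP.rhom0
  set Q : E n →L[ℂ] E n := ContinuousLinearMap.id ℂ (E n) - (innerSL ℂ p).smulRight p with hQ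
  have hQa : ∀ z, Q z = z - ⟪p, z⟫_ℂ • p := fun z => by simp [hQ]
  set sg : E n → ℝ := sP Q 1 with hsg
  have hg : RHom0 sg := (HomMap.of_clm Q).rhom0
  have hg1 : ∀ z : E n, ‖z‖ = 1 → sg z = ‖z - ⟪p, z⟫_ℂ • p‖ ^ 2 := fun z hz => by
    simp [hsg, sP, hz, hQa]
  have hp0 : p ≠ 0 := by
    intro h; rw [h, norm_zero] at hp1; exact zero_ne_one hp1
  obtain ⟨δ, hδ, Hδ⟩ := exists_cone p hp1 hU
  have hev : ∀ᶠ ρ : ℝ in 𝓝[>] 0, 0 < ρ ∧ 2 * ρ < δ ∧ ∀ w ∈ R, sg w ≤ 0 ∨ 2 * ρ < sg w := by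
    have h2 : ∀ x : ℝ, 0 < x → ∀ᶠ ρ : ℝ in 𝓝[>] 0, 2 * ρ < x := fun x hx => by
      refine nhdsWithin_le_nhds ?_
      have : Tendsto (fun ρ : ℝ => 2 * ρ) (𝓝 0) (𝓝 (2 * 0)) := (by fun_prop : Continuous _).tendsto 0
      exact this.eventually (gt_mem_nhds (by simpa using hx))
    refine Eventually.and (p := fun ρ : ℝ => 0 < ρ) self_mem_nhdsWithin ((h2 δ hδ).and ?_)
    refine (Finset.eventually_all R).2 fun w _ => ?_
    rcases le_or_gt (sg w) 0 with h | h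
    · exact Eventually.of_forall fun _ => Or.inl h
    · exact (h2 _ h).mono fun _ h => Or.inr h
  obtain ⟨ρ, hρ, hρδ, hρR⟩ := hev.exists
  have hsph : ∀ z ∈ Metric.sphere (0 : E n) 1, z ∈ ({0}ᶜ : Set (E n)) := fun z hz h => by
    have : ‖z‖ = 1 := by simpa using hz
    rw [Set.mem_singleton_iff.1 h, norm_zero] at this; exact zero_ne_one this
  have hK : IsCompact (Metric.sphere (0 : E n) 1 ∩ sg ⁻¹' Set.Icc ρ (2 * ρ) ∩ {z | pr z = z}) := by
    refine IsCompact.inter_right ?_ (isClosed_eq pr.continuous continuous_id)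
    refine (isCompact_sphere _ _).of_isClosed_subset ?_ Set.inter_subset_left
    exact (hg.cd.continuousOn.mono hsph).preimage_isClosed_of_isClosed Metric.isClosed_sphere
      isClosed_Icc
  obtain ⟨a0, ha0, Ha0⟩ := exists_small hK isOpen_empty (g := fun z => s0 z ^ 2)
    ((hs.cd.continuousOn.mono fun z hz => hsph z hz.1.1).pow 2) (by
      rintro z ⟨⟨hz, hz1, hz2⟩, hzL⟩ h0
      have hn : ‖z‖ = 1 := by simpa using hz
      have h1 : s0 z = 0 := pow_eq_zero_iff (two_ne_zero) |>.1 (le_antisymm h0 (sq_nonneg _))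
      have h2 : l (Z z) = 0 := by simpa [hs0, sP, hn] using h1
      obtain ⟨w, hw, c, rfl⟩ := hR z hzL h2
      have h3 : c • w ≠ 0 := hsph _ hz
      have h4 : sg (c • w) = sg w :=
        hg.hom w (right_ne_zero_of_smul h3) c (left_ne_zero_of_smul h3)
      rcases hρR w hw with h | h <;> linarith)
  have hbig : ∀ z : E n, z ≠ 0 → pr z = z → ρ ≤ sg z → sg z ≤ 2 * ρ → a0 ≤ s0 z ^ 2 := by
    intro z hz hzL h1 h2
    have hn : (0 : ℝ) < ‖z‖ := norm_pos_iff.2 hz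
    have hc : ((‖z‖⁻¹ : ℝ) : ℂ) ≠ 0 := by exact_mod_cast (inv_pos.2 hn).ne'
    by_contra hlt
    refine Ha0 (((‖z‖⁻¹ : ℝ) : ℂ) • z) ⟨⟨?_, ?_⟩, ?_⟩ ?_
    · simp [norm_smul, hn.ne']
    · show sg _ ∈ Set.Icc ρ (2 * ρ)
      rw [hg.hom z hz _ hc]; exact ⟨h1, h2⟩
    · show pr _ = _
      rw [map_smul, hzL]
    · show s0 _ ^ 2 < a0
      rw [hs.hom z hz _ hc]; exact not_le.1 hlt
  set β1 : ℝ → ℝ := fun x => 1 - st (x / ρ) with hβ1
  set β2 : ℝ → ℝ := fun x => 1 - st (2 * x / a0) with hβ2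
  have c1 : ContDiff ℝ ∞ β1 := contDiff_const.sub (st_contDiff.comp (by fun_prop))
  have c2 : ContDiff ℝ ∞ β2 := contDiff_const.sub (st_contDiff.comp (by fun_prop))
  have m2 : Antitone β2 := fun x y hxy => by
    simp only [hβ2]
    have : st (2 * x / a0) ≤ st (2 * y / a0) := st_mono (by gcongr)
    linarith
  have hχ := rh_comp hg c1
  have hΨ := rh_comp hus c2
  have key : ∀ z : E n, z ≠ 0 → pr z = z → ∀ v,
      rz (fun w => β1 (sg w) * β2 (us w)) z v = (β1 (sg z) * deriv β2 (us z) : ℝ) * rz us z v := by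
    intro z hz hzL v
    have hlz : l z = 0 := by rw [← hzL, hl]
    rw [rz_mul (rh_diff hχ hz) (rh_diff hΨ hz),
      rz_comp (c1.differentiable (by simp) _) (rh_diff hg hz),
      rz_comp (c2.differentiable (by simp) _) (rh_diff hus hz)]
    have h0 : deriv β1 (sg z) = 0 ∨ β2 (us z) = 0 := by
      rcases lt_or_ge (sg z) ρ with h | h
      · left
        have : β1 =ᶠ[𝓝 (sg z)] fun _ => 1 := (gt_mem_nhds h).mono fun y hy => by
          simp only [hβ1]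
          rw [st_zero ((div_le_one hρ).2 hy.le), sub_zero]
        rw [this.deriv_eq]; simp
      rcases lt_or_ge (2 * ρ) (sg z) with h' | h'
      · left
        have : β1 =ᶠ[𝓝 (sg z)] fun _ => 0 := (lt_mem_nhds h').mono fun y hy => by
          simp only [hβ1]
          rw [st_one ((le_div_iff₀ hρ).2 hy.le), sub_self]
        rw [this.deriv_eq]; simp
      · right
        simp only [hβ2]
        rw [(Hus z hz hlz).1, st_one, sub_self]
        rw [le_div_iff₀ ha0]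
        linarith [hbig z hz hzL h h']
    rcases h0 with h0 | h0 <;> rw [h0] <;> push_cast <;> ring
  refine ⟨fun w => β1 (sg w) * β2 (us w), rh_mul hχ hΨ, fun z => ?_, ?_, fun z hz => ?_,
    fun z hz hzL => ?_, fun z hz hzL => ?_⟩
  · exact mul_nonneg (sub_nonneg.2 (st_le_one _)) (sub_nonneg.2 (st_le_one _))
  · have h1 : sg p = 0 := by
      rw [hg1 p hp1, inner_self_eq_norm_sq_to_K, hp1]; simp
    have h2 : us p = 0 := by
      rw [(Hus p hp0 (by rw [← hp, hl])).1]; simp [hs0, sP, hroot]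
    simp only [hβ1, hβ2, h1, h2]
    rw [st_zero (by simp), st_zero (by simp)]; simp
  · rcases lt_or_ge (2 * ρ) (sg z) with h | h
    · left
      have hz0 : z ≠ 0 := hsph z (by simpa using hz)
      refine ((rh_at hg hz0).continuousAt.eventually (lt_mem_nhds h)).mono fun w hw => ?_
      simp only [hβ1]
      rw [st_one ((le_div_iff₀ hρ).2 hw.le), sub_self, zero_mul]
    · right
      exact Hδ z hz (by rw [← hg1 z hz]; linarith)
  · rw [key z hz hzL, (Hus z hz (by rw [← hzL, hl])).2.1, mul_zero]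
  · refine ⟨β1 (sg z) * deriv β2 (us z) * (2 * s0 z), ?_, fun v hv => ?_⟩
    · have h1 : 0 ≤ β1 (sg z) := sub_nonneg.2 (st_le_one _)
      have h2 : deriv β2 (us z) ≤ 0 := m2.deriv_nonpos
      have h3 : 0 ≤ s0 z := by simp only [hs0, sP]; positivity
      exact mul_nonpos_of_nonpos_of_nonneg (mul_nonpos_of_nonneg_of_nonpos h1 h2) (by positivity)
    · rw [key z hz hzL, (Hus z hz (by rw [← hzL, hl])).2.2 v hv]
      push_cast; ring

theorem lip_bound {ψ : E n → ℝ} (hψ : RHom0 ψ) {Z : E n → E n} {d : ℕ} (hZ : HomMap Z d)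
    (pr : E n →L[ℂ] E n) (hpr : ∀ z, pr (pr z) = pr z) (p : E n) (hp1 : ‖p‖ = 1)
    (h0 : ∀ z : E n, z ≠ 0 → pr z = z → rz ψ z (Z z) = 0) :
    ∃ K : ℝ, 0 ≤ K ∧ ∀ z ∈ Metric.closedBall p (1 / 2), pr z ∈ Metric.closedBall p (1 / 2) →
      ‖rz ψ z (Z z)‖ ≤ K * ‖z - pr z‖ := by
  have hne : ∀ z ∈ Metric.closedBall p (1 / 2), z ≠ 0 := fun z hz h => by
    rw [h, Metric.mem_closedBall, dist_zero_left, hp1] at hz
    norm_num at hz
  obtain ⟨K, hK⟩ := ContDiffOn.exists_lipschitzOnWith (f := fun w => rz ψ w (Z w))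
    (s := Metric.closedBall p (1 / 2)) (n := ∞)
    (fun z hz => (rz_field_at hψ hZ (hne z hz)).contDiffWithinAt) (by simp)
    (convex_closedBall _ _) (isCompact_closedBall _ _)
  refine ⟨K, K.2, fun z hz hz' => ?_⟩
  have := hK.dist_le_mul z hz (pr z) hz'
  rwa [h0 (pr z) (hne _ hz') (hpr z), dist_zero_right, dist_eq_norm] at this

theorem exists_G {θ Θ : ℝ} (hθ : 0 < θ) (h : θ ≤ Θ) : ∃ G : ℝ → ℝ, ContDiff ℝ ∞ G ∧
    Monotone G ∧ (∃ M, ∀ x, |G x| ≤ M) ∧ (∀ x, x ≤ θ → G x = 0) ∧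
    ∀ x, x * deriv G x = st (x / θ) - st (x / Θ) := by
  have hΘ : 0 < Θ := hθ.trans_le h
  set b : ℝ → ℝ := fun y => (st (y / θ) - st (y / Θ)) / y with hb
  have hB0 : ∀ y, y ≤ θ → st (y / θ) - st (y / Θ) = 0 := fun y hy => by
    rw [st_zero ((div_le_one hθ).2 hy), st_zero ((div_le_one hΘ).2 (hy.trans h)), sub_self]
  have b0 : ∀ y, y ≤ θ → b y = 0 := fun y hy => by simp only [hb, hB0 y hy, zero_div]
  have b1 : ∀ y, 2 * Θ ≤ y → b y = 0 := fun y hy => by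
    simp only [hb]
    rw [st_one ((le_div_iff₀ hθ).2 (by linarith)), st_one ((le_div_iff₀ hΘ).2 hy), sub_self,
      zero_div]
  have bc : ContDiff ℝ ∞ b := contDiff_iff_contDiffAt.2 fun y => by
    rcases lt_or_ge y θ with hy | hy
    · exact contDiffAt_const.congr_of_eventuallyEq
        ((gt_mem_nhds hy).mono fun x hx => b0 x hx.le)
    · exact (((st_contDiff.comp (by fun_prop)).sub
        (st_contDiff.comp (by fun_prop))).contDiffAt).div contDiffAt_id (by linarith : 0 < y).ne'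
  have bn : ∀ y, 0 ≤ b y := fun y => by
    rcases le_or_gt y θ with hy | hy
    · rw [b0 y hy]
    · have hy0 : 0 < y := hθ.trans hy
      exact div_nonneg (sub_nonneg.2 (st_mono (by gcongr))) hy0.le
  set G : ℝ → ℝ := fun x => ∫ y in (0 : ℝ)..x, b y with hG
  have hd : deriv G = b := funext fun x => bc.continuous.deriv_integral b 0 x
  have hdiff : Differentiable ℝ G := fun x =>
    (bc.continuous.integral_hasStrictDerivAt 0 x).hasDerivAt.differentiableAt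
  have hm : Monotone G := monotone_of_deriv_nonneg hdiff fun x => by rw [hd]; exact bn x
  have G0 : ∀ x, x ≤ θ → G x = 0 := fun x hx => by
    simp only [hG]
    rw [intervalIntegral.integral_congr (g := fun _ => 0), intervalIntegral.integral_zero]
    intro y hy
    exact b0 y (hy.2.trans (max_le hθ.le hx))
  have G1 : ∀ x, 2 * Θ ≤ x → G x = G (2 * Θ) := fun x hx => by
    simp only [hG]
    rw [← intervalIntegral.integral_add_adjacent_intervals (b := 2 * Θ)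
      (bc.continuous.intervalIntegrable _ _) (bc.continuous.intervalIntegrable _ _),
      intervalIntegral.integral_congr (a := 2 * Θ) (b := x) (g := fun _ => 0),
      intervalIntegral.integral_zero, add_zero]
    intro y hy
    exact b1 y ((le_min le_rfl hx).trans hy.1)
  refine ⟨G, contDiff_infty_iff_deriv.2 ⟨hdiff, by rw [hd]; exact bc⟩, hm,
    ⟨G (2 * Θ), fun x => ?_⟩, G0, fun x => ?_⟩
  · have h1 : 0 ≤ G x := by
      rcases le_total x θ with hx | hx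
      · rw [G0 x hx]
      · rw [← G0 θ le_rfl]; exact hm hx
    rw [abs_of_nonneg h1]
    rcases le_total x (2 * Θ) with hx | hx
    · exact hm hx
    · rw [G1 x hx]
  · rw [hd]
    rcases eq_or_ne x 0 with rfl | hx
    · rw [hB0 0 hθ.le, zero_mul]
    · simp only [hb]; field_simp

theorem integrable_cont {F : Type*} [NormedAddCommGroup F] {m : Measure (Xi n)}
    [IsFiniteMeasure m] {g : Xi n → F} (hg : Continuous g) : Integrable g m :=
  integrableOn_univ.1 (hg.continuousOn.integrableOn_compact isCompact_univ)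

theorem isCone_ne : IsCone ({0}ᶜ : Set (E n)) :=
  ⟨isOpen_compl_singleton, by simp, fun _ hz _ hc => smul_ne_zero hc hz⟩

/-- integration by parts for two real functions on projective space -/
theorem ibp {m : Measure (Xi n)} [IsFiniteMeasure m] (hm : ClosedM m) {ψ u : E n → ℝ}
    (hψ : RHom0 ψ) (hu : RHom0 u) :
    ∫ ξ, conj (rz u ξ.z ξ.v) * rz ψ ξ.z ξ.v ∂m
      + ∫ ξ, (u ξ.z : ℂ) * Lam (fun w => (ψ w : ℂ)) ξ.z ξ.v ∂m = 0 := by
  have H := (I_loc hm isCone_ne (a := fun w => (ψ w : ℂ)) (b := fun w => (u w : ℂ))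
    (fun z hz => (ofReal_at (rh_at hψ hz)).contDiffWithinAt)
    (fun z hz c hc => by rw [hψ.hom z hz c hc])
    (fun z hz => (ofReal_at (rh_at hu hz)).contDiffWithinAt)
    (fun z hz c hc => by rw [hu.hom z hz c hc])
    (fun z hz hz' => absurd hz hz')).2.2
  simp only [dzb_ofReal] at H
  exact H

theorem flux_ineq {m : Measure (Xi n)} [IsFiniteMeasure m] (hm : ClosedM m) {f : E n → ℂ}
    {r : ℕ} (hf : HomMap f r) {ψ : E n → ℝ} (hψ : RHom0 ψ) (hpos : ∀ z, 0 ≤ ψ z)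
    {θ Θ ε : ℝ} (hθ : 0 < θ) (hΘ : 0 < Θ) (hε : 0 < ε) {G : ℝ → ℝ} (hG : ContDiff ℝ ∞ G)
    (hG' : ∀ x, x * deriv G x = st (x / θ) - st (x / Θ)) :
    r * ∫ ξ, ψ ξ.z * (st (‖f ξ.z‖ ^ 2 / ε / θ) - st (‖f ξ.z‖ ^ 2 / ε / Θ)) ∂m
      + (∫ ξ, (G (‖f ξ.z‖ ^ 2 / ε) : ℂ) * Lam (fun w => (ψ w : ℂ)) ξ.z ξ.v ∂m).re
    ≤ ∫ ξ, ψ ξ.z * (deriv st (‖f ξ.z‖ ^ 2 / (θ * ε)) / (θ * ε)
        * ‖fderiv ℂ f ξ.z ξ.v‖ ^ 2) ∂m := by
  set Gε : ℝ → ℝ := fun s => G (s / ε) with hGε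
  have cG : ContDiff ℝ ∞ Gε := hG.comp (by fun_prop)
  set β : ℝ → ℝ := deriv Gε with hβ
  have cβ : ContDiff ℝ ∞ β := (contDiff_infty_iff_deriv.1 cG).2
  have hβe : ∀ s, β s = deriv G (s / ε) / ε := fun s => by
    have h1 : HasDerivAt (fun s : ℝ => s / ε) (1 / ε) s := (hasDerivAt_id s).div_const ε
    have h2 := ((hG.differentiable (by simp) (s / ε)).hasDerivAt.comp s h1).deriv
    simp only [hβ, hGε]
    rw [show (fun s => G (s / ε)) = G ∘ fun s => s / ε from rfl, h2]; ring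
  have hsβ : ∀ s, s * β s = st (s / ε / θ) - st (s / ε / Θ) := fun s => by
    rw [← hG', hβe]; ring
  have hst : ∀ a : ℝ, 0 < a → ∀ s : ℝ, HasDerivAt (fun s : ℝ => st (s / ε / a))
      (deriv st (s / (a * ε)) / (a * ε)) s := fun a ha s => by
    have h1 : HasDerivAt (fun s : ℝ => s / ε / a) (1 / ε / a) s :=
      ((hasDerivAt_id s).div_const ε).div_const a
    have h2 := (st_differentiable (s / ε / a)).hasDerivAt.comp s h1
    have h3 : s / ε / a = s / (a * ε) := by field_simp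
    have h4 : deriv st (s / (a * ε)) / (a * ε) = deriv st (s / ε / a) * (1 / ε / a) := by
      rw [h3]; field_simp
    rw [h4]
    exact h2
  have hder : ∀ s, β s + s * deriv β s
      = deriv st (s / (θ * ε)) / (θ * ε) - deriv st (s / (Θ * ε)) / (Θ * ε) := fun s => by
    have h1 : HasDerivAt (fun s => s * β s) (1 * β s + s * deriv β s) s :=
      (hasDerivAt_id s).mul (cβ.differentiable (by simp) s).hasDerivAt
    have h2 := (hst θ hθ s).sub (hst Θ hΘ s)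
    have h3 : (fun s => s * β s) = fun s => st (s / ε / θ) - st (s / ε / Θ) := funext hsβ
    rw [h3] at h1
    rw [← h1.unique h2, one_mul]
  have H1 := FB hm hf hψ (β := β) fun s _ => cβ.contDiffAt
  have H2 := ibp hm hψ (rh_comp hf.rhom0 cG)
  have e1 : ∀ ξ : Xi n, conj (rz (fun z => Gε (sP f r z)) ξ.z ξ.v) * rz ψ ξ.z ξ.v
      = conj ((β (‖f ξ.z‖ ^ 2) : ℂ) * (conj (f ξ.z) * fderiv ℂ f ξ.z ξ.v)
          * conj (rz ψ ξ.z ξ.v)) := fun ξ => by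
    rw [rz_comp (cG.differentiable (by simp) _) (rh_diff hf.rhom0 ξ.z_ne), hf.rz_sP, sP_unit]
    simp only [map_mul, Complex.conj_conj, RCLike.inner_apply, hβ]
    ring
  simp only [e1, sP_unit, integral_conj] at H2
  simp only [hsβ, hder] at H1
  have H3 := congrArg Complex.re H1
  have H4 := congrArg Complex.re H2
  simp only [Complex.add_re, Complex.ofReal_re, Complex.zero_re, Complex.conj_re] at H3 H4
  have cf : Continuous fun ξ : Xi n => f ξ.z := hf.cd.continuous.comp Xi.continuous_z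
  have cD : Continuous fun ξ : Xi n => fderiv ℂ f ξ.z ξ.v :=
    hf.cont_D.comp (Xi.continuous_z.prodMk Xi.continuous_v)
  have cψ := hψ.cont
  have H5 : ∫ ξ, ψ ξ.z * ((deriv st (‖f ξ.z‖ ^ 2 / (θ * ε)) / (θ * ε)
        - deriv st (‖f ξ.z‖ ^ 2 / (Θ * ε)) / (Θ * ε)) * ‖fderiv ℂ f ξ.z ξ.v‖ ^ 2) ∂m
      ≤ ∫ ξ, ψ ξ.z * (deriv st (‖f ξ.z‖ ^ 2 / (θ * ε)) / (θ * ε)
        * ‖fderiv ℂ f ξ.z ξ.v‖ ^ 2) ∂m := by
    have c1 : ∀ a : ℝ, Continuous fun ξ : Xi n => deriv st (‖f ξ.z‖ ^ 2 / a) / a := fun a =>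
      (st_deriv_continuous.comp ((cf.norm.pow 2).div_const a)).div_const a
    refine integral_mono (integrable_cont (cψ.mul (((c1 _).sub (c1 _)).mul (cD.norm.pow 2))))
      (integrable_cont (cψ.mul ((c1 _).mul (cD.norm.pow 2)))) fun ξ => ?_
    have h1 : 0 ≤ deriv st (‖f ξ.z‖ ^ 2 / (Θ * ε)) / (Θ * ε) :=
      div_nonneg st_mono.deriv_nonneg (by positivity)
    have h2 := hpos ξ.z
    refine mul_le_mul_of_nonneg_left (mul_le_mul_of_nonneg_right (by linarith) (by positivity)) h2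
  simp only [hGε] at H4
  linarith

/-- The minor used in Cramer's rule. -/
def M1 (a1 a2 : E n →L[ℂ] ℂ) (ξ : Xi n) : ℂ := a1 ξ.z * a2 ξ.v - a2 ξ.z * a1 ξ.v

/-- The value of `f ^ 2 / ε` read off from the direction. -/
def rt (S : Setup n) (l a1 a2 : E n →L[ℂ] ℂ) (ξ : Xi n) : ℂ :=
  ((l ξ.z * (a1 (S.Z ξ.z) * a2 ξ.v - a2 (S.Z ξ.z) * a1 ξ.v)
    + l ξ.v * (a1 ξ.z * a2 (S.Z ξ.z) - a2 ξ.z * a1 (S.Z ξ.z))) / M1 a1 a2 ξ - l (S.Z ξ.z)) / l S.q

theorem cont_M1 (a1 a2 : E n →L[ℂ] ℂ) : Continuous (M1 a1 a2) := by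
  unfold M1; fun_prop

theorem cont_Z (S : Setup n) : Continuous fun ξ : Xi n => S.Z ξ.z :=
  S.hZ.cd.continuous.comp Xi.continuous_z

theorem cont_num (S : Setup n) (l a1 a2 : E n →L[ℂ] ℂ) : Continuous fun ξ : Xi n =>
    l ξ.z * (a1 (S.Z ξ.z) * a2 ξ.v - a2 (S.Z ξ.z) * a1 ξ.v)
      + l ξ.v * (a1 ξ.z * a2 (S.Z ξ.z) - a2 ξ.z * a1 (S.Z ξ.z)) := by
  have h1 := a1.continuous.comp (cont_Z S)
  have h2 := a2.continuous.comp (cont_Z S)
  refine Continuous.add (Continuous.mul (by fun_prop) ((h1.mul ?_).sub (h2.mul ?_)))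
    (Continuous.mul (by fun_prop) ((Continuous.mul ?_ h2).sub (Continuous.mul ?_ h1))) <;>
  fun_prop

theorem contOn_rt (S : Setup n) (l a1 a2 : E n →L[ℂ] ℂ) :
    ContinuousOn (rt S l a1 a2) {ξ | M1 a1 a2 ξ ≠ 0} :=
  (((cont_num S l a1 a2).continuousOn.div (cont_M1 a1 a2).continuousOn fun _ h => h).sub
    (l.continuous.comp (cont_Z S)).continuousOn).div_const _

theorem meas_rt (S : Setup n) (l a1 a2 : E n →L[ℂ] ℂ) : Measurable (rt S l a1 a2) :=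
  (((cont_num S l a1 a2).measurable.div (cont_M1 a1 a2).measurable).sub
    (l.continuous.comp (cont_Z S)).measurable).div_const _

theorem cramer (S : Setup n) (hj : S.j = 2) (l a1 a2 : E n →L[ℂ] ℂ) (hlq : l S.q ≠ 0)
    (ha1 : a1 S.q = 0) (ha2 : a2 S.q = 0) {ε : ℝ} (hε : 0 < ε) {ξ : Xi n}
    (hd : Dir (S.V ε ξ.z) ξ) (hM : M1 a1 a2 ξ ≠ 0) :
    ‖S.f ξ.z‖ ^ 2 / ε = ‖rt S l a1 a2 ξ‖ := by
  obtain ⟨c1, c2, H⟩ : ∃ c1 c2 : ℂ, S.V ε ξ.z = c1 • ξ.z + c2 • ξ.v := ⟨_, _, hd⟩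
  have e1 := congrArg a1 H
  have e2 := congrArg a2 H
  have e3 := congrArg l H
  simp only [Setup.V, map_add, map_smul, smul_eq_mul, ha1, ha2, hj, mul_zero, zero_add]
    at e1 e2 e3
  have hε' : (ε : ℂ) ≠ 0 := by exact_mod_cast hε.ne'
  have key : rt S l a1 a2 ξ = S.f ξ.z ^ 2 / ε := by
    unfold rt
    rw [div_eq_div_iff hlq hε', sub_mul, div_mul_eq_mul_div, sub_eq_iff_eq_add, div_eq_iff hM]
    unfold M1
    linear_combination (l ξ.z * a2 ξ.v - l ξ.v * a2 ξ.z) * e1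
      + (l ξ.v * a1 ξ.z - l ξ.z * a1 ξ.v) * e2
      - (a1 ξ.z * a2 ξ.v - a2 ξ.z * a1 ξ.v) * e3
  rw [key, norm_div, norm_pow, Complex.norm_real, Real.norm_eq_abs, abs_of_pos hε]

theorem M1_ne (pr : E n →L[ℂ] E n) (a1 a2 : E n →L[ℂ] ℂ)
    (hinj : ∀ z, pr z = z → a1 z = 0 → a2 z = 0 → z = 0) {ξ : Xi n} (hz : pr ξ.z = ξ.z)
    (hv : pr ξ.v = ξ.v) : M1 a1 a2 ξ ≠ 0 := by
  intro h
  unfold M1 at h
  have hvv : ⟪ξ.v, ξ.v⟫_ℂ = 1 := by rw [inner_self_eq_norm_sq_to_K, ξ.norm_v]; simp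
  have aux : ∀ x y : ℂ, x • ξ.z - y • ξ.v = 0 → y = 0 := fun x y H => by
    have := congrArg (fun w => ⟪ξ.v, w⟫_ℂ) H
    simpa [inner_sub_right, inner_smul_right, ξ.inner_vz, hvv, ξ.norm_v] using this
  have h1 : a1 ξ.z = 0 := aux (a1 ξ.v) _ (hinj _ (by rw [map_sub, map_smul, map_smul, hz, hv])
    (by simp only [map_sub, map_smul, smul_eq_mul]; ring)
    (by simp only [map_sub, map_smul, smul_eq_mul]; linear_combination -h))
  have h2 : a2 ξ.z = 0 := aux (a2 ξ.v) _ (hinj _ (by rw [map_sub, map_smul, map_smul, hz, hv])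
    (by simp only [map_sub, map_smul, smul_eq_mul]; linear_combination h)
    (by simp only [map_sub, map_smul, smul_eq_mul]; ring))
  exact ξ.z_ne (hinj _ hz h1 h2)

theorem Lam_zero {ψ : E n → ℝ} {z : E n} (h : ψ =ᶠ[𝓝 z] fun _ => 0) (v : E n) :
    Lam (fun w => (ψ w : ℂ)) z v = 0 := by
  unfold Lam
  rw [dzb_congr (h := fun _ => 0), dzb_const]
  refine h.eventuallyEq_nhds.mono fun w hw => ?_
  exact (rz_congr hw v).trans (rz_const 0 w v)

theorem limit_ineq {S : Setup n} (D : Degen S) (hj : S.j = 2) (l a1 a2 : E n →L[ℂ] ℂ)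
    (hlq : l S.q ≠ 0) (ha1 : a1 S.q = 0) (ha2 : a2 S.q = 0) {ψ : E n → ℝ} (hψ : RHom0 ψ)
    (hpos : ∀ z, 0 ≤ ψ z)
    (hae : ∀ᵐ ξ ∂(D.m0 : Measure (Xi n)), (ψ =ᶠ[𝓝 ξ.z] fun _ => 0) ∨
      (M1 a1 a2 ξ ≠ 0 ∧ l ξ.z = 0 ∧ l ξ.v = 0 ∧ ∃ t : ℝ, t ≤ 0 ∧
        rz ψ ξ.z ξ.v = t * rz (sP (fun w => l (S.Z w)) S.d) ξ.z ξ.v))
    {θ Θ : ℝ} (hθ : 0 < θ) (h : θ ≤ Θ) (hΘ : ∀ ξ : Xi n, ‖l (S.Z ξ.z)‖ / ‖l S.q‖ ≤ Θ) {A : ℝ}
    (hA : ∀ η : ℝ, 0 < η → ∀ᶠ k in atTop,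
      ∫ ξ, ψ ξ.z * (deriv st (‖S.f ξ.z‖ ^ 2 / (θ * D.ε k)) / (θ * D.ε k)
        * ‖fderiv ℂ S.f ξ.z ξ.v‖ ^ 2) ∂(D.m k : Measure (Xi n)) ≤ A + η) :
    ∫ ξ, ψ ξ.z * st (‖l (S.Z ξ.z)‖ / ‖l S.q‖ / θ) ∂(D.m0 : Measure (Xi n)) ≤ A := by
  have hΘ0 : 0 < Θ := hθ.trans_le h
  obtain ⟨G, cG, mG, ⟨M, hM⟩, G0, hG'⟩ := exists_G hθ h
  have hO : IsOpen {ξ : Xi n | M1 a1 a2 ξ ≠ 0} := isOpen_ne_fun (cont_M1 a1 a2) continuous_const
  have cf : Continuous fun ξ : Xi n => S.f ξ.z := S.hf.cd.continuous.comp Xi.continuous_z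
  have cψ := hψ.cont
  have cL := hψ.cont_Lam
  have crt := (contOn_rt S l a1 a2).norm
  have mrt := (meas_rt S l a1 a2).norm
  have hB : ∀ (z : E n) (x y : ℝ), ‖((ψ z * (st x - st y) : ℝ) : ℂ)‖ ≤ ψ z := fun z x y => by
    rw [Complex.norm_real, Real.norm_eq_abs, abs_mul, abs_of_nonneg (hpos z)]
    refine mul_le_of_le_one_right (hpos z) (abs_le.2 ⟨?_, ?_⟩) <;>
      linarith [st_nonneg x, st_nonneg y, st_le_one x, st_le_one y]
  have hC : ∀ (x : ℝ) (w : ℂ), ‖(G x : ℂ) * w‖ ≤ M * ‖w‖ := fun x w => by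
    rw [norm_mul, Complex.norm_real, Real.norm_eq_abs]
    exact mul_le_mul_of_nonneg_right (hM x) (norm_nonneg _)
  have hcr : ∀ k, ∀ᵐ ξ ∂(D.m k : Measure (Xi n)), ξ ∈ {ξ : Xi n | M1 a1 a2 ξ ≠ 0} →
      ‖S.f ξ.z‖ ^ 2 / D.ε k = ‖rt S l a1 a2 ξ‖ := fun k =>
    (D.dir k).mono fun ξ hd hξ => cramer S hj l a1 a2 hlq ha1 ha2 (D.pos k) hd hξ
  have cs : ∀ k, Continuous fun ξ : Xi n => ‖S.f ξ.z‖ ^ 2 / D.ε k := fun k =>
    (cf.norm.pow 2).div_const (D.ε k)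
  have T1 := D.tendsto_open hO
    (G := fun k ξ => ((ψ ξ.z * (st (‖S.f ξ.z‖ ^ 2 / D.ε k / θ)
      - st (‖S.f ξ.z‖ ^ 2 / D.ε k / Θ)) : ℝ) : ℂ))
    (G0 := fun ξ => ((ψ ξ.z * (st (‖rt S l a1 a2 ξ‖ / θ) - st (‖rt S l a1 a2 ξ‖ / Θ)) : ℝ) : ℂ))
    (b := fun ξ => ψ ξ.z) cψ
    (fun k => Complex.continuous_ofReal.comp (cψ.mul
      ((st_continuous.comp ((cs k).div_const θ)).sub (st_continuous.comp ((cs k).div_const Θ)))))
    (fun k ξ => hB _ _ _)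
    (Complex.continuous_ofReal.comp_continuousOn (cψ.continuousOn.mul
      ((st_continuous.comp_continuousOn (crt.div_const _)).sub
        (st_continuous.comp_continuousOn (crt.div_const _)))))
    (fun ξ => hB _ _ _)
    (Complex.continuous_ofReal.measurable.comp (cψ.measurable.mul
      ((st_continuous.measurable.comp (mrt.div_const _)).sub
        (st_continuous.measurable.comp (mrt.div_const _)))))
    (fun k => (hcr k).mono fun ξ H hξ => by rw [H hξ])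
    (hae.mono fun ξ H hξ => by
      rcases H with H | H
      · exact H.self_of_nhds
      · exact absurd H.1 hξ)
  have T2 := D.tendsto_open hO
    (G := fun k ξ => (G (‖S.f ξ.z‖ ^ 2 / D.ε k) : ℂ) * Lam (fun w => (ψ w : ℂ)) ξ.z ξ.v)
    (G0 := fun ξ => (G ‖rt S l a1 a2 ξ‖ : ℂ) * Lam (fun w => (ψ w : ℂ)) ξ.z ξ.v)
    (b := fun ξ => M * ‖Lam (fun w => (ψ w : ℂ)) ξ.z ξ.v‖) (continuous_const.mul cL.norm)
    (fun k => (Complex.continuous_ofReal.comp (cG.continuous.comp (cs k))).mul cL)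
    (fun k ξ => hC _ _)
    ((Complex.continuous_ofReal.comp_continuousOn
      (cG.continuous.comp_continuousOn crt)).mul cL.continuousOn)
    (fun ξ => hC _ _)
    ((Complex.continuous_ofReal.measurable.comp
      (cG.continuous.measurable.comp mrt)).mul cL.measurable)
    (fun k => (hcr k).mono fun ξ H hξ => by rw [H hξ])
    (hae.mono fun ξ H hξ => by
      rcases H with H | H
      · rw [Lam_zero H, norm_zero, mul_zero]
      · exact absurd H.1 hξ)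
  simp only [integral_complex_ofReal] at T1
  have T3 := ((Complex.continuous_re.tendsto _).comp T1).const_mul (S.r : ℝ)
  have T4 := T3.add ((Complex.continuous_re.tendsto _).comp T2)
  simp only [Function.comp_def, Complex.ofReal_re] at T4
  have hle := le_of_forall_pos_le_add fun η hη => le_of_tendsto T4 ((hA η hη).mono fun k hk =>
    (flux_ineq (D.closed k) S.hf hψ hpos hθ hΘ0 (D.pos k) cG hG').trans hk)
  have hrt : ∀ ξ : Xi n, l ξ.z = 0 → l ξ.v = 0 →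
      ‖rt S l a1 a2 ξ‖ = ‖l (S.Z ξ.z)‖ / ‖l S.q‖ := fun ξ h1 h2 => by
    simp [rt, h1, h2]
  have e1 : ∫ ξ, ψ ξ.z * (st (‖rt S l a1 a2 ξ‖ / θ) - st (‖rt S l a1 a2 ξ‖ / Θ))
        ∂(D.m0 : Measure (Xi n))
      = ∫ ξ, ψ ξ.z * st (‖l (S.Z ξ.z)‖ / ‖l S.q‖ / θ) ∂(D.m0 : Measure (Xi n)) := by
    refine integral_congr_ae (hae.mono fun ξ H => ?_)
    rcases H with H | H
    · simp only [H.self_of_nhds, zero_mul]
    · simp only [hrt ξ H.2.1 H.2.2.1]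
      rw [st_zero ((div_le_one hΘ0).2 (hΘ ξ)), sub_zero]
  have hP := hm_comp S.hZ l
  set Gt : ℝ → ℝ := fun y => G (√y / ‖l S.q‖) with hGt
  have cGt : ContDiff ℝ ∞ Gt := contDiff_iff_contDiffAt.2 fun y => by
    rcases lt_or_ge (√y / ‖l S.q‖) θ with hy | hy
    · have hc : Continuous fun y : ℝ => √y / ‖l S.q‖ := by fun_prop
      exact contDiffAt_const.congr_of_eventuallyEq
        ((hc.continuousAt.eventually (gt_mem_nhds hy)).mono fun x hx => G0 _ hx.le)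
    · have hy0 : y ≠ 0 := by
        rintro rfl
        simp only [Real.sqrt_zero, zero_div] at hy
        linarith
      exact cG.contDiffAt.comp y ((Real.contDiffAt_sqrt hy0).div_const _)
  have mGt : Monotone Gt := fun x y hxy => mG (by gcongr)
  have hu := rh_comp hP.rhom0 cGt
  have e2 : ∫ ξ, (G ‖rt S l a1 a2 ξ‖ : ℂ) * Lam (fun w => (ψ w : ℂ)) ξ.z ξ.v
        ∂(D.m0 : Measure (Xi n))
      = ∫ ξ, (Gt (sP (fun w => l (S.Z w)) S.d ξ.z) : ℂ) * Lam (fun w => (ψ w : ℂ)) ξ.z ξ.v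
        ∂(D.m0 : Measure (Xi n)) := by
    refine integral_congr_ae (hae.mono fun ξ H => ?_)
    rcases H with H | H
    · simp only [Lam_zero H, mul_zero]
    · simp only [hrt ξ H.2.1 H.2.2.1, sP_unit, hGt, Real.sqrt_sq (norm_nonneg _)]
  have H2 := congrArg Complex.re (ibp D.closed0 hψ hu)
  have cI : Continuous fun ξ : Xi n =>
      conj (rz (fun z => Gt (sP (fun w => l (S.Z w)) S.d z)) ξ.z ξ.v) * rz ψ ξ.z ξ.v :=
    (Complex.continuous_conj.comp (hu.cont_rz Xi.continuous_v)).mul (hψ.cont_rz Xi.continuous_v)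
  have H3 : (∫ ξ, conj (rz (fun z => Gt (sP (fun w => l (S.Z w)) S.d z)) ξ.z ξ.v) * rz ψ ξ.z ξ.v
      ∂(D.m0 : Measure (Xi n))).re ≤ 0 := by
    have := Complex.reCLM.integral_comp_comm (integrable_cont (m := (D.m0 : Measure (Xi n))) cI)
    simp only [Complex.reCLM_apply] at this
    rw [← this]
    refine integral_nonpos_of_ae (hae.mono fun ξ H => ?_)
    rcases H with H | ⟨-, -, -, t, ht, H⟩
    · simp only [rz_congr H, rz_const, mul_zero, Complex.zero_re, Pi.zero_apply, le_refl]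
    · have hd : 0 ≤ deriv Gt (sP (fun w => l (S.Z w)) S.d ξ.z) := mGt.deriv_nonneg
      simp only [Pi.zero_apply]
      rw [H, rz_comp (cGt.differentiable (by simp) _) (rh_diff hP.rhom0 ξ.z_ne)]
      generalize rz (sP (fun w => l (S.Z w)) S.d) ξ.z ξ.v = w
      generalize deriv Gt (sP (fun w => l (S.Z w)) S.d ξ.z) = e at hd
      have : conj ((e : ℂ) * w) * (t * w) = ((e * t * Complex.normSq w : ℝ) : ℂ) := by
        rw [map_mul, Complex.conj_ofReal]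
        push_cast
        rw [← Complex.mul_conj]; ring
      rw [this, Complex.ofReal_re]
      exact mul_nonpos_of_nonpos_of_nonneg (mul_nonpos_of_nonneg_of_nonpos hd ht)
        (Complex.normSq_nonneg w)
  rw [e1, e2] at hle
  simp only [Complex.add_re, Complex.zero_re] at H2
  have h0 : 0 ≤ ∫ ξ, ψ ξ.z * st (‖l (S.Z ξ.z)‖ / ‖l S.q‖ / θ) ∂(D.m0 : Measure (Xi n)) :=
    integral_nonneg fun ξ => mul_nonneg (hpos _) (st_nonneg _)
  have hr : (1 : ℝ) ≤ S.r := by exact_mod_cast S.hr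
  nlinarith

/-- A closed measure carried by the zero set of `ψ` on the projective line `L` vanishes on `L`. -/
theorem finish {m : Measure (Xi n)} [IsFiniteMeasure m] (hm : ClosedM m) (pr : E n →L[ℂ] E n)
    (a1 a2 : E n →L[ℂ] ℂ) (hinj : ∀ z, pr z = z → a1 z = 0 → a2 z = 0 → z = 0)
    (p : E n) (hp1 : ‖p‖ = 1) (hp : pr p = p) {ψ : E n → ℝ} (hψ : RHom0 ψ) (hψp : ψ p = 1)
    (hz : ∀ᵐ ξ ∂m, pr ξ.z = ξ.z → ψ ξ.z = 0) : ∀ᵐ ξ ∂m, pr ξ.z ≠ ξ.z := by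
  have hp0 : p ≠ 0 := by
    intro h; rw [h, norm_zero] at hp1; exact zero_ne_one hp1
  set Q : E n →L[ℂ] E n := ContinuousLinearMap.id ℂ (E n) - pr with hQ
  have hQa : ∀ z, Q z = 0 ↔ pr z = z := fun z => by
    simp only [hQ, sub_apply, ContinuousLinearMap.id_apply, sub_eq_zero]
    exact eq_comm
  set P : E n →L[ℂ] ℂ := a1 p • a2 - a2 p • a1 with hP
  have hPa : ∀ z, P z = a1 p * a2 z - a2 p * a1 z := fun z => by simp [hP]
  have hK : IsCompact ({ξ : Xi n | pr ξ.z = ξ.z} ∩ {ξ | ψ ξ.z = 0}) :=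
    ((isClosed_eq (by fun_prop) Xi.continuous_z).inter
      (isClosed_eq hψ.cont continuous_const)).isCompact
  obtain ⟨δ, hδ, Hδ⟩ := exists_small hK isOpen_empty (g := fun ξ => ‖P ξ.z‖ ^ 2) (by fun_prop) (by
    rintro ξ ⟨h1, h2⟩ h0
    have h1 : pr ξ.z = ξ.z := h1
    have h2 : ψ ξ.z = 0 := h2
    have h3 : P ξ.z = 0 :=
      norm_eq_zero.1 (pow_eq_zero_iff (two_ne_zero) |>.1 (le_antisymm h0 (sq_nonneg _)))
    rw [hPa] at h3
    have aux : ∀ x y : ℂ, x • ξ.z - y • p = 0 → x = 0 := fun x y H => by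
      by_contra hx
      have e : ξ.z = (x⁻¹ * y) • p := by
        rw [mul_smul, ← sub_eq_zero.1 H, smul_smul, inv_mul_cancel₀ hx, one_smul]
      have hc : x⁻¹ * y ≠ 0 := left_ne_zero_of_smul (e ▸ ξ.z_ne)
      rw [e, hψ.hom p hp0 _ hc, hψp] at h2
      exact one_ne_zero h2
    have e1 : a1 p = 0 := aux _ (a1 ξ.z) (hinj _ (by rw [map_sub, map_smul, map_smul, h1, hp])
      (by simp only [map_sub, map_smul, smul_eq_mul]; ring)
      (by simp only [map_sub, map_smul, smul_eq_mul]; linear_combination h3))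
    have e2 : a2 p = 0 := aux _ (a2 ξ.z) (hinj _ (by rw [map_sub, map_smul, map_smul, h1, hp])
      (by simp only [map_sub, map_smul, smul_eq_mul]; linear_combination -h3)
      (by simp only [map_sub, map_smul, smul_eq_mul]; ring))
    exact absurd (hinj p hp e1 e2) hp0)
  have hms : MeasurableSet {ξ : Xi n | Q ξ.z = 0} :=
    (isClosed_eq (by fun_prop) continuous_const).measurableSet
  have h0 : m.restrict {ξ : Xi n | Q ξ.z = 0} = 0 := by
    refine propagate (closed_eq hm (HomMap.of_clm Q) le_rfl) (HomMap.of_clm P) le_rfl hδ ?_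
    refine (ae_restrict_iff' hms).2 (hz.mono fun ξ H hξ => ?_)
    have h1 := (hQa _).1 hξ
    by_contra hlt
    exact Hδ ξ ⟨h1, H h1⟩ (not_le.1 hlt)
  rw [Measure.restrict_eq_zero] at h0
  exact (measure_eq_zero_iff_ae_notMem.1 h0).mono fun ξ H h => H ((hQa _).2 h)

theorem canard_of {S : Setup n} (D : Degen S) (hj : S.j = 2)
    (plD : ∀ {ψ : E n → ℝ}, RHom0 ψ → (∀ z, 0 ≤ ψ z) →
      (∀ z ∈ tsupport ψ, ‖z‖ = 1 → S.f z = 0 → ∀ c : ℂ, S.Z z ≠ c • z) → ∀ {C : ℝ},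
      (∀ z : E n, ‖z‖ = 1 → ‖rz ψ z (S.Z z)‖ ≤ C * (‖S.f z‖ + ‖S.W z‖)) →
      ∃ C' ϑ0 : ℝ, 0 < ϑ0 ∧ ∀ ϑ : ℝ, 0 < ϑ → ϑ < ϑ0 → ∀ η : ℝ, 0 < η → ∀ᶠ k in atTop,
        ∫ ξ, ψ ξ.z * (deriv st (‖S.f ξ.z‖ ^ 2 / (ϑ * D.ε k)) / (ϑ * D.ε k)
          * ‖fderiv ℂ S.f ξ.z ξ.v‖ ^ 2) ∂(D.m k : Measure (Xi n)) ≤ C' * ϑ + η)
    (hY : ∀ᵐ ξ ∂(D.m0 : Measure (Xi n)), S.f ξ.z = 0 ∧ S.W ξ.z = 0)
    (pr : E n →L[ℂ] E n) (hpr : ∀ z, pr (pr z) = pr z) (l a1 a2 : E n →L[ℂ] ℂ)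
    (hl : ∀ z, l (pr z) = 0) (hlq : l S.q ≠ 0) (ha1 : a1 S.q = 0) (ha2 : a2 S.q = 0)
    (hinj : ∀ z, pr z = z → a1 z = 0 → a2 z = 0 → z = 0)
    (p : E n) (hp1 : ‖p‖ = 1) (hp : pr p = p) (hreg : ∀ c : ℂ, S.Z p ≠ c • p)
    (hroot : l (S.Z p) = 0) (R : Finset (E n))
    (hR : ∀ z, pr z = z → l (S.Z z) = 0 → ∃ w ∈ R, ∃ c : ℂ, z = c • w) {C : ℝ}
    (hdist : ∀ᶠ z in 𝓝 p, ‖z - pr z‖ ≤ C * (‖S.f z‖ + ‖S.W z‖)) :
    ∀ᵐ ξ ∂(D.m0 : Measure (Xi n)), pr ξ.z ≠ ξ.z := by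
  have cZ : Continuous S.Z := S.hZ.cd.continuous
  have h1 : ∀ᶠ z in 𝓝 p, ‖z‖ = 1 → ∀ c : ℂ, S.Z z ≠ c • z := by
    have hc : Continuous fun z : E n => S.Z z - ⟪z, S.Z z⟫_ℂ • z :=
      cZ.sub ((continuous_id.inner (𝕜 := ℂ) cZ).smul continuous_id)
    refine (hc.continuousAt.eventually_ne (sub_ne_zero.2 (hreg _))).mono fun z hz hn c hc => hz ?_
    rw [hc, inner_smul_right, inner_self_eq_norm_sq_to_K, hn]; simp
  have h2 : ∀ᶠ z in 𝓝 p, z ∈ Metric.closedBall p (1 / 2) :=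
    Metric.closedBall_mem_nhds p (by norm_num)
  have h3 : ∀ᶠ z in 𝓝 p, pr z ∈ Metric.closedBall p (1 / 2) := by
    have : Tendsto pr (𝓝 p) (𝓝 p) := by simpa only [hp] using pr.continuous.tendsto p
    exact this.eventually h2
  obtain ⟨ψ, hψ, hpos, hψp, hcone, hZ0, hsign⟩ := exists_psi S.hZ pr l hl p hp1 hp hroot R hR
    (U := {z | (‖z - pr z‖ ≤ C * (‖S.f z‖ + ‖S.W z‖) ∧ (‖z‖ = 1 → ∀ c : ℂ, S.Z z ≠ c • z)) ∧
      z ∈ Metric.closedBall p (1 / 2) ∧ pr z ∈ Metric.closedBall p (1 / 2)})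
    ((hdist.and h1).and (h2.and h3))
  obtain ⟨K, hK0, hK⟩ := lip_bound hψ S.hZ pr hpr p hp1 hZ0
  have hne : ∀ c : ℂ, ‖c‖ = 1 → c ≠ 0 := fun c hc h => by
    rw [h, norm_zero] at hc; exact zero_ne_one hc
  have hfW : ∀ (c : ℂ) (z : E n), ‖c‖ = 1 →
      ‖S.f (c • z)‖ + ‖S.W (c • z)‖ = ‖S.f z‖ + ‖S.W z‖ := fun c z hc => by
    simp only [Setup.W]
    rw [S.hf.hom, S.hf.fderiv_smul (hne c hc)]
    simp [hc]
  obtain ⟨C', ϑ0, hϑ0, HD⟩ := plD hψ hpos (C := K * max C 0)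
    (by
      intro z hz hn _ c hc
      rcases hcone z hn with H | ⟨a, ha, z', hz', rfl⟩
      · exact (notMem_tsupport_iff_eventuallyEq.2 H) hz
      · rw [norm_smul, ha, one_mul] at hn
        have ha0 := hne a ha
        refine hz'.1.2 hn ((a ^ S.d)⁻¹ * (c * a)) ?_
        rw [S.hZ.hom, smul_smul] at hc
        rw [mul_smul, ← hc, smul_smul, inv_mul_cancel₀ (pow_ne_zero _ ha0), one_smul])
    (by
      intro z hn
      rcases hcone z hn with H | ⟨a, ha, z', hz', rfl⟩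
      · rw [rz_congr H, rz_const, norm_zero]; positivity
      · have hz0 : z' ≠ 0 := by
          rintro rfl
          rw [smul_zero, norm_zero] at hn; exact zero_ne_one hn
        rw [hfW a z' ha, rz_field_scale hψ S.hZ hz0 (hne a ha), norm_mul, norm_mul, norm_pow,
          norm_inv, ha, one_pow, inv_one, one_mul, one_mul, mul_assoc]
        refine (hK z' hz'.2.1 hz'.2.2).trans (mul_le_mul_of_nonneg_left (hz'.1.1.trans ?_) hK0)
        exact mul_le_mul_of_nonneg_right (le_max_left _ _) (by positivity))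
  have hsupp := support_ae D.closed0
    (HomMap.of_clm (ContinuousLinearMap.id ℂ (E n) - pr : E n →L[ℂ] E n))
  have hae : ∀ᵐ ξ ∂(D.m0 : Measure (Xi n)), (ψ =ᶠ[𝓝 ξ.z] fun _ => 0) ∨
      (M1 a1 a2 ξ ≠ 0 ∧ l ξ.z = 0 ∧ l ξ.v = 0 ∧ ∃ t : ℝ, t ≤ 0 ∧
        rz ψ ξ.z ξ.v = t * rz (sP (fun w => l (S.Z w)) S.d) ξ.z ξ.v) := by
    filter_upwards [hY, hsupp] with ξ HY HS
    rcases hcone ξ.z ξ.norm_z with H | ⟨a, ha, z', hz', e⟩
    · exact Or.inl H
    right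
    have e1 : pr ξ.z = ξ.z := by
      have h4 := hz'.1.1
      rw [← hfW a z' ha, ← e, HY.1, HY.2, norm_zero, add_zero, mul_zero] at h4
      rw [e, map_smul, ← sub_eq_zero.1 (norm_le_zero_iff.1 h4)]
    have e2 : pr ξ.v = ξ.v := by
      rw [ContinuousLinearMap.fderiv] at HS
      simp only [sub_apply, ContinuousLinearMap.id_apply, sub_eq_zero] at HS
      exact (HS e1.symm).symm
    have e3 : l ξ.v = 0 := by rw [← e2, hl]
    obtain ⟨t, ht, Ht⟩ := hsign ξ.z ξ.z_ne e1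
    exact ⟨M1_ne pr a1 a2 hinj e1 e2, by rw [← e1, hl], e3, t, ht, Ht _ e3⟩
  have cσ : Continuous fun ξ : Xi n => ‖l (S.Z ξ.z)‖ / ‖l S.q‖ :=
    (l.continuous.comp (cont_Z S)).norm.div_const _
  obtain ⟨Θ0, hΘ0⟩ := isCompact_univ.exists_bound_of_continuousOn cσ.continuousOn
  have hint : ∀ θ : ℝ, Integrable (fun ξ : Xi n => ψ ξ.z * st (‖l (S.Z ξ.z)‖ / ‖l S.q‖ / θ))
      (D.m0 : Measure (Xi n)) := fun θ =>
    integrable_cont (hψ.cont.mul (st_continuous.comp (cσ.div_const θ)))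
  have hsmall : ∀ θ : ℝ, 0 < θ → θ < ϑ0 →
      ∫ ξ, ψ ξ.z * st (‖l (S.Z ξ.z)‖ / ‖l S.q‖ / θ) ∂(D.m0 : Measure (Xi n)) ≤ C' * θ :=
    fun θ hθ hθ' => limit_ineq D hj l a1 a2 hlq ha1 ha2 hψ hpos hae hθ (le_max_right Θ0 θ)
      (fun ξ => ((le_abs_self _).trans (hΘ0 ξ (Set.mem_univ _))).trans (le_max_left _ _))
      (HD θ hθ hθ')
  have hzero : ∀ θ1 : ℝ, 0 < θ1 → ∀ᵐ ξ ∂(D.m0 : Measure (Xi n)),
      ψ ξ.z * st (‖l (S.Z ξ.z)‖ / ‖l S.q‖ / θ1) = 0 := by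
    intro θ1 hθ1
    have hnn : ∀ ξ : Xi n, 0 ≤ ψ ξ.z * st (‖l (S.Z ξ.z)‖ / ‖l S.q‖ / θ1) := fun ξ =>
      mul_nonneg (hpos _) (st_nonneg _)
    refine (integral_eq_zero_iff_of_nonneg hnn (hint θ1)).1
      (le_antisymm ?_ (integral_nonneg hnn))
    have ht : Tendsto (fun θ : ℝ => C' * θ) (𝓝[>] 0) (𝓝 (C' * 0)) :=
      ((by fun_prop : Continuous fun θ : ℝ => C' * θ).tendsto 0).mono_left nhdsWithin_le_nhds
    rw [mul_zero] at ht
    refine ge_of_tendsto ht ?_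
    filter_upwards [self_mem_nhdsWithin, nhdsWithin_le_nhds (gt_mem_nhds hϑ0),
      nhdsWithin_le_nhds (gt_mem_nhds hθ1)] with θ hθ hθa hθb
    have hθ : 0 < θ := hθ
    refine le_trans (integral_mono (hint θ1) (hint θ) fun ξ => ?_) (hsmall θ hθ hθa)
    refine mul_le_mul_of_nonneg_left (st_mono ?_) (hpos _)
    exact div_le_div_of_nonneg_left (by positivity) hθ hθb.le
  have hall := ae_all_iff.2 fun i : ℕ => hzero (1 / ((i : ℝ) + 1)) (by positivity)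
  have hpts : ∀ᵐ ξ ∂(D.m0 : Measure (Xi n)), ∀ w ∈ R, ∀ c : ℂ, ξ.z ≠ c • w :=
    (Finset.eventually_all R).2 fun w _ => point_ae D.closed0 w
  refine finish D.closed0 pr a1 a2 hinj p hp1 hp hψ hψp ?_
  filter_upwards [hall, hpts] with ξ HA HP hξ
  have h4 : l (S.Z ξ.z) ≠ 0 := fun h => by
    obtain ⟨w, hw, c, e⟩ := hR _ hξ h
    exact HP w hw c e
  have h5 : 0 < ‖l (S.Z ξ.z)‖ / ‖l S.q‖ := div_pos (norm_pos_iff.2 h4) (norm_pos_iff.2 hlq)
  obtain ⟨i, hi⟩ := exists_nat_one_div_lt h5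
  have h6 : 0 < st (‖l (S.Z ξ.z)‖ / ‖l S.q‖ / (1 / ((i : ℝ) + 1))) :=
    st_pos ((one_lt_div (by positivity)).2 hi)
  exact (mul_eq_zero.1 (HA i)).resolve_right h6.ne'

end Can

end A590
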