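import Pool.Agent.Lib.A590Calc

/-!
Identities for closed measures, part 1.
-/

open scoped ComplexConjugate ComplexOrder ContDiff Topology InnerProductSpace
open MeasureTheory Filter

set_option linter.unusedSectionVars false

noncomputable section

namespace A590

variable {n : ℕ}

theorem cont_integrable {G : Type*} [NormedAddCommGroup G] {m : Measure (Xi n)}
    [IsFiniteMeasure m] {f : Xi n → G} (hf : Continuous f) : Integrable f m :=
  hf.integrable_of_hasCompactSupport (HasCompactSupport.of_compactSpace f)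

theorem isOpen_ne_zero : IsOpen ({0}ᶜ : Set (E n)) := isOpen_compl_singleton

theorem isCone_ne_zero : IsCone ({0}ᶜ : Set (E n)) :=
  ⟨isOpen_ne_zero, by simp, fun z hz c hc => by
    simp only [Set.mem_compl_iff, Set.mem_singleton_iff] at hz ⊢
    exact smul_ne_zero hc hz⟩

theorem IsCone.not_mem {O : Set (E n)} (hO : IsCone O) {z : E n} (hz : z ∉ O) {c : ℂ}
    (hc : c ≠ 0) : c • z ∉ O := fun h => hz (by
  have := hO.smul _ h c⁻¹ (inv_ne_zero hc)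
  rwa [smul_smul, inv_mul_cancel₀ hc, one_smul] at this)

section pow
variable {V : Type*} [NormedAddCommGroup V] [NormedSpace ℝ V] [NormedSpace ℂ V]
  [IsScalarTower ℝ ℂ V]

theorem dz_pow {g : V → ℂ} {z : V} (hg : DifferentiableAt ℝ g z) (k : ℕ) (v : V) :
    dz (fun w => g w ^ k) z v = k * g z ^ (k - 1) * dz g z v := by
  unfold dz
  rw [fderiv_fun_pow k hg]
  simp only [smul_apply, smul_eq_mul, nsmul_eq_mul]
  ring

theorem dzb_pow {g : V → ℂ} {z : V} (hg : DifferentiableAt ℝ g z) (k : ℕ) (v : V) :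
    dzb (fun w => g w ^ k) z v = k * g z ^ (k - 1) * dzb g z v := by
  unfold dzb
  rw [fderiv_fun_pow k hg]
  simp only [smul_apply, smul_eq_mul, nsmul_eq_mul]
  ring
end pow

section K1
variable {F : Type*} [NormedAddCommGroup F] [InnerProductSpace ℂ F]

theorem HomMap.diff {P : E n → F} {r : ℕ} (hP : HomMap P r) : Differentiable ℂ P :=
  hP.cd.differentiable (by simp)

theorem HomMap.cont {P : E n → F} {r : ℕ} (hP : HomMap P r) : Continuous P := hP.cd.continuous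

theorem HomMap.cdR {P : E n → F} {r : ℕ} (hP : HomMap P r) : ContDiff ℝ ∞ P :=
  hP.cd.restrict_scalars ℝ

theorem HomMap.map_zero {P : E n → F} {r : ℕ} (hP : HomMap P r) (hr : 1 ≤ r) : P 0 = 0 := by
  have := hP.hom 0 0
  rwa [zero_smul, zero_pow (by omega), zero_smul] at this

theorem HomMap.euler {P : E n → F} {r : ℕ} (hP : HomMap P r) (z : E n) :
    fderiv ℂ P z z = (r : ℂ) • P z := by
  have h1 : HasDerivAt (fun c : ℂ => c • z) ((1 : ℂ) • z) 1 := (hasDerivAt_id (1 : ℂ)).smul_const z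
  have h2 : HasFDerivAt P (fderiv ℂ P z) ((fun c : ℂ => c • z) 1) := by
    simpa using (hP.diff z).hasFDerivAt
  have h3 := h2.comp_hasDerivAt (1 : ℂ) h1
  have h4 : HasDerivAt (fun c : ℂ => c ^ r • P z) (((r : ℂ) * 1 ^ (r - 1)) • P z) 1 :=
    (hasDerivAt_pow r (1 : ℂ)).smul_const _
  have h5 : (P ∘ fun c : ℂ => c • z) = fun c : ℂ => c ^ r • P z := by
    funext c; exact hP.hom c z
  rw [h5] at h3
  simpa using h3.unique h4

theorem HomMap.fderiv_smul {P : E n → F} {r : ℕ} (hP : HomMap P r) {c : ℂ} (hc : c ≠ 0)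
    (z v : E n) : fderiv ℂ P (c • z) v = (c ^ r * c⁻¹) • fderiv ℂ P z v := by
  have h1 : HasFDerivAt (fun w : E n => c • w) (c • ContinuousLinearMap.id ℂ (E n)) z :=
    (hasFDerivAt_id z).const_smul c
  have h2 := (hP.diff (c • z)).hasFDerivAt.comp z h1
  have h3 : (P ∘ fun w : E n => c • w) = fun w => c ^ r • P w := by
    funext w; exact hP.hom c w
  rw [h3] at h2
  have h4 := h2.unique ((hP.diff z).hasFDerivAt.const_smul (c ^ r))
  have h5 := congrArg (fun L => L (c⁻¹ • v)) h4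
  simp only [ContinuousLinearMap.comp_apply, smul_apply, ContinuousLinearMap.id_apply,
    smul_smul, inv_mul_cancel₀ hc, one_smul, map_smul] at h5
  rw [h5, mul_comm]

theorem HomMap.cont_D {P : E n → F} {r : ℕ} (hP : HomMap P r) :
    Continuous fun p : E n × E n => fderiv ℂ P p.1 p.2 :=
  ((hP.cd.continuous_fderiv (by simp)).comp continuous_fst).clm_apply continuous_snd

theorem HomMap.cont_Dxi {P : E n → F} {r : ℕ} (hP : HomMap P r) {W : Xi n → E n}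
    (hW : Continuous W) : Continuous fun ξ : Xi n => fderiv ℂ P ξ.z (W ξ) :=
  hP.cont_D.comp (f := fun ξ : Xi n => (ξ.z, W ξ)) (by fun_prop)

theorem HomMap.of_clm (L : E n →L[ℂ] F) : HomMap L 1 :=
  ⟨L.contDiff, fun c z => by simp⟩

theorem sP_eq (P : E n → F) (r : ℕ) (z : E n) :
    ((sP P r z : ℝ) : ℂ) = ⟪P z, P z⟫_ℂ * (⟪z, z⟫_ℂ ^ r)⁻¹ := by
  rw [inner_self_eq_norm_sq_to_K, inner_self_eq_norm_sq_to_K, sP, pow_mul]
  push_cast; rfl

theorem sP_nonneg (P : E n → F) (r : ℕ) (z : E n) : 0 ≤ sP P r z := by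
  unfold sP; positivity

theorem HomMap.rhom0 {P : E n → F} {r : ℕ} (hP : HomMap P r) : RHom0 (sP P r) := by
  constructor
  · have h1 : ContDiff ℝ ∞ fun z : E n => ‖P z‖ ^ 2 := hP.cdR.norm_sq ℂ
    have h2 : ContDiff ℝ ∞ fun z : E n => ‖z‖ ^ (2 * r) := by
      simp only [pow_mul]; exact (contDiff_norm_sq ℂ).pow r
    exact h1.contDiffOn.div h2.contDiffOn fun z hz => pow_ne_zero _ (norm_ne_zero_iff.2 hz)
  · intro z hz c hc
    have h1 : ‖c‖ ≠ 0 := norm_ne_zero_iff.2 hc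
    have h2 : ‖z‖ ≠ 0 := norm_ne_zero_iff.2 hz
    simp only [sP, hP.hom, norm_smul, norm_pow]
    field_simp
    ring

theorem sP_unit (P : E n → F) (r : ℕ) (ξ : Xi n) : sP P r ξ.z = ‖P ξ.z‖ ^ 2 := by
  simp [sP, ξ.norm_z]

theorem sP_of_norm_one (P : E n → F) (r : ℕ) {z : E n} (hz : ‖z‖ = 1) : sP P r z = ‖P z‖ ^ 2 := by
  simp [sP, hz]

theorem inner_self_ne {z : E n} (hz : z ≠ 0) : ⟪z, z⟫_ℂ ≠ 0 := by simpa using hz

theorem HomMap.dz_sP {P : E n → F} {r : ℕ} (hP : HomMap P r) {z : E n} (hz : z ≠ 0) (v : E n) :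
    rz (sP P r) z v = ⟪P z, fderiv ℂ P z v⟫_ℂ * (⟪z, z⟫_ℂ ^ r)⁻¹
      + ⟪P z, P z⟫_ℂ * (-(r * ⟪z, z⟫_ℂ ^ (r - 1)) / (⟪z, z⟫_ℂ ^ r) ^ 2) * ⟪z, v⟫_ℂ := by
  have hN := dz_inner (P := fun w : E n => w) (Q := fun w : E n => w) (z := z)
    differentiableAt_fun_id differentiableAt_fun_id v
  have hPP := dz_inner (hP.diff z) (hP.diff z) v
  have h0 : ⟪z, z⟫_ℂ ^ r ≠ 0 := pow_ne_zero _ (inner_self_ne hz)
  simp only [rz, sP_eq]
  rw [dz_mul hPP.1 ((hN.1.fun_pow r).fun_inv h0), dz_inv (hN.1.fun_pow r) h0, dz_pow hN.1, hPP.2.1,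
    hN.2.1]
  simp only [fderiv_fun_id, ContinuousLinearMap.id_apply]
  ring

theorem HomMap.rz_sP_unit {P : E n → F} {r : ℕ} (hP : HomMap P r) {z : E n} (hz : ‖z‖ = 1)
    (v : E n) : rz (sP P r) z v
      = ⟪P z, fderiv ℂ P z v⟫_ℂ - r * ⟪P z, P z⟫_ℂ * ⟪z, v⟫_ℂ := by
  have hz0 : z ≠ 0 := by rintro rfl; simp at hz
  have h1 : ⟪z, z⟫_ℂ = 1 := by rw [inner_self_eq_norm_sq_to_K, hz]; simp
  rw [hP.dz_sP hz0, h1]; simp; ring

theorem HomMap.rz_sP {P : E n → F} {r : ℕ} (hP : HomMap P r) (ξ : Xi n) :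
    rz (sP P r) ξ.z ξ.v = ⟪P ξ.z, fderiv ℂ P ξ.z ξ.v⟫_ℂ := by
  rw [hP.rz_sP_unit ξ.norm_z, ξ.inner_zv]; simp

theorem RHom0.contDiffAt {ψ : E n → ℝ} (h : RHom0 ψ) {z : E n} (hz : z ≠ 0) :
    ContDiffAt ℝ ∞ ψ z := h.cd.contDiffAt (isOpen_ne_zero.mem_nhds hz)

theorem RHom0.diffAt {ψ : E n → ℝ} (h : RHom0 ψ) {z : E n} (hz : z ≠ 0) :
    DifferentiableAt ℝ ψ z := (h.contDiffAt hz).differentiableAt (by simp)

theorem contDiffAt_ofReal {V : Type*} [NormedAddCommGroup V] [NormedSpace ℝ V] {ψ : V → ℝ} {z : V}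
    (h : ContDiffAt ℝ ∞ ψ z) : ContDiffAt ℝ ∞ (fun w => (ψ w : ℂ)) z :=
  Complex.ofRealCLM.contDiff.contDiffAt.comp z h

theorem RHom0.cdC {ψ : E n → ℝ} (h : RHom0 ψ) : ContDiffOn ℝ ∞ (fun w => (ψ w : ℂ)) {0}ᶜ :=
  fun _ hz => (contDiffAt_ofReal (h.contDiffAt hz)).contDiffWithinAt

theorem eventually_ne_zero_one : ∀ᶠ c in 𝓝 (1 : ℂ), c ≠ 0 := eventually_ne_nhds one_ne_zero

theorem dz_self_of_hom {a : E n → ℂ} {z : E n} (ha : DifferentiableAt ℝ a z)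
    (h : ∀ c : ℂ, c ≠ 0 → a (c • z) = a z) : dz a z z = 0 ∧ dzb a z z = 0 := by
  have := dz_radial ha 0 (eventually_ne_zero_one.mono fun c hc => by simp [h c hc])
  simpa using this

theorem RHom0.rz_self {ψ : E n → ℝ} (h : RHom0 ψ) {z : E n} (hz : z ≠ 0) : rz ψ z z = 0 :=
  (dz_self_of_hom (differentiableAt_ofReal (h.diffAt hz)) fun c hc => by rw [h.hom z hz c hc]).1

theorem RHom0.cont {ψ : E n → ℝ} (h : RHom0 ψ) : Continuous fun ξ : Xi n => ψ ξ.z :=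
  h.cd.continuousOn.comp_continuous Xi.continuous_z fun ξ => ξ.z_ne

theorem RHom0.mul {ψ φ : E n → ℝ} (h : RHom0 ψ) (h' : RHom0 φ) : RHom0 fun z => ψ z * φ z :=
  ⟨h.cd.mul h'.cd, fun z hz c hc => by rw [h.hom z hz c hc, h'.hom z hz c hc]⟩

theorem RHom0.comp {ψ : E n → ℝ} (h : RHom0 ψ) {β : ℝ → ℝ}
    (hβ : ∀ z, z ≠ 0 → ContDiffAt ℝ ∞ β (ψ z)) : RHom0 fun z => β (ψ z) :=
  ⟨fun z hz => ((hβ z hz).comp z (h.contDiffAt hz)).contDiffWithinAt,
    fun z hz c hc => by rw [h.hom z hz c hc]⟩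

theorem RHom0.const (a : ℝ) : RHom0 fun _ : E n => a := ⟨contDiffOn_const, fun _ _ _ _ => rfl⟩

theorem continuousAt_dz {a : E n → ℂ} {W : Xi n → E n} (hW : Continuous W) {ξ : Xi n}
    (ha : ContDiffAt ℝ ∞ a ξ.z) : ContinuousAt (fun η : Xi n => dz a η.z (W η)) ξ ∧
      ContinuousAt (fun η : Xi n => dzb a η.z (W η)) ξ := by
  have h := contDiffAt_dz ha (W ξ)
  have hc : ContinuousAt (fun η : Xi n => (η.z, W η)) ξ := by fun_prop
  exact ⟨ContinuousAt.comp (f := fun η : Xi n => (η.z, W η)) h.1.continuousAt hc,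
    ContinuousAt.comp (f := fun η : Xi n => (η.z, W η)) h.2.continuousAt hc⟩

theorem RHom0.cont_rz {ψ : E n → ℝ} (h : RHom0 ψ) {W : Xi n → E n} (hW : Continuous W) :
    Continuous fun ξ : Xi n => rz ψ ξ.z (W ξ) :=
  continuous_iff_continuousAt.2 fun ξ =>
    (continuousAt_dz hW (contDiffAt_ofReal (h.contDiffAt ξ.z_ne))).1

theorem contDiffAt_pd {a : E n → ℂ} {z : E n} (ha : ContDiffAt ℝ ∞ a z) (j : Fin n) :
    ContDiffAt ℝ ∞ (pd j a) z := (contDiffAt_dz_fixed ha _).1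

theorem contDiffAt_pdb {a : E n → ℂ} {z : E n} (ha : ContDiffAt ℝ ∞ a z) (j : Fin n) :
    ContDiffAt ℝ ∞ (pdb j a) z := (contDiffAt_dz_fixed ha _).2

theorem Lam_eq {a : E n → ℂ} {z : E n} (ha : ContDiffAt ℝ ∞ a z) (v : E n) :
    Lam a z v = ∑ j, dzb (pd j a) z v * v j := by
  have h : (fun w => dz a w v) = fun w => ∑ j, pd j a w * v j := by
    funext w; exact dz_eq_sum a w v
  have hd : ∀ j, DifferentiableAt ℝ (pd j a) z := fun j =>
    (contDiffAt_pd ha j).differentiableAt (by simp)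
  rw [Lam, h, dzb_sum _ fun j _ => (hd j).fun_mul (differentiableAt_const _)]
  refine Finset.sum_congr rfl fun j _ => ?_
  rw [dzb_mul (hd j) (differentiableAt_const _), dzb_const]; ring

theorem continuousAt_Lam {a : E n → ℂ} {O : Set (E n)} (hO : IsOpen O) (ha : ContDiffOn ℝ ∞ a O)
    {ξ : Xi n} (hξ : ξ.z ∈ O) : ContinuousAt (fun η : Xi n => Lam a η.z η.v) ξ := by
  have h1 : ∀ᶠ η : Xi n in 𝓝 ξ, η.z ∈ O := Xi.continuous_z.continuousAt.eventually (hO.mem_nhds hξ)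
  have h2 : (fun η : Xi n => ∑ j, dzb (pd j a) η.z η.v * η.v j) =ᶠ[𝓝 ξ]
      fun η : Xi n => Lam a η.z η.v :=
    h1.mono fun η hη => (Lam_eq (ha.contDiffAt (hO.mem_nhds hη)) _).symm
  refine ContinuousAt.congr ?_ h2
  refine tendsto_finset_sum _ fun j _ => ContinuousAt.mul ?_ (by fun_prop)
  exact (continuousAt_dz Xi.continuous_v (contDiffAt_pd (ha.contDiffAt (hO.mem_nhds hξ)) j)).2

theorem RHom0.cont_Lam {ψ : E n → ℝ} (h : RHom0 ψ) :
    Continuous fun ξ : Xi n => Lam (fun w => (ψ w : ℂ)) ξ.z ξ.v :=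
  continuous_iff_continuousAt.2 fun ξ => continuousAt_Lam isOpen_ne_zero h.cdC ξ.z_ne

/-- consequence of `Dir` for a linear functional killing `z` -/
theorem Dir.rz_eq {V : E n} {ξ : Xi n} (h : Dir V ξ) {ψ : E n → ℝ} (h0 : rz ψ ξ.z ξ.z = 0) :
    rz ψ ξ.z V = ⟪ξ.v, V⟫_ℂ * rz ψ ξ.z ξ.v := by
  conv_lhs => rw [h]
  rw [rz_add_vec, rz_smul_vec, rz_smul_vec, h0]; ring

theorem cont_of_local {G : Xi n → ℂ} {O : Set (E n)} (h1 : ∀ ξ : Xi n, ξ.z ∈ O → ContinuousAt G ξ)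
    (h2 : ∀ ξ : Xi n, ξ.z ∉ O → G =ᶠ[𝓝 ξ] fun _ => 0) : Continuous G :=
  continuous_iff_continuousAt.2 fun ξ => by
    by_cases h : ξ.z ∈ O
    · exact h1 ξ h
    · exact continuousAt_const.congr (h2 ξ h).symm

theorem eventually_xi {b : E n → ℂ} {ξ : Xi n} (h : b =ᶠ[𝓝 ξ.z] fun _ => 0) :
    ∀ᶠ η : Xi n in 𝓝 ξ, b η.z = 0 ∧ ∀ v, dz b η.z v = 0 ∧ dzb b η.z v = 0 := by
  have h1 := Xi.continuous_z.continuousAt.eventually h.eventually_nhds
  refine h1.mono fun η hη => ⟨hη.self_of_nhds, fun v => ?_⟩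
  have hη' : b =ᶠ[𝓝 η.z] fun _ => 0 := hη
  rw [dz_congr hη', dzb_congr hη', dz_const, dzb_const]; simp

/-- the form `b ∂a` -/
theorem isForm10_loc {O : Set (E n)}
    (hO : IsCone O) {a b : E n → ℂ} (ha : ContDiffOn ℝ ∞ a O)
    (ha0 : ∀ z ∈ O, ∀ c : ℂ, c ≠ 0 → a (c • z) = a z) (hb : ContDiffOn ℝ ∞ b O)
    (hb0 : ∀ z ∈ O, ∀ c : ℂ, c ≠ 0 → b (c • z) = b z)
    (hbs : ∀ z : E n, z ≠ 0 → z ∉ O → b =ᶠ[𝓝 z] fun _ => 0) :
    IsForm10 fun z j => b z * pd j a z := by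
  have hA : ∀ z ∈ O, ContDiffAt ℝ ∞ a z := fun z hz => ha.contDiffAt (hO.isOpen.mem_nhds hz)
  have hAd : ∀ z ∈ O, DifferentiableAt ℝ a z := fun z hz => (hA z hz).differentiableAt (by simp)
  refine ⟨fun z hz => ContDiffAt.contDiffWithinAt ?_, fun z hz c hc j => ?_, fun z hz => ?_⟩
  · rw [contDiffAt_pi]
    intro j
    by_cases h : z ∈ O
    · exact (hb.contDiffAt (hO.isOpen.mem_nhds h)).mul (contDiffAt_pd (hA z h) j)
    · refine (contDiffAt_const (c := (0 : ℂ))).congr_of_eventuallyEq ?_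
      exact (hbs z hz h).mono fun w hw => by simp [hw]
  · by_cases h : z ∈ O
    · have := (dz_scale (g := a) (a := 1) hc (hAd z h) (hAd _ (hO.smul z h c hc))
        ((hO.isOpen.eventually_mem h).mono fun w hw => by rw [ha0 w hw c hc, one_mul])
        (EuclideanSpace.single j 1)).1
      simp only [pd]
      rw [this, hb0 z h c hc]; ring
    · simp only
      rw [(hbs z hz h).self_of_nhds,
        (hbs _ (smul_ne_zero hc hz) (hO.not_mem h hc)).self_of_nhds]; simp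
  · by_cases h : z ∈ O
    · simp only [mul_assoc, ← Finset.mul_sum, ← dz_eq_sum]
      rw [(dz_self_of_hom (hAd z h) (ha0 z h)).1, mul_zero]
    · simp [(hbs z hz h).self_of_nhds]

/-- The basic identity, for functions defined on an open cone. -/
theorem I_loc {m : Measure (Xi n)} [IsFiniteMeasure m] (hm : ClosedM m) {O : Set (E n)}
    (hO : IsCone O) {a b : E n → ℂ} (ha : ContDiffOn ℝ ∞ a O)
    (ha0 : ∀ z ∈ O, ∀ c : ℂ, c ≠ 0 → a (c • z) = a z) (hb : ContDiffOn ℝ ∞ b O)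
    (hb0 : ∀ z ∈ O, ∀ c : ℂ, c ≠ 0 → b (c • z) = b z)
    (hbs : ∀ z : E n, z ≠ 0 → z ∉ O → b =ᶠ[𝓝 z] fun _ => 0) :
    (Continuous fun ξ : Xi n => dzb b ξ.z ξ.v * dz a ξ.z ξ.v) ∧
    (Continuous fun ξ : Xi n => b ξ.z * Lam a ξ.z ξ.v) ∧
    ∫ ξ, dzb b ξ.z ξ.v * dz a ξ.z ξ.v ∂m + ∫ ξ, b ξ.z * Lam a ξ.z ξ.v ∂m = 0 := by
  have hA : ∀ z ∈ O, ContDiffAt ℝ ∞ a z := fun z hz => ha.contDiffAt (hO.isOpen.mem_nhds hz)
  have hB : ∀ z ∈ O, ContDiffAt ℝ ∞ b z := fun z hz => hb.contDiffAt (hO.isOpen.mem_nhds hz)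
  have c1 : Continuous fun ξ : Xi n => dzb b ξ.z ξ.v * dz a ξ.z ξ.v := by
    refine cont_of_local (O := O) (fun ξ h => ?_) fun ξ h => ?_
    · exact (continuousAt_dz Xi.continuous_v (hB _ h)).2.mul
        (continuousAt_dz Xi.continuous_v (hA _ h)).1
    · exact (eventually_xi (hbs _ ξ.z_ne h)).mono fun η hη => by simp [(hη.2 _).2]
  have c2 : Continuous fun ξ : Xi n => b ξ.z * Lam a ξ.z ξ.v := by
    refine cont_of_local (O := O) (fun ξ h => ?_) fun ξ h => ?_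
    · exact (ContinuousAt.comp (f := Xi.z) (hB _ h).continuousAt Xi.continuous_z.continuousAt).mul
        (continuousAt_Lam hO.isOpen ha h)
    · exact (eventually_xi (hbs _ ξ.z_ne h)).mono fun η hη => by simp [hη.1]
  refine ⟨c1, c2, ?_⟩
  rw [← integral_add (cont_integrable c1) (cont_integrable c2),
    ← hm _ (isForm10_loc hO ha ha0 hb hb0 hbs)]
  refine integral_congr_ae (Eventually.of_forall fun ξ => ?_)
  by_cases h : ξ.z ∈ O
  · have hd : ∀ j, DifferentiableAt ℝ (pd j a) ξ.z := fun j =>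
      (contDiffAt_pd (hA _ h) j).differentiableAt (by simp)
    have hbd : DifferentiableAt ℝ b ξ.z := (hB _ h).differentiableAt (by simp)
    simp only
    rw [Lam_eq (hA _ h), dz_eq_sum, Finset.mul_sum, Finset.mul_sum, ← Finset.sum_add_distrib]
    refine Finset.sum_congr rfl fun j _ => ?_
    rw [dzb_mul hbd (hd j)]; ring
  · have h0 := hbs _ ξ.z_ne h
    simp only
    rw [dzb_congr h0, dzb_const, h0.self_of_nhds, zero_mul, zero_mul, add_zero]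
    refine (Finset.sum_eq_zero fun j _ => ?_).symm
    have : (fun w => b w * pd j a w) =ᶠ[𝓝 ξ.z] fun _ => 0 := h0.mono fun w hw => by simp [hw]
    rw [dzb_congr this, dzb_const, zero_mul]

theorem Lam_holo {O : Set (E n)} (hO : IsOpen O) {a : E n → ℂ} (ha : ContDiffOn ℂ ∞ a O)
    {z : E n} (hz : z ∈ O) (v : E n) : Lam a z v = 0 := by
  have h1 : (fun w => dz a w v) =ᶠ[𝓝 z] fun w => fderiv ℂ a w v :=
    (hO.eventually_mem hz).mono fun w hw =>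
      dz_holo ((ha.contDiffAt (hO.mem_nhds hw)).differentiableAt (by simp)) v
  rw [Lam, dzb_congr h1]
  refine dzb_holo ?_ v
  have h2 : ContDiffAt ℂ ∞ (fderiv ℂ a) z :=
    (ha.contDiffAt (hO.mem_nhds hz)).fderiv_right (m := ∞) (by simp)
  exact (h2.differentiableAt (by simp)).clm_apply (differentiableAt_const _)

/-- The same when `a` is holomorphic on the cone. -/
theorem I_holo {m : Measure (Xi n)} [IsFiniteMeasure m] (hm : ClosedM m) {O : Set (E n)}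
    (hO : IsCone O) {a b : E n → ℂ} (ha : ContDiffOn ℂ ∞ a O)
    (ha0 : ∀ z ∈ O, ∀ c : ℂ, c ≠ 0 → a (c • z) = a z) (hb : ContDiffOn ℝ ∞ b O)
    (hb0 : ∀ z ∈ O, ∀ c : ℂ, c ≠ 0 → b (c • z) = b z)
    (hbs : ∀ z : E n, z ≠ 0 → z ∉ O → b =ᶠ[𝓝 z] fun _ => 0) :
    (Continuous fun ξ : Xi n => dzb b ξ.z ξ.v * fderiv ℂ a ξ.z ξ.v) ∧
    ∫ ξ, dzb b ξ.z ξ.v * fderiv ℂ a ξ.z ξ.v ∂m = 0 := by
  obtain ⟨c1, -, h⟩ := I_loc hm hO (ha.restrict_scalars ℝ) ha0 hb hb0 hbs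
  have e1 : (fun ξ : Xi n => dzb b ξ.z ξ.v * dz a ξ.z ξ.v)
      = fun ξ : Xi n => dzb b ξ.z ξ.v * fderiv ℂ a ξ.z ξ.v := by
    funext ξ
    by_cases hξ : ξ.z ∈ O
    · rw [dz_holo ((ha.contDiffAt (hO.isOpen.mem_nhds hξ)).differentiableAt (by simp))]
    · rw [dzb_congr (hbs _ ξ.z_ne hξ), dzb_const, zero_mul, zero_mul]
  have e2 : (fun ξ : Xi n => b ξ.z * Lam a ξ.z ξ.v) = fun _ => 0 := by
    funext ξ
    by_cases hξ : ξ.z ∈ O
    · rw [Lam_holo hO.isOpen ha hξ, mul_zero]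
    · rw [(hbs _ ξ.z_ne hξ).self_of_nhds, zero_mul]
  rw [e1] at c1
  rw [e1, e2] at h
  exact ⟨c1, by simpa using h⟩

/-- Levi form of the normalized square norm. -/
theorem HomMap.Lam_sP {P : E n → F} {r : ℕ} (hP : HomMap P r) (ξ : Xi n) :
    Lam (fun w => (sP P r w : ℂ)) ξ.z ξ.v
      = ((‖fderiv ℂ P ξ.z ξ.v‖ ^ 2 - r * ‖P ξ.z‖ ^ 2 : ℝ) : ℂ) := by
  set z := ξ.z with hz
  set v := ξ.v with hv
  have h1 : (fun w => dz (fun w => (sP P r w : ℂ)) w v) =ᶠ[𝓝 z] fun w =>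
      ⟪P w, fderiv ℂ P w v⟫_ℂ * (⟪w, w⟫_ℂ ^ r)⁻¹
      + ⟪P w, P w⟫_ℂ * (-(r * ⟪w, w⟫_ℂ ^ (r - 1)) * ((⟪w, w⟫_ℂ ^ r) ^ 2)⁻¹) * ⟪w, v⟫_ℂ :=
    (isOpen_ne_zero.eventually_mem ξ.z_ne).mono fun w hw => hP.dz_sP hw v
  have hD : DifferentiableAt ℂ (fun w => fderiv ℂ P w v) z := by
    have h2 : ContDiff ℂ ∞ (fderiv ℂ P) := hP.cd.fderiv_right (m := ∞) (by simp)
    exact ((h2.differentiable (by simp)) z).clm_apply (differentiableAt_const _)
  have hN := dz_inner (P := fun w : E n => w) (Q := fun w : E n => w) (z := z)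
    differentiableAt_fun_id differentiableAt_fun_id v
  have hV := dz_inner (P := fun w : E n => w) (Q := fun _ : E n => v) (z := z)
    differentiableAt_fun_id (differentiableAt_const _) v
  have hPP := dz_inner (hP.diff z) (hP.diff z) v
  have hPD := dz_inner (hP.diff z) hD v
  have hz1 : ⟪z, z⟫_ℂ = 1 := by rw [inner_self_eq_norm_sq_to_K, ξ.norm_z]; simp
  have hv1 : ⟪v, v⟫_ℂ = 1 := by rw [inner_self_eq_norm_sq_to_K, ξ.norm_v]; simp
  have h0 : ⟪z, z⟫_ℂ ^ r ≠ 0 := by rw [hz1]; simp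
  have hinv := (hN.1.fun_pow r).fun_inv h0
  have hC : DifferentiableAt ℝ (fun w : E n =>
      ⟪P w, P w⟫_ℂ * (-(r * ⟪w, w⟫_ℂ ^ (r - 1)) * ((⟪w, w⟫_ℂ ^ r) ^ 2)⁻¹)) z :=
    hPP.1.fun_mul (((differentiableAt_const _).fun_mul (hN.1.fun_pow _)).fun_neg.fun_mul
      (((hN.1.fun_pow r).fun_pow 2).fun_inv (pow_ne_zero _ h0)))
  rw [Lam, dzb_congr h1, dzb_add (hPD.1.fun_mul hinv) (hC.fun_mul hV.1), dzb_mul hPD.1 hinv,
    dzb_mul hC hV.1, dzb_inv (hN.1.fun_pow r) h0, dzb_pow hN.1, hPD.2.2, hN.2.2, hV.2.2]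
  simp only [fderiv_fun_id, ContinuousLinearMap.id_apply, hz1, hv1, hz, hv, ξ.inner_zv,
    ξ.inner_vz, inner_self_eq_norm_sq_to_K]
  simp [ξ.norm_z, ξ.norm_v]
  ring

end K1

end A590
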