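import Pool.Agent.Lib.A590Core

/-!
Identities for closed measures, part 2: flux balance and its consequences.
-/

open scoped ComplexConjugate ComplexOrder ContDiff Topology InnerProductSpace
open MeasureTheory Filter

set_option linter.unusedSectionVars false

noncomputable section

namespace A590

variable {n : ℕ}

section K1
variable {F : Type*} [NormedAddCommGroup F] [InnerProductSpace ℂ F]

theorem cont_comp_nonneg {β : ℝ → ℝ} (hβ : ∀ s, 0 ≤ s → ContDiffAt ℝ ∞ β s) {s : Xi n → ℝ}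
    (hs : Continuous s) (h0 : ∀ ξ, 0 ≤ s ξ) :
    (Continuous fun ξ => β (s ξ)) ∧ Continuous fun ξ => deriv β (s ξ) := by
  constructor
  · exact continuous_iff_continuousAt.2 fun ξ =>
      ContinuousAt.comp (f := s) (hβ _ (h0 ξ)).continuousAt hs.continuousAt
  · refine continuous_iff_continuousAt.2 fun ξ =>
      ContinuousAt.comp (f := s) (g := deriv β) ?_ hs.continuousAt
    have h1 : ContDiffAt ℝ ∞ (fun x => fderiv ℝ β x 1) (s ξ) :=
      ((hβ _ (h0 ξ)).fderiv_right (m := ∞) (by simp)).clm_apply contDiffAt_const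
    exact h1.continuousAt

/-- Flux balance with a weight, vector valued `P`. -/
theorem FBv {m : Measure (Xi n)} [IsFiniteMeasure m] (hm : ClosedM m) {P : E n → F} {r : ℕ}
    (hP : HomMap P r) {ψ : E n → ℝ} (hψ : RHom0 ψ) {β : ℝ → ℝ}
    (hβ : ∀ s, 0 ≤ s → ContDiffAt ℝ ∞ β s) :
    ((∫ ξ, ψ ξ.z * (deriv β (‖P ξ.z‖ ^ 2) * ‖⟪P ξ.z, fderiv ℂ P ξ.z ξ.v⟫_ℂ‖ ^ 2
        + β (‖P ξ.z‖ ^ 2) * (‖fderiv ℂ P ξ.z ξ.v‖ ^ 2 - r * ‖P ξ.z‖ ^ 2)) ∂m : ℝ) : ℂ)
      + ∫ ξ, (β (‖P ξ.z‖ ^ 2) : ℂ) * ⟪P ξ.z, fderiv ℂ P ξ.z ξ.v⟫_ℂ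
          * conj (rz ψ ξ.z ξ.v) ∂m = 0 := by
  have hs := hP.rhom0
  have hb : RHom0 fun z => ψ z * β (sP P r z) :=
    hψ.mul (hs.comp fun z _ => hβ _ (sP_nonneg _ _ _))
  obtain ⟨c1, c2, h⟩ := I_loc hm isCone_ne_zero (a := fun w => (sP P r w : ℂ))
    (b := fun w => ((ψ w * β (sP P r w) : ℝ) : ℂ)) hs.cdC
    (fun z hz c hc => by rw [hs.hom z hz c hc]) hb.cdC
    (fun z hz c hc => by rw [hψ.hom z hz c hc, hs.hom z hz c hc])
    (fun z hz hz' => absurd hz hz')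
  rw [← integral_add (cont_integrable c1) (cont_integrable c2)] at h
  have hPc0 := hP.cont
  have hPc : Continuous fun ξ : Xi n => P ξ.z := hP.cont.comp Xi.continuous_z
  have hDc := hP.cont_Dxi Xi.continuous_v
  have hI : Continuous fun ξ : Xi n => ⟪P ξ.z, fderiv ℂ P ξ.z ξ.v⟫_ℂ := hPc.inner hDc
  have hβc := cont_comp_nonneg hβ (s := fun ξ : Xi n => ‖P ξ.z‖ ^ 2) (by fun_prop)
    (fun ξ => by positivity)
  have hψc := hψ.cont
  have hrc := hψ.cont_rz Xi.continuous_v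
  have k1 := Complex.continuous_ofReal.comp (hψc.mul ((hβc.2.mul
      (hI.norm.pow 2)).add (hβc.1.mul ((hDc.norm.pow 2).sub
        ((continuous_const (y := (r : ℝ))).mul (hPc.norm.pow 2))))))
  have k2 := ((Complex.continuous_ofReal.comp hβc.1).mul hI).mul (Complex.continuous_conj.comp hrc)
  rw [← integral_complex_ofReal, ← integral_add (cont_integrable (by exact k1))
    (cont_integrable (by exact k2)), ← h]
  refine integral_congr_ae (Eventually.of_forall fun ξ => ?_)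
  have hd : DifferentiableAt ℝ β (sP P r ξ.z) :=
    (hβ _ (sP_nonneg _ _ _)).differentiableAt (by simp)
  have e1 : dz (fun w => (sP P r w : ℂ)) ξ.z ξ.v = ⟪P ξ.z, fderiv ℂ P ξ.z ξ.v⟫_ℂ := hP.rz_sP ξ
  simp only
  rw [dzb_ofReal (fun w => ψ w * β (sP P r w)), rz_mul (hψ.diffAt ξ.z_ne)
    (h := fun w => β (sP P r w)) (hd.comp ξ.z (hs.diffAt ξ.z_ne)), rz_comp hd (hs.diffAt ξ.z_ne), hP.rz_sP, e1, hP.Lam_sP,
    sP_unit]
  have e2 : ((‖⟪P ξ.z, fderiv ℂ P ξ.z ξ.v⟫_ℂ‖ : ℝ) : ℂ) ^ 2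
      = conj ⟪P ξ.z, fderiv ℂ P ξ.z ξ.v⟫_ℂ * ⟪P ξ.z, fderiv ℂ P ξ.z ξ.v⟫_ℂ := by
    rw [Complex.conj_mul']
  simp only [map_add, map_mul, Complex.conj_ofReal, Function.comp_def, sP_unit]
  push_cast
  rw [e2]
  ring

/-- Flux balance without weight. -/
theorem FB1 {m : Measure (Xi n)} [IsFiniteMeasure m] (hm : ClosedM m) {P : E n → F} {r : ℕ}
    (hP : HomMap P r) {β : ℝ → ℝ} (hβ : ∀ s, 0 ≤ s → ContDiffAt ℝ ∞ β s) :
    ∫ ξ, (deriv β (‖P ξ.z‖ ^ 2) * ‖⟪P ξ.z, fderiv ℂ P ξ.z ξ.v⟫_ℂ‖ ^ 2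
        + β (‖P ξ.z‖ ^ 2) * (‖fderiv ℂ P ξ.z ξ.v‖ ^ 2 - r * ‖P ξ.z‖ ^ 2)) ∂m = 0 := by
  have h := FBv hm hP (RHom0.const 1) hβ
  simp only [rz_const, map_zero, mul_zero, integral_zero, add_zero, one_mul] at h
  exact_mod_cast h

/-- Flux balance with a weight `ψ`, scalar `P`; `B s = s * β s`. -/
theorem FB {m : Measure (Xi n)} [IsFiniteMeasure m] (hm : ClosedM m) {P : E n → ℂ} {r : ℕ}
    (hP : HomMap P r) {ψ : E n → ℝ} (hψ : RHom0 ψ) {β : ℝ → ℝ}
    (hβ : ∀ s, 0 ≤ s → ContDiffAt ℝ ∞ β s) :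
    ((∫ ξ, ψ ξ.z * ((β (‖P ξ.z‖ ^ 2) + ‖P ξ.z‖ ^ 2 * deriv β (‖P ξ.z‖ ^ 2))
        * ‖fderiv ℂ P ξ.z ξ.v‖ ^ 2) ∂m
      - r * ∫ ξ, ψ ξ.z * (‖P ξ.z‖ ^ 2 * β (‖P ξ.z‖ ^ 2)) ∂m : ℝ) : ℂ)
      + ∫ ξ, (β (‖P ξ.z‖ ^ 2) : ℂ) * (conj (P ξ.z) * fderiv ℂ P ξ.z ξ.v)
          * conj (rz ψ ξ.z ξ.v) ∂m = 0 := by
  have h := FBv hm hP hψ hβ
  have hPc0 := hP.cont
  have hPc : Continuous fun ξ : Xi n => P ξ.z := hP.cont.comp Xi.continuous_z
  have hDc := hP.cont_Dxi Xi.continuous_v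
  have hβc := cont_comp_nonneg hβ (s := fun ξ : Xi n => ‖P ξ.z‖ ^ 2) (by fun_prop)
    (fun ξ => by positivity)
  have hψc := hψ.cont
  have k1 := hψc.mul ((hβc.1.add ((hPc.norm.pow 2).mul hβc.2)).mul (hDc.norm.pow 2))
  have k2 := (continuous_const (y := (r : ℝ))).mul (hψc.mul ((hPc.norm.pow 2).mul hβc.1))
  rw [← integral_const_mul, ← integral_sub (cont_integrable (by exact k1))
    (cont_integrable (by exact k2)), ← h]
  congr 2
  · refine integral_congr_ae (Eventually.of_forall fun ξ => ?_)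
    simp only [RCLike.inner_apply, norm_mul, RCLike.norm_conj]
    ring
  · funext ξ
    simp only [RCLike.inner_apply]
    ring

theorem contDiffAt_inv_add {θ : ℝ} (hθ : 0 < θ) (s : ℝ) (hs : 0 ≤ s) :
    ContDiffAt ℝ ∞ (fun x : ℝ => (x + θ)⁻¹) s :=
  (contDiffAt_id.add contDiffAt_const).inv (by simp only [id]; positivity)

theorem deriv_inv_add {θ : ℝ} (hθ : 0 < θ) (s : ℝ) (hs : 0 ≤ s) :
    deriv (fun x : ℝ => (x + θ)⁻¹) s = -1 / (s + θ) ^ 2 :=
  (((hasDerivAt_id s).add_const θ).fun_inv (by simp only [id]; positivity)).deriv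

theorem flux_wedge {m : Measure (Xi n)} [IsFiniteMeasure m] (hm : ClosedM m) {P : E n → F}
    {r : ℕ} (hP : HomMap P r) {θ : ℝ} (hθ : 0 < θ) :
    ∫ ξ, ((‖P ξ.z‖ ^ 2 + θ) * ‖fderiv ℂ P ξ.z ξ.v‖ ^ 2 - ‖⟪P ξ.z, fderiv ℂ P ξ.z ξ.v⟫_ℂ‖ ^ 2)
      / (‖P ξ.z‖ ^ 2 + θ) ^ 2 ∂m ≤ r * m.real Set.univ := by
  have h := FB1 hm hP (contDiffAt_inv_add hθ)
  have hPc0 := hP.cont
  have hPc : Continuous fun ξ : Xi n => P ξ.z := hP.cont.comp Xi.continuous_z
  have hDc := hP.cont_Dxi Xi.continuous_v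
  have hI : Continuous fun ξ : Xi n => ⟪P ξ.z, fderiv ℂ P ξ.z ξ.v⟫_ℂ := hPc.inner hDc
  have hβc := cont_comp_nonneg (contDiffAt_inv_add hθ) (s := fun ξ : Xi n => ‖P ξ.z‖ ^ 2)
    (by fun_prop) (fun ξ => by positivity)
  have hc := (hβc.2.mul (hI.norm.pow 2)).add
    (hβc.1.mul ((hDc.norm.pow 2).sub ((continuous_const (y := (r : ℝ))).mul (hPc.norm.pow 2))))
  have h2 : ∫ _ : Xi n, (r : ℝ) ∂m = r * m.real Set.univ := by simp [mul_comm]
  rw [← h2, ← add_zero (∫ _ : Xi n, (r : ℝ) ∂m), ← h,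
    ← integral_add (integrable_const _) (cont_integrable (by exact hc))]
  refine integral_mono (cont_integrable ?_) 
    (cont_integrable (by exact continuous_const.add hc)) fun ξ => ?_
  · exact Continuous.div (by fun_prop) (by fun_prop) fun ξ => by positivity
  · simp only
    rw [deriv_inv_add hθ _ (by positivity)]
    set s := ‖P ξ.z‖ ^ 2 with hs
    have hs0 : 0 ≤ s := by positivity
    have h3 : 0 < s + θ := by positivity
    have h4 : (r : ℝ) - (s + θ)⁻¹ * (r * s) = r * θ / (s + θ) := by field_simp; ring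
    have h5 : 0 ≤ (r : ℝ) * θ / (s + θ) := by positivity
    have h6 : ((s + θ) * ‖fderiv ℂ P ξ.z ξ.v‖ ^ 2 - ‖⟪P ξ.z, fderiv ℂ P ξ.z ξ.v⟫_ℂ‖ ^ 2)
        / (s + θ) ^ 2 = -1 / (s + θ) ^ 2 * ‖⟪P ξ.z, fderiv ℂ P ξ.z ξ.v⟫_ℂ‖ ^ 2
          + (s + θ)⁻¹ * ‖fderiv ℂ P ξ.z ξ.v‖ ^ 2 := by field_simp; ring
    rw [h6]; nlinarith

theorem inner_sq_le (a b : F) : ‖⟪a, b⟫_ℂ‖ ^ 2 ≤ ‖a‖ ^ 2 * ‖b‖ ^ 2 := by
  rw [← mul_pow]; exact pow_le_pow_left₀ (norm_nonneg _) (norm_inner_le_norm a b) 2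

theorem flux_le {m : Measure (Xi n)} [IsFiniteMeasure m] (hm : ClosedM m) {P : E n → F} {r : ℕ}
    (hP : HomMap P r) {θ : ℝ} (hθ : 0 < θ) :
    ∫ ξ, θ * ‖fderiv ℂ P ξ.z ξ.v‖ ^ 2 / (‖P ξ.z‖ ^ 2 + θ) ^ 2 ∂m ≤ r * m.real Set.univ := by
  have hPc0 := hP.cont
  have hPc : Continuous fun ξ : Xi n => P ξ.z := hP.cont.comp Xi.continuous_z
  have hDc := hP.cont_Dxi Xi.continuous_v
  have hI : Continuous fun ξ : Xi n => ⟪P ξ.z, fderiv ℂ P ξ.z ξ.v⟫_ℂ := hPc.inner hDc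
  refine le_trans (integral_mono (cont_integrable ?_) (cont_integrable ?_) fun ξ => ?_)
    (flux_wedge hm hP hθ)
  · exact Continuous.div (by fun_prop) (by fun_prop) fun ξ => by positivity
  · exact Continuous.div (by fun_prop) (by fun_prop) fun ξ => by positivity
  · refine div_le_div_of_nonneg_right ?_ (by positivity)
    have := inner_sq_le (P ξ.z) (fderiv ℂ P ξ.z ξ.v)
    nlinarith

theorem wedge_le {m : Measure (Xi n)} [IsFiniteMeasure m] (hm : ClosedM m) {P : E n → F} {r : ℕ}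
    (hP : HomMap P r) {θ : ℝ} (hθ : 0 < θ) :
    ∫ ξ, (‖P ξ.z‖ ^ 2 * ‖fderiv ℂ P ξ.z ξ.v‖ ^ 2 - ‖⟪P ξ.z, fderiv ℂ P ξ.z ξ.v⟫_ℂ‖ ^ 2)
      / (‖P ξ.z‖ ^ 2 + θ) ^ 2 ∂m ≤ r * m.real Set.univ := by
  have hPc0 := hP.cont
  have hPc : Continuous fun ξ : Xi n => P ξ.z := hP.cont.comp Xi.continuous_z
  have hDc := hP.cont_Dxi Xi.continuous_v
  have hI : Continuous fun ξ : Xi n => ⟪P ξ.z, fderiv ℂ P ξ.z ξ.v⟫_ℂ := hPc.inner hDc
  refine le_trans (integral_mono (cont_integrable ?_) (cont_integrable ?_) fun ξ => ?_)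
    (flux_wedge hm hP hθ)
  · exact Continuous.div (by fun_prop) (by fun_prop) fun ξ => by positivity
  · exact Continuous.div (by fun_prop) (by fun_prop) fun ξ => by positivity
  · refine div_le_div_of_nonneg_right ?_ (by positivity)
    have : 0 ≤ θ * ‖fderiv ℂ P ξ.z ξ.v‖ ^ 2 := by positivity
    nlinarith

/-- Flux balance in terms of `B s = s * β s`. -/
theorem FB_B {m : Measure (Xi n)} [IsFiniteMeasure m] (hm : ClosedM m) {P : E n → ℂ} {r : ℕ}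
    (hP : HomMap P r) {ψ : E n → ℝ} (hψ : RHom0 ψ) {β B : ℝ → ℝ}
    (hβ : ∀ s, 0 ≤ s → ContDiffAt ℝ ∞ β s) (hB : ∀ s, 0 ≤ s → B =ᶠ[𝓝 s] fun x => x * β x) :
    ((∫ ξ, ψ ξ.z * (deriv B (‖P ξ.z‖ ^ 2) * ‖fderiv ℂ P ξ.z ξ.v‖ ^ 2) ∂m
      - r * ∫ ξ, ψ ξ.z * B (‖P ξ.z‖ ^ 2) ∂m : ℝ) : ℂ)
      + ∫ ξ, (β (‖P ξ.z‖ ^ 2) : ℂ) * (conj (P ξ.z) * fderiv ℂ P ξ.z ξ.v)
          * conj (rz ψ ξ.z ξ.v) ∂m = 0 := by
  rw [← FB hm hP hψ hβ]
  have e1 : ∀ s, 0 ≤ s → deriv B s = β s + s * deriv β s := fun s hs => by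
    rw [(hB s hs).deriv_eq]
    have := ((hasDerivAt_id s).fun_mul ((hβ s hs).differentiableAt (by simp)).hasDerivAt).deriv
    simpa using this
  have e2 : ∀ s, 0 ≤ s → B s = s * β s := fun s hs => (hB s hs).self_of_nhds
  simp only [e1 _ (sq_nonneg _), e2 _ (sq_nonneg _)]

theorem flux_half {m : Measure (Xi n)} [IsFiniteMeasure m] (hm : ClosedM m) {P : E n → ℂ} {r : ℕ}
    (hP : HomMap P r) {θ : ℝ} (hθ : 0 < θ) :
    ∫ ξ, √θ * ‖fderiv ℂ P ξ.z ξ.v‖ ^ 2 / √(‖P ξ.z‖ ^ 2 + θ) ^ 3 ∂m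
      ≤ 2 * r * m.real Set.univ := by
  have hθ' : 0 < √θ := Real.sqrt_pos.2 hθ
  have hβ : ∀ s, 0 ≤ s → ContDiffAt ℝ ∞ (fun x : ℝ => (√(x + θ) * (√(x + θ) + √θ))⁻¹) s := by
    intro s hs
    have h1 : ContDiffAt ℝ ∞ (fun x : ℝ => √(x + θ)) s :=
      (contDiffAt_id.add contDiffAt_const).sqrt (by simp only [id]; positivity)
    have h2 : 0 < √(s + θ) := Real.sqrt_pos.2 (by positivity)
    exact (h1.mul (h1.add contDiffAt_const)).inv (by positivity)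
  have hB : ∀ s, 0 ≤ s → (fun x : ℝ => 1 - √θ * (√(x + θ))⁻¹) =ᶠ[𝓝 s]
      fun x => x * (√(x + θ) * (√(x + θ) + √θ))⁻¹ := by
    intro s hs
    filter_upwards [lt_mem_nhds (show -θ < s by linarith)] with x hx
    have h1 : 0 < x + θ := by linarith
    have h2 : 0 < √(x + θ) := Real.sqrt_pos.2 h1
    have h3 := Real.sq_sqrt h1.le
    have h4 := Real.sq_sqrt hθ.le
    field_simp
    nlinarith
  have h := FB_B hm hP (RHom0.const 1) hβ hB
  simp only [rz_const, map_zero, mul_zero, integral_zero, add_zero, one_mul] at h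
  have h' := sub_eq_zero.1 (Complex.ofReal_eq_zero.1 h)
  have hd : ∀ s, 0 ≤ s → deriv (fun x : ℝ => 1 - √θ * (√(x + θ))⁻¹) s
      = √θ / (2 * √(s + θ) ^ 3) := by
    intro s hs
    have h1 : 0 < s + θ := by positivity
    have h2 : 0 < √(s + θ) := Real.sqrt_pos.2 h1
    have h3 := (((((hasDerivAt_id s).add_const θ).sqrt h1.ne').fun_inv h2.ne').const_mul
      √θ).const_sub 1
    have h4 := h3.deriv
    simp only [id] at h4
    rw [h4]; field_simp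
  simp only [hd _ (sq_nonneg _)] at h'
  have e : ∫ ξ, √θ * ‖fderiv ℂ P ξ.z ξ.v‖ ^ 2 / √(‖P ξ.z‖ ^ 2 + θ) ^ 3 ∂m
      = 2 * ∫ ξ, √θ / (2 * √(‖P ξ.z‖ ^ 2 + θ) ^ 3) * ‖fderiv ℂ P ξ.z ξ.v‖ ^ 2 ∂m := by
    rw [← integral_const_mul]
    refine integral_congr_ae (Eventually.of_forall fun ξ => ?_)
    simp only; ring
  rw [e, h', mul_assoc]
  gcongr
  have hPc0 := hP.cont
  have hPc : Continuous fun ξ : Xi n => P ξ.z := hP.cont.comp Xi.continuous_z
  have h2 : ∫ _ : Xi n, (1 : ℝ) ∂m = m.real Set.univ := by simp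
  rw [← h2]
  refine integral_mono (cont_integrable ?_) (integrable_const _) fun ξ => ?_
  · refine continuous_const.sub (continuous_const.mul (Continuous.inv₀ (by fun_prop) fun ξ => ?_))
    exact (Real.sqrt_pos.2 (by positivity)).ne'
  · have : 0 ≤ √θ * (√(‖P ξ.z‖ ^ 2 + θ))⁻¹ := by positivity
    simp only; linarith

/-- flux in the region of small `P` -/
theorem flux_low {m : Measure (Xi n)} [IsFiniteMeasure m] (hm : ClosedM m) {P : E n → F} {r : ℕ}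
    (hP : HomMap P r) {θ : ℝ} (hθ : 0 < θ) :
    ∫ ξ in {ξ | ‖P ξ.z‖ ^ 2 ≤ 2 * θ}, ‖fderiv ℂ P ξ.z ξ.v‖ ^ 2 ∂m
      ≤ 9 * θ * (r * m.real Set.univ) := by
  have hPc0 := hP.cont
  have hPc : Continuous fun ξ : Xi n => P ξ.z := hP.cont.comp Xi.continuous_z
  have hDc := hP.cont_Dxi Xi.continuous_v
  have hms : MeasurableSet {ξ : Xi n | ‖P ξ.z‖ ^ 2 ≤ 2 * θ} :=
    (isClosed_le (by fun_prop) continuous_const).measurableSet
  refine le_trans ?_ (mul_le_mul_of_nonneg_left (flux_le hm hP hθ) (by positivity))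
  rw [← integral_const_mul, ← integral_indicator hms]
  refine integral_mono ((cont_integrable (by fun_prop)).indicator hms) (cont_integrable ?_)
    fun ξ => ?_
  · exact continuous_const.mul (Continuous.div (by fun_prop) (by fun_prop) fun ξ => by positivity)
  · simp only [Set.indicator]
    split_ifs with h
    · have h1 : ‖P ξ.z‖ ^ 2 ≤ 2 * θ := h
      have h2 : 0 < ‖P ξ.z‖ ^ 2 + θ := by positivity
      rw [← mul_div_assoc, le_div_iff₀ (by positivity)]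
      have h3 : (‖P ξ.z‖ ^ 2 + θ) ^ 2 ≤ (3 * θ) ^ 2 :=
        pow_le_pow_left₀ h2.le (by linarith) 2
      nlinarith [sq_nonneg ‖fderiv ℂ P ξ.z ξ.v‖]
    · positivity

/-- On `P = 0` almost every direction is tangent. -/
theorem support_ae {m : Measure (Xi n)} [IsFiniteMeasure m] (hm : ClosedM m) {P : E n → F} {r : ℕ}
    (hP : HomMap P r) : ∀ᵐ ξ ∂m, P ξ.z = 0 → fderiv ℂ P ξ.z ξ.v = 0 := by
  have hPc0 := hP.cont
  have hPc : Continuous fun ξ : Xi n => P ξ.z := hP.cont.comp Xi.continuous_z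
  have hDc := hP.cont_Dxi Xi.continuous_v
  have hms : MeasurableSet {ξ : Xi n | P ξ.z = 0} :=
    (isClosed_eq hPc continuous_const).measurableSet
  have hint : Integrable (fun ξ : Xi n => ‖fderiv ℂ P ξ.z ξ.v‖ ^ 2) m :=
    cont_integrable (by fun_prop)
  have h0 : ∫ ξ in {ξ : Xi n | P ξ.z = 0}, ‖fderiv ℂ P ξ.z ξ.v‖ ^ 2 ∂m = 0 := by
    refine le_antisymm (le_of_forall_pos_le_add fun ε hε => ?_)
      (integral_nonneg fun ξ => by positivity)
    have hM : 0 ≤ r * m.real Set.univ := by positivity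
    have hθ : 0 < ε / (9 * (r * m.real Set.univ + 1)) := by positivity
    refine le_trans (setIntegral_mono_set hint.integrableOn
      (Eventually.of_forall fun ξ => by positivity) (HasSubset.Subset.eventuallyLE ?_))
      ((flux_low hm hP hθ).trans ?_)
    · intro ξ hξ
      have : P ξ.z = 0 := hξ
      simp only [Set.mem_setOf_eq, this, norm_zero]; nlinarith
    · rw [zero_add, mul_div_assoc', div_mul_eq_mul_div, div_le_iff₀ (by positivity)]
      nlinarith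
  rw [setIntegral_eq_zero_iff_of_nonneg_ae (Eventually.of_forall fun ξ => by positivity)
    hint.integrableOn, Filter.EventuallyEq, ae_restrict_iff' hms] at h0
  exact h0.mono fun ξ h hξ => by simpa using h hξ

/-- Points have no mass. -/
theorem point_ae {m : Measure (Xi n)} [IsFiniteMeasure m] (hm : ClosedM m) (p : E n) :
    ∀ᵐ ξ ∂m, ∀ c : ℂ, ξ.z ≠ c • p := by
  by_cases hp : p = 0
  · exact Eventually.of_forall fun ξ c => by simpa [hp] using ξ.z_ne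
  let L : E n →L[ℂ] E n :=
    ⟪p, p⟫_ℂ • ContinuousLinearMap.id ℂ (E n) - (innerSL ℂ p).smulRight p
  have hL : ∀ w, L w = ⟪p, p⟫_ℂ • w - ⟪p, w⟫_ℂ • p := fun w => rfl
  filter_upwards [support_ae hm (HomMap.of_clm L)] with ξ h c hc
  have h1 : L ξ.z = 0 := by
    rw [hL, hc, inner_smul_right, smul_smul, mul_comm, sub_self]
  have h2 := h h1
  rw [L.fderiv, hL, sub_eq_zero] at h2
  have hc0 : c ≠ 0 := by rintro rfl; exact ξ.z_ne (by simpa using hc)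
  have h3 : ⟪p, ξ.v⟫_ℂ = 0 := by
    have := ξ.inner_zv
    rw [hc, inner_smul_left] at this
    simpa [hc0] using this
  rw [h3, zero_smul, smul_eq_zero] at h2
  rcases h2 with h2 | h2
  · exact inner_self_ne hp h2
  · have := ξ.norm_v; rw [h2, norm_zero] at this; exact zero_ne_one this

theorem HomMap.rhom0_cut {P : E n → F} {r : ℕ} (hP : HomMap P r) (δ : ℝ) :
    RHom0 fun w => st (sP P r w / δ) :=
  hP.rhom0.comp (β := fun x => st (x / δ)) fun _ _ =>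
    (st_contDiff.comp (contDiff_id.div_const δ)).contDiffAt

theorem HomMap.rz_cut {P : E n → F} {r : ℕ} (hP : HomMap P r) (δ : ℝ) (ξ : Xi n) :
    rz (fun w => st (sP P r w / δ)) ξ.z ξ.v
      = ((deriv st (‖P ξ.z‖ ^ 2 / δ) / δ : ℝ) : ℂ) * ⟪P ξ.z, fderiv ℂ P ξ.z ξ.v⟫_ℂ := by
  have h1 : HasDerivAt (fun x => st (x / δ)) (deriv st (sP P r ξ.z / δ) * (1 / δ))
      (sP P r ξ.z) :=
    (st_differentiable _).hasDerivAt.comp _ ((hasDerivAt_id _).div_const δ)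
  rw [rz_comp (β := fun x => st (x / δ)) h1.differentiableAt (hP.rhom0.diffAt ξ.z_ne), h1.deriv,
    hP.rz_sP, sP_unit, mul_one_div]

/-- The cut-off functions `st (sP / δ)` have small gradient against square integrable `g`. -/
theorem cutoff_tendsto {m : Measure (Xi n)} [IsFiniteMeasure m] (hm : ClosedM m) {P : E n → F}
    {r : ℕ} (hP : HomMap P r) {g : Xi n → ℝ} (hg : MemLp g 2 m) :
    Tendsto (fun δ : ℝ => ∫ ξ, |g ξ| * ‖rz (fun w => st (sP P r w / δ)) ξ.z ξ.v‖ ∂m)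
      (𝓝[>] 0) (𝓝 0) := by
  obtain ⟨C, hC⟩ := st_deriv
  have hC0 : 0 ≤ C := (hC 0).1.trans (hC 0).2.1
  have hPc0 := hP.cont
  have hPc : Continuous fun ξ : Xi n => P ξ.z := hP.cont.comp Xi.continuous_z
  have hDc := hP.cont_Dxi Xi.continuous_v
  have hg2 : Integrable (fun ξ => g ξ ^ 2) m := hg.integrable_sq
  have hms : ∀ δ : ℝ, MeasurableSet {ξ : Xi n | ‖P ξ.z‖ ^ 2 ≤ 2 * δ} := fun δ =>
    (isClosed_le (by fun_prop) continuous_const).measurableSet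
  have hms' : ∀ δ : ℝ, MeasurableSet {ξ : Xi n | 0 < ‖P ξ.z‖ ^ 2 ∧ ‖P ξ.z‖ ^ 2 ≤ 2 * δ} := fun δ =>
    (isOpen_lt (f := fun _ : Xi n => (0 : ℝ)) (g := fun ξ : Xi n => ‖P ξ.z‖ ^ 2) continuous_const
      (by fun_prop)).measurableSet.inter (hms δ)
  have h1 : Tendsto (fun δ : ℝ => ∫ ξ, Set.indicator
      {ξ : Xi n | 0 < ‖P ξ.z‖ ^ 2 ∧ ‖P ξ.z‖ ^ 2 ≤ 2 * δ} (fun ξ => g ξ ^ 2) ξ ∂m)
      (𝓝[>] 0) (𝓝 (∫ _ : Xi n, (0 : ℝ) ∂m)) := by
    refine tendsto_integral_filter_of_dominated_convergence (fun ξ => g ξ ^ 2)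
      (Eventually.of_forall fun δ => (hg2.indicator (hms' δ)).aestronglyMeasurable)
      (Eventually.of_forall fun δ => Eventually.of_forall fun ξ => ?_) hg2
      (Eventually.of_forall fun ξ => ?_)
    · rw [Real.norm_eq_abs, Set.indicator]
      split_ifs
      · rw [abs_of_nonneg (sq_nonneg _)]
      · simpa using sq_nonneg _
    · refine tendsto_const_nhds.congr' ?_
      by_cases h : 0 < ‖P ξ.z‖ ^ 2
      · filter_upwards [Ioo_mem_nhdsGT (half_pos h)] with δ hδ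
        rw [Set.indicator_of_notMem]
        rintro ⟨-, h2⟩
        linarith [hδ.2]
      · exact Eventually.of_forall fun δ => by
          simp only
          rw [Set.indicator_of_notMem]
          exact fun h2 => h h2.1
  rw [integral_zero] at h1
  set M := (r : ℝ) * m.real Set.univ with hM
  have hM0 : 0 ≤ M := by positivity
  rw [Metric.tendsto_nhds] at h1 ⊢
  intro ε hε
  set η := ε / (2 * (18 * C ^ 2 * M + 1)) with hη
  have hη0 : 0 < η := by positivity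
  filter_upwards [h1 (ε / 2 * η) (by positivity), self_mem_nhdsWithin] with δ h2 hδ
  have hδ0 : 0 < δ := hδ
  rw [Real.dist_eq, sub_zero] at h2 ⊢
  rw [abs_of_nonneg (integral_nonneg fun ξ => by positivity)]
  have h3 := flux_low hm hP hδ0
  rw [← integral_indicator (hms δ)] at h3
  have hi1 := hg2.indicator (hms' δ)
  have hi2 : Integrable (Set.indicator {ξ : Xi n | ‖P ξ.z‖ ^ 2 ≤ 2 * δ}
      fun ξ => ‖fderiv ℂ P ξ.z ξ.v‖ ^ 2) m := (cont_integrable (by fun_prop)).indicator (hms δ)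
  have h4 : ∫ ξ, |g ξ| * ‖rz (fun w => st (sP P r w / δ)) ξ.z ξ.v‖ ∂m ≤
      ∫ ξ, (η⁻¹ * Set.indicator {ξ : Xi n | 0 < ‖P ξ.z‖ ^ 2 ∧ ‖P ξ.z‖ ^ 2 ≤ 2 * δ}
        (fun ξ => g ξ ^ 2) ξ + η * (2 * C ^ 2 / δ) * Set.indicator
          {ξ : Xi n | ‖P ξ.z‖ ^ 2 ≤ 2 * δ} (fun ξ => ‖fderiv ℂ P ξ.z ξ.v‖ ^ 2) ξ) ∂m := by
    refine integral_mono_of_nonneg (Eventually.of_forall fun ξ => by positivity)
      ((hi1.const_mul _).add (hi2.const_mul _)) (Eventually.of_forall fun ξ => ?_)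
    simp only
    rw [hP.rz_cut, norm_mul, Complex.norm_real, Real.norm_eq_abs]
    by_cases h : δ ≤ ‖P ξ.z‖ ^ 2 ∧ ‖P ξ.z‖ ^ 2 ≤ 2 * δ
    · rw [Set.indicator_of_mem (show ξ ∈ {ξ : Xi n | 0 < ‖P ξ.z‖ ^ 2 ∧ ‖P ξ.z‖ ^ 2 ≤ 2 * δ} from
        ⟨by linarith [h.1], h.2⟩), Set.indicator_of_mem
          (show ξ ∈ {ξ : Xi n | ‖P ξ.z‖ ^ 2 ≤ 2 * δ} from h.2)]
      set a := |deriv st (‖P ξ.z‖ ^ 2 / δ) / δ| * ‖⟪P ξ.z, fderiv ℂ P ξ.z ξ.v⟫_ℂ‖ with ha
      have ha2 : a ^ 2 ≤ 2 * C ^ 2 / δ * ‖fderiv ℂ P ξ.z ξ.v‖ ^ 2 := by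
        have k1 : |deriv st (‖P ξ.z‖ ^ 2 / δ) / δ| ≤ C / δ := by
          rw [abs_of_nonneg (div_nonneg (hC _).1 hδ0.le)]
          exact div_le_div_of_nonneg_right (hC _).2.1 hδ0.le
        have k2 := (inner_sq_le (P ξ.z) (fderiv ℂ P ξ.z ξ.v)).trans
          (mul_le_mul_of_nonneg_right h.2 (sq_nonneg _))
        calc a ^ 2 ≤ (C / δ) ^ 2 * (2 * δ * ‖fderiv ℂ P ξ.z ξ.v‖ ^ 2) := by
              rw [ha, mul_pow]; gcongr
          _ = _ := by field_simp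
      have k3 : |g ξ| * a ≤ η⁻¹ * g ξ ^ 2 + η * a ^ 2 := by
        have k4 : η * (η⁻¹ * g ξ ^ 2 + η * a ^ 2 - |g ξ| * a)
            = (|g ξ| - η * a) ^ 2 + η * (|g ξ| * a) := by
          rw [← sq_abs (g ξ)]; field_simp; ring
        have k5 : 0 ≤ η * (η⁻¹ * g ξ ^ 2 + η * a ^ 2 - |g ξ| * a) := by rw [k4]; positivity
        linarith [(mul_nonneg_iff_of_pos_left hη0).1 k5]
      calc _ ≤ η⁻¹ * g ξ ^ 2 + η * a ^ 2 := k3
        _ ≤ _ := by rw [mul_assoc η]; gcongr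
    · rw [(hC _).2.2, zero_div, abs_zero, zero_mul, mul_zero]
      · have k1 := Set.indicator_nonneg (s := {ξ : Xi n | 0 < ‖P ξ.z‖ ^ 2 ∧ ‖P ξ.z‖ ^ 2 ≤ 2 * δ})
          (f := fun ξ => g ξ ^ 2) (fun ξ _ => sq_nonneg _) ξ
        have k2 := Set.indicator_nonneg (s := {ξ : Xi n | ‖P ξ.z‖ ^ 2 ≤ 2 * δ})
          (f := fun ξ => ‖fderiv ℂ P ξ.z ξ.v‖ ^ 2) (fun ξ _ => sq_nonneg _) ξ
        positivity
      · rw [not_and_or, not_le, not_le] at h
        rcases h with h | h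
        · left; rwa [div_lt_one hδ0]
        · right; rwa [lt_div_iff₀ hδ0]
  rw [integral_add (hi1.const_mul _) (hi2.const_mul _), integral_const_mul,
    integral_const_mul] at h4
  have h5 : η⁻¹ * ∫ ξ, Set.indicator {ξ : Xi n | 0 < ‖P ξ.z‖ ^ 2 ∧ ‖P ξ.z‖ ^ 2 ≤ 2 * δ}
      (fun ξ => g ξ ^ 2) ξ ∂m < ε / 2 := by
    rw [inv_mul_lt_iff₀ hη0, mul_comm η]
    exact (le_abs_self _).trans_lt h2
  have h6 : η * (2 * C ^ 2 / δ) * (9 * δ * M) ≤ ε / 2 := by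
    have : η * (2 * C ^ 2 / δ) * (9 * δ * M) = ε / 2 * (18 * C ^ 2 * M / (18 * C ^ 2 * M + 1)) := by
      rw [hη]; field_simp; ring
    rw [this]
    refine mul_le_of_le_one_right (by positivity) ?_
    rw [div_le_one (by positivity)]; linarith
  have h7 := mul_le_mul_of_nonneg_left h3 (show 0 ≤ η * (2 * C ^ 2 / δ) by positivity)
  linarith

theorem IsForm10.contDiffAt {α : E n → Fin n → ℂ} (hα : IsForm10 α) {z : E n} (hz : z ≠ 0)
    (j : Fin n) : ContDiffAt ℝ ∞ (fun w => α w j) z :=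
  contDiffAt_pi.1 (hα.1.contDiffAt (isOpen_ne_zero.mem_nhds hz)) j

theorem IsForm10.cont_dbar {α : E n → Fin n → ℂ} (hα : IsForm10 α) :
    Continuous fun ξ : Xi n => ∑ j, dzb (fun w => α w j) ξ.z ξ.v * ξ.v j := by
  refine continuous_finset_sum _ fun j _ => Continuous.mul ?_ (by fun_prop)
  exact continuous_iff_continuousAt.2 fun ξ =>
    (continuousAt_dz Xi.continuous_v (hα.contDiffAt ξ.z_ne j)).2

theorem IsForm10.cont_ap {α : E n → Fin n → ℂ} (hα : IsForm10 α) :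
    Continuous fun ξ : Xi n => ∑ j, α ξ.z j * ξ.v j := by
  refine continuous_finset_sum _ fun j _ => Continuous.mul ?_ (by fun_prop)
  exact continuous_iff_continuousAt.2 fun ξ =>
    ContinuousAt.comp (f := Xi.z) (g := fun w => α w j) (hα.contDiffAt ξ.z_ne j).continuousAt
      Xi.continuous_z.continuousAt

theorem IsForm10.mul {α : E n → Fin n → ℂ} (hα : IsForm10 α) {b : E n → ℝ} (hb : RHom0 b) :
    IsForm10 fun z j => b z * α z j := by
  refine ⟨fun z hz => ContDiffAt.contDiffWithinAt (contDiffAt_pi.2 fun j =>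
    (contDiffAt_ofReal (hb.contDiffAt hz)).mul (hα.contDiffAt hz j)), fun z hz c hc j => ?_,
    fun z hz => ?_⟩
  · simp only
    rw [hb.hom z hz c hc, hα.2.1 z hz c hc]; ring
  · simp only [mul_assoc, ← Finset.mul_sum]
    rw [hα.2.2 z hz, mul_zero]

/-- closedness tested on `b α` -/
theorem ClosedM.mul {m : Measure (Xi n)} [IsFiniteMeasure m] (hm : ClosedM m)
    {α : E n → Fin n → ℂ} (hα : IsForm10 α) {b : E n → ℝ} (hb : RHom0 b) :
    ∫ ξ, (b ξ.z : ℂ) * ∑ j, dzb (fun w => α w j) ξ.z ξ.v * ξ.v j ∂m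
      = -∫ ξ, conj (rz b ξ.z ξ.v) * ∑ j, α ξ.z j * ξ.v j ∂m := by
  have k1 := (Complex.continuous_ofReal.comp hb.cont).mul hα.cont_dbar
  have k2 := (Complex.continuous_conj.comp (hb.cont_rz Xi.continuous_v)).mul hα.cont_ap
  rw [eq_neg_iff_add_eq_zero, ← integral_add (cont_integrable (by exact k1))
    (cont_integrable (by exact k2)), ← hm _ (hα.mul hb)]
  refine integral_congr_ae (Eventually.of_forall fun ξ => ?_)
  simp only [Finset.mul_sum, ← Finset.sum_add_distrib]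
  refine Finset.sum_congr rfl fun j _ => ?_
  rw [dzb_mul (differentiableAt_ofReal (hb.diffAt ξ.z_ne))
    ((hα.contDiffAt ξ.z_ne j).differentiableAt (by simp)), dzb_ofReal]
  ring

theorem eventually_cut_zero {P : E n → F} {r : ℕ} (hP : HomMap P r) {δ : ℝ} (hδ : 0 < δ)
    {z : E n} (hz : z ≠ 0) (h : P z = 0) : ∀ᶠ w in 𝓝 z, st (sP P r w / δ) = 0 := by
  have h1 : ContinuousAt (sP P r) z := (hP.rhom0.contDiffAt hz).continuousAt
  have h2 : sP P r z < δ := by simp [sP, h, hδ]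
  exact (h1.eventually (gt_mem_nhds h2)).mono fun w hw => st_zero ((div_le_one hδ).2 hw.le)

/-- Multiplication by a bounded function which is constant along almost every direction. -/
theorem closed_weight {m : Measure (Xi n)} [IsFiniteMeasure m] (hm : ClosedM m) {P : E n → F}
    {r : ℕ} (hP : HomMap P r) {ψ : E n → ℝ} (hψ : ContDiffOn ℝ ∞ ψ {z | P z ≠ 0})
    (hψ0 : ∀ z, P z ≠ 0 → ∀ c : ℂ, c ≠ 0 → ψ (c • z) = ψ z)
    (hb : ∀ z, P z ≠ 0 → 0 ≤ ψ z ∧ ψ z ≤ 1)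
    (hd : ∀ᵐ ξ ∂m, P ξ.z ≠ 0 → rz ψ ξ.z ξ.v = 0) (hr : 1 ≤ r) :
    IsFiniteMeasure ((m.restrict {ξ | P ξ.z ≠ 0}).withDensity fun ξ => ENNReal.ofReal (ψ ξ.z)) ∧
    ClosedM ((m.restrict {ξ | P ξ.z ≠ 0}).withDensity fun ξ => ENNReal.ofReal (ψ ξ.z)) := by
  have hPc0 := hP.cont
  have hO : IsOpen {z | P z ≠ 0} := isOpen_ne_fun hPc0 continuous_const
  have hms : MeasurableSet {ξ : Xi n | P ξ.z ≠ 0} := (hO.preimage Xi.continuous_z).measurableSet
  have hcont : ContinuousOn (fun ξ : Xi n => ψ ξ.z) {ξ : Xi n | P ξ.z ≠ 0} :=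
    hψ.continuousOn.comp Xi.continuous_z.continuousOn fun ξ h => h
  have hae : AEMeasurable (fun ξ : Xi n => ψ ξ.z) (m.restrict {ξ | P ξ.z ≠ 0}) :=
    hcont.aemeasurable hms
  constructor
  · refine isFiniteMeasure_withDensity (ne_of_lt ?_)
    refine lt_of_le_of_lt (lintegral_mono_ae (g := fun _ => 1) ?_) (by simp)
    rw [ae_restrict_iff' hms]
    exact Eventually.of_forall fun ξ h => ENNReal.ofReal_le_one.2 (hb _ h).2
  intro α hα
  rw [integral_withDensity_eq_integral_toReal_smul₀ hae.ennreal_ofReal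
    (Eventually.of_forall fun _ => ENNReal.ofReal_lt_top), ← integral_indicator hms]
  have hb' : ∀ δ : ℝ, 0 < δ → RHom0 fun w => ψ w * st (sP P r w / δ) := fun δ hδ => by
    refine ⟨fun z hz => ContDiffAt.contDiffWithinAt ?_, fun z hz c hc => ?_⟩
    · by_cases h : P z = 0
      · refine (contDiffAt_const (c := (0 : ℝ))).congr_of_eventuallyEq ?_
        exact (eventually_cut_zero hP hδ hz h).mono fun w hw => by simp [hw]
      · exact (hψ.contDiffAt (hO.mem_nhds h)).mul ((hP.rhom0_cut δ).contDiffAt hz)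
    · rw [hP.rhom0.hom z hz c hc]
      by_cases h : P z = 0
      · rw [(eventually_cut_zero hP hδ hz h).self_of_nhds]; simp
      · rw [hψ0 z h c hc]
  set D : Xi n → ℂ := fun ξ => ∑ j, dzb (fun w => α w j) ξ.z ξ.v * ξ.v j with hD
  have hDc : Continuous D := hα.cont_dbar
  have t1 : Tendsto (fun δ : ℝ => ∫ ξ, ((ψ ξ.z * st (sP P r ξ.z / δ) : ℝ) : ℂ) * D ξ ∂m) (𝓝[>] 0)
      (𝓝 (∫ ξ, Set.indicator {ξ : Xi n | P ξ.z ≠ 0}
        (fun ξ => (ENNReal.ofReal (ψ ξ.z)).toReal • D ξ) ξ ∂m)) := by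
    refine tendsto_integral_filter_of_dominated_convergence (fun ξ => ‖D ξ‖) ?_ ?_
      (cont_integrable hDc.norm) (Eventually.of_forall fun ξ => ?_)
    · filter_upwards [self_mem_nhdsWithin] with δ hδ
      exact ((Complex.continuous_ofReal.comp (hb' δ hδ).cont).mul hDc).aestronglyMeasurable
    · filter_upwards [self_mem_nhdsWithin] with δ hδ
      refine Eventually.of_forall fun ξ => ?_
      rw [norm_mul, Complex.norm_real, Real.norm_eq_abs]
      refine mul_le_of_le_one_left (norm_nonneg _) ?_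
      by_cases h : P ξ.z = 0
      · rw [(eventually_cut_zero hP hδ ξ.z_ne h).self_of_nhds]; simp
      · rw [abs_of_nonneg (mul_nonneg (hb _ h).1 (st_nonneg _))]
        exact mul_le_one₀ (hb _ h).2 (st_nonneg _) (st_le_one _)
    · refine tendsto_const_nhds.congr' ?_
      by_cases h : P ξ.z = 0
      · filter_upwards [self_mem_nhdsWithin] with δ hδ
        rw [(eventually_cut_zero hP hδ ξ.z_ne h).self_of_nhds, Set.indicator_of_notMem (by simpa)]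
        simp
      · have h0 : 0 < ‖P ξ.z‖ ^ 2 := by positivity
        filter_upwards [Ioo_mem_nhdsGT (half_pos h0)] with δ hδ
        rw [Set.indicator_of_mem (show ξ ∈ {ξ : Xi n | P ξ.z ≠ 0} from h), sP_unit, st_one,
          ENNReal.toReal_ofReal (hb _ h).1]
        · simp
        · rw [le_div_iff₀ hδ.1]; linarith [hδ.2]
  have t2 : Tendsto (fun δ : ℝ => ∫ ξ, ((ψ ξ.z * st (sP P r ξ.z / δ) : ℝ) : ℂ) * D ξ ∂m) (𝓝[>] 0)
      (𝓝 0) := by
    have hA := hα.cont_ap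
    have hg : MemLp (fun ξ : Xi n => ‖∑ j, α ξ.z j * ξ.v j‖) 2 m :=
      hA.norm.memLp_of_hasCompactSupport (HasCompactSupport.of_compactSpace _)
    refine squeeze_zero_norm' ?_ (cutoff_tendsto hm hP hg)
    filter_upwards [self_mem_nhdsWithin] with δ hδ
    rw [hm.mul hα (hb' δ hδ), norm_neg]
    refine norm_integral_le_of_norm_le (cont_integrable (hA.norm.abs.mul
      ((hP.rhom0_cut δ).cont_rz Xi.continuous_v).norm)) ?_
    filter_upwards [hd] with ξ hξ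
    rw [norm_mul, RCLike.norm_conj, abs_norm, mul_comm]
    refine mul_le_mul_of_nonneg_left ?_ (norm_nonneg _)
    by_cases h : P ξ.z = 0
    · have : (fun w => ψ w * st (sP P r w / δ)) =ᶠ[𝓝 ξ.z] fun _ => 0 :=
        (eventually_cut_zero hP hδ ξ.z_ne h).mono fun w hw => by simp [hw]
      rw [rz_congr this, rz_const, norm_zero]; exact norm_nonneg _
    · rw [rz_mul ((hψ.contDiffAt (hO.mem_nhds h)).differentiableAt (by simp))
        ((hP.rhom0_cut δ).diffAt ξ.z_ne), hξ h, zero_mul, zero_add, norm_mul, Complex.norm_real,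
        Real.norm_eq_abs, abs_of_nonneg (hb _ h).1]
      exact mul_le_of_le_one_left (norm_nonneg _) (hb _ h).2
  exact tendsto_nhds_unique t1 t2

theorem closed_ne {m : Measure (Xi n)} [IsFiniteMeasure m] (hm : ClosedM m) {P : E n → F}
    {r : ℕ} (hP : HomMap P r) (hr : 1 ≤ r) : ClosedM (m.restrict {ξ | P ξ.z ≠ 0}) := by
  have := (closed_weight hm hP (ψ := fun _ => 1) contDiffOn_const (fun _ _ _ _ => rfl)
    (fun _ _ => ⟨zero_le_one, le_rfl⟩) (Eventually.of_forall fun ξ _ => rz_const _ _ _) hr).2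
  simpa [← Pi.one_def] using this

theorem closed_eq {m : Measure (Xi n)} [IsFiniteMeasure m] (hm : ClosedM m) {P : E n → F}
    {r : ℕ} (hP : HomMap P r) (hr : 1 ≤ r) : ClosedM (m.restrict {ξ | P ξ.z = 0}) := by
  intro α hα
  have hms : MeasurableSet {ξ : Xi n | P ξ.z = 0} :=
    (isClosed_eq (hP.cont.comp Xi.continuous_z) continuous_const).measurableSet
  have h1 := integral_add_compl hms (cont_integrable (m := m) hα.cont_dbar)
  have h2 := closed_ne hm hP hr α hα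
  have h3 : {ξ : Xi n | P ξ.z = 0}ᶜ = {ξ : Xi n | P ξ.z ≠ 0} := rfl
  rw [h3, h2, hm α hα, add_zero] at h1
  exact h1

theorem contDiffAt_st_div {θ : ℝ} (hθ : 0 < θ) (s : ℝ) :
    ContDiffAt ℝ ∞ (fun x : ℝ => st (x / θ) / x) s := by
  by_cases h : s = 0
  · refine (contDiffAt_const (c := (0 : ℝ))).congr_of_eventuallyEq ?_
    filter_upwards [gt_mem_nhds (show s < θ by rwa [h])] with x hx
    rw [st_zero ((div_le_one hθ).2 hx.le), zero_div]
  · exact (st_contDiff.comp (contDiff_id.div_const θ)).contDiffAt.div contDiffAt_id h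

theorem st_div_mul {θ : ℝ} (hθ : 0 < θ) (x : ℝ) : st (x / θ) = x * (st (x / θ) / x) := by
  by_cases h : x = 0
  · rw [h, zero_div, st_zero zero_le_one]; simp
  · field_simp

theorem deriv_st_div (θ x : ℝ) : deriv (fun x => st (x / θ)) x = deriv st (x / θ) / θ := by
  have h1 : HasDerivAt (fun x => st (x / θ)) (deriv st (x / θ) * (1 / θ)) x :=
    (st_differentiable _).hasDerivAt.comp _ ((hasDerivAt_id _).div_const θ)
  rw [h1.deriv, mul_one_div]

/-- A closed measure without mass near a hypersurface vanishes. -/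
theorem propagate {m : Measure (Xi n)} [IsFiniteMeasure m] (hm : ClosedM m) {P : E n → ℂ} {r : ℕ}
    (hP : HomMap P r) (hr : 1 ≤ r) {δ : ℝ} (hδ : 0 < δ) (h : ∀ᵐ ξ ∂m, δ ≤ ‖P ξ.z‖ ^ 2) :
    m = 0 := by
  have hθ : 0 < δ / 4 := by positivity
  have h1 := FB_B hm hP (RHom0.const 1) (fun s _ => contDiffAt_st_div hθ s)
    (B := fun x => st (x / (δ / 4))) fun s _ => Eventually.of_forall (st_div_mul hθ)
  simp only [rz_const, map_zero, mul_zero, integral_zero, add_zero, one_mul] at h1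
  have h2 := sub_eq_zero.1 (Complex.ofReal_eq_zero.1 h1)
  have h3 : ∀ᵐ ξ ∂m, 2 < ‖P ξ.z‖ ^ 2 / (δ / 4) := h.mono fun ξ hξ => by
    rw [lt_div_iff₀ hθ]; linarith
  rw [integral_congr_ae (g := fun _ => 0) (h3.mono fun ξ hξ => by
      simp only [deriv_st_div, st_deriv_zero (Or.inr hξ), zero_div, zero_mul]),
    integral_congr_ae (g := fun _ => 1) (h3.mono fun ξ hξ => st_one hξ.le)] at h2
  simp only [integral_zero, integral_const, smul_eq_mul, mul_one] at h2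
  have h4 : m.real Set.univ = 0 := by
    rcases mul_eq_zero.1 h2.symm with h | h
    · exfalso; have : r = 0 := by exact_mod_cast h
      omega
    · exact h
  rwa [measureReal_eq_zero_iff, Measure.measure_univ_eq_zero] at h4

theorem NoMeas.eq_zero {V : E n → E n} (hV : NoMeas V) {m : Measure (Xi n)} [IsFiniteMeasure m]
    (hm : ClosedM m) (hd : ∀ᵐ ξ ∂m, Dir (V ξ.z) ξ) : m = 0 := by
  by_contra h0
  haveI : NeZero m := ⟨h0⟩
  refine hV ((m Set.univ)⁻¹ • m) inferInstance (fun α hα => ?_) (Measure.ae_smul_measure hd _)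
  rw [integral_smul_measure, hm α hα, smul_zero]

end K1

end A590
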