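import Pool.Agent.Lib.A590Calc

/-!
Cut-off functions of small energy in the plane and the area bound for conics.
-/

open scoped ComplexConjugate ComplexOrder ContDiff Topology InnerProductSpace
open MeasureTheory Filter

noncomputable section

namespace A590

namespace X1

/-- a bump function: one on the disc of radius `ρ`, zero off the disc of radius `3 ρ / 2` -/
def bu (c : ℂ) (ρ : ℝ) (x : ℂ) : ℝ := 1 - st (‖x - c‖ ^ 2 / ρ ^ 2)

lemma bu_contDiff (c : ℂ) (ρ : ℝ) : ContDiff ℝ ∞ (bu c ρ) := by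
  have h : ContDiff ℝ ∞ fun x : ℂ => ‖x - c‖ ^ 2 := (contDiff_id.sub contDiff_const).norm_sq ℂ
  exact contDiff_const.sub (st_contDiff.comp (h.div_const _))

lemma bu_mem (c : ℂ) (ρ : ℝ) (x : ℂ) : 0 ≤ bu c ρ x ∧ bu c ρ x ≤ 1 := by
  unfold bu
  constructor <;> linarith [st_nonneg (‖x - c‖ ^ 2 / ρ ^ 2), st_le_one (‖x - c‖ ^ 2 / ρ ^ 2)]

lemma bu_one {c x : ℂ} {ρ : ℝ} (hρ : 0 < ρ) (h : ‖x - c‖ ≤ ρ) : bu c ρ x = 1 := by
  rw [bu, st_zero, sub_zero]
  rw [div_le_one (by positivity)]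
  exact pow_le_pow_left₀ (norm_nonneg _) h 2

lemma bu_zero {c x : ℂ} {ρ : ℝ} (hρ : 0 < ρ) (h : 3 / 2 * ρ ≤ ‖x - c‖) : bu c ρ x = 0 := by
  rw [bu, st_one, sub_self]
  rw [le_div_iff₀ (by positivity)]
  nlinarith

lemma bu_fderiv_zero {c x : ℂ} {ρ : ℝ} (hρ : 0 < ρ) (h : ‖x - c‖ < ρ ∨ 3 / 2 * ρ < ‖x - c‖) :
    fderiv ℝ (bu c ρ) x = 0 := by
  have hc : Continuous fun y : ℂ => ‖y - c‖ := by fun_prop
  rcases h with h | h
  · have : bu c ρ =ᶠ[𝓝 x] fun _ => 1 :=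
      (hc.continuousAt.eventually (gt_mem_nhds h)).mono fun y hy => bu_one hρ hy.le
    rw [this.fderiv_eq]
    simp
  · have : bu c ρ =ᶠ[𝓝 x] fun _ => 0 :=
      (hc.continuousAt.eventually (lt_mem_nhds h)).mono fun y hy => bu_zero hρ hy.le
    rw [this.fderiv_eq]
    simp

lemma bu_fderiv : ∃ C : ℝ, 0 ≤ C ∧ ∀ (c x : ℂ) (ρ : ℝ), 0 < ρ → ‖fderiv ℝ (bu c ρ) x‖ ≤ C / ρ := by
  obtain ⟨C, hC⟩ := st_deriv
  have hC0 : 0 ≤ C := (hC 0).1.trans (hC 0).2.1
  refine ⟨3 * C, by positivity, fun c x ρ hρ => ?_⟩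
  rcases lt_or_ge (3 / 2 * ρ) ‖x - c‖ with h | h
  · rw [bu_fderiv_zero hρ (Or.inr h), norm_zero]
    positivity
  have h1 : HasFDerivAt (fun y : ℂ => ‖y - c‖ ^ 2)
      (2 • (innerSL ℝ (x - c)).comp (ContinuousLinearMap.id ℝ ℂ)) x :=
    ((hasFDerivAt_id x).sub_const c).norm_sq
  have h2 := (st_differentiable (‖x - c‖ ^ 2 / ρ ^ 2)).hasDerivAt.comp_hasFDerivAt x
    (f := fun y : ℂ => ‖y - c‖ ^ 2 / ρ ^ 2) (by
      simpa only [div_eq_mul_inv] using h1.mul_const (ρ ^ 2)⁻¹)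
  have h3 : HasFDerivAt (bu c ρ) _ x := h2.const_sub 1
  rw [h3.fderiv, norm_neg, norm_smul, norm_smul, ContinuousLinearMap.comp_id, two_smul]
  have h4 : ‖innerSL ℝ (x - c) + innerSL ℝ (x - c)‖ ≤ 3 * ρ := by
    refine (norm_add_le _ _).trans ?_
    rw [innerSL_apply_norm]
    linarith
  rw [Real.norm_of_nonneg (hC _).1, Real.norm_of_nonneg (by positivity)]
  calc _ ≤ C * ((ρ ^ 2)⁻¹ * (3 * ρ)) := by gcongr; exact (hC _).2.1
    _ = 3 * C / ρ := by field_simp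

lemma cs_of_zero {E : Type*} [Zero E] {f : ℂ → E} (c : ℂ) (r : ℝ)
    (h : ∀ x, r ≤ ‖x - c‖ → f x = 0) : HasCompactSupport f :=
  HasCompactSupport.intro (isCompact_closedBall c r) fun x hx => h x (by
    rw [mem_closedBall_iff_norm, not_le] at hx
    exact hx.le)

lemma bu_cs (c : ℂ) {ρ : ℝ} (hρ : 0 < ρ) : HasCompactSupport (bu c ρ) :=
  cs_of_zero c _ fun _ => bu_zero hρ

lemma int_energy {κ : ℂ → ℝ} (h1 : ContDiff ℝ ∞ κ) (h2 : HasCompactSupport κ) :
    Integrable fun x => ‖fderiv ℝ κ x‖ ^ 2 := by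
  refine Continuous.integrable_of_hasCompactSupport
    ((h1.continuous_fderiv (by simp)).norm.pow 2) ?_
  exact (h2.fderiv ℝ).comp_left (g := fun L => ‖L‖ ^ 2) (by simp)

/-- integral of a bounded function supported in a disc -/
lemma int_le {f : ℂ → ℝ} {c : ℂ} {r M : ℝ} (hr : 0 ≤ r) (hM : 0 ≤ M) (h0 : ∀ x, 0 ≤ f x)
    (h1 : ∀ x, f x ≤ M) (h2 : ∀ x, r < ‖x - c‖ → f x = 0) : ∫ x, f x ≤ M * (4 * r ^ 2) := by
  have hv : volume.real (Metric.closedBall c r) ≤ 4 * r ^ 2 := by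
    rw [Measure.real, Complex.volume_closedBall]
    simp only [ENNReal.toReal_mul, ENNReal.toReal_pow, ENNReal.toReal_ofReal hr,
      ENNReal.coe_toReal, NNReal.coe_real_pi]
    nlinarith [Real.pi_le_four, sq_nonneg r]
  rw [← setIntegral_eq_integral_of_forall_compl_eq_zero (s := Metric.closedBall c r)
    fun x hx => h2 x (by rwa [mem_closedBall_iff_norm, not_le] at hx)]
  refine (Real.le_norm_self _).trans ((norm_setIntegral_le_of_norm_le_const (C := M)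
    measure_closedBall_lt_top fun x _ => ?_).trans (mul_le_mul_of_nonneg_left hv hM))
  rw [Real.norm_of_nonneg (h0 x)]
  exact h1 x

lemma bu_energy : ∃ E : ℝ, ∀ (c : ℂ) (ρ : ℝ), 0 < ρ → ∫ x, ‖fderiv ℝ (bu c ρ) x‖ ^ 2 ≤ E := by
  obtain ⟨C, hC0, hC⟩ := bu_fderiv
  refine ⟨9 * C ^ 2, fun c ρ hρ => ?_⟩
  refine (int_le (c := c) (r := 3 / 2 * ρ) (M := (C / ρ) ^ 2) (by positivity) (by positivity)
    (fun x => by positivity) (fun x => pow_le_pow_left₀ (norm_nonneg _) (hC c x ρ hρ) 2)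
    fun x hx => by rw [bu_fderiv_zero hρ (Or.inr hx)]; simp).trans (le_of_eq ?_)
  field_simp
  norm_num

lemma norm_sum_sq {E : Type*} [NormedAddCommGroup E] (s : Finset ℕ) (f : ℕ → E)
    (h : ∀ i j, f i ≠ 0 → f j ≠ 0 → i = j) : ‖∑ i ∈ s, f i‖ ^ 2 ≤ ∑ i ∈ s, ‖f i‖ ^ 2 := by
  by_cases h0 : ∀ i ∈ s, f i = 0
  · rw [Finset.sum_eq_zero h0, norm_zero, zero_pow two_ne_zero]
    exact Finset.sum_nonneg fun i _ => by positivity
  · push Not at h0
    obtain ⟨i, hi, hne⟩ := h0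
    rw [Finset.sum_eq_single_of_mem i hi fun j _ hj => by
      by_contra hc
      exact hj (h j i hc hne)]
    exact Finset.single_le_sum (f := fun i => ‖f i‖ ^ 2) (fun i _ => by positivity) hi

/-- logarithmic cut-off -/
lemma log_cut {η : ℝ} (hη : 0 < η) : ∃ L : ℝ, 0 < L ∧ ∀ (c : ℂ) (ρ : ℝ), 0 < ρ →
    ∃ B : ℂ → ℝ, ContDiff ℝ ∞ B ∧ (∀ x, 0 ≤ B x ∧ B x ≤ 1) ∧ (∀ x, ‖x - c‖ ≤ ρ → B x = 1) ∧
      (∀ x, L * ρ ≤ ‖x - c‖ → B x = 0) ∧ ∫ x, ‖fderiv ℝ B x‖ ^ 2 ≤ η := by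
  obtain ⟨E, hE⟩ := bu_energy
  obtain ⟨N, hN⟩ := exists_nat_gt (max (E / η) 0)
  have hN0 : (0 : ℝ) < N := (le_max_right _ _).trans_lt hN
  have hNE : E / η < N := (le_max_left _ _).trans_lt hN
  refine ⟨2 * 2 ^ N, by positivity, fun c ρ hρ => ?_⟩
  have hρi : ∀ i : ℕ, 0 < ρ * 2 ^ i := fun i => by positivity
  refine ⟨fun x => (N : ℝ)⁻¹ * ∑ i ∈ Finset.range N, bu c (ρ * 2 ^ i) x,
    contDiff_const.mul (ContDiff.sum fun i _ => bu_contDiff _ _), fun x => ⟨?_, ?_⟩,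
    fun x hx => ?_, fun x hx => ?_, ?_⟩
  · exact mul_nonneg (by positivity) (Finset.sum_nonneg fun i _ => (bu_mem _ _ _).1)
  · rw [inv_mul_le_iff₀ hN0]
    refine (Finset.sum_le_sum fun i _ => (bu_mem _ _ _).2).trans ?_
    simp
  · beta_reduce
    rw [Finset.sum_congr rfl fun i _ => bu_one (hρi i) (hx.trans
      (le_mul_of_one_le_right hρ.le (one_le_pow₀ one_le_two)))]
    simp [hN0.ne']
  · beta_reduce
    rw [Finset.sum_eq_zero fun i hi => bu_zero (hρi i) ?_, mul_zero]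
    have : (2 : ℝ) ^ i ≤ 2 ^ N := pow_le_pow_right₀ one_le_two (Finset.mem_range.1 hi).le
    have h2 : ρ * 2 ^ i ≤ ρ * 2 ^ N := mul_le_mul_of_nonneg_left this hρ.le
    linarith [hρi i]
  · have hd : ∀ i x, DifferentiableAt ℝ (bu c (ρ * 2 ^ i)) x := fun i x =>
      (bu_contDiff _ _).differentiable (by simp) x
    have key : ∀ x, ‖fderiv ℝ (fun x => (N : ℝ)⁻¹ * ∑ i ∈ Finset.range N, bu c (ρ * 2 ^ i) x) x‖ ^ 2
        ≤ (N : ℝ)⁻¹ ^ 2 * ∑ i ∈ Finset.range N, ‖fderiv ℝ (bu c (ρ * 2 ^ i)) x‖ ^ 2 := fun x => by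
      rw [fderiv_const_mul (DifferentiableAt.fun_sum fun i _ => hd i x),
        fderiv_fun_sum fun i _ => hd i x, norm_smul, mul_pow, Real.norm_of_nonneg (by positivity)]
      refine mul_le_mul_of_nonneg_left (norm_sum_sq _ _ fun i j hi hj => ?_) (by positivity)
      have aux : ∀ i j : ℕ, fderiv ℝ (bu c (ρ * 2 ^ i)) x ≠ 0 →
          fderiv ℝ (bu c (ρ * 2 ^ j)) x ≠ 0 → j ≤ i := fun i j hi hj => by
        by_contra hc
        have h1 : (2 : ℝ) ^ (i + 1) ≤ 2 ^ j := pow_le_pow_right₀ one_le_two (by omega)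
        have h2 : ρ * 2 ^ (i + 1) ≤ ρ * 2 ^ j := mul_le_mul_of_nonneg_left h1 hρ.le
        rw [pow_succ] at h2
        rcases lt_or_ge ‖x - c‖ (ρ * 2 ^ j) with h | h
        · exact hj (bu_fderiv_zero (hρi j) (Or.inl h))
        · exact hi (bu_fderiv_zero (hρi i) (Or.inr (by linarith [hρi i])))
      exact le_antisymm (aux j i hj hi) (aux i j hi hj)
    have hi : ∀ i ∈ Finset.range N, Integrable fun x => ‖fderiv ℝ (bu c (ρ * 2 ^ i)) x‖ ^ 2 :=
      fun i _ => int_energy (bu_contDiff _ _) (bu_cs _ (hρi i))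
    refine (integral_mono_of_nonneg (Eventually.of_forall fun x => by positivity)
      ((integrable_finsetSum _ hi).const_mul _) (Eventually.of_forall key)).trans ?_
    rw [integral_const_mul, integral_finsetSum _ hi]
    refine (mul_le_mul_of_nonneg_left (Finset.sum_le_sum fun i _ => hE c _ (hρi i))
      (by positivity)).trans ?_
    rw [Finset.sum_const, Finset.card_range, nsmul_eq_mul]
    rw [div_lt_iff₀ hη] at hNE
    have : (N : ℝ)⁻¹ ^ 2 * (N * E) = E / N := by field_simp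
    rw [this, div_le_iff₀ hN0]
    linarith

lemma int_dzb {h : ℂ → ℂ} (h1 : ContDiff ℝ 1 h) (h2 : HasCompactSupport h) :
    ∫ t, dzb h t 1 = 0 := by
  have hi : ∀ v : ℂ, Integrable fun t => fderiv ℝ h t v := fun v =>
    Continuous.integrable_of_hasCompactSupport
      ((h1.continuous_fderiv one_ne_zero).clm_apply continuous_const) (h2.fderiv_apply ℝ v)
  have h0 : ∀ v : ℂ, ∫ t, fderiv ℝ h t v = 0 := fun v => by
    have := integral_mul_fderiv_eq_neg_fderiv_mul_of_integrable (μ := volume) (𝕜 := ℂ)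
      (f := fun _ : ℂ => (1 : ℂ)) (g := h) (v := v) (by simp) (by simpa using hi v)
      (by simpa using h1.continuous.integrable_of_hasCompactSupport h2)
      (fun _ _ => differentiableAt_const _) (fun x _ => h1.differentiable one_ne_zero x)
    simpa using this
  unfold dzb
  rw [integral_div, integral_add (hi _) ((hi _).const_mul _), integral_const_mul, h0, h0]
  simp

/-- the connection form of a holomorphic curve in the plane -/
def gg (s d : ℂ → ℂ × ℂ) (t : ℂ) : ℂ :=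
  ((d t).1 * conj (s t).1 + (d t).2 * conj (s t).2) *
    ((s t).1 * conj (s t).1 + (s t).2 * conj (s t).2)⁻¹

lemma nn_eq (w : ℂ × ℂ) :
    w.1 * conj w.1 + w.2 * conj w.2 = ((‖w.1‖ ^ 2 + ‖w.2‖ ^ 2 : ℝ) : ℂ) := by
  rw [Complex.mul_conj', Complex.mul_conj']
  push_cast
  ring

lemma nn_ge (w : ℂ × ℂ) : ‖w‖ ^ 2 ≤ ‖w.1‖ ^ 2 + ‖w.2‖ ^ 2 := by
  rw [Prod.norm_def]
  rcases max_choice ‖w.1‖ ‖w.2‖ with h | h <;> rw [h] <;>
    nlinarith [sq_nonneg ‖w.1‖, sq_nonneg ‖w.2‖]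

lemma nn_pos {w : ℂ × ℂ} (h : w ≠ 0) : 0 < ‖w.1‖ ^ 2 + ‖w.2‖ ^ 2 :=
  (pow_pos (norm_pos_iff.2 h) 2).trans_le (nn_ge w)

lemma conj_cd {f : ℂ → ℂ} (h : ContDiff ℝ 1 f) : ContDiff ℝ 1 fun t => conj (f t) :=
  Complex.conjCLE.contDiff.comp h

lemma gg_cd {s d : ℂ → ℂ × ℂ} (hs : ContDiff ℝ 1 s) (hd : ContDiff ℝ 1 d) (h0 : ∀ t, s t ≠ 0) :
    ContDiff ℝ 1 (gg s d) := by
  refine ((hd.fst.mul (conj_cd hs.fst)).add (hd.snd.mul (conj_cd hs.snd))).mul
    (((hs.fst.mul (conj_cd hs.fst)).add (hs.snd.mul (conj_cd hs.snd))).inv fun t => ?_)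
  rw [nn_eq]
  exact_mod_cast (nn_pos (h0 t)).ne'

lemma norm_gg (s d : ℂ → ℂ × ℂ) (t : ℂ) (h0 : s t ≠ 0) : ‖gg s d t‖ ≤ 2 * ‖d t‖ / ‖s t‖ := by
  have h1 : 0 < ‖s t‖ := norm_pos_iff.2 h0
  have h2 : ‖(d t).1 * conj (s t).1 + (d t).2 * conj (s t).2‖ ≤ 2 * ‖d t‖ * ‖s t‖ := by
    refine (norm_add_le _ _).trans ?_
    rw [norm_mul, norm_mul, Complex.norm_conj, Complex.norm_conj]
    have := mul_le_mul (norm_fst_le (d t)) (norm_fst_le (s t)) (norm_nonneg _) (norm_nonneg _)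
    have := mul_le_mul (norm_snd_le (d t)) (norm_snd_le (s t)) (norm_nonneg _) (norm_nonneg _)
    linarith
  rw [gg, nn_eq, norm_mul, norm_inv, Complex.norm_real, Real.norm_of_nonneg (nn_pos h0).le,
    ← div_eq_mul_inv]
  calc _ ≤ 2 * ‖d t‖ * ‖s t‖ / ‖s t‖ ^ 2 :=
        div_le_div₀ (by positivity) h2 (by positivity) (nn_ge _)
    _ = _ := by field_simp

lemma dzb_mul_conj {f g : ℂ → ℂ} {t g' : ℂ} (hf : DifferentiableAt ℂ f t) (hg : HasDerivAt g g' t) :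
    DifferentiableAt ℝ (fun w => f w * conj (g w)) t ∧
      dzb (fun w => f w * conj (g w)) t 1 = f t * conj g' := by
  have h1 : DifferentiableAt ℝ f t := hf.restrictScalars ℝ
  have h2 : DifferentiableAt ℝ (fun w => conj (g w)) t :=
    Complex.conjCLE.differentiableAt.comp t (hg.differentiableAt.restrictScalars ℝ)
  refine ⟨h1.mul h2, ?_⟩
  rw [dzb_mul h1 h2, dzb_holo hf, dzb_conj, dz_holo hg.differentiableAt, fderiv_apply_one_eq_deriv,
    hg.deriv, zero_mul, zero_add]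

lemma dzb_gg {s d : ℂ → ℂ × ℂ} {t : ℂ} (hs : HasDerivAt s (d t) t) (hd : DifferentiableAt ℂ d t)
    (h0 : s t ≠ 0) : dzb (gg s d) t 1 =
      ((‖det2 (d t) (s t)‖ ^ 2 / (‖(s t).1‖ ^ 2 + ‖(s t).2‖ ^ 2) ^ 2 : ℝ) : ℂ) := by
  have s1 : HasDerivAt (fun w => (s w).1) (d t).1 t := hs.fst
  have s2 : HasDerivAt (fun w => (s w).2) (d t).2 t := hs.snd
  obtain ⟨a1, b1⟩ := dzb_mul_conj hd.fst s1
  obtain ⟨a2, b2⟩ := dzb_mul_conj hd.snd s2
  obtain ⟨a3, b3⟩ := dzb_mul_conj s1.differentiableAt s1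
  obtain ⟨a4, b4⟩ := dzb_mul_conj s2.differentiableAt s2
  have hn : (s t).1 * conj (s t).1 + (s t).2 * conj (s t).2 ≠ 0 := by
    rw [nn_eq]
    exact_mod_cast (nn_pos h0).ne'
  have a5 := a3.fun_add a4
  unfold gg
  rw [dzb_mul (a1.fun_add a2) (a5.fun_inv hn), dzb_inv a5 hn, dzb_add a1 a2, dzb_add a3 a4,
    b1, b2, b3, b4, Complex.ofReal_div, Complex.ofReal_pow (_ + _), ← nn_eq, Complex.ofReal_pow,
    ← Complex.mul_conj', det2]
  simp only [map_sub, map_mul]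
  field_simp
  ring

end X1

open X1

theorem cutoff_finset (F : Finset ℂ) {K : Set ℂ} (hK : IsCompact K) (hKF : ∀ x ∈ F, x ∉ K)
    {η : ℝ} (hη : 0 < η) : ∃ κ : ℂ → ℝ, ContDiff ℝ ∞ κ ∧ HasCompactSupport κ ∧
      (∀ x, 0 ≤ κ x ∧ κ x ≤ 1) ∧ (∀ x ∈ K, κ x = 1) ∧ (∀ x ∈ F, x ∉ tsupport κ) ∧
      ∫ x, ‖fderiv ℝ κ x‖ ^ 2 ≤ η := by
  classical
  induction F using Finset.induction_on generalizing η with
  | empty =>
    obtain ⟨L, -, hL⟩ := log_cut hη
    obtain ⟨R, hR0, hR⟩ := hK.isBounded.exists_pos_norm_le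
    obtain ⟨B, h1, h2, h3, h4, h5⟩ := hL 0 R hR0
    exact ⟨B, h1, cs_of_zero 0 _ h4, h2, fun x hx => h3 x (by simpa using hR x hx), by simp, h5⟩
  | insert c F _ ih =>
    have hη' : 0 < η / 4 := by positivity
    obtain ⟨κ, k1, k2, k3, k4, k5, k6⟩ := ih (fun x hx => hKF x (Finset.mem_insert_of_mem hx)) hη'
    obtain ⟨L, hL0, hL⟩ := log_cut hη'
    obtain ⟨r, hr0, hr⟩ := Metric.isOpen_iff.1 hK.isClosed.isOpen_compl c
      (hKF c (Finset.mem_insert_self _ _))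
    obtain ⟨B, h1, h2, h3, h4, h5⟩ := hL c (r / L) (by positivity)
    have hB : HasCompactSupport B := cs_of_zero c _ h4
    refine ⟨fun x => κ x * (1 - B x), k1.mul (contDiff_const.sub h1), k2.mul_right,
      fun x => ⟨?_, ?_⟩, fun x hx => ?_, fun x hx => ?_, ?_⟩
    · exact mul_nonneg (k3 x).1 (by linarith [(h2 x).2])
    · exact mul_le_one₀ (k3 x).2 (by linarith [(h2 x).2]) (by linarith [(h2 x).1])
    · have : L * (r / L) ≤ ‖x - c‖ := by
        rw [mul_div_cancel₀ _ hL0.ne']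
        by_contra hc
        exact hr (mem_ball_iff_norm.2 (not_le.1 hc)) hx
      simp [k4 x hx, h4 x this]
    · rcases Finset.mem_insert.1 hx with rfl | hx
      · rw [notMem_tsupport_iff_eventuallyEq]
        filter_upwards [Metric.closedBall_mem_nhds x (show 0 < r / L by positivity)] with y hy
        simp [h3 y (mem_closedBall_iff_norm.1 hy)]
      · exact fun h => k5 x hx (tsupport_mul_subset_left h)
    · have key : ∀ x, ‖fderiv ℝ (fun x => κ x * (1 - B x)) x‖ ^ 2 ≤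
          2 * ‖fderiv ℝ κ x‖ ^ 2 + 2 * ‖fderiv ℝ B x‖ ^ 2 := fun x => by
        have d1 := k1.differentiable (by simp) x
        have d2 := h1.differentiable (by simp) x
        have : ‖fderiv ℝ (fun x => κ x * (1 - B x)) x‖ ≤ ‖fderiv ℝ B x‖ + ‖fderiv ℝ κ x‖ := by
          rw [fderiv_fun_mul d1 (d2.const_sub 1), fderiv_const_sub]
          refine (norm_add_le _ _).trans (add_le_add ?_ ?_)
          · rw [norm_smul, norm_neg, Real.norm_of_nonneg (k3 x).1]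
            exact mul_le_of_le_one_left (norm_nonneg _) (k3 x).2
          · rw [norm_smul, Real.norm_of_nonneg (by linarith [(h2 x).2])]
            exact mul_le_of_le_one_left (norm_nonneg _) (by linarith [(h2 x).1])
        have h6 := pow_le_pow_left₀ (norm_nonneg _) this 2
        nlinarith [sq_nonneg (‖fderiv ℝ B x‖ - ‖fderiv ℝ κ x‖)]
      have i1 := (int_energy k1 k2).const_mul 2
      have i2 := (int_energy h1 hB).const_mul 2
      refine (integral_mono_of_nonneg (Eventually.of_forall fun x => by positivity)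
        (i1.add i2) (Eventually.of_forall key)).trans ?_
      simp only [Pi.add_apply]
      rw [integral_add i1 i2, integral_const_mul, integral_const_mul]
      linarith

theorem area_bound : ∃ C : ℝ, ∀ a0 a1 a2 : ℂ × ℂ, a2 ≠ 0 →
    (∀ t : ℂ, a0 + t • a1 + t ^ 2 • a2 ≠ 0) → ∀ κ : ℂ → ℝ, Continuous κ → HasCompactSupport κ →
      (∀ t, 0 ≤ κ t ∧ κ t ≤ 1) →
      ∫ t : ℂ, κ t * (‖det2 (a1 + (2 * t) • a2) (a0 + t • a1 + t ^ 2 • a2)‖ ^ 2
        / (‖(a0 + t • a1 + t ^ 2 • a2).1‖ ^ 2 + ‖(a0 + t • a1 + t ^ 2 • a2).2‖ ^ 2) ^ 2) ≤ C := by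
  obtain ⟨C, hC0, hC⟩ := bu_fderiv
  refine ⟨108 * C, fun a0 a1 a2 h2 h0 κ _ hκ hκ1 => ?_⟩
  set s : ℂ → ℂ × ℂ := fun t => a0 + t • a1 + t ^ 2 • a2 with hs
  set d : ℂ → ℂ × ℂ := fun t => a1 + (2 * t) • a2 with hd
  set A : ℂ → ℝ := fun t => ‖det2 (d t) (s t)‖ ^ 2 / (‖(s t).1‖ ^ 2 + ‖(s t).2‖ ^ 2) ^ 2 with hA
  change ∫ t, κ t * A t ≤ _
  have hsd : ∀ t, HasDerivAt s (d t) t := fun t => by
    have := (((hasDerivAt_id t).smul_const a1).const_add a0).fun_add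
      ((hasDerivAt_pow 2 t).smul_const a2)
    refine this.congr_deriv ?_
    simp [hd]
  have hdd : ∀ t, DifferentiableAt ℂ d t := fun t => by
    rw [hd]
    fun_prop
  have hs1 : ContDiff ℝ 1 s := by
    have : ContDiff ℂ 1 s := by rw [hs]; fun_prop
    exact this.restrict_scalars ℝ
  have hd1 : ContDiff ℝ 1 d := by
    have : ContDiff ℂ 1 d := by rw [hd]; fun_prop
    exact this.restrict_scalars ℝ
  have hg := gg_cd hs1 hd1 h0
  have hz : ∀ t, dzb (gg s d) t 1 = (A t : ℂ) := fun t => dzb_gg (hsd t) (hdd t) (h0 t)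
  have hA0 : ∀ t, 0 ≤ A t := fun t => by positivity
  have hAc : Continuous A := by
    have c1 := hs1.continuous
    have c2 := hd1.continuous
    refine Continuous.div ?_ (by fun_prop) fun t => (pow_pos (nn_pos (h0 t)) 2).ne'
    unfold det2
    fun_prop
  have ha2 : 0 < ‖a2‖ := norm_pos_iff.2 h2
  obtain ⟨R0, hR0, hR⟩ := hκ.isCompact.isBounded.exists_pos_norm_le
  set R := R0 + 1 + 4 * (‖a0‖ + ‖a1‖) / ‖a2‖ with hRdef
  have hq : 0 ≤ 4 * (‖a0‖ + ‖a1‖) / ‖a2‖ := by positivity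
  have hRpos : 0 < R := by linarith
  have hgb : ∀ t, R ≤ ‖t‖ → ‖gg s d t‖ ≤ 12 / R := fun t ht => by
    have t1 : 1 ≤ ‖t‖ := by linarith
    have t2 : 4 * (‖a0‖ + ‖a1‖) ≤ ‖t‖ * ‖a2‖ := by
      rw [← div_le_iff₀ ha2]
      linarith
    have n0 := norm_nonneg a0
    have n1 := norm_nonneg a1
    have e1 : ‖d t‖ ≤ 3 * (‖t‖ * ‖a2‖) := by
      refine (norm_add_le _ _).trans ?_
      rw [norm_smul, norm_mul, Complex.norm_two]
      linarith
    have e2 : ‖t‖ * (‖t‖ * ‖a2‖) / 2 ≤ ‖s t‖ := by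
      have f1 := norm_sub_le (s t) (a0 + t • a1)
      have f2 : s t - (a0 + t • a1) = t ^ 2 • a2 := by simp [hs]
      have f3 := norm_add_le a0 (t • a1)
      rw [f2, norm_smul, norm_pow] at f1
      rw [norm_smul] at f3
      nlinarith
    refine (norm_gg s d t (h0 t)).trans ?_
    have hp : 0 < ‖t‖ * ‖a2‖ := by positivity
    calc _ ≤ 2 * (3 * (‖t‖ * ‖a2‖)) / (‖t‖ * (‖t‖ * ‖a2‖) / 2) :=
          div_le_div₀ (by positivity) (by linarith) (by positivity) e2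
      _ = 12 / ‖t‖ := by field_simp; norm_num
      _ ≤ 12 / R := by gcongr
  set k : ℂ → ℂ := fun t => (bu 0 R t : ℂ) with hk
  have hb1 : ContDiff ℝ 1 (bu 0 R) := (bu_contDiff 0 R).of_le (by simp)
  have hk1 : ContDiff ℝ 1 k := Complex.ofRealCLM.contDiff.comp hb1
  have hkc : HasCompactSupport k := (bu_cs 0 hRpos).comp_left (g := Complex.ofReal) rfl
  have hnk : ∀ t, ‖dzb k t 1‖ ≤ ‖fderiv ℝ (bu 0 R) t‖ := fun t => by
    refine (norm_dzb_le _ _ _).trans ?_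
    rw [norm_one, mul_one]
    refine ContinuousLinearMap.opNorm_le_bound _ (norm_nonneg _) fun v => ?_
    rw [hk, fderiv_ofReal_apply (hb1.differentiable one_ne_zero t), Complex.norm_real]
    exact ContinuousLinearMap.le_opNorm _ _
  have i1 : Integrable fun t => bu 0 R t * A t :=
    (hb1.continuous.mul hAc).integrable_of_hasCompactSupport (bu_cs 0 hRpos).mul_right
  have hzero := int_dzb (hk1.mul hg) hkc.mul_right
  have hcont : ∀ v : ℂ, Continuous fun t => fderiv ℝ k t v := fun v =>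
    (hk1.continuous_fderiv one_ne_zero).clm_apply continuous_const
  have i2 : Integrable fun t => dzb k t 1 * gg s d t := by
    refine Continuous.integrable_of_hasCompactSupport (Continuous.mul ?_ hg.continuous)
      (cs_of_zero 0 (2 * R) fun t ht => ?_)
    · unfold dzb
      exact ((hcont _).add (continuous_const.mul (hcont _))).div_const _
    · have := hnk t
      rw [bu_fderiv_zero hRpos (Or.inr (by linarith)), norm_zero, norm_le_zero_iff] at this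
      rw [this, zero_mul]
  have e1 : ∀ t, dzb (fun w => k w * gg s d w) t 1 =
      dzb k t 1 * gg s d t + ((bu 0 R t * A t : ℝ) : ℂ) := fun t => by
    rw [dzb_mul (hk1.differentiable one_ne_zero t) (hg.differentiable one_ne_zero t), hz]
    push_cast
    rfl
  simp only [e1] at hzero
  have i3 : Integrable fun t => ((bu 0 R t * A t : ℝ) : ℂ) := i1.ofReal
  rw [integral_add i2 i3, integral_complex_ofReal] at hzero
  have e2 : ∫ t, bu 0 R t * A t ≤ ∫ t, ‖dzb k t 1 * gg s d t‖ := by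
    refine le_trans ?_ (norm_integral_le_integral_norm _)
    rw [eq_neg_of_add_eq_zero_left hzero, norm_neg]
    exact (le_abs_self _).trans (le_of_eq (by simp))
  have e3 : ∫ t, ‖dzb k t 1 * gg s d t‖ ≤ C / R * (12 / R) * (4 * (3 / 2 * R) ^ 2) := by
    refine int_le (c := 0) (by positivity) (by positivity) (fun _ => norm_nonneg _)
      (fun t => ?_) fun t ht => ?_
    · rw [norm_mul]
      rcases lt_or_ge ‖t‖ R with h | h
      · have := hnk t
        rw [bu_fderiv_zero hRpos (Or.inl (by simpa using h)), norm_zero, norm_le_zero_iff] at this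
        rw [this, norm_zero, zero_mul]
        positivity
      · exact mul_le_mul ((hnk t).trans (hC 0 t R hRpos)) (hgb t h) (norm_nonneg _) (by positivity)
    · have := hnk t
      rw [bu_fderiv_zero hRpos (Or.inr ht), norm_zero, norm_le_zero_iff] at this
      rw [this, zero_mul, norm_zero]
  have e4 : ∫ t, κ t * A t ≤ ∫ t, bu 0 R t * A t := by
    refine integral_mono_of_nonneg
      (Eventually.of_forall fun t => mul_nonneg (hκ1 t).1 (hA0 t)) i1
      (Eventually.of_forall fun t => mul_le_mul_of_nonneg_right ?_ (hA0 t))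
    by_cases ht : t ∈ tsupport κ
    · rw [bu_one hRpos (by rw [sub_zero]; linarith [hR t ht])]
      exact (hκ1 t).2
    · rw [image_eq_zero_of_notMem_tsupport ht]
      exact (bu_mem _ _ _).1
  refine e4.trans (e2.trans (e3.trans (le_of_eq ?_)))
  field_simp
  ring

end A590
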