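import Mathlib

/-!
Definitions for MP_a590e5_an: foliations of projective space and directed positive closed currents.

Smooth forms on `P^k` are represented by their pull-backs to `C^(k+1) - 0`, i.e. by the basic
forms (invariant under scalars and horizontal).  Here `n = k + 1`.
-/

open scoped ComplexConjugate ComplexOrder ContDiff Topology

noncomputable section

namespace A590

/-- `C^n` with its Hermitian norm. -/
abbrev E (n : ℕ) : Type := EuclideanSpace ℂ (Fin n)

/-- The `(1,0)`-part of the differential of `g` at `z`, evaluated on the vector `v`. -/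
def dz {V : Type*} [NormedAddCommGroup V] [NormedSpace ℝ V] [SMul ℂ V]
    (g : V → ℂ) (z v : V) : ℂ :=
  (fderiv ℝ g z v - Complex.I * fderiv ℝ g z (Complex.I • v)) / 2

/-- The `(0,1)`-part of the differential of `g` at `z`, evaluated on the vector `v`. -/
def dzb {V : Type*} [NormedAddCommGroup V] [NormedSpace ℝ V] [SMul ℂ V]
    (g : V → ℂ) (z v : V) : ℂ :=
  (fderiv ℝ g z v + Complex.I * fderiv ℝ g z (Complex.I • v)) / 2

variable {n : ℕ}

/-- The Wirtinger derivative in `z_j`. -/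
def pd (j : Fin n) (g : E n → ℂ) (z : E n) : ℂ := dz g z (EuclideanSpace.single j 1)

/-- The Wirtinger derivative in the conjugate of `z_k`. -/
def pdb (k : Fin n) (g : E n → ℂ) (z : E n) : ℂ := dzb g z (EuclideanSpace.single k 1)

/-- `∑ α_j dz_j` is the pull-back of a smooth `(1,0)`-form on projective space. -/
def IsForm10 (α : E n → Fin n → ℂ) : Prop :=
  ContDiffOn ℝ ∞ α {0}ᶜ ∧
  (∀ z : E n, z ≠ 0 → ∀ c : ℂ, c ≠ 0 → ∀ j, α (c • z) j = c⁻¹ * α z j) ∧
  (∀ z : E n, z ≠ 0 → ∑ j, α z j * z j = 0)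

/-- `∑ β_k d(conj z_k)` is the pull-back of a smooth `(0,1)`-form on projective space. -/
def IsForm01 (β : E n → Fin n → ℂ) : Prop :=
  ContDiffOn ℝ ∞ β {0}ᶜ ∧
  (∀ z : E n, z ≠ 0 → ∀ c : ℂ, c ≠ 0 → ∀ k, β (c • z) k = (conj c)⁻¹ * β z k) ∧
  (∀ z : E n, z ≠ 0 → ∑ k, β z k * conj (z k) = 0)

/-- Coefficient matrices `φ_jk` of the forms `i ∑ φ_jk dz_j ∧ d(conj z_k)` that are pull-backs of
smooth `(1,1)`-forms on projective space. -/
def Form11 (n : ℕ) : Submodule ℂ (E n → Fin n → Fin n → ℂ) where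
  carrier := {φ | ContDiffOn ℝ ∞ φ {0}ᶜ ∧
    (∀ z : E n, z ≠ 0 → ∀ c : ℂ, c ≠ 0 → ∀ j k, φ (c • z) j k = (c * conj c)⁻¹ * φ z j k) ∧
    (∀ z : E n, z ≠ 0 → ∀ k, ∑ j, φ z j k * z j = 0) ∧
    (∀ z : E n, z ≠ 0 → ∀ j, ∑ k, φ z j k * conj (z k) = 0)}
  add_mem' := by
    rintro φ ψ ⟨h1, h2, h3, h4⟩ ⟨g1, g2, g3, g4⟩
    refine ⟨h1.add g1, fun z hz c hc j k => ?_, fun z hz k => ?_, fun z hz j => ?_⟩
    · simp only [Pi.add_apply, h2 z hz c hc, g2 z hz c hc, mul_add]
    · simp only [Pi.add_apply, add_mul, Finset.sum_add_distrib, h3 z hz, g3 z hz, add_zero]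
    · simp only [Pi.add_apply, add_mul, Finset.sum_add_distrib, h4 z hz, g4 z hz, add_zero]
  zero_mem' := ⟨contDiffOn_const, by simp, by simp, by simp⟩
  smul_mem' := by
    rintro a φ ⟨h1, h2, h3, h4⟩
    refine ⟨h1.const_smul a, fun z hz c hc j k => ?_, fun z hz k => ?_, fun z hz j => ?_⟩
    · simp only [Pi.smul_apply, smul_eq_mul, h2 z hz c hc]; ring
    · simp only [Pi.smul_apply, smul_eq_mul, mul_assoc, ← Finset.mul_sum, h3 z hz, mul_zero]
    · simp only [Pi.smul_apply, smul_eq_mul, mul_assoc, ← Finset.mul_sum, h4 z hz, mul_zero]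

/-- Linear functionals on smooth `(1,1)`-forms (currents of bidimension `(1,1)`). -/
abbrev Current (n : ℕ) : Type := Form11 n →ₗ[ℂ] ℂ

/-- `T` is nonnegative on positive forms. -/
def Positive (T : Current n) : Prop :=
  ∀ φ : Form11 n,
    (∀ z : E n, z ≠ 0 → ∀ v : E n, 0 ≤ ∑ j, ∑ k, φ.1 z j k * (v j * conj (v k))) → 0 ≤ T φ

/-- `T` is continuous for the sup norm of the coefficients on the unit sphere. -/
def OrderZero (T : Current n) : Prop :=
  ∃ C : ℝ, ∀ (φ : Form11 n) (M : ℝ),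
    (∀ z : E n, ‖z‖ = 1 → ∀ j k, ‖φ.1 z j k‖ ≤ M) → ‖T φ‖ ≤ C * M

/-- `dT = 0`: `T` kills the `(1,1)`-part of `d (α + β)` for all smooth `1`-forms `α + β`. -/
def Closed (T : Current n) : Prop :=
  ∀ α β : E n → Fin n → ℂ, IsForm10 α → IsForm01 β → ∀ φ : Form11 n,
    (∀ z : E n, z ≠ 0 → ∀ j k,
      φ.1 z j k = pd j (fun w => β w k) z - pdb k (fun w => α w j) z) → T φ = 0

/-- The singular set of the foliation defined by `V`: `V z` is parallel to `z`. -/
def Sing (V : E n → E n) : Set (E n) := {z | z ≠ 0 ∧ ∀ i j, z i * V z j = z j * V z i}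

/-- `T ∧ α = 0` on the regular set: for each smooth `(1,0)`-form `α` killing `V` and vanishing near
the singular set, `T (α ∧ γ) = 0` for all `(0,1)`-forms `γ`. -/
def Directed (V : E n → E n) (T : Current n) : Prop :=
  ∀ α γ : E n → Fin n → ℂ, IsForm10 α → IsForm01 γ →
    (∀ z : E n, z ≠ 0 → ∑ j, α z j * V z j = 0) →
    (∀ z ∈ Sing V, ∀ᶠ w in 𝓝 z, α w = 0) →
    ∀ φ : Form11 n, (∀ z : E n, z ≠ 0 → ∀ j k, φ.1 z j k = α z j * γ z k) → T φ = 0

/-- `T` kills every `(1,1)`-form whose contraction with `V` vanishes (no condition of support, so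
that the singular points are included). -/
def StronglyDirected (V : E n → E n) (T : Current n) : Prop :=
  ∀ φ : Form11 n, (∀ z : E n, z ≠ 0 → ∀ k, ∑ j, φ.1 z j k * V z j = 0) → T φ = 0

/-- Coefficient vectors of the homogeneous vector fields of degree `d` on `C^n`. -/
abbrev Coeff (n d : ℕ) : Type :=
  Fin n → (Finset.finsuppAntidiag (Finset.univ : Finset (Fin n)) d) → ℂ

/-- The `i`-th component of the field with coefficients `c`. -/
def poly {d : ℕ} (c : Coeff n d) (i : Fin n) : MvPolynomial (Fin n) ℂ :=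
  ∑ m, MvPolynomial.monomial m.1 (c i m)

/-- The vector field with coefficients `c`. -/
def field {d : ℕ} (c : Coeff n d) (z : E n) : E n :=
  WithLp.toLp 2 fun i => MvPolynomial.eval (fun j => z j) (poly c i)

/-- Fields defining a foliation of degree `d`: the minors `z_i F_j - z_j F_i` have no common
factor. -/
def Fol (n d : ℕ) : Set (Coeff n d) :=
  {c | ∀ g : MvPolynomial (Fin n) ℂ,
    (∀ i j, g ∣ MvPolynomial.X i * poly c j - MvPolynomial.X j * poly c i) → IsUnit g}

/-- Fields admitting a nonzero directed positive closed current. -/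
def Bc (n d : ℕ) : Set (Coeff n d) :=
  {c | ∃ T : Current n, T ≠ 0 ∧ Positive T ∧ Closed T ∧ Directed (field c) T}

/-- Fields admitting a nonzero strongly directed positive closed current of order zero. -/
def BcStrong (n d : ℕ) : Set (Coeff n d) :=
  {c | ∃ T : Current n, T ≠ 0 ∧ Positive T ∧ OrderZero T ∧ Closed T ∧
    StronglyDirected (field c) T}

/-- `A` is an analytic subset of `B`: near each point of `B` it is the common zero set in `B` of
finitely many holomorphic functions. -/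
def IsAnalyticSubset {X : Type*} [NormedAddCommGroup X] [NormedSpace ℂ X] (B A : Set X) : Prop :=
  A ⊆ B ∧ ∀ p ∈ B, ∃ U : Set X, IsOpen U ∧ p ∈ U ∧ ∃ (r : ℕ) (g : Fin r → X → ℂ),
    (∀ i, DifferentiableOn ℂ (g i) U) ∧ A ∩ U = {x ∈ B ∩ U | ∀ i, g i x = 0}

end A590
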