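import Pool.Agent.Lib.A590Core2
import Pool.Agent.Lib.A590Limit1

/-!
The drift lemma for MP_a590e5_an.
-/

open scoped ComplexConjugate ComplexOrder ContDiff Topology InnerProductSpace
open MeasureTheory Filter

noncomputable section

namespace A590

variable {n : ℕ}

namespace Off

theorem isOpen_notPar (q : E n) : IsOpen {z : E n | ∀ c : ℂ, z ≠ c • q} := by
  have h : {z : E n | ∀ c : ℂ, z ≠ c • q}
      = ((Submodule.span ℂ {q} : Submodule ℂ (E n)) : Set (E n))ᶜ := by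
    ext z
    simp [Submodule.mem_span_singleton, eq_comm]
  rw [h]
  exact (Submodule.closed_of_finiteDimensional _).isOpen_compl

theorem f_zero (S : Setup n) : S.f 0 = 0 := by
  have h := S.hf.hom 0 0
  have hr : S.r ≠ 0 := by have := S.hr; omega
  simpa [hr] using h

theorem q_ne (S : Setup n) : S.q ≠ 0 := fun h => S.hq (by rw [h, f_zero])

theorem rz_radial {a : E n → ℝ} {z : E n} (ha : DifferentiableAt ℝ a z)
    (h : ∀ c : ℂ, c ≠ 0 → a (c • z) = a z) : rz a z z = 0 := by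
  have h1 := (dz_radial (g := fun w => (a w : ℂ)) (differentiableAt_ofReal ha) 0 ?_).1
  · simpa [rz] using h1
  · filter_upwards [eventually_ne_nhds (one_ne_zero (α := ℂ))] with c hc
    simp [h c hc]

/-- A bump supported in `[t, s0 - t]`. -/
def chi (s0 t s : ℝ) : ℝ := st (s / t) * st ((s0 - s) / t)

theorem chi_contDiff (s0 t : ℝ) : ContDiff ℝ ∞ (chi s0 t) :=
  (st_contDiff.comp (contDiff_id.div_const t)).mul
    (st_contDiff.comp ((contDiff_const.sub contDiff_id).div_const t))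

theorem chi_nonneg (s0 t s : ℝ) : 0 ≤ chi s0 t s := mul_nonneg (st_nonneg _) (st_nonneg _)

theorem chi_ne {s0 t s : ℝ} (ht : 0 < t) (h : chi s0 t s ≠ 0) : t < s ∧ s < s0 - t := by
  constructor
  · by_contra h1
    exact h (by rw [chi, st_zero ((div_le_one ht).2 (not_lt.1 h1)), zero_mul])
  · by_contra h1
    exact h (by rw [chi, st_zero (x := (s0 - s) / t) ((div_le_one ht).2 (by linarith)), mul_zero])

theorem chi_pos {s0 t s : ℝ} (ht : 0 < t) (h1 : t < s) (h2 : s < s0 - t) : 0 < chi s0 t s :=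
  mul_pos (st_pos ((one_lt_div ht).2 h1)) (st_pos ((one_lt_div ht).2 (by linarith)))

theorem contAt_sP {F : Type*} [NormedAddCommGroup F] [InnerProductSpace ℂ F] {P : E n → F} {r : ℕ}
    (hP : HomMap P r) {z : E n} (hz : z ≠ 0) : ContDiffAt ℝ ∞ (sP P r) z :=
  hP.rhom0.cd.contDiffAt (isOpen_compl_singleton.mem_nhds hz)

/-- Near a nonzero multiple of `q` the bump vanishes. -/
theorem chi_ev (S : Setup n) {t : ℝ} (ht : 0 < t) {z : E n} (hz : z ≠ 0)
    (h : ¬ ∀ c : ℂ, z ≠ c • S.q) :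
    ∀ᶠ w in 𝓝 z, chi (sP S.f S.r S.q) t (sP S.f S.r w) = 0 := by
  push Not at h
  obtain ⟨c, rfl⟩ := h
  have hc : c ≠ 0 := fun h => hz (by rw [h, zero_smul])
  have h1 : sP S.f S.r (c • S.q) = sP S.f S.r S.q := S.hf.rhom0.hom _ (q_ne S) c hc
  have h2 : ∀ᶠ w in 𝓝 (c • S.q), sP S.f S.r S.q - t < sP S.f S.r w :=
    (contAt_sP S.hf hz).continuousAt.eventually (lt_mem_nhds (by rw [h1]; linarith))
  filter_upwards [h2] with w hw
  by_contra h3
  exact absurd (chi_ne ht h3).2 (not_lt.2 hw.le)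

theorem drift_t {S : Setup n} (D : Degen S) {a : E n → ℝ}
    (ha : ContDiffOn ℝ ∞ a {z | ∀ c : ℂ, z ≠ c • S.q})
    (ha0 : ∀ z : E n, (∀ c : ℂ, z ≠ c • S.q) → ∀ c : ℂ, c ≠ 0 → a (c • z) = a z)
    (haq : ∀ z : E n, (∀ c : ℂ, z ≠ c • S.q) → rz a z S.q = 0)
    (hs : ∀ᵐ ξ ∂(D.m0 : Measure (Xi n)), S.f ξ.z ≠ 0 → ‖S.f ξ.z‖ ^ 2 < sP S.f S.r S.q →
      0 < (conj (S.f ξ.z) * S.f ξ.z ^ S.j * (S.W ξ.z - S.r * S.f ξ.z * ⟪ξ.z, S.q⟫_ℂ)
        * conj (rz a ξ.z (S.Z ξ.z))).im) {t : ℝ} (ht : 0 < t) :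
    ∀ᵐ ξ ∂(D.m0 : Measure (Xi n)), chi (sP S.f S.r S.q) t (‖S.f ξ.z‖ ^ 2) = 0 := by
  set s0 := sP S.f S.r S.q with hs0
  have hO := isOpen_notPar S.q
  have hf := S.hf.cd.continuous
  have hZ := S.hZ.cd.continuous
  have hh := S.hh
  have hD := S.hf.cd.continuous_fderiv (by simp)
  have hχc := (chi_contDiff s0 t).continuous
  have haAt : ∀ z : E n, (∀ c : ℂ, z ≠ c • S.q) → ContDiffAt ℝ ∞ a z := fun z hz =>
    ha.contDiffAt (hO.mem_nhds hz)
  let ψ : E n → ℝ := fun z => a z * chi s0 t (sP S.f S.r z)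
  have hψ : RHom0 ψ := by
    constructor
    · intro z hz
      refine ContDiffAt.contDiffWithinAt ?_
      by_cases h : ∀ c : ℂ, z ≠ c • S.q
      · exact (haAt z h).mul ((chi_contDiff s0 t).contDiffAt.comp z (contAt_sP S.hf hz))
      · refine (contDiffAt_const (c := (0 : ℝ))).congr_of_eventuallyEq ?_
        filter_upwards [chi_ev S ht hz h] with w hw
        simp only [ψ, hs0, hw, mul_zero]
    · intro z hz c hc
      by_cases h : ∀ c : ℂ, z ≠ c • S.q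
      · simp only [ψ, ha0 z h c hc, S.hf.rhom0.hom z hz c hc]
      · have h1 := (chi_ev S ht hz h).self_of_nhds
        simp only [ψ, S.hf.rhom0.hom z hz c hc, hs0, h1, mul_zero]
  -- points where the bump does not vanish are off the line through `q`
  have hoff : ∀ ξ : Xi n, chi s0 t (‖S.f ξ.z‖ ^ 2) ≠ 0 → ∀ c : ℂ, ξ.z ≠ c • S.q := by
    intro ξ h
    by_contra h1
    have h2 := (chi_ev S ht ξ.z_ne h1).self_of_nhds
    rw [sP_unit] at h2
    exact h h2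
  -- the imaginary part of the integrand of the flux balance
  have him : ∀ ξ : Xi n, (conj (S.f ξ.z) * fderiv ℂ S.f ξ.z ξ.v * conj (rz ψ ξ.z ξ.v)).im
      = chi s0 t (‖S.f ξ.z‖ ^ 2)
        * (conj (S.f ξ.z) * fderiv ℂ S.f ξ.z ξ.v * conj (rz a ξ.z ξ.v)).im := by
    intro ξ
    by_cases h : ∀ c : ℂ, ξ.z ≠ c • S.q
    · have h1 : DifferentiableAt ℝ (sP S.f S.r) ξ.z :=
        (contAt_sP S.hf ξ.z_ne).differentiableAt (by simp)
      have h2 : DifferentiableAt ℝ (chi s0 t) (sP S.f S.r ξ.z) :=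
        (chi_contDiff s0 t).differentiable (by simp) _
      have h3 : rz ψ ξ.z ξ.v = rz a ξ.z ξ.v * chi s0 t (sP S.f S.r ξ.z)
          + a ξ.z * rz (fun w => chi s0 t (sP S.f S.r w)) ξ.z ξ.v :=
        rz_mul ((haAt _ h).differentiableAt (by simp)) (h2.comp _ h1) _
      rw [h3, rz_comp h2 h1, S.hf.rz_sP, sP_unit]
      simp only [RCLike.inner_apply, map_add, map_mul, Complex.conj_ofReal, Complex.conj_conj]
      generalize fderiv ℂ S.f ξ.z ξ.v = x
      generalize S.f ξ.z = y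
      generalize rz a ξ.z ξ.v = u
      simp only [Complex.mul_im, Complex.mul_re, Complex.add_re, Complex.add_im, Complex.conj_re,
        Complex.conj_im, Complex.ofReal_re, Complex.ofReal_im]
      ring
    · have h1 := chi_ev S ht ξ.z_ne h
      have h2 : rz ψ ξ.z ξ.v = 0 := by
        rw [rz_congr (h := fun _ => 0) (h1.mono fun w hw => by simp only [ψ, hs0, hw, mul_zero]),
          rz_const]
      have h3 := h1.self_of_nhds
      rw [sP_unit] at h3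
      rw [h2, hs0, h3]; simp
  have hFB : ∀ k, ∫ ξ, chi s0 t (‖S.f ξ.z‖ ^ 2)
        * (conj (S.f ξ.z) * fderiv ℂ S.f ξ.z ξ.v * conj (rz a ξ.z ξ.v)).im
        ∂(D.m k : Measure (Xi n)) = 0 := by
    intro k
    have h1 := congrArg Complex.im
      (FB (D.closed k) S.hf hψ (β := fun _ => 1) fun _ _ => contDiffAt_const)
    rw [Complex.add_im, Complex.ofReal_im, zero_add, Complex.zero_im] at h1
    have h2 : Continuous fun ξ : Xi n =>
        conj (S.f ξ.z) * fderiv ℂ S.f ξ.z ξ.v * conj (rz ψ ξ.z ξ.v) := by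
      have := hψ.cont_rz Xi.continuous_v
      fun_prop
    have h3 := integral_im (Xi.integrable h2 (D.m k : Measure (Xi n)))
    simp only [RCLike.im_to_complex, him] at h3
    rw [h3, ← h1]
    simp
  let Y : Xi n → ℂ := fun ξ => chi s0 t (‖S.f ξ.z‖ ^ 2) * rz a ξ.z (S.Z ξ.z)
  have hY : Continuous Y := by
    rw [continuous_iff_continuousAt]
    intro ξ
    by_cases h : ∀ c : ℂ, ξ.z ≠ c • S.q
    · have h1 : ContDiffAt ℝ ∞ (fun w => (a w : ℂ)) ξ.z :=
        Complex.ofRealCLM.contDiff.contDiffAt.comp _ (haAt _ h)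
      have h2 : ContinuousAt (fun ξ : Xi n => rz a ξ.z (S.Z ξ.z)) ξ :=
        ContinuousAt.comp (f := fun ξ : Xi n => (ξ.z, S.Z ξ.z))
          (contDiffAt_dz h1 (S.Z ξ.z)).1.continuousAt (by fun_prop)
      exact ContinuousAt.mul (by fun_prop) h2
    · refine (continuousAt_const (y := (0 : ℂ))).congr ?_
      filter_upwards [Xi.continuous_z.continuousAt.eventually (chi_ev S ht ξ.z_ne h)] with w hw
      rw [sP_unit] at hw
      simp only [Y, hs0, hw]; simp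
  let N : ℝ × Xi n → ℝ := fun p => ‖S.V p.1 p.2.z - ⟪p.2.z, S.V p.1 p.2.z⟫_ℂ • p.2.z‖ ^ 2
  have hN : Continuous N := by
    simp only [N, Setup.V]
    fun_prop
  let K : Set (Xi n) := {ξ | t ≤ ‖S.f ξ.z‖ ^ 2 ∧ ‖S.f ξ.z‖ ^ 2 ≤ s0 - t}
  have hK : IsCompact K := by
    have h1 : Continuous fun ξ : Xi n => ‖S.f ξ.z‖ ^ 2 := by fun_prop
    exact ((isClosed_le continuous_const h1).inter (isClosed_le h1 continuous_const)).isCompact
  obtain ⟨c1, hc1, hc1'⟩ : ∃ c1 : ℝ, 0 < c1 ∧ ∀ ξ ∈ K, c1 ≤ N (0, ξ) := by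
    refine hK.exists_forall_le' (by fun_prop) fun ξ hξ => ?_
    have h1 : S.f ξ.z ≠ 0 := by
      intro h
      have := hξ.1
      rw [h] at this
      simp at this
      linarith
    refine pow_pos (norm_pos_iff.2 fun h => ?_) 2
    simp only [Setup.V, Complex.ofReal_zero, zero_smul, add_zero, inner_smul_right, mul_smul,
      ← smul_sub] at h
    have h2 : S.q = ⟪ξ.z, S.q⟫_ℂ • ξ.z :=
      sub_eq_zero.1 ((smul_eq_zero.1 h).resolve_left (pow_ne_zero _ h1))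
    have h3 : ⟪ξ.z, S.q⟫_ℂ ≠ 0 := fun h => q_ne S (by rw [h2, h, zero_smul])
    have h4 : s0 = ‖S.f ξ.z‖ ^ 2 := by
      rw [hs0, h2, S.hf.rhom0.hom _ ξ.z_ne _ h3, sP_unit]
    have := hξ.2
    linarith
  have hev : ∀ᶠ e in 𝓝 (0 : ℝ), ∀ ξ ∈ K, c1 / 2 < N (e, ξ) :=
    hK.eventually_forall_of_forall_eventually fun ξ hξ =>
      hN.continuousAt.eventually (lt_mem_nhds (by have := hc1' ξ hξ; linarith))
  let g : ℝ × Xi n → ℝ := fun p => (conj (S.f p.2.z) *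
      (S.f p.2.z ^ S.j * (S.W p.2.z - S.r * S.f p.2.z * ⟪p.2.z, S.q⟫_ℂ)
        + p.1 * S.f p.2.z * (S.h p.2.z - S.r * ⟪p.2.z, S.Z p.2.z⟫_ℂ)) * conj (Y p.2)).im
      / max (N p) (c1 / 2)
  have hmax : ∀ p, 0 < max (N p) (c1 / 2) := fun p => lt_max_of_lt_right (by linarith)
  have hg : Continuous g := by
    refine Continuous.div ?_ (by fun_prop) fun p => (hmax p).ne'
    simp only [Setup.W]
    fun_prop
  have hzero : ∀ᶠ k in atTop, ∫ ξ, g (D.ε k, ξ) ∂(D.m k : Measure (Xi n)) = 0 := by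
    filter_upwards [D.lim.eventually hev] with k hk
    have h1 : D.ε k * ∫ ξ, g (D.ε k, ξ) ∂(D.m k : Measure (Xi n)) = 0 := by
      rw [← integral_const_mul, ← hFB k]
      refine integral_congr_ae ?_
      filter_upwards [D.dir k] with ξ hξ
      by_cases h : chi s0 t (‖S.f ξ.z‖ ^ 2) = 0
      · simp [g, Y, h]
      · have h2 := chi_ne ht h
        have h3 := hk ξ ⟨h2.1.le, h2.2.le⟩
        have h4 := hoff ξ h
        set c := ⟪ξ.v, S.V (D.ε k) ξ.z⟫_ℂ with hc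
        have h5 : N (D.ε k, ξ) = ‖c‖ ^ 2 := by
          have h6 : S.V (D.ε k) ξ.z - ⟪ξ.z, S.V (D.ε k) ξ.z⟫_ℂ • ξ.z = c • ξ.v :=
            sub_eq_iff_eq_add'.2 hξ
          simp only [N, h6, norm_smul, ξ.norm_v, mul_one]
        have h6 : c * rz a ξ.z ξ.v = D.ε k * rz a ξ.z (S.Z ξ.z) := by
          rw [hc, ← hξ.rz_eq (rz_radial ((haAt _ h4).differentiableAt (by simp)) (ha0 _ h4)),
            Setup.V, rz_add_vec, rz_smul_vec, rz_smul_vec, haq _ h4]
          simp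
        have h7 : c * fderiv ℂ S.f ξ.z ξ.v
            = S.f ξ.z ^ S.j * (S.W ξ.z - S.r * S.f ξ.z * ⟪ξ.z, S.q⟫_ℂ)
              + D.ε k * S.f ξ.z * (S.h ξ.z - S.r * ⟪ξ.z, S.Z ξ.z⟫_ℂ) := by
          have h8 := congrArg (fderiv ℂ S.f ξ.z) hξ
          rw [map_add, map_smul, map_smul, S.hf.euler, ← hc] at h8
          simp only [Setup.V, map_add, map_smul, S.tang, inner_add_right, inner_smul_right,
            smul_eq_mul] at h8
          simp only [Setup.W]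
          linear_combination -h8
        have h8 : 0 < ‖c‖ ^ 2 := by rw [← h5]; linarith
        have h9 : (‖c‖ ^ 2 : ℝ) = c * conj c := by
          rw [Complex.mul_conj, Complex.normSq_eq_norm_sq]
        simp only [g, Y]
        rw [max_eq_left h3.le, h5, ← h7, ← mul_div_assoc, div_eq_iff h8.ne']
        have h10 : (D.ε k : ℂ) * (conj (S.f ξ.z) * (c * fderiv ℂ S.f ξ.z ξ.v) *
            conj ((chi s0 t (‖S.f ξ.z‖ ^ 2) : ℂ) * rz a ξ.z (S.Z ξ.z)))
            = (chi s0 t (‖S.f ξ.z‖ ^ 2) * ‖c‖ ^ 2 : ℝ) *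
              (conj (S.f ξ.z) * fderiv ℂ S.f ξ.z ξ.v * conj (rz a ξ.z ξ.v)) := by
          have h11 := congrArg conj h6
          simp only [map_mul, Complex.conj_ofReal] at h11 ⊢
          rw [Complex.ofReal_mul, h9]
          linear_combination (-(conj (S.f ξ.z) * c * fderiv ℂ S.f ξ.z ξ.v *
            (chi s0 t (‖S.f ξ.z‖ ^ 2) : ℂ))) * h11
        have h11 := congrArg Complex.im h10
        rw [Complex.im_ofReal_mul, Complex.im_ofReal_mul] at h11
        rw [h11]; ring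
    exact (mul_eq_zero.1 h1).resolve_left (D.pos k).ne'
  have hlim : ∫ ξ, g (0, ξ) ∂(D.m0 : Measure (Xi n)) = 0 :=
    tendsto_nhds_unique (D.tendsto_cont_real hg) (tendsto_const_nhds.congr' (hzero.mono
      fun k hk => hk.symm))
  have hval : ∀ ξ : Xi n, g (0, ξ) = chi s0 t (‖S.f ξ.z‖ ^ 2) *
      (conj (S.f ξ.z) * S.f ξ.z ^ S.j * (S.W ξ.z - S.r * S.f ξ.z * ⟪ξ.z, S.q⟫_ℂ)
        * conj (rz a ξ.z (S.Z ξ.z))).im / max (N (0, ξ)) (c1 / 2) := by
    intro ξ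
    simp only [g, Y]
    rw [← Complex.im_ofReal_mul]
    congr 2
    simp only [map_mul, Complex.conj_ofReal, Complex.ofReal_zero]
    ring
  have hpos : ∀ᵐ ξ ∂(D.m0 : Measure (Xi n)), chi s0 t (‖S.f ξ.z‖ ^ 2) ≠ 0 → 0 < g (0, ξ) := by
    filter_upwards [hs] with ξ hξ h
    have h2 := chi_ne ht h
    have h1 : S.f ξ.z ≠ 0 := by
      intro h
      have := h2.1
      rw [h] at this
      simp at this
      linarith
    rw [hval]
    exact div_pos (mul_pos (lt_of_le_of_ne (chi_nonneg _ _ _) (Ne.symm h))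
      (hξ h1 (by linarith [h2.2]))) (hmax _)
  have hnn : ∀ᵐ ξ ∂(D.m0 : Measure (Xi n)), 0 ≤ g (0, ξ) := by
    filter_upwards [hpos] with ξ hξ
    by_cases h : chi s0 t (‖S.f ξ.z‖ ^ 2) = 0
    · rw [hval, h]; simp
    · exact (hξ h).le
  rw [integral_eq_zero_iff_of_nonneg_ae hnn (Xi.integrable (by fun_prop) _)] at hlim
  filter_upwards [hlim, hpos] with ξ h1 h2
  by_contra h
  exact (h2 h).ne' h1

end Off

theorem Degen.drift {S : Setup n} (D : Degen S) {a : E n → ℝ}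
    (ha : ContDiffOn ℝ ∞ a {z | ∀ c : ℂ, z ≠ c • S.q})
    (ha0 : ∀ z : E n, (∀ c : ℂ, z ≠ c • S.q) → ∀ c : ℂ, c ≠ 0 → a (c • z) = a z)
    (haq : ∀ z : E n, (∀ c : ℂ, z ≠ c • S.q) → rz a z S.q = 0)
    (hs : ∀ᵐ ξ ∂(D.m0 : Measure (Xi n)), S.f ξ.z ≠ 0 → ‖S.f ξ.z‖ ^ 2 < sP S.f S.r S.q →
      0 < (conj (S.f ξ.z) * S.f ξ.z ^ S.j * (S.W ξ.z - S.r * S.f ξ.z * ⟪ξ.z, S.q⟫_ℂ)
        * conj (rz a ξ.z (S.Z ξ.z))).im) :
    ∀ᵐ ξ ∂(D.m0 : Measure (Xi n)), S.f ξ.z ≠ 0 → sP S.f S.r S.q ≤ ‖S.f ξ.z‖ ^ 2 := by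
  have h := ae_all_iff.2 fun i : ℕ =>
    Off.drift_t D ha ha0 haq hs (t := 1 / ((i : ℝ) + 1)) Nat.one_div_pos_of_nat
  filter_upwards [h] with ξ hξ h0
  by_contra h1
  have h2 : 0 < min (‖S.f ξ.z‖ ^ 2) (sP S.f S.r S.q - ‖S.f ξ.z‖ ^ 2) :=
    lt_min (by positivity) (by linarith)
  obtain ⟨i, hi⟩ := exists_nat_one_div_lt h2
  have h3 := lt_of_lt_of_le hi (min_le_left _ _)
  have h4 := lt_of_lt_of_le hi (min_le_right _ _)
  exact (Off.chi_pos Nat.one_div_pos_of_nat h3 (by linarith)).ne' (hξ i)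

end A590
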