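import Pool.Agent.Lib.A590Exist3

/-!
Block X2, part 4: energy bounds and the existence of the current.
-/

open scoped ComplexConjugate ComplexOrder ContDiff Topology InnerProductSpace
open MeasureTheory Filter

noncomputable section

namespace A590

namespace X2

variable {c d u p : ℂ} {H : ℂ → ℂ × ℂ → ℝ} {g : ℝ} {F : Finset ℂ}

theorem Dat.area_x (D : Dat c d u H g F) (hN : Nice c d u) : ∃ C : ℝ, 0 ≤ C ∧ ∀ x ∉ F, ∀ y,
    y ^ 4 = x ^ 4 - 1 → ∀ κ : ℂ → ℝ, Continuous κ → HasCompactSupport κ →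
      (∀ t, 0 ≤ κ t ∧ κ t ≤ 1) →
      Integrable (fun t => κ t * (‖zx c d x y t‖ ^ 2 * wg H c d x y t)) ∧
      ∫ t, κ t * (‖zx c d x y t‖ ^ 2 * wg H c d x y t) ≤ C := by
  obtain ⟨C, hC⟩ := area_bound
  have hg := D.hg
  refine ⟨4 / g ^ 2 * max C 0, by positivity, fun x hx y hy κ k1 k2 k3 => ?_⟩
  obtain ⟨φ1, φ2, hφ⟩ := D.loc x (D.ne x hx)
  have h := hφ.self_of_nhds
  have hd := h.det_ne hg
  have hy0 := norm_pos_iff.2 (root_ne hy (D.ne x hx))
  have hpos := fun t => det_ne hd (D.sne x hx y t hy)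
  obtain ⟨L, hL⟩ : ∃ L : ℂ × ℂ → ℂ × ℂ, L = fun w => (det2 (φ1 x) w, det2 (φ2 x) w) := ⟨_, rfl⟩
  have hL0 : ∀ w, w ≠ 0 → L w ≠ 0 := fun w hw h0 => by
    have := det_ne hd hw
    rw [hL, Prod.mk_eq_zero] at h0
    rw [h0.1, h0.2] at this
    simp at this
  have e1 : ∀ t, L (y, 0) + t • L (0, y * P0 c d x 1) + t ^ 2 • L (P0 c d x 1, Q0 x y 1)
      = L (sv c d x y t) := fun t => by
    rw [hL]; ext <;> simp [det2, sv, s1, s2] <;> ring
  have e2 : ∀ t, L (0, y * P0 c d x 1) + (2 * t) • L (P0 c d x 1, Q0 x y 1)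
      = L (svt c d x y t) := fun t => by
    rw [hL]; ext <;> simp [det2, svt] <;> ring
  have e3 : ∀ a b, det2 (L a) (L b) = det2 (φ1 x) (φ2 x) * det2 a b := fun a b => by
    rw [hL]; simp only [det2]; ring
  have key := hC (L (y, 0)) (L (0, y * P0 c d x 1)) (L (P0 c d x 1, Q0 x y 1))
    (hL0 _ fun h0 => by
      rw [Prod.mk_eq_zero] at h0
      rcases hN.noPQ x y (fF_eq hy) with h1 | h1
      · exact h1 h0.1
      · exact h1 h0.2)
    (fun t => by rw [e1]; exact hL0 _ (D.sne x hx y t hy)) κ k1 k2 k3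
  simp only [e1, e2, e3] at key
  constructor
  · refine Continuous.integrable_of_hasCompactSupport (k1.mul ?_) k2.mul_right
    simp only [wg, h.2.2.2]
    refine Continuous.mul (by unfold zx AA; fun_prop) (continuous_const.div ?_ fun t => ?_)
    · unfold det2 sv s1 s2; fun_prop
    · have := hpos t
      positivity
  · refine le_trans (le_of_eq ?_) (mul_le_mul_of_nonneg_left (key.trans (le_max_left _ _))
      (by positivity))
    rw [← integral_const_mul]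
    congr 1
    funext t
    have := hpos t
    simp only [wg, h.2.2.2, zx_eq, norm_mul, h.2.2.1, hL, norm_pow, Complex.norm_ofNat]
    field_simp
    ring

theorem Dat.H_lower (D : Dat c d u H g F) {K : Set ℂ} (hK : IsCompact K) (hKF : ∀ x ∈ K, x ∉ F) :
    ∃ a : ℝ, 0 < a ∧ ∀ x ∈ K, ∀ w, a * ‖w‖ ^ 2 ≤ H x w := by
  refine hK.induction_on (p := fun S => ∃ a : ℝ, 0 < a ∧ ∀ x ∈ S, ∀ w, a * ‖w‖ ^ 2 ≤ H x w)
    ⟨1, one_pos, by simp⟩ ?_ ?_ ?_
  · rintro s t hst ⟨a, ha, h⟩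
    exact ⟨a, ha, fun x hx => h x (hst hx)⟩
  · rintro s t ⟨a, ha, h⟩ ⟨b, hb, h'⟩
    refine ⟨min a b, lt_min ha hb, fun x hx w => ?_⟩
    rcases hx with hx | hx
    · exact (mul_le_mul_of_nonneg_right (min_le_left _ _) (sq_nonneg _)).trans (h x hx w)
    · exact (mul_le_mul_of_nonneg_right (min_le_right _ _) (sq_nonneg _)).trans (h' x hx w)
  · intro x0 hx0
    obtain ⟨φ1, φ2, hφ⟩ := D.loc x0 (D.ne x0 (hKF x0 hx0))
    have h := hφ.self_of_nhds
    have hg := D.hg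
    obtain ⟨R, hR⟩ : ∃ R, R = ‖φ1 x0‖ + ‖φ2 x0‖ + 1 := ⟨_, rfl⟩
    have hR0 : 0 < R := by rw [hR]; positivity
    have c1 : ∀ᶠ x in 𝓝 x0, ‖φ1 x‖ < R := (HasDerivAt.continuousAt h.1).norm.eventually_lt
      continuousAt_const (by rw [hR]; linarith [norm_nonneg (φ2 x0)])
    have c2 : ∀ᶠ x in 𝓝 x0, ‖φ2 x‖ < R := (HasDerivAt.continuousAt h.2.1).norm.eventually_lt
      continuousAt_const (by rw [hR]; linarith [norm_nonneg (φ1 x0)])
    refine ⟨_, mem_nhdsWithin_of_mem_nhds ((hφ.and c1).and c2), g ^ 2 / (2 * R ^ 2),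
      by positivity, fun x hx w => ?_⟩
    obtain ⟨⟨hx, h1⟩, h2⟩ := hx
    have e : det2 (φ1 x) (φ2 x) • w = det2 (φ1 x) w • φ2 x - det2 (φ2 x) w • φ1 x := by
      ext <;> simp [det2] <;> ring
    have e' : g * ‖w‖ ≤ ‖det2 (φ1 x) w‖ * R + ‖det2 (φ2 x) w‖ * R := by
      rw [← hx.2.2.1, ← norm_smul, e]
      refine (norm_sub_le _ _).trans ?_
      rw [norm_smul, norm_smul]
      gcongr
    rw [hx.2.2.2, div_mul_eq_mul_div, div_le_iff₀ (by positivity), ← mul_pow]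
    refine (pow_le_pow_left₀ (by positivity) e' 2).trans ?_
    nlinarith [sq_nonneg ((‖det2 (φ1 x) w‖ - ‖det2 (φ2 x) w‖) * R)]

theorem Dat.zt_bound (D : Dat c d u H g F) (hN : Nice c d u) {K : Set ℂ} (hK : IsCompact K)
    (hKF : ∀ x ∈ K, x ∉ F) : ∃ B : ℝ, 0 ≤ B ∧ ∀ x ∈ K, ∀ y, y ^ 4 = x ^ 4 - 1 → ∀ t,
      ‖zt c d u x y t‖ ^ 2 * wg H c d x y t ≤ B := by
  obtain ⟨a, ha, hH⟩ := D.H_lower hK hKF
  obtain ⟨R, hR0, hR⟩ := hK.isBounded.exists_pos_norm_le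
  obtain ⟨zh, hzh⟩ : ∃ zh : (ℂ × ℂ) × ℂ × ℂ → ℂ, zh = fun w =>
    cb4 c d u w.1.1 w.1.2 * w.2.1 ^ 4 + cb3 c d u w.1.1 w.1.2 * w.2.1 ^ 3 * w.2.2
      + cb2 c d u w.1.1 w.1.2 * w.2.1 ^ 2 * w.2.2 ^ 2 + cb1 c d u w.1.1 * w.2.1 * w.2.2 ^ 3
      + cb0 c d u w.1.1 * w.2.2 ^ 4 := ⟨_, rfl⟩
  obtain ⟨sh, hsh⟩ : ∃ sh : (ℂ × ℂ) × ℂ × ℂ → ℂ × ℂ, sh = fun w =>
    (P0 c d w.1.1 1 * w.2.1 ^ 2 + w.1.2 * w.2.2 ^ 2,
      Q0 w.1.1 w.1.2 1 * w.2.1 ^ 2 + w.1.2 * P0 c d w.1.1 1 * w.2.1 * w.2.2) := ⟨_, rfl⟩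
  have e1 : ∀ x y t s : ℂ, zh ((x, y), (s * t, s)) = s ^ 4 * zt c d u x y t := fun x y t s => by
    rw [hzh, zt, ZT_expand]; ring
  have e2 : ∀ x y t s : ℂ, sh ((x, y), (s * t, s)) = s ^ 2 • sv c d x y t := fun x y t s => by
    rw [hsh]; ext <;> simp [sv, s1, s2] <;> ring
  obtain ⟨S, hS⟩ : ∃ S : Set ((ℂ × ℂ) × ℂ × ℂ), S = ((K ×ˢ Metric.closedBall (0 : ℂ) (R + 1)) ×ˢ
    Metric.sphere (0 : ℂ × ℂ) 1) ∩ {w | w.1.2 ^ 4 = w.1.1 ^ 4 - 1} := ⟨_, rfl⟩
  have hSc : IsCompact S := by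
    rw [hS]
    exact ((hK.prod (isCompact_closedBall _ _)).prod (isCompact_sphere _ _)).inter_right
      (isClosed_eq (by fun_prop) (by fun_prop))
  have hcont : ContinuousOn (fun w => ‖zh w‖ ^ 2 / (‖w.1.2‖ ^ 4 * ‖sh w‖ ^ 4)) S := by
    refine ContinuousOn.div (Continuous.continuousOn ?_) (Continuous.continuousOn ?_) ?_
    · rw [hzh]; unfold cb0 cb1 cb2 cb3 cb4; fun_prop
    · rw [hsh]; unfold P0 Q0; fun_prop
    · rintro ⟨⟨x, y⟩, T, s⟩ hw
      rw [hS] at hw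
      obtain ⟨⟨⟨hx, -⟩, hT⟩, hy⟩ := hw
      have hy0 := norm_pos_iff.2 (root_ne hy (D.ne x (hKF x hx)))
      have : sh ((x, y), T, s) ≠ 0 := by
        rcases eq_or_ne s 0 with rfl | hs
        · have hT0 : T ≠ 0 := by
            rintro rfl
            simp at hT
          intro h0
          rw [hsh, Prod.mk_eq_zero] at h0
          rcases hN.noPQ x y (fF_eq hy) with h1 | h1
          · simpa [h1, hT0] using h0.1
          · simpa [h1, hT0] using h0.2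
        · have := e2 x y (T / s) s
          rw [mul_div_cancel₀ _ hs] at this
          rw [this]
          exact smul_ne_zero (pow_ne_zero 2 hs) (D.sne x (hKF x hx) y _ hy)
      have := norm_pos_iff.2 this
      dsimp only at hy0 ⊢
      positivity
  obtain ⟨B, hB⟩ := hSc.exists_bound_of_continuousOn hcont
  refine ⟨max B 0 / a ^ 2, by positivity, fun x hx y hy t => ?_⟩
  have hn : 0 < ‖(t, (1 : ℂ))‖ := norm_pos_iff.2 (by simp)
  obtain ⟨s, hs⟩ : ∃ s : ℂ, s = ((‖(t, (1 : ℂ))‖⁻¹ : ℝ) : ℂ) := ⟨_, rfl⟩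
  have hs0 : 0 < ‖s‖ := by
    rw [hs, Complex.norm_real, Real.norm_of_nonneg (by positivity)]; positivity
  have hmem : ((x, y), (s * t, s)) ∈ S := by
    rw [hS]
    refine ⟨⟨⟨hx, ?_⟩, ?_⟩, hy⟩
    · rw [mem_closedBall_zero_iff]
      refine le_of_pow_le_pow_left₀ (n := 4) (by norm_num) (by positivity) ?_
      rw [← norm_pow, hy]
      refine (norm_sub_le _ _).trans ?_
      rw [norm_pow, norm_one]
      have := pow_le_pow_left₀ (norm_nonneg x) (hR x hx) 4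
      nlinarith [pow_pos hR0 3, pow_pos hR0 2]
    · have : (s * t, s) = s • (t, (1 : ℂ)) := by ext <;> simp
      rw [mem_sphere_zero_iff_norm]
      dsimp only
      rw [this, norm_smul, hs, Complex.norm_real, Real.norm_of_nonneg (by positivity),
        inv_mul_cancel₀ hn.ne']
  have h1 := (le_abs_self _).trans ((hB _ hmem).trans (le_max_left B 0))
  have hy0 := norm_pos_iff.2 (root_ne hy (D.ne x (hKF x hx)))
  have hv := norm_pos_iff.2 (D.sne x (hKF x hx) y t hy)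
  rw [e1, e2, norm_mul, norm_smul, norm_pow, norm_pow] at h1
  have h2 : ‖zt c d u x y t‖ ^ 2 / (‖y‖ ^ 4 * ‖sv c d x y t‖ ^ 4) ≤ max B 0 := by
    refine le_trans (le_of_eq ?_) h1
    field_simp
  have h3 : wg H c d x y t ≤ 1 / (‖y‖ ^ 4 * (a * ‖sv c d x y t‖ ^ 2) ^ 2) := by
    unfold wg
    have := hH x hx (sv c d x y t)
    gcongr
  calc ‖zt c d u x y t‖ ^ 2 * wg H c d x y t
      ≤ ‖zt c d u x y t‖ ^ 2 * (1 / (‖y‖ ^ 4 * (a * ‖sv c d x y t‖ ^ 2) ^ 2)) := by gcongr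
    _ = ‖zt c d u x y t‖ ^ 2 / (‖y‖ ^ 4 * ‖sv c d x y t‖ ^ 4) / a ^ 2 := by field_simp
    _ ≤ max B 0 / a ^ 2 := by gcongr

theorem Dat.mass_lower (D : Dat c d u H g F) (hN : Nice c d u) (p : ℂ) :
    ∃ x0 t0 : ℂ, ∃ r δ : ℝ, 0 < δ ∧ (∀ x ∈ F, x ∉ Metric.closedBall x0 r) ∧
      ∀ k, Cut F k → (∀ q ∈ Metric.closedBall (x0, t0) r, k q = 1) → δ ≤ MM c d u p H k := by
  obtain ⟨x0, hx0⟩ := Infinite.exists_notMem_finset F
  have hy := root_i 0 x0
  have hy0 := root_ne hy (D.ne x0 hx0)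
  obtain ⟨t0, ht0⟩ := (ruling_roots hN (fF_eq hy) (by simp)).infinite_compl.nonempty
  have hpos : 0 < SS (mm c d u p H) (x0, t0) := by
    refine Finset.sum_pos' (fun i _ => mm_nonneg _ _ _) ⟨0, Finset.mem_univ _, ?_⟩
    refine mul_pos (fs_pos (pt_ne _ _ _) (i := 2) (j := 0) ?_) (D.wg_pos hx0 hy t0)
    have k1 := cross_UX c d x0 (Complex.I ^ ((0 : Fin 4) : ℕ) * y0 x0) 1 t0
    have k2 := mul_ne_zero (mul_ne_zero (two_ne_zero (α := ℂ)) ht0) (pow_ne_zero 3 hy0)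
    rw [← k1, sub_ne_zero] at k2
    simpa [pt, Z4] using k2
  have ev1 : ∀ᶠ q in 𝓝 (x0, t0), SS (mm c d u p H) (x0, t0) / 2 < SS (mm c d u p H) q :=
    continuousAt_const.eventually_lt (D.reg_mm.continuousAt D hx0) (by linarith)
  have ev2 : ∀ᶠ q : ℂ × ℂ in 𝓝 (x0, t0), q.1 ∉ F :=
    (continuous_fst.tendsto (x0, t0)).eventually
      (F.finite_toSet.isClosed.isOpen_compl.mem_nhds hx0)
  obtain ⟨r, hr0, hr⟩ := Metric.nhds_basis_closedBall.eventually_iff.1 (ev1.and ev2)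
  have hfin : volume (Metric.closedBall (x0, t0) r) ≠ ⊤ :=
    (isCompact_closedBall _ _).measure_lt_top.ne
  have hv : 0 < volume.real (Metric.closedBall (x0, t0) r) :=
    ENNReal.toReal_pos (Metric.measure_closedBall_pos _ _ hr0).ne' hfin
  refine ⟨x0, t0, r, volume.real (Metric.closedBall (x0, t0) r) * (SS (mm c d u p H) (x0, t0) / 2),
    by positivity, fun x hx h => ?_, fun k K hk => ?_⟩
  · refine (hr (x := (x, t0)) ?_).2 hx
    rw [← closedBall_prod_same]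
    exact ⟨h, Metric.mem_closedBall_self hr0.le⟩
  · rw [← smul_eq_mul, ← integral_indicator_const _ Metric.isClosed_closedBall.measurableSet]
    refine integral_mono ((integrable_indicator_iff Metric.isClosed_closedBall.measurableSet).2
      (integrableOn_const hfin)) (D.int_mm K) fun q => ?_
    by_cases hq : q ∈ Metric.closedBall (x0, t0) r
    · simp only [Set.indicator_of_mem hq, hk q hq, one_mul]
      exact (hr hq).1.le
    · simp only [Set.indicator_of_notMem hq]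
      exact mul_nonneg (mul_self_nonneg _) (SS_mm_nonneg q)

theorem norm_dzb_real {κ : ℂ → ℝ} (hκ : ContDiff ℝ ∞ κ) (x a : ℂ) :
    ‖dzb (fun w => (κ w : ℂ)) x a‖ ≤ ‖fderiv ℝ κ x‖ * ‖a‖ := by
  refine (norm_dzb_le _ _ _).trans (mul_le_mul_of_nonneg_right ?_ (norm_nonneg _))
  have := (Complex.ofRealCLM.hasFDerivAt.comp x (hκ.differentiable (by simp) x).hasFDerivAt).fderiv
  rw [show (fun w => (κ w : ℂ)) = Complex.ofRealCLM ∘ κ from rfl, this]
  refine (ContinuousLinearMap.opNorm_comp_le _ _).trans ?_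
  rw [Complex.ofRealCLM_norm, one_mul]

theorem norm_dzb_prod {κ κ' : ℂ → ℝ} (hκ : ContDiff ℝ ∞ κ) (hκ' : ContDiff ℝ ∞ κ') (x t a b : ℂ) :
    ‖dzb (fun q : ℂ × ℂ => ((κ q.1 * κ' q.2 : ℝ) : ℂ)) (x, t) (a, b)‖ ^ 2
      ≤ 2 * (‖fderiv ℝ κ x‖ ^ 2 * κ' t ^ 2) * ‖a‖ ^ 2
        + 2 * (κ x ^ 2 * ‖fderiv ℝ κ' t‖ ^ 2) * ‖b‖ ^ 2 := by
  have c1 : Differentiable ℝ fun w => (κ w : ℂ) :=
    (Complex.ofRealCLM.contDiff.comp hκ).differentiable (by simp)
  have c2 : Differentiable ℝ fun w => (κ' w : ℂ) :=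
    (Complex.ofRealCLM.contDiff.comp hκ').differentiable (by simp)
  have h : ‖dzb (fun q : ℂ × ℂ => ((κ q.1 * κ' q.2 : ℝ) : ℂ)) (x, t) (a, b)‖
      ≤ ‖fderiv ℝ κ x‖ * ‖a‖ * |κ' t| + |κ x| * (‖fderiv ℝ κ' t‖ * ‖b‖) := by
    simp only [Complex.ofReal_mul]
    have d1 : DifferentiableAt ℝ (fun q : ℂ × ℂ => (κ q.1 : ℂ)) (x, t) :=
      DifferentiableAt.comp (g := fun w => (κ w : ℂ)) (x, t) (c1 x) differentiableAt_fst
    have d2 : DifferentiableAt ℝ (fun q : ℂ × ℂ => (κ' q.2 : ℂ)) (x, t) :=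
      DifferentiableAt.comp (g := fun w => (κ' w : ℂ)) (x, t) (c2 t) differentiableAt_snd
    rw [dzb_mul d1 d2]
    have e1 := dzb_comp_holo (G := fun w => (κ w : ℂ)) (x := fun q : ℂ × ℂ => q.1) (z := (x, t))
      (c1 _) differentiableAt_fst (a, b)
    have e2 := dzb_comp_holo (G := fun w => (κ' w : ℂ)) (x := fun q : ℂ × ℂ => q.2) (z := (x, t))
      (c2 _) differentiableAt_snd (a, b)
    rw [fderiv_fst] at e1
    rw [fderiv_snd] at e2
    refine (norm_add_le _ _).trans (add_le_add ?_ ?_)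
    · rw [norm_mul]
      refine mul_le_mul ?_ (by simp) (norm_nonneg _) (by positivity)
      exact e1.symm ▸ norm_dzb_real hκ x a
    · rw [norm_mul]
      refine mul_le_mul (by simp) ?_ (norm_nonneg _) (abs_nonneg _)
      exact e2.symm ▸ norm_dzb_real hκ' t b
  refine (pow_le_pow_left₀ (norm_nonneg _) h 2).trans ?_
  rw [← sq_abs (κ x), ← sq_abs (κ' t)]
  nlinarith [sq_nonneg (‖fderiv ℝ κ x‖ * ‖a‖ * |κ' t| - |κ x| * (‖fderiv ℝ κ' t‖ * ‖b‖))]

theorem Dat.reg_zx (D : Dat c d u H g F) :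
    Reg F fun x y t => ‖zx c d x y t‖ ^ 2 * wg H c d x y t := fun x0 hx y hy t0 =>
  ((zx_contDiffAt c d hy t0).continuousAt.norm.pow 2).mul (D.reg_wg x0 hx y hy t0)

theorem Dat.exists_cut (D : Dat c d u H g F) (hN : Nice c d u) {x0 : ℂ} (t0 : ℂ) {r : ℝ}
    (hr : ∀ x ∈ F, x ∉ Metric.closedBall x0 r) {e : ℝ} (he : 0 < e) :
    ∃ k, Cut F k ∧ (∀ q ∈ Metric.closedBall (x0, t0) r, k q = 1) ∧ ∃ b : ℂ × ℂ → ℝ, Integrable b ∧
      (∀ q, 0 ≤ b q) ∧ (∀ q : ℂ × ℂ, q.1 ∉ F → SS (fun x y t =>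
        ‖dzb (fun q => (k q : ℂ)) (x, t) (zx c d x y t, zt c d u x y t)‖ ^ 2 * wg H c d x y t) q
          ≤ b q) ∧ ∫ q, b q ≤ e := by
  obtain ⟨C, hC0, hC⟩ := D.area_x hN
  obtain ⟨κ, k1, k2, k3, k4, k5, k6⟩ := cutoff_finset F (isCompact_closedBall x0 r) hr
    (η := e / (16 * (C + 1))) (by positivity)
  obtain ⟨B, hB0, hB⟩ := D.zt_bound hN k2 fun x hx h => k5 x h hx
  obtain ⟨A, hA⟩ : ∃ A, A = ∫ x, κ x ^ 2 := ⟨_, rfl⟩
  have hA0 : 0 ≤ A := by rw [hA]; exact integral_nonneg fun x => sq_nonneg _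
  obtain ⟨κ', l1, l2, l3, l4, -, l6⟩ := cutoff_finset ∅ (isCompact_closedBall t0 r) (by simp)
    (η := e / (16 * (B * A + 1))) (by positivity)
  have en : ∀ {κ : ℂ → ℝ}, ContDiff ℝ ∞ κ → Continuous fun x => ‖fderiv ℝ κ x‖ ^ 2 := fun h =>
    (h.continuous_fderiv (by simp)).norm.pow 2
  have ens : ∀ κ : ℂ → ℝ, Function.support (fun x => ‖fderiv ℝ κ x‖ ^ 2) ⊆ tsupport κ :=
    fun κ x hx => by
      by_contra h
      apply hx
      simp [(notMem_tsupport_iff_eventuallyEq.1 h).fderiv_eq]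
  have sqs : ∀ κ : ℂ → ℝ, Function.support (fun x => κ x ^ 2) ⊆ tsupport κ :=
    fun κ x hx => subset_tsupport _ fun h => hx (by simp [h])
  have prod_supp : ∀ {a b : ℂ → ℝ}, Function.support a ⊆ tsupport κ →
      Function.support b ⊆ tsupport κ' →
      tsupport (fun q : ℂ × ℂ => a q.1 * b q.2) ⊆ tsupport κ ×ˢ tsupport κ' := fun ha hb =>
    closure_minimal (fun q hq => ⟨ha (left_ne_zero_of_mul hq), hb (right_ne_zero_of_mul hq)⟩)
      ((isClosed_tsupport _).prod (isClosed_tsupport _))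
  have hcp : IsCompact (tsupport κ ×ˢ tsupport κ') := IsCompact.prod k2 l2
  have i1 : Integrable fun q : ℂ × ℂ => ‖fderiv ℝ κ q.1‖ ^ 2 * κ' q.2 ^ 2
      * SS (fun x y t => ‖zx c d x y t‖ ^ 2 * wg H c d x y t) q :=
    D.reg_zx.integrable D (((en k1).comp continuous_fst).mul
      ((l1.continuous.pow 2).comp continuous_snd))
      (hcp.of_isClosed_subset (isClosed_tsupport _) (prod_supp (ens κ) (sqs κ')))
      fun q hq h => k5 _ h (prod_supp (ens κ) (sqs κ') hq).1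
  have j1 : Integrable fun x => κ x ^ 2 :=
    (k1.continuous.pow 2).integrable_of_hasCompactSupport (k2.mono' (sqs κ))
  have j2 : Integrable fun x => ‖fderiv ℝ κ' x‖ ^ 2 :=
    (en l1).integrable_of_hasCompactSupport (l2.mono' (ens κ'))
  have j3 : Integrable fun x => ‖fderiv ℝ κ x‖ ^ 2 :=
    (en k1).integrable_of_hasCompactSupport (k2.mono' (ens κ))
  have i2 : Integrable fun q : ℂ × ℂ => κ q.1 ^ 2 * ‖fderiv ℝ κ' q.2‖ ^ 2 := j1.mul_prod j2
  have n1 : ∀ q, 0 ≤ SS (fun x y t => ‖zx c d x y t‖ ^ 2 * wg H c d x y t) q := fun q =>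
    Finset.sum_nonneg fun _ _ => mul_nonneg (sq_nonneg _) (wg_nonneg _ _ _ _ _ _)
  refine ⟨fun q => κ q.1 * κ' q.2, ⟨(k1.comp contDiff_fst).mul (l1.comp contDiff_snd),
    hcp.of_isClosed_subset (isClosed_tsupport _)
      (prod_supp (subset_tsupport _) (subset_tsupport _)),
    fun q hq h => k5 _ h (prod_supp (subset_tsupport _) (subset_tsupport _) hq).1⟩,
    fun q hq => ?_, fun q => 2 * (‖fderiv ℝ κ q.1‖ ^ 2 * κ' q.2 ^ 2
      * SS (fun x y t => ‖zx c d x y t‖ ^ 2 * wg H c d x y t) q)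
      + 8 * B * (κ q.1 ^ 2 * ‖fderiv ℝ κ' q.2‖ ^ 2), (i1.const_mul _).add (i2.const_mul _),
    fun q => ?_, fun q hq => ?_, ?_⟩
  · rw [← closedBall_prod_same] at hq
    simp only [k4 _ hq.1, l4 _ hq.2, mul_one]
  · have := n1 q
    positivity
  · have : 8 * B * (κ q.1 ^ 2 * ‖fderiv ℝ κ' q.2‖ ^ 2)
        = ∑ _i : Fin 4, 2 * (κ q.1 ^ 2 * ‖fderiv ℝ κ' q.2‖ ^ 2) * B := by simp; ring
    dsimp only
    rw [this]
    unfold SS
    simp only [Finset.mul_sum, ← Finset.sum_add_distrib]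
    refine Finset.sum_le_sum fun i _ => ?_
    have hw := wg_nonneg H c d q.1 (Complex.I ^ (i : ℕ) * y0 q.1) q.2
    refine (mul_le_mul_of_nonneg_right (norm_dzb_prod k1 l1 _ _ _ _) hw).trans ?_
    rw [add_mul]
    refine add_le_add (le_of_eq (by ring)) ?_
    by_cases h : q.1 ∈ tsupport κ
    · rw [mul_assoc]
      exact mul_le_mul_of_nonneg_left (hB _ h _ (root_i i _) _) (by positivity)
    · simp [image_eq_zero_of_notMem_tsupport h]
  · rw [integral_add (i1.const_mul _) (i2.const_mul _), integral_const_mul, integral_const_mul]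
    have b2 : ∫ q : ℂ × ℂ, κ q.1 ^ 2 * ‖fderiv ℝ κ' q.2‖ ^ 2 = A * ∫ x, ‖fderiv ℝ κ' x‖ ^ 2 := by
      rw [hA]
      exact integral_prod_mul (fun x => κ x ^ 2) fun x => ‖fderiv ℝ κ' x‖ ^ 2
    have b1 : ∫ q : ℂ × ℂ, ‖fderiv ℝ κ q.1‖ ^ 2 * κ' q.2 ^ 2
        * SS (fun x y t => ‖zx c d x y t‖ ^ 2 * wg H c d x y t) q
          ≤ 4 * C * ∫ x, ‖fderiv ℝ κ x‖ ^ 2 := by
      rw [Measure.volume_eq_prod, integral_prod _ i1, ← integral_const_mul]
      refine integral_mono_of_nonneg (Eventually.of_forall fun x => integral_nonneg fun t => ?_)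
        (j3.const_mul _) (Eventually.of_forall fun x => ?_)
      · have := n1 (x, t)
        positivity
      · by_cases hx : x ∈ F
        · have : ‖fderiv ℝ κ x‖ ^ 2 = 0 := by
            by_contra h
            exact k5 x hx (ens κ h)
          simp [this]
        · have hh := fun i : Fin 4 => hC x hx _ (root_i i x) (fun t => κ' t ^ 2)
            (l1.continuous.pow 2) (l2.mono' (sqs κ'))
            fun t => ⟨sq_nonneg _, pow_le_one₀ (l3 t).1 (l3 t).2⟩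
          simp only [mul_assoc, SS, Finset.mul_sum]
          simp only [← Finset.mul_sum, integral_const_mul]
          simp only [Finset.mul_sum]
          rw [integral_finsetSum _ fun i _ => (hh i).1]
          calc _ ≤ ‖fderiv ℝ κ x‖ ^ 2 * ∑ _i : Fin 4, C :=
                mul_le_mul_of_nonneg_left (Finset.sum_le_sum fun i _ => (hh i).2) (sq_nonneg _)
            _ = _ := by simp; ring
    rw [b2]
    have h1 : 4 * C * ∫ x, ‖fderiv ℝ κ x‖ ^ 2 ≤ e / 4 := by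
      calc _ ≤ 4 * (C + 1) * (e / (16 * (C + 1))) :=
            mul_le_mul (by linarith) k6 (integral_nonneg fun x => sq_nonneg _) (by positivity)
        _ = e / 4 := by field_simp; norm_num
    have h2 : 8 * B * (A * ∫ x, ‖fderiv ℝ κ' x‖ ^ 2) ≤ e / 2 := by
      calc _ = 8 * (B * A) * ∫ x, ‖fderiv ℝ κ' x‖ ^ 2 := by ring
        _ ≤ 8 * (B * A + 1) * (e / (16 * (B * A + 1))) :=
            mul_le_mul (by linarith) l6 (integral_nonneg fun x => sq_nonneg _) (by positivity)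
        _ = e / 2 := by field_simp; norm_num
    linarith

theorem Dat.TT_split (D : Dat c d u H g F) {k : ℂ × ℂ → ℝ} (K : Cut F k)
    {α β : E 4 → Fin 4 → ℂ} (hα : IsForm10 α) (hβ : IsForm01 β) {ψ : E 4 → Fin 4 → Fin 4 → ℂ}
    (hψ : ∀ z : E 4, z ≠ 0 → ∀ j k,
      ψ z j k = pd j (fun w => β w k) z - pdb k (fun w => α w j) z) :
    TT c d u p H k ψ = conj (TT c d u p H k fun z j l => pdb l (fun w => conj (β w j)) z)
      - TT c d u p H k fun z j l => pdb l (fun w => α w j) z := by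
  have iA := D.int_itg (p := p) K (pdb_continuousOn hα)
  have iB := D.int_itg (p := p) K (pdb_continuousOn (form01_conj hβ))
  have iC : Integrable fun q => conj ((k q : ℂ) * k q
      * SS (itg c d u p H fun z j l => pdb l (fun w => conj (β w j)) z) q) :=
    Complex.conjCLE.toContinuousLinearMap.integrable_comp iB
  unfold TT
  rw [← integral_conj, ← integral_sub iC iA]
  congr 1
  funext q
  have : ∀ x y t, itg c d u p H ψ x y t
      = conj (itg c d u p H (fun z j l => pdb l (fun w => conj (β w j)) z) x y t)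
        - itg c d u p H (fun z j l => pdb l (fun w => α w j) z) x y t := fun x y t => by
    unfold itg ev
    simp only [hψ _ (pt_ne x y t), map_mul, map_sum, Complex.conj_ofReal, Complex.conj_conj, pdb,
      pd, dzb_conj, sub_mul, Finset.sum_sub_distrib]
    rw [Finset.sum_comm]
    simp only [mul_comm (conj _)]
  simp only [SS, this, Finset.sum_sub_distrib, map_mul, map_sum, Complex.conj_ofReal, mul_sub]

end X2

open X2

theorem exist4 {c d u p : ℂ} (hN : Nice c d u) (hU : Unitary c d u) {V : E 4 → E 4} {ε : ℂ}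
    (hV : ∀ z, f4 z = 0 → V z = ε • Z4 c d u p z) (hε : ε ≠ 0) :
    ∃ T : Current 4, T ≠ 0 ∧ Positive T ∧ Closed T ∧ StronglyDirected V T := by
  classical
  obtain ⟨H, g, hg, hH⟩ := hU
  have hf1 : {x : ℂ | x ^ 4 = 1}.Finite := by
    refine (Polynomial.nthRootsFinset 4 (1 : ℂ)).finite_toSet.subset fun x hx => ?_
    exact (Polynomial.mem_nthRootsFinset (by norm_num) _).2 hx
  obtain ⟨F, hF⟩ : ∃ F : Finset ℂ, F = (hN.finD.union hf1).toFinset := ⟨_, rfl⟩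
  have D : Dat c d u H g F := by
    refine ⟨hg, hN.rel, fun x hx h => hx (by rw [hF]; simp [h]), fun x hx y t hy => ?_, hH⟩
    refine s_ne (root_ne hy fun h => hx (by rw [hF]; simp [h])) fun h => hx ?_
    rw [hF, Set.Finite.mem_toFinset]
    exact Or.inl ⟨y, fF_eq hy, h⟩
  obtain ⟨x0, t0, r, δ, hδ, hr, hM⟩ := D.mass_lower hN p
  have hex := fun n : ℕ => D.exists_cut hN t0 hr (e := (1 / ((n : ℝ) + 1)) ^ 2) (by positivity)
  choose k K k1 b b1 b2 b3 b4 using hex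
  have hMδ : ∀ n, δ ≤ MM c d u p H (k n) := fun n => hM _ (K n) (k1 n)
  have hlim : ∀ α : E 4 → Fin 4 → ℂ, IsForm10 α → Tendsto (fun n =>
      (TT c d u p H (k n) fun z j l => pdb l (fun w => α w j) z) / MM c d u p H (k n)) atTop
      (𝓝 0) := fun α hα => by
    obtain ⟨C, hC0, hC⟩ := D.closed_est (p := p) hα
    have h0 : Tendsto (fun n : ℕ => (C + δ⁻¹) * (1 / ((n : ℝ) + 1))) atTop (𝓝 0) := by
      simpa using tendsto_one_div_add_atTop_nhds_zero_nat.const_mul (C + δ⁻¹)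
    refine squeeze_zero_norm (fun n => ?_) h0
    have hη : 0 < 1 / ((n : ℝ) + 1) := by positivity
    have h1 := hC (k n) (K n) _ hη (b n) (b1 n) (b2 n) (b3 n)
    have h2 := b4 n
    have h3 := hMδ n
    have h4 : 0 < MM c d u p H (k n) := hδ.trans_le h3
    rw [norm_div, Complex.norm_real, Real.norm_of_nonneg h4.le, div_le_iff₀ h4]
    refine h1.trans ?_
    generalize 1 / ((n : ℝ) + 1) = η at *
    generalize MM c d u p H (k n) = M at *
    have h5 : η⁻¹ * ∫ q, b n q ≤ η := by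
      calc _ ≤ η⁻¹ * η ^ 2 := mul_le_mul_of_nonneg_left h2 (inv_nonneg.2 hη.le)
        _ = η := by field_simp
    have h6 : 1 ≤ δ⁻¹ * M := by rw [← div_eq_inv_mul, le_div_iff₀ hδ]; linarith
    nlinarith [mul_le_mul_of_nonneg_left h6 hη.le]
  refine limit_current (fun n => D.cur p (K n)) (fun n => D.cur_pos (K n))
    (fun n => D.cur_dir (K n) hV hε) (fun n => MM c d u p H (k n)) (fun n => hδ.trans_le (hMδ n))
    (fun n => TT_om) (fun φ => ?_) fun α β hα hβ φ hφ => ?_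
  · obtain ⟨C, -, hC⟩ := form11_bound φ
    exact ⟨C, fun n => D.TT_bound (K n) hC⟩
  · have h1 := (Complex.continuous_conj.tendsto 0).comp (hlim _ (form01_conj hβ))
    have h2 := h1.sub (hlim _ hα)
    simp only [map_zero, sub_zero] at h2
    refine h2.congr fun n => ?_
    simp only [Function.comp, D.cur_apply, D.TT_split (K n) hα hβ hφ, map_div₀,
      Complex.conj_ofReal, sub_div]

end A590
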