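import Pool.Agent.Lib.A590Calc

/-!
Block X2, part 1: pointwise bounds for forms, the Fubini-Study form, limits of currents.
-/

open scoped ComplexConjugate ComplexOrder ContDiff Topology InnerProductSpace
open MeasureTheory Filter

noncomputable section

namespace A590.X2

variable {n : ℕ}

/-- Evaluation of a coefficient matrix on a vector. -/
def ev (ψ : Fin n → Fin n → ℂ) (v : E n) : ℂ := ∑ j, ∑ k, ψ j k * (v j * conj (v k))

/-- The component of `v` orthogonal to `z`. -/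
def perp (z v : E n) : E n := v - (⟪z, v⟫_ℂ / ((‖z‖ ^ 2 : ℝ) : ℂ)) • z

/-- The Fubini-Study length. -/
def fs (z v : E n) : ℝ := ‖perp z v‖ ^ 2 / ‖z‖ ^ 2

/-- The Fubini-Study form. -/
def om (z : E n) (j k : Fin n) : ℂ :=
  (if j = k then 1 else 0) / ((‖z‖ ^ 2 : ℝ) : ℂ) - conj (z j) * z k / ((‖z‖ ^ 2 : ℝ) : ℂ) ^ 2

theorem fs_nonneg (z v : E n) : 0 ≤ fs z v := by unfold fs; positivity

theorem ev_sub_smul {ψ : Fin n → Fin n → ℂ} {z : E n} (h1 : ∀ k, ∑ j, ψ j k * z j = 0)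
    (h2 : ∀ j, ∑ k, ψ j k * conj (z k) = 0) (v : E n) (a : ℂ) : ev ψ (v - a • z) = ev ψ v := by
  have e1 : ∀ w : E n, ∑ j, ∑ k, ψ j k * (z j * conj (w k)) = 0 := fun w => by
    rw [Finset.sum_comm]
    refine Finset.sum_eq_zero fun k _ => ?_
    have : ∑ j, ψ j k * (z j * conj (w k)) = (∑ j, ψ j k * z j) * conj (w k) := by
      rw [Finset.sum_mul]; exact Finset.sum_congr rfl fun j _ => by ring
    rw [this, h1, zero_mul]
  have e2 : ∀ w : E n, ∑ j, ∑ k, ψ j k * (w j * conj (z k)) = 0 := fun w => by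
    refine Finset.sum_eq_zero fun j _ => ?_
    have : ∑ k, ψ j k * (w j * conj (z k)) = w j * ∑ k, ψ j k * conj (z k) := by
      rw [Finset.mul_sum]; exact Finset.sum_congr rfl fun k _ => by ring
    rw [this, h2, mul_zero]
  have : ev ψ (v - a • z) = ev ψ v - a * ∑ j, ∑ k, ψ j k * (z j * conj ((v - a • z) k))
      - conj a * ∑ j, ∑ k, ψ j k * (v j * conj (z k)) := by
    unfold ev
    simp only [Finset.mul_sum, ← Finset.sum_sub_distrib]
    refine Finset.sum_congr rfl fun j _ => Finset.sum_congr rfl fun k _ => ?_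
    simp only [PiLp.sub_apply, PiLp.smul_apply, smul_eq_mul, map_sub, map_mul]
    ring
  rw [this, e1, e2]; ring

theorem sum_mul_conj (v : E n) : ∑ j, v j * conj (v j) = ((‖v‖ ^ 2 : ℝ) : ℂ) := by
  rw [EuclideanSpace.norm_sq_eq, Complex.ofReal_sum]
  refine Finset.sum_congr rfl fun j _ => ?_
  rw [Complex.mul_conj, Complex.normSq_eq_norm_sq]

theorem inner_eq_sum (z v : E n) : ⟪z, v⟫_ℂ = ∑ j, conj (z j) * v j := by
  simp [PiLp.inner_apply, mul_comm]

theorem normSq_ne {z : E n} (hz : z ≠ 0) : ((‖z‖ ^ 2 : ℝ) : ℂ) ≠ 0 := by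
  have : ‖z‖ ≠ 0 := norm_ne_zero_iff.2 hz
  exact_mod_cast pow_ne_zero 2 this

theorem inner_perp {z : E n} (hz : z ≠ 0) (v : E n) : ⟪z, perp z v⟫_ℂ = 0 := by
  have h := normSq_ne hz
  unfold perp
  rw [inner_sub_right, inner_smul_right, inner_self_eq_norm_sq_to_K]
  have : ((‖z‖ : ℂ)) ^ 2 = ((‖z‖ ^ 2 : ℝ) : ℂ) := by push_cast; rfl
  simp only [Complex.coe_algebraMap]
  rw [this, div_mul_cancel₀ _ h, sub_self]

theorem om_hor1 {z : E n} (hz : z ≠ 0) (k : Fin n) : ∑ j, om z j k * z j = 0 := by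
  have h := normSq_ne hz
  have e : ∑ j, om z j k * z j = z k / ((‖z‖ ^ 2 : ℝ) : ℂ)
      - (∑ j, z j * conj (z j)) * z k / ((‖z‖ ^ 2 : ℝ) : ℂ) ^ 2 := by
    unfold om
    simp only [sub_mul, Finset.sum_sub_distrib, Finset.sum_mul, Finset.sum_div]
    congr 1
    · rw [Finset.sum_eq_single k]
      · simp [div_eq_mul_inv, mul_comm]
      · intro b _ hb; simp [hb]
      · simp
    · exact Finset.sum_congr rfl fun j _ => by ring
  rw [e, sum_mul_conj]; field_simp; ring

theorem om_hor2 {z : E n} (hz : z ≠ 0) (j : Fin n) : ∑ k, om z j k * conj (z k) = 0 := by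
  have h := normSq_ne hz
  have e : ∑ k, om z j k * conj (z k) = conj (z j) / ((‖z‖ ^ 2 : ℝ) : ℂ)
      - (∑ k, z k * conj (z k)) * conj (z j) / ((‖z‖ ^ 2 : ℝ) : ℂ) ^ 2 := by
    unfold om
    simp only [sub_mul, Finset.sum_sub_distrib, Finset.sum_mul, Finset.sum_div]
    congr 1
    · rw [Finset.sum_eq_single j]
      · simp [div_eq_mul_inv, mul_comm]
      · intro b _ hb; simp [Ne.symm hb]
      · simp
    · exact Finset.sum_congr rfl fun j _ => by ring
  rw [e, sum_mul_conj]; field_simp; ring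

theorem ev_om {z : E n} (hz : z ≠ 0) (v : E n) : ev (om z) v = (fs z v : ℂ) := by
  have h := normSq_ne hz
  have e0 : ev (om z) v = ev (om z) (perp z v) :=
    (ev_sub_smul (om_hor1 hz) (om_hor2 hz) v _).symm
  obtain ⟨w, hw⟩ : ∃ w, w = perp z v := ⟨_, rfl⟩
  have hi : ∑ j, conj (z j) * w j = 0 := by rw [← inner_eq_sum, hw, inner_perp hz]
  have e : ev (om z) w = (∑ j, w j * conj (w j)) / ((‖z‖ ^ 2 : ℝ) : ℂ)
      - (∑ j, conj (z j) * w j) * (∑ k, z k * conj (w k)) / ((‖z‖ ^ 2 : ℝ) : ℂ) ^ 2 := by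
    unfold ev om
    simp only [sub_mul, Finset.sum_sub_distrib, Finset.sum_mul, Finset.mul_sum, Finset.sum_div]
    congr 1
    · refine Finset.sum_congr rfl fun j _ => ?_
      rw [Finset.sum_eq_single j]
      · simp [div_eq_mul_inv, mul_comm]
      · intro b _ hb; simp [Ne.symm hb]
      · simp
    · rw [Finset.sum_comm]
      exact Finset.sum_congr rfl fun j _ => Finset.sum_congr rfl fun k _ => by ring
  rw [e0, ← hw, e, hi, sum_mul_conj, fs, ← hw]
  push_cast; ring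

theorem contDiff_coord (j : Fin n) : ContDiff ℝ ∞ fun z : E n => z j :=
  ((EuclideanSpace.proj j : E n →L[ℂ] ℂ).restrictScalars ℝ).contDiff

theorem contDiff_conj : ContDiff ℝ ∞ fun z : ℂ => conj z := Complex.conjCLE.contDiff

theorem om_mem : om ∈ Form11 n := by
  refine ⟨?_, ?_, fun z hz k => om_hor1 hz k, fun z hz j => om_hor2 hz j⟩
  · refine contDiffOn_pi.2 fun j => contDiffOn_pi.2 fun k => ?_
    have h1 : ContDiff ℝ ∞ fun z : E n => ((‖z‖ ^ 2 : ℝ) : ℂ) :=
      Complex.ofRealCLM.contDiff.comp (contDiff_norm_sq ℂ)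
    unfold om
    simp only [div_eq_mul_inv]
    refine (contDiffOn_const.mul (h1.contDiffOn.inv fun z hz => normSq_ne hz)).sub
      (ContDiffOn.mul ?_
        ((h1.pow 2).contDiffOn.inv fun z hz => pow_ne_zero 2 (normSq_ne hz)))
    exact ((contDiff_conj.comp (contDiff_coord j)).mul (contDiff_coord k)).contDiffOn
  · intro z hz c hc j k
    have h := normSq_ne hz
    have hc' : conj c ≠ 0 := by simpa using hc
    have e : ((‖c • z‖ ^ 2 : ℝ) : ℂ) = c * conj c * ((‖z‖ ^ 2 : ℝ) : ℂ) := by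
      rw [norm_smul, mul_pow, Complex.mul_conj, Complex.normSq_eq_norm_sq]; push_cast; ring
    unfold om
    rw [e]
    simp only [PiLp.smul_apply, smul_eq_mul, map_mul]
    field_simp

/-- The Fubini-Study form as an element of `Form11`. -/
def omF (n : ℕ) : Form11 n := ⟨om, om_mem⟩

theorem norm_ev_le {ψ : Fin n → Fin n → ℂ} {C : ℝ} (hC : ∀ j k, ‖ψ j k‖ ≤ C) (w : E n) :
    ‖ev ψ w‖ ≤ n ^ 2 * C * ‖w‖ ^ 2 := by
  unfold ev
  calc ‖∑ j, ∑ k, ψ j k * (w j * conj (w k))‖ ≤ ∑ j : Fin n, ∑ k : Fin n, C * ‖w‖ ^ 2 := by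
        refine (norm_sum_le _ _).trans (Finset.sum_le_sum fun j _ => ?_)
        refine (norm_sum_le _ _).trans (Finset.sum_le_sum fun k _ => ?_)
        rw [norm_mul, norm_mul, Complex.norm_conj, sq]
        have h0 : 0 ≤ C := (norm_nonneg _).trans (hC j k)
        gcongr
        · exact hC j k
        · exact PiLp.norm_apply_le w j
        · exact PiLp.norm_apply_le w k
    _ = n ^ 2 * C * ‖w‖ ^ 2 := by simp; ring

theorem ev_bound {ψ : E n → Fin n → Fin n → ℂ} (hc : ContinuousOn ψ {0}ᶜ)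
    (h0 : ∀ z : E n, z ≠ 0 → ∀ c : ℂ, c ≠ 0 → ∀ j k, ψ (c • z) j k = (c * conj c)⁻¹ * ψ z j k)
    (h1 : ∀ z : E n, z ≠ 0 → ∀ k, ∑ j, ψ z j k * z j = 0)
    (h2 : ∀ z : E n, z ≠ 0 → ∀ j, ∑ k, ψ z j k * conj (z k) = 0) :
    ∃ C : ℝ, 0 ≤ C ∧ ∀ z : E n, z ≠ 0 → ∀ v, ‖ev (ψ z) v‖ ≤ C * fs z v := by
  have hs : Metric.sphere (0 : E n) 1 ⊆ {0}ᶜ := fun z hz h => by
    rw [Set.mem_singleton_iff] at h
    rw [h] at hz; simp at hz
  obtain ⟨C, hC⟩ := (isCompact_sphere (0 : E n) 1).exists_bound_of_continuousOn (hc.mono hs)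
  refine ⟨n ^ 2 * max C 0, by positivity, fun z hz v => ?_⟩
  have hn : 0 < ‖z‖ := norm_pos_iff.2 hz
  have hn' : ((‖z‖ : ℝ) : ℂ) ≠ 0 := by exact_mod_cast hn.ne'
  obtain ⟨z1, hz1⟩ : ∃ z1 : E n, z1 = ((‖z‖ : ℝ) : ℂ)⁻¹ • z := ⟨_, rfl⟩
  have hz1n : ‖z1‖ = 1 := by
    rw [hz1, norm_smul, norm_inv, Complex.norm_real, norm_norm, inv_mul_cancel₀ hn.ne']
  have hz1z : z1 ≠ 0 := by intro h; rw [h, norm_zero] at hz1n; exact zero_ne_one hz1n
  have hzz : z = ((‖z‖ : ℝ) : ℂ) • z1 := by rw [hz1, smul_smul, mul_inv_cancel₀ hn', one_smul]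
  have hb : ∀ j k, ‖ψ z j k‖ ≤ max C 0 / ‖z‖ ^ 2 := fun j k => by
    have e := h0 z1 hz1z _ hn' j k
    rw [← hzz] at e
    rw [e, norm_mul, norm_inv, norm_mul, Complex.norm_conj, Complex.norm_real, norm_norm, ← sq,
      mul_comm, ← div_eq_mul_inv]
    gcongr
    have := hC z1 (by simpa using hz1n)
    exact ((norm_le_pi_norm (ψ z1 j) k).trans ((norm_le_pi_norm (ψ z1) j).trans this)).trans
      (le_max_left _ _)
  have e0 : ev (ψ z) v = ev (ψ z) (perp z v) := (ev_sub_smul (h1 z hz) (h2 z hz) v _).symm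
  rw [e0]
  refine (norm_ev_le hb _).trans (le_of_eq ?_)
  unfold fs; ring

theorem form11_bound (φ : Form11 n) :
    ∃ C : ℝ, 0 ≤ C ∧ ∀ z : E n, z ≠ 0 → ∀ v, ‖ev (φ.1 z) v‖ ≤ C * fs z v :=
  ev_bound φ.2.1.continuousOn φ.2.2.1 φ.2.2.2.1 φ.2.2.2.2

theorem form10_bound {α : E n → Fin n → ℂ} (hα : IsForm10 α) :
    ∃ C : ℝ, 0 ≤ C ∧ ∀ z : E n, z ≠ 0 → ∀ v : E n, ‖∑ j, α z j * v j‖ ^ 2 ≤ C * fs z v := by
  have hc := hα.1.continuousOn
  obtain ⟨C, hC0, hC⟩ := ev_bound (ψ := fun z j k => α z j * conj (α z k)) (by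
      refine continuousOn_pi.2 fun j => continuousOn_pi.2 fun k => ?_
      exact (continuousOn_pi.1 hc j).mul
        (Complex.continuous_conj.comp_continuousOn (continuousOn_pi.1 hc k)))
    (fun z hz c hc j k => by
      simp only [hα.2.1 z hz c hc, map_mul, map_inv₀, mul_inv]; ring)
    (fun z hz k => by
      have : ∑ j, α z j * conj (α z k) * z j = (∑ j, α z j * z j) * conj (α z k) := by
        rw [Finset.sum_mul]; exact Finset.sum_congr rfl fun j _ => by ring
      rw [this, hα.2.2 z hz, zero_mul])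
    (fun z hz j => by
      have : ∑ k, α z j * conj (α z k) * conj (z k) = α z j * conj (∑ k, α z k * z k) := by
        rw [map_sum, Finset.mul_sum]
        exact Finset.sum_congr rfl fun k _ => by rw [map_mul]; ring
      rw [this, hα.2.2 z hz, map_zero, mul_zero])
  refine ⟨C, hC0, fun z hz v => le_trans (le_of_eq ?_) (hC z hz v)⟩
  have : ev (fun j k => α z j * conj (α z k)) v
      = (∑ j, α z j * v j) * conj (∑ j, α z j * v j) := by
    unfold ev
    rw [map_sum, Finset.sum_mul_sum]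
    exact Finset.sum_congr rfl fun j _ => Finset.sum_congr rfl fun k _ => by rw [map_mul]; ring
  rw [this, norm_mul, Complex.norm_conj, sq]

theorem fs_pos {z v : E n} (hz : z ≠ 0) {i j : Fin n} (h : z i * v j ≠ z j * v i) : 0 < fs z v := by
  have hn : 0 < ‖z‖ := norm_pos_iff.2 hz
  have : perp z v ≠ 0 := by
    intro h0
    unfold perp at h0
    rw [sub_eq_zero] at h0
    apply h
    rw [h0]
    simp only [PiLp.smul_apply, smul_eq_mul]; ring
  have : 0 < ‖perp z v‖ := norm_pos_iff.2 this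
  unfold fs; positivity

theorem form01_conj {β : E n → Fin n → ℂ} (hβ : IsForm01 β) :
    IsForm10 fun z k => conj (β z k) := by
  refine ⟨contDiffOn_pi.2 fun k => contDiff_conj.comp_contDiffOn (contDiffOn_pi.1 hβ.1 k),
    fun z hz c hc j => ?_, fun z hz => ?_⟩
  · simp only [hβ.2.1 z hz c hc, map_mul, map_inv₀, Complex.conj_conj]
  · have := congrArg conj (hβ.2.2 z hz)
    simpa only [map_sum, map_mul, Complex.conj_conj, map_zero] using this

/-- Limit of normalized, approximately closed currents. -/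
theorem limit_current {V : E n → E n} (T : ℕ → Current n) (hpos : ∀ k, Positive (T k))
    (hdir : ∀ k, StronglyDirected V (T k)) (M : ℕ → ℝ) (hM : ∀ k, 0 < M k)
    (hom : ∀ k, T k (omF n) = M k)
    (hb : ∀ φ : Form11 n, ∃ C : ℝ, ∀ k, ‖T k φ‖ ≤ C * M k)
    (hcl : ∀ α β : E n → Fin n → ℂ, IsForm10 α → IsForm01 β → ∀ φ : Form11 n,
      (∀ z : E n, z ≠ 0 → ∀ j k,
        φ.1 z j k = pd j (fun w => β w k) z - pdb k (fun w => α w j) z) →
      Tendsto (fun k => T k φ / M k) atTop (𝓝 0)) :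
    ∃ T : Current n, T ≠ 0 ∧ Positive T ∧ Closed T ∧ StronglyDirected V T := by
  have hex : ∀ φ : Form11 n, ∃ a : ℂ,
      Tendsto (fun k => T k φ / M k) (hyperfilter ℕ : Filter ℕ) (𝓝 a) := fun φ => by
    obtain ⟨C, hC⟩ := hb φ
    have hmem : ∀ k, T k φ / M k ∈ Metric.closedBall (0 : ℂ) C := fun k => by
      rw [mem_closedBall_zero_iff, norm_div, Complex.norm_real, Real.norm_of_nonneg (hM k).le,
        div_le_iff₀ (hM k)]
      exact hC k
    obtain ⟨a, -, ha⟩ := (isCompact_closedBall (0 : ℂ) C).ultrafilter_le_nhds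
      ((hyperfilter ℕ).map fun k => T k φ / M k)
      (by rw [Ultrafilter.coe_map, le_principal_iff, mem_map]; exact Eventually.of_forall hmem)
    exact ⟨a, ha⟩
  choose L hL using hex
  let S : Current n :=
    { toFun := L
      map_add' := fun φ ψ => by
        refine tendsto_nhds_unique (hL (φ + ψ)) ?_
        simpa only [map_add, add_div] using (hL φ).add (hL ψ)
      map_smul' := fun a φ => by
        refine tendsto_nhds_unique (hL (a • φ)) ?_
        simpa only [map_smul, smul_eq_mul, mul_div_assoc, RingHom.id_apply]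
          using (hL φ).const_mul a }
  have hS : ∀ φ, S φ = L φ := fun _ => rfl
  refine ⟨S, fun h => ?_, fun φ hφ => ?_, fun α β hα hβ φ hφ => ?_, fun φ hφ => ?_⟩
  · have h1 : L (omF n) = 0 := by rw [← hS, h]; rfl
    have h2 : L (omF n) = 1 := by
      refine tendsto_nhds_unique (hL _) ?_
      have : (fun k => T k (omF n) / M k) = fun _ => 1 := by
        funext k
        rw [hom, div_self]; exact_mod_cast (hM k).ne'
      rw [this]; exact tendsto_const_nhds
    rw [h1] at h2; exact zero_ne_one h2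
  · rw [hS]
    refine ge_of_tendsto' (hL φ) fun k => ?_
    exact div_nonneg (hpos k φ hφ) (by exact_mod_cast (hM k).le)
  · rw [hS]
    exact tendsto_nhds_unique (hL φ)
      ((hcl α β hα hβ φ hφ).mono_left Nat.hyperfilter_le_atTop)
  · rw [hS]
    refine tendsto_nhds_unique (hL φ) ?_
    simp only [hdir _ φ hφ, zero_div]; exact tendsto_const_nhds

end A590.X2
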