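import Pool.Agent.Lib.A590Exist1
import Pool.Agent.Lib.A590Alg
import Pool.Agent.Lib.A590Cut

/-!
Block X2, part 2: local computations on the cone in the chart `U = 1`.
-/

open scoped ComplexConjugate ComplexOrder ContDiff Topology InnerProductSpace
open MeasureTheory Filter

noncomputable section

namespace A590.X2

def pt (x y t : ℂ) : E 4 := !₂[x, y, 1, t]
def y0 (x : ℂ) : ℂ := (x ^ 4 - 1) ^ (((4 : ℕ) : ℂ)⁻¹)
def zx (c d x y t : ℂ) : ℂ := 2 * AA c d x y 1 t * y ^ 3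
def zt (c d u x y t : ℂ) : ℂ := ZT c d u x y 1 t - t * ZU c x y t
def sv (c d x y t : ℂ) : ℂ × ℂ := (s1 c d x y 1 t, s2 c d x y 1 t)
def wg (H : ℂ → ℂ × ℂ → ℝ) (c d x y t : ℂ) : ℝ := 1 / (‖y‖ ^ 4 * H x (sv c d x y t) ^ 2)
/-- A local holomorphic branch of the fourth root. -/
def Br (y : ℂ → ℂ) (x0 : ℂ) : Prop := AnalyticAt ℂ y x0 ∧ ∀ᶠ x in 𝓝 x0, y x ^ 4 = x ^ 4 - 1
/-- The local form of the flat Hermitian metric. -/
def Loc (c d u : ℂ) (H : ℂ → ℂ × ℂ → ℝ) (g : ℝ) (φ1 φ2 : ℂ → ℂ × ℂ) (x : ℂ) : Prop :=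
  IsSol c d u φ1 x ∧ IsSol c d u φ2 x ∧ ‖det2 (φ1 x) (φ2 x)‖ = g ∧
    ∀ w, H x w = ‖det2 (φ1 x) w‖ ^ 2 + ‖det2 (φ2 x) w‖ ^ 2
/-- The derivative of `sv` in `t`. -/
def svt (c d x y t : ℂ) : ℂ × ℂ :=
  (2 * P0 c d x 1 * t, 2 * Q0 x y 1 * t + y * P0 c d x 1)
/-- The covariant derivative of `sv` in `x`. -/
def nb (c d u e m x y t : ℂ) : ℂ × ℂ :=
  (2 * c * x * t ^ 2 + e - N1 c d u x 1 (s1 c d x y 1 t) (s2 c d x y 1 t) * m,
    (2 * y * e - 1) * t ^ 2 + (e * P0 c d x 1 + y * (2 * c * x)) * t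
      - N2 c d u x 1 (s1 c d x y 1 t) (s2 c d x y 1 t) * m)

theorem y0_pow (x : ℂ) : y0 x ^ 4 = x ^ 4 - 1 := Complex.cpow_nat_inv_pow _ (by norm_num)

theorem pt_ne (x y t : ℂ) : pt x y t ≠ 0 := by
  intro h
  have := congrArg (fun z : E 4 => z 2) h
  simp [pt] at this

theorem fF_eq {x y : ℂ} (h : y ^ 4 = x ^ 4 - 1) : fF x y 1 = 0 := by
  unfold fF; linear_combination h

theorem f4_pt {x y : ℂ} (h : y ^ 4 = x ^ 4 - 1) (t : ℂ) : f4 (pt x y t) = 0 := by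
  simpa [f4, pt] using fF_eq h

theorem I_mul_pow (k : ℕ) (y : ℂ) : (Complex.I ^ k * y) ^ 4 = y ^ 4 := by
  rw [mul_pow, ← pow_mul, mul_comm k, pow_mul, Complex.I_pow_four, one_pow, one_mul]

theorem sum_roots {M : Type*} [AddCommMonoid M] (G : ℂ → M) {y y' : ℂ} (h : y ^ 4 = y' ^ 4) :
    ∑ k : Fin 4, G (Complex.I ^ (k : ℕ) * y) = ∑ k : Fin 4, G (Complex.I ^ (k : ℕ) * y') := by
  have h2 : Complex.I ^ 2 = -1 := Complex.I_sq
  have h3 : Complex.I ^ 3 = -Complex.I := Complex.I_pow_three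
  have hI : ∀ a : ℂ, Complex.I * (Complex.I * a) = -a := fun a => by
    rw [← mul_assoc, Complex.I_mul_I]; ring
  have : (y - y') * (y + y') * (y - Complex.I * y') * (y + Complex.I * y') = 0 := by
    linear_combination h + (y' ^ 4 - y ^ 2 * y' ^ 2) * h2
  simp only [Fin.sum_univ_four, Fin.val_zero, Fin.val_one, Fin.val_two, pow_zero, pow_one, one_mul,
    show ((3 : Fin 4) : ℕ) = 3 from rfl, h2, h3, neg_mul]
  rcases mul_eq_zero.1 this with h | h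
  · rcases mul_eq_zero.1 h with h | h
    · rcases mul_eq_zero.1 h with h | h
      · rw [sub_eq_zero.1 h]
      · rw [eq_neg_of_add_eq_zero_left h]
        simp only [mul_neg, neg_neg]; abel
    · rw [sub_eq_zero.1 h]
      simp only [hI, neg_neg]; abel
  · rw [eq_neg_of_add_eq_zero_left h]
    simp only [mul_neg, hI, neg_neg]; abel

theorem exists_br {x0 : ℂ} (h : x0 ^ 4 ≠ 1) : ∃ y, Br y x0 := by
  have h0 : x0 ^ 4 - 1 ≠ 0 := sub_ne_zero.2 h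
  refine ⟨fun x => y0 x0 * ((x ^ 4 - 1) / (x0 ^ 4 - 1)) ^ (((4 : ℕ) : ℂ)⁻¹), ?_, ?_⟩
  · refine analyticAt_const.mul (AnalyticAt.cpow (by fun_prop) analyticAt_const ?_)
    simp [div_self h0]
  · refine Eventually.of_forall fun x => ?_
    rw [mul_pow, y0_pow, Complex.cpow_nat_inv_pow _ (by norm_num)]
    field_simp

theorem Br.mul_I {y : ℂ → ℂ} {x0 : ℂ} (h : Br y x0) (k : ℕ) :
    Br (fun x => Complex.I ^ k * y x) x0 :=
  ⟨analyticAt_const.mul h.1, h.2.mono fun x hx => by rw [I_mul_pow, hx]⟩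

theorem Br.pow {y : ℂ → ℂ} {x0 : ℂ} (h : Br y x0) : y x0 ^ 4 = x0 ^ 4 - 1 := h.2.self_of_nhds

theorem root_ne {x y : ℂ} (h : y ^ 4 = x ^ 4 - 1) (hx : x ^ 4 ≠ 1) : y ≠ 0 := by
  rintro rfl
  apply hx; linear_combination -h

theorem Br.hasDerivAt {y : ℂ → ℂ} {x0 : ℂ} (h : Br y x0) (hx : x0 ^ 4 ≠ 1) :
    HasDerivAt y (x0 ^ 3 / y x0 ^ 3) x0 := by
  have hy := h.1.differentiableAt.hasDerivAt
  have h0 := root_ne h.pow hx
  have h1 : HasDerivAt (fun x => y x ^ 4) (4 * y x0 ^ 3 * deriv y x0) x0 := by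
    simpa using hy.fun_pow 4
  have h2 : HasDerivAt (fun x : ℂ => x ^ 4 - 1) (4 * x0 ^ 3) x0 := by
    simpa using (hasDerivAt_pow 4 x0).sub_const 1
  have h3 := h1.unique (h2.congr_of_eventuallyEq h.2)
  refine hy.congr_deriv ?_
  field_simp
  linear_combination h3 / 4

theorem fderiv_pair {F : Type*} [NormedAddCommGroup F] [NormedSpace ℂ F] {G : ℂ × ℂ → F}
    {x0 t0 : ℂ} (hG : DifferentiableAt ℂ G (x0, t0)) {A B : F}
    (hA : HasDerivAt (fun x => G (x, t0)) A x0) (hB : HasDerivAt (fun t => G (x0, t)) B t0)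
    (a b : ℂ) : fderiv ℂ G (x0, t0) (a, b) = a • A + b • B := by
  have h1 : HasDerivAt (fun x : ℂ => (x, t0)) ((1 : ℂ), (0 : ℂ)) x0 :=
    (hasDerivAt_id x0).prodMk (hasDerivAt_const x0 t0)
  have h2 : HasDerivAt (fun t : ℂ => (x0, t)) ((0 : ℂ), (1 : ℂ)) t0 :=
    (hasDerivAt_const t0 x0).prodMk (hasDerivAt_id t0)
  have e1 := (hG.hasFDerivAt.comp_hasDerivAt x0 h1).unique hA
  have e2 := (hG.hasFDerivAt.comp_hasDerivAt t0 h2).unique hB
  rw [← e1, ← e2, ← map_smul, ← map_smul, ← map_add]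
  congr 1
  ext <;> simp

theorem zx_eq (c d x y t : ℂ) : zx c d x y t = 2 * y ^ 2 * det2 (svt c d x y t) (sv c d x y t) := by
  simp only [zx, det2, svt, sv, AA, s1, s2]; ring

theorem zt_eq {c d x y : ℂ} (u t : ℂ) (hcd : c ^ 2 - d ^ 2 = 1) (h : y ^ 4 = x ^ 4 - 1)
    (hx : x ^ 4 ≠ 1) : zt c d u x y t = -2 * y ^ 2 *
      det2 (nb c d u (x ^ 3 / y ^ 3) (2 * (x ^ 4 - 1))⁻¹ x y t) (sv c d x y t) := by
  have h0 := root_ne h hx
  have k := key_T c d u x y 1 t (fF_eq h) hcd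
  simp only [zt, det2, nb, sv, ← h]
  field_simp
  linear_combination k

theorem dz_weight {V : Type*} [NormedAddCommGroup V] [NormedSpace ℝ V] [NormedSpace ℂ V]
    [IsScalarTower ℝ ℂ V] {Y σ1 σ2 : V → ℂ} {q v : V} {μ lam : ℂ} (hY : DifferentiableAt ℂ Y q)
    (h1 : DifferentiableAt ℂ σ1 q) (h2 : DifferentiableAt ℂ σ2 q)
    (eY : fderiv ℂ Y q v = μ * Y q) (e1 : fderiv ℂ σ1 q v = lam * σ1 q)
    (e2 : fderiv ℂ σ2 q v = lam * σ2 q) (nY : Y q ≠ 0)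
    (nσ : σ1 q * conj (σ1 q) + σ2 q * conj (σ2 q) ≠ 0) :
    dz (fun w => ((Y w * conj (Y w)) * (Y w * conj (Y w)) *
        ((σ1 w * conj (σ1 w) + σ2 w * conj (σ2 w)) *
          (σ1 w * conj (σ1 w) + σ2 w * conj (σ2 w))))⁻¹) q v
      = -(2 * μ + 2 * lam) * ((Y q * conj (Y q)) * (Y q * conj (Y q)) *
        ((σ1 q * conj (σ1 q) + σ2 q * conj (σ2 q)) *
          (σ1 q * conj (σ1 q) + σ2 q * conj (σ2 q))))⁻¹ := by
  have hc : ∀ {f : V → ℂ}, DifferentiableAt ℂ f q → ∀ a, fderiv ℂ f q v = a * f q →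
      DifferentiableAt ℝ (fun w => f w * conj (f w)) q ∧
        dz (fun w => f w * conj (f w)) q v = a * (f q * conj (f q)) := by
    intro f hf a ha
    have hr := hf.restrictScalars ℝ
    have hr' : DifferentiableAt ℝ (fun w => conj (f w)) q :=
      Complex.conjCLE.differentiableAt.comp q hr
    refine ⟨hr.mul hr', ?_⟩
    rw [dz_mul hr hr', dz_conj, dzb_holo hf, dz_holo hf, ha]; simp; ring
  obtain ⟨dY, zY⟩ := hc hY μ eY
  obtain ⟨d1, z1⟩ := hc h1 lam e1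
  obtain ⟨d2, z2⟩ := hc h2 lam e2
  have nY' : Y q * conj (Y q) ≠ 0 := mul_ne_zero nY (by simpa using nY)
  have dS := d1.fun_add d2
  rw [dz_inv ((dY.fun_mul dY).fun_mul (dS.fun_mul dS))
    (mul_ne_zero (mul_ne_zero nY' nY') (mul_ne_zero nσ nσ)),
    dz_mul (dY.fun_mul dY) (dS.fun_mul dS), dz_mul dY dY, dz_mul dS dS, dz_add d1 d2, zY, z1, z2]
  generalize Y q * conj (Y q) = A at *
  rw [← mul_add lam]
  generalize σ1 q * conj (σ1 q) + σ2 q * conj (σ2 q) = B at *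
  field_simp
  ring

theorem det_ne {a b w : ℂ × ℂ} (h : det2 a b ≠ 0) (hw : w ≠ 0) :
    0 < ‖det2 a w‖ ^ 2 + ‖det2 b w‖ ^ 2 := by
  rcases eq_or_ne (det2 a w) 0 with h1 | h1
  · rcases eq_or_ne (det2 b w) 0 with h2 | h2
    · exfalso; apply hw
      unfold det2 at *
      ext
      · have : (a.1 * b.2 - a.2 * b.1) * w.1 = 0 := by linear_combination b.1 * h1 - a.1 * h2
        simpa [h] using this
      · have : (a.1 * b.2 - a.2 * b.1) * w.2 = 0 := by linear_combination b.2 * h1 - a.2 * h2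
        simpa [h] using this
    · have := norm_pos_iff.2 h2
      positivity
  · have := norm_pos_iff.2 h1
    positivity

theorem sol_contDiffAt {c d u x0 : ℂ} {φ : ℂ → ℂ × ℂ} (h : ∀ᶠ x in 𝓝 x0, IsSol c d u φ x) :
    ContDiffAt ℂ ∞ φ x0 :=
  (Complex.analyticAt_iff_eventually_differentiableAt.2
    (h.mono fun _ hx => HasDerivAt.differentiableAt hx)).contDiffAt

theorem sigma_deriv {c d u x0 t0 e : ℂ} {φ : ℂ → ℂ × ℂ} {y : ℂ → ℂ}
    (hφ : ∀ᶠ x in 𝓝 x0, IsSol c d u φ x) (hy : ContDiffAt ℂ ∞ y x0) (hye : HasDerivAt y e x0) :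
    ContDiffAt ℂ ∞ (fun q : ℂ × ℂ => det2 (φ q.1) (sv c d q.1 (y q.1) q.2)) (x0, t0) ∧
    ∀ a b : ℂ, fderiv ℂ (fun q : ℂ × ℂ => det2 (φ q.1) (sv c d q.1 (y q.1) q.2)) (x0, t0) (a, b)
      = a * det2 (φ x0) (nb c d u e (2 * (x0 ^ 4 - 1))⁻¹ x0 (y x0) t0)
        + b * det2 (φ x0) (svt c d x0 (y x0) t0) := by
  have hφ' : ContDiffAt ℂ ∞ φ (x0, t0).1 := sol_contDiffAt hφ
  have hy' : ContDiffAt ℂ ∞ y (x0, t0).1 := hy
  have hs : HasDerivAt φ (Mx c d u x0 (φ x0)) x0 := hφ.self_of_nhds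
  have hcd : ContDiffAt ℂ ∞ (fun q : ℂ × ℂ => det2 (φ q.1) (sv c d q.1 (y q.1) q.2)) (x0, t0) := by
    unfold det2 sv s1 s2 P0 Q0; fun_prop
  refine ⟨hcd, fun a b => ?_⟩
  have hi := hasDerivAt_id' x0
  have hP : HasDerivAt (fun x => P0 c d x 1) (2 * c * x0) x0 := by
    unfold P0
    exact (((hi.fun_pow 2).const_mul c).const_add _).congr_deriv (by simp; ring)
  have hQ : HasDerivAt (fun x => Q0 x (y x) 1) (2 * y x0 * e - 1) x0 := by
    unfold Q0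
    exact ((hye.fun_pow 2).fun_sub (hi.mul_const 1)).congr_deriv (by simp)
  have ht := hasDerivAt_id' t0
  have hs1 : HasDerivAt (fun x => (φ x).1) (Mx c d u x0 (φ x0)).1 x0 :=
    (ContinuousLinearMap.fst ℂ ℂ ℂ).hasFDerivAt.comp_hasDerivAt x0 hs
  have hs2 : HasDerivAt (fun x => (φ x).2) (Mx c d u x0 (φ x0)).2 x0 :=
    (ContinuousLinearMap.snd ℂ ℂ ℂ).hasFDerivAt.comp_hasDerivAt x0 hs
  refine (fderiv_pair (hcd.differentiableAt (by simp)) ?_ ?_ a b)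
  · unfold det2 sv s1 s2
    dsimp only
    refine ((hs1.fun_mul ((hQ.mul_const _).fun_add ((hye.fun_mul hP).mul_const _))).fun_sub
      (hs2.fun_mul ((hP.mul_const _).fun_add (hye.mul_const _)))).congr_deriv ?_
    simp only [Mx, nb, N1, N2, s1, s2, div_eq_mul_inv]
    ring
  · unfold det2 sv s1 s2
    dsimp only
    refine (((((ht.fun_pow 2).const_mul _).fun_add (ht.const_mul _)).const_mul _).fun_sub
      ((((ht.fun_pow 2).const_mul _).add_const _).const_mul _)).congr_deriv ?_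
    simp only [svt]
    simp
    ring

theorem div_deriv {c d u x0 t0 : ℂ} {y : ℂ → ℂ} (hcd : c ^ 2 - d ^ 2 = 1) (hy : Br y x0)
    (hx : x0 ^ 4 ≠ 1) :
    fderiv ℂ (fun q : ℂ × ℂ => zx c d q.1 (y q.1) q.2) (x0, t0) (1, 0)
      + fderiv ℂ (fun q : ℂ × ℂ => zt c d u q.1 (y q.1) q.2) (x0, t0) (0, 1)
      = 2 * (2 * (x0 ^ 3 / y x0 ^ 3) * AA c d x0 (y x0) 1 t0 * y x0 ^ 2)
        + 2 * (2 * y x0 ^ 2 * det2 (svt c d x0 (y x0) t0)
          (nb c d u (x0 ^ 3 / y x0 ^ 3) (2 * (x0 ^ 4 - 1))⁻¹ x0 (y x0) t0)) := by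
  have hy' : ContDiffAt ℂ ∞ y (x0, t0).1 := hy.1.contDiffAt
  have hye := hy.hasDerivAt hx
  have hz : (fun t => zt c d u x0 (y x0) t) = fun t => -2 * y x0 ^ 2 *
      det2 (nb c d u (x0 ^ 3 / y x0 ^ 3) (2 * (x0 ^ 4 - 1))⁻¹ x0 (y x0) t) (sv c d x0 (y x0) t) :=
    funext fun t => zt_eq u t hcd hy.pow hx
  generalize x0 ^ 3 / y x0 ^ 3 = e at *
  generalize (2 * (x0 ^ 4 - 1))⁻¹ = m at *
  have d1 : DifferentiableAt ℂ (fun q : ℂ × ℂ => zx c d q.1 (y q.1) q.2) (x0, t0) := by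
    refine ContDiffAt.differentiableAt (n := ∞) ?_ (by simp)
    unfold zx AA P0 Q0; fun_prop
  have d2 : DifferentiableAt ℂ (fun q : ℂ × ℂ => zt c d u q.1 (y q.1) q.2) (x0, t0) := by
    refine ContDiffAt.differentiableAt (n := ∞) ?_ (by simp)
    unfold zt ZT ZU; fun_prop
  have hi := hasDerivAt_id' x0
  have ht := hasDerivAt_id' t0
  have hP : HasDerivAt (fun x => P0 c d x 1) (2 * c * x0) x0 := by
    unfold P0
    exact (((hi.fun_pow 2).const_mul c).const_add _).congr_deriv (by simp; ring)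
  have hQ : HasDerivAt (fun x => Q0 x (y x) 1) (2 * y x0 * e - 1) x0 := by
    unfold Q0
    exact ((hye.fun_pow 2).fun_sub (hi.mul_const 1)).congr_deriv (by simp)
  have hA := (((((hP.fun_pow 2).mul_const (t0 ^ 2)).fun_sub
    (((hQ.const_mul 2).mul_const (1 ^ 3)).mul_const t0)).fun_sub
    ((hye.fun_mul hP).mul_const (1 ^ 3))).const_mul 2).fun_mul (hye.fun_pow 3)
  have h1 : HasDerivAt (fun t => s1 c d x0 (y x0) 1 t) (svt c d x0 (y x0) t0).1 t0 := by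
    unfold s1
    exact (((ht.fun_pow 2).const_mul _).add_const _).congr_deriv (by simp [svt]; ring)
  have h2 : HasDerivAt (fun t => s2 c d x0 (y x0) 1 t) (svt c d x0 (y x0) t0).2 t0 := by
    unfold s2
    exact (((ht.fun_pow 2).const_mul _).fun_add (ht.const_mul _)).congr_deriv
      (by simp [svt]; ring)
  have hn1 := ((((ht.fun_pow 2).const_mul (2 * c * x0)).add_const e).fun_sub
    (((h1.const_mul (u * x0 * 1)).fun_add
      (h2.const_mul ((c + d * u) * 1 ^ 2 + (d + c * u) * x0 ^ 2))).mul_const m))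
  have hn2 := ((((ht.fun_pow 2).const_mul (2 * y x0 * e - 1)).fun_add
      (ht.const_mul (e * P0 c d x0 1 + y x0 * (2 * c * x0)))).fun_sub
    (((h1.const_mul (-(d + c * u) * 1 ^ 2 + (c + d * u) * x0 ^ 2)).fun_sub
      (h2.const_mul (u * x0 * 1))).mul_const m))
  have hB := ((hn1.fun_mul h2).fun_sub (hn2.fun_mul h1)).const_mul (-2 * y x0 ^ 2)
  have hA2 : HasDerivAt (fun t => zx c d x0 (y x0) t) (deriv (fun t => zx c d x0 (y x0) t) t0) t0 :=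
    DifferentiableAt.hasDerivAt (by unfold zx AA; fun_prop)
  have hB2 : HasDerivAt (fun x => zt c d u x (y x) t0) (deriv (fun x => zt c d u x (y x) t0) x0)
      x0 := by
    have := hye.differentiableAt
    exact DifferentiableAt.hasDerivAt (by unfold zt ZT ZU; fun_prop)
  rw [fderiv_pair d1 hA hA2, fderiv_pair d2 hB2 (by dsimp only; rw [hz]; exact hB)]
  simp only [smul_eq_mul, det2, svt, nb, N1, N2, AA, s1, s2]
  simp
  ring

theorem wg_nonneg (H : ℂ → ℂ × ℂ → ℝ) (c d x y t : ℂ) : 0 ≤ wg H c d x y t := by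
  unfold wg; positivity

theorem Loc.det_ne {c d u x : ℂ} {H : ℂ → ℂ × ℂ → ℝ} {g : ℝ} {φ1 φ2 : ℂ → ℂ × ℂ}
    (h : Loc c d u H g φ1 φ2 x) (hg : 0 < g) : det2 (φ1 x) (φ2 x) ≠ 0 := by
  intro h0
  have := h.2.2.1
  rw [h0, norm_zero] at this
  exact hg.ne this

theorem wg_local {c d u x0 t0 : ℂ} {y : ℂ → ℂ} {H : ℂ → ℂ × ℂ → ℝ} {g : ℝ} (hg : 0 < g)
    {φ1 φ2 : ℂ → ℂ × ℂ} (hcd : c ^ 2 - d ^ 2 = 1) (hφ : ∀ᶠ x in 𝓝 x0, Loc c d u H g φ1 φ2 x)
    (hy : Br y x0) (hx : x0 ^ 4 ≠ 1) (hs : sv c d x0 (y x0) t0 ≠ 0) :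
    ContDiffAt ℝ ∞ (fun q : ℂ × ℂ => (wg H c d q.1 (y q.1) q.2 : ℂ)) (x0, t0) ∧
    (fderiv ℂ (fun q : ℂ × ℂ => zx c d q.1 (y q.1) q.2) (x0, t0) (1, 0)
      + fderiv ℂ (fun q : ℂ × ℂ => zt c d u q.1 (y q.1) q.2) (x0, t0) (0, 1))
        * (wg H c d x0 (y x0) t0 : ℂ)
      + dz (fun q : ℂ × ℂ => (wg H c d q.1 (y q.1) q.2 : ℂ)) (x0, t0)
        (zx c d x0 (y x0) t0, zt c d u x0 (y x0) t0) = 0 := by
  have hy' : ContDiffAt ℂ ∞ y (x0, t0).1 := hy.1.contDiffAt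
  have hye := hy.hasDerivAt hx
  have h0 := root_ne hy.pow hx
  obtain ⟨c1, f1⟩ := sigma_deriv (t0 := t0) (hφ.mono fun x h => h.1) hy' hye
  obtain ⟨c2, f2⟩ := sigma_deriv (t0 := t0) (hφ.mono fun x h => h.2.1) hy' hye
  obtain ⟨σ1, hσ1⟩ : ∃ σ1, σ1 = fun q : ℂ × ℂ => det2 (φ1 q.1) (sv c d q.1 (y q.1) q.2) := ⟨_, rfl⟩
  obtain ⟨σ2, hσ2⟩ : ∃ σ2, σ2 = fun q : ℂ × ℂ => det2 (φ2 q.1) (sv c d q.1 (y q.1) q.2) := ⟨_, rfl⟩
  obtain ⟨Y, hY⟩ : ∃ Y, Y = fun q : ℂ × ℂ => y q.1 := ⟨_, rfl⟩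
  have cY : ContDiffAt ℂ ∞ Y (x0, t0) := by rw [hY]; fun_prop
  rw [← hσ1] at c1 f1
  rw [← hσ2] at c2 f2
  have hev : (fun q : ℂ × ℂ => (wg H c d q.1 (y q.1) q.2 : ℂ)) =ᶠ[𝓝 (x0, t0)]
      fun w => ((Y w * conj (Y w)) * (Y w * conj (Y w)) *
        ((σ1 w * conj (σ1 w) + σ2 w * conj (σ2 w)) *
          (σ1 w * conj (σ1 w) + σ2 w * conj (σ2 w))))⁻¹ := by
    filter_upwards [(continuous_fst.tendsto (x0, t0)).eventually hφ] with q hq
    simp only [wg, hq.2.2.2, hσ1, hσ2, hY, Complex.mul_conj, Complex.normSq_eq_norm_sq]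
    push_cast; ring
  have nY : Y (x0, t0) ≠ 0 := by rw [hY]; exact h0
  have nσ : σ1 (x0, t0) * conj (σ1 (x0, t0)) + σ2 (x0, t0) * conj (σ2 (x0, t0)) ≠ 0 := by
    have := det_ne (hφ.self_of_nhds.det_ne hg) hs
    simp only [hσ1, hσ2, Complex.mul_conj, Complex.normSq_eq_norm_sq]
    exact_mod_cast this.ne'
  have nY' : Y (x0, t0) * conj (Y (x0, t0)) ≠ 0 := mul_ne_zero nY (by simpa using nY)
  have hc : ∀ {f : ℂ × ℂ → ℂ}, ContDiffAt ℂ ∞ f (x0, t0) →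
      ContDiffAt ℝ ∞ (fun w => f w * conj (f w)) (x0, t0) := fun hf =>
    (hf.restrict_scalars ℝ).mul (contDiff_conj.contDiffAt.comp _ (hf.restrict_scalars ℝ))
  refine ⟨ContDiffAt.congr_of_eventuallyEq ?_ hev, ?_⟩
  · exact (((hc cY).mul (hc cY)).mul (((hc c1).add (hc c2)).mul ((hc c1).add (hc c2)))).inv
      (mul_ne_zero (mul_ne_zero nY' nY') (mul_ne_zero nσ nσ))
  · have hzt := zt_eq u t0 hcd hy.pow hx
    have hzx := zx_eq c d x0 (y x0) t0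
    have eY : fderiv ℂ Y (x0, t0) (zx c d x0 (y x0) t0, zt c d u x0 (y x0) t0)
        = (2 * (x0 ^ 3 / y x0 ^ 3) * AA c d x0 (y x0) 1 t0 * y x0 ^ 2) * Y (x0, t0) := by
      rw [fderiv_pair (cY.differentiableAt (by simp)) (A := x0 ^ 3 / y x0 ^ 3) (B := 0)
        (by rw [hY]; exact hye) (by rw [hY]; exact hasDerivAt_const t0 (y x0))]
      simp only [hY, zx, smul_eq_mul]; ring
    rw [dz_congr hev, dz_weight (lam := 2 * y x0 ^ 2 * det2 (svt c d x0 (y x0) t0)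
          (nb c d u (x0 ^ 3 / y x0 ^ 3) (2 * (x0 ^ 4 - 1))⁻¹ x0 (y x0) t0))
      (cY.differentiableAt (by simp)) (c1.differentiableAt (by simp))
      (c2.differentiableAt (by simp)) eY ?_ ?_ nY nσ, div_deriv hcd hy hx,
      show (wg H c d x0 (y x0) t0 : ℂ) = _ from hev.self_of_nhds]
    · ring
    · rw [f1, hzt, hzx, hσ1]; simp only [det2]; ring
    · rw [f2, hzt, hzx, hσ2]; simp only [det2]; ring

theorem pt_eq (x y t : ℂ) : pt x y t = x • EuclideanSpace.single 0 1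
    + y • EuclideanSpace.single 1 1 + EuclideanSpace.single 2 1 + t • EuclideanSpace.single 3 1 := by
  ext i; fin_cases i <;> simp [pt]

theorem pt_contDiffAt {y : ℂ → ℂ} {x0 : ℂ} (hy : Br y x0) (t0 : ℂ) :
    ContDiffAt ℂ ∞ (fun q : ℂ × ℂ => pt q.1 (y q.1) q.2) (x0, t0) := by
  have hy' : ContDiffAt ℂ ∞ y (x0, t0).1 := hy.1.contDiffAt
  simp only [pt_eq]; fun_prop

theorem pt_fderiv {c d u x0 t0 : ℂ} (p : ℂ) {y : ℂ → ℂ} (hy : Br y x0) (hx : x0 ^ 4 ≠ 1) :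
    fderiv ℂ (fun q : ℂ × ℂ => pt q.1 (y q.1) q.2) (x0, t0)
        (zx c d x0 (y x0) t0, zt c d u x0 (y x0) t0)
      = Z4 c d u p (pt x0 (y x0) t0) + (-ZU c x0 (y x0) t0) • pt x0 (y x0) t0 := by
  have hye := hy.hasDerivAt hx
  have h0 := root_ne hy.pow hx
  have hA : HasDerivAt (fun x => pt x (y x) t0) ((1 : ℂ) • EuclideanSpace.single 0 1
      + (x0 ^ 3 / y x0 ^ 3) • EuclideanSpace.single 1 1) x0 := by
    simp only [pt_eq]
    exact ((((hasDerivAt_id' x0).smul_const _).fun_add (hye.smul_const _)).add_const _).add_const _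
  have hB : HasDerivAt (fun t => pt x0 (y x0) t) ((1 : ℂ) • EuclideanSpace.single 3 1) t0 := by
    simp only [pt_eq]
    exact ((hasDerivAt_id' t0).smul_const _).const_add _
  rw [fderiv_pair ((pt_contDiffAt hy t0).differentiableAt (by simp)) hA hB]
  have k1 := cross_UX c d x0 (y x0) 1 t0
  have k2 := cross_YU c d p x0 (y x0) 1 t0 (fF_eq hy.pow)
  ext i
  fin_cases i
  · simp [pt, Z4, zx]; linear_combination -k1
  · simp [pt, Z4, zx]; field_simp; linear_combination k2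
  · simp [pt, Z4]
  · simp [pt, Z4, zt]; ring

/-- The pairing of a `(1,0)`-form with the field. -/
def ga (c d u p : ℂ) (α : E 4 → Fin 4 → ℂ) (x y t : ℂ) : ℂ :=
  ∑ j, α (pt x y t) j * Z4 c d u p (pt x y t) j

theorem Z4_contDiffAt (c d u p : ℂ) {y : ℂ → ℂ} {x0 : ℂ} (hy : Br y x0) (t0 : ℂ) (j : Fin 4) :
    ContDiffAt ℂ ∞ (fun q : ℂ × ℂ => Z4 c d u p (pt q.1 (y q.1) q.2) j) (x0, t0) :=
  (EuclideanSpace.proj j : E 4 →L[ℂ] ℂ).contDiff.contDiffAt.comp _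
    ((homMap_Z4 c d u p).cd.contDiffAt.comp _ (pt_contDiffAt hy t0))

theorem ga_local {c d u p x0 t0 : ℂ} {y : ℂ → ℂ} {α : E 4 → Fin 4 → ℂ} (hα : IsForm10 α)
    (hy : Br y x0) (hx : x0 ^ 4 ≠ 1) :
    ContDiffAt ℝ ∞ (fun q : ℂ × ℂ => ga c d u p α q.1 (y q.1) q.2) (x0, t0) ∧
    dzb (fun q : ℂ × ℂ => ga c d u p α q.1 (y q.1) q.2) (x0, t0)
        (zx c d x0 (y x0) t0, zt c d u x0 (y x0) t0)
      = ev (fun j k => pdb k (fun w => α w j) (pt x0 (y x0) t0)) (Z4 c d u p (pt x0 (y x0) t0)) := by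
  have hP := pt_contDiffAt hy t0
  have hne := pt_ne x0 (y x0) t0
  have ha : ∀ j, ContDiffAt ℝ ∞ (fun w => α w j) (pt x0 (y x0) t0) := fun j =>
    (contDiffOn_pi.1 hα.1 j).contDiffAt (isOpen_compl_singleton.mem_nhds hne)
  have ha' : ∀ j, ContDiffAt ℝ ∞ (fun q : ℂ × ℂ => α (pt q.1 (y q.1) q.2) j) (x0, t0) := fun j =>
    ContDiffAt.comp (g := fun w => α w j) (x0, t0) (ha j) (hP.restrict_scalars ℝ)
  have hZ := Z4_contDiffAt c d u p hy t0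
  refine ⟨ContDiffAt.sum fun j _ => (ha' j).mul ((hZ j).restrict_scalars ℝ), ?_⟩
  unfold ga ev
  rw [dzb_sum _ fun j _ => ((ha' j).mul ((hZ j).restrict_scalars ℝ)).differentiableAt (by simp)]
  refine Finset.sum_congr rfl fun j _ => ?_
  rw [dzb_mul ((ha' j).differentiableAt (by simp))
      (((hZ j).restrict_scalars ℝ).differentiableAt (by simp)),
    dzb_holo ((hZ j).differentiableAt (by simp)),
    dzb_comp_holo (G := fun w => α w j) (x := fun q : ℂ × ℂ => pt q.1 (y q.1) q.2)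
      ((ha j).differentiableAt (by simp)) (hP.differentiableAt (by simp)),
    pt_fderiv p hy hx, dzb_add_vec, dzb_smul_vec,
    (dz_radial ((ha j).differentiableAt (by simp)) (-1) ?_).2, dzb_eq_sum, mul_zero, mul_zero,
    add_zero, add_zero, Finset.sum_mul]
  · exact Finset.sum_congr rfl fun k _ => by ring
  · filter_upwards [isOpen_compl_singleton.mem_nhds (one_ne_zero : (1 : ℂ) ≠ 0)] with a ha
    rw [hα.2.1 _ hne a ha, zpow_neg_one]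

theorem div_abs {f ζ1 ζ2 : ℂ × ℂ → ℂ} {W : ℂ × ℂ → ℝ} {q : ℂ × ℂ} (hf : DifferentiableAt ℝ f q)
    (h1 : DifferentiableAt ℂ ζ1 q) (h2 : DifferentiableAt ℂ ζ2 q)
    (hW : DifferentiableAt ℝ (fun w => (W w : ℂ)) q)
    (hdiv : (fderiv ℂ ζ1 q (1, 0) + fderiv ℂ ζ2 q (0, 1)) * (W q : ℂ)
      + dz (fun w => (W w : ℂ)) q (ζ1 q, ζ2 q) = 0) :
    dzb (fun w => f w * (conj (ζ1 w) * W w)) q (1, 0)
      + dzb (fun w => f w * (conj (ζ2 w) * W w)) q (0, 1) = dzb f q (ζ1 q, ζ2 q) * W q := by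
  have r1 : DifferentiableAt ℝ (fun w => conj (ζ1 w)) q :=
    Complex.conjCLE.differentiableAt.comp q (h1.restrictScalars ℝ)
  have r2 : DifferentiableAt ℝ (fun w => conj (ζ2 w)) q :=
    Complex.conjCLE.differentiableAt.comp q (h2.restrictScalars ℝ)
  have ev : (ζ1 q, ζ2 q) = ζ1 q • ((1 : ℂ), (0 : ℂ)) + ζ2 q • ((0 : ℂ), (1 : ℂ)) := by
    ext <;> simp
  have hw : ∀ v, dzb (fun w => (W w : ℂ)) q v = conj (dz (fun w => (W w : ℂ)) q v) :=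
    fun v => dzb_ofReal W q v
  have hd := congrArg conj hdiv
  rw [ev, dz_add_vec, dz_smul_vec, dz_smul_vec] at hd
  simp only [map_add, map_mul, Complex.conj_ofReal, map_zero] at hd
  rw [dzb_mul hf (r1.fun_mul hW), dzb_mul hf (r2.fun_mul hW), dzb_mul r1 hW, dzb_mul r2 hW,
    dzb_conj, dzb_conj, dz_holo h1, dz_holo h2, hw, hw, ev, dzb_add_vec, dzb_smul_vec,
    dzb_smul_vec]
  linear_combination f q * hd

theorem zx_contDiffAt (c d : ℂ) {y : ℂ → ℂ} {x0 : ℂ} (hy : Br y x0) (t0 : ℂ) :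
    ContDiffAt ℂ ∞ (fun q : ℂ × ℂ => zx c d q.1 (y q.1) q.2) (x0, t0) := by
  have hy' : ContDiffAt ℂ ∞ y (x0, t0).1 := hy.1.contDiffAt
  unfold zx AA P0 Q0; fun_prop

theorem zt_contDiffAt (c d u : ℂ) {y : ℂ → ℂ} {x0 : ℂ} (hy : Br y x0) (t0 : ℂ) :
    ContDiffAt ℂ ∞ (fun q : ℂ × ℂ => zt c d u q.1 (y q.1) q.2) (x0, t0) := by
  have hy' : ContDiffAt ℂ ∞ y (x0, t0).1 := hy.1.contDiffAt
  unfold zt ZT ZU; fun_prop

/-- The local identity behind approximate closedness. -/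
theorem local_identity {c d u p x0 t0 : ℂ} {y : ℂ → ℂ} {H : ℂ → ℂ × ℂ → ℝ} {g : ℝ} (hg : 0 < g)
    {φ1 φ2 : ℂ → ℂ × ℂ} (hcd : c ^ 2 - d ^ 2 = 1) (hφ : ∀ᶠ x in 𝓝 x0, Loc c d u H g φ1 φ2 x)
    (hy : Br y x0) (hx : x0 ^ 4 ≠ 1) (hs : sv c d x0 (y x0) t0 ≠ 0) {α : E 4 → Fin 4 → ℂ}
    (hα : IsForm10 α) {k : ℂ × ℂ → ℂ} (hk : DifferentiableAt ℝ k (x0, t0)) :
    dzb (fun q : ℂ × ℂ => k q * k q * (ga c d u p α q.1 (y q.1) q.2
        * (conj (zx c d q.1 (y q.1) q.2) * wg H c d q.1 (y q.1) q.2))) (x0, t0) (1, 0)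
      + dzb (fun q : ℂ × ℂ => k q * k q * (ga c d u p α q.1 (y q.1) q.2
        * (conj (zt c d u q.1 (y q.1) q.2) * wg H c d q.1 (y q.1) q.2))) (x0, t0) (0, 1)
      = k (x0, t0) * k (x0, t0) * (ev (fun j k => pdb k (fun w => α w j) (pt x0 (y x0) t0))
          (Z4 c d u p (pt x0 (y x0) t0)) * wg H c d x0 (y x0) t0)
        + 2 * k (x0, t0) * dzb k (x0, t0) (zx c d x0 (y x0) t0, zt c d u x0 (y x0) t0)
          * ga c d u p α x0 (y x0) t0 * wg H c d x0 (y x0) t0 := by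
  obtain ⟨w1, w2⟩ := wg_local hg hcd hφ hy hx hs
  obtain ⟨g1, g2⟩ := ga_local (c := c) (d := d) (u := u) (p := p) (t0 := t0) hα hy hx
  have g1' := g1.differentiableAt (by simp)
  have := div_abs (W := fun q : ℂ × ℂ => wg H c d q.1 (y q.1) q.2)
    ((hk.fun_mul hk).fun_mul g1') ((zx_contDiffAt c d hy t0).differentiableAt (by simp))
    ((zt_contDiffAt c d u hy t0).differentiableAt (by simp)) (w1.differentiableAt (by simp)) w2
  simp only [mul_assoc] at this ⊢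
  rw [this, dzb_mul hk (hk.fun_mul g1'), dzb_mul hk g1', g2]
  ring

end A590.X2
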