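import Pool.Agent.Lib.A590Exist2

/-!
Block X2, part 3: the approximating currents.
-/

open scoped ComplexConjugate ComplexOrder ContDiff Topology InnerProductSpace
open MeasureTheory Filter

noncomputable section

namespace A590.X2

structure Dat (c d u : ℂ) (H : ℂ → ℂ × ℂ → ℝ) (g : ℝ) (F : Finset ℂ) : Prop where
  hg : 0 < g
  hcd : c ^ 2 - d ^ 2 = 1
  ne : ∀ x ∉ F, x ^ 4 ≠ 1
  sne : ∀ x ∉ F, ∀ y t, y ^ 4 = x ^ 4 - 1 → sv c d x y t ≠ 0
  loc : ∀ x0, x0 ^ 4 ≠ 1 → ∃ φ1 φ2, ∀ᶠ x in 𝓝 x0, Loc c d u H g φ1 φ2 x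

structure Cut (F : Finset ℂ) (k : ℂ × ℂ → ℝ) : Prop where
  cd : ContDiff ℝ ∞ k
  cs : HasCompactSupport k
  av : ∀ q ∈ tsupport k, q.1 ∉ F

/-- Sum over the four sheets. -/
def SS {M : Type*} [AddCommMonoid M] (G : ℂ → ℂ → ℂ → M) (q : ℂ × ℂ) : M :=
  ∑ i : Fin 4, G q.1 (Complex.I ^ (i : ℕ) * y0 q.1) q.2

def Reg {M : Type*} [TopologicalSpace M] (F : Finset ℂ) (G : ℂ → ℂ → ℂ → M) : Prop :=
  ∀ x0 ∉ F, ∀ y, Br y x0 → ∀ t0, ContinuousAt (fun q : ℂ × ℂ => G q.1 (y q.1) q.2) (x0, t0)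

theorem SS_local {M : Type*} [AddCommMonoid M] (G : ℂ → ℂ → ℂ → M) {y : ℂ → ℂ} {x0 : ℂ}
    (hy : Br y x0) (t0 : ℂ) : SS G =ᶠ[𝓝 (x0, t0)]
      fun q => ∑ i : Fin 4, G q.1 (Complex.I ^ (i : ℕ) * y q.1) q.2 := by
  filter_upwards [(continuous_fst.tendsto (x0, t0)).eventually hy.2] with q hq
  exact sum_roots (fun z => G q.1 z q.2) (by rw [y0_pow, hq])

theorem root_i (i : Fin 4) (x : ℂ) : (Complex.I ^ (i : ℕ) * y0 x) ^ 4 = x ^ 4 - 1 := by
  rw [I_mul_pow, y0_pow]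

variable {c d u : ℂ} {H : ℂ → ℂ × ℂ → ℝ} {g : ℝ} {F : Finset ℂ}

theorem Reg.continuousAt {M : Type*} [NormedRing M] (D : Dat c d u H g F) {G : ℂ → ℂ → ℂ → M}
    (hG : Reg F G) {q : ℂ × ℂ} (hq : q.1 ∉ F) : ContinuousAt (SS G) q := by
  obtain ⟨x0, t0⟩ := q
  obtain ⟨y, hy⟩ := exists_br (D.ne x0 hq)
  refine ContinuousAt.congr ?_ (SS_local G hy t0).symm
  exact tendsto_finsetSum _ fun i _ => hG x0 hq _ (hy.mul_I i) t0

theorem Reg.integrable {M : Type*} [NormedRing M] (D : Dat c d u H g F) {G : ℂ → ℂ → ℂ → M}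
    (hG : Reg F G) {a : ℂ × ℂ → M} (ha : Continuous a) (hc : HasCompactSupport a)
    (hs : ∀ q ∈ tsupport a, q.1 ∉ F) : Integrable fun q => a q * SS G q := by
  refine Continuous.integrable_of_hasCompactSupport ?_ hc.mul_right
  refine continuous_of_tsupport fun q hq => ?_
  exact ha.continuousAt.mul (hG.continuousAt D (hs q (tsupport_mul_subset_left hq)))

theorem Dat.wg_cd (D : Dat c d u H g F) {x0 : ℂ} (hx : x0 ∉ F) {y : ℂ → ℂ} (hy : Br y x0) (t0 : ℂ) :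
    ContDiffAt ℝ ∞ (fun q : ℂ × ℂ => (wg H c d q.1 (y q.1) q.2 : ℂ)) (x0, t0) := by
  obtain ⟨φ1, φ2, hφ⟩ := D.loc x0 (D.ne x0 hx)
  exact (wg_local D.hg D.hcd hφ hy (D.ne x0 hx) (D.sne x0 hx _ t0 hy.pow)).1

theorem Dat.reg_wg (D : Dat c d u H g F) : Reg F (wg H c d) := fun _ hx _ hy t0 => by
  simpa using Complex.continuous_re.continuousAt.comp' (D.wg_cd hx hy t0).continuousAt

theorem Dat.wg_pos (D : Dat c d u H g F) {x y : ℂ} (hx : x ∉ F) (hy : y ^ 4 = x ^ 4 - 1) (t : ℂ) :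
    0 < wg H c d x y t := by
  obtain ⟨φ1, φ2, hφ⟩ := D.loc x (D.ne x hx)
  have h := hφ.self_of_nhds
  have h1 := det_ne (h.det_ne D.hg) (D.sne x hx y t hy)
  have h2 := norm_pos_iff.2 (root_ne hy (D.ne x hx))
  unfold wg
  rw [h.2.2.2]; positivity

/-- The integrand of the current. -/
def itg (c d u p : ℂ) (H : ℂ → ℂ × ℂ → ℝ) (ψ : E 4 → Fin 4 → Fin 4 → ℂ) (x y t : ℂ) : ℂ :=
  ev (ψ (pt x y t)) (Z4 c d u p (pt x y t)) * wg H c d x y t

/-- The mass density. -/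
def mm (c d u p : ℂ) (H : ℂ → ℂ × ℂ → ℝ) (x y t : ℂ) : ℝ :=
  fs (pt x y t) (Z4 c d u p (pt x y t)) * wg H c d x y t

def TT (c d u p : ℂ) (H : ℂ → ℂ × ℂ → ℝ) (k : ℂ × ℂ → ℝ) (ψ : E 4 → Fin 4 → Fin 4 → ℂ) : ℂ :=
  ∫ q, (k q : ℂ) * k q * SS (itg c d u p H ψ) q

def MM (c d u p : ℂ) (H : ℂ → ℂ × ℂ → ℝ) (k : ℂ × ℂ → ℝ) : ℝ :=
  ∫ q, k q * k q * SS (mm c d u p H) q

variable {p : ℂ}

theorem mm_nonneg (x y t : ℂ) : 0 ≤ mm c d u p H x y t :=
  mul_nonneg (fs_nonneg _ _) (wg_nonneg _ _ _ _ _ _)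

theorem SS_mm_nonneg (q : ℂ × ℂ) : 0 ≤ SS (mm c d u p H) q :=
  Finset.sum_nonneg fun _ _ => mm_nonneg _ _ _

theorem itg_om (x y t : ℂ) : itg c d u p H om x y t = mm c d u p H x y t := by
  unfold itg mm; rw [ev_om (pt_ne x y t)]; push_cast; rfl

theorem Dat.reg_itg (D : Dat c d u H g F) {ψ : E 4 → Fin 4 → Fin 4 → ℂ}
    (hψ : ContinuousOn ψ {0}ᶜ) : Reg F (itg c d u p H ψ) := by
  intro x0 hx y hy t0
  unfold itg ev
  refine ContinuousAt.mul ?_ (D.wg_cd hx hy t0).continuousAt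
  refine tendsto_finsetSum _ fun j _ => tendsto_finsetSum _ fun k _ => ?_
  have h1 : ContinuousAt (fun z => ψ z j k) (pt x0 (y x0) t0) :=
    (continuousOn_pi.1 (continuousOn_pi.1 hψ j) k).continuousAt
      (isOpen_compl_singleton.mem_nhds (pt_ne _ _ _))
  have h2 : ContinuousAt (fun q : ℂ × ℂ => ψ (pt q.1 (y q.1) q.2) j k) (x0, t0) :=
    ContinuousAt.comp (g := fun z => ψ z j k) h1 (pt_contDiffAt hy t0).continuousAt
  exact h2.mul ((Z4_contDiffAt c d u p hy t0 j).continuousAt.mul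
    (Complex.continuous_conj.continuousAt.comp (Z4_contDiffAt c d u p hy t0 k).continuousAt))

theorem Dat.reg_mm (D : Dat c d u H g F) : Reg F (mm c d u p H) := fun x0 hx y hy t0 => by
  have := D.reg_itg (p := p) (om_mem (n := 4)).1.continuousOn x0 hx y hy t0
  simp only [itg_om] at this
  simpa using Complex.continuous_re.continuousAt.comp' this

variable {k : ℂ × ℂ → ℝ}

theorem Cut.cdC (K : Cut F k) : ContDiff ℝ ∞ fun q => (k q : ℂ) :=
  Complex.ofRealCLM.contDiff.comp K.cd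

theorem Cut.tsupp (k : ℂ × ℂ → ℝ) : tsupport (fun q => (k q : ℂ) * k q) ⊆ tsupport k :=
  closure_mono fun q hq h => hq (by simp [h])

theorem Cut.csC (K : Cut F k) : HasCompactSupport fun q => (k q : ℂ) * k q :=
  K.cs.mono' (subset_tsupport _ |>.trans (Cut.tsupp k))

theorem Dat.int_itg (D : Dat c d u H g F) (K : Cut F k) {ψ : E 4 → Fin 4 → Fin 4 → ℂ}
    (hψ : ContinuousOn ψ {0}ᶜ) :
    Integrable fun q => (k q : ℂ) * k q * SS (itg c d u p H ψ) q :=
  (D.reg_itg hψ).integrable D (K.cdC.continuous.mul K.cdC.continuous) K.csC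
    fun q hq => K.av q (Cut.tsupp k hq)

theorem Dat.int_mm (D : Dat c d u H g F) (K : Cut F k) :
    Integrable fun q => k q * k q * SS (mm c d u p H) q :=
  D.reg_mm.integrable D (K.cd.continuous.mul K.cd.continuous) K.cs.mul_right
    fun q hq => K.av q (tsupport_mul_subset_left hq)

theorem TT_om : TT c d u p H k om = MM c d u p H k := by
  unfold TT MM
  rw [← integral_complex_ofReal]
  congr 1
  funext q
  simp only [SS, itg_om]
  push_cast; rfl

/-- The approximating current. -/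
def Dat.cur (D : Dat c d u H g F) (p : ℂ) (K : Cut F k) : Current 4 where
  toFun φ := TT c d u p H k φ.1
  map_add' φ ψ := by
    unfold TT
    rw [← integral_add (D.int_itg K φ.2.1.continuousOn) (D.int_itg K ψ.2.1.continuousOn)]
    congr 1
    funext q
    simp only [SS, itg, ev, Submodule.coe_add, Pi.add_apply, add_mul, Finset.sum_add_distrib,
      mul_add]
  map_smul' a φ := by
    unfold TT
    rw [RingHom.id_apply, smul_eq_mul, ← integral_const_mul]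
    congr 1
    funext q
    simp only [SS, itg, ev, Submodule.coe_smul, Pi.smul_apply, smul_eq_mul, mul_assoc,
      ← Finset.mul_sum]
    ring

theorem Dat.cur_apply (D : Dat c d u H g F) (K : Cut F k) (φ : Form11 4) :
    D.cur p K φ = TT c d u p H k φ.1 := rfl

theorem Dat.cur_pos (D : Dat c d u H g F) (K : Cut F k) : Positive (D.cur p K) := by
  intro φ hφ
  rw [D.cur_apply]
  refine integral_nonneg fun q => ?_
  refine mul_nonneg ?_ (Finset.sum_nonneg fun i _ => ?_)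
  · rw [← Complex.ofReal_mul]; exact Complex.zero_le_real.2 (mul_self_nonneg _)
  exact mul_nonneg (hφ _ (pt_ne _ _ _) _) (Complex.zero_le_real.2 (wg_nonneg _ _ _ _ _ _))

theorem Dat.cur_dir (D : Dat c d u H g F) (K : Cut F k) {V : E 4 → E 4} {ε : ℂ}
    (hV : ∀ z, f4 z = 0 → V z = ε • Z4 c d u p z) (hε : ε ≠ 0) :
    StronglyDirected V (D.cur p K) := by
  intro φ hφ
  rw [D.cur_apply]
  unfold TT
  have : ∀ x y t, y ^ 4 = x ^ 4 - 1 → itg c d u p H φ.1 x y t = 0 := fun x y t h => by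
    unfold itg ev
    rw [Finset.sum_comm, Finset.sum_eq_zero, zero_mul]
    intro l _
    have h1 := hφ _ (pt_ne x y t) l
    rw [hV _ (f4_pt h t)] at h1
    simp only [PiLp.smul_apply, smul_eq_mul, mul_left_comm _ ε, ← Finset.mul_sum] at h1
    simp only [← mul_assoc, ← Finset.sum_mul, (mul_eq_zero.1 h1).resolve_left hε, zero_mul]
  simp [SS, this _ _ _ (root_i _ _)]

theorem Dat.TT_bound (D : Dat c d u H g F) (K : Cut F k) {ψ : E 4 → Fin 4 → Fin 4 → ℂ} {C : ℝ}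
    (hC : ∀ z : E 4, z ≠ 0 → ∀ v, ‖ev (ψ z) v‖ ≤ C * fs z v) :
    ‖TT c d u p H k ψ‖ ≤ C * MM c d u p H k := by
  unfold TT MM
  rw [← integral_const_mul]
  refine norm_integral_le_of_norm_le ((D.int_mm K).const_mul C) (Eventually.of_forall fun q => ?_)
  rw [norm_mul, ← Complex.ofReal_mul, Complex.norm_real, Real.norm_of_nonneg (mul_self_nonneg _),
    mul_left_comm]
  refine mul_le_mul_of_nonneg_left ?_ (mul_self_nonneg _)
  unfold SS
  rw [Finset.mul_sum]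
  refine (norm_sum_le _ _).trans (Finset.sum_le_sum fun i _ => ?_)
  unfold itg mm
  rw [norm_mul, Complex.norm_real, Real.norm_of_nonneg (wg_nonneg _ _ _ _ _ _), ← mul_assoc]
  exact mul_le_mul_of_nonneg_right (hC _ (pt_ne _ _ _) _) (wg_nonneg _ _ _ _ _ _)

theorem integral_dzb {Φ : ℂ × ℂ → ℂ} (h : ContDiff ℝ ∞ Φ) (hc : HasCompactSupport Φ) (v : ℂ × ℂ) :
    Integrable (fun q => dzb Φ q v) ∧ ∫ q, dzb Φ q v = 0 := by
  have hi : ∀ w, Integrable fun q => fderiv ℝ Φ q w := fun w =>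
    ((h.continuous_fderiv (by simp)).clm_apply continuous_const).integrable_of_hasCompactSupport
      (hc.fderiv_apply ℝ w)
  have : (volume : Measure (ℂ × ℂ)).IsAddHaarMeasure :=
    inferInstanceAs ((volume : Measure ℂ).prod (volume : Measure ℂ)).IsAddHaarMeasure
  have h0 : ∀ w, ∫ q, fderiv ℝ Φ q w = 0 := fun w => by
    have := integral_mul_fderiv_eq_neg_fderiv_mul_of_integrable (μ := volume)
      (f := fun _ : ℂ × ℂ => (1 : ℂ)) (g := Φ) (v := w) (by simp) (by simpa using hi w)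
      (by simpa using h.continuous.integrable_of_hasCompactSupport hc)
      (fun _ _ => differentiableAt_const _) (fun q _ => h.differentiable (by simp) q)
    simpa using this
  unfold dzb
  refine ⟨((hi v).add ((hi _).const_mul _)).div_const _, ?_⟩
  rw [integral_div, integral_add (hi v) ((hi _).const_mul _), integral_const_mul, h0, h0]
  simp

theorem Dat.cd_SS (D : Dat c d u H g F) (K : Cut F k) {G : ℂ → ℂ → ℂ → ℂ}
    (hG : ∀ x0 ∉ F, ∀ y, Br y x0 → ∀ t0,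
      ContDiffAt ℝ ∞ (fun q : ℂ × ℂ => G q.1 (y q.1) q.2) (x0, t0)) :
    ContDiff ℝ ∞ fun q => (k q : ℂ) * k q * SS G q := by
  refine contDiff_iff_contDiffAt.2 fun q => ?_
  by_cases hq : q ∈ tsupport fun q => (k q : ℂ) * k q * SS G q
  swap
  · exact contDiffAt_const.congr_of_eventuallyEq (notMem_tsupport_iff_eventuallyEq.1 hq)
  have hq' := K.av q (Cut.tsupp k (tsupport_mul_subset_left hq))
  obtain ⟨x0, t0⟩ := q
  obtain ⟨y, hy⟩ := exists_br (D.ne x0 hq')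
  refine (K.cdC.contDiffAt.mul K.cdC.contDiffAt).mul
    (ContDiffAt.congr_of_eventuallyEq ?_ (SS_local G hy t0))
  exact ContDiffAt.sum fun i _ => hG x0 hq' _ (hy.mul_I i) t0

theorem pdb_continuousOn {α : E 4 → Fin 4 → ℂ} (hα : IsForm10 α) :
    ContinuousOn (fun z j l => pdb l (fun w => α w j) z) {0}ᶜ := by
  refine continuousOn_pi.2 fun j => continuousOn_pi.2 fun l => fun z hz => ?_
  have ha : ContDiffAt ℝ ∞ (fun w => α w j) z :=
    (contDiffOn_pi.1 hα.1 j).contDiffAt (isOpen_compl_singleton.mem_nhds hz)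
  have := (contDiffAt_dz ha (EuclideanSpace.single l 1)).2.continuousAt
  exact (ContinuousAt.comp (f := fun z : E 4 => (z, (EuclideanSpace.single l 1 : E 4))) this
    (by fun_prop)).continuousWithinAt

theorem Dat.closed_est (D : Dat c d u H g F) {α : E 4 → Fin 4 → ℂ} (hα : IsForm10 α) :
    ∃ C : ℝ, 0 ≤ C ∧ ∀ k : ℂ × ℂ → ℝ, Cut F k → ∀ η : ℝ, 0 < η → ∀ b : ℂ × ℂ → ℝ, Integrable b →
      (∀ q, 0 ≤ b q) → (∀ q : ℂ × ℂ, q.1 ∉ F → SS (fun x y t =>
        ‖dzb (fun q => (k q : ℂ)) (x, t) (zx c d x y t, zt c d u x y t)‖ ^ 2 * wg H c d x y t) q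
          ≤ b q) →
      ‖TT c d u p H k fun z j l => pdb l (fun w => α w j) z‖
        ≤ η * C * MM c d u p H k + η⁻¹ * ∫ q, b q := by
  obtain ⟨C, hC0, hC⟩ := form10_bound hα
  refine ⟨C, hC0, fun k K η hη b hb hb0 hbq => ?_⟩
  obtain ⟨G1, hG1⟩ : ∃ G1 : ℂ → ℂ → ℂ → ℂ, G1 = fun x y t =>
    ga c d u p α x y t * (conj (zx c d x y t) * wg H c d x y t) := ⟨_, rfl⟩
  obtain ⟨G2, hG2⟩ : ∃ G2 : ℂ → ℂ → ℂ → ℂ, G2 = fun x y t =>
    ga c d u p α x y t * (conj (zt c d u x y t) * wg H c d x y t) := ⟨_, rfl⟩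
  obtain ⟨Er, hEr⟩ : ∃ Er : ℂ → ℂ → ℂ → ℂ, Er = fun x y t =>
    2 * (k (x, t) : ℂ) * dzb (fun q => (k q : ℂ)) (x, t) (zx c d x y t, zt c d u x y t)
      * ga c d u p α x y t * wg H c d x y t := ⟨_, rfl⟩
  have r1 : ∀ x0 ∉ F, ∀ y, Br y x0 → ∀ t0,
      ContDiffAt ℝ ∞ (fun q : ℂ × ℂ => G1 q.1 (y q.1) q.2) (x0, t0) := fun x0 hx y hy t0 => by
    rw [hG1]
    exact (ga_local hα hy (D.ne x0 hx)).1.mul ((contDiff_conj.contDiffAt.comp _
      ((zx_contDiffAt c d hy t0).restrict_scalars ℝ)).mul (D.wg_cd hx hy t0))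
  have r2 : ∀ x0 ∉ F, ∀ y, Br y x0 → ∀ t0,
      ContDiffAt ℝ ∞ (fun q : ℂ × ℂ => G2 q.1 (y q.1) q.2) (x0, t0) := fun x0 hx y hy t0 => by
    rw [hG2]
    exact (ga_local hα hy (D.ne x0 hx)).1.mul ((contDiff_conj.contDiffAt.comp _
      ((zt_contDiffAt c d u hy t0).restrict_scalars ℝ)).mul (D.wg_cd hx hy t0))
  obtain ⟨i1, z1⟩ := integral_dzb (D.cd_SS K r1) K.csC.mul_right (1, 0)
  obtain ⟨i2, z2⟩ := integral_dzb (D.cd_SS K r2) K.csC.mul_right (0, 1)
  have k0 : ∀ q : ℂ × ℂ, q.1 ∈ F → k =ᶠ[𝓝 q] fun _ => 0 := fun q hq =>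
    notMem_tsupport_iff_eventuallyEq.1 fun h => K.av q h hq
  have key : ∀ q : ℂ × ℂ, dzb (fun q => (k q : ℂ) * k q * SS G1 q) q (1, 0)
      + dzb (fun q => (k q : ℂ) * k q * SS G2 q) q (0, 1)
      = (k q : ℂ) * k q * SS (itg c d u p H fun z j l => pdb l (fun w => α w j) z) q
        + SS Er q := by
    rintro ⟨x0, t0⟩
    by_cases hx : x0 ∈ F
    · have h0 := k0 (x0, t0) hx
      have e : ∀ G : ℂ → ℂ → ℂ → ℂ, (fun q => (k q : ℂ) * k q * SS G q) =ᶠ[𝓝 (x0, t0)]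
          fun _ => 0 := fun G => h0.mono fun q hq => by simp [hq]
      rw [dzb_congr (e G1), dzb_congr (e G2), dzb_const, dzb_const]
      simp [SS, hEr, h0.self_of_nhds]
    · obtain ⟨y, hy⟩ := exists_br (D.ne x0 hx)
      obtain ⟨φ1, φ2, hφ⟩ := D.loc x0 (D.ne x0 hx)
      have e : ∀ G : ℂ → ℂ → ℂ → ℂ, (fun q => (k q : ℂ) * k q * SS G q) =ᶠ[𝓝 (x0, t0)]
          fun q => ∑ i : Fin 4, (k q : ℂ) * k q * G q.1 (Complex.I ^ (i : ℕ) * y q.1) q.2 :=
        fun G => (SS_local G hy t0).mono fun q hq => by simp only [hq, Finset.mul_sum]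
      have kd := (K.cdC.contDiffAt (x := (x0, t0)))
      rw [dzb_congr (e G1), dzb_congr (e G2), dzb_sum _ fun (i : Fin 4) _ =>
          ((kd.mul kd).mul (r1 x0 hx _ (hy.mul_I i) t0)).differentiableAt (by simp),
        dzb_sum _ fun (i : Fin 4) _ =>
          ((kd.mul kd).mul (r2 x0 hx _ (hy.mul_I i) t0)).differentiableAt (by simp),
        (SS_local _ hy t0).self_of_nhds, (SS_local _ hy t0).self_of_nhds, Finset.mul_sum,
        ← Finset.sum_add_distrib, ← Finset.sum_add_distrib]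
      refine Finset.sum_congr rfl fun i _ => ?_
      rw [hG1, hG2, hEr]
      exact local_identity D.hg D.hcd hφ (hy.mul_I i) (D.ne x0 hx)
        (D.sne x0 hx _ t0 (hy.mul_I i).pow) hα (kd.differentiableAt (by simp))
  have iA := D.int_itg (p := p) K (pdb_continuousOn hα)
  have e1 : TT c d u p H k (fun z j l => pdb l (fun w => α w j) z) = ∫ q, -SS Er q := by
    have : ∀ q, -SS Er q = (k q : ℂ) * k q
        * SS (itg c d u p H fun z j l => pdb l (fun w => α w j) z) q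
        - (dzb (fun q => (k q : ℂ) * k q * SS G1 q) q (1, 0)
          + dzb (fun q => (k q : ℂ) * k q * SS G2 q) q (0, 1)) := fun q => by rw [key]; ring
    simp only [this]
    rw [integral_sub iA (i1.fun_add i2), integral_add i1 i2, z1, z2, add_zero, sub_zero]
    rfl
  rw [e1]
  unfold MM
  rw [← integral_const_mul, ← integral_const_mul,
    ← integral_add ((D.int_mm K).const_mul _) (hb.const_mul _)]
  refine norm_integral_le_of_norm_le (((D.int_mm K).const_mul _).add (hb.const_mul _))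
    (Eventually.of_forall fun q => ?_)
  rw [norm_neg]
  by_cases hx : q.1 ∈ F
  · have h0 : k q = 0 := (k0 q hx).self_of_nhds
    have := hb0 q
    simp only [SS, hEr, Prod.mk.eta, h0]
    simp
    positivity
  · refine le_trans ?_ (add_le_add le_rfl
      (mul_le_mul_of_nonneg_left (hbq q hx) (inv_nonneg.2 hη.le)))
    unfold SS
    simp only [Finset.mul_sum, ← Finset.sum_add_distrib]
    refine (norm_sum_le _ _).trans (Finset.sum_le_sum fun i _ => ?_)
    have h1 := hC _ (pt_ne q.1 (Complex.I ^ (i : ℕ) * y0 q.1) q.2)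
      (Z4 c d u p (pt q.1 (Complex.I ^ (i : ℕ) * y0 q.1) q.2))
    have hw := wg_nonneg H c d q.1 (Complex.I ^ (i : ℕ) * y0 q.1) q.2
    simp only [hEr, mm, Prod.mk.eta, norm_mul, Complex.norm_real, Real.norm_of_nonneg hw,
      Complex.norm_ofNat, Real.norm_eq_abs]
    change ‖ga c d u p α q.1 (Complex.I ^ (i : ℕ) * y0 q.1) q.2‖ ^ 2 ≤ _ at h1
    generalize ‖ga c d u p α q.1 (Complex.I ^ (i : ℕ) * y0 q.1) q.2‖ = a at *
    generalize fs _ _ = f at *
    generalize wg H c d q.1 (Complex.I ^ (i : ℕ) * y0 q.1) q.2 = w at *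
    generalize ‖dzb (fun q => (k q : ℂ)) q _‖ = e at *
    rw [← abs_mul_abs_self (k q)]
    generalize |k q| = s at *
    have h2 : 2 * s * e * a ≤ η * (s * s) * a ^ 2 + η⁻¹ * e ^ 2 := by
      have : η * (s * s) * a ^ 2 + η⁻¹ * e ^ 2 - 2 * s * e * a = η⁻¹ * (η * s * a - e) ^ 2 := by
        field_simp; ring
      have : 0 ≤ η⁻¹ * (η * s * a - e) ^ 2 := by positivity
      linarith
    have h3 : η * (s * s) * a ^ 2 ≤ η * (s * s) * (C * f) :=
      mul_le_mul_of_nonneg_left h1 (mul_nonneg hη.le (mul_self_nonneg s))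
    calc 2 * s * e * a * w ≤ (η * (s * s) * (C * f) + η⁻¹ * e ^ 2) * w :=
          mul_le_mul_of_nonneg_right (h2.trans (add_le_add h3 le_rfl)) hw
      _ = _ := by ring

end A590.X2
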