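import Pool.Agent.Lib.A590Limit1
import Pool.Agent.Lib.A590Core2

open scoped ComplexConjugate ComplexOrder ContDiff Topology InnerProductSpace
open MeasureTheory Filter

noncomputable section

namespace A590

variable {n : ℕ}

theorem Degen.dir_on {S : Setup n} (D : Degen S) :
    ∀ᵐ ξ ∂(D.m0 : Measure (Xi n)), S.f ξ.z = 0 → S.W ξ.z ≠ 0 → Dir (S.Z ξ.z) ξ :=
  D.dir_on_aux S.hf.euler (support_ae D.closed0 S.hf)

end A590
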