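import Pool.Agent.Lib.A590Leak1

/-!
The leak estimates, part 2.
-/

open scoped ComplexConjugate ComplexOrder ContDiff Topology InnerProductSpace
open MeasureTheory Filter

noncomputable section

namespace A590

variable {n : ℕ}

namespace PL

theorem norm_h_ge (a b : ℂ) {ε : ℝ} (hε : 0 < ε) : ‖a‖ - ε * ‖b‖ ≤ ‖a + ε * b‖ := by
  have h := norm_sub_norm_le a (-(ε * b))
  rwa [sub_neg_eq_add, norm_neg, norm_mul, Complex.norm_real, Real.norm_eq_abs, abs_of_pos hε] at h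

theorem norm_h_le (a b : ℂ) {ε : ℝ} (hε : 0 < ε) : ‖a + ε * b‖ ≤ ‖a‖ + ε * ‖b‖ := by
  have h := norm_add_le a (ε * b)
  rwa [norm_mul, Complex.norm_real, Real.norm_eq_abs, abs_of_pos hε] at h

/-- the region where `N ≥ ε c / 2` and `h ≤ ε B` -/
theorem real_small {l N D h ε c B : ℝ} (hl : 0 ≤ l) (hD : 0 ≤ D) (hε : 0 < ε) (hc : 0 < c)
    (hN : ε * c / 2 ≤ N) (e : N * D = l * h) (hh : h ≤ ε * B) : D ≤ 2 * B / c * l := by
  have h1 : ε * c / 2 * D ≤ l * (ε * B) :=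
    (mul_le_mul_of_nonneg_right hN hD).trans (e ▸ mul_le_mul_of_nonneg_left hh hl)
  rw [div_mul_eq_mul_div, le_div_iff₀ hc]
  nlinarith

/-- region I in case A -/
theorem real_A1 {l N D R h ε c K t ρ C : ℝ} {i : ℕ} (ht : 0 < t) (hl : t ≤ l) (hD : 0 ≤ D)
    (hR : 0 ≤ R) (hc : 0 < c) (hK : 0 < K) (hε : 0 < ε) (hN : 0 ≤ N) (hti : t ^ (i + 1) = K * ε)
    (e : N * D = l * h) (hh : c * l ^ (i + 1) / 2 ≤ h) (e2 : N * R = ε * ρ) (hρ : ρ ≤ C) :
    D * R ≤ l * (2 * C / (c * K) * (t * D ^ 2 / l ^ 3)) := by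
  have hl0 : 0 < l := ht.trans_le hl
  have hli : 0 < l ^ i := by positivity
  have h1 : l * (c * l ^ (i + 1) / 2) ≤ N * D := e ▸ mul_le_mul_of_nonneg_left hh hl0.le
  have h2 : K * ε ≤ t * l ^ i := by
    rw [← hti, pow_succ']; gcongr
  have hC : 0 ≤ C := by
    have : 0 ≤ ε * ρ := e2 ▸ mul_nonneg hN hR
    have := (mul_nonneg_iff_of_pos_left hε).1 this
    linarith
  have h3 : l * (c * l ^ (i + 1) / 2) * R ≤ D * (ε * C) :=
    calc _ ≤ N * D * R := mul_le_mul_of_nonneg_right h1 hR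
      _ = D * (ε * ρ) := by rw [← e2]; ring
      _ ≤ _ := by gcongr
  have h4 : K * (l * (c * l ^ (i + 1) / 2) * R) ≤ D * C * (t * l ^ i) :=
    calc _ ≤ K * (D * (ε * C)) := by gcongr
      _ = D * C * (K * ε) := by ring
      _ ≤ _ := by gcongr
  have h5 : K * c * l ^ 2 * R ≤ 2 * D * C * t := by
    have : l ^ i * (K * c * l ^ 2 * R) ≤ l ^ i * (2 * D * C * t) := by
      rw [pow_succ] at h4; nlinarith
    exact le_of_mul_le_mul_left this hli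
  have e3 : l * (2 * C / (c * K) * (t * D ^ 2 / l ^ 3)) = D * (2 * D * C * t / (K * c * l ^ 2)) := by
    field_simp
  rw [e3]
  refine mul_le_mul_of_nonneg_left ?_ hD
  rw [le_div_iff₀ (by positivity)]; linarith

end PL

open PL

/-- Case A. -/
theorem Degen.plA {S : Setup n} (D : Degen S)
    (hY : ∀ᵐ ξ ∂(D.m0 : Measure (Xi n)), S.f ξ.z = 0 → S.W ξ.z = 0)
    {ψ : E n → ℝ} (hψ : RHom0 ψ) (hpos : ∀ z, 0 ≤ ψ z) {s1 : ℝ} (hs1 : 0 < s1)
    (hgood : ∀ z ∈ tsupport ψ, ‖z‖ = 1 → S.f z = 0 → S.Good z)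
    (hW : ∀ z ∈ tsupport ψ, ‖z‖ = 1 → ‖S.f z‖ ^ 2 ≤ s1 → rz ψ z S.q = 0) :
    ∃ s2 : ℝ, 0 < s2 ∧ ∀ᵐ ξ ∂(D.m0 : Measure (Xi n)),
      S.f ξ.z ≠ 0 → ‖S.f ξ.z‖ ^ 2 < s2 → ψ ξ.z = 0 := by
  have hf := S.hf.cont
  have hZc := S.hZ.cont
  have hψc := hψ.cont
  have hDc := S.hf.cont_Dxi Xi.continuous_v
  have hK : IsClosed {ξ : Xi n | ξ.z ∈ tsupport ψ} := (isClosed_tsupport ψ).preimage Xi.continuous_z
  have hs : Continuous fun ξ : Xi n => ‖S.f ξ.z‖ ^ 2 := by fun_prop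
  have hz0 : ∀ ξ : Xi n, ‖S.f ξ.z‖ ^ 2 = 0 → S.f ξ.z = 0 := fun ξ h => by simpa using h
  obtain ⟨c1, hc1, H1⟩ := exists_lower hK ((cont_eta S).comp Xi.continuous_z).norm hs
    (fun _ => norm_nonneg _) (fun _ => sq_nonneg _) fun ξ hξ h => by
      have := (hgood _ hξ ξ.norm_z (hz0 ξ h)).2.1
      simpa [eta, hz0 ξ h] using this
  obtain ⟨c2, hc2, H2⟩ := exists_lower hK ((cont_perp hZc).comp Xi.continuous_z).norm hs
    (fun _ => norm_nonneg _) (fun _ => sq_nonneg _) fun ξ hξ h =>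
      perp_ne (hgood _ hξ ξ.norm_z (hz0 ξ h)).2.2
  obtain ⟨A, hA, HA⟩ := exists_bound ((cont_eta S).comp Xi.continuous_z)
  obtain ⟨H, hH, HH⟩ := exists_bound ((cont_ht S).comp Xi.continuous_z)
  obtain ⟨Q, hQ, HQ⟩ := exists_bound
    ((cont_perp (continuous_const (y := S.q))).comp Xi.continuous_z)
  have hρc := hψ.cont_rz (hZc.comp Xi.continuous_z)
  obtain ⟨C, hC, HC⟩ := exists_bound hρc
  simp only [Function.comp_def] at H1 H2 HA HH HQ HC hρc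
  obtain ⟨i, hi⟩ : ∃ i, S.j = i + 2 := ⟨S.j - 2, by have := S.hj; omega⟩
  set s2 := min s1 (min c1 c2) / 2 with hs2
  have hs20 : 0 < s2 := by positivity
  have hle1 : 2 * s2 ≤ s1 := by rw [hs2]; linarith [min_le_left s1 (min c1 c2)]
  have hle2 : 2 * s2 ≤ c1 := by
    rw [hs2]; linarith [min_le_right s1 (min c1 c2), min_le_left c1 c2]
  have hle3 : 2 * s2 ≤ c2 := by
    rw [hs2]; linarith [min_le_right s1 (min c1 c2), min_le_right c1 c2]
  have hr : (1 : ℝ) ≤ S.r := by exact_mod_cast S.hr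
  -- main estimate
  have main : ∀ δ0 : ℝ, 0 < δ0 → δ0 ≤ s2 → ∀ η : ℝ, 0 < η → ∀ᶠ k in atTop,
      ∫ ξ, ψ ξ.z * (st (‖S.f ξ.z‖ ^ 2 / δ0) - st (‖S.f ξ.z‖ ^ 2 / s2))
        ∂(D.m k : Measure (Xi n)) ≤ η := by
    intro δ0 hδ0 hδs η hη
    set K := max (2 * H / c1) (24 * C * S.r / (c1 * η)) with hKdef
    have hK0 : 0 < K := lt_max_of_lt_left (by positivity)
    have hK1 : 2 * H ≤ K * c1 := by rw [← div_le_iff₀ hc1]; exact le_max_left _ _
    have hK2 : 24 * C * S.r ≤ K * (c1 * η) := by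
      rw [← div_le_iff₀ (by positivity)]; exact le_max_right _ _
    set B := K * A + H with hB
    set C2 := 4 * B / c2 ^ 2 with hC2
    obtain ⟨e, he, He⟩ := small_null D hρc.norm (fun _ => norm_nonneg _) (η := η / (2 * C2))
      (hY.mono fun ξ hξ h0 => by
        rw [rz_of_not_mem fun h => (hgood _ h ξ.norm_z h0).2.1 (hξ h0), norm_zero])
      (by positivity)
    set τ := min (min e s2) (min 1 (c2 / (2 * K * Q))) with hτ
    have hτ0 : 0 < τ := by positivity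
    have hlim : ∀ᶠ k in atTop, K * D.ε k < τ ^ (i + 1) := by
      have := D.lim.const_mul K
      rw [mul_zero] at this
      exact this.eventually (gt_mem_nhds (by positivity))
    filter_upwards [He, hlim] with k hk1 hk2
    have hε := D.pos k
    set ε := D.ε k with hεdef
    obtain ⟨t, ht0, ht⟩ : ∃ t : ℝ, 0 < t ∧ t ^ (i + 1) = K * ε :=
      ⟨(K * ε) ^ ((i + 1 : ℕ) : ℝ)⁻¹, by positivity,
        Real.rpow_inv_natCast_pow (by positivity) (by omega)⟩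
    have htτ : t < τ := lt_of_pow_lt_pow_left₀ (i + 1) hτ0.le (ht ▸ hk2)
    have ht1 : t ≤ 1 := htτ.le.trans ((min_le_right _ _).trans (min_le_left _ _))
    have hte : t ^ 2 ≤ e := by
      have : t ≤ e := htτ.le.trans ((min_le_left _ _).trans (min_le_left _ _))
      exact (pow_le_of_le_one ht0.le ht1 two_ne_zero).trans this
    have hts : t ^ 2 ≤ s2 := by
      have : t ≤ s2 := htτ.le.trans ((min_le_left _ _).trans (min_le_right _ _))
      exact (pow_le_of_le_one ht0.le ht1 two_ne_zero).trans this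
    have htQ : t * (2 * K * Q) ≤ c2 := by
      rw [← le_div_iff₀ (by positivity)]
      exact htτ.le.trans ((min_le_right _ _).trans (min_le_right _ _))
    -- region II
    have reg2 : ∀ ξ : Xi n, Dir (S.V ε ξ.z) ξ → ξ.z ∈ tsupport ψ → ‖S.f ξ.z‖ ≤ t →
        ε * c2 / 2 ≤ ‖⟪ξ.v, S.V ε ξ.z⟫_ℂ‖ ∧
        ‖fderiv ℂ S.f ξ.z ξ.v‖ ≤ 2 * B / c2 * ‖S.f ξ.z‖ := by
      intro ξ hd hξ hl
      have k0 : ‖S.f ξ.z‖ ^ 2 ≤ t ^ 2 := by gcongr
      have k1 := dir_N hε hd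
      have k2 := H2 ξ hξ (by linarith)
      have k3 : ‖S.f ξ.z‖ ^ S.j * ‖perp ξ.z S.q‖ ≤ t * (K * ε) * Q := by
        rw [hi, ← ht, ← pow_succ']; gcongr; exact HQ ξ
      have k4 : ε * c2 / 2 ≤ ‖⟪ξ.v, S.V ε ξ.z⟫_ℂ‖ := by
        have k5 := mul_le_mul_of_nonneg_left k2 hε.le
        have k6 := mul_le_mul_of_nonneg_left htQ hε.le
        linarith
      refine ⟨k4, real_small (norm_nonneg _) (norm_nonneg _) hε hc2 k4
        (by rw [← norm_mul, dir_D hd, norm_mul]) ((norm_h_le _ _ hε).trans ?_)⟩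
      have k5 : ‖S.f ξ.z ^ (S.j - 1) * eta S ξ.z‖ ≤ K * ε * A := by
        rw [norm_mul, norm_pow, hi, ← ht]
        show ‖S.f ξ.z‖ ^ (i + 1) * _ ≤ _
        gcongr; exact HA ξ
      have k6 := mul_le_mul_of_nonneg_left (HH ξ) hε.le
      rw [hB]; linarith
    have hint1 : Continuous fun ξ : Xi n =>
        √(t ^ 2) * ‖fderiv ℂ S.f ξ.z ξ.v‖ ^ 2 / √(‖S.f ξ.z‖ ^ 2 + t ^ 2) ^ 3 :=
      Continuous.div (by fun_prop) (by fun_prop) fun ξ =>
        pow_ne_zero _ (Real.sqrt_pos.2 (by positivity)).ne'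
    have hint2 : Continuous fun ξ : Xi n =>
        ‖rz ψ ξ.z (S.Z ξ.z)‖ * (1 - st (‖S.f ξ.z‖ ^ 2 / e)) := hρc.norm.mul (by fun_prop)
    have hI := ineq (D.closed k) S.hf hψ hpos hδ0 hδs (δ1 := t ^ 2) (C0 := 2 * B / c2)
      (by positivity)
      ((D.dir k).mono fun ξ hd h1 h2 => (reg2 ξ hd (subset_tsupport _ h1)
        ((pow_le_pow_iff_left₀ (norm_nonneg _) ht0.le two_ne_zero).1 h2)).2)
      (g := fun ξ => 6 * C / (c1 * K) *
        (√(t ^ 2) * ‖fderiv ℂ S.f ξ.z ξ.v‖ ^ 2 / √(‖S.f ξ.z‖ ^ 2 + t ^ 2) ^ 3)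
        + C2 * (‖rz ψ ξ.z (S.Z ξ.z)‖ * (1 - st (‖S.f ξ.z‖ ^ 2 / e))))
      (cont_integrable ((continuous_const.mul hint1).add (continuous_const.mul hint2)))
      (fun ξ => by
        have := sub_nonneg.2 (st_le_one (‖S.f ξ.z‖ ^ 2 / e))
        positivity)
      ((D.dir k).mono fun ξ hd h1 h2 => by
        have p1 := sub_nonneg.2 (st_le_one (‖S.f ξ.z‖ ^ 2 / e))
        by_cases hξ : ξ.z ∈ tsupport ψ
        swap
        · rw [rz_of_not_mem hξ, norm_zero, mul_zero]; positivity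
        have e2 : ‖⟪ξ.v, S.V ε ξ.z⟫_ℂ‖ * ‖rz ψ ξ.z ξ.v‖ = ε * ‖rz ψ ξ.z (S.Z ξ.z)‖ := by
          rw [← norm_mul, dir_rz hd hψ, hW _ hξ ξ.norm_z (by linarith), mul_zero, zero_add,
            norm_mul, Complex.norm_real, Real.norm_eq_abs, abs_of_pos hε]
        by_cases hl : t ≤ ‖S.f ξ.z‖
        · have k1 := H1 ξ hξ (by linarith)
          have k2 : K * ε ≤ ‖S.f ξ.z‖ ^ (i + 1) := by rw [← ht]; gcongr
          have k3 : c1 * ‖S.f ξ.z‖ ^ (i + 1) / 2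
              ≤ ‖S.f ξ.z ^ (S.j - 1) * eta S ξ.z + ε * PL.ht S ξ.z‖ := by
            refine le_trans ?_ (norm_h_ge _ _ hε)
            rw [norm_mul, norm_pow, hi]
            show _ ≤ ‖S.f ξ.z‖ ^ (i + 1) * _ - _
            have k4 : c1 * ‖S.f ξ.z‖ ^ (i + 1) ≤ ‖S.f ξ.z‖ ^ (i + 1) * ‖eta S ξ.z‖ := by
              rw [mul_comm]; gcongr
            have k5 : ε * ‖PL.ht S ξ.z‖ ≤ ε * H := by gcongr; exact HH ξ
            have k6 := mul_le_mul_of_nonneg_left hK1 hε.le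
            have k7 := mul_le_mul_of_nonneg_left k2 hc1.le
            linarith
          refine (real_A1 ht0 hl (norm_nonneg _) (norm_nonneg _) hc1 hK0 hε (norm_nonneg _) ht
            (by rw [← norm_mul, dir_D hd, norm_mul]) k3 e2 (HC ξ)).trans ?_
          refine mul_le_mul_of_nonneg_left ?_ (norm_nonneg _)
          have k6 := half_bound (D := ‖fderiv ℂ S.f ξ.z ξ.v‖) ht0 hl
          have k7 : 0 ≤ C2 * (‖rz ψ ξ.z (S.Z ξ.z)‖ * (1 - st (‖S.f ξ.z‖ ^ 2 / e))) := by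
            positivity
          have k8 := mul_le_mul_of_nonneg_left k6 (show 0 ≤ 2 * C / (c1 * K) by positivity)
          have k9 : 6 * C / (c1 * K) = 2 * C / (c1 * K) * 3 := by ring
          rw [k9]; linarith
        · have hl' := (not_le.1 hl).le
          obtain ⟨k1, k2⟩ := reg2 ξ hd hξ hl'
          have k3 : ‖rz ψ ξ.z ξ.v‖ ≤ 2 / c2 * ‖rz ψ ξ.z (S.Z ξ.z)‖ := by
            have := mul_le_mul_of_nonneg_right k1 (norm_nonneg (rz ψ ξ.z ξ.v))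
            rw [div_mul_eq_mul_div, le_div_iff₀ hc2]
            exact le_of_mul_le_mul_left (by linarith) hε
          have k4 : st (‖S.f ξ.z‖ ^ 2 / e) = 0 := st_zero (by
            rw [div_le_one he]
            exact (pow_le_pow_left₀ (norm_nonneg _) hl' 2).trans hte)
          rw [k4, sub_zero, mul_one]
          calc _ ≤ (2 * B / c2 * ‖S.f ξ.z‖) * (2 / c2 * ‖rz ψ ξ.z (S.Z ξ.z)‖) := by gcongr
            _ = ‖S.f ξ.z‖ * (0 + C2 * ‖rz ψ ξ.z (S.Z ξ.z)‖) := by rw [hC2]; field_simp; ring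
            _ ≤ _ := by gcongr; positivity)
    rw [integral_add ((cont_integrable hint1).const_mul _)
      ((cont_integrable hint2).const_mul _), integral_const_mul, integral_const_mul] at hI
    have f1 := flux_half (D.closed k) S.hf (show 0 < t ^ 2 by positivity)
    rw [probReal_univ, mul_one] at f1
    have f2 : 0 ≤ ∫ ξ, ψ ξ.z * (deriv st (‖S.f ξ.z‖ ^ 2 / s2) / s2 * ‖fderiv ℂ S.f ξ.z ξ.v‖ ^ 2)
        ∂(D.m k : Measure (Xi n)) := integral_nonneg fun ξ => by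
      have := hpos ξ.z
      have := st_mono.deriv_nonneg (x := ‖S.f ξ.z‖ ^ 2 / s2)
      positivity
    have f3 : 0 ≤ ∫ ξ, ψ ξ.z * (st (‖S.f ξ.z‖ ^ 2 / δ0) - st (‖S.f ξ.z‖ ^ 2 / s2))
        ∂(D.m k : Measure (Xi n)) := integral_nonneg fun ξ =>
      mul_nonneg (hpos _) (sub_nonneg.2 (st_mono
        (div_le_div_of_nonneg_left (sq_nonneg _) hδ0 hδs)))
    have f4 : 6 * C / (c1 * K) * (2 * S.r) ≤ η / 2 := by
      rw [div_mul_eq_mul_div, div_le_iff₀ (by positivity)]; linarith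
    have f5 : C2 * (η / (2 * C2)) = η / 2 := by
      have : C2 ≠ 0 := by positivity
      clear_value C2
      field_simp
    have f6 := mul_le_mul_of_nonneg_left f1 (show 0 ≤ 6 * C / (c1 * K) by positivity)
    have f7 := mul_le_mul_of_nonneg_left hk1 (show 0 ≤ C2 by positivity)
    have f8 := mul_le_mul_of_nonneg_right hr f3
    linarith
  refine ⟨s2, hs20, ?_⟩
  have key : ∀ δ0 : ℝ, 0 < δ0 → δ0 ≤ s2 → ∀ᵐ ξ ∂(D.m0 : Measure (Xi n)),
      ψ ξ.z * (st (‖S.f ξ.z‖ ^ 2 / δ0) - st (‖S.f ξ.z‖ ^ 2 / s2)) = 0 := by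
    intro δ0 hδ0 hδs
    have hc : Continuous fun ξ : Xi n =>
        ψ ξ.z * (st (‖S.f ξ.z‖ ^ 2 / δ0) - st (‖S.f ξ.z‖ ^ 2 / s2)) := hψc.mul (by fun_prop)
    have hnn : ∀ ξ : Xi n, 0 ≤ ψ ξ.z * (st (‖S.f ξ.z‖ ^ 2 / δ0) - st (‖S.f ξ.z‖ ^ 2 / s2)) :=
      fun ξ => mul_nonneg (hpos _) (sub_nonneg.2 (st_mono
        (div_le_div_of_nonneg_left (sq_nonneg _) hδ0 hδs)))
    refine (integral_eq_zero_iff_of_nonneg hnn (cont_integrable hc)).1 ?_
    refine le_antisymm (le_of_forall_pos_le_add fun η hη => ?_) (integral_nonneg hnn)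
    rw [zero_add]
    exact le_of_tendsto (D.tendsto_fixed_real hc) (main δ0 hδ0 hδs η hη)
  have key2 : ∀ᵐ ξ ∂(D.m0 : Measure (Xi n)), ∀ N : ℕ,
      ψ ξ.z * (st (‖S.f ξ.z‖ ^ 2 / (s2 / (N + 1))) - st (‖S.f ξ.z‖ ^ 2 / s2)) = 0 :=
    ae_all_iff.2 fun N => key _ (by positivity)
      (div_le_self hs20.le (by linarith [Nat.cast_nonneg (α := ℝ) N]))
  filter_upwards [key2] with ξ hξ h1 h2
  have h3 : 0 < ‖S.f ξ.z‖ ^ 2 := by positivity
  obtain ⟨N, hN⟩ := exists_nat_ge (2 * s2 / ‖S.f ξ.z‖ ^ 2)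
  have h4 := hξ N
  rw [st_zero (x := ‖S.f ξ.z‖ ^ 2 / s2) ((div_le_one hs20).2 h2.le), st_one] at h4
  · simpa using h4
  · rw [div_le_iff₀ h3] at hN
    rw [le_div_iff₀ (by positivity), mul_div_assoc', div_le_iff₀ (by positivity)]
    nlinarith

end A590
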