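import Pool.Agent.Lib.A590Off1
import Pool.Agent.Lib.A590Leak2

/-!
The part of the limit measure off the hypersurface, for MP_a590e5_an.
-/

open scoped ComplexConjugate ComplexOrder ContDiff Topology InnerProductSpace
open MeasureTheory Filter

noncomputable section

namespace A590

variable {n : ℕ}

theorem Degen.offY {S : Setup n} (D : Degen S)
    (hY : ∀ᵐ ξ ∂(D.m0 : Measure (Xi n)), S.f ξ.z = 0 → S.W ξ.z = 0) :
    ∀ᵐ ξ ∂(D.m0 : Measure (Xi n)), S.f ξ.z ≠ 0 → ∀ μ : ℂ, ¬ S.Good (ξ.z + μ • S.q) :=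
  Off.offY_of D fun _ h1 h2 _ h3 h4 h5 => D.plA hY h1 h2 h3 h4 h5

end A590
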