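import Pool.Agent.Lib.A590Iface

/-!
Block O1, first part: the slit planes `Sp`, `Sm`, the quadrants, and uniqueness for linear systems.
-/

open scoped ComplexConjugate Topology
open Filter Set

noncomputable section

namespace A590

/-! ### The slit planes -/

theorem isOpen_Sp : IsOpen Sp :=
  Complex.isOpen_slitPlane.preimage (by fun_prop : Continuous fun x : ℂ => 1 - x ^ 4)

theorem isOpen_Sm : IsOpen Sm := by
  have h : ContinuousOn (fun x : ℂ => x⁻¹) {0}ᶜ := continuousOn_inv₀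
  exact h.isOpen_inter_preimage isOpen_compl_singleton isOpen_Sp

theorem zero_mem_Sp : (0 : ℂ) ∈ Sp := by simp [Sp]

theorem smul_mem_Sp {x : ℂ} (hx : x ∈ Sp) {l : ℝ} (h0 : 0 ≤ l) (h1 : l ≤ 1) : (l : ℂ) * x ∈ Sp := by
  have h := Complex.starConvex_one_slitPlane hx (a := 1 - l ^ 4) (b := l ^ 4)
    (sub_nonneg.2 (pow_le_one₀ h0 h1)) (by positivity) (by ring)
  have e : (1 - l ^ 4) • (1 : ℂ) + l ^ 4 • (1 - x ^ 4) = 1 - ((l : ℂ) * x) ^ 4 := by
    simp only [Complex.real_smul]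
    push_cast
    ring
  rwa [e] at h

theorem mem_Sp_of_norm_lt {x : ℂ} (hx : ‖x‖ < 1) : x ∈ Sp := by
  have h : ‖-x ^ 4‖ < 1 := by
    rw [norm_neg, norm_pow]
    exact pow_lt_one₀ (norm_nonneg _) hx (by norm_num)
  simpa [Sp, sub_eq_add_neg] using Complex.mem_slitPlane_of_norm_lt_one h

theorem starConvex_Sp : StarConvex ℝ (0 : ℂ) Sp := fun x hx a b ha hb hab => by
  simpa using smul_mem_Sp hx hb (by linarith)

theorem isPreconnected_Sp : IsPreconnected Sp :=
  (starConvex_Sp.isPathConnected zero_mem_Sp).isConnected.isPreconnected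

theorem isPreconnected_Sp_diff : IsPreconnected (Sp \ {0}) := by
  have h0 : IsPreconnected (Complex.exp '' {z : ℂ | z.re < 0}) :=
    (convex_halfSpace_re_lt 0).isPreconnected.image _ Complex.continuous_exp.continuousOn
  have h1 : ∀ x : ℂ, x ≠ 0 → ‖x‖ < 1 → x ∈ Complex.exp '' {z : ℂ | z.re < 0} := fun x hx h =>
    ⟨Complex.log x, by
      simpa [Complex.log_re] using Real.log_neg (norm_pos_iff.2 hx) h, Complex.exp_log hx⟩
  refine isPreconnected_of_forall (1 / 2 : ℂ) fun y hy => ?_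
  have hy0 : y ≠ 0 := hy.2
  have hn : 0 < ‖y‖ := norm_pos_iff.2 hy0
  refine ⟨(fun l : ℝ => (l : ℂ) * y) '' Ioc 0 1 ∪ Complex.exp '' {z : ℂ | z.re < 0}, ?_,
    Or.inr (h1 _ (by norm_num) (by norm_num)), Or.inl ⟨1, by simp, by simp⟩, ?_⟩
  · rintro _ (⟨l, hl, rfl⟩ | ⟨z, hz, rfl⟩)
    · exact ⟨smul_mem_Sp hy.1 hl.1.le hl.2, mul_ne_zero (by exact_mod_cast hl.1.ne') hy0⟩
    · refine ⟨mem_Sp_of_norm_lt ?_, Complex.exp_ne_zero z⟩
      rw [Complex.norm_exp]
      exact Real.exp_lt_one_iff.2 hz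
  · have hl : 0 < 1 / (1 + ‖y‖) := by positivity
    refine IsPreconnected.union (((1 / (1 + ‖y‖) : ℝ) : ℂ) * y) ⟨_, ⟨hl, ?_⟩, rfl⟩
      (h1 _ (mul_ne_zero (by exact_mod_cast hl.ne') hy0) ?_)
      (isPreconnected_Ioc.image _ (by fun_prop)) h0
    · rw [div_le_one (by positivity)]
      linarith
    · rw [norm_mul, Complex.norm_real, Real.norm_of_nonneg hl.le, one_div, inv_mul_lt_iff₀ (by positivity)]
      linarith

theorem isPreconnected_Sm : IsPreconnected Sm := by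
  have e : Sm = (fun x : ℂ => x⁻¹) '' (Sp \ {0}) := by
    ext x
    constructor
    · rintro ⟨h0, h⟩
      exact ⟨x⁻¹, ⟨h, inv_ne_zero h0⟩, inv_inv x⟩
    · rintro ⟨y, ⟨h, h0⟩, rfl⟩
      exact ⟨inv_ne_zero h0, by simpa using h⟩
  rw [e]
  exact isPreconnected_Sp_diff.image _ (continuousOn_inv₀.mono fun x hx => hx.2)

theorem mem_Sp_or_Sm {x : ℂ} (h : x ^ 4 ≠ 1) : x ∈ Sp ∨ x ∈ Sm := by
  by_cases h1 : x ∈ Sp
  · exact Or.inl h1
  right
  simp only [Sp, mem_ofPred_eq, Complex.mem_slitPlane_iff, not_or, not_lt, not_not, Complex.sub_re,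
    Complex.one_re, Complex.sub_im, Complex.one_im, zero_sub, neg_eq_zero, ne_eq] at h1
  obtain ⟨h2, h3⟩ := h1
  have e : x ^ 4 = ((x ^ 4).re : ℂ) := Complex.ext (by simp) (by simpa using h3)
  have h4 : 1 < (x ^ 4).re := by
    refine lt_of_le_of_ne (by linarith) fun h5 => h ?_
    rw [e, ← h5, Complex.ofReal_one]
  refine ⟨fun h0 => ?_, ?_⟩
  · rw [h0] at h4
    norm_num at h4
  · simp only [Sp, mem_ofPred_eq]
    rw [inv_pow, e, ← Complex.ofReal_inv, ← Complex.ofReal_one, ← Complex.ofReal_sub,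
      Complex.ofReal_mem_slitPlane]
    exact sub_pos.2 (inv_lt_one_of_one_lt₀ h4)

theorem ne_one_of_mem {x : ℂ} (h : x ∈ Sp ∨ x ∈ Sm) : x ^ 4 ≠ 1 := by
  intro e
  rcases h with h | ⟨-, h⟩
  · exact Complex.slitPlane_ne_zero h (by rw [e, sub_self])
  · exact Complex.slitPlane_ne_zero h (by rw [inv_pow, e, inv_one, sub_self])

theorem one_add_sq_mem {η : ℂ} (h : 0 < η.re) : 1 + η ^ 2 ∈ Complex.slitPlane := by
  rw [Complex.mem_slitPlane_iff]
  by_cases h1 : η.im = 0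
  · left
    simp only [sq, Complex.add_re, Complex.one_re, Complex.mul_re, h1]
    nlinarith
  · right
    simp only [sq, Complex.add_im, Complex.one_im, Complex.mul_im]
    intro h2
    exact h1 (by nlinarith [mul_self_eq_zero.1 (show η.im * η.im = 0 by
      have : η.re * η.im = 0 := by linarith
      rcases mul_eq_zero.1 this with h3 | h3
      · exact absurd h3 h.ne'
      · rw [h3, mul_zero])])

theorem Quad_subset {w : ℂ} (hw : w ^ 4 = -1) : Quad w ⊆ Sp ∩ Sm := by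
  intro x hx
  have hc : conj w ^ 4 = -1 := by rw [← map_pow, hw, map_neg, map_one]
  have h1 : 0 < ((x * conj w) ^ 2).re := by
    have h : |(x * conj w).im| < (x * conj w).re := hx
    have h2 := abs_lt.1 h
    rw [sq, Complex.mul_re]
    nlinarith [h2.1, h2.2]
  have h0 : x ≠ 0 := by
    rintro rfl
    simp at h1
  have e1 : 1 - x ^ 4 = 1 + ((x * conj w) ^ 2) ^ 2 := by
    rw [← pow_mul, mul_pow, hc]
    ring
  have e2 : 1 - x⁻¹ ^ 4 = 1 + (((x * conj w) ^ 2)⁻¹) ^ 2 := by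
    rw [inv_pow, inv_pow, ← pow_mul, mul_pow, hc, mul_neg_one, inv_neg, sub_eq_add_neg]
  refine ⟨?_, h0, ?_⟩
  · simp only [Sp, mem_ofPred_eq]
    rw [e1]
    exact one_add_sq_mem h1
  · simp only [Sp, mem_ofPred_eq]
    rw [e2]
    refine one_add_sq_mem ?_
    rw [Complex.inv_re]
    refine div_pos h1 (Complex.normSq_pos.2 fun h => ?_)
    rw [h] at h1
    simp at h1

theorem not_mem_of_real {x : ℂ} {s : ℝ} (hs : 0 ≤ s) (e : x ^ 4 = s) : x ∉ Sp ∩ Sm := by
  rintro ⟨h1, h0, h2⟩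
  simp only [Sp, mem_ofPred_eq] at h1 h2
  rw [inv_pow, e, ← Complex.ofReal_inv, ← Complex.ofReal_one, ← Complex.ofReal_sub,
    Complex.ofReal_mem_slitPlane] at h2
  rw [e, ← Complex.ofReal_one, ← Complex.ofReal_sub, Complex.ofReal_mem_slitPlane] at h1
  have h3 : s ≠ 0 := by
    rintro rfl
    exact h0 (pow_eq_zero_iff (by norm_num) |>.1 (e.trans Complex.ofReal_zero))
  have h4 : 1 < s⁻¹ := (one_lt_inv₀ (lt_of_le_of_ne hs h3.symm)).2 (by linarith)
  linarith

theorem exists_Quad {x : ℂ} (h : x ∈ Sp ∩ Sm) : ∃ w σ : ℂ, (σ = 1 ∨ σ = -1) ∧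
    w ^ 2 = σ * Complex.I ∧ x ∈ Quad w := by
  have h1 : x.re ≠ 0 := fun e => not_mem_of_real (s := x.im ^ 4) (by positivity) (by
    have e2 : x = x.im * Complex.I := Complex.ext (by simpa using e) (by simp)
    conv_lhs => rw [e2]
    rw [mul_pow, Complex.I_pow_four]
    simp) h
  have h2 : x.im ≠ 0 := fun e => not_mem_of_real (s := x.re ^ 4) (by positivity) (by
    have e2 : x = x.re := Complex.ext (by simp) (by simpa using e)
    conv_lhs => rw [e2]
    simp) h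
  have hq : 0 < √2 / 2 := by positivity
  have hq2 : √2 / 2 * (√2 / 2) = 1 / 2 := by
    have := Real.mul_self_sqrt (show (0 : ℝ) ≤ 2 by norm_num)
    linarith
  have key : ∀ a b : ℝ, a * a = 1 → b * b = 1 → 0 < a * x.re → 0 < b * x.im →
      (a * b = 1 ∨ a * b = -1) → ∃ w σ : ℂ, (σ = 1 ∨ σ = -1) ∧
        w ^ 2 = σ * Complex.I ∧ x ∈ Quad w := by
    intro a b ha hb h3 h4 h5
    refine ⟨⟨√2 / 2 * a, √2 / 2 * b⟩, (a * b : ℝ), ?_, ?_, ?_⟩
    · exact_mod_cast h5
    · refine Complex.ext ?_ ?_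
      · simp only [sq, Complex.mul_re, Complex.ofReal_re, Complex.ofReal_im, Complex.I_re,
          Complex.I_im]
        linear_combination (a * a - b * b) * hq2 + (1 / 2) * ha - (1 / 2) * hb
      · simp only [sq, Complex.mul_im, Complex.ofReal_re, Complex.ofReal_im, Complex.I_re,
          Complex.I_im]
        linear_combination (2 * a * b) * hq2
    · simp only [Quad, mem_ofPred_eq, Complex.mul_im, Complex.mul_re, Complex.conj_re,
        Complex.conj_im]
      have h6 := mul_pos hq h3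
      have h7 := mul_pos hq h4
      rcases h5 with h5 | h5
      · have e : a = b := by linear_combination b * ha - a * h5
        subst e
        rw [abs_lt]
        constructor <;> nlinarith
      · have e : a = -b := by linear_combination (-b) * ha + a * h5
        subst e
        rw [abs_lt]
        constructor <;> nlinarith
  rcases lt_or_gt_of_ne h1 with h3 | h3 <;> rcases lt_or_gt_of_ne h2 with h4 | h4
  · exact key (-1) (-1) (by norm_num) (by norm_num) (by linarith) (by linarith) (by norm_num)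
  · exact key (-1) 1 (by norm_num) (by norm_num) (by linarith) (by linarith) (by norm_num)
  · exact key 1 (-1) (by norm_num) (by norm_num) (by linarith) (by linarith) (by norm_num)
  · exact key 1 1 (by norm_num) (by norm_num) (by linarith) (by linarith) (by norm_num)

/-! ### Uniqueness -/

/-- A traceless matrix applied to a vector. -/
def tlm (α β γ : ℂ) (w : ℂ × ℂ) : ℂ × ℂ := (α * w.1 + β * w.2, γ * w.1 - α * w.2)

theorem tlm_sub (α β γ : ℂ) (v w : ℂ × ℂ) : tlm α β γ v - tlm α β γ w = tlm α β γ (v - w) := by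
  refine Prod.ext ?_ ?_ <;> simp only [tlm, Prod.fst_sub, Prod.snd_sub] <;> ring

theorem norm_tlm_le (α β γ : ℂ) (w : ℂ × ℂ) : ‖tlm α β γ w‖ ≤ (‖α‖ + ‖β‖ + ‖γ‖) * ‖w‖ := by
  have h1 := norm_fst_le w
  have h2 := norm_snd_le w
  have h0 := norm_nonneg w
  have ha := norm_nonneg α
  have hb := norm_nonneg β
  have hc := norm_nonneg γ
  refine norm_prod_le_iff.2 ⟨(norm_add_le _ _).trans ?_, (norm_sub_le _ _).trans ?_⟩
  · rw [norm_mul, norm_mul]
    nlinarith [mul_le_mul_of_nonneg_left h1 ha, mul_le_mul_of_nonneg_left h2 hb]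
  · rw [norm_mul, norm_mul]
    nlinarith [mul_le_mul_of_nonneg_left h1 hc, mul_le_mul_of_nonneg_left h2 ha]

/-- Solutions of a traceless linear system on `[0, 1]`. -/
def TSol (α β γ : ℝ → ℂ) (y : ℝ → ℂ × ℂ) : Prop :=
  ∀ r ∈ Icc (0 : ℝ) 1, HasDerivWithinAt y (tlm (α r) (β r) (γ r) (y r)) (Icc 0 1) r

theorem TSol.unique {α β γ : ℝ → ℂ} (hα : ContinuousOn α (Icc 0 1)) (hβ : ContinuousOn β (Icc 0 1))
    (hγ : ContinuousOn γ (Icc 0 1)) {y y' : ℝ → ℂ × ℂ} (h : TSol α β γ y) (h' : TSol α β γ y')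
    (h0 : y 0 = y' 0) : ∀ r ∈ Icc (0 : ℝ) 1, y r = y' r := by
  obtain ⟨K, hK⟩ := isCompact_Icc.exists_bound_of_continuousOn
    ((hα.norm.add hβ.norm).add hγ.norm)
  intro r hr
  refine sub_eq_zero.1 (eq_zero_of_abs_deriv_le_mul_abs_self_of_eq_zero_right
    (f := fun r => y r - y' r) (f' := fun r => tlm (α r) (β r) (γ r) (y r - y' r)) (K := K)
    (fun t ht => ((h t ht).sub (h' t ht)).continuousWithinAt) (fun t ht => ?_)
    (sub_eq_zero.2 h0) (fun t ht => ?_) r hr)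
  · rw [← tlm_sub]
    exact ((h t (Ico_subset_Icc_self ht)).sub (h' t (Ico_subset_Icc_self ht))).mono_of_mem_nhdsWithin
      (Icc_mem_nhdsGE_of_mem ht)
  · exact (norm_tlm_le _ _ _ _).trans (mul_le_mul_of_nonneg_right
      ((le_abs_self _).trans (hK t (Ico_subset_Icc_self ht))) (norm_nonneg _))

theorem ray_den_ne (r : ℝ) : (2 * (1 + (r : ℂ) ^ 4)) ≠ 0 := by
  have h : (0 : ℝ) < 2 * (1 + r ^ 4) := by positivity
  exact_mod_cast h.ne'

theorem rayA_eq (p : ℂ × ℂ × ℂ) (r : ℝ) (w : ℂ × ℂ) : rayA p r w =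
    tlm (p.2.2 * r / (2 * (1 + r ^ 4))) ((p.1 - p.2.1 * r ^ 2) / (2 * (1 + r ^ 4)))
      ((p.2.1 - p.1 * r ^ 2) / (2 * (1 + r ^ 4))) w := by
  refine Prod.ext ?_ ?_ <;> simp only [rayA, tlm] <;> ring

theorem RaySol.unique {p : ℂ × ℂ × ℂ} {y y' : ℝ → ℂ × ℂ} {y0 : ℂ × ℂ} (h : RaySol p y y0)
    (h' : RaySol p y' y0) : ∀ r ∈ Set.Icc (0 : ℝ) 1, y r = y' r := by
  refine TSol.unique (α := fun r => p.2.2 * r / (2 * (1 + r ^ 4)))
    (β := fun r => (p.1 - p.2.1 * r ^ 2) / (2 * (1 + r ^ 4)))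
    (γ := fun r => (p.2.1 - p.1 * r ^ 2) / (2 * (1 + r ^ 4))) ?_ ?_ ?_
    (fun r hr => rayA_eq p r _ ▸ h.2 r hr) (fun r hr => rayA_eq p r _ ▸ h'.2 r hr)
    (h.1.trans h'.1.symm)
  all_goals exact (Continuous.div (by fun_prop) (by fun_prop) ray_den_ne).continuousOn

end A590
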