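import Pool.Agent.Lib.A590Ricc1a
import Pool.Agent.Lib.A590Alg1
import Pool.Agent.Lib.A590Ode0

/-!
Block B1: the transverse measure of a closed measure directed by the Riccati foliation vanishes.
-/

open scoped ComplexConjugate ComplexOrder ContDiff Topology InnerProductSpace
open MeasureTheory Filter

noncomputable section

namespace A590

namespace B1

/-- The finite set of exceptional values of `x`. -/
def badX (c d u a : ℂ) : Set ℂ :=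
  {x : ℂ | ∃ y, fF x y 1 = 0 ∧ Q0 x y 1 ^ 2 + y * P0 c d x 1 ^ 3 = 0} ∪
  {x : ℂ | ∃ y t, fF x y 1 = 0 ∧ AA c d x y 1 t = 0 ∧ ZT c d u x y 1 t = t * ZU c x y t} ∪
  {x : ℂ | x ^ 4 = 1} ∪ {x : ℂ | x ^ 3 = a⁻¹}

theorem finite_pow_eq {k : ℕ} (hk : 0 < k) (b : ℂ) : {x : ℂ | x ^ k = b}.Finite := by
  classical
  refine (Polynomial.nthRoots k b).toFinset.finite_toSet.subset fun x hx => ?_
  simpa [Polynomial.mem_nthRoots hk] using hx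

theorem finite_badX {c d u : ℂ} (hN : Nice c d u) (a : ℂ) : (badX c d u a).Finite :=
  ((hN.finD.union hN.finS).union (finite_pow_eq (by norm_num) _)).union
    (finite_pow_eq (by norm_num) _)

theorem s4_smul (c d k : ℂ) (z : E 4) : s4 c d (k • z) = k ^ 4 • s4 c d z := by
  simp only [s4, s1, s2, P0, Q0, PiLp.smul_apply, smul_eq_mul, Prod.smul_mk, Prod.mk.injEq]
  constructor <;> ring

theorem f4_smul (k : ℂ) (z : E 4) : f4 (k • z) = k ^ 4 * f4 z := homMap_f4.hom k z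

theorem det2_smul_right (k : ℂ) (a b : ℂ × ℂ) : det2 a (k • b) = k * det2 a b := by
  simp only [det2, Prod.smul_fst, Prod.smul_snd, smul_eq_mul]; ring

theorem det2_smul_left (k : ℂ) (a b : ℂ × ℂ) : det2 (k • a) b = k * det2 a b := by
  simp only [det2, Prod.smul_fst, Prod.smul_snd, smul_eq_mul]; ring

theorem det2_swap (a b : ℂ × ℂ) : det2 a b = -det2 b a := by
  simp only [det2]; ring

theorem eq_zero_of_det2 {a b s : ℂ × ℂ} (h : det2 a b ≠ 0) (h1 : det2 a s = 0)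
    (h2 : det2 b s = 0) : s = 0 := by
  simp only [det2] at h h1 h2
  refine Prod.ext (mul_left_cancel₀ h ?_) (mul_left_cancel₀ h ?_)
  · simp only [Prod.fst_zero]; linear_combination b.1 * h1 - a.1 * h2
  · simp only [Prod.snd_zero]; linear_combination b.2 * h1 - a.2 * h2

/-- Regularity at the points of the cone over a good value of `x`. -/
theorem good_point {c d u p a : ℂ} (ha : a ≠ 0) {z : E 4} (hU : z 2 ≠ 0)
    (hx : xx z ∉ badX c d u a) (hf : f4 z = 0) :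
    z 1 ≠ 0 ∧ s4 c d z ≠ 0 ∧ fderiv ℂ f4 z (q4 a) ≠ 0 ∧ ∀ k : ℂ, Z4 c d u p z ≠ k • z := by
  simp only [badX, Set.mem_union, Set.mem_ofPred_eq, not_or, not_exists] at hx
  obtain ⟨⟨⟨hD, hS⟩, h4⟩, h3⟩ := hx
  set w : E 4 := (z 2)⁻¹ • z with hw
  have hw2 : w 2 = 1 := by simp [hw, hU]
  have hw0 : w 0 = xx z := by simp [hw, xx, div_eq_inv_mul]
  have hz : z = z 2 • w := by rw [hw, smul_smul, mul_inv_cancel₀ hU, one_smul]
  have hfw : fF (xx z) (w 1) 1 = 0 := by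
    have : f4 w = 0 := by rw [hw, f4_smul, hf, mul_zero]
    rwa [f4, hw0, hw2] at this
  have hy : w 1 ≠ 0 := by
    intro h
    rw [h, fF] at hfw
    exact h4 (by linear_combination -hfw)
  refine ⟨fun h => hy (by simp [hw, h]), ?_, ?_, fun k hk => ?_⟩
  · rw [hz, s4_smul]
    refine smul_ne_zero (pow_ne_zero _ hU) ?_
    rw [s4, hw0, hw2]
    exact s_ne hy fun h => hD _ ⟨hfw, h⟩
  · rw [fderiv_f4]
    intro h
    refine h3 ?_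
    simp only [q4] at h
    simp at h
    rw [xx]
    field_simp
    linear_combination -h
  · have hZ : Z4 c d u p w = ((z 2)⁻¹ ^ 7 * k) • w := by
      rw [hw, (homMap_Z4 c d u p).hom, hk, smul_smul, smul_smul]
      congr 1
      ring
    set k' := (z 2)⁻¹ ^ 7 * k
    have e0 : ZX c d (xx z) (w 1) 1 (w 3) = k' * xx z := by
      have := congrArg (fun v : E 4 => v 0) hZ
      simpa [Z4, hw0, hw2] using this
    have e2 : ZU c (xx z) (w 1) (w 3) = k' := by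
      have := congrArg (fun v : E 4 => v 2) hZ
      simpa [Z4, hw0, hw2] using this
    have e3 : ZT c d u (xx z) (w 1) 1 (w 3) = k' * w 3 := by
      have := congrArg (fun v : E 4 => v 3) hZ
      simpa [Z4, hw0, hw2] using this
    have e4 := cross_UX c d (xx z) (w 1) 1 (w 3)
    rw [e0, e2] at e4
    refine hS (w 1) (w 3) ⟨hfw, ?_, by rw [e3, e2, mul_comm]⟩
    refine mul_left_cancel₀ (mul_ne_zero two_ne_zero (pow_ne_zero 3 hy)) ?_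
    linear_combination -e4

/-- The pairing of a solution with the section. -/
def xi (c d : ℂ) (φ : ℂ → ℂ × ℂ) (z : E 4) : ℂ := det2 (φ (xx z)) (s4 c d z)

/-- The function constant on the leaves. -/
def AL (c d : ℂ) (φ1 φ2 : ℂ → ℂ × ℂ) (z : E 4) : ℝ :=
  ‖xi c d φ1 z‖ ^ 2 * (‖xi c d φ1 z‖ ^ 2 + ‖xi c d φ2 z‖ ^ 2 + ‖f4 z‖ ^ 2)⁻¹

theorem AL_nonneg (c d : ℂ) (φ1 φ2 : ℂ → ℂ × ℂ) (z : E 4) : 0 ≤ AL c d φ1 φ2 z := by
  unfold AL; positivity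

theorem contDiffOn_xi {c d u : ℂ} {φ : ℂ → ℂ × ℂ} {V : Set ℂ} (hV : IsOpen V)
    (h : ∀ x ∈ V, IsSol c d u φ x) : ContDiffOn ℂ ∞ (xi c d φ) (cone V) := by
  have h1 : DifferentiableOn ℂ φ V := fun x hx => (h x hx).differentiableAt.differentiableWithinAt
  have h2 : ContDiffOn ℂ ∞ φ V := h1.contDiffOn hV
  have h3 : ContDiffOn ℂ ∞ (fun z => φ (xx z)) (cone V) :=
    h2.comp (fun z hz => (contDiffAt_xx hz.1).contDiffWithinAt) fun z hz => hz.2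
  have h4 : ContDiffOn ℂ ∞ (s4 c d) (cone V) := (contDiff_s4 c d).contDiffOn
  exact (h3.fst.mul h4.snd).sub (h3.snd.mul h4.fst)

theorem leaf_AL {c d u p a : ℂ} (hN : Nice c d u) (ha : a ≠ 0)
    {m : Measure (Xi 4)} (hf : ∀ᵐ ξ ∂m, f4 ξ.z = 0)
    (hd : ∀ᵐ ξ ∂m, fderiv ℂ f4 ξ.z (q4 a) ≠ 0 → Dir (Z4 c d u p ξ.z) ξ)
    {φ1 φ2 : ℂ → ℂ × ℂ} {V : Set ℂ} (hV : IsOpen V) (hb : ∀ x ∈ V, x ∉ badX c d u a)
    (h : ∀ x ∈ V, IsSol c d u φ1 x ∧ IsSol c d u φ2 x ∧ det2 (φ1 x) (φ2 x) ≠ 0) :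
    Leaf m V (AL c d φ1 φ2) := by
  have c1 := contDiffOn_xi hV fun x hx => (h x hx).1
  have c2 := contDiffOn_xi hV fun x hx => (h x hx).2.1
  have c3 : ContDiffOn ℂ ∞ f4 (cone V) := homMap_f4.cd.contDiffOn
  have hden : ∀ z ∈ cone V, ‖xi c d φ1 z‖ ^ 2 + ‖xi c d φ2 z‖ ^ 2 + ‖f4 z‖ ^ 2 ≠ 0 := by
    intro z hz h0
    have a1 := sq_nonneg ‖xi c d φ1 z‖
    have a2 := sq_nonneg ‖xi c d φ2 z‖
    have a3 := sq_nonneg ‖f4 z‖
    have b1 : xi c d φ1 z = 0 := by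
      have : ‖xi c d φ1 z‖ ^ 2 = 0 := by linarith
      simpa using this
    have b2 : xi c d φ2 z = 0 := by
      have : ‖xi c d φ2 z‖ ^ 2 = 0 := by linarith
      simpa using this
    have b3 : f4 z = 0 := by
      have : ‖f4 z‖ ^ 2 = 0 := by linarith
      simpa using this
    exact (good_point (p := p) ha hz.1 (hb _ hz.2) b3).2.1 (eq_zero_of_det2 (h _ hz.2).2.2 b1 b2)
  have n1 := (c1.restrict_scalars ℝ).norm_sq ℂ
  have n2 := (c2.restrict_scalars ℝ).norm_sq ℂ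
  have n3 := (c3.restrict_scalars ℝ).norm_sq ℂ
  have hcd : ContDiffOn ℝ ∞ (AL c d φ1 φ2) (cone V) := n1.mul (((n1.add n2).add n3).inv hden)
  have hhom : ∀ z ∈ cone V, ∀ k : ℂ, k ≠ 0 → AL c d φ1 φ2 (k • z) = AL c d φ1 φ2 z := by
    intro z hz k hk
    have hk' : ‖k‖ ≠ 0 := norm_ne_zero_iff.2 hk
    have := hden z hz
    simp only [AL, xi, xx_smul z hk, s4_smul, det2_smul_right, f4_smul, norm_mul, norm_pow] at this ⊢
    field_simp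
  refine ⟨hcd, hhom, fun z hz => ?_, ?_⟩
  · rw [abs_of_nonneg (AL_nonneg _ _ _ _ _), AL, ← div_eq_mul_inv]
    exact div_le_one_of_le₀ (by nlinarith [sq_nonneg ‖xi c d φ2 z‖, sq_nonneg ‖f4 z‖])
      (by positivity)
  · filter_upwards [hf, hd] with ξ hfξ hdξ hz
    obtain ⟨hY, hs, hW, hZ⟩ := good_point (p := p) ha hz.1 (hb _ hz.2) hfξ
    have hn := (isOpen_cone hV).mem_nhds hz
    have hdA : DifferentiableAt ℝ (AL c d φ1 φ2) ξ.z :=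
      (hcd.contDiffAt hn).differentiableAt (by simp)
    have r0 : rz (AL c d φ1 φ2) ξ.z ξ.z = 0 := by
      have := (dz_radial (differentiableAt_ofReal hdA) 0 (by
        filter_upwards [eventually_ne_nhds (one_ne_zero (α := ℂ))] with k hk
        rw [hhom _ hz k hk]; simp)).1
      simpa [rz] using this
    have r1 := (hdξ hW).rz_eq r0
    have r2 : ⟪ξ.v, Z4 c d u p ξ.z⟫_ℂ ≠ 0 := by
      intro h0
      have := hdξ hW
      rw [Dir, h0, zero_smul, add_zero] at this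
      exact hZ _ this
    obtain ⟨lam, hlam⟩ := flat_Z (u := u) (p := p) hN.rel hfξ hz.1 hY hs
    have d1 : DifferentiableAt ℂ (xi c d φ1) ξ.z := (c1.contDiffAt hn).differentiableAt (by simp)
    have d2 : DifferentiableAt ℂ (xi c d φ2) ξ.z := (c2.contDiffAt hn).differentiableAt (by simp)
    have d3 : DifferentiableAt ℂ f4 ξ.z := (c3.contDiffAt hn).differentiableAt (by simp)
    have l1 : fderiv ℂ (xi c d φ1) ξ.z (Z4 c d u p ξ.z) = lam * xi c d φ1 ξ.z :=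
      (hlam φ1 (h _ hz.2).1).2
    have l2 : fderiv ℂ (xi c d φ2) ξ.z (Z4 c d u p ξ.z) = lam * xi c d φ2 ξ.z :=
      (hlam φ2 (h _ hz.2).2.1).2
    have e1 := differentiableAt_normSq d1
    have e2 := differentiableAt_normSq d2
    have e3 := differentiableAt_normSq d3
    have r3 : rz (AL c d φ1 φ2) ξ.z (Z4 c d u p ξ.z) = 0 := by
      have hd0 := hden _ hz
      unfold AL
      rw [rz_mul e1 (((e1.fun_add e2).fun_add e3).fun_inv hd0),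
        rz_inv ((e1.fun_add e2).fun_add e3) hd0, rz_add (e1.fun_add e2) e3, rz_add e1 e2,
        rz_normSq d1, rz_normSq d2, rz_normSq d3, l1, l2]
      have hd1 : ((‖xi c d φ1 ξ.z‖ ^ 2 + ‖xi c d φ2 ξ.z‖ ^ 2 + ‖f4 ξ.z‖ ^ 2 : ℝ) : ℂ) ≠ 0 := by
        exact_mod_cast hd0
      simp only [hfξ, norm_zero, ne_eq, OfNat.ofNat_ne_zero, not_false_eq_true, zero_pow,
        add_zero, RCLike.inner_apply, map_zero, mul_zero, mul_assoc, Complex.mul_conj',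
        Complex.ofReal_inv, Complex.ofReal_add, Complex.ofReal_pow] at hd1 ⊢
      field_simp
      ring
    rw [r3] at r1
    exact (mul_eq_zero.1 r1.symm).resolve_left r2

theorem lox_ineq {a b L1 L2 : ℝ} (ha : 0 ≤ a) (hb : 0 ≤ b) (h1 : 0 ≤ L1) (h : L1 < L2) :
    L1 * a * (L1 * a + L2 * b + 0)⁻¹ ≤ a * (a + b + 0)⁻¹ ∧
      (L1 * a * (L1 * a + L2 * b + 0)⁻¹ = a * (a + b + 0)⁻¹ → a = 0 ∨ b = 0) := by
  rcases ha.eq_or_lt with rfl | ha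
  · simp
  rcases hb.eq_or_lt with rfl | hb
  · refine ⟨?_, fun _ => Or.inr rfl⟩
    simp only [mul_zero, add_zero, mul_inv_cancel₀ ha.ne']
    exact mul_inv_le_one
  have h2 : 0 < L2 := lt_of_le_of_lt h1 h
  have : L1 * a * (L1 * a + L2 * b + 0)⁻¹ < a * (a + b + 0)⁻¹ := by
    rw [← div_eq_mul_inv, ← div_eq_mul_inv, div_lt_div_iff₀ (by positivity) (by positivity)]
    nlinarith [mul_pos (mul_pos ha hb) (sub_pos.2 h)]
  exact ⟨this.le, fun e => absurd e this.ne⟩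

theorem exists_good_near {x : ℂ} {N F : Set ℂ} (hN : N ∈ 𝓝 x) (hF : F.Finite) :
    ∃ y, N ∈ 𝓝 y ∧ y ∉ F := by
  have h : (interior N).Infinite := infinite_of_mem_nhds x (interior_mem_nhds.2 hN)
  obtain ⟨y, hy, hy'⟩ := h.exists_notMem_finite hF
  exact ⟨y, mem_interior_iff_mem_nhds.1 hy, hy'⟩

theorem JJ_nonneg {A : E 4 → ℝ} (hA : ∀ z, 0 ≤ A z) (c : ℂ) (ρ : ℝ) (ξ : Xi 4) :
    0 ≤ JJ A c ρ ξ :=
  mul_nonneg (mul_nonneg (hA _) (sq_nonneg _)) (bmp_nonneg _ _ _)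

/-- A loxodromic monodromy concentrates the transverse measure on the two eigen-solutions. -/
theorem lox_zero {c d u p a : ℂ} (hN : Nice c d u) (ha : a ≠ 0)
    {m : Measure (Xi 4)} [IsFiniteMeasure m] (hm : ClosedM m) (hf : ∀ᵐ ξ ∂m, f4 ξ.z = 0)
    (hd : ∀ᵐ ξ ∂m, fderiv ℂ f4 ξ.z (q4 a) ≠ 0 → Dir (Z4 c d u p ξ.z) ξ)
    {φ1 φ2 : ℂ → ℂ × ℂ} (hL : Lox c d u φ1 φ2) {cs : ℂ} (hcs : cs ∈ Sp \ badX c d u a) :
    ∀ᶠ ρ : ℝ in 𝓝[>] 0, ∀ᵐ ξ ∂m, ‖Dx ξ‖ ^ 2 * bmp cs ρ ξ ≠ 0 →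
      xi c d φ1 ξ.z = 0 ∨ xi c d φ2 ξ.z = 0 := by
  obtain ⟨hφ, ψ1, ψ2, hψ, ⟨x0, hx0, e0⟩, x1, hx1, l1, l2, hl, e1⟩ := hL
  have hF := finite_badX hN a
  have oP : IsOpen (Sp \ badX c d u a) := isOpen_Sp.sdiff hF.isClosed
  have oM : IsOpen (Sm \ badX c d u a) := isOpen_Sm.sdiff hF.isClosed
  have pP := isPreconnected_diff_finite isOpen_Sp isPreconnected_Sp hF
  have pM := isPreconnected_diff_finite isOpen_Sm isPreconnected_Sm hF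
  have Lφ : Leaf m _ (AL c d φ1 φ2) :=
    leaf_AL hN ha hf hd oP (fun x hx => hx.2) fun x hx => hφ x hx.1
  have Lφ' : Leaf m _ (AL c d φ2 φ1) :=
    leaf_AL hN ha hf hd oP (fun x hx => hx.2) fun x hx => ⟨(hφ x hx.1).2.1, (hφ x hx.1).1, by
      rw [det2_swap]; exact neg_ne_zero.2 (hφ x hx.1).2.2⟩
  have Lψ : Leaf m _ (AL c d ψ1 ψ2) :=
    leaf_AL hN ha hf hd oM (fun x hx => hx.2) fun x hx => hψ x hx.1
  have L12 := Lφ.mul oP Lφ'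
  have hSS : ∀ x ∈ Sp ∩ Sm, Sp ∩ Sm ∈ 𝓝 x := fun x hx => (isOpen_Sp.inter isOpen_Sm).mem_nhds hx
  obtain ⟨c0, hc0, hc0'⟩ := exists_good_near (inter_mem (hSS x0 hx0) e0) hF
  obtain ⟨c1, hc1, hc1'⟩ := exists_good_near (inter_mem (hSS x1 hx1) e1) hF
  have m0 := (mem_of_mem_nhds hc0).1
  have m1 := (mem_of_mem_nhds hc1).1
  have j0 : ∀ᶠ ρ : ℝ in 𝓝[>] 0, JJ (AL c d ψ1 ψ2) c0 ρ = JJ (AL c d φ1 φ2) c0 ρ :=
    JJ_congr hc0 fun z hz => by simp only [AL, xi, hz.2.2.1, hz.2.2.2]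
  filter_upwards [j0, bmp_small hc1, Lφ.trans hm oP pP (c0 := c0) (c1 := c1) ⟨m0.1, hc0'⟩
    ⟨m1.1, hc1'⟩, Lψ.trans hm oM pM (c0 := c0) (c1 := c1) ⟨m0.2, hc0'⟩ ⟨m1.2, hc1'⟩,
    L12.trans hm oP pP (c0 := cs) (c1 := c1) hcs ⟨m1.1, hc1'⟩,
    Lφ.integrable hm oP (c := c1) ⟨m1.1, hc1'⟩, Lψ.integrable hm oM (c := c1) ⟨m1.2, hc1'⟩,
    L12.integrable hm oP hcs] with ρ k0 k1 t1 t2 t3 i1 i2 i3
  have hL2 : ‖l1‖ ^ 2 < ‖l2‖ ^ 2 := by gcongr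
  have hpt : ∀ᵐ ξ ∂m, JJ (AL c d ψ1 ψ2) c1 ρ ξ ≤ JJ (AL c d φ1 φ2) c1 ρ ξ ∧
      (JJ (AL c d ψ1 ψ2) c1 ρ ξ = JJ (AL c d φ1 φ2) c1 ρ ξ →
        JJ (fun z => AL c d φ1 φ2 z * AL c d φ2 φ1 z) c1 ρ ξ = 0) := by
    filter_upwards [hf] with ξ hξ
    by_cases hb : ‖Dx ξ‖ ^ 2 * bmp c1 ρ ξ = 0
    · simp only [JJ, mul_assoc, hb, mul_zero, le_refl, imp_self, and_self]
    · have hpos : 0 < ‖Dx ξ‖ ^ 2 * bmp c1 ρ ξ :=
        lt_of_le_of_ne (mul_nonneg (sq_nonneg _) (bmp_nonneg _ _ _)) (Ne.symm hb)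
      obtain ⟨-, g1, g2⟩ := k1 ξ (right_ne_zero_of_mul hb)
      obtain ⟨q1, q2⟩ := lox_ineq (sq_nonneg ‖xi c d φ1 ξ.z‖) (sq_nonneg ‖xi c d φ2 ξ.z‖)
        (sq_nonneg ‖l1‖) hL2
      have a1 : AL c d ψ1 ψ2 ξ.z = ‖l1‖ ^ 2 * ‖xi c d φ1 ξ.z‖ ^ 2 * (‖l1‖ ^ 2 * ‖xi c d φ1 ξ.z‖ ^ 2
          + ‖l2‖ ^ 2 * ‖xi c d φ2 ξ.z‖ ^ 2 + 0)⁻¹ := by
        simp [AL, xi, g1, g2, det2_smul_left, hξ, mul_pow]
      have a2 : AL c d φ1 φ2 ξ.z = ‖xi c d φ1 ξ.z‖ ^ 2 * (‖xi c d φ1 ξ.z‖ ^ 2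
          + ‖xi c d φ2 ξ.z‖ ^ 2 + 0)⁻¹ := by
        simp [AL, hξ]
      rw [← a1, ← a2] at q1 q2
      simp only [JJ, mul_assoc]
      refine ⟨mul_le_mul_of_nonneg_right q1 hpos.le, fun e => ?_⟩
      rcases q2 (mul_right_cancel₀ hb e) with h | h
      · simp only [AL, h, zero_mul]
      · simp only [AL, h, zero_mul, mul_zero]
  have heq : JJ (AL c d ψ1 ψ2) c1 ρ =ᵐ[m] JJ (AL c d φ1 φ2) c1 ρ := by
    rw [← integral_eq_iff_of_ae_le i2 i1 (hpt.mono fun ξ h => h.1), ← t2, ← t1, k0]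
  have hz : ∫ ξ, JJ (fun z => AL c d φ1 φ2 z * AL c d φ2 φ1 z) c1 ρ ξ ∂m = 0 := by
    refine integral_eq_zero_of_ae ?_
    filter_upwards [hpt, heq] with ξ h1 h2
    exact h1.2 h2
  rw [← t3, integral_eq_zero_iff_of_nonneg (JJ_nonneg (fun z => mul_nonneg (AL_nonneg _ _ _ _ _)
    (AL_nonneg _ _ _ _ _)) cs ρ) i3] at hz
  filter_upwards [hz] with ξ hξ hb
  by_contra hne
  obtain ⟨g1, g2⟩ := not_or.1 hne
  have p1 : 0 < ‖xi c d φ1 ξ.z‖ := norm_pos_iff.2 g1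
  have p2 : 0 < ‖xi c d φ2 ξ.z‖ := norm_pos_iff.2 g2
  simp only [JJ, Pi.zero_apply, mul_assoc _ (‖Dx ξ‖ ^ 2)] at hξ
  refine mul_ne_zero (ne_of_gt ?_) hb hξ
  unfold AL
  positivity

end B1

open B1 in
theorem ricc_vertical {c d u p a : ℂ} (hN : Nice c d u) (hI : NoInv c d u) (ha : a ≠ 0)
    {m : Measure (Xi 4)} [IsFiniteMeasure m] (hm : ClosedM m) (hf : ∀ᵐ ξ ∂m, f4 ξ.z = 0)
    (hd : ∀ᵐ ξ ∂m, fderiv ℂ f4 ξ.z (q4 a) ≠ 0 → Dir (Z4 c d u p ξ.z) ξ) :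
    ∃ F : Set ℂ, F.Finite ∧ ∀ᵐ ξ ∂m, ξ.z 2 ≠ 0 → ξ.z 0 / ξ.z 2 ∉ F →
      ξ.z 2 * ξ.v 0 = ξ.z 0 * ξ.v 2 := by
  obtain ⟨φ1, φ2, χ1, χ2, hφ, hχ, hne⟩ := hI
  have hF := finite_badX hN a
  refine ⟨badX c d u a, hF, ?_⟩
  have h0 : (0 : ℂ) ∈ Sp := by simp [Sp]
  obtain ⟨cs, hcs, hcs'⟩ := exists_good_near (isOpen_Sp.mem_nhds h0) hF
  have hcs1 : cs ∈ Sp \ badX c d u a := ⟨mem_of_mem_nhds hcs, hcs'⟩
  have oP : IsOpen (Sp \ badX c d u a) := isOpen_Sp.sdiff hF.isClosed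
  have oF : IsOpen (Set.univ \ badX c d u a) := isOpen_univ.sdiff hF.isClosed
  have pF := isPreconnected_diff_finite isOpen_univ isPreconnected_univ hF
  have z1 : ∀ᶠ ρ : ℝ in 𝓝[>] 0, ∫ ξ, JJ (fun _ => 1) cs ρ ξ ∂m = 0 := by
    filter_upwards [lox_zero hN ha hm hf hd hφ hcs1, lox_zero hN ha hm hf hd hχ hcs1,
      bmp_small (oP.mem_nhds hcs1)] with ρ h1 h2 h3
    refine integral_eq_zero_of_ae ?_
    filter_upwards [h1, h2, hf] with ξ g1 g2 g3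
    simp only [JJ, one_mul, Pi.zero_apply]
    by_contra hb
    have hx := h3 ξ (right_ne_zero_of_mul hb)
    have hU : ξ.z 2 ≠ 0 := fun h => hb (by simp [Dx_zero h])
    have hs := (good_point (p := p) ha hU hx.2 g3).2.1
    obtain ⟨n1, n2, n3, n4⟩ := hne _ hx.1
    rcases g1 hb with g | g <;> rcases g2 hb with g' | g'
    · exact hs (eq_zero_of_det2 n1 g g')
    · exact hs (eq_zero_of_det2 n2 g g')
    · exact hs (eq_zero_of_det2 n3 g g')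
    · exact hs (eq_zero_of_det2 n4 g g')
  have z2 : ∀ x ∉ badX c d u a, ∃ ρ : ℝ, 0 < ρ ∧ ∀ᵐ ξ ∂m, ‖xx ξ.z - x‖ ^ 2 < 2 * ρ → Dx ξ = 0 := by
    intro x hx
    have hx' : x ∈ Set.univ \ badX c d u a := ⟨trivial, hx⟩
    obtain ⟨ρ, ⟨⟨k1, k2⟩, k3⟩, k4⟩ := (((z1.and ((Leaf.one m _).trans hm oF pF hx'
      (c1 := cs) ⟨trivial, hcs'⟩)).and ((Leaf.one m _).integrable hm oF hx')).and
      self_mem_nhdsWithin).exists
    refine ⟨ρ, k4, ?_⟩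
    rw [← k2, integral_eq_zero_iff_of_nonneg (JJ_nonneg (fun _ => zero_le_one) x ρ) k3] at k1
    filter_upwards [k1] with ξ hξ hb
    simp only [JJ, one_mul, Pi.zero_apply] at hξ
    simpa using (mul_eq_zero.1 hξ).resolve_right ((bmp_ne_zero_iff k4 ξ).2 hb)
  have z3 : m {ξ | ξ.z 2 ≠ 0 ∧ xx ξ.z ∉ badX c d u a ∧ Dx ξ ≠ 0} = 0 := by
    refine measure_null_of_locally_null _ fun ξ0 hξ0 => ?_
    obtain ⟨ρ, hρ, h⟩ := z2 _ hξ0.2.1
    refine ⟨{ξ | ¬ (‖xx ξ.z - xx ξ0.z‖ ^ 2 < 2 * ρ → Dx ξ = 0)}, ?_, h⟩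
    have hc : ContinuousAt (fun ξ : Xi 4 => ‖xx ξ.z - xx ξ0.z‖ ^ 2) ξ0 :=
      ((((continuousAt_xx hξ0.1).comp Xi.continuous_z.continuousAt).sub
        continuousAt_const).norm).pow 2
    have h1 : ‖xx ξ0.z - xx ξ0.z‖ ^ 2 < 2 * ρ := by simpa using hρ
    filter_upwards [self_mem_nhdsWithin,
      mem_nhdsWithin_of_mem_nhds (hc.eventually (gt_mem_nhds h1))] with ξ g1 g2 g3
    exact g1.2.2 (g3 g2)
  filter_upwards [measure_eq_zero_iff_ae_notMem.1 z3] with ξ hξ h2 hx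
  have : Dx ξ = 0 := by
    by_contra h
    exact hξ ⟨h2, hx, h⟩
  rw [Dx, div_eq_zero_iff] at this
  exact sub_eq_zero.1 (this.resolve_right (pow_ne_zero _ h2))

end A590
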