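import Pool.Agent.Lib.A590Core
import Pool.Agent.Lib.A590Alg
import Pool.Agent.Lib.A590Ricc1

/-!
No closed directed measure on the cone away from the polar curve.
-/

open scoped ComplexConjugate ComplexOrder ContDiff Topology InnerProductSpace
open MeasureTheory Filter

noncomputable section

namespace A590

namespace B2

theorem dir_apply {V : E 4} {ξ : Xi 4} (h : Dir V ξ) :
    ∃ a b : ℂ, ∀ i, V i = a * ξ.z i + b * ξ.v i :=
  ⟨⟪ξ.z, V⟫_ℂ, ⟪ξ.v, V⟫_ℂ, fun i => by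
    conv_lhs => rw [h]
    simp⟩

theorem lin_ae {m : Measure (Xi 4)} [IsFiniteMeasure m] (hm : ClosedM m) (i j : Fin 4) (a b : ℂ) :
    ∀ᵐ ξ ∂m, a * ξ.z i = b * ξ.z j → a * ξ.v i = b * ξ.v j := by
  filter_upwards [support_ae hm (HomMap.of_clm
    (a • EuclideanSpace.proj i - b • EuclideanSpace.proj j : E 4 →L[ℂ] ℂ))] with ξ h h1
  rw [ContinuousLinearMap.fderiv] at h
  simpa [sub_eq_zero] using h (by simpa [sub_eq_zero] using h1)

/-- no mass on a ruling where the measure is directed -/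
theorem ruling {c d u p : ℂ} (hN : Nice c d u) {m : Measure (Xi 4)} [IsFiniteMeasure m]
    (hm : ClosedM m) {X Y U : ℂ} (hf : fF X Y U = 0) (hz : ¬ (X = 0 ∧ Y = 0 ∧ U = 0)) :
    ∀ᵐ ξ ∂m, ∀ l : ℂ, l ≠ 0 → ξ.z 0 = l * X → ξ.z 1 = l * Y → ξ.z 2 = l * U →
      ¬ Dir (Z4 c d u p ξ.z) ξ := by
  filter_upwards [lin_ae hm 0 2 U X, lin_ae hm 1 0 X Y, lin_ae hm 2 1 Y U,
    (eventually_all_finite (ruling_roots hN hf hz)).2
      fun t _ => point_ae hm (!₂[X, Y, U, t] : E 4)] with ξ h1 h2 h3 h4 l hl e0 e1 e2 hd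
  obtain ⟨a, b, hab⟩ := dir_apply hd
  have g1 := h1 (by rw [e0, e2]; ring)
  have g2 := h2 (by rw [e0, e1]; ring)
  have g3 := h3 (by rw [e1, e2]; ring)
  have hA := A4_eq_zero (c := c) (d := d) (u := u) (p := p) (z := ξ.z)
    (by rw [f4, e0, e1, e2]; unfold fF at hf ⊢; linear_combination l ^ 4 * hf)
    (by simpa [e0, e1, e2, hl] using hz)
    (by rw [hab, hab, e0, e2]; linear_combination b * l * g1)
    (by rw [hab, hab, e0, e1]; linear_combination b * l * g2)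
    (by rw [hab, hab, e1, e2]; linear_combination b * l * g3)
  have e : ξ.z = l • (!₂[X, Y, U, ξ.z 3 / l] : E 4) := by
    ext i
    fin_cases i
    · simpa using e0
    · simpa using e1
    · simpa using e2
    · simp [mul_div_cancel₀ _ hl]
  refine h4 (ξ.z 3 / l) ?_ l e
  rw [e, (homMap_A4 c d).hom, smul_eq_mul, mul_eq_zero] at hA
  simpa [A4] using hA.resolve_left (pow_ne_zero _ hl)

/-- a vertical direction tangent to the discriminant curve is impossible -/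
theorem generic {c d u p : ℂ} {ξ : Xi 4} (hf : f4 ξ.z = 0) (hU : ξ.z 2 ≠ 0)
    (h1 : (ξ.z 0 / ξ.z 2) ^ 4 ≠ 1)
    (hD : ¬ ∃ y, fF (ξ.z 0 / ξ.z 2) y 1 = 0 ∧
      Q0 (ξ.z 0 / ξ.z 2) y 1 ^ 2 + y * P0 c d (ξ.z 0 / ξ.z 2) 1 ^ 3 = 0)
    (hv : ξ.z 2 * ξ.v 0 = ξ.z 0 * ξ.v 2) (hd : Dir (Z4 c d u p ξ.z) ξ)
    (hfv : fderiv ℂ f4 ξ.z ξ.v = 0) (hA : A4 c d ξ.z = 0 → fderiv ℂ (A4 c d) ξ.z ξ.v = 0) :
    False := by
  obtain ⟨a, b, hab⟩ := dir_apply hd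
  have hf' : ξ.z 1 ^ 4 - ξ.z 0 ^ 4 + ξ.z 2 ^ 4 = 0 := hf
  have hY : ξ.z 1 ≠ 0 := fun h => h1 (by
    rw [div_pow, div_eq_one_iff_eq (pow_ne_zero _ hU)]
    rw [h] at hf'
    linear_combination -hf')
  have a0 : A4 c d ξ.z = 0 := by
    have e := cross_UX c d (ξ.z 0) (ξ.z 1) (ξ.z 2) (ξ.z 3)
    have e0 : ZX c d (ξ.z 0) (ξ.z 1) (ξ.z 2) (ξ.z 3) = _ := hab 0
    have e2 : ZU c (ξ.z 0) (ξ.z 1) (ξ.z 3) = _ := hab 2
    rw [e0, e2] at e
    exact mul_right_cancel₀ (pow_ne_zero 3 hY) (by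
      unfold A4
      linear_combination -(1 / 2) * e + b / 2 * hv)
  rw [fderiv_f4] at hfv
  obtain ⟨μ, hμ⟩ : ∃ μ, ξ.v 2 = μ * ξ.z 2 := ⟨ξ.v 2 / ξ.z 2, (div_mul_cancel₀ _ hU).symm⟩
  have v0 : ξ.v 0 = μ * ξ.z 0 := mul_left_cancel₀ hU (by rw [hv, hμ]; ring)
  have v1 : ξ.v 1 = μ * ξ.z 1 := mul_left_cancel₀ (pow_ne_zero 3 hY) (by
    rw [v0, hμ] at hfv
    linear_combination (1 / 4) * hfv - μ * hf')
  have e : ξ.v = μ • ξ.z + (ξ.v 3 - μ * ξ.z 3) • EuclideanSpace.single 3 1 := by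
    ext i
    fin_cases i
    · simpa using v0
    · simpa using v1
    · simpa using hμ
    · simp
  have h2 := hA a0
  rw [e, map_add, map_smul, map_smul, (homMap_A4 c d).euler, a0, fderiv_A4_T, smul_zero, smul_zero,
    zero_add, smul_eq_mul, mul_eq_zero, mul_eq_zero] at h2
  rcases h2 with h2 | h2 | h2
  · rw [h2, zero_smul, add_zero] at e
    have h3 := ξ.inner_zv
    have h4 := ξ.norm_v
    rw [e, inner_smul_right, mul_eq_zero, inner_self_eq_zero] at h3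
    rw [e, h3.resolve_right ξ.z_ne] at h4
    simp at h4
  · exact two_ne_zero h2
  · have h3 := disc_eq c d (ξ.z 0) (ξ.z 1) (ξ.z 2) (ξ.z 3)
    rw [h2, show AA c d (ξ.z 0) (ξ.z 1) (ξ.z 2) (ξ.z 3) = 0 from a0] at h3
    have h4 : Q0 (ξ.z 0) (ξ.z 1) (ξ.z 2) ^ 2 * ξ.z 2 ^ 3 + ξ.z 1 * P0 c d (ξ.z 0) (ξ.z 2) ^ 3 = 0 :=
      mul_left_cancel₀ (pow_ne_zero 3 hU) (by linear_combination h3)
    refine hD ⟨ξ.z 1 / ξ.z 2, ?_, ?_⟩
    · unfold fF
      field_simp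
      linear_combination hf'
    · unfold Q0 P0 at *
      field_simp
      linear_combination h4

theorem roots (w : ℂ) : {y : ℂ | y ^ 4 = w}.Finite := by
  refine (Polynomial.nthRoots 4 w).toFinset.finite_toSet.subset fun y hy => ?_
  simpa [Polynomial.mem_nthRoots] using hy

end B2

open B2 in
theorem riccati {c d u p a : ℂ} (hN : Nice c d u) (hI : NoInv c d u) (ha : a ≠ 0)
    {m : Measure (Xi 4)} [IsFiniteMeasure m] (hm : ClosedM m) (hf : ∀ᵐ ξ ∂m, f4 ξ.z = 0)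
    (hd : ∀ᵐ ξ ∂m, fderiv ℂ f4 ξ.z (q4 a) ≠ 0 → Dir (Z4 c d u p ξ.z) ξ) :
    ∀ᵐ ξ ∂m, fderiv ℂ f4 ξ.z (q4 a) = 0 := by
  obtain ⟨F, hF, hv⟩ := ricc_vertical hN hI ha hm hf hd
  filter_upwards [hf, hd, hv, support_ae hm homMap_f4, support_ae hm (homMap_A4 c d),
    (eventually_all_finite ((hF.union (roots 1)).union hN.finD)).2 fun x _ =>
      (eventually_all_finite (roots (x ^ 4 - 1))).2 fun y hy => ruling (p := p) hN hm (X := x)
        (Y := y) (U := 1) (by have hy' : y ^ 4 = x ^ 4 - 1 := hy; unfold fF; linear_combination hy')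
        (by simp),
    (eventually_all_finite (roots 1)).2 fun y hy => ruling (p := p) hN hm (X := 1)
      (Y := y) (U := 0) (by have hy' : y ^ 4 = 1 := hy; unfold fF; linear_combination hy') (by simp)]
    with ξ h1 h2 h3 h4 h5 h6 h7
  by_contra hW
  have hf' : ξ.z 1 ^ 4 - ξ.z 0 ^ 4 + ξ.z 2 ^ 4 = 0 := h1
  by_cases hU : ξ.z 2 = 0
  · have hX : ξ.z 0 ≠ 0 := fun h => hW (by simp [fderiv_f4, q4, h, hU])
    refine h7 (ξ.z 1 / ξ.z 0) ?_ (ξ.z 0) hX (mul_one _).symm (mul_div_cancel₀ _ hX).symm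
      (by simp [hU]) (h2 hW)
    show (ξ.z 1 / ξ.z 0) ^ 4 = 1
    rw [div_pow, div_eq_one_iff_eq (pow_ne_zero _ hX)]
    rw [hU] at hf'
    linear_combination hf'
  · refine h6 (ξ.z 0 / ξ.z 2) (by_contra fun h => ?_) (ξ.z 1 / ξ.z 2) ?_ (ξ.z 2) hU
      (mul_div_cancel₀ _ hU).symm (mul_div_cancel₀ _ hU).symm (mul_one _).symm (h2 hW)
    · simp only [Set.mem_union, not_or] at h
      exact generic h1 hU h.1.2 h.2 (h3 hU h.1.1) (h2 hW) (h4 h1) h5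
    · show (ξ.z 1 / ξ.z 2) ^ 4 = _
      field_simp
      linear_combination hf'

end A590
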