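import Pool.Agent.Lib.A590Calc

/-!
Block TL: punctured domains and translation invariance.
-/

open scoped ComplexConjugate ComplexOrder ContDiff Topology InnerProductSpace
open MeasureTheory Filter

noncomputable section

namespace A590

namespace TL

theorem punct (a : ℂ) {r : ℝ} (hr : 0 < r) : IsPreconnected (Metric.ball a r \ {a}) := by
  have h : Metric.ball a r \ {a} = (fun w => a + Complex.exp w) '' {w | w.re < Real.log r} := by
    ext z
    simp only [Set.mem_sdiff, Metric.mem_ball, Set.mem_singleton_iff, Set.mem_image,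
      Set.mem_ofPred_eq, dist_eq_norm]
    constructor
    · rintro ⟨h1, h2⟩
      have h3 : z - a ≠ 0 := sub_ne_zero.2 h2
      refine ⟨Complex.log (z - a), ?_, by rw [Complex.exp_log h3]; ring⟩
      rw [Complex.log_re]
      exact Real.log_lt_log (norm_pos_iff.2 h3) h1
    · rintro ⟨w, hw, rfl⟩
      refine ⟨?_, by simp⟩
      rw [add_sub_cancel_left, Complex.norm_exp]
      exact (Real.lt_log_iff_exp_lt hr).1 hw
  rw [h]
  exact (convex_halfSpace_re_lt _).isPreconnected.image _ (by fun_prop)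

theorem diff_pt {U : Set ℂ} (hU : IsOpen U) (hc : IsPreconnected U) (a : ℂ) :
    IsPreconnected (U \ {a}) := by
  by_cases ha : a ∈ U
  swap
  · rwa [Set.sdiff_singleton_eq_self ha]
  obtain ⟨r, hr, hb⟩ := Metric.isOpen_iff.1 hU a ha
  have key : ∀ u v : Set ℂ, IsOpen u → IsOpen v → U \ {a} ⊆ u ∪ v → (U \ {a}) ∩ (u ∩ v) = ∅ →
      Metric.ball a r \ {a} ⊆ u → U \ {a} ⊆ u ∨ U \ {a} ⊆ v := by
    intro u v hu hv hs hd hp
    have := isPreconnected_iff_subset_of_disjoint.1 hc (u ∪ Metric.ball a r) (v \ {a})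
      (hu.union Metric.isOpen_ball) (hv.sdiff isClosed_singleton) (fun z hz => by
        by_cases hza : z = a
        · exact .inl (.inr (hza ▸ Metric.mem_ball_self hr))
        · exact (hs ⟨hz, hza⟩).imp .inl fun h => ⟨h, hza⟩) (by
      rw [Set.eq_empty_iff_forall_notMem] at hd ⊢
      rintro z ⟨h1, h2, h3, h4⟩
      exact hd z ⟨⟨h1, h4⟩, h2.elim id fun h => hp ⟨h, h4⟩, h3⟩)
    exact this.imp (fun h z hz => (h hz.1).elim id fun h' => hp ⟨h', hz.2⟩)
      fun h z hz => (h hz.1).1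
  rw [isPreconnected_iff_subset_of_disjoint]
  intro u v hu hv hs hd
  have hsub : Metric.ball a r \ {a} ⊆ U \ {a} := Set.sdiff_subset_sdiff_left hb
  rcases isPreconnected_iff_subset_of_disjoint.1 (punct a hr) u v hu hv (hsub.trans hs)
    (Set.eq_empty_of_subset_empty (hd ▸ Set.inter_subset_inter_left _ hsub)) with h | h
  · exact key u v hu hv hs hd h
  · exact (key v u hv hu (by rwa [Set.union_comm]) (by rwa [Set.inter_comm v]) h).symm

/-- The bump of radius `ρ`. -/
def bump (ρ : ℝ) (z : ℂ) : ℝ := st (3 - ‖z‖ ^ 2 / ρ)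

theorem bump_smooth (ρ : ℝ) : ContDiff ℝ ∞ (bump ρ) :=
  st_contDiff.comp (contDiff_const.sub ((contDiff_norm_sq ℝ).div_const ρ))

theorem bump_supp {ρ e : ℝ} (hρ : 0 < ρ) (he : 0 < e) (h : 2 * ρ ≤ e ^ 2) (c : ℂ) :
    tsupport (fun z => bump ρ (z - c)) ⊆ Metric.closedBall c e := by
  refine closure_minimal (fun z hz => ?_) Metric.isClosed_closedBall
  by_contra hn
  rw [Metric.mem_closedBall, dist_eq_norm, not_le] at hn
  refine hz (st_zero ?_)
  have : 2 ≤ ‖z - c‖ ^ 2 / ρ := by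
    rw [le_div_iff₀ hρ]; nlinarith
  linarith

theorem loc {Ω : Type*} [MeasurableSpace Ω] {μ : Measure Ω} {x : Ω → ℂ} (hx : Measurable x)
    {w : Ω → ℝ} {c : ℂ} {e ρ : ℝ} (he : 0 < e) (hρ : 0 < ρ) (h2 : 2 * ρ ≤ e ^ 2)
    (hint : IntegrableOn w (x ⁻¹' Metric.closedBall c (2 * e)) μ)
    (hder : ∀ G : ℂ → ℝ, ContDiff ℝ ∞ G → tsupport G ⊆ Metric.closedBall c (2 * e) → ∀ h : ℂ,
      ∫ o, w o * fderiv ℝ G (x o) h ∂μ = 0) {h : ℂ} (hh : ‖h‖ ≤ e) :
    ∫ o, w o * bump ρ (x o - c) ∂μ = ∫ o, w o * bump ρ (x o - (c + h)) ∂μ := by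
  set K := Metric.closedBall c (2 * e)
  have hK : MeasurableSet (x ⁻¹' K) := hx Metric.isClosed_closedBall.measurableSet
  set v := (x ⁻¹' K).indicator w
  have hv : Integrable v μ := (integrable_indicator_iff hK).2 hint
  have hs : ∀ t ∈ Set.Icc (0 : ℝ) 1, tsupport (fun z => bump ρ (z - (c + t * h))) ⊆ K := by
    intro t ht
    refine (bump_supp hρ he h2 _).trans (Metric.closedBall_subset_closedBall' ?_)
    rw [dist_eq_norm, add_sub_cancel_left, norm_mul, Complex.norm_real, Real.norm_of_nonneg ht.1]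
    nlinarith [ht.1, ht.2, norm_nonneg h]
  have hcs : HasCompactSupport (bump ρ) := by
    have := bump_supp hρ he h2 0
    simp only [sub_zero] at this
    exact (isCompact_closedBall 0 e).of_isClosed_subset (isClosed_tsupport _) this
  have hfc : Continuous (fderiv ℝ (bump ρ)) := (bump_smooth ρ).continuous_fderiv (by simp)
  obtain ⟨C, hC⟩ := hfc.bounded_above_of_compact_support (hcs.fderiv ℝ)
  obtain ⟨D, hD⟩ := (bump_smooth ρ).continuous.bounded_above_of_compact_support hcs
  have hm : ∀ t : ℝ, Measurable fun o => x o - (c + t * h) := fun t => hx.sub_const _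
  have hd : ∀ t : ℝ, HasDerivAt (fun t : ℝ => ∫ o, v o * bump ρ (x o - (c + t * h)) ∂μ)
      (∫ o, v o * fderiv ℝ (bump ρ) (x o - (c + t * h)) (-h) ∂μ) t := by
    intro t
    refine (hasDerivAt_integral_of_dominated_loc_of_deriv_le (s := Set.univ)
      (bound := fun o => ‖v o‖ * (C * ‖h‖))
      (F' := fun t o => v o * fderiv ℝ (bump ρ) (x o - (c + t * h)) (-h)) univ_mem
      (.of_forall fun t => hv.1.mul
        ((bump_smooth ρ).continuous.measurable.comp (hm t)).aestronglyMeasurable)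
      (hv.mul_bdd ((bump_smooth ρ).continuous.measurable.comp (hm t)).aestronglyMeasurable
        (.of_forall fun o => hD _))
      (hv.1.mul (((hfc.clm_apply continuous_const).measurable.comp (hm t)).aestronglyMeasurable))
      (.of_forall fun o t _ => ?_) (hv.norm.mul_const _) (.of_forall fun o t _ => ?_)).2
    · rw [norm_mul]
      gcongr
      refine (ContinuousLinearMap.le_opNorm _ _).trans ?_
      rw [norm_neg]
      gcongr
      exact hC _
    · have h1 : HasDerivAt (fun t : ℝ => x o - (c + t * h)) (-h) t := by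
        simpa using (((Complex.ofRealCLM.hasDerivAt (x := t)).mul_const h).const_add c).const_sub
          (x o)
      exact ((((bump_smooth ρ).differentiable (by simp)) _).hasFDerivAt.comp_hasDerivAt t
        h1).const_mul _
  have hI : ∀ F : ℂ → ℝ, (∀ z, z ∉ K → F z = 0) →
      ∫ o, v o * F (x o) ∂μ = ∫ o, w o * F (x o) ∂μ := by
    intro F hF
    congr 1
    ext o
    by_cases ho : x o ∈ K
    · simp only [v, Set.indicator_of_mem (show o ∈ x ⁻¹' K from ho)]
    · simp [hF _ ho]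
  have h0 := constant_of_has_deriv_right_zero (a := 0) (b := 1)
    (fun t _ => (hd t).continuousAt.continuousWithinAt) (fun t ht => by
      have ht' := Set.Ico_subset_Icc_self ht
      have := hder (fun z => bump ρ (z - (c + t * h)))
        ((bump_smooth ρ).comp (contDiff_id.sub contDiff_const)) (hs t ht') (-h)
      rw [← hI (fun z => fderiv ℝ _ z (-h)) fun z hz => by
        rw [fderiv_of_notMem_tsupport ℝ fun h' => hz (hs t ht' h')]; rfl] at this
      simp only [fderiv_comp_sub] at this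
      exact this ▸ (hd t).hasDerivWithinAt) 1 ⟨zero_le_one, le_rfl⟩
  have hz : ∀ t ∈ Set.Icc (0 : ℝ) 1, ∀ z, z ∉ K → bump ρ (z - (c + t * h)) = 0 :=
    fun t ht z hz => image_eq_zero_of_notMem_tsupport (f := fun z => bump ρ (z - (c + t * h)))
      fun h' => hz (hs t ht h')
  rw [hI _ (hz 1 (by simp)), hI _ (hz 0 (by simp))] at h0
  simpa using h0.symm

end TL

theorem isPreconnected_diff_finite {U F : Set ℂ} (hU : IsOpen U) (hc : IsPreconnected U)
    (hF : F.Finite) : IsPreconnected (U \ F) := by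
  induction F, hF using Set.Finite.induction_on with
  | empty => simpa
  | insert _ hs ih =>
    rw [Set.insert_eq, Set.union_comm, ← Set.sdiff_sdiff]
    exact TL.diff_pt (hU.sdiff hs.isClosed) ih _

theorem translate {Ω : Type*} [MeasurableSpace Ω] {μ : Measure Ω} {x : Ω → ℂ} (hx : Measurable x)
    {w : Ω → ℝ} {U : Set ℂ} (hU : IsOpen U) (hc : IsPreconnected U)
    (hint : ∀ K : Set ℂ, IsCompact K → K ⊆ U → IntegrableOn w (x ⁻¹' K) μ)
    (hder : ∀ G : ℂ → ℝ, ContDiff ℝ ∞ G → HasCompactSupport G → tsupport G ⊆ U → ∀ h : ℂ,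
      ∫ o, w o * fderiv ℝ G (x o) h ∂μ = 0) {c0 c1 : ℂ} (h0 : c0 ∈ U) (h1 : c1 ∈ U) :
    ∀ᶠ ρ : ℝ in 𝓝[>] 0, ∫ o, w o * st (3 - ‖x o - c0‖ ^ 2 / ρ) ∂μ
      = ∫ o, w o * st (3 - ‖x o - c1‖ ^ 2 / ρ) ∂μ := by
  refine hc.induction₂ (fun c0 c1 => ∀ᶠ ρ : ℝ in 𝓝[>] 0, ∫ o, w o * TL.bump ρ (x o - c0) ∂μ
      = ∫ o, w o * TL.bump ρ (x o - c1) ∂μ) (fun c hcU => ?_)
    (fun _ _ _ _ _ _ p q => (p.and q).mono fun _ h => h.1.trans h.2)
    (fun _ _ _ _ p => p.mono fun _ h => h.symm) h0 h1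
  obtain ⟨r, hr, hb⟩ := Metric.nhds_basis_closedBall.mem_iff.1 (hU.mem_nhds hcU)
  have he : 0 < r / 2 := by positivity
  rw [show r = 2 * (r / 2) by ring] at hb
  filter_upwards [nhdsWithin_le_nhds (Metric.closedBall_mem_nhds c he)] with y hy
  filter_upwards [Ioo_mem_nhdsGT (show 0 < (r / 2) ^ 2 / 2 by positivity)] with ρ hρ
  have := TL.loc hx he hρ.1 (by linarith [hρ.2]) (hint _ (isCompact_closedBall _ _) hb)
    (fun G hG hs => hder G hG ((isCompact_closedBall _ _).of_isClosed_subset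
      (isClosed_tsupport _) hs) (hs.trans hb)) (h := y - c) (by rwa [← dist_eq_norm])
  rwa [add_sub_cancel] at this

end A590
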