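import Pool.Agent.Lib.A590Geo1
import Pool.Agent.Lib.A590Core
import Pool.Agent.Lib.A590Limit
import Pool.Agent.Lib.A590Off
import Pool.Agent.Lib.A590Canard
import Pool.Agent.Lib.A590Drift
import Pool.Agent.Lib.A590Trans
import Pool.Agent.Lib.A590Ricc1
import Pool.Agent.Lib.A590Ricc2
import Pool.Agent.Lib.A590Alg

/-!
Block G of MP_a590e5_an: no directed closed measure in dimension three.
-/

open scoped ComplexConjugate ComplexOrder ContDiff Topology InnerProductSpace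
open MeasureTheory Filter

noncomputable section

namespace A590

namespace Geo

theorem W_eq (a : ℂ) (z : E 4) : fderiv ℂ f4 z (q4 a) = 4 * (z 2 ^ 3 - a * z 0 ^ 3) := by
  rw [fderiv_f4]
  simp [q4]
  ring

theorem sing_A {c d u p k : ℂ} {z : E 4} (hf : f4 z = 0) (hz : ¬ (z 0 = 0 ∧ z 1 = 0 ∧ z 2 = 0))
    (hk : Z4 c d u p z = k • z) : A4 c d z = 0 := by
  refine A4_eq_zero (u := u) (p := p) hf hz ?_ ?_ ?_ <;> rw [hk] <;> simp <;> ring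

theorem sing_scale {c d u p k : ℂ} {z : E 4} (hf : f4 z = 0) (hU : z 2 ≠ 0)
    (hk : Z4 c d u p z = k • z) : ∃ t k' : ℂ, fF (z 0 / z 2) (z 1 / z 2) 1 = 0 ∧
      AA c d (z 0 / z 2) (z 1 / z 2) 1 t = 0 ∧ ZU c (z 0 / z 2) (z 1 / z 2) t = k' ∧
      ZT c d u (z 0 / z 2) (z 1 / z 2) 1 t = k' * t := by
  set w : E 4 := (z 2)⁻¹ • z with hw
  have w0 : w 0 = z 0 / z 2 := by simp [hw, div_eq_inv_mul]
  have w1 : w 1 = z 1 / z 2 := by simp [hw, div_eq_inv_mul]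
  have w2 : w 2 = 1 := by simp [hw, hU]
  have hfw : f4 w = 0 := by rw [hw, homMap_f4.hom, hf, smul_zero]
  have hZ : Z4 c d u p w = ((z 2)⁻¹ ^ 7 * k) • w := by
    rw [hw, (homMap_Z4 c d u p).hom, hk, smul_smul, smul_smul]
    congr 1
    ring
  have hA := sing_A hfw (fun h => one_ne_zero (w2.symm.trans h.2.2)) hZ
  have h2 := congrArg (fun v : E 4 => v 2) hZ
  have h3 := congrArg (fun v : E 4 => v 3) hZ
  refine ⟨w 3, (z 2)⁻¹ ^ 7 * k, ?_, ?_, ?_, ?_⟩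
  · simpa [f4, w0, w1, w2] using hfw
  · simpa [A4, w0, w1, w2] using hA
  · simpa [Z4, w0, w1, w2] using h2
  · simpa [Z4, w0, w1, w2] using h3

/-- the exceptional abscissae -/
def SS (c d u : ℂ) : Set ℂ := {x : ℂ | ∃ y t, fF x y 1 = 0 ∧ AA c d x y 1 t = 0 ∧
    ZT c d u x y 1 t = t * ZU c x y t}

def BB (c d u : ℂ) : Set (ℂ × ℂ) := {w : ℂ × ℂ | fF w.1 1 w.2 = 0 ∧ (w.2 = 0 ∨ w.1 / w.2 ∈ SS c d u)}

theorem sing_SS {c d u p k : ℂ} {z : E 4} (hf : f4 z = 0) (hU : z 2 ≠ 0)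
    (hk : Z4 c d u p z = k • z) : z 0 / z 2 ∈ SS c d u := by
  obtain ⟨t, k', h1, h2, h3, h4⟩ := sing_scale hf hU hk
  exact ⟨_, t, h1, h2, by rw [h4, h3, mul_comm]⟩

theorem sing_BB {c d u p k : ℂ} {z : E 4} (hf : f4 z = 0) (hY : z 1 ≠ 0)
    (hk : Z4 c d u p z = k • z) : (z 0 / z 1, z 2 / z 1) ∈ BB c d u := by
  constructor
  · simp only [f4, fF] at hf ⊢
    field_simp
    linear_combination hf
  · by_cases hU : z 2 = 0
    · left; simp [hU]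
    · right
      have : z 0 / z 1 / (z 2 / z 1) = z 0 / z 2 := by field_simp
      simp only [this]
      exact sing_SS hf hU hk

theorem not_sing_br {c d u p k : ℂ} (hN : Nice c d u) {z : E 4} (h1 : z 1 = 0) (h0 : z 0 = z 2)
    (hU : z 2 ≠ 0) : Z4 c d u p z ≠ k • z := by
  intro hk
  have hf : f4 z = 0 := by simp [f4, fF, h1, h0]
  obtain ⟨t, k', -, h2, h3, h4⟩ := sing_scale hf hU hk
  rw [h0, h1, div_self hU, zero_div] at h2 h3 h4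
  refine hN.br1 t h2 ?_
  rw [h4, ← h3]
  simp [ZU]

/-- the admissible values of `a` -/
structure Adm (c d u a : ℂ) : Prop where
  h0 : a ≠ 0
  h1 : a ^ 4 ≠ 1
  h2 : a ^ 4 ≠ -1
  hB : ∀ w ∈ BB c d u, ∀ w' ∈ BB c d u, a ≠ (w.1 - w'.1) / (w.2 - w'.2)
  hS : ∀ x ∈ SS c d u, a ≠ x⁻¹ ^ 3

theorem exists_adm {c d u : ℂ} (hN : Nice c d u) : ∃ a, Adm c d u a := by
  have hS : (SS c d u).Finite := hN.finS
  have hB : (BB c d u).Finite := finite_B hS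
  have h1 : (({0} : Set ℂ) ∪ {a | a ^ 4 = 1} ∪ {a | a ^ 4 = -1}
      ∪ (fun w : (ℂ × ℂ) × (ℂ × ℂ) => (w.1.1 - w.2.1) / (w.1.2 - w.2.2)) '' (BB c d u ×ˢ BB c d u)
      ∪ (fun x : ℂ => x⁻¹ ^ 3) '' SS c d u).Finite :=
    ((((Set.finite_singleton _).union (finite_pow_eq (by norm_num) _)).union
      (finite_pow_eq (by norm_num) _)).union ((hB.prod hB).image _)).union (hS.image _)
  obtain ⟨a, ha⟩ := h1.infinite_compl.nonempty
  simp only [Set.mem_compl_iff, Set.mem_union, not_or] at ha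
  obtain ⟨⟨⟨⟨a0, a1⟩, a2⟩, a3⟩, a4⟩ := ha
  exact ⟨a, a0, a1, a2, fun w hw w' hw' h => a3 ⟨(w, w'), ⟨hw, hw'⟩, h.symm⟩,
    fun x hx h => a4 ⟨x, hx, h.symm⟩⟩

def su (c d u p a : ℂ) (ha : a ^ 4 ≠ 1) : Setup 4 where
  f := f4
  r := 4
  j := 2
  d := 8
  q := q4 a
  Z := Z4 c d u p
  h := fun z => 4 * p * z 1 ^ 3 * z 2 ^ 2 * z 3 ^ 2
  hf := homMap_f4
  hr := by norm_num
  hj := le_rfl
  hq := by
    simp only [f4, fF, q4]
    intro h
    apply ha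
    simp at h
    linear_combination -h
  hZ := homMap_Z4 c d u p
  hh := by
    have c1 := cont_coord 1
    have c2 := cont_coord 2
    have c3 := cont_coord 3
    fun_prop
  tang := tang4 c d u p

theorem exists_good {c d u p a : ℂ} (hN : Nice c d u) (hA : Adm c d u a) {z : E 4}
    (hz : ¬ (z 1 = 0 ∧ z 0 = a * z 2)) : ∃ μ : ℂ, (su c d u p a hA.h1).Good (z + μ • q4 a) := by
  have e0 : ∀ μ : ℂ, (z + μ • q4 a) 0 = z 0 + μ * a := fun μ => by simp [q4]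
  have e1 : ∀ μ : ℂ, (z + μ • q4 a) 1 = z 1 := fun μ => by simp [q4]
  have e2 : ∀ μ : ℂ, (z + μ • q4 a) 2 = z 2 + μ := fun μ => by simp [q4]
  by_cases hY : z 1 = 0
  · have hX : z 0 ≠ a * z 2 := fun h => hz ⟨hY, h⟩
    have ha1 : a - 1 ≠ 0 := by
      intro h
      apply hA.h1
      rw [sub_eq_zero.1 h, one_pow]
    obtain ⟨μ, hμ⟩ : ∃ μ : ℂ, z 0 + μ * a = z 2 + μ :=
      ⟨(z 2 - z 0) / (a - 1), by field_simp; ring⟩
    have hm : z 2 + μ ≠ 0 := by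
      intro h
      apply hX
      linear_combination hμ + (1 - a) * h
    refine ⟨μ, ?_, ?_, fun k => ?_⟩
    · change f4 _ = 0
      simp only [f4, fF, e0, e1, e2, hμ, hY]
      ring
    · change fderiv ℂ f4 _ (q4 a) ≠ 0
      rw [W_eq, e0, e2, hμ]
      have : 4 * ((z 2 + μ) ^ 3 - a * (z 2 + μ) ^ 3) = -(4 * (z 2 + μ) ^ 3 * (a - 1)) := by ring
      rw [this]
      exact neg_ne_zero.2 (mul_ne_zero (mul_ne_zero (by norm_num) (pow_ne_zero _ hm)) ha1)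
    · exact not_sing_br hN (by rw [e1, hY]) (by rw [e0, e2, hμ]) (by rw [e2]; exact hm)
  · obtain ⟨μ1, μ2, hne, f1, f2, w1, w2⟩ := two_simple (X := z 0) (U := z 2) hA.h0 hA.h1 hA.h2 hY
    have key : ∀ μ : ℂ, fF (z 0 + μ * a) (z 1) (z 2 + μ) = 0 →
        (z 2 + μ) ^ 3 ≠ a * (z 0 + μ * a) ^ 3 → ¬ (su c d u p a hA.h1).Good (z + μ • q4 a) →
        ((z 0 + μ * a) / z 1, (z 2 + μ) / z 1) ∈ BB c d u := by
      intro μ hf hw hg
      have hf' : f4 (z + μ • q4 a) = 0 := by simp only [f4, e0, e1, e2, hf]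
      have hw' : fderiv ℂ f4 (z + μ • q4 a) (q4 a) ≠ 0 := by
        rw [W_eq, e0, e2]
        exact mul_ne_zero (by norm_num) (sub_ne_zero.2 hw)
      by_contra hB
      refine hg ⟨hf', hw', fun k hk => hB ?_⟩
      have := sing_BB hf' (by rw [e1]; exact hY) hk
      rwa [e0, e1, e2] at this
    by_contra hcon
    push Not at hcon
    refine hA.hB _ (key μ1 f1 w1 (hcon μ1)) _ (key μ2 f2 w2 (hcon μ2)) ?_
    have h12 : μ1 - μ2 ≠ 0 := sub_ne_zero.2 hne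
    have : (z 2 + μ1) / z 1 - (z 2 + μ2) / z 1 = (μ1 - μ2) / z 1 := by ring
    simp only [this]
    field_simp
    ring

def l0 (a : ℂ) : E 4 →L[ℂ] ℂ :=
  (EuclideanSpace.proj (0 : Fin 4) : E 4 →L[ℂ] ℂ) - a • EuclideanSpace.proj (2 : Fin 4)
def l1 : E 4 →L[ℂ] ℂ := EuclideanSpace.proj (1 : Fin 4)
def l3 : E 4 →L[ℂ] ℂ := EuclideanSpace.proj (3 : Fin 4)

theorem l0_apply (a : ℂ) (z : E 4) : l0 a z = z 0 - a * z 2 := by simp [l0]
theorem l1_apply (z : E 4) : l1 z = z 1 := rfl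
theorem l3_apply (z : E 4) : l3 z = z 3 := rfl

theorem aD_ne {a : ℂ} {z : E 4} (hz : ∀ c : ℂ, z ≠ c • q4 a) : aD (l0 a) l1 l3 z ≠ 0 := by
  intro h
  obtain ⟨h0, h1, h3⟩ := aD_eq_zero h
  rw [l0_apply] at h0
  rw [l1_apply] at h1
  rw [l3_apply] at h3
  refine hz (z 2) (E4_ext ?_ ?_ ?_ ?_) <;> simp [q4, h1, h3]
  linear_combination h0

theorem step_hY {c d u p a : ℂ} (hN : Nice c d u) (hI : NoInv c d u) (hA : Adm c d u a)
    (D : Degen (su c d u p a hA.h1)) :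
    ∀ᵐ ξ ∂(D.m0 : Measure (Xi 4)), f4 ξ.z = 0 → fderiv ℂ f4 ξ.z (q4 a) = 0 := by
  have hm : MeasurableSet {ξ : Xi 4 | f4 ξ.z = 0} :=
    (isClosed_eq (homMap_f4.cd.continuous.comp Xi.continuous_z) continuous_const).measurableSet
  have hc := closed_eq D.closed0 homMap_f4 (by norm_num)
  have h := riccati (p := p) hN hI hA.h0 hc (ae_restrict_mem hm) (by
    rw [ae_restrict_iff' hm]
    exact D.dir_on)
  rw [ae_restrict_iff' hm] at h
  exact h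

theorem step_line {c d u p a : ℂ} (hN : Nice c d u) (hI : NoInv c d u) (hA : Adm c d u a)
    (D : Degen (su c d u p a hA.h1)) :
    ∀ᵐ ξ ∂(D.m0 : Measure (Xi 4)), f4 ξ.z ≠ 0 →
      ξ.z 1 = 0 ∧ ξ.z 0 = a * ξ.z 2 ∧ ξ.z 3 ≠ 0 ∧ ∀ k : ℂ, ξ.z ≠ k • q4 a := by
  filter_upwards [D.offY (step_hY hN hI hA D), point_ae D.closed0 (q4 a)] with ξ h1 h2 hf
  have hl : ξ.z 1 = 0 ∧ ξ.z 0 = a * ξ.z 2 := by
    by_contra hz
    obtain ⟨μ, hμ⟩ := exists_good (p := p) hN hA hz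
    exact h1 hf μ hμ
  refine ⟨hl.1, hl.2, fun h3 => ?_, h2⟩
  refine h2 (ξ.z 2) (E4_ext ?_ ?_ ?_ ?_) <;> simp [q4, hl.1, hl.2, h3, mul_comm]

theorem step_f {c d u p a : ℂ} (hN : Nice c d u) (hI : NoInv c d u) (hA : Adm c d u a)
    (hp' : p * (1 - a ^ 4) = -2 * a ^ 3 * (c ^ 2 + 2 * a ^ 2 * c * d + d ^ 2))
    (D : Degen (su c d u p a hA.h1)) :
    ∀ᵐ ξ ∂(D.m0 : Measure (Xi 4)), f4 ξ.z = 0 := by
  have hc0 : 1 - a ^ 4 ≠ 0 := sub_ne_zero.2 hA.h1.symm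
  set k : ℂ := Complex.I * conj (1 - a ^ 4) ^ 2 * a ^ 4 with hk
  have hline := step_line hN hI hA D
  have hnorm : ∀ ξ : Xi 4, ξ.z 1 = 0 → ξ.z 0 = a * ξ.z 2 →
      ‖ξ.z 2‖ ^ 2 * (‖a‖ ^ 2 + 1) + ‖ξ.z 3‖ ^ 2 = 1 := by
    intro ξ h1 h0
    have := norm_sq4 ξ.z
    rw [ξ.norm_z, h1, h0, norm_mul, norm_zero] at this
    linear_combination -this
  have hfl : ∀ z : E 4, z 1 = 0 → z 0 = a * z 2 → f4 z = (1 - a ^ 4) * z 2 ^ 4 := by
    intro z h1 h0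
    simp only [f4, fF, h1, h0]
    ring
  have hd := D.drift (a := aF k (l0 a) l1 l3)
    (((cd_aN k l1 l3).contDiffOn).mul ((cd_aD (l0 a) l1 l3).contDiffOn.inv fun z hz => aD_ne hz))
    (fun z _ c hc => aF_smul _ _ _ _ _ hc)
    (fun z hz => by
      change rz _ z (q4 a) = 0
      rw [rz_aF _ _ _ _ (aD_ne hz), rz_aN, rz_aD, l0_apply a (q4 a), l1_apply (q4 a),
        l3_apply (q4 a)]
      simp [q4])
    (by
      filter_upwards [hline] with ξ h hf _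
      obtain ⟨h1, h0, h3, hq⟩ := h hf
      change 0 < (conj (f4 ξ.z) * f4 ξ.z ^ 2 * (fderiv ℂ f4 ξ.z (q4 a)
        - ((4 : ℕ) : ℂ) * f4 ξ.z * ⟪ξ.z, q4 a⟫_ℂ)
        * conj (rz (aF k (l0 a) l1 l3) ξ.z (Z4 c d u p ξ.z))).im
      have hf' : f4 ξ.z ≠ 0 := hf
      have hm : ξ.z 2 ≠ 0 := by
        intro h
        apply hf'
        rw [hfl _ h1 h0, h]
        simp
      have hn := hnorm ξ h1 h0
      have hn' : conj (ξ.z 2) * ξ.z 2 * (conj a * a + 1) + conj (ξ.z 3) * ξ.z 3 = 1 := by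
        rw [Complex.conj_mul', Complex.conj_mul', Complex.conj_mul']
        have := congrArg (fun x : ℝ => (x : ℂ)) hn
        push_cast at this
        exact this
      have hZY : l1 (Z4 c d u p ξ.z) = 4 * a ^ 4 * ξ.z 2 ^ 7 * ξ.z 3 := by
        rw [l1_apply]
        simp only [Z4, ZY, cp, Q0, P0, fF, h0, h1]
        simp
        linear_combination (ξ.z 2 ^ 6 * ξ.z 3 ^ 2) * hp'
      have hD : ((aD (l0 a) l1 l3 ξ.z : ℝ) : ℂ) = conj (ξ.z 3) * ξ.z 3 := by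
        rw [Complex.conj_mul']
        simp [aD, l0_apply, l1_apply, l3_apply, h0, h1]
      have hrz : rz (aF k (l0 a) l1 l3) ξ.z (Z4 c d u p ξ.z)
          = 2 * conj k * a ^ 4 * ξ.z 2 ^ 7 := by
        have hN0 : aN k l1 l3 ξ.z = 0 := by simp [aN, l1_apply, h1]
        have h3' : conj (ξ.z 3) ≠ 0 := by simpa using h3
        rw [rz_aF _ _ _ _ (aD_ne hq), rz_aN, hN0, hZY, Complex.ofReal_inv, hD, l1_apply ξ.z,
          l3_apply ξ.z, h1]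
        simp only [map_zero, Complex.ofReal_zero]
        field_simp
        ring
      have hW : fderiv ℂ f4 ξ.z (q4 a) - ((4 : ℕ) : ℂ) * f4 ξ.z * ⟪ξ.z, q4 a⟫_ℂ
          = 4 * (1 - a ^ 4) * ξ.z 2 ^ 3 * (conj (ξ.z 3) * ξ.z 3) := by
        rw [W_eq, inner_q4, hfl _ h1 h0, h0, map_mul]
        push_cast
        linear_combination (-4 * (1 - a ^ 4) * ξ.z 2 ^ 3) * hn'
      rw [hrz, hW, hfl _ h1 h0]
      have hfin : conj ((1 - a ^ 4) * ξ.z 2 ^ 4) * ((1 - a ^ 4) * ξ.z 2 ^ 4) ^ 2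
          * (4 * (1 - a ^ 4) * ξ.z 2 ^ 3 * (conj (ξ.z 3) * ξ.z 3))
          * conj (2 * conj k * a ^ 4 * ξ.z 2 ^ 7)
          = ((8 * ‖1 - a ^ 4‖ ^ 6 * ‖a‖ ^ 8 * ‖ξ.z 2‖ ^ 22 * ‖ξ.z 3‖ ^ 2 : ℝ) : ℂ) * Complex.I := by
        have e1 := Complex.conj_mul' (1 - a ^ 4)
        have e2 := Complex.conj_mul' a
        have e3 := Complex.conj_mul' (ξ.z 2)
        have e4 := Complex.conj_mul' (ξ.z 3)
        have : ((8 * ‖1 - a ^ 4‖ ^ 6 * ‖a‖ ^ 8 * ‖ξ.z 2‖ ^ 22 * ‖ξ.z 3‖ ^ 2 : ℝ) : ℂ)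
            = 8 * (conj (1 - a ^ 4) * (1 - a ^ 4)) ^ 3 * (conj a * a) ^ 4
              * (conj (ξ.z 2) * ξ.z 2) ^ 11 * (conj (ξ.z 3) * ξ.z 3) := by
          rw [e1, e2, e3, e4]
          push_cast
          ring
        rw [this, map_mul, map_mul, map_mul, map_mul, Complex.conj_conj, map_pow, map_pow,
          map_pow, hk, map_ofNat]
        ring
      rw [hfin, Complex.mul_I_im, Complex.ofReal_re]
      have := norm_pos_iff.2 hc0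
      have := norm_pos_iff.2 hA.h0
      have := norm_pos_iff.2 hm
      have := norm_pos_iff.2 h3
      positivity)
  filter_upwards [hd, hline] with ξ h1 h2
  by_contra hf
  obtain ⟨e1, e0, e3, -⟩ := h2 hf
  have h := h1 hf
  change sP f4 4 (q4 a) ≤ ‖f4 ξ.z‖ ^ 2 at h
  have hq : ‖q4 a‖ ^ 2 = ‖a‖ ^ 2 + 1 := by
    rw [norm_sq4]
    simp [q4]
  have hfq : f4 (q4 a) = 1 - a ^ 4 := by
    rw [hfl _ (by simp [q4]) (by simp [q4])]
    simp [q4]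
  have hn := hnorm ξ e1 e0
  have h3 : 0 < ‖ξ.z 3‖ ^ 2 := pow_pos (norm_pos_iff.2 e3) 2
  have hlt : ‖ξ.z 2‖ ^ 2 * (‖a‖ ^ 2 + 1) < 1 := by linarith
  have hlt4 : (‖ξ.z 2‖ ^ 2 * (‖a‖ ^ 2 + 1)) ^ 4 < 1 :=
    pow_lt_one₀ (by positivity) hlt (by norm_num)
  rw [sP, pow_mul, hq, hfq, hfl _ e1 e0, norm_mul, norm_pow,
    div_le_iff₀ (by positivity)] at h
  have hc : 0 < ‖1 - a ^ 4‖ ^ 2 := pow_pos (norm_pos_iff.2 hc0) 2
  have : (‖1 - a ^ 4‖ * ‖ξ.z 2‖ ^ 4) ^ 2 * (‖a‖ ^ 2 + 1) ^ 4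
      = ‖1 - a ^ 4‖ ^ 2 * (‖ξ.z 2‖ ^ 2 * (‖a‖ ^ 2 + 1)) ^ 4 := by ring
  rw [this] at h
  nlinarith

theorem AA_scale (c d υ κ X T : ℂ) (hX : X ≠ 0) :
    AA c d X (υ * X) (κ * X) T = X ^ 6 * AA c d 1 υ κ (T / X) := by
  simp only [AA, P0, Q0]
  field_simp

theorem step_canard {c d u p a : ℂ} (hN : Nice c d u) (hA : Adm c d u a)
    (D : Degen (su c d u p a hA.h1))
    (hY : ∀ᵐ ξ ∂(D.m0 : Measure (Xi 4)), f4 ξ.z = 0 ∧ fderiv ℂ f4 ξ.z (q4 a) = 0)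
    {κ υ : ℂ} (hκ : κ ^ 3 = a) (hυ : υ ^ 4 = 1 - κ ^ 4) :
    ∀ᵐ ξ ∂(D.m0 : Measure (Xi 4)), prL κ υ ξ.z ≠ ξ.z := by
  have hκ0 : κ ≠ 0 := by
    rintro rfl
    apply hA.h0
    rw [← hκ]; simp
  have hκ4 : 1 - κ ^ 4 ≠ 0 := by
    intro h
    apply hA.h1
    have : κ ^ 4 = 1 := by linear_combination -h
    calc a ^ 4 = (κ ^ 4) ^ 3 := by rw [← hκ]; ring
      _ = 1 := by rw [this]; norm_num
  have hυ0 : υ ≠ 0 := by
    rintro rfl
    apply hκ4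
    rw [← hυ]; simp
  let l : E 4 →L[ℂ] ℂ :=
    (EuclideanSpace.proj (2 : Fin 4) : E 4 →L[ℂ] ℂ) - κ • EuclideanSpace.proj (0 : Fin 4)
  have hl : ∀ z : E 4, l z = z 2 - κ * z 0 := fun z => by simp [l]
  have hfc : fF 1 υ κ = 0 := by simp only [fF]; linear_combination hυ
  have hlZ : ∀ z : E 4, prL κ υ z = z → z 0 ≠ 0 →
      (l (Z4 c d u p z) = 0 ↔ AA c d 1 υ κ (z 3 / z 0) = 0) := by
    intro z hz h0
    obtain ⟨h1, h2⟩ := prL_fix.1 hz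
    have hx := cross_UX c d (z 0) (z 1) (z 2) (z 3)
    have e : z 0 * l (Z4 c d u p z)
        = -(2 * z 0 ^ 9 * υ ^ 3) * AA c d 1 υ κ (z 3 / z 0) := by
      rw [hl]
      have z0 : Z4 c d u p z 0 = ZX c d (z 0) (z 1) (z 2) (z 3) := by simp [Z4]
      have z2 : Z4 c d u p z 2 = ZU c (z 0) (z 1) (z 3) := by simp [Z4]
      have hA := AA_scale c d υ κ (z 0) (z 3) h0
      rw [← h1, ← h2] at hA
      rw [z0, z2]
      rw [hA] at hx
      linear_combination -hx + ZX c d (z 0) (z 1) (z 2) (z 3) * h2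
        - 2 * z 0 ^ 6 * AA c d 1 υ κ (z 3 / z 0)
          * (z 1 ^ 2 + z 1 * (υ * z 0) + (υ * z 0) ^ 2) * h1
    have hne : -(2 * z 0 ^ 9 * υ ^ 3) ≠ 0 :=
      neg_ne_zero.2 (mul_ne_zero (mul_ne_zero two_ne_zero (pow_ne_zero _ h0)) (pow_ne_zero _ hυ0))
    constructor
    · intro h
      rw [h, mul_zero] at e
      exact (mul_eq_zero.1 e.symm).resolve_left hne
    · intro h
      rw [h, mul_zero] at e
      exact (mul_eq_zero.1 e).resolve_left h0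
  obtain ⟨t, ht⟩ : ∃ t, AA c d 1 υ κ t = 0 := by
    by_cases hP : P0 c d 1 κ = 0
    · exact ⟨0, by simp [AA, hP]⟩
    · obtain ⟨s, hs⟩ := root_quad (c0 := -(υ * P0 c d 1 κ * κ ^ 3))
        (c1 := -(2 * Q0 1 υ κ * κ ^ 3)) (pow_ne_zero 2 hP)
      exact ⟨s, by simp only [AA]; linear_combination hs⟩
  let w : ℂ → E 4 := fun t => !₂[1, υ, κ, t]
  have hw0 : w t ≠ 0 := by
    intro h
    have := congrArg (fun v : E 4 => v 0) h
    simp [w] at this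
  have hN0 : ((‖w t‖⁻¹ : ℝ) : ℂ) ≠ 0 := by simpa using hw0
  set N : ℂ := ((‖w t‖⁻¹ : ℝ) : ℂ) with hNd
  have p0 : (N • w t) 0 = N := by simp [w]
  have p1 : (N • w t) 1 = N * υ := by simp [w]
  have p2 : (N • w t) 2 = N * κ := by simp [w]
  have p3 : (N • w t) 3 = N * t := by simp [w]
  have hp : prL κ υ (N • w t) = N • w t :=
    prL_fix.2 ⟨by rw [p1, p0, mul_comm], by rw [p2, p0, mul_comm]⟩
  have hfin : {t : ℂ | AA c d 1 υ κ t = 0}.Finite :=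
    ruling_roots hN hfc fun h => one_ne_zero h.1
  obtain ⟨C, hC⟩ := dist_le hκ hυ hκ0 hυ0 (p := N • w t) (by rw [p0]; exact hN0) hp
  classical
  refine D.canard rfl hY (prL κ υ) (fun z => prL_fix.2 ⟨by rw [prL_1, prL_0], by rw [prL_2, prL_0]⟩)
    l l1 l3 (fun z => by rw [hl, prL_2, prL_0, sub_self]) ?_ ?_ ?_ ?_ (N • w t) ?_ hp ?_ ?_
    (insert (EuclideanSpace.single 3 1) (hfin.toFinset.image w)) ?_ (C := C) ?_
  · change l (q4 a) ≠ 0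
    rw [hl]
    have : q4 a 2 - κ * q4 a 0 = 1 - κ ^ 4 := by
      simp [q4, ← hκ]; ring
    rw [this]
    exact hκ4
  · change l1 (q4 a) = 0
    simp [l1_apply, q4]
  · change l3 (q4 a) = 0
    simp [l3_apply, q4]
  · intro z hz h1 h3
    obtain ⟨e1, e2⟩ := prL_fix.1 hz
    rw [l1_apply] at h1
    rw [l3_apply] at h3
    have h0 : z 0 = 0 := by
      rw [h1] at e1
      exact (mul_eq_zero.1 e1.symm).resolve_left hυ0
    refine E4_ext ?_ ?_ ?_ ?_ <;> simp [h0, h1, e2, h3]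
  · rw [norm_smul, hNd, Complex.norm_real, norm_inv, norm_norm,
      inv_mul_cancel₀ (norm_ne_zero_iff.2 hw0)]
  · intro k hk
    have hf : f4 (N • w t) = 0 := by
      simp only [f4, fF, p0, p1, p2]
      linear_combination N ^ 4 * hυ
    have := sing_SS (c := c) (d := d) (u := u) (p := p) hf
      (by rw [p2]; exact mul_ne_zero hN0 hκ0) hk
    refine hA.hS _ this ?_
    rw [p0, p2, ← hκ]
    field_simp
  · refine (hlZ _ hp (by rw [p0]; exact hN0)).2 ?_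
    rw [p3, p0, mul_div_cancel_left₀ _ hN0]
    exact ht
  · intro z hz hr
    obtain ⟨e1, e2⟩ := prL_fix.1 hz
    by_cases h0 : z 0 = 0
    · refine ⟨_, Finset.mem_insert_self _ _, z 3, E4_ext ?_ ?_ ?_ ?_⟩ <;> simp [h0, e1, e2]
    · have := (hlZ z hz h0).1 hr
      refine ⟨w (z 3 / z 0), Finset.mem_insert_of_mem (Finset.mem_image_of_mem _
        (hfin.mem_toFinset.2 this)), z 0, E4_ext ?_ ?_ ?_ ?_⟩
      · simp [w]
      · simp [w, e1, mul_comm]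
      · simp [w, e2, mul_comm]
      · simp only [w]
        simp
        field_simp
  · filter_upwards [hC] with z hz
    change _ ≤ C * (‖f4 z‖ + ‖fderiv ℂ f4 z (q4 a)‖)
    rw [W_eq]
    exact hz

theorem degen_false {c d u p a : ℂ} (hN : Nice c d u) (hI : NoInv c d u) (hA : Adm c d u a)
    (hp : p * (1 - a ^ 4) = -2 * a ^ 3 * (c ^ 2 + 2 * a ^ 2 * c * d + d ^ 2))
    (D : Degen (su c d u p a hA.h1)) : False := by
  have hY : ∀ᵐ ξ ∂(D.m0 : Measure (Xi 4)), f4 ξ.z = 0 ∧ fderiv ℂ f4 ξ.z (q4 a) = 0 := by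
    filter_upwards [step_f hN hI hA hp D, step_hY hN hI hA D] with ξ h1 h2
    exact ⟨h1, h2 h1⟩
  have hall : ∀ᵐ ξ ∂(D.m0 : Measure (Xi 4)), ∀ κ ∈ {κ : ℂ | κ ^ 3 = a},
      ∀ υ ∈ {υ : ℂ | υ ^ 4 = 1 - κ ^ 4}, prL κ υ ξ.z ≠ ξ.z := by
    rw [ae_ball_iff (finite_pow_eq (by norm_num) a).countable]
    intro κ hκ
    rw [ae_ball_iff (finite_pow_eq (by norm_num) _).countable]
    intro υ hυ
    exact step_canard hN hA D hY hκ hυ
  have hF : ∀ᵐ ξ ∂(D.m0 : Measure (Xi 4)), False := by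
    filter_upwards [hY, hall, point_ae D.closed0 (EuclideanSpace.single 3 1)] with ξ h1 h2 h3
    obtain ⟨hf, hW⟩ := h1
    rw [W_eq] at hW
    simp only [f4, fF] at hf
    by_cases h0 : ξ.z 0 = 0
    · have e2 : ξ.z 2 = 0 := by simpa [h0] using hW
      have e1 : ξ.z 1 = 0 := by simpa [h0, e2] using hf
      refine h3 (ξ.z 3) (E4_ext ?_ ?_ ?_ ?_) <;> simp [h0, e1, e2]
    · refine h2 (ξ.z 2 / ξ.z 0) ?_ (ξ.z 1 / ξ.z 0) ?_ (prL_fix.2 ⟨?_, ?_⟩)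
      · change (ξ.z 2 / ξ.z 0) ^ 3 = a
        field_simp
        linear_combination (1 / 4) * hW
      · change (ξ.z 1 / ξ.z 0) ^ 4 = 1 - (ξ.z 2 / ξ.z 0) ^ 4
        field_simp
        linear_combination hf
      · field_simp
      · field_simp
  exact hF.exists.elim fun _ h => h

end Geo

theorem noMeas4 {c d u : ℂ} (hN : Nice c d u) (hI : NoInv c d u) :
    ∃ a : ℂ, a ^ 4 ≠ 1 ∧ ∃ ε : ℝ, 0 < ε ∧ NoMeas fun z => f4 z ^ 2 • q4 a + (ε : ℂ) •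
      Z4 c d u (-2 * a ^ 3 * (c ^ 2 + 2 * a ^ 2 * c * d + d ^ 2) / (1 - a ^ 4)) z := by
  obtain ⟨a, hA⟩ := Geo.exists_adm hN
  obtain ⟨ε, hε, h⟩ := (Geo.su c d u _ a hA.h1).exists_eps
    (Geo.degen_false hN hI hA (div_mul_cancel₀ _ (sub_ne_zero.2 hA.h1.symm)))
  exact ⟨a, hA.h1, ε, hε, h⟩

end A590
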