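import Pool.Agent.Lib.A590Iface

/-! Block H, part 1: homogeneous polynomials. -/

open scoped ContDiff Topology
open MvPolynomial

noncomputable section

namespace A590

variable {n : ℕ}

theorem poly_isHomogeneous {d : ℕ} (c : Coeff n d) (i : Fin n) : (poly c i).IsHomogeneous d := by
  refine IsHomogeneous.sum _ _ _ fun m _ => isHomogeneous_monomial _ ?_
  rw [Finsupp.degree_eq_sum]
  exact (Finset.mem_finsuppAntidiag.1 m.2).1

namespace H

/-- The substitution `X_i ↦ T X_i`. -/
def gr : MvPolynomial (Fin n) ℂ →ₐ[ℂ] Polynomial (MvPolynomial (Fin n) ℂ) :=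
  aeval fun i => Polynomial.C (X i) * Polynomial.X

theorem gr_hom {F : MvPolynomial (Fin n) ℂ} {d : ℕ} (hF : F.IsHomogeneous d) :
    gr F = Polynomial.monomial d F := by
  conv_lhs => rw [F.as_sum]
  conv_rhs => rw [F.as_sum]
  rw [map_sum, map_sum]
  refine Finset.sum_congr rfl fun m hm => ?_
  have hd : ∑ i, m i = d := by
    rw [← Finsupp.degree_eq_sum]
    by_contra h
    exact mem_support_iff.1 hm (hF.coeff_eq_zero h)
  rw [gr, aeval_monomial, monomial_eq, Finsupp.prod_fintype _ _ (by simp),
    Finsupp.prod_fintype _ _ (by simp), ← Polynomial.C_mul_X_pow_eq_monomial, ← hd]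
  simp only [mul_pow, Finset.prod_mul_distrib, Finset.prod_pow_eq_pow_sum, map_mul, map_prod,
    map_pow, mul_assoc]
  rfl

theorem coeff_gr (F : MvPolynomial (Fin n) ℂ) (r : ℕ) :
    (gr F).coeff r = homogeneousComponent r F := by
  conv_lhs => rw [← sum_homogeneousComponent F]
  simp only [map_sum, gr_hom (homogeneousComponent_isHomogeneous _ _), Polynomial.finsetSum_coeff,
    Polynomial.coeff_monomial, Finset.sum_ite_eq', Finset.mem_range]
  split_ifs with h
  · rfl
  · exact (homogeneousComponent_eq_zero _ _ (by omega)).symm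

theorem hom_of_comp {F : MvPolynomial (Fin n) ℂ} {d : ℕ}
    (h : ∀ r, r ≠ d → homogeneousComponent r F = 0) : F.IsHomogeneous d := by
  rw [← sum_homogeneousComponent F]
  refine IsHomogeneous.sum _ _ _ fun r _ => ?_
  by_cases e : r = d
  · exact e ▸ homogeneousComponent_isHomogeneous _ _
  · rw [h r e]; exact isHomogeneous_zero _ _ _

theorem eval_gr (F : MvPolynomial (Fin n) ℂ) (z : Fin n → ℂ) (s : ℂ) :
    ((gr F).map (eval z)).eval s = eval (fun j => s * z j) F := by
  induction F using MvPolynomial.induction_on with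
  | C a => simp [gr]
  | add p q hp hq => simp [hp, hq]
  | mul_X p i hp =>
    simp only [map_mul, Polynomial.map_mul, Polynomial.eval_mul, hp]
    simp only [gr, aeval_X, Polynomial.map_mul, Polynomial.map_C, Polynomial.map_X,
      Polynomial.eval_mul, Polynomial.eval_C, Polynomial.eval_X, eval_X]
    ring

theorem eval_smul {F : MvPolynomial (Fin n) ℂ} {d : ℕ} (hF : F.IsHomogeneous d) (z : Fin n → ℂ)
    (s : ℂ) : eval (fun j => s * z j) F = s ^ d * eval z F := by
  rw [← eval_gr, gr_hom hF]; simp [mul_comm]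

theorem hom_of_smul {F : MvPolynomial (Fin n) ℂ} {d : ℕ}
    (h : ∀ (z : Fin n → ℂ) (s : ℂ), eval (fun j => s * z j) F = s ^ d * eval z F) :
    F.IsHomogeneous d := by
  refine hom_of_comp fun r hr => MvPolynomial.funext fun z => ?_
  have : (gr F).map (eval z) = Polynomial.monomial d (eval z F) :=
    Polynomial.funext fun s => by rw [eval_gr, h]; simp [mul_comm]
  have := congrArg (Polynomial.coeff · r) this
  simpa [coeff_gr, Polynomial.coeff_monomial, hr.symm] using this

theorem contDiff_eval (F : MvPolynomial (Fin n) ℂ) :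
    ContDiff ℂ ∞ fun z : E n => eval (fun j => z j) F := by
  induction F using MvPolynomial.induction_on with
  | C a => simpa using contDiff_const
  | add p q hp hq => simpa using hp.add hq
  | mul_X p i hp => simpa using hp.mul (by fun_prop)

end H

theorem homMap_field {d : ℕ} (c : Coeff n d) : HomMap (field c) d where
  cd := contDiff_euclidean.2 fun i => H.contDiff_eval (poly c i)
  hom s z := by
    ext i
    simpa [field] using H.eval_smul (poly_isHomogeneous c i) (fun j => z j) s

/-- coefficient vector of a homogeneous field -/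
theorem poly_coeff {d : ℕ} (F : Fin n → MvPolynomial (Fin n) ℂ) (hF : ∀ i, (F i).IsHomogeneous d)
    (i : Fin n) : poly (fun i (m : Finset.finsuppAntidiag (Finset.univ : Finset (Fin n)) d) =>
      MvPolynomial.coeff m.1 (F i)) i = F i := by
  rw [poly, Finset.sum_coe_sort _ fun m => monomial m (coeff m (F i))]
  conv_rhs => rw [(F i).as_sum]
  refine (Finset.sum_subset (fun m hm => Finset.mem_finsuppAntidiag.2 ⟨?_, by simp⟩)
    fun m _ hm => by simp [notMem_support_iff.1 hm]).symm
  by_contra h
  exact mem_support_iff.1 hm ((hF i).coeff_eq_zero (by rwa [Finsupp.degree_eq_sum]))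

/-- a divisor of a nonzero homogeneous polynomial is homogeneous -/
theorem isHomogeneous_of_dvd {g F : MvPolynomial (Fin n) ℂ} {d : ℕ} (hF : F.IsHomogeneous d)
    (h0 : F ≠ 0) (h : g ∣ F) : g.IsHomogeneous g.totalDegree := by
  obtain ⟨k, rfl⟩ := h
  have e := H.gr_hom hF
  rw [map_mul] at e
  have hne : H.gr g * H.gr k ≠ 0 := by rw [e]; simpa using h0
  have h1 := Polynomial.natDegree_mul (left_ne_zero_of_mul hne) (right_ne_zero_of_mul hne)
  have h2 := Polynomial.natTrailingDegree_mul (left_ne_zero_of_mul hne) (right_ne_zero_of_mul hne)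
  rw [e, Polynomial.natDegree_monomial_eq _ h0] at h1
  rw [e, Polynomial.natTrailingDegree_monomial h0] at h2
  have h3 := Polynomial.natTrailingDegree_le_natDegree (H.gr g)
  have h4 := Polynomial.natTrailingDegree_le_natDegree (H.gr k)
  have hg : g.IsHomogeneous (H.gr g).natDegree := H.hom_of_comp fun r hr => by
    rw [← H.coeff_gr]
    rcases lt_or_gt_of_ne hr with h | h
    · exact Polynomial.coeff_eq_zero_of_lt_natTrailingDegree (by omega)
    · exact Polynomial.coeff_eq_zero_of_natDegree_lt h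
  rwa [hg.totalDegree (left_ne_zero_of_mul h0)]

/-- criterion for `Fol` -/
theorem mem_Fol {d : ℕ} {c : Coeff n d} (h0 : ∃ z, z ≠ 0 ∧ z ∉ Sing (field c))
    (h : ∀ (g : MvPolynomial (Fin n) ℂ) (r : ℕ), 1 ≤ r → g.IsHomogeneous r →
      ∃ z : E n, z ≠ 0 ∧ MvPolynomial.eval (fun j => z j) g = 0 ∧ z ∉ Sing (field c)) :
    c ∈ Fol n d := by
  intro g hg
  obtain ⟨z, hz, hs⟩ := h0
  obtain ⟨i, j, hij⟩ : ∃ i j, z i * field c z j ≠ z j * field c z i := by
    by_contra H
    push Not at H
    exact hs ⟨hz, H⟩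
  have hne : X i * poly c j - X j * poly c i ≠ 0 := fun e => hij (by
    simpa [field, sub_eq_zero] using congrArg (eval fun j => z j) e)
  have hh := isHomogeneous_of_dvd (((isHomogeneous_X ℂ i).mul (poly_isHomogeneous c j)).sub
    ((isHomogeneous_X ℂ j).mul (poly_isHomogeneous c i))) hne (hg i j)
  by_cases hr : g.totalDegree = 0
  · have e := totalDegree_eq_zero_iff_eq_C.1 hr
    have hg0 : g ≠ 0 := ne_zero_of_dvd_ne_zero hne (hg i j)
    rw [e] at hg0 ⊢
    exact (IsUnit.mk0 _ fun e' => hg0 (by rw [e', map_zero])).map C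
  · obtain ⟨w, hw, e, hs⟩ := h g _ (by omega) hh
    refine absurd ⟨hw, fun i j => ?_⟩ hs
    obtain ⟨k, hk⟩ := hg i j
    simpa [field, sub_eq_zero, e] using congrArg (eval fun j => w j) hk

namespace H

/-- Polynomial functions with holomorphic coefficients. -/
def PP (R : ℝ) (f : ℂ → E n → ℂ) : Prop := ∃ F : ℂ → MvPolynomial (Fin n) ℂ,
  (∀ m, DifferentiableOn ℂ (fun t => coeff m (F t)) (Metric.ball 0 R)) ∧
    ∀ t z, f t z = eval (fun j => z j) (F t)

variable {R : ℝ} {f g : ℂ → E n → ℂ}

theorem PP.par {c : ℂ → ℂ} (hc : DifferentiableOn ℂ c (Metric.ball 0 R)) :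
    PP R fun t (_ : E n) => c t := by
  classical
  refine ⟨fun t => C (c t), fun m => ?_, by simp⟩
  simp only [coeff_C]
  split_ifs
  exacts [hc, differentiableOn_const _]

theorem PP.const (a : ℂ) : PP R fun _ (_ : E n) => a := PP.par (differentiableOn_const a)

theorem PP.coord (i : Fin n) : PP R fun _ (z : E n) => z i :=
  ⟨fun _ => X i, fun _ => differentiableOn_const _, by simp⟩

theorem PP.add (hf : PP R f) (hg : PP R g) : PP R fun t z => f t z + g t z :=
  let ⟨F, h, e⟩ := hf
  let ⟨G, h', e'⟩ := hg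
  ⟨fun t => F t + G t, fun m => by simpa using (h m).fun_add (h' m), by simp [e, e']⟩

theorem PP.neg (hf : PP R f) : PP R fun t z => -f t z :=
  let ⟨F, h, e⟩ := hf
  ⟨fun t => -F t, fun m => by simpa using (h m).fun_neg, by simp [e]⟩

theorem PP.sub (hf : PP R f) (hg : PP R g) : PP R fun t z => f t z - g t z := by
  simpa only [sub_eq_add_neg] using hf.add hg.neg

theorem PP.mul (hf : PP R f) (hg : PP R g) : PP R fun t z => f t z * g t z := by
  classical
  obtain ⟨F, h, e⟩ := hf
  obtain ⟨G, h', e'⟩ := hg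
  refine ⟨fun t => F t * G t, fun m => ?_, by simp [e, e']⟩
  simp only [coeff_mul]
  exact DifferentiableOn.fun_sum fun x _ => (h _).fun_mul (h' _)

theorem PP.pow (hf : PP R f) (k : ℕ) : PP R fun t z => f t z ^ k := by
  induction k with
  | zero => simpa using PP.const 1
  | succ k ih => simpa only [pow_succ] using ih.mul hf

theorem exists_coeff {d : ℕ} {V : ℂ → E n → E n} (h : ∀ i, PP R fun t z => V t z i)
    (hs : ∀ t (s : ℂ) z, V t (s • z) = s ^ d • V t z) : ∃ C : ℂ → Coeff n d,
      DifferentiableOn ℂ C (Metric.ball 0 R) ∧ ∀ t z, field (C t) z = V t z := by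
  choose F hF e using h
  simp only at e
  refine ⟨fun t i m => coeff m.1 (F i t), differentiableOn_pi.2 fun i =>
    differentiableOn_pi.2 fun m => hF i m.1, fun t z => ?_⟩
  ext i
  have hh : ∀ i, (F i t).IsHomogeneous d := fun i => hom_of_smul fun w s => by
    have h1 := e i t (s • WithLp.toLp 2 w)
    rw [hs, PiLp.smul_apply, e] at h1
    simpa using h1.symm
  simp only [field]
  rw [poly_coeff (fun i => F i t) hh i, ← e]

end H

theorem exists_coeff4 {R : ℝ} {c d u : ℂ → ℂ} (hc : DifferentiableOn ℂ c (Metric.ball 0 R))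
    (hd : DifferentiableOn ℂ d (Metric.ball 0 R)) (hu : DifferentiableOn ℂ u (Metric.ball 0 R))
    {p : ℂ → ℂ} (hp : DifferentiableOn ℂ p (Metric.ball 0 R)) (a ε : ℂ) :
    ∃ C : ℂ → Coeff 4 8, DifferentiableOn ℂ C (Metric.ball 0 R) ∧
      ∀ t z, field (C t) z = f4 z ^ 2 • q4 a + ε • Z4 (c t) (d t) (u t) (p t) z := by
  refine H.exists_coeff (fun i => ?_) fun t s z => ?_
  · fin_cases i <;>
    · simp only [f4, q4, Z4, fF, ZX, ZY, ZU, ZT, cp, Q0, P0, PiLp.add_apply, PiLp.smul_apply,
        smul_eq_mul, Fin.zero_eta, Fin.mk_one, Fin.reduceFinMk, Matrix.cons_val]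
      repeat' first
        | exact H.PP.par hc | exact H.PP.par hd | exact H.PP.par hu | exact H.PP.par hp
        | exact H.PP.const _ | exact H.PP.coord _
        | with_reducible apply H.PP.add | with_reducible apply H.PP.sub
        | with_reducible apply H.PP.mul | with_reducible apply H.PP.neg
        | with_reducible apply H.PP.pow
  · ext i
    fin_cases i <;>
    · simp only [f4, q4, Z4, fF, ZX, ZY, ZU, ZT, cp, Q0, P0, PiLp.add_apply, PiLp.smul_apply,
        smul_eq_mul, Fin.zero_eta, Fin.mk_one, Fin.reduceFinMk, Matrix.cons_val]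
      ring

end A590
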