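import Pool.Agent.Lib.A590Calc
import Pool.Agent.Lib.A590Poly1

/-! Block I1: induction on the dimension, currents and polynomials. -/

open scoped ComplexConjugate ComplexOrder ContDiff Topology
open Filter

noncomputable section

namespace A590

variable {n : ℕ}

namespace I1

@[simp] theorem cns_zero (w : ℂ) (z : E n) : cns w z 0 = w := rfl
@[simp] theorem cns_succ (w : ℂ) (z : E n) (i : Fin n) : cns w z i.succ = z i := rfl
@[simp] theorem tl_apply (z : E (n + 1)) (i : Fin n) : tl z i = z i.succ := rfl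
@[simp] theorem tl_cns (w : ℂ) (z : E n) : tl (cns w z) = z := rfl

/-- the inclusion of the hyperplane -/
def inc : E n →L[ℂ] E (n + 1) := LinearMap.toContinuousLinearMap
  { toFun := cns 0
    map_add' := fun x y => by ext i; induction i using Fin.cases <;> simp
    map_smul' := fun c x => by ext i; induction i using Fin.cases <;> simp }

/-- the projection to the hyperplane -/
def prj : E (n + 1) →L[ℂ] E n := LinearMap.toContinuousLinearMap
  { toFun := tl
    map_add' := fun _ _ => rfl
    map_smul' := fun _ _ => rfl }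

theorem cns_smul (c : ℂ) (z : E n) : cns 0 (c • z) = c • cns 0 z := inc.map_smul c z
theorem tl_smul (c : ℂ) (z : E (n + 1)) : tl (c • z) = c • tl z := rfl

theorem cns_ne {z : E n} (hz : z ≠ 0) : cns 0 z ≠ 0 := fun e => hz (congrArg tl e)

theorem cd_cns : ContDiff ℝ ∞ fun z : E n => cns 0 z := (inc.restrictScalars ℝ).contDiff
theorem cd_tl : ContDiff ℝ ∞ fun z : E (n + 1) => tl z := (prj.restrictScalars ℝ).contDiff

theorem cd_res {F : Type} [NormedAddCommGroup F] [NormedSpace ℝ F] {g : E (n + 1) → F}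
    (hg : ContDiffOn ℝ ∞ g {0}ᶜ) : ContDiffOn ℝ ∞ (fun z : E n => g (cns 0 z)) {0}ᶜ :=
  hg.comp cd_cns.contDiffOn fun _ hz => cns_ne hz

theorem norm_cns (z : E n) : ‖cns 0 z‖ ^ 2 = ‖z‖ ^ 2 := by
  simp [EuclideanSpace.norm_sq_eq, Fin.sum_univ_succ]

/-- restriction of forms -/
def res : Form11 (n + 1) →ₗ[ℂ] Form11 n where
  toFun φ := ⟨fun z j k => φ.1 (cns 0 z) j.succ k.succ,
    contDiffOn_pi.2 fun j => contDiffOn_pi.2 fun k =>
      cd_res (contDiffOn_pi.1 (contDiffOn_pi.1 φ.2.1 j.succ) k.succ),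
    fun z hz c hc j k => by simp only [cns_smul, φ.2.2.1 _ (cns_ne hz) c hc],
    fun z hz k => by simpa [Fin.sum_univ_succ] using φ.2.2.2.1 _ (cns_ne hz) k.succ,
    fun z hz j => by simpa [Fin.sum_univ_succ] using φ.2.2.2.2 _ (cns_ne hz) j.succ⟩
  map_add' _ _ := rfl
  map_smul' _ _ := rfl

theorem res_surj (φ : Form11 n) : ∃ ψ, ∀ z, z ≠ 0 → (res ψ).1 z = φ.1 z := by
  let χ : E (n + 1) → ℝ := fun z => st (2 * ‖tl z‖ ^ 2 / ‖z‖ ^ 2)
  have hχ : ∀ z, z ≠ 0 → ContDiffAt ℝ ∞ (fun z : E (n + 1) => 2 * ‖tl z‖ ^ 2 / ‖z‖ ^ 2) z :=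
    fun z hz => (contDiffAt_const.mul (cd_tl.norm_sq ℝ).contDiffAt).div
      (contDiff_norm_sq ℝ).contDiffAt (pow_ne_zero _ (norm_ne_zero_iff.2 hz))
  have h0 : ∀ z, tl z = 0 → χ z = 0 := fun z hz => st_zero (by simp [hz])
  have hs : ∀ z (c : ℂ), c ≠ 0 → χ (c • z) = χ z := fun z c hc => by
    simp only [χ, tl_smul, norm_smul, mul_pow]
    rw [mul_left_comm, mul_div_mul_left _ _ (pow_ne_zero _ (norm_ne_zero_iff.2 hc))]
  refine ⟨⟨fun z => Fin.cons (fun _ => 0) fun j => Fin.cons 0 fun k => χ z * φ.1 (tl z) j k,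
    contDiffOn_pi.2 fun j => contDiffOn_pi.2 fun k => ?_, fun z hz c hc j k => ?_,
    fun z hz k => ?_, fun z hz j => ?_⟩, fun z hz => ?_⟩
  · induction j using Fin.cases with
    | zero => exact contDiffOn_const
    | succ j =>
      induction k using Fin.cases with
      | zero => exact contDiffOn_const
      | succ k =>
        intro z hz
        refine ContDiffAt.contDiffWithinAt ?_
        simp only [Fin.cons_succ]
        by_cases e : tl z = 0
        · refine (contDiffAt_const (c := 0)).congr_of_eventuallyEq ?_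
          filter_upwards [(hχ z hz).continuousAt.eventually_lt continuousAt_const
            (show _ < (1 : ℝ) by simp [e])] with w hw
          simp [χ, st_zero hw.le]
        · exact (Complex.ofRealCLM.contDiff.contDiffAt.comp z
            (st_contDiff.contDiffAt.comp z (hχ z hz))).mul
            (((contDiffOn_pi.1 (contDiffOn_pi.1 φ.2.1 j) k).contDiffAt
              (isOpen_compl_singleton.mem_nhds e)).comp z cd_tl.contDiffAt)
  · induction j using Fin.cases with
    | zero => simp
    | succ j =>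
      induction k using Fin.cases with
      | zero => simp
      | succ k =>
        simp only [Fin.cons_succ]
        rw [hs z c hc]
        by_cases e : tl z = 0
        · simp [h0 z e]
        · rw [tl_smul, φ.2.2.1 _ e c hc, mul_left_comm]
  · induction k using Fin.cases with
    | zero => simp [Fin.sum_univ_succ]
    | succ k =>
      simp only [Fin.sum_univ_succ, Fin.cons_succ, Fin.cons_zero, zero_mul, zero_add, mul_assoc,
        ← Finset.mul_sum]
      by_cases e : tl z = 0
      · simp [h0 z e]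
      · exact mul_eq_zero_of_right _ (φ.2.2.2.1 _ e k)
  · induction j using Fin.cases with
    | zero => simp
    | succ j =>
      simp only [Fin.sum_univ_succ, Fin.cons_succ, Fin.cons_zero, zero_mul, zero_add, mul_assoc,
        ← Finset.mul_sum]
      by_cases e : tl z = 0
      · simp [h0 z e]
      · exact mul_eq_zero_of_right _ (φ.2.2.2.2 _ e j)
  · funext j k
    have : χ (cns 0 z) = 1 := st_one (by
      rw [norm_cns, tl_cns, mul_div_assoc, div_self (pow_ne_zero _ (norm_ne_zero_iff.2 hz)), mul_one])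
    change χ (cns 0 z) * φ.1 z j k = _
    rw [this, Complex.ofReal_one, one_mul]

theorem cns_single (j : Fin n) :
    cns 0 (EuclideanSpace.single j (1 : ℂ)) = EuclideanSpace.single j.succ 1 := by
  ext i
  induction i using Fin.cases <;> simp [(Fin.succ_ne_zero _).symm]

theorem pd_res {g : E (n + 1) → ℂ} (hg : ContDiffOn ℝ ∞ g {0}ᶜ) {z : E n} (hz : z ≠ 0)
    (j : Fin n) : pd j (fun w => g (cns 0 w)) z = pd j.succ g (cns 0 z) ∧
      pdb j (fun w => g (cns 0 w)) z = pdb j.succ g (cns 0 z) := by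
  have h1 : DifferentiableAt ℝ g (inc z) :=
    (hg.contDiffAt (isOpen_compl_singleton.mem_nhds (cns_ne hz))).differentiableAt (by simp)
  have h2 := dz_comp_holo h1 inc.differentiableAt (EuclideanSpace.single j 1)
  have h3 := dzb_comp_holo h1 inc.differentiableAt (EuclideanSpace.single j 1)
  rw [inc.fderiv] at h2 h3
  rw [pd, pd, pdb, pdb, ← cns_single]
  exact ⟨h2, h3⟩

theorem PP_sum {R : ℝ} {ι : Type} (s : Finset ι) {f : ι → ℂ → E n → ℂ} (h : ∀ i, H.PP R (f i)) :
    H.PP R fun t z => ∑ i ∈ s, f i t z := by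
  classical
  induction s using Finset.induction_on with
  | empty => simpa using H.PP.const 0
  | insert i s hi ih => simpa only [Finset.sum_insert hi] using (h i).add ih

theorem PP_prod {R : ℝ} {ι : Type} (s : Finset ι) {f : ι → ℂ → E n → ℂ} (h : ∀ i, H.PP R (f i)) :
    H.PP R fun t z => ∏ i ∈ s, f i t z := by
  classical
  induction s using Finset.induction_on with
  | empty => simpa using H.PP.const 1
  | insert i s hi ih => simpa only [Finset.prod_insert hi] using (h i).mul ih

end I1

open I1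

theorem current_succ {V : E n → E n} {V' : E (n + 1) → E (n + 1)} {ε : ℂ} (hε : ε ≠ 0)
    (hV : ∀ z : E n, V' (cns 0 z) = ε • cns 0 (V z))
    (h : ∃ T : Current n, T ≠ 0 ∧ Positive T ∧ Closed T ∧ StronglyDirected V T) :
    ∃ T : Current (n + 1), T ≠ 0 ∧ Positive T ∧ Closed T ∧ StronglyDirected V' T := by
  obtain ⟨T, h0, h1, h2, h3⟩ := h
  refine ⟨T.comp res, fun e => h0 (LinearMap.ext fun φ => ?_), fun φ hφ => h1 _ fun z hz v => ?_,
    fun α β hα hβ φ hφ => h2 (fun z j => α (cns 0 z) j.succ) (fun z k => β (cns 0 z) k.succ)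
      ⟨contDiffOn_pi.2 fun j => cd_res (contDiffOn_pi.1 hα.1 j.succ),
        fun z hz c hc j => ?_, fun z hz => ?_⟩
      ⟨contDiffOn_pi.2 fun j => cd_res (contDiffOn_pi.1 hβ.1 j.succ),
        fun z hz c hc j => ?_, fun z hz => ?_⟩ _ fun z hz j k => ?_,
    fun φ hφ => h3 _ fun z hz k => ?_⟩
  · obtain ⟨ψ, hψ⟩ := res_surj φ
    have e1 : T (res ψ) = 0 := LinearMap.congr_fun e ψ
    have e2 : T (φ - res ψ) = 0 := h3 _ fun z hz k => by simp [hψ z hz]
    rwa [map_sub, e1, sub_zero] at e2
  · simpa [Fin.sum_univ_succ, res] using hφ _ (cns_ne hz) (cns 0 v)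
  · simp only [cns_smul, hα.2.1 _ (cns_ne hz) c hc]
  · simpa [Fin.sum_univ_succ] using hα.2.2 _ (cns_ne hz)
  · simp only [cns_smul, hβ.2.1 _ (cns_ne hz) c hc]
  · simpa [Fin.sum_univ_succ] using hβ.2.2 _ (cns_ne hz)
  · rw [(pd_res (contDiffOn_pi.1 hβ.1 k.succ) hz j).1, (pd_res (contDiffOn_pi.1 hα.1 j.succ) hz k).2]
    exact hφ _ (cns_ne hz) _ _
  · have := hφ _ (cns_ne hz) k.succ
    simp only [hV, Fin.sum_univ_succ, PiLp.smul_apply, cns_zero, cns_succ, smul_eq_mul, mul_zero,
      zero_add, mul_left_comm _ ε, ← Finset.mul_sum] at this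
    exact (mul_eq_zero.1 this).resolve_left hε

theorem coeff_succ {R : ℝ} {c : ℂ → Coeff n 8} (hc : DifferentiableOn ℂ c (Metric.ball 0 R))
    (M : E n →L[ℂ] E n) (ε : ℂ) : ∃ C : ℂ → Coeff (n + 1) 8,
      DifferentiableOn ℂ C (Metric.ball 0 R) ∧ ∀ t, field (C t) = liftV (field (c t)) M ε := by
  refine (H.exists_coeff (R := R) (d := 8) (V := fun t => liftV (field (c t)) M ε)
    (fun i => ?_) fun t s z => ?_).imp fun C h => ⟨h.1, fun t => funext (h.2 t)⟩
  · simp only [liftV, PiLp.add_apply, PiLp.smul_apply, smul_eq_mul]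
    refine (((H.PP.coord 0).pow 8).mul (H.PP.const _)).add ((H.PP.const ε).mul ?_)
    induction i using Fin.cases with
    | zero => exact H.PP.const 0
    | succ i =>
      have e : ∀ z : E (n + 1), M (tl z) i = ∑ j, z j.succ * M (EuclideanSpace.single j 1) i :=
        fun z => by
          conv_lhs => rw [eq_sum_single (tl z)]
          simp
      simp only [cns_succ, PiLp.add_apply, PiLp.smul_apply, smul_eq_mul, e, field, poly, map_sum,
        MvPolynomial.eval_monomial, Finsupp.prod, tl_apply]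
      exact (PP_sum _ fun m => (H.PP.par (differentiableOn_pi.1 (differentiableOn_pi.1 hc i) m)).mul
        (PP_prod _ fun j => (H.PP.coord _).pow _)).add (((H.PP.coord 0).pow 7).mul
        (PP_sum _ fun j => (H.PP.coord _).mul (H.PP.const _)))
  · simp only [liftV, tl_smul, (homMap_field _).hom, map_smul, PiLp.smul_apply, smul_eq_mul]
    rw [smul_add (s ^ 8), smul_comm (s ^ 8) ε, ← cns_smul (s ^ 8), smul_add, smul_smul, smul_smul,
      smul_smul, mul_pow]
    congr 5
    ring

theorem exists_not_sing {d : ℕ} {c : Coeff n d} (hc : c ∈ Fol n d) :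
    ∃ z, z ≠ 0 ∧ z ∉ Sing (field c) := by
  by_contra H
  push Not at H
  refine not_isUnit_zero (hc 0 fun i j => zero_dvd_iff.2 (MvPolynomial.funext fun x => ?_))
  by_cases e : x = 0
  · simp [e]
  · simpa [field, sub_eq_zero] using (H (WithLp.toLp 2 x) (by simpa using e)).2 i j

open MvPolynomial in
theorem fol_succ {c : Coeff n 8} (hc : c ∈ Fol n 8) {C : Coeff (n + 1) 8} {ε : ℂ} (hε : ε ≠ 0)
    (hV : ∀ z : E n, field C (cns 0 z) = ε • cns 0 (field c z)) : C ∈ Fol (n + 1) 8 := by
  intro g hg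
  let ρ : MvPolynomial (Fin (n + 1)) ℂ →ₐ[ℂ] MvPolynomial (Fin n) ℂ := aeval (Fin.cons 0 X)
  have hρ : ∀ x p, eval x (ρ p) = eval (Fin.cons 0 x) p := fun x p => by
    induction p using MvPolynomial.induction_on with
    | C a => simp [ρ]
    | add p q hp hq => simp [hp, hq]
    | mul_X p i hp => rw [map_mul, map_mul, map_mul, hp]; induction i using Fin.cases <;> simp [ρ]
  have h1 : ∀ i j : Fin n, ρ (X i.succ * poly C j.succ - X j.succ * poly C i.succ) =
      MvPolynomial.C ε * (X i * poly c j - X j * poly c i) := fun i j =>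
    MvPolynomial.funext fun x => by
      have e : ∀ i : Fin n, eval (Fin.cons 0 x) (poly C i.succ) = ε * eval x (poly c i) := fun i =>
        congrArg (fun z : E (n + 1) => z i.succ) (hV (WithLp.toLp 2 x))
      rw [hρ]
      simp only [map_sub, map_mul, eval_X, eval_C, Fin.cons_succ, e]
      ring
  have hu : IsUnit (MvPolynomial.C ε : MvPolynomial (Fin n) ℂ) := (IsUnit.mk0 ε hε).map _
  have h2 : IsUnit (ρ g) := hc _ fun i j => (hu.dvd_mul_left).1 (h1 i j ▸ map_dvd ρ (hg _ _))
  obtain ⟨i, j, hij⟩ : ∃ i j, X i * poly C j - X j * poly C i ≠ 0 := by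
    by_contra H
    push Not at H
    refine not_isUnit_zero (hc 0 fun i j => zero_dvd_iff.2 ?_)
    rw [← hu.mul_right_eq_zero, ← h1, H, map_zero]
  have hh := isHomogeneous_of_dvd (((isHomogeneous_X ℂ i).mul (poly_isHomogeneous C j)).sub
    ((isHomogeneous_X ℂ j).mul (poly_isHomogeneous C i))) hij (hg i j)
  by_cases hr : g.totalDegree = 0
  · have e := totalDegree_eq_zero_iff_eq_C.1 hr
    have hg0 : g ≠ 0 := ne_zero_of_dvd_ne_zero hij (hg i j)
    rw [e] at hg0 ⊢
    exact (IsUnit.mk0 _ fun e' => hg0 (by rw [e', map_zero])).map MvPolynomial.C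
  · have e := H.eval_smul hh (fun _ => 0) 0
    rw [zero_pow hr, zero_mul (eval _ g)] at e
    refine absurd ?_ (h2.map (eval 0)).ne_zero
    rw [hρ, show (Fin.cons 0 0 : Fin (n + 1) → ℂ) = fun _ => 0 * 0 from
      funext fun i => by induction i using Fin.cases <;> simp, e]

end A590
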