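import Pool.Agent.Lib.A590Ind2a
import Pool.Agent.Lib.A590Core
import Pool.Agent.Lib.A590Limit
import Pool.Agent.Lib.A590Off

/-!
Induction on the dimension (measures), part 2.
-/

open scoped ComplexConjugate ComplexOrder ContDiff Topology InnerProductSpace
open MeasureTheory Filter

noncomputable section

namespace A590

namespace I2

variable {n k : ℕ}

theorem var_pos {p l : Fin k → ℝ} (hp : ∀ i, 0 ≤ p i) {i j : Fin k} (hl : l i ≠ l j)
    (hi : 0 < p i) (hj : 0 < p j) :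
    0 < (∑ i, l i ^ 2 * p i) * (∑ i, p i) - (∑ i, l i * p i) ^ 2 := by
  have e : 2 * ((∑ i, l i ^ 2 * p i) * (∑ i, p i) - (∑ i, l i * p i) ^ 2) =
      ∑ i, ∑ j, (l i - l j) ^ 2 * (p i * p j) := by
    have e1 : (∑ i, l i ^ 2 * p i) * (∑ i, p i) = ∑ i, ∑ j, l i ^ 2 * p i * p j :=
      Finset.sum_mul_sum _ _ _ _
    have e2 : (∑ i, l i ^ 2 * p i) * (∑ i, p i) = ∑ i, ∑ j, p i * (l j ^ 2 * p j) := by
      rw [mul_comm]; exact Finset.sum_mul_sum _ _ _ _
    have e3 : (∑ i, l i * p i) ^ 2 = ∑ i, ∑ j, l i * p i * (l j * p j) := by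
      rw [sq]; exact Finset.sum_mul_sum _ _ _ _
    have e4 : ∑ i, ∑ j, (l i - l j) ^ 2 * (p i * p j) = ∑ i, ∑ j, l i ^ 2 * p i * p j +
        ∑ i, ∑ j, p i * (l j ^ 2 * p j) - 2 * ∑ i, ∑ j, l i * p i * (l j * p j) := by
      simp only [Finset.mul_sum, ← Finset.sum_add_distrib, ← Finset.sum_sub_distrib]
      exact Finset.sum_congr rfl fun i _ => Finset.sum_congr rfl fun j _ => by ring
    rw [e4, ← e1, ← e2, ← e3]; ring
  have h : 0 < ∑ i, ∑ j, (l i - l j) ^ 2 * (p i * p j) := by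
    have nn : ∀ i j, 0 ≤ (l i - l j) ^ 2 * (p i * p j) := fun i j =>
      mul_nonneg (sq_nonneg _) (mul_nonneg (hp i) (hp j))
    refine Finset.sum_pos' (fun i _ => Finset.sum_nonneg fun j _ => nn i j)
      ⟨i, Finset.mem_univ _, Finset.sum_pos' (fun j _ => nn i j) ⟨j, Finset.mem_univ _, ?_⟩⟩
    have := sub_ne_zero.2 hl
    positivity
  linarith

variable (b : Module.Basis (Fin k) ℂ (E n))

/-- weighted coordinates of the tail -/
def PP (μ : Fin k → ℝ) : E (n + 1) →L[ℂ] EuclideanSpace ℂ (Fin k) :=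
  LinearMap.toContinuousLinearMap
  { toFun := fun z => WithLp.toLp 2 fun i => (μ i : ℂ) * b.repr (tl z) i
    map_add' := fun x y => by ext i; simp [tl_add, mul_add]
    map_smul' := fun c x => by ext i; simp [tl_smul, mul_left_comm] }

theorem PP_apply (μ : Fin k → ℝ) (z : E (n + 1)) (i : Fin k) :
    PP b μ z i = (μ i : ℂ) * b.repr (tl z) i := rfl

/-- the diagonal linear field -/
def MM : E n →L[ℂ] E n :=
  LinearMap.toContinuousLinearMap (b.constr ℂ fun i => (-Complex.I * ((i : ℝ) ^ 2 : ℝ)) • b i)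

theorem repr_MM (x : E n) (i : Fin k) :
    b.repr (MM b x) i = -Complex.I * ((i : ℝ) ^ 2 : ℝ) * b.repr x i := by
  simp only [MM, LinearMap.coe_toContinuousLinearMap', Module.Basis.constr_apply_fintype,
    map_sum, map_smul, Module.Basis.repr_self, Module.Basis.equivFun_apply, Finsupp.coe_finsetSum,
    Finset.sum_apply, Finsupp.smul_apply, Finsupp.single_apply, smul_eq_mul, mul_ite, mul_one,
    mul_zero, Finset.sum_ite_eq', Finset.mem_univ, if_true]
  ring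

def aa (z : E (n + 1)) : ℝ := ‖PP b (fun i => i) z‖ ^ 2 * (‖PP b (fun _ => 1) z‖ ^ 2)⁻¹

theorem PP_ne {z : E (n + 1)} (hz : tl z ≠ 0) : PP b (fun _ => 1) z ≠ 0 := by
  intro h
  apply hz
  apply b.repr.injective
  ext i
  have := congrArg (fun x : EuclideanSpace ℂ (Fin k) => x i) h
  simpa [PP_apply] using this

theorem aa_cd {z : E (n + 1)} (hz : tl z ≠ 0) : ContDiffAt ℝ ∞ (aa b) z :=
  (((PP b _).restrictScalars ℝ).contDiff.contDiffAt.norm_sq ℂ).mul
    ((((PP b _).restrictScalars ℝ).contDiff.contDiffAt.norm_sq ℂ).inv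
      (by simpa using PP_ne b hz))

theorem aa_smul (z : E (n + 1)) {c : ℂ} (hc : c ≠ 0) : aa b (c • z) = aa b z := by
  have : ‖c‖ ^ 2 ≠ 0 := by simpa using hc
  unfold aa
  rw [map_smul, map_smul, norm_smul, norm_smul, mul_pow, mul_pow, ← div_eq_mul_inv,
    ← div_eq_mul_inv, mul_div_mul_left _ _ this]

theorem norm_PP (μ : Fin k → ℝ) (z : E (n + 1)) :
    ‖PP b μ z‖ ^ 2 = ∑ i, μ i ^ 2 * ‖b.repr (tl z) i‖ ^ 2 := by
  rw [EuclideanSpace.norm_sq_eq]
  refine Finset.sum_congr rfl fun i _ => ?_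
  rw [PP_apply, norm_mul, mul_pow, Complex.norm_real, Real.norm_eq_abs, sq_abs]

theorem inner_PP (μ : Fin k → ℝ) {z u : E (n + 1)} {c e : ℂ}
    (h : tl u = c • tl z + e • MM b (tl z)) :
    ⟪PP b μ z, PP b μ u⟫_ℂ = c * (∑ i, μ i ^ 2 * ‖b.repr (tl z) i‖ ^ 2 : ℝ) -
      Complex.I * e * (∑ i : Fin k, ((i : ℕ) : ℝ) ^ 2 * (μ i ^ 2 * ‖b.repr (tl z) i‖ ^ 2) : ℝ) := by
  rw [PiLp.inner_apply, Complex.ofReal_sum, Complex.ofReal_sum, Finset.mul_sum, Finset.mul_sum,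
    ← Finset.sum_sub_distrib]
  refine Finset.sum_congr rfl fun i _ => ?_
  have e1 := Complex.mul_conj' (b.repr (tl z) i)
  rw [PP_apply, PP_apply, h, map_add, map_smul, map_smul, Finsupp.add_apply, Finsupp.smul_apply,
    Finsupp.smul_apply, repr_MM, RCLike.inner_apply, map_mul, Complex.conj_ofReal]
  simp only [smul_eq_mul]
  push_cast
  linear_combination ((μ i : ℂ) ^ 2 * (c - Complex.I * e * (i : ℂ) ^ 2)) * e1

theorem rz_aa {z : E (n + 1)} (hz : tl z ≠ 0) (u : E (n + 1)) :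
    rz (aa b) z u = ⟪PP b (fun i => i) z, PP b (fun i => i) u⟫_ℂ *
        ((‖PP b (fun _ => 1) z‖ ^ 2)⁻¹ : ℝ) + (‖PP b (fun i => i) z‖ ^ 2 : ℝ) *
      (-⟪PP b (fun _ => 1) z, PP b (fun _ => 1) u⟫_ℂ / ((‖PP b (fun _ => 1) z‖ ^ 2 : ℝ) : ℂ) ^ 2) := by
  have h0 : ‖PP b (fun _ => 1) z‖ ^ 2 ≠ 0 := by simpa using PP_ne b hz
  have d0 := differentiableAt_normSq (PP b (fun _ => 1)).differentiableAt (z := z)
  have d1 := differentiableAt_normSq (PP b (fun i => i)).differentiableAt (z := z)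
  unfold aa
  rw [rz_mul d1 (d0.fun_inv h0), rz_inv d0 h0, rz_normSq (PP b _).differentiableAt,
    rz_normSq (PP b _).differentiableAt, ContinuousLinearMap.fderiv, ContinuousLinearMap.fderiv]

theorem rz_aa_pos {z u : E (n + 1)} {c e : ℂ} (h : tl u = c • tl z + e • MM b (tl z))
    (hz : tl z ≠ 0) (hb : ∀ i, ∀ t : ℂ, tl z ≠ t • b i) :
    ∃ r : ℝ, 0 < r ∧ rz (aa b) z u = -Complex.I * e * r := by
  set p : Fin k → ℝ := fun i => ‖b.repr (tl z) i‖ ^ 2 with hp
  have hp0 : ∀ i, 0 ≤ p i := fun i => by positivity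
  obtain ⟨i, hi⟩ : ∃ i, b.repr (tl z) i ≠ 0 := by
    by_contra hc
    push Not at hc
    exact hz (b.repr.injective (by ext i; simp [hc i]))
  obtain ⟨j, hji, hj⟩ : ∃ j, j ≠ i ∧ b.repr (tl z) j ≠ 0 := by
    by_contra hc
    push Not at hc
    refine hb i (b.repr (tl z) i) (b.repr.injective ?_)
    ext j
    by_cases e : j = i
    · simp [e]
    · simp [hc j e, Ne.symm e]
  have hl : ((i : ℕ) : ℝ) ^ 2 ≠ ((j : ℕ) : ℝ) ^ 2 := by
    intro e
    have := (pow_left_inj₀ (by positivity) (by positivity) two_ne_zero).1 e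
    exact hji (Fin.ext (by exact_mod_cast this.symm))
  have hv := var_pos (l := fun i : Fin k => ((i : ℕ) : ℝ) ^ 2) hp0 hl
    (by simp only [hp]; positivity) (by simp only [hp]; positivity)
  have h0 : 0 < ∑ i, p i :=
    Finset.sum_pos' (fun i _ => hp0 i) ⟨i, Finset.mem_univ _, by simp only [hp]; positivity⟩
  refine ⟨_ / (∑ i, p i) ^ 2, div_pos hv (by positivity), ?_⟩
  rw [rz_aa b hz, inner_PP b _ h, inner_PP b _ h, norm_PP, norm_PP]
  have e1 : ∑ i : Fin k, ((i : ℕ) : ℝ) ^ 2 * (((i : ℕ) : ℝ) ^ 2 * ‖b.repr (tl z) i‖ ^ 2) =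
      ∑ i : Fin k, (((i : ℕ) : ℝ) ^ 2) ^ 2 * p i := Finset.sum_congr rfl fun i _ => by ring
  simp only [one_pow, one_mul]
  rw [e1]
  change (c * ((∑ i : Fin k, ((i : ℕ) : ℝ) ^ 2 * p i : ℝ) : ℂ) - _) * (((∑ i, p i)⁻¹ : ℝ) : ℂ) +
    ((∑ i : Fin k, ((i : ℕ) : ℝ) ^ 2 * p i : ℝ) : ℂ) * (-(c * ((∑ i, p i : ℝ) : ℂ) - Complex.I * e *
      ((∑ i : Fin k, ((i : ℕ) : ℝ) ^ 2 * p i : ℝ) : ℂ)) / ((∑ i, p i : ℝ) : ℂ) ^ 2) = _
  generalize ∑ i, p i = S0 at *
  generalize ∑ i : Fin k, ((i : ℕ) : ℝ) ^ 2 * p i = S1 at *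
  generalize ∑ i : Fin k, (((i : ℕ) : ℝ) ^ 2) ^ 2 * p i = S2 at *
  have : (S0 : ℂ) ≠ 0 := by exact_mod_cast h0.ne'
  push_cast
  field_simp
  ring

/-- the degenerating family -/
def setup {V : E n → E n} (hV : HomMap V 8) (M : E n →L[ℂ] E n) : Setup (n + 1) where
  f := hdL n
  r := 1
  j := 8
  d := 8
  q := cns 1 0
  Z := fun z => cns 0 (V (tl z) + z 0 ^ 7 • M (tl z))
  h := fun _ => 0
  hf := HomMap.of_clm _
  hr := le_rfl
  hj := by norm_num
  hq := by simp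
  hZ := ⟨(cnL n).contDiff.comp ((hV.cd.comp (tlL n).contDiff).add
      (((hdL n).contDiff.pow 7).smul (M.contDiff.comp (tlL n).contDiff))), fun c z => by
    rw [← cnL_apply, ← cnL_apply, ← (cnL n).map_smul, tl_smul, hV.hom, M.map_smul, smul_add, smul_smul,
      smul_smul]
    congr 3
    simp only [PiLp.smul_apply, smul_eq_mul]
    ring⟩
  hh := continuous_const
  tang := fun z => by rw [ContinuousLinearMap.fderiv]; simp

theorem setup_W {V : E n → E n} (hV : HomMap V 8) (M : E n →L[ℂ] E n) (z : E (n + 1)) :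
    (setup hV M).W z = 1 := by
  change fderiv ℂ (hdL n) z (cns 1 0) = 1
  rw [ContinuousLinearMap.fderiv]; simp

theorem off_hyper {V : E n → E n} {hV : HomMap V 8} {M : E n →L[ℂ] E n} (h : NoMeas V)
    (D : Degen (setup hV M)) : ∀ᵐ ξ ∂(D.m0 : Measure (Xi (n + 1))), ξ.z 0 ≠ 0 := by
  set m := (D.m0 : Measure (Xi (n + 1))) with hm
  have hs : MeasurableSet {ξ : Xi (n + 1) | hdL n ξ.z = 0} :=
    (isClosed_eq ((hdL n).continuous.comp Xi.continuous_z) continuous_const).measurableSet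
  set m1 := m.restrict {ξ | hdL n ξ.z = 0} with hm1
  have c1 : ClosedM m1 := closed_eq D.closed0 (HomMap.of_clm (hdL n)) le_rfl
  have a0 : ∀ᵐ ξ ∂m1, hdL n ξ.z = 0 := ae_restrict_mem hs
  have a1 : ∀ᵐ ξ ∂m1, ξ ∈ Set.range (inc : Xi n → Xi (n + 1)) := by
    filter_upwards [a0, support_ae c1 (HomMap.of_clm (hdL n))] with ξ h1 h2
    have h3 := h2 h1
    rw [ContinuousLinearMap.fderiv] at h3
    exact mem_range_inc h1 h3
  have a2 : ∀ᵐ ξ ∂m1, Dir ((setup hV M).Z ξ.z) ξ := by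
    filter_upwards [a0, ae_restrict_of_ae D.dir_on] with ξ h1 h2
    exact h2 h1 (by rw [setup_W]; exact one_ne_zero)
  have e : (m1.comap (inc : Xi n → Xi (n + 1))).map inc = m1 := by
    rw [inc_meas.map_comap, Measure.restrict_eq_self_of_ae_mem a1]
  have : IsFiniteMeasure (m1.comap (inc : Xi n → Xi (n + 1))) := by
    constructor
    rw [inc_meas.comap_apply]
    exact measure_lt_top _ _
  have z0 : m1.comap (inc : Xi n → Xi (n + 1)) = 0 := by
    refine h.eq_zero (closed_comap c1 a1) ?_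
    rw [← e, inc_meas.ae_map_iff] at a2
    filter_upwards [a2] with ξ h1
    apply dir_of_inc
    simpa [setup] using h1
  have z1 : m1 = 0 := by rw [← e, z0, Measure.map_zero]
  rw [hm1, Measure.restrict_eq_zero] at z1
  exact compl_mem_ae_iff.2 z1

end I2

open I2 in
theorem noMeas_succ {n : ℕ} {V : E n → E n} (hV : HomMap V 8) (h0 : ∃ z, z ≠ 0 ∧ z ∉ Sing V)
    (h : NoMeas V) : ∃ (M : E n →L[ℂ] E n) (ε : ℝ), 0 < ε ∧ NoMeas (liftV V M ε) := by
  obtain ⟨k, b, hb⟩ := exists_basis hV.cd.continuous h0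
  refine ⟨MM b, (setup hV (MM b)).exists_eps fun D => ?_⟩
  have h1 := off_hyper h D
  have hY : ∀ᵐ ξ ∂(D.m0 : Measure (Xi (n + 1))),
      (setup hV (MM b)).f ξ.z = 0 → (setup hV (MM b)).W ξ.z = 0 := by
    filter_upwards [h1] with ξ h2 h3
    exact absurd h3 h2
  have hp := point_ae D.closed0 (cns 1 (0 : E n))
  have hd := D.drift (a := aa b)
    (fun z hz => (aa_cd b ((not_line_iff z).1 hz)).contDiffWithinAt)
    (fun z _ c hc => aa_smul b z hc)
    (fun z hz => by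
      have e : ∀ μ, PP b μ (setup hV (MM b)).q = 0 := fun μ => by
        ext i; simp [PP_apply, setup]
      rw [rz_aa b ((not_line_iff z).1 hz), e, e]; simp)
    (by
      filter_upwards [D.offY hY, hp] with ξ h2 h3 h4 _
      have t0 := (not_line_iff _).1 h3
      have h5 := h2 h4 (-ξ.z 0)
      have e1 : ξ.z + (-ξ.z 0) • (setup hV (MM b)).q = cns 0 (tl ξ.z) :=
        ext_succ (by simp [setup]) (by rw [tl_add, tl_smul]; simp [setup])
      rw [e1] at h5
      obtain ⟨c, hc⟩ : ∃ c : ℂ, V (tl ξ.z) = c • tl ξ.z := by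
        by_contra hn
        refine h5 ⟨rfl, by rw [setup_W]; exact one_ne_zero, fun c hc => hn ⟨c, ?_⟩⟩
        have := congrArg tl hc
        rw [tl_smul] at this
        simpa [setup] using this
      obtain ⟨r, hr, e2⟩ := rz_aa_pos b (z := ξ.z) (u := (setup hV (MM b)).Z ξ.z) (c := c)
        (e := ξ.z 0 ^ 7) (by rw [← hc]; simp [setup]) t0 (by
          intro i t ht
          have ht0 : t ≠ 0 := by rintro rfl; exact t0 (by simpa using ht)
          rw [ht, hV.hom, smul_smul] at hc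
          refine hb i ((t ^ 8)⁻¹ * (c * t)) ?_
          rw [← smul_smul, ← hc, smul_smul, inv_mul_cancel₀ (pow_ne_zero _ ht0), one_smul])
      have e3 : ⟪ξ.z, (setup hV (MM b)).q⟫_ℂ = conj (ξ.z 0) := by
        rw [inner_succ]; simp [setup]
      have e4 : ‖tl ξ.z‖ ^ 2 = 1 - ‖ξ.z 0‖ ^ 2 := by
        have := norm_sq_succ ξ.z
        rw [ξ.norm_z] at this
        linarith
      have e5 : (1 : ℂ) - ξ.z 0 * conj (ξ.z 0) = (‖tl ξ.z‖ ^ 2 : ℝ) := by
        rw [e4, Complex.mul_conj']; push_cast; ring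
      have h6 : ξ.z 0 ≠ 0 := h4
      have e6 : conj ((setup hV (MM b)).f ξ.z) * (setup hV (MM b)).f ξ.z ^ (setup hV (MM b)).j *
          ((setup hV (MM b)).W ξ.z - (setup hV (MM b)).r * (setup hV (MM b)).f ξ.z *
            ⟪ξ.z, (setup hV (MM b)).q⟫_ℂ) * conj (rz (aa b) ξ.z ((setup hV (MM b)).Z ξ.z)) =
          ((‖ξ.z 0‖ ^ 2) ^ 8 * ‖tl ξ.z‖ ^ 2 * r : ℝ) * Complex.I := by
        rw [e2, e3, setup_W]
        change conj (ξ.z 0) * ξ.z 0 ^ 8 * (1 - ((1 : ℕ) : ℂ) * ξ.z 0 * conj (ξ.z 0)) * _ = _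
        rw [Nat.cast_one, one_mul, e5]
        simp only [map_mul, map_neg, map_pow, Complex.conj_I, Complex.conj_ofReal]
        push_cast
        rw [← Complex.mul_conj' (ξ.z 0)]
        ring
      rw [e6, Complex.mul_I_im, Complex.ofReal_re]
      positivity)
  have hF : ∀ᵐ ξ ∂(D.m0 : Measure (Xi (n + 1))), False := by
    filter_upwards [h1, hd, hp] with ξ h2 h3 h4
    have h5 := h3 h2
    have t0 := (not_line_iff _).1 h4
    have e1 : sP (setup hV (MM b)).f (setup hV (MM b)).r (setup hV (MM b)).q = 1 := by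
      have := norm_sq_succ (cns 1 (0 : E n))
      change ‖hdL n (cns 1 (0 : E n))‖ ^ 2 / ‖cns 1 (0 : E n)‖ ^ 2 = 1
      rw [this]; simp
    have e2 := norm_sq_succ ξ.z
    rw [ξ.norm_z] at e2
    rw [e1] at h5
    change 1 ≤ ‖ξ.z 0‖ ^ 2 at h5
    have : 0 < ‖tl ξ.z‖ ^ 2 := by positivity
    linarith
  exact hF.exists.elim fun _ h => h

end A590
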