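import Pool.Agent.Lib.A590Iface

/-!
Block O2 of the proof of MP_a590e5_an: signs at the base point of the system on the rays.
-/

open scoped ComplexConjugate ComplexOrder ContDiff Topology InnerProductSpace
open MeasureTheory Filter Set

noncomputable section

namespace A590

namespace O2

lemma den_ne (r : ℝ) : (2 * (1 + (r : ℂ) ^ 4)) ≠ 0 := by
  have : (2 * (1 + r ^ 4) : ℝ) ≠ 0 := by positivity
  exact_mod_cast this

lemma rayA_add_p (p e : ℂ × ℂ × ℂ) (h : ℂ) (r : ℝ) (w : ℂ × ℂ) :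
    rayA (p + h • e) r w = rayA p r w + h • rayA e r w := by
  ext <;> simp [rayA] <;> ring

lemma rayA_lin (p : ℂ × ℂ × ℂ) (r : ℝ) (a b : ℂ) (w w' : ℂ × ℂ) :
    rayA p r (a • w + b • w') = a • rayA p r w + b • rayA p r w' := by
  ext <;> simp [rayA] <;> ring

lemma rayA_sub (p : ℂ × ℂ × ℂ) (r : ℝ) (w w' : ℂ × ℂ) :
    rayA p r (w - w') = rayA p r w - rayA p r w' := by
  ext <;> simp [rayA] <;> ring

lemma norm_rayA (p : ℂ × ℂ × ℂ) {r : ℝ} (hr : r ∈ Icc (0 : ℝ) 1) (w : ℂ × ℂ) :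
    ‖rayA p r w‖ ≤ (‖p.1‖ + ‖p.2.1‖ + ‖p.2.2‖) / 2 * ‖w‖ := by
  have h1 : ‖w.1‖ ≤ ‖w‖ := norm_fst_le w
  have h2 : ‖w.2‖ ≤ ‖w‖ := norm_snd_le w
  have hr1 : ‖(r : ℂ)‖ ≤ 1 := by rw [Complex.norm_real, Real.norm_of_nonneg hr.1]; exact hr.2
  have hr2 : ‖(r : ℂ) ^ 2‖ ≤ 1 := by rw [norm_pow]; exact pow_le_one₀ (norm_nonneg _) hr1
  have hd : 2 ≤ ‖2 * (1 + (r : ℂ) ^ 4)‖ := by
    have : (2 * (1 + (r : ℂ) ^ 4)) = ((2 * (1 + r ^ 4) : ℝ) : ℂ) := by push_cast; ring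
    rw [this, Complex.norm_real, Real.norm_of_nonneg (by positivity)]
    have : 0 ≤ r ^ 4 := by positivity
    linarith
  have key : ∀ (x : ℂ), ‖x‖ ≤ (‖p.1‖ + ‖p.2.1‖ + ‖p.2.2‖) * ‖w‖ →
      ‖x / (2 * (1 + (r : ℂ) ^ 4))‖ ≤ (‖p.1‖ + ‖p.2.1‖ + ‖p.2.2‖) / 2 * ‖w‖ := by
    intro x hx
    rw [norm_div]
    calc ‖x‖ / ‖2 * (1 + (r : ℂ) ^ 4)‖ ≤ (‖p.1‖ + ‖p.2.1‖ + ‖p.2.2‖) * ‖w‖ / 2 :=
          div_le_div₀ (by positivity) hx (by norm_num) hd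
      _ = _ := by ring
  have a1 : ∀ a : ℂ, ‖a * r‖ ≤ ‖a‖ := fun a => by
    rw [norm_mul]; exact mul_le_of_le_one_right (norm_nonneg _) hr1
  have a2 : ∀ a b : ℂ, ‖a - b * (r : ℂ) ^ 2‖ ≤ ‖a‖ + ‖b‖ := fun a b => by
    refine (norm_sub_le _ _).trans (add_le_add le_rfl ?_)
    rw [norm_mul]; exact mul_le_of_le_one_right (norm_nonneg _) hr2
  refine norm_prod_le_iff.2 ⟨key _ ?_, key _ ?_⟩
  · refine (norm_add_le _ _).trans ?_
    rw [norm_mul _ w.1, norm_mul _ w.2]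
    have b1 := mul_le_mul (a1 p.2.2) h1 (norm_nonneg _) (norm_nonneg _)
    have b2 := mul_le_mul (a2 p.1 p.2.1) h2 (norm_nonneg _) (by positivity)
    linarith
  · refine (norm_sub_le _ _).trans ?_
    rw [norm_mul _ w.1, norm_mul _ w.2]
    have b1 := mul_le_mul (a1 p.2.2) h2 (norm_nonneg _) (norm_nonneg _)
    have b2 := mul_le_mul (a2 p.2.1 p.1) h1 (norm_nonneg _) (by positivity)
    linarith

lemma norm_det2 (a b : ℂ × ℂ) : ‖det2 a b‖ ≤ 2 * ‖a‖ * ‖b‖ := by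
  unfold det2
  refine (norm_sub_le _ _).trans ?_
  rw [norm_mul, norm_mul]
  have b1 := mul_le_mul (norm_fst_le a) (norm_snd_le b) (norm_nonneg _) (norm_nonneg _)
  have b2 := mul_le_mul (norm_snd_le a) (norm_fst_le b) (norm_nonneg _) (norm_nonneg _)
  linarith

lemma sol_cont {p : ℂ × ℂ × ℂ} {y : ℝ → ℂ × ℂ} {y0 : ℂ × ℂ} (h : RaySol p y y0) :
    ContinuousOn y (Icc 0 1) := fun r hr => (h.2 r hr).continuousWithinAt

lemma sol_lin {p : ℂ × ℂ × ℂ} {y z : ℝ → ℂ × ℂ} {y0 z0 : ℂ × ℂ} (h : RaySol p y y0)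
    (h' : RaySol p z z0) (a b : ℂ) : RaySol p (fun r => a • y r + b • z r) (a • y0 + b • z0) := by
  refine ⟨by simp only [h.1, h'.1], fun r hr => ?_⟩
  rw [rayA_lin]
  exact ((h.2 r hr).const_smul a).add ((h'.2 r hr).const_smul b)

lemma hd_fst {y : ℝ → ℂ × ℂ} {y' : ℂ × ℂ} {s : Set ℝ} {r : ℝ} (h : HasDerivWithinAt y y' s r) :
    HasDerivWithinAt (fun r => (y r).1) y'.1 s r :=
  (ContinuousLinearMap.fst ℝ ℂ ℂ).hasFDerivAt.comp_hasDerivWithinAt r h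

lemma hd_snd {y : ℝ → ℂ × ℂ} {y' : ℂ × ℂ} {s : Set ℝ} {r : ℝ} (h : HasDerivWithinAt y y' s r) :
    HasDerivWithinAt (fun r => (y r).2) y'.2 s r :=
  (ContinuousLinearMap.snd ℝ ℂ ℂ).hasFDerivAt.comp_hasDerivWithinAt r h

lemma det_deriv {p e : ℂ × ℂ × ℂ} {h : ℂ} {η y : ℝ → ℂ × ℂ} {η0 y0 : ℂ × ℂ} (hη : RaySol p η η0)
    (hy : RaySol (p + h • e) y y0) {r : ℝ} (hr : r ∈ Icc (0 : ℝ) 1) :
    HasDerivWithinAt (fun r => det2 (η r) (y r)) (h * det2 (η r) (rayA e r (y r))) (Icc 0 1) r := by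
  have h1 := ((hd_fst (hη.2 r hr)).mul (hd_snd (hy.2 r hr))).sub
    ((hd_snd (hη.2 r hr)).mul (hd_fst (hy.2 r hr)))
  refine HasDerivWithinAt.congr_deriv h1 ?_
  rw [rayA_add_p]
  simp only [det2, rayA, Prod.fst_add, Prod.snd_add, Prod.smul_fst, Prod.smul_snd, smul_eq_mul]
  ring

lemma det_const {p : ℂ × ℂ × ℂ} {η y : ℝ → ℂ × ℂ} {η0 y0 : ℂ × ℂ} (hη : RaySol p η η0)
    (hy : RaySol p y y0) {r : ℝ} (hr : r ∈ Icc (0 : ℝ) 1) : det2 (η r) (y r) = det2 η0 y0 := by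
  have hy' : RaySol (p + (0 : ℂ) • p) y y0 := by simpa using hy
  have h1 := (convex_Icc (0 : ℝ) 1).norm_image_sub_le_of_norm_hasDerivWithin_le (C := 0)
    (fun x hx => det_deriv hη hy' hx) (fun x _ => by simp) (left_mem_Icc.2 zero_le_one) hr
  rw [zero_mul, norm_le_zero_iff, sub_eq_zero, hη.1, hy.1] at h1
  exact h1

lemma sol_eq (D : RayData) {p : ℂ × ℂ × ℂ} {y : ℝ → ℂ × ℂ} {y0 : ℂ × ℂ} (h : RaySol p y y0)
    {r : ℝ} (hr : r ∈ Icc (0 : ℝ) 1) : y r = y0.1 • D.y p r + y0.2 • D.yh p r := by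
  have h1 := det_const (D.sol p) (D.solh p) hr
  have h2 := det_const (D.sol p) h hr
  have h3 := det_const (D.solh p) h hr
  simp only [det2] at h1 h2 h3
  ext
  · simp only [Prod.fst_add, Prod.smul_fst, smul_eq_mul]
    linear_combination -(y r).1 * h1 + (D.yh p r).1 * h2 - (D.y p r).1 * h3
  · simp only [Prod.snd_add, Prod.smul_snd, smul_eq_mul]
    linear_combination -(y r).2 * h1 + (D.yh p r).2 * h2 - (D.y p r).2 * h3

lemma sol_conj {p : ℂ × ℂ × ℂ} {y : ℝ → ℂ × ℂ} {y0 : ℂ × ℂ} (h : RaySol p y y0) :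
    RaySol (conj p.1, conj p.2.1, conj p.2.2) (fun r => (conj (y r).1, conj (y r).2))
      (conj y0.1, conj y0.2) := by
  refine ⟨by simp only [h.1], fun r hr => ?_⟩
  have h1 := ((hd_fst (h.2 r hr)).star).prodMk ((hd_snd (h.2 r hr)).star)
  refine HasDerivWithinAt.congr_deriv h1 ?_
  ext <;> simp [rayA]

lemma y_conj (D : RayData) (p : ℂ × ℂ × ℂ) {r : ℝ} (hr : r ∈ Icc (0 : ℝ) 1) :
    D.y (conj p.1, conj p.2.1, conj p.2.2) r = (conj (D.y p r).1, conj (D.y p r).2) ∧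
    D.yh (conj p.1, conj p.2.1, conj p.2.2) r = (conj (D.yh p r).1, conj (D.yh p r).2) := by
  have h1 := sol_eq D (sol_conj (D.sol p)) hr
  have h2 := sol_eq D (sol_conj (D.solh p)) hr
  constructor
  · rw [h1]; simp
  · rw [h2]; simp

lemma sup_bound {E : Type*} [NormedAddCommGroup E] [NormedSpace ℝ E] {f f' : ℝ → E}
    (hf : ∀ r ∈ Icc (0 : ℝ) 1, HasDerivWithinAt f (f' r) (Icc 0 1) r) {θ C : ℝ} (h0 : 0 ≤ θ)
    (h1 : θ < 1) (h : ∀ r ∈ Icc (0 : ℝ) 1, ‖f' r‖ ≤ θ * ‖f r‖ + C) :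
    ∀ r ∈ Icc (0 : ℝ) 1, ‖f r‖ ≤ (‖f 0‖ + C) / (1 - θ) := by
  have hc : ContinuousOn (fun r => ‖f r‖) (Icc 0 1) :=
    ContinuousOn.norm fun r hr => (hf r hr).continuousWithinAt
  obtain ⟨r0, hr0, hm⟩ := isCompact_Icc.exists_isMaxOn (nonempty_Icc.2 zero_le_one) hc
  have hb : ∀ r ∈ Icc (0 : ℝ) 1, ‖f' r‖ ≤ θ * ‖f r0‖ + C := fun r hr =>
    (h r hr).trans (add_le_add (mul_le_mul_of_nonneg_left (hm hr) h0) le_rfl)
  have h2 := (convex_Icc (0 : ℝ) 1).norm_image_sub_le_of_norm_hasDerivWithin_le hf hb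
    (left_mem_Icc.2 zero_le_one) hr0
  have h3 : ‖r0 - 0‖ ≤ 1 := by rw [sub_zero, Real.norm_of_nonneg hr0.1]; exact hr0.2
  have h4 : 0 ≤ θ * ‖f r0‖ + C := (norm_nonneg _).trans (hb r0 hr0)
  have h5 : ‖f r0‖ ≤ ‖f 0‖ + ‖f r0 - f 0‖ := norm_le_insert' _ _
  have h6 := mul_le_of_le_one_right h4 h3
  intro r hr
  refine (hm hr).trans ?_
  rw [le_div_iff₀ (by linarith)]
  nlinarith

/-- the base point -/
def p0 : ℂ × ℂ × ℂ := (1, 0, 0)

lemma norm_rayA0 {r : ℝ} (hr : r ∈ Icc (0 : ℝ) 1) (w : ℂ × ℂ) : ‖rayA p0 r w‖ ≤ 1 / 2 * ‖w‖ := by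
  simpa [p0] using norm_rayA p0 hr w

lemma variation {e : ℂ × ℂ × ℂ} (he : ‖e.1‖ + ‖e.2.1‖ + ‖e.2.2‖ = 1) {η : ℝ → ℂ × ℂ} {η0 y0 : ℂ × ℂ}
    (hη : RaySol p0 η η0) {Y : ℂ × ℂ × ℂ → ℝ → ℂ × ℂ} (hY : ∀ p, RaySol p (Y p) y0) :
    HasDerivAt (fun h : ℂ => det2 (η 1) (Y (p0 + h • e) 1))
      (∫ r in (0 : ℝ)..1, det2 (η r) (rayA e r (Y p0 r))) 0 := by
  have hB : ∀ r ∈ Icc (0 : ℝ) 1, ∀ w, ‖rayA e r w‖ ≤ 1 / 2 * ‖w‖ := fun r hr w => by
    simpa only [he] using norm_rayA e hr w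
  have b0 : ∀ {y : ℝ → ℂ × ℂ} {z : ℂ × ℂ}, RaySol p0 y z → ∀ r ∈ Icc (0 : ℝ) 1, ‖y r‖ ≤ 2 * ‖z‖ := by
    intro y z h r hr
    have := sup_bound h.2 (θ := 1 / 2) (C := 0) (by norm_num) (by norm_num)
      (fun r hr => by rw [add_zero]; exact norm_rayA0 hr _) r hr
    rw [h.1, le_div_iff₀ (by norm_num)] at this
    linarith
  have b1 : ∀ h : ℂ, ‖h‖ ≤ 1 / 2 → ∀ r ∈ Icc (0 : ℝ) 1,
      ‖Y (p0 + h • e) r - Y p0 r‖ ≤ 4 * ‖h‖ * ‖y0‖ := by
    intro h hh r hr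
    have := sup_bound (f := fun r => Y (p0 + h • e) r - Y p0 r)
      (fun r hr => ((hY (p0 + h • e)).2 r hr).sub ((hY p0).2 r hr)) (θ := 3 / 4)
      (C := ‖h‖ * ‖y0‖) (by norm_num) (by norm_num) (fun r hr => by
        have e1 : rayA (p0 + h • e) r (Y (p0 + h • e) r) - rayA p0 r (Y p0 r) =
            rayA p0 r (Y (p0 + h • e) r - Y p0 r) + h • rayA e r (Y (p0 + h • e) r - Y p0 r)
              + h • rayA e r (Y p0 r) := by
          rw [rayA_add_p, rayA_sub, rayA_sub, smul_sub]; abel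
        rw [e1]
        refine (norm_add₃_le).trans ?_
        rw [norm_smul, norm_smul]
        have c1 := norm_rayA0 hr (Y (p0 + h • e) r - Y p0 r)
        have c2 := mul_le_mul hh (hB r hr (Y (p0 + h • e) r - Y p0 r)) (norm_nonneg _)
          (by norm_num)
        have c3 := mul_le_mul_of_nonneg_left ((hB r hr (Y p0 r)).trans
          (mul_le_mul_of_nonneg_left (b0 (hY p0) r hr) (by norm_num))) (norm_nonneg h)
        linarith) r hr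
    simp only [(hY _).1, sub_self, norm_zero] at this
    rw [le_div_iff₀ (by norm_num)] at this
    linarith
  have cont : ∀ p, IntervalIntegrable (fun r => det2 (η r) (rayA e r (Y p r))) volume 0 1 := by
    intro p
    refine ContinuousOn.intervalIntegrable_of_Icc zero_le_one ?_
    have c1 := sol_cont hη
    have c2 := sol_cont (hY p)
    unfold det2 rayA
    have c3 : ∀ r ∈ Icc (0 : ℝ) 1, (2 * (1 + (r : ℂ) ^ 4)) ≠ 0 := fun r _ => den_ne r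
    fun_prop (disch := assumption)
  have ftc : ∀ h : ℂ, det2 (η 1) (Y (p0 + h • e) 1) - det2 η0 y0 =
      h * ∫ r in (0 : ℝ)..1, det2 (η r) (rayA e r (Y (p0 + h • e) r)) := by
    intro h
    have := intervalIntegral.integral_eq_sub_of_hasDeriv_right_of_le zero_le_one
      (fun r hr => (det_deriv hη (hY (p0 + h • e)) hr).continuousWithinAt)
      (fun r hr => ((det_deriv hη (hY (p0 + h • e)) (Ioo_subset_Icc_self hr)).hasDerivAt
        (Icc_mem_nhds hr.1 hr.2)).hasDerivWithinAt) ((cont _).const_mul h)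
    rw [intervalIntegral.integral_const_mul, hη.1, (hY _).1] at this
    exact this.symm
  rw [hasDerivAt_iff_isLittleO_nhds_zero]
  refine Asymptotics.IsBigO.trans_isLittleO ?_ (Asymptotics.isLittleO_norm_pow_id (n := 2) (by norm_num))
  refine Asymptotics.IsBigO.of_bound (8 * ‖η0‖ * ‖y0‖) ?_
  filter_upwards [Metric.closedBall_mem_nhds (0 : ℂ) (show (0 : ℝ) < 1 / 2 by norm_num)] with h hh
  rw [mem_closedBall_zero_iff] at hh
  have e1 := ftc h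
  have e2 := ftc 0
  rw [zero_mul] at e2
  have e3 : det2 (η 1) (Y (p0 + (0 + h) • e) 1) - det2 (η 1) (Y (p0 + (0 : ℂ) • e) 1) -
      h • ∫ r in (0 : ℝ)..1, det2 (η r) (rayA e r (Y p0 r)) =
      h * ∫ r in (0 : ℝ)..1, (det2 (η r) (rayA e r (Y (p0 + h • e) r)) -
        det2 (η r) (rayA e r (Y p0 r))) := by
    rw [intervalIntegral.integral_sub (cont _) (cont _), zero_add, smul_eq_mul]
    linear_combination e1 - e2
  rw [e3, norm_mul]
  have e4 := intervalIntegral.norm_integral_le_of_norm_le_const (a := 0) (b := 1)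
    (f := fun r => det2 (η r) (rayA e r (Y (p0 + h • e) r)) - det2 (η r) (rayA e r (Y p0 r)))
    (C := 8 * ‖η0‖ * ‖y0‖ * ‖h‖) (fun r hr => by
      rw [uIoc_of_le zero_le_one] at hr
      have hr' := Ioc_subset_Icc_self hr
      have d1 : det2 (η r) (rayA e r (Y (p0 + h • e) r)) - det2 (η r) (rayA e r (Y p0 r)) =
          det2 (η r) (rayA e r (Y (p0 + h • e) r - Y p0 r)) := by
        rw [rayA_sub]; simp only [det2, Prod.fst_sub, Prod.snd_sub]; ring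
      rw [d1]
      refine (norm_det2 _ _).trans ?_
      have d2 := (hB r hr' _).trans (mul_le_mul_of_nonneg_left (b1 h hh r hr') (by norm_num))
      have d3 := mul_le_mul (mul_le_mul_of_nonneg_left (b0 hη r hr') (show (0 : ℝ) ≤ 2 by norm_num))
        d2 (norm_nonneg _) (by positivity)
      linarith)
  rw [Real.norm_of_nonneg (by positivity)]
  have e5 := mul_le_mul_of_nonneg_left e4 (norm_nonneg h)
  simp only [sub_zero, abs_one, mul_one] at e5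
  linarith

lemma var_real {e : ℂ × ℂ × ℂ} (he : ‖e.1‖ + ‖e.2.1‖ + ‖e.2.2‖ = 1) {η : ℝ → ℂ × ℂ}
    {η0 y0 : ℂ × ℂ} (hη : RaySol p0 η η0) {Y : ℂ × ℂ × ℂ → ℝ → ℂ × ℂ}
    (hY : ∀ p, RaySol p (Y p) y0) (hd : ContDiff ℂ 1 fun p => Y p 1)
    (h1 : η 1 = ((Y p0 1).2, (Y p0 1).1)) {I : ℝ → ℝ} {s : ℝ}
    (hI : ∀ r ∈ Icc (0 : ℝ) 1, det2 (η r) (rayA e r (Y p0 r)) = I r)
    (hpos : ∀ r ∈ Ioo (0 : ℝ) 1, 0 < s * I r) :
    ∃ J : ℝ, 0 < s * J ∧ fderiv ℂ (fun p => (Y p 1).2 ^ 2 - (Y p 1).1 ^ 2) p0 e = (2 * J : ℝ) ∧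
      fderiv ℂ (fun p => (Y p 1).1 ^ 2 - (Y p 1).2 ^ 2) p0 e = (-(2 * J) : ℝ) := by
  have cI : ContinuousOn I (Icc 0 1) := by
    have c1 := sol_cont hη
    have c2 := sol_cont (hY p0)
    have c3 : ∀ r ∈ Icc (0 : ℝ) 1, (2 * (1 + (r : ℂ) ^ 4)) ≠ 0 := fun r _ => den_ne r
    have c4 : ContinuousOn (fun r => (det2 (η r) (rayA e r (Y p0 r))).re) (Icc 0 1) := by
      unfold det2 rayA
      fun_prop (disch := assumption)
    exact c4.congr fun r hr => by simp only [hI r hr, Complex.ofReal_re]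
  have hv := variation he hη hY
  have e1 : ∫ r in (0 : ℝ)..1, det2 (η r) (rayA e r (Y p0 r)) = (∫ r in (0 : ℝ)..1, I r : ℝ) := by
    rw [← intervalIntegral.integral_ofReal]
    refine intervalIntegral.integral_congr fun r hr => hI r ?_
    rwa [uIcc_of_le zero_le_one] at hr
  rw [e1] at hv
  refine ⟨∫ r in (0 : ℝ)..1, I r, ?_, ?_⟩
  · rw [← intervalIntegral.integral_const_mul]
    exact intervalIntegral.intervalIntegral_pos_of_pos_on
      ((cI.intervalIntegrable_of_Icc zero_le_one).const_mul s) hpos zero_lt_one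
  have hF := (hd.differentiable one_ne_zero p0).hasFDerivAt
  have hF1 := hF.fst
  have hF2 := hF.snd
  have hl : HasDerivAt (fun h : ℂ => p0 + h • e) e 0 := by
    simpa using ((hasDerivAt_id (0 : ℂ)).smul_const e).const_add p0
  have g1 := HasFDerivAt.comp_hasDerivAt_of_eq (0 : ℂ) hF1 hl (by simp)
  have g2 := HasFDerivAt.comp_hasDerivAt_of_eq (0 : ℂ) hF2 hl (by simp)
  have g3 := hv.unique ((g2.const_mul (η 1).1).sub (g1.const_mul (η 1).2))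
  rw [h1] at g3
  rw [((hF2.pow 2).fun_sub (hF1.pow 2)).fderiv, ((hF1.pow 2).fun_sub (hF2.pow 2)).fderiv]
  simp only [sub_apply, smul_apply, smul_eq_mul, nsmul_eq_mul] at g3 ⊢
  push_cast at g3 ⊢
  constructor
  · linear_combination -2 * g3
  · linear_combination 2 * g3

lemma re_deriv {y : ℝ → ℂ × ℂ} {y0 : ℂ × ℂ} (h : RaySol p0 y y0) {r : ℝ}
    (hr : r ∈ Icc (0 : ℝ) 1) :
    HasDerivWithinAt (fun r => (y r).1.re) (1 / (2 * (1 + r ^ 4)) * (y r).2.re) (Icc 0 1) r ∧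
    HasDerivWithinAt (fun r => (y r).2.re) (-(r ^ 2 / (2 * (1 + r ^ 4)) * (y r).1.re))
      (Icc 0 1) r := by
  have h1 := Complex.reCLM.hasFDerivAt.comp_hasDerivWithinAt r (hd_fst (h.2 r hr))
  have h2 := Complex.reCLM.hasFDerivAt.comp_hasDerivWithinAt r (hd_snd (h.2 r hr))
  have e1 : (rayA p0 r (y r)).1 = ((1 / (2 * (1 + r ^ 4)) : ℝ) : ℂ) * (y r).2 := by
    simp only [rayA, p0]; push_cast; ring
  have e2 : (rayA p0 r (y r)).2 = ((-(r ^ 2 / (2 * (1 + r ^ 4))) : ℝ) : ℂ) * (y r).1 := by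
    simp only [rayA, p0]; push_cast; ring
  rw [e1] at h1
  rw [e2] at h2
  rw [Complex.reCLM_apply, Complex.re_ofReal_mul] at h1 h2
  exact ⟨h1, by rw [← neg_mul]; exact h2⟩

lemma mono {f f' : ℝ → ℝ} (hf : ∀ r ∈ Icc (0 : ℝ) 1, HasDerivWithinAt f (f' r) (Icc 0 1) r)
    (h : ∀ r ∈ Icc (0 : ℝ) 1, 0 ≤ f' r) : MonotoneOn f (Icc 0 1) :=
  monotoneOn_of_hasDerivWithinAt_nonneg (convex_Icc 0 1) (fun r hr => (hf r hr).continuousWithinAt)
    (fun r hr => (hf r (interior_subset hr)).mono interior_subset)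
    (fun r hr => h r (interior_subset hr))

lemma anti {f f' : ℝ → ℝ} (hf : ∀ r ∈ Icc (0 : ℝ) 1, HasDerivWithinAt f (f' r) (Icc 0 1) r)
    (h : ∀ r ∈ Icc (0 : ℝ) 1, f' r ≤ 0) : AntitoneOn f (Icc 0 1) :=
  antitoneOn_of_hasDerivWithinAt_nonpos (convex_Icc 0 1) (fun r hr => (hf r hr).continuousWithinAt)
    (fun r hr => (hf r (interior_subset hr)).mono interior_subset)
    (fun r hr => h r (interior_subset hr))

lemma smono {f f' : ℝ → ℝ} (hf : ∀ r ∈ Icc (0 : ℝ) 1, HasDerivWithinAt f (f' r) (Icc 0 1) r)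
    (h : ∀ r ∈ Icc (0 : ℝ) 1, 0 < f' r) : StrictMonoOn f (Icc 0 1) :=
  strictMonoOn_of_hasDerivWithinAt_pos (convex_Icc 0 1) (fun r hr => (hf r hr).continuousWithinAt)
    (fun r hr => (hf r (interior_subset hr)).mono interior_subset)
    (fun r hr => h r (interior_subset hr))

lemma step {f f' : ℝ → ℝ} (hf : ∀ r ∈ Icc (0 : ℝ) 1, HasDerivWithinAt f (f' r) (Icc 0 1) r)
    {C : ℝ} (h : ∀ r ∈ Icc (0 : ℝ) 1, |f' r| ≤ C) {r : ℝ} (hr : r ∈ Icc (0 : ℝ) 1) :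
    |f r - f 0| ≤ C := by
  have h2 := (convex_Icc (0 : ℝ) 1).norm_image_sub_le_of_norm_hasDerivWithin_le hf h
    (left_mem_Icc.2 zero_le_one) hr
  have h3 : ‖r - 0‖ ≤ 1 := by rw [sub_zero, Real.norm_of_nonneg hr.1]; exact hr.2
  exact h2.trans (mul_le_of_le_one_right ((abs_nonneg _).trans (h r hr)) h3)

lemma pair_bounds {u v α β : ℝ → ℝ}
    (hu : ∀ r ∈ Icc (0 : ℝ) 1, HasDerivWithinAt u (α r * v r) (Icc 0 1) r)
    (hv : ∀ r ∈ Icc (0 : ℝ) 1, HasDerivWithinAt v (-(β r * u r)) (Icc 0 1) r)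
    (hα : ∀ r ∈ Icc (0 : ℝ) 1, 0 ≤ α r ∧ α r ≤ 1 / 2)
    (hβ : ∀ r ∈ Icc (0 : ℝ) 1, 0 ≤ β r ∧ β r ≤ 1 / 2) (u0 : u 0 = 1) (v0 : v 0 = 0) :
    ∀ r ∈ Icc (0 : ℝ) 1, 3 / 4 ≤ u r ∧ -(1 / 2) ≤ v r ∧ v r ≤ 0 := by
  have z0 : (0 : ℝ) ∈ Icc (0 : ℝ) 1 := left_mem_Icc.2 zero_le_one
  have su : ∀ C : ℝ, (∀ r ∈ Icc (0 : ℝ) 1, |v r| ≤ C) → ∀ r ∈ Icc (0 : ℝ) 1, |u r - 1| ≤ C / 2 := by
    intro C hC r hr
    rw [← u0]
    refine step hu (fun x hx => ?_) hr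
    rw [abs_mul, abs_of_nonneg (hα x hx).1]
    have := mul_le_mul (hα x hx).2 (hC x hx) (abs_nonneg _) (by norm_num)
    linarith
  have sv : ∀ C : ℝ, (∀ r ∈ Icc (0 : ℝ) 1, |u r| ≤ C) → ∀ r ∈ Icc (0 : ℝ) 1, |v r| ≤ C / 2 := by
    intro C hC r hr
    rw [← sub_zero (v r), ← v0]
    refine step hv (fun x hx => ?_) hr
    rw [abs_neg, abs_mul, abs_of_nonneg (hβ x hx).1]
    have := mul_le_mul (hβ x hx).2 (hC x hx) (abs_nonneg _) (by norm_num)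
    linarith
  have h1 : ∀ r ∈ Icc (0 : ℝ) 1, |u r| ≤ 2 := by
    intro r hr
    have := sup_bound (f := fun r => (u r, v r)) (fun r hr => (hu r hr).prodMk (hv r hr))
      (θ := 1 / 2) (C := 0) (by norm_num) (by norm_num) (fun x hx => by
        have a1 : |u x| ≤ ‖(u x, v x)‖ := norm_fst_le (u x, v x)
        have a2 : |v x| ≤ ‖(u x, v x)‖ := norm_snd_le (u x, v x)
        rw [add_zero]
        refine norm_prod_le_iff.2 ⟨?_, ?_⟩
        · rw [Real.norm_eq_abs, abs_mul, abs_of_nonneg (hα x hx).1]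
          exact mul_le_mul (hα x hx).2 a2 (abs_nonneg _) (by norm_num)
        · rw [Real.norm_eq_abs, abs_neg, abs_mul, abs_of_nonneg (hβ x hx).1]
          exact mul_le_mul (hβ x hx).2 a1 (abs_nonneg _) (by norm_num)) r hr
    have a1 : |u r| ≤ ‖(u r, v r)‖ := norm_fst_le (u r, v r)
    simp only [u0, v0, Prod.norm_mk, norm_one, norm_zero, zero_le_one, sup_of_le_left] at this
    rw [Prod.norm_mk] at a1
    linarith
  have h2 := su _ (sv _ h1)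
  have h3 : ∀ r ∈ Icc (0 : ℝ) 1, 0 ≤ u r := fun r hr => by
    have := (abs_le.1 (h2 r hr)).1
    linarith
  have h4 : ∀ r ∈ Icc (0 : ℝ) 1, v r ≤ 0 := fun r hr => by
    rw [← v0]
    exact anti hv (fun x hx => neg_nonpos.2 (mul_nonneg (hβ x hx).1 (h3 x hx))) z0 hr hr.1
  have h5 : ∀ r ∈ Icc (0 : ℝ) 1, |u r| ≤ 1 := fun r hr => by
    rw [abs_of_nonneg (h3 r hr), ← u0]
    exact anti hu (fun x hx => mul_nonpos_of_nonneg_of_nonpos (hα x hx).1 (h4 x hx)) z0 hr hr.1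
  have h6 := sv _ h5
  have h7 := su _ h6
  intro r hr
  have a1 := (abs_le.1 (h7 r hr)).1
  have a2 := (abs_le.1 (h6 r hr)).1
  exact ⟨by linarith, a2, h4 r hr⟩

lemma k1 {r : ℝ} : 0 < 1 / (2 * (1 + r ^ 4)) ∧ 1 / (2 * (1 + r ^ 4)) ≤ 1 / 2 := by
  have : 0 ≤ r ^ 4 := by positivity
  exact ⟨by positivity, one_div_le_one_div_of_le (by norm_num) (by linarith)⟩

lemma k2 {r : ℝ} : 0 ≤ r ^ 2 / (2 * (1 + r ^ 4)) ∧ r ^ 2 / (2 * (1 + r ^ 4)) ≤ 1 / 2 := by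
  refine ⟨by positivity, ?_⟩
  rw [div_le_div_iff₀ (by positivity) (by norm_num)]
  nlinarith [sq_nonneg (r ^ 2 - 1), sq_nonneg r]

lemma det_b (x1 x2 w1 w2 r : ℝ) : det2 (x1, x2) (rayA (0, 1, 0) r (w1, w2)) =
    (1 / (2 * (1 + r ^ 4)) * (x1 * w1 + r ^ 2 * (x2 * w2)) : ℝ) := by
  simp only [det2, rayA]; push_cast; ring

lemma det_g (x1 x2 w1 w2 r : ℝ) : det2 (x1, x2) (rayA (0, 0, 1) r (w1, w2)) =
    (-(1 / (2 * (1 + r ^ 4)) * (r * (x1 * w2 + x2 * w1))) : ℝ) := by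
  simp only [det2, rayA]; push_cast; ring

end O2

open O2

theorem RayData.rel (D : RayData) (p : ℂ × ℂ × ℂ) : D.al p * D.de p + D.ee p ^ 2 = 1 := by
  have h := det_const (D.sol p) (D.solh p) (right_mem_Icc.2 zero_le_one)
  simp only [det2] at h
  unfold RayData.al RayData.de RayData.ee
  linear_combination ((D.y p 1).1 * (D.yh p 1).2 - (D.y p 1).2 * (D.yh p 1).1 + 1) * h

theorem RayData.conj_symm (D : RayData) (p : ℂ × ℂ × ℂ) :
    D.al (conj p.1, conj p.2.1, conj p.2.2) = conj (D.al p) ∧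
    D.de (conj p.1, conj p.2.1, conj p.2.2) = conj (D.de p) ∧
    D.ee (conj p.1, conj p.2.1, conj p.2.2) = conj (D.ee p) := by
  obtain ⟨h1, h2⟩ := y_conj D p (right_mem_Icc.2 zero_le_one)
  unfold RayData.al RayData.de RayData.ee
  rw [h1, h2]
  simp

theorem RayData.signs (D : RayData) : ∃ a0 d0 e0 ab ag db dg : ℝ,
    0 < a0 ∧ 0 < d0 ∧ 0 < e0 ∧ 0 < ab ∧ ag < 0 ∧ 0 < db ∧ 0 < dg ∧
    D.al (1, 0, 0) = a0 ∧ D.de (1, 0, 0) = d0 ∧ D.ee (1, 0, 0) = e0 ∧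
    fderiv ℂ D.al (1, 0, 0) (0, 1, 0) = ab ∧ fderiv ℂ D.al (1, 0, 0) (0, 0, 1) = ag ∧
    fderiv ℂ D.de (1, 0, 0) (0, 1, 0) = db ∧ fderiv ℂ D.de (1, 0, 0) (0, 0, 1) = dg := by
  have z0 : (0 : ℝ) ∈ Icc (0 : ℝ) 1 := left_mem_Icc.2 zero_le_one
  have z1 : (1 : ℝ) ∈ Icc (0 : ℝ) 1 := right_mem_Icc.2 zero_le_one
  obtain ⟨a, ha⟩ : ∃ a : ℝ → ℝ, a = fun r => (D.y p0 r).1.re := ⟨_, rfl⟩
  obtain ⟨c, hc⟩ : ∃ c : ℝ → ℝ, c = fun r => (D.y p0 r).2.re := ⟨_, rfl⟩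
  obtain ⟨b, hb⟩ : ∃ b : ℝ → ℝ, b = fun r => (D.yh p0 r).1.re := ⟨_, rfl⟩
  obtain ⟨d, hd⟩ : ∃ d : ℝ → ℝ, d = fun r => (D.yh p0 r).2.re := ⟨_, rfl⟩
  have hreal : ∀ r ∈ Icc (0 : ℝ) 1, D.y p0 r = ((a r : ℂ), (c r : ℂ)) ∧
      D.yh p0 r = ((b r : ℂ), (d r : ℂ)) := by
    intro r hr
    obtain ⟨h1, h2⟩ := y_conj D p0 hr
    have e : (conj p0.1, conj p0.2.1, conj p0.2.2) = p0 := by simp [p0]
    rw [e, Prod.ext_iff] at h1 h2
    subst ha hb hc hd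
    exact ⟨Prod.ext (Complex.conj_eq_iff_re.1 h1.1.symm).symm
        (Complex.conj_eq_iff_re.1 h1.2.symm).symm,
      Prod.ext (Complex.conj_eq_iff_re.1 h2.1.symm).symm (Complex.conj_eq_iff_re.1 h2.2.symm).symm⟩
  have da : ∀ r ∈ Icc (0 : ℝ) 1, HasDerivWithinAt a (1 / (2 * (1 + r ^ 4)) * c r) (Icc 0 1) r :=
    fun r hr => by subst ha hc; exact (re_deriv (D.sol p0) hr).1
  have dc : ∀ r ∈ Icc (0 : ℝ) 1,
      HasDerivWithinAt c (-(r ^ 2 / (2 * (1 + r ^ 4)) * a r)) (Icc 0 1) r :=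
    fun r hr => by subst ha hc; exact (re_deriv (D.sol p0) hr).2
  have db : ∀ r ∈ Icc (0 : ℝ) 1, HasDerivWithinAt b (1 / (2 * (1 + r ^ 4)) * d r) (Icc 0 1) r :=
    fun r hr => by subst hb hd; exact (re_deriv (D.solh p0) hr).1
  have dd : ∀ r ∈ Icc (0 : ℝ) 1,
      HasDerivWithinAt d (-(r ^ 2 / (2 * (1 + r ^ 4)) * b r)) (Icc 0 1) r :=
    fun r hr => by subst hb hd; exact (re_deriv (D.solh p0) hr).2
  have b0 : b 0 = 0 := by rw [hb]; simp [(D.solh p0).1]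
  have B1 := pair_bounds da dc (fun r _ => ⟨k1.1.le, k1.2⟩) (fun r _ => k2)
    (by rw [ha]; simp [(D.sol p0).1]) (by rw [hc]; simp [(D.sol p0).1])
  have B2 := pair_bounds (u := d) (v := fun r => -b r) (α := fun r => r ^ 2 / (2 * (1 + r ^ 4)))
    (fun r hr => by rw [mul_neg]; exact dd r hr) (fun r hr => (db r hr).neg)
    (fun r _ => k2) (fun r _ => ⟨k1.1.le, k1.2⟩) (by rw [hd]; simp [(D.solh p0).1])
    (by simp [b0])
  have b1 : 0 < b 1 := by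
    rw [← b0]
    exact smono db (fun r hr => mul_pos k1.1 (by linarith [(B2 r hr).1])) z0 z1 zero_lt_one
  have hdet : a 1 * d 1 - c 1 * b 1 = 1 := by
    have h := det_const (D.sol p0) (D.solh p0) z1
    rw [(hreal 1 z1).1, (hreal 1 z1).2] at h
    simp only [det2] at h
    have : ((a 1 * d 1 - c 1 * b 1 : ℝ) : ℂ) = (1 : ℝ) := by push_cast; linear_combination h
    exact_mod_cast this
  obtain ⟨al, hal⟩ : ∃ x : ℝ, x = d 1 ^ 2 - b 1 ^ 2 := ⟨_, rfl⟩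
  obtain ⟨de, hde⟩ : ∃ x : ℝ, x = a 1 ^ 2 - c 1 ^ 2 := ⟨_, rfl⟩
  obtain ⟨ee, hee⟩ : ∃ x : ℝ, x = a 1 * b 1 - c 1 * d 1 := ⟨_, rfl⟩
  have alp : 0 < al := by
    obtain ⟨h1, h2, h3⟩ := B2 1 z1
    rw [hal]; nlinarith
  have dep : 0 < de := by
    obtain ⟨h1, h2, h3⟩ := B1 1 z1
    rw [hde]; nlinarith
  have eep : 0 < ee := by
    obtain ⟨h1, h2, h3⟩ := B1 1 z1
    have h4 := (B2 1 z1).1
    rw [hee]; nlinarith
  have set := sol_lin (D.sol p0) (D.solh p0) (-ee : ℝ) (de : ℝ)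
  have sxi := sol_lin (D.sol p0) (D.solh p0) (al : ℝ) (ee : ℝ)
  have lin : ∀ (x y : ℝ), ∀ r ∈ Icc (0 : ℝ) 1, (x : ℂ) • D.y p0 r + (y : ℂ) • D.yh p0 r =
      (((x * a r + y * b r : ℝ) : ℂ), ((x * c r + y * d r : ℝ) : ℂ)) := by
    intro x y r hr
    rw [(hreal r hr).1, (hreal r hr).2]
    ext <;> simp
  have et1 : -ee * a 1 + de * b 1 = c 1 := by rw [hee, hde]; linear_combination c 1 * hdet
  have et2 : -ee * c 1 + de * d 1 = a 1 := by rw [hee, hde]; linear_combination a 1 * hdet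
  have xi1 : al * a 1 + ee * b 1 = d 1 := by rw [hee, hal]; linear_combination d 1 * hdet
  have xi2 : al * c 1 + ee * d 1 = b 1 := by rw [hee, hal]; linear_combination b 1 * hdet
  have het : ((-ee : ℝ) : ℂ) • D.y p0 1 + (de : ℂ) • D.yh p0 1 = ((D.y p0 1).2, (D.y p0 1).1) := by
    rw [lin _ _ 1 z1, et1, et2, (hreal 1 z1).1]
  have hxi : (al : ℂ) • D.y p0 1 + (ee : ℂ) • D.yh p0 1 = ((D.yh p0 1).2, (D.yh p0 1).1) := by
    rw [lin _ _ 1 z1, xi1, xi2, (hreal 1 z1).2]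
  have P2 : ∀ r ∈ Icc (0 : ℝ) 1, 0 < -ee * c r + de * d r := fun r hr => by
    have h1 := mul_nonneg eep.le (neg_nonneg.2 (B1 r hr).2.2)
    have h2 := mul_pos dep (show 0 < d r by linarith [(B2 r hr).1])
    linarith
  have P1 : ∀ r ∈ Ioo (0 : ℝ) 1, -ee * a r + de * b r < 0 := fun r hr => by
    have h1 := smono (f := fun r => -ee * a r + de * b r)
      (fun r hr => ((da r hr).const_mul (-ee)).add ((db r hr).const_mul de))
      (fun r hr => by have := mul_pos (k1 (r := r)).1 (P2 r hr); linarith)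
      (Ioo_subset_Icc_self hr) z1 hr.2
    have h2 := (B1 1 z1).2.2
    simp only [et1] at h1
    linarith
  have Q1 : ∀ r ∈ Icc (0 : ℝ) 1, 0 < al * a r + ee * b r := fun r hr => by
    have h1 := mul_nonneg eep.le (neg_nonpos.1 (B2 r hr).2.2)
    have h2 := mul_pos alp (show 0 < a r by linarith [(B1 r hr).1])
    linarith
  have Q2 : ∀ r ∈ Icc (0 : ℝ) 1, 0 < al * c r + ee * d r := fun r hr => by
    have h1 := anti (f := fun r => al * c r + ee * d r)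
      (fun r hr => ((dc r hr).const_mul al).add ((dd r hr).const_mul ee))
      (fun r hr => by have := mul_nonneg (k2 (r := r)).1 (Q1 r hr).le; linarith) hr z1 hr.2
    simp only [xi2] at h1
    linarith
  obtain ⟨J1, p1, q1, -⟩ := var_real (e := (0, 1, 0)) (by simp) sxi D.solh D.cdh hxi (s := 1)
    (fun r hr => by rw [lin _ _ r hr, (hreal r hr).2, det_b]) (fun r hr => by
      have hr' := Ioo_subset_Icc_self hr
      have h1 := mul_nonneg (Q1 r hr').le (neg_nonpos.1 (B2 r hr').2.2)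
      have h2 := mul_pos (pow_pos hr.1 2)
        (mul_pos (Q2 r hr') (show 0 < d r by linarith [(B2 r hr').1]))
      rw [one_mul]
      exact mul_pos k1.1 (by linarith))
  obtain ⟨J2, p2, q2, -⟩ := var_real (e := (0, 0, 1)) (by simp) sxi D.solh D.cdh hxi (s := -1)
    (fun r hr => by rw [lin _ _ r hr, (hreal r hr).2, det_g]) (fun r hr => by
      have hr' := Ioo_subset_Icc_self hr
      have h1 := mul_nonneg (Q2 r hr').le (neg_nonpos.1 (B2 r hr').2.2)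
      have h2 := mul_pos (Q1 r hr') (show 0 < d r by linarith [(B2 r hr').1])
      rw [neg_mul_neg, one_mul]
      exact mul_pos k1.1 (mul_pos hr.1 (by linarith)))
  obtain ⟨J3, p3, -, q3⟩ := var_real (e := (0, 1, 0)) (by simp) set D.sol D.cd het (s := -1)
    (fun r hr => by rw [lin _ _ r hr, (hreal r hr).1, det_b]) (fun r hr => by
      have hr' := Ioo_subset_Icc_self hr
      have h1 := mul_nonneg (sq_nonneg r) (mul_nonneg (P2 r hr').le (neg_nonneg.2 (B1 r hr').2.2))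
      have h2 := mul_pos (neg_pos.2 (P1 r hr)) (show 0 < a r by linarith [(B1 r hr').1])
      rw [neg_one_mul, ← mul_neg]
      exact mul_pos k1.1 (by linarith))
  obtain ⟨J4, p4, -, q4⟩ := var_real (e := (0, 0, 1)) (by simp) set D.sol D.cd het (s := -1)
    (fun r hr => by rw [lin _ _ r hr, (hreal r hr).1, det_g]) (fun r hr => by
      have hr' := Ioo_subset_Icc_self hr
      have h1 := mul_nonneg (neg_nonneg.2 (P1 r hr).le) (neg_nonneg.2 (B1 r hr').2.2)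
      have h2 := mul_pos (P2 r hr') (show 0 < a r by linarith [(B1 r hr').1])
      rw [neg_mul_neg, one_mul]
      exact mul_pos k1.1 (mul_pos hr.1 (by linarith)))
  refine ⟨al, de, ee, 2 * J1, 2 * J2, -(2 * J3), -(2 * J4), alp, dep, eep, by linarith, by linarith,
    by linarith, by linarith, ?_, ?_, ?_, q1, q2, q3, q4⟩
  · change (D.yh p0 1).2 ^ 2 - (D.yh p0 1).1 ^ 2 = _
    rw [(hreal 1 z1).2, hal]; simp
  · change (D.y p0 1).1 ^ 2 - (D.y p0 1).2 ^ 2 = _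
    rw [(hreal 1 z1).1, hde]; simp
  · change (D.y p0 1).1 * (D.yh p0 1).1 - (D.y p0 1).2 * (D.yh p0 1).2 = _
    rw [(hreal 1 z1).1, (hreal 1 z1).2, hee]; simp

end A590
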