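import Pool.Agent.Lib.A590Ode0

/-!
Block O3 of MP_a590e5_an: a holomorphic family of systems, unitary for real parameters and with
two independent loxodromic monodromies at an imaginary parameter.
-/

open scoped ComplexConjugate ComplexOrder ContDiff Topology InnerProductSpace
open MeasureTheory Filter

noncomputable section

namespace A590

namespace O3

/-- the combination of two solutions with coefficients `s` -/
def cmb (Φ1 Φ2 : ℂ → ℂ × ℂ) (s : ℂ × ℂ) (x : ℂ) : ℂ × ℂ := s.1 • Φ1 x + s.2 • Φ2 x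

theorem isSol_cmb {c d u x : ℂ} {Φ1 Φ2 : ℂ → ℂ × ℂ} (h1 : IsSol c d u Φ1 x)
    (h2 : IsSol c d u Φ2 x) (s : ℂ × ℂ) : IsSol c d u (cmb Φ1 Φ2 s) x := by
  have := (h1.const_smul s.1).add (h2.const_smul s.2)
  refine HasDerivAt.congr_deriv this ?_
  ext
  · simp only [Mx, N1, cmb, Prod.fst_add, Prod.snd_add, Prod.smul_fst, Prod.smul_snd, smul_eq_mul]
    ring
  · simp only [Mx, N2, cmb, Prod.fst_add, Prod.snd_add, Prod.smul_fst, Prod.smul_snd, smul_eq_mul]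
    ring

theorem det2_cmb (Φ1 Φ2 : ℂ → ℂ × ℂ) (s s' : ℂ × ℂ) (x : ℂ) :
    det2 (cmb Φ1 Φ2 s x) (cmb Φ1 Φ2 s' x) = det2 s s' * det2 (Φ1 x) (Φ2 x) := by
  simp only [det2, cmb, Prod.fst_add, Prod.snd_add, Prod.smul_fst, Prod.smul_snd, smul_eq_mul]
  ring

theorem det2_comb (a b : ℂ) (p q v : ℂ × ℂ) :
    det2 (a • p + b • q) v = a * det2 p v + b * det2 q v := by
  simp only [det2, Prod.fst_add, Prod.snd_add, Prod.smul_fst, Prod.smul_snd, smul_eq_mul]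
  ring

theorem mul_conj_of_pow {w : ℂ} (hw : w ^ 4 = -1) : w * conj w = 1 := by
  have h1 : ‖w‖ ^ 4 = 1 := by rw [← norm_pow, hw]; simp
  have h2 : ‖w‖ = 1 := (pow_eq_one_iff_of_nonneg (norm_nonneg _) (by norm_num)).1 h1
  rw [Complex.mul_conj, Complex.normSq_eq_norm_sq, h2]
  simp

theorem pow_four {w σ : ℂ} (hσ : σ = 1 ∨ σ = -1) (hw : w ^ 2 = σ * Complex.I) : w ^ 4 = -1 := by
  have : w ^ 4 = (w ^ 2) ^ 2 := by ring
  rw [this, hw, mul_pow, Complex.I_sq]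
  rcases hσ with rfl | rfl <;> norm_num

theorem isOpen_Quad (w : ℂ) : IsOpen (Quad w) :=
  isOpen_lt (by fun_prop) (by fun_prop)

theorem self_mem_Quad {w : ℂ} (hw : w ^ 4 = -1) : w ∈ Quad w := by
  change |(w * conj w).im| < (w * conj w).re
  rw [mul_conj_of_pow hw]
  simp

/-- the transition matrices preserve a diagonal Hermitian form -/
theorem form_eq {al de ee lam : ℝ} {om A B : ℂ} (h1 : al * de + ee ^ 2 = 1) (h2 : lam * de = al)
    (hom : om * conj om = 1) :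
    ‖(al : ℂ) * A + ee * om * B‖ ^ 2 + lam * ‖-(ee : ℂ) * conj om * A + de * B‖ ^ 2 =
      lam * ‖A‖ ^ 2 + ‖B‖ ^ 2 := by
  have h1' : (al : ℂ) * de + ee ^ 2 = 1 := by exact_mod_cast h1
  have h2' : (lam : ℂ) * de = al := by exact_mod_cast h2
  apply Complex.ofReal_injective
  push_cast
  simp only [← Complex.mul_conj', map_add, map_mul, map_neg, Complex.conj_ofReal,
    Complex.conj_conj]
  rw [← h2'] at h1' ⊢
  linear_combination (lam * A * conj A + B * conj B) * h1' +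
    (ee ^ 2 * B * conj B + lam * ee ^ 2 * A * conj A) * hom

theorem unitary {D : RayData} (hrel : ∀ p, D.al p * D.de p + D.ee p ^ 2 = 1) {c d u : ℂ}
    (hM : D.Mono c d u) {lam : ℝ} (hl : 0 < lam)
    (h : ∀ σ : ℂ, (σ = 1 ∨ σ = -1) → ∃ al de ee : ℝ, lam * de = al ∧
      D.al (c + d * u, -σ * Complex.I * (d + c * u), -σ * Complex.I * u) = al ∧
      D.de (c + d * u, -σ * Complex.I * (d + c * u), -σ * Complex.I * u) = de ∧
      D.ee (c + d * u, -σ * Complex.I * (d + c * u), -σ * Complex.I * u) = ee) :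
    Unitary c d u := by
  classical
  obtain ⟨Φ1, Φ2, Ψ1, Ψ2, hp, hm, hq⟩ := hM
  have hs : ‖((√lam : ℝ) : ℂ)‖ = √lam := by
    rw [Complex.norm_real, Real.norm_of_nonneg (Real.sqrt_nonneg _)]
  have hs2 : √lam ^ 2 = lam := Real.sq_sqrt hl.le
  refine ⟨fun x v => if x ∈ Sp then lam * ‖det2 (Φ1 x) v‖ ^ 2 + ‖det2 (Φ2 x) v‖ ^ 2
    else ‖det2 (Ψ1 x) v‖ ^ 2 + lam * ‖det2 (Ψ2 x) v‖ ^ 2, √lam, Real.sqrt_pos.2 hl,
    fun x0 hx0 => ?_⟩
  rcases mem_Sp_or_Sm hx0 with h0 | h0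
  · refine ⟨cmb Φ1 Φ2 (√lam, 0), cmb Φ1 Φ2 (0, 1), ?_⟩
    filter_upwards [isOpen_Sp.mem_nhds h0] with x hx
    obtain ⟨a1, a2, a3⟩ := hp x hx
    refine ⟨isSol_cmb a1 a2 _, isSol_cmb a1 a2 _, ?_, fun v => ?_⟩
    · rw [det2_cmb, a3]
      simp [det2, Real.sqrt_nonneg, abs_of_nonneg]
    · simp only [if_pos hx, cmb, det2_comb, zero_mul, add_zero, zero_add, one_mul, norm_mul, hs,
        mul_pow, hs2]
  · refine ⟨cmb Ψ1 Ψ2 (1, 0), cmb Ψ1 Ψ2 (0, √lam), ?_⟩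
    filter_upwards [isOpen_Sm.mem_nhds h0] with x hx
    obtain ⟨a1, a2, a3⟩ := hm x hx
    refine ⟨isSol_cmb a1 a2 _, isSol_cmb a1 a2 _, ?_, fun v => ?_⟩
    · rw [det2_cmb, a3]
      simp [det2, Real.sqrt_nonneg, abs_of_nonneg]
    · simp only [cmb, det2_comb, zero_mul, add_zero, zero_add, one_mul, norm_mul, hs,
        mul_pow, hs2]
      split_ifs with hx'
      · obtain ⟨w, σ, hσ, hw, hxw⟩ := exists_Quad ⟨hx', hx⟩
        obtain ⟨al, de, ee, e0, e1, e2, e3⟩ := h σ hσ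
        obtain ⟨q1, q2⟩ := hq w σ hσ hw x hxw
        have hr := hrel (c + d * u, -σ * Complex.I * (d + c * u), -σ * Complex.I * u)
        rw [e1, e2, e3] at hr
        rw [e1, e3] at q1
        rw [e2, e3] at q2
        rw [q1, q2, det2_comb, det2_comb, ← map_pow]
        refine (form_eq (by exact_mod_cast hr) e0 ?_).symm
        rw [map_pow, ← mul_pow, mul_conj_of_pow (pow_four hσ hw), one_pow]
      · rfl

/-- the eigen-solutions of the monodromy around two of the four singular points -/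
theorem lox {c d u : ℂ} {Φ1 Φ2 Ψ1 Ψ2 : ℂ → ℂ × ℂ}
    (hp : ∀ x ∈ Sp, IsSol c d u Φ1 x ∧ IsSol c d u Φ2 x ∧ det2 (Φ1 x) (Φ2 x) = 1)
    (hm : ∀ x ∈ Sm, IsSol c d u Ψ1 x ∧ IsSol c d u Ψ2 x ∧ det2 (Ψ1 x) (Ψ2 x) = 1)
    {w al de ee : ℂ} (hw : w ^ 4 = -1) (hr : al * de + ee ^ 2 = 1) (ha : al ≠ 0)
    (he : ee ≠ 0) (him : (al * de).im ≠ 0)
    (hq : ∀ w' : ℂ, w' = w ∨ w' = -w → ∀ x ∈ Quad w', Ψ1 x = al • Φ1 x + (ee * w' ^ 3) • Φ2 x ∧
      Ψ2 x = (-ee * conj w' ^ 3) • Φ1 x + de • Φ2 x) :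
    ∃ s s' : ℂ × ℂ, Lox c d u (cmb Φ1 Φ2 s) (cmb Φ1 Φ2 s') ∧ s.1 ≠ 0 ∧ s'.1 ≠ 0 ∧
      al * s.2 ^ 2 = de * w ^ 2 * s.1 ^ 2 ∧ al * s'.2 ^ 2 = de * w ^ 2 * s'.1 ^ 2 := by
  have hc := mul_conj_of_pow hw
  have hw' : (-w) ^ 4 = -1 := by rw [← hw]; ring
  have hcw : conj w ≠ 0 := right_ne_zero_of_mul_eq_one hc
  obtain ⟨μ, hμ, hlt⟩ : ∃ μ : ℂ, μ ^ 2 = -4 * al * de * ee ^ 2 ∧
      ‖2 * al * de - 1 + μ‖ < ‖2 * al * de - 1 - μ‖ := by
    obtain ⟨μ, hμ⟩ := IsAlgClosed.exists_pow_nat_eq (-4 * al * de * ee ^ 2) two_pos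
    rcases lt_trichotomy ‖2 * al * de - 1 + μ‖ ‖2 * al * de - 1 - μ‖ with h | h | h
    · exact ⟨μ, hμ, h⟩
    · exfalso
      have h1 : (2 * al * de - 1 + μ) * (2 * al * de - 1 - μ) = 1 := by
        linear_combination -hμ + 4 * al * de * hr
      have h2 := congrArg norm h1
      rw [norm_mul, ← h, norm_one] at h2
      have h3 : (2 * al * de - 1 + μ) * conj (2 * al * de - 1 + μ) = 1 := by
        rw [Complex.mul_conj', sq]
        exact_mod_cast h2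
      have h4 : 2 * al * de - 1 - μ = conj (2 * al * de - 1 + μ) :=
        mul_left_cancel₀ (left_ne_zero_of_mul_eq_one h1) (h1.trans h3.symm)
      have h5 := congrArg Complex.im h4
      rw [Complex.conj_im, mul_assoc] at h5
      apply him
      simp only [Complex.sub_im, Complex.add_im, Complex.one_im, Complex.mul_im 2,
        Complex.re_ofNat, Complex.im_ofNat] at h5
      linarith
    · exact ⟨-μ, by rw [← hμ]; ring, by rwa [← sub_eq_add_neg, sub_neg_eq_add]⟩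
  have hμ0 : μ ≠ 0 := by
    rintro rfl
    simp at hlt
  have hk : -2 * al * ee * conj w ^ 3 ≠ 0 := by simp [ha, he, hcw]
  have hc3 : w ^ 3 * conj w ^ 3 = 1 := by rw [← mul_pow, hc, one_pow]
  have hrel : al * μ ^ 2 = de * w ^ 2 * (-2 * al * ee * conj w ^ 3) ^ 2 := by
    have h1 : w ^ 2 * conj w ^ 6 = -1 := by
      have h2 : conj w ^ 4 = -1 := by rw [← map_pow, hw]; simp
      linear_combination (conj w ^ 4 * (w * conj w + 1)) * hc + h2
    linear_combination al * hμ - 4 * de * al ^ 2 * ee ^ 2 * h1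
  set k := -2 * al * ee * conj w ^ 3 with hkd
  have hdet : det2 (k, μ) (k, -μ) ≠ 0 := by
    have : det2 (k, μ) (k, -μ) = -2 * (k * μ) := by simp only [det2]; ring
    rw [this]
    exact mul_ne_zero (by norm_num) (mul_ne_zero hk hμ0)
  refine ⟨(k, μ), (k, -μ), ⟨fun x hx => ?_,
    cmb Ψ1 Ψ2 (de * k - ee * conj w ^ 3 * μ, ee * w ^ 3 * k + al * μ),
    cmb Ψ1 Ψ2 (de * k + ee * conj w ^ 3 * μ, ee * w ^ 3 * k - al * μ), fun x hx => ?_,
    ⟨-w, Quad_subset hw' (self_mem_Quad hw'), ?_⟩, w, Quad_subset hw (self_mem_Quad hw),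
    _, _, hlt, ?_⟩, hk, hk, hrel, by rw [← hrel]; ring⟩
  · obtain ⟨a1, a2, a3⟩ := hp x hx
    exact ⟨isSol_cmb a1 a2 _, isSol_cmb a1 a2 _, by rw [det2_cmb, a3, mul_one]; exact hdet⟩
  · obtain ⟨a1, a2, a3⟩ := hm x hx
    refine ⟨isSol_cmb a1 a2 _, isSol_cmb a1 a2 _, ?_⟩
    rw [det2_cmb, a3, mul_one]
    convert hdet using 1
    simp only [det2]
    linear_combination (-2 * k * μ) * hr - 2 * k * μ * ee ^ 2 * hc3
  · filter_upwards [(isOpen_Quad _).mem_nhds (self_mem_Quad hw')] with x hx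
    obtain ⟨q1, q2⟩ := hq _ (Or.inr rfl) x hx
    simp only [cmb, q1, q2, map_neg, smul_add, smul_smul]
    constructor
    · rw [add_add_add_comm, ← add_smul, ← add_smul]
      congr 2
      · linear_combination k * hr + k * ee ^ 2 * hc3
      · linear_combination μ * hr + μ * ee ^ 2 * hc3
    · rw [add_add_add_comm, ← add_smul, ← add_smul]
      congr 2
      · linear_combination k * hr + k * ee ^ 2 * hc3
      · linear_combination -μ * hr - μ * ee ^ 2 * hc3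
  · filter_upwards [(isOpen_Quad _).mem_nhds (self_mem_Quad hw)] with x hx
    obtain ⟨q1, q2⟩ := hq _ (Or.inl rfl) x hx
    simp only [cmb, q1, q2, smul_add, smul_smul]
    constructor
    · rw [add_add_add_comm, ← add_smul, ← add_smul]
      congr 2
      · rw [hkd]
        linear_combination 2 * al * ee * conj w ^ 3 * hr + 2 * al * ee ^ 3 * conj w ^ 3 * hc3
      · rw [hkd]
        linear_combination -μ * hr - hμ - (4 * al * de * ee ^ 2 + ee ^ 2 * μ) * hc3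
    · rw [add_add_add_comm, ← add_smul, ← add_smul]
      congr 2
      · rw [hkd]
        linear_combination 2 * al * ee * conj w ^ 3 * hr + 2 * al * ee ^ 3 * conj w ^ 3 * hc3
      · rw [hkd]
        linear_combination μ * hr - hμ - (4 * al * de * ee ^ 2 - ee ^ 2 * μ) * hc3

theorem noInv {D : RayData} (hrel : ∀ p, D.al p * D.de p + D.ee p ^ 2 = 1) {c d u : ℂ}
    (hM : D.Mono c d u) {p p' : ℂ × ℂ × ℂ}
    (hp : (c + d * u, -1 * Complex.I * (d + c * u), -1 * Complex.I * u) = p)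
    (hp' : (c + d * u, - -1 * Complex.I * (d + c * u), - -1 * Complex.I * u) = p')
    (ha : D.al p ≠ 0) (he : D.ee p ≠ 0) (hi : (D.al p * D.de p).im ≠ 0)
    (ha' : D.al p' ≠ 0) (hd' : D.de p' ≠ 0) (he' : D.ee p' ≠ 0)
    (hi' : (D.al p' * D.de p').im ≠ 0) (hJ : D.al p * D.de p' = D.al p' * D.de p) :
    NoInv c d u := by
  obtain ⟨Φ1, Φ2, Ψ1, Ψ2, h1, h2, hq⟩ := hM
  obtain ⟨w, hw⟩ := IsAlgClosed.exists_pow_nat_eq Complex.I two_pos
  have hw1 : w ^ 2 = 1 * Complex.I := by rw [hw, one_mul]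
  have hw2 : (Complex.I * w) ^ 2 = -1 * Complex.I := by rw [mul_pow, hw, Complex.I_sq]
  obtain ⟨s, s', l1, a1, a2, a3, a4⟩ := lox h1 h2 (pow_four (Or.inl rfl) hw1) (hrel p) ha he hi
    fun w' hw' x hx => by
      rw [← hp]
      exact hq w' 1 (Or.inl rfl) (by rcases hw' with rfl | rfl <;> simp [hw]) x hx
  obtain ⟨r, r', l2, b1, b2, b3, b4⟩ := lox h1 h2 (pow_four (Or.inr rfl) hw2) (hrel p') ha'
    he' hi' fun w' hw' x hx => by
      rw [← hp']
      exact hq w' (-1) (Or.inr rfl) (by rcases hw' with rfl | rfl <;> simp [hw2]) x hx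
  rw [hw] at a3 a4
  rw [hw2] at b3 b4
  have key : ∀ s r : ℂ × ℂ, s.1 ≠ 0 → r.1 ≠ 0 → D.al p * s.2 ^ 2 = D.de p * Complex.I * s.1 ^ 2 →
      D.al p' * r.2 ^ 2 = D.de p' * (-1 * Complex.I) * r.1 ^ 2 → det2 s r ≠ 0 := by
    intro s r e1 e2 e3 e4 e5
    have e6 : 2 * D.al p * D.de p' * Complex.I * s.1 ^ 2 * r.1 ^ 2 = 0 := by
      simp only [det2] at e5
      linear_combination Complex.I * s.1 ^ 2 * r.1 ^ 2 * hJ - D.al p' * r.1 ^ 2 * e3 +
        D.al p * s.1 ^ 2 * e4 - D.al p * D.al p' * (s.1 * r.2 + s.2 * r.1) * e5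
    simp [ha, hd', e1, e2] at e6
  refine ⟨_, _, _, _, l1, l2, fun x hx => ?_⟩
  simp only [det2_cmb, (h1 x hx).2.2, mul_one]
  exact ⟨key _ _ a1 b1 a3 b3, key _ _ a1 b2 a3 b4, key _ _ a2 b1 a4 b3, key _ _ a2 b2 a4 b4⟩

/-- the ray parameters along the family -/
def Pp (w : ℂ × ℂ) : ℂ × ℂ × ℂ :=
  (Complex.cos w.1 - w.2 * Complex.sin w.1, Complex.sin w.1 + w.2 * Complex.cos w.1, w.2)

theorem Pp_zero : Pp 0 = (1, 0, 0) := by simp [Pp]

theorem contDiff_Pp : ContDiff ℂ 1 Pp := by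
  unfold Pp
  fun_prop

theorem Pp_conj (w : ℂ × ℂ) :
    Pp (conj w.1, conj w.2) = (conj (Pp w).1, conj (Pp w).2.1, conj (Pp w).2.2) := by
  simp [Pp, Complex.cos_conj, Complex.sin_conj]

theorem hasDerivAt_Pp (v : ℂ × ℂ) : HasDerivAt (fun t : ℂ => Pp (t • v)) (0, v.1 + v.2, v.2) 0 := by
  have h1 : HasDerivAt (fun t : ℂ => t * v.1) v.1 0 := by
    simpa using (hasDerivAt_id (0 : ℂ)).mul_const v.1
  have h2 : HasDerivAt (fun t : ℂ => t * v.2) v.2 0 := by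
    simpa using (hasDerivAt_id (0 : ℂ)).mul_const v.2
  have := (h1.ccos.sub (h2.mul h1.csin)).prodMk ((h1.csin.add (h2.mul h1.ccos)).prodMk h2)
  refine HasDerivAt.congr_deriv this ?_
  simp

theorem fderiv_Pp (v : ℂ × ℂ) : fderiv ℂ Pp 0 v = (0, v.1 + v.2, v.2) := by
  have h1 : HasDerivAt (fun t : ℂ => t • v) v 0 := by
    simpa using (hasDerivAt_id (0 : ℂ)).smul_const v
  have h2 : HasFDerivAt Pp (fderiv ℂ Pp 0) ((0 : ℂ) • v) := by
    rw [zero_smul]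
    exact (contDiff_Pp.differentiable one_ne_zero 0).hasFDerivAt
  have h3 := HasFDerivAt.comp_hasDerivAt (f := fun t : ℂ => t • v) 0 h2 h1
  exact h3.unique (hasDerivAt_Pp v)

theorem fderiv_comp_Pp {g : ℂ × ℂ × ℂ → ℂ} (hg : ContDiff ℂ 1 g) {b c : ℂ}
    (hb : fderiv ℂ g (1, 0, 0) (0, 1, 0) = b) (hc : fderiv ℂ g (1, 0, 0) (0, 0, 1) = c) :
    HasFDerivAt (fun w => g (Pp w))
      (b • ContinuousLinearMap.fst ℂ ℂ ℂ + (b + c) • ContinuousLinearMap.snd ℂ ℂ ℂ) 0 := by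
  have h1 := (hg.differentiable one_ne_zero (Pp 0)).hasFDerivAt.comp 0
    (contDiff_Pp.differentiable one_ne_zero 0).hasFDerivAt
  refine HasFDerivAt.congr_fderiv h1 (ContinuousLinearMap.ext fun v => ?_)
  have h2 : ((0, v.1 + v.2, v.2) : ℂ × ℂ × ℂ) =
      (v.1 + v.2) • ((0, 1, 0) : ℂ × ℂ × ℂ) + v.2 • ((0, 0, 1) : ℂ × ℂ × ℂ) := by simp
  rw [ContinuousLinearMap.comp_apply, fderiv_Pp, Pp_zero, h2, map_add, map_smul, map_smul, hb, hc]
  simp
  ring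

/-- an invertible two by two matrix as an equivalence -/
theorem exists_equiv {a b c d : ℂ} (h : a * d - b * c ≠ 0) : ∃ L : (ℂ × ℂ) ≃L[ℂ] (ℂ × ℂ),
    (L : (ℂ × ℂ) →L[ℂ] (ℂ × ℂ)) =
      (a • ContinuousLinearMap.fst ℂ ℂ ℂ + b • ContinuousLinearMap.snd ℂ ℂ ℂ).prod
      (c • ContinuousLinearMap.fst ℂ ℂ ℂ + d • ContinuousLinearMap.snd ℂ ℂ ℂ) := by
  obtain ⟨k, hk⟩ : ∃ k, k * (a * d - b * c) = 1 := ⟨_, inv_mul_cancel₀ h⟩
  refine ⟨ContinuousLinearEquiv.equivOfInverse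
    ((a • ContinuousLinearMap.fst ℂ ℂ ℂ + b • ContinuousLinearMap.snd ℂ ℂ ℂ).prod
      (c • ContinuousLinearMap.fst ℂ ℂ ℂ + d • ContinuousLinearMap.snd ℂ ℂ ℂ))
    (((k * d) • ContinuousLinearMap.fst ℂ ℂ ℂ + (-(k * b)) • ContinuousLinearMap.snd ℂ ℂ ℂ).prod
      ((-(k * c)) • ContinuousLinearMap.fst ℂ ℂ ℂ + (k * a) • ContinuousLinearMap.snd ℂ ℂ ℂ))
    (fun v => ?_) (fun v => ?_), rfl⟩
  · ext <;> simp
    · linear_combination v.1 * hk
    · linear_combination v.2 * hk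
  · ext <;> simp
    · linear_combination v.1 * hk
    · linear_combination v.2 * hk

/-- the curve `J = 0` parametrized by the product -/
theorem exists_curve {a δ : ℂ × ℂ → ℂ} (ha : ContDiff ℂ 1 a) (hδ : ContDiff ℂ 1 δ)
    {a0 d0 a1 a2 d1 d2 : ℂ} (h0 : a 0 = a0) (h0' : δ 0 = d0)
    (h1 : HasFDerivAt a
      (a1 • ContinuousLinearMap.fst ℂ ℂ ℂ + a2 • ContinuousLinearMap.snd ℂ ℂ ℂ) 0)
    (h2 : HasFDerivAt δ
      (d1 • ContinuousLinearMap.fst ℂ ℂ ℂ + d2 • ContinuousLinearMap.snd ℂ ℂ ℂ) 0)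
    (hn : a0 * d0 * (a1 * d2 - a2 * d1) ≠ 0)
    (hca : ∀ w : ℂ × ℂ, a (conj w.1, conj w.2) = conj (a w))
    (hcd : ∀ w : ℂ × ℂ, δ (conj w.1, conj w.2) = conj (δ w)) (hr : conj (a0 * d0) = a0 * d0) :
    ∃ w : ℂ → ℂ × ℂ, w 0 = 0 ∧ HasDerivAt (fun t => a (-w t) * δ (-w t)) (-1) 0 ∧
      ∀ᶠ t in 𝓝 (0 : ℂ), DifferentiableAt ℂ w t ∧ a (w t) * δ (-w t) = a (-w t) * δ (w t) ∧
        a (w t) * δ (w t) = a0 * d0 + t ∧ (conj t = t → (conj (w t).1, conj (w t).2) = w t) := by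
  set G : ℂ × ℂ → ℂ × ℂ := fun w => (a w * δ (-w) - a (-w) * δ w, a w * δ w) with hG
  have hGc : ContDiff ℂ 1 G := by
    simp only [hG]
    fun_prop
  have hG0 : G 0 = (0, a0 * d0) := by simp [hG, h0, h0']
  obtain ⟨L, hL⟩ := exists_equiv (a := 2 * (d0 * a1 - a0 * d1)) (b := 2 * (d0 * a2 - a0 * d2))
    (c := d0 * a1 + a0 * d1) (d := d0 * a2 + a0 * d2) (by
      intro h
      apply hn
      linear_combination h / 4)
  have hneg : HasFDerivAt (fun w : ℂ × ℂ => -w) (-ContinuousLinearMap.id ℂ (ℂ × ℂ)) 0 :=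
    (hasFDerivAt_id (0 : ℂ × ℂ)).neg
  have h1' := (neg_zero (G := ℂ × ℂ) ▸ h1 : HasFDerivAt a _ (-0)).comp 0 hneg
  have h2' := (neg_zero (G := ℂ × ℂ) ▸ h2 : HasFDerivAt δ _ (-0)).comp 0 hneg
  have hPi : HasFDerivAt (fun w => a w * δ w)
      ((d0 * a1 + a0 * d1) • ContinuousLinearMap.fst ℂ ℂ ℂ +
        (d0 * a2 + a0 * d2) • ContinuousLinearMap.snd ℂ ℂ ℂ) 0 := by
    refine HasFDerivAt.congr_fderiv (h1.mul h2) (ContinuousLinearMap.ext fun v => ?_)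
    simp [h0, h0']
    ring
  have hGd : HasFDerivAt G (L : (ℂ × ℂ) →L[ℂ] (ℂ × ℂ)) 0 := by
    rw [hL]
    refine HasFDerivAt.prodMk ?_ hPi
    refine HasFDerivAt.congr_fderiv ((h1.mul h2').sub (h1'.mul h2))
      (ContinuousLinearMap.ext fun v => ?_)
    simp [h0, h0']
    ring
  have hcd' := hGc.contDiffAt (x := 0)
  have hs := hcd'.hasStrictFDerivAt' hGd one_ne_zero
  set h := hcd'.localInverse hGd one_ne_zero with hh
  have hi1 : ContDiffAt ℂ 1 h (G 0) := hcd'.to_localInverse hGd one_ne_zero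
  have hi2 : ∀ᶠ y in 𝓝 (G 0), G (h y) = y := hs.eventually_right_inverse
  have hi3 : ∀ᶠ x in 𝓝 (0 : ℂ × ℂ), h (G x) = x := hs.eventually_left_inverse
  have hi4 : HasFDerivAt h (L.symm : (ℂ × ℂ) →L[ℂ] (ℂ × ℂ)) (G 0) :=
    hs.to_localInverse.hasFDerivAt
  set ι : ℂ → ℂ × ℂ := fun t => (0, a0 * d0 + t) with hι
  have hι0 : ι 0 = G 0 := by simp [hι, hG0]
  have hιd : ∀ t, HasDerivAt ι (0, 1) t := fun t =>
    (hasDerivAt_const t (0 : ℂ)).prodMk ((hasDerivAt_id t).const_add _)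
  have hιt : Tendsto ι (𝓝 0) (𝓝 (G 0)) := hι0 ▸ (hιd 0).continuousAt
  have hw0 : h (ι 0) = 0 := by rw [hι0]; exact hi3.self_of_nhds
  have hwd : HasDerivAt (fun t => h (ι t)) (L.symm (0, 1)) 0 := by
    rw [← hι0] at hi4
    exact hi4.comp_hasDerivAt 0 (hιd 0)
  refine ⟨fun t => h (ι t), hw0, ?_, ?_⟩
  · have h3 := hPi
    rw [← neg_zero, ← hw0] at h3
    have h5 := HasFDerivAt.comp_hasDerivAt (f := fun t => -h (ι t)) 0 h3 hwd.neg
    refine HasDerivAt.congr_deriv h5 ?_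
    have h4 := congrArg Prod.snd (L.apply_symm_apply (0, 1))
    rw [← ContinuousLinearEquiv.coe_coe L, hL] at h4
    rw [map_neg]
    exact congrArg Neg.neg h4
  · have e1 := hιt.eventually (hi1.eventually (by simp))
    have e2 := hιt.eventually hi2
    have e3 : Tendsto (fun t => (conj (h (ι t)).1, conj (h (ι t)).2)) (𝓝 0) (𝓝 0) := by
      have c1 : Continuous fun w : ℂ × ℂ => (conj w.1, conj w.2) := by fun_prop
      have := (c1.tendsto _).comp hwd.continuousAt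
      simp only [hw0, Prod.fst_zero, Prod.snd_zero, map_zero] at this
      exact this
    filter_upwards [e1, e2, e3.eventually hi3] with t f1 f2 f3
    have g1 := congrArg Prod.fst f2
    have g2 := congrArg Prod.snd f2
    simp only [hG, hι] at g1 g2
    refine ⟨(f1.differentiableAt one_ne_zero).comp t (hιd t).differentiableAt,
      sub_eq_zero.1 g1, g2, fun ht => ?_⟩
    rw [← f3]
    congr 1
    have n1 := hca (-h (ι t))
    have n2 := hcd (-h (ι t))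
    simp only [Prod.fst_neg, Prod.snd_neg, map_neg] at n1 n2
    simp only [hG, Prod.neg_mk, hca, hcd, n1, n2, ← map_mul, ← map_sub]
    simp only [hι] at g1 g2 ⊢
    rw [g1, g2, map_zero, map_add, hr, ht]

theorem family_of (D : RayData) (hD : ∀ c d u, D.Mono c d u)
    (hrel : ∀ p, D.al p * D.de p + D.ee p ^ 2 = 1)
    (hconj : ∀ p : ℂ × ℂ × ℂ, D.al (conj p.1, conj p.2.1, conj p.2.2) = conj (D.al p) ∧
      D.de (conj p.1, conj p.2.1, conj p.2.2) = conj (D.de p) ∧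
      D.ee (conj p.1, conj p.2.1, conj p.2.2) = conj (D.ee p))
    (hsigns : ∃ a0 d0 e0 ab ag db dg : ℝ,
      0 < a0 ∧ 0 < d0 ∧ 0 < e0 ∧ 0 < ab ∧ ag < 0 ∧ 0 < db ∧ 0 < dg ∧
      D.al (1, 0, 0) = a0 ∧ D.de (1, 0, 0) = d0 ∧ D.ee (1, 0, 0) = e0 ∧
      fderiv ℂ D.al (1, 0, 0) (0, 1, 0) = ab ∧ fderiv ℂ D.al (1, 0, 0) (0, 0, 1) = ag ∧
      fderiv ℂ D.de (1, 0, 0) (0, 1, 0) = db ∧ fderiv ℂ D.de (1, 0, 0) (0, 0, 1) = dg)
    {G : Set (ℂ × ℂ × ℂ)} (hG : G ∈ 𝓝 ((1, 0, 0) : ℂ × ℂ × ℂ)) :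
    ∃ R : ℝ, 0 < R ∧ ∃ c d u : ℂ → ℂ, DifferentiableOn ℂ c (Metric.ball 0 R) ∧
      DifferentiableOn ℂ d (Metric.ball 0 R) ∧ DifferentiableOn ℂ u (Metric.ball 0 R) ∧
      (∀ t ∈ Metric.ball (0 : ℂ) R, c t ^ 2 - d t ^ 2 = 1 ∧ (c t, d t, u t) ∈ G) ∧
      (∀ t : ℝ, |t| < R → Unitary (c t) (d t) (u t)) ∧
      ∃ t0 ∈ Metric.ball (0 : ℂ) R, NoInv (c t0) (d t0) (u t0) := by
  obtain ⟨a0, d0, e0, ab, ag, db, dg, p1, p2, p3, p4, p5, p6, p7, q1, q2, q3, q4, q5, q6, q7⟩ :=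
    hsigns
  have c1 := D.cd
  have c2 := D.cdh
  have hal : ContDiff ℂ 1 D.al := (c2.snd.pow 2).sub (c2.fst.pow 2)
  have hde : ContDiff ℂ 1 D.de := (c1.fst.pow 2).sub (c1.snd.pow 2)
  have hee : ContDiff ℂ 1 D.ee := (c1.fst.mul c2.fst).sub (c1.snd.mul c2.snd)
  obtain ⟨w, hw0, hwd, hev⟩ := exists_curve (hal.comp contDiff_Pp) (hde.comp contDiff_Pp)
    (a0 := a0) (d0 := d0) (by simp [Pp_zero, q1]) (by simp [Pp_zero, q2])
    (fderiv_comp_Pp hal q4 q5) (fderiv_comp_Pp hde q6 q7)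
    (by
      have : 0 < a0 * d0 * (ab * (db + dg) - (ab + ag) * db) :=
        mul_pos (mul_pos p1 p2) (by nlinarith [mul_pos p4 p7, mul_pos (neg_pos.2 p5) p6])
      exact_mod_cast this.ne')
    (fun w => by simp only [Function.comp, Pp_conj, (hconj _).1])
    (fun w => by simp only [Function.comp, Pp_conj, (hconj _).2.1]) (by simp)
  simp only [Function.comp] at hwd hev
  have hwc : Tendsto w (𝓝 0) (𝓝 0) := by
    have := hev.self_of_nhds.1.continuousAt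
    rwa [ContinuousAt, hw0] at this
  have hpos : ∀ g : ℂ × ℂ × ℂ → ℂ, ContDiff ℂ 1 g → ∀ g0 : ℝ, 0 < g0 → g (1, 0, 0) = g0 →
      ∀ᶠ v in 𝓝 (0 : ℂ × ℂ), 0 < (g (Pp v)).re ∧ 0 < (g (Pp (-v))).re := by
    intro g hg g0 h0 h1
    have k1 : Continuous fun v => (g (Pp v)).re :=
      Complex.continuous_re.comp (hg.continuous.comp contDiff_Pp.continuous)
    have k2 : Continuous fun v => (g (Pp (-v))).re := k1.comp continuous_neg
    exact (k1.continuousAt.eventually (lt_mem_nhds (by simpa [Pp_zero, h1] using h0))).and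
      (k2.continuousAt.eventually (lt_mem_nhds (by simpa [Pp_zero, h1] using h0)))
  have hGe : ∀ᶠ v in 𝓝 (0 : ℂ × ℂ),
      (Complex.cos v.1, Complex.I * Complex.sin v.1, Complex.I * v.2) ∈ G := by
    have k1 : Continuous fun v : ℂ × ℂ =>
        (Complex.cos v.1, Complex.I * Complex.sin v.1, Complex.I * v.2) := by fun_prop
    exact k1.continuousAt.eventually (by simpa using hG)
  obtain ⟨R, hR, hall⟩ := Metric.eventually_nhds_iff_ball.1 (hev.and (hwc.eventually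
    (hGe.and ((hpos _ hal _ p1 q1).and ((hpos _ hde _ p2 q2).and (hpos _ hee _ p3 q3))))))
  have hP1 : ∀ v : ℂ × ℂ, (Complex.cos v.1 + Complex.I * Complex.sin v.1 * (Complex.I * v.2),
      -1 * Complex.I * (Complex.I * Complex.sin v.1 + Complex.cos v.1 * (Complex.I * v.2)),
      -1 * Complex.I * (Complex.I * v.2)) = Pp v := by
    intro v
    simp only [Pp, Prod.mk.injEq]
    refine ⟨?_, ?_, ?_⟩
    · linear_combination (v.2 * Complex.sin v.1) * Complex.I_sq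
    · linear_combination (-Complex.sin v.1 - v.2 * Complex.cos v.1) * Complex.I_sq
    · linear_combination (-v.2) * Complex.I_sq
  have hP2 : ∀ v : ℂ × ℂ, (Complex.cos v.1 + Complex.I * Complex.sin v.1 * (Complex.I * v.2),
      - -1 * Complex.I * (Complex.I * Complex.sin v.1 + Complex.cos v.1 * (Complex.I * v.2)),
      - -1 * Complex.I * (Complex.I * v.2)) = Pp (-v) := by
    intro v
    simp only [Pp, Prod.mk.injEq, Prod.fst_neg, Prod.snd_neg, Complex.cos_neg, Complex.sin_neg]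
    refine ⟨?_, ?_, ?_⟩
    · linear_combination (v.2 * Complex.sin v.1) * Complex.I_sq
    · linear_combination (Complex.sin v.1 + v.2 * Complex.cos v.1) * Complex.I_sq
    · linear_combination v.2 * Complex.I_sq
  have hne : ∀ z : ℂ, 0 < z.re → z ≠ 0 := fun z hz h => by simp [h] at hz
  refine ⟨R, hR, fun t => Complex.cos (w t).1, fun t => Complex.I * Complex.sin (w t).1,
    fun t => Complex.I * (w t).2, fun t ht => ?_, fun t ht => ?_, fun t ht => ?_,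
    fun t ht => ⟨?_, (hall t ht).2.1⟩, fun t ht => ?_, ?_⟩
  · exact (hall t ht).1.1.fst.ccos.differentiableWithinAt
  · exact ((hall t ht).1.1.fst.csin.const_mul _).differentiableWithinAt
  · exact ((hall t ht).1.1.snd.const_mul _).differentiableWithinAt
  · linear_combination Complex.cos_sq_add_sin_sq (w t).1 - Complex.sin (w t).1 ^ 2 * Complex.I_sq
  · obtain ⟨⟨-, f2, -, f4⟩, -, g1, g2, g3⟩ := hall t (by simpa using ht)
    have f5 := f4 (Complex.conj_ofReal t)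
    have f6 : (conj (-w t).1, conj (-w t).2) = -w t := by
      rw [Prod.fst_neg, Prod.snd_neg, map_neg, map_neg, ← Prod.neg_mk, f5]
    have hre : ∀ v : ℂ × ℂ, (conj v.1, conj v.2) = v → D.al (Pp v) = (D.al (Pp v)).re ∧
        D.de (Pp v) = (D.de (Pp v)).re ∧ D.ee (Pp v) = (D.ee (Pp v)).re := by
      intro v hv
      have := hconj (Pp v)
      rw [← Pp_conj, hv] at this
      exact ⟨(Complex.conj_eq_iff_re.1 this.1.symm).symm,
        (Complex.conj_eq_iff_re.1 this.2.1.symm).symm,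
        (Complex.conj_eq_iff_re.1 this.2.2.symm).symm⟩
    obtain ⟨r1, r2, r3⟩ := hre _ f5
    obtain ⟨r4, r5, r6⟩ := hre _ f6
    refine unitary hrel (hD _ _ _) (div_pos g1.1 g2.1) ?_
    rintro σ (rfl | rfl)
    · rw [hP1]
      exact ⟨_, _, _, div_mul_cancel₀ _ g2.1.ne', r1, r2, r3⟩
    · rw [hP2]
      refine ⟨_, _, _, ?_, r4, r5, r6⟩
      rw [r1, r2, r4, r5] at f2
      rw [div_mul_eq_mul_div, div_eq_iff g2.1.ne']
      exact_mod_cast f2
  · have k1 : HasDerivAt (fun θ : ℝ => (θ : ℂ) * Complex.I) Complex.I 0 := by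
      simpa using (Complex.ofRealCLM.hasDerivAt (x := 0)).mul_const Complex.I
    have k2 : HasDerivAt (fun t => D.al (Pp (-w t)) * D.de (Pp (-w t))) (-1)
        (((0 : ℝ) : ℂ) * Complex.I) := by simpa using hwd
    have k3 := Complex.imCLM.hasFDerivAt.comp_hasDerivAt (0 : ℝ) (k2.scomp (0 : ℝ) k1)
    have k4 := k3.eventually_ne (c := 0) (by simp)
    have k5 : ∀ᶠ θ : ℝ in 𝓝[≠] 0, (θ : ℂ) * Complex.I ∈ Metric.ball (0 : ℂ) R :=
      nhdsWithin_le_nhds (k1.continuousAt.eventually_mem (Metric.isOpen_ball.mem_nhds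
        (by simpa using hR)))
    obtain ⟨θ, ⟨m1, m2⟩, m3⟩ := ((k4.and k5).and self_mem_nhdsWithin).exists
    obtain ⟨⟨-, f2, f3, -⟩, -, g1, g2, g3⟩ := hall _ m2
    refine ⟨_, m2, noInv hrel (hD _ _ _) (hP1 _) (hP2 _) (hne _ g1.1) (hne _ g3.1) ?_
      (hne _ g1.2) (hne _ g2.2) (hne _ g3.2) m1 f2⟩
    rw [f3]
    simpa using m3

end O3

end A590
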