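import Pool.Agent.Lib.A590Ode1
import Pool.Agent.Lib.A590Ode2
import Pool.Agent.Lib.A590Ode3a

/-! Block O3 of MP_a590e5_an: the unitary family. -/

open scoped Topology

namespace A590

theorem family {G : Set (ℂ × ℂ × ℂ)} (hG : G ∈ 𝓝 ((1, 0, 0) : ℂ × ℂ × ℂ)) :
    ∃ R : ℝ, 0 < R ∧ ∃ c d u : ℂ → ℂ, DifferentiableOn ℂ c (Metric.ball 0 R) ∧
      DifferentiableOn ℂ d (Metric.ball 0 R) ∧ DifferentiableOn ℂ u (Metric.ball 0 R) ∧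
      (∀ t ∈ Metric.ball (0 : ℂ) R, c t ^ 2 - d t ^ 2 = 1 ∧ (c t, d t, u t) ∈ G) ∧
      (∀ t : ℝ, |t| < R → Unitary (c t) (d t) (u t)) ∧
      ∃ t0 ∈ Metric.ball (0 : ℂ) R, NoInv (c t0) (d t0) (u t0) := by
  obtain ⟨D, hD⟩ := exists_rayData
  exact O3.family_of D hD D.rel D.conj_symm D.signs hG

end A590
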