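import Pool.Agent.Lib.A590Poly1
import Pool.Agent.Lib.A590Alg

/-! Block H, part 2: the family on the cone over the Fermat quartic defines foliations. -/

open MvPolynomial

noncomputable section

namespace A590

namespace H

theorem curve_rep (g : MvPolynomial (Fin 4) ℂ) (a b : Fin 4 → Polynomial ℂ) (w : Polynomial ℂ) :
    ∃ r0 r1 r2 r3 : Polynomial ℂ, ∀ x y : ℂ, y ^ 4 = w.eval x →
      eval (fun j => (a j).eval x + (b j).eval x * y) g =
        r0.eval x + r1.eval x * y + r2.eval x * y ^ 2 + r3.eval x * y ^ 3 := by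
  induction g using MvPolynomial.induction_on with
  | C k => exact ⟨Polynomial.C k, 0, 0, 0, by simp⟩
  | add p q hp hq =>
    obtain ⟨r0, r1, r2, r3, e⟩ := hp
    obtain ⟨s0, s1, s2, s3, e'⟩ := hq
    refine ⟨r0 + s0, r1 + s1, r2 + s2, r3 + s3, fun x y h => ?_⟩
    simp only [map_add, e x y h, e' x y h, Polynomial.eval_add]
    ring
  | mul_X p i hp =>
    obtain ⟨r0, r1, r2, r3, e⟩ := hp
    refine ⟨r0 * a i + r3 * b i * w, r1 * a i + r0 * b i, r2 * a i + r1 * b i,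
      r3 * a i + r2 * b i, fun x y h => ?_⟩
    simp only [map_mul, e x y h, eval_X, Polynomial.eval_add, Polynomial.eval_mul, ← h]
    ring

/-- A polynomial function without zeros on a cyclic quartic cover has constant norm. -/
theorem norm_const (g : MvPolynomial (Fin 4) ℂ) (a b : Fin 4 → Polynomial ℂ) (w : Polynomial ℂ)
    (G : ℂ → ℂ → ℂ) (hG : ∀ x y, G x y = eval (fun j => (a j).eval x + (b j).eval x * y) g)
    (h : ∀ x y : ℂ, y ^ 4 = w.eval x → G x y ≠ 0) : ∃ k : ℂ, ∀ x y : ℂ, y ^ 4 = w.eval x →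
      G x y * G x (-y) * G x (Complex.I * y) * G x (-(Complex.I * y)) = k := by
  obtain ⟨r0, r1, r2, r3, e⟩ := curve_rep g a b w
  have hI : ∀ y : ℂ, (Complex.I * y) ^ 4 = y ^ 4 := fun y => by rw [mul_pow, Complex.I_pow_four, one_mul]
  have hn : ∀ y : ℂ, (-y) ^ 4 = y ^ 4 := fun y => by ring
  set N := (r0 ^ 2 + r2 ^ 2 * w - 2 * r1 * r3 * w) ^ 2 - (2 * r0 * r2 - r1 ^ 2 - r3 ^ 2 * w) ^ 2 * w
    with hN
  have key : ∀ x y : ℂ, y ^ 4 = w.eval x →
      G x y * G x (-y) * G x (Complex.I * y) * G x (-(Complex.I * y)) = N.eval x := fun x y hy => by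
    rw [hG, hG, hG, hG, e x y hy, e x _ ((hn y).trans hy), e x _ ((hI y).trans hy),
      e x _ ((hn _).trans ((hI y).trans hy)), hN]
    simp only [Polynomial.eval_sub, Polynomial.eval_add, Polynomial.eval_mul, Polynomial.eval_pow,
      Polynomial.eval_ofNat, ← hy]
    generalize r0.eval x = A
    generalize r1.eval x = B
    generalize r2.eval x = C
    generalize r3.eval x = D
    have h2 : (Complex.I * y) ^ 2 = -y ^ 2 := by rw [mul_pow, Complex.I_sq]; ring
    generalize Complex.I * y = v at h2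
    grind
  have hd : N.degree = 0 := by
    by_contra hd
    obtain ⟨x, hx⟩ := IsAlgClosed.exists_root N hd
    obtain ⟨y, hy⟩ := IsAlgClosed.exists_pow_nat_eq (w.eval x) (by norm_num : 0 < 4)
    have := (key x y hy).trans hx
    simp only [mul_eq_zero, h x y hy, h x _ ((hn y).trans hy), h x _ ((hI y).trans hy),
      h x _ ((hn _).trans ((hI y).trans hy)), or_self] at this
  refine ⟨N.coeff 0, fun x y hy => ?_⟩
  rw [key x y hy, Polynomial.eq_C_of_degree_eq_zero hd]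
  simp

/-- A form of positive degree vanishes somewhere on each hyperplane section of the cone. -/
theorem exists_zero {g : MvPolynomial (Fin 4) ℂ} {r : ℕ} (hr : 1 ≤ r) (hg : g.IsHomogeneous r)
    (τ : ℂ) : ∃ x y u : ℂ, fF x y u = 0 ∧ (u = 1 ∨ u = 0 ∧ x = 1) ∧
      eval ![x, y, u, τ * y] g = 0 := by
  by_contra H
  push Not at H
  have hs : ∀ s x y u : ℂ, eval ![s * x, s * y, s * u, τ * (s * y)] g =
      s ^ r * eval ![x, y, u, τ * y] g := fun s x y u => by
    rw [← eval_smul hg]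
    congr 2
    funext j
    fin_cases j <;> simp [mul_left_comm]
  have H1 : ∀ x y : ℂ, y ^ 4 = x ^ 4 - 1 → eval ![x, y, 1, τ * y] g ≠ 0 := fun x y h =>
    H x y 1 (by rw [fF, h]; ring) (Or.inl rfl)
  have H2 : ∀ u y : ℂ, y ^ 4 = 1 - u ^ 4 → eval ![1, y, u, τ * y] g ≠ 0 := fun u y h => by
    by_cases hu : u = 0
    · exact H 1 y u (by rw [fF, h]; ring) (Or.inr ⟨hu, rfl⟩)
    · have := H1 (u⁻¹ * 1) (u⁻¹ * y) (by rw [mul_pow, h]; field_simp)
      rw [← inv_mul_cancel₀ hu, mul_comm u⁻¹ u, mul_inv_cancel₀ hu] at this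
      have e := hs u⁻¹ 1 y u
      rw [inv_mul_cancel₀ hu] at e
      exact right_ne_zero_of_mul (e ▸ this)
  obtain ⟨k1, e1⟩ := norm_const g ![Polynomial.X, 0, 1, 0] ![0, 1, 0, Polynomial.C τ]
    (Polynomial.X ^ 4 - 1) (fun x y => eval ![x, y, 1, τ * y] g)
    (fun x y => by congr 2; funext j; fin_cases j <;> simp) (by simpa using H1)
  obtain ⟨k2, e2⟩ := norm_const g ![1, 0, Polynomial.X, 0] ![0, 1, 0, Polynomial.C τ]
    (1 - Polynomial.X ^ 4) (fun u y => eval ![1, y, u, τ * y] g)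
    (fun x y => by congr 2; funext j; fin_cases j <;> simp) (by simpa using H2)
  simp only [Polynomial.eval_sub, Polynomial.eval_pow, Polynomial.eval_X, Polynomial.eval_one]
    at e1 e2
  have a1 := e1 1 0 (by simp)
  have a2 := e2 1 0 (by simp)
  have hk : k1 ≠ 0 := by
    have := H1 1 0 (by simp)
    rw [← a1]
    simpa using this
  obtain ⟨y, hy⟩ := IsAlgClosed.exists_pow_nat_eq (1 - (2⁻¹ : ℂ) ^ 4) (by norm_num : 0 < 4)
  have b1 := e1 2 (2 * y) (by rw [mul_pow, hy]; norm_num)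
  have b2 := e2 2⁻¹ y hy
  have hs' : ∀ v : ℂ, eval ![2, 2 * v, 1, τ * (2 * v)] g = 2 ^ r * eval ![1, v, 2⁻¹, τ * v] g :=
    fun v => by simpa using hs 2 1 v 2⁻¹
  rw [show -(2 * y) = 2 * -y by ring, show -(Complex.I * (2 * y)) = 2 * -(Complex.I * y) by ring,
    show Complex.I * (2 * y) = 2 * (Complex.I * y) by ring, hs', hs', hs', hs'] at b1
  have : ((2 : ℂ) ^ r) ^ 4 * k1 = 1 * k1 := by
    rw [one_mul]
    nth_rewrite 2 [← b1]
    rw [← a1, a2, ← b2]
    ring
  have h2 : (2 : ℂ) ^ (r * 4) = 1 := by rw [pow_mul]; exact mul_right_cancel₀ hk this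
  have h3 : (2 : ℕ) ^ (r * 4) = 1 := by exact_mod_cast h2
  simp at h3
  omega

end H

theorem fol4 {c d u p : ℂ} (hN : Nice c d u) {C : Coeff 4 8} {ε : ℂ} (hε : ε ≠ 0)
    (hV : ∀ z, f4 z = 0 → field C z = ε • Z4 c d u p z) : C ∈ Fol 4 8 := by
  suffices h : ∀ (g : MvPolynomial (Fin 4) ℂ) (r : ℕ), 1 ≤ r → g.IsHomogeneous r →
      ∃ z : E 4, z ≠ 0 ∧ MvPolynomial.eval (fun j => z j) g = 0 ∧ z ∉ Sing (field C) by
    obtain ⟨z, hz, -, hs⟩ := h (X 0) 1 le_rfl (isHomogeneous_X ℂ 0)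
    exact mem_Fol ⟨z, hz, hs⟩ h
  intro g r hr hg
  by_contra K
  push Not at K
  have hfin : (⋃ x ∈ {x : ℂ | ∃ y t, fF x y 1 = 0 ∧ AA c d x y 1 t = 0 ∧
      ZT c d u x y 1 t = t * ZU c x y t}, ⋃ y ∈ {y : ℂ | fF x y 1 = 0},
      (fun t => t / y) '' {t : ℂ | AA c d x y 1 t = 0}).Finite := by
    refine hN.finS.biUnion fun x _ => Set.Finite.biUnion ?_ fun y hy =>
      (ruling_roots hN hy (by simp)).image _
    refine (Polynomial.nthRoots 4 (x ^ 4 - 1)).finite_toSet.subset fun y hy => ?_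
    refine (Polynomial.mem_nthRoots (by norm_num)).2 ?_
    have : y ^ 4 - x ^ 4 + 1 ^ 4 = 0 := hy
    linear_combination this
  refine Set.infinite_univ ((hfin.insert 0).subset fun τ _ => ?_)
  obtain ⟨x, y, w, hf, hw, h0⟩ := H.exists_zero hr hg τ
  have hne : ¬ (x = 0 ∧ y = 0 ∧ w = 0) := by
    rcases hw with rfl | ⟨-, rfl⟩ <;> simp
  have hz : (!₂[x, y, w, τ * y] : E 4) ≠ 0 := fun e => hne
    ⟨by simpa using congrArg (· 0) e, by simpa using congrArg (· 1) e,
      by simpa using congrArg (· 2) e⟩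
  have hs := (K _ hz (by rw [← h0])).2
  have hf4 : f4 !₂[x, y, w, τ * y] = 0 := by simpa [f4] using hf
  rw [hV _ hf4] at hs
  replace hs : ∀ i j, (!₂[x, y, w, τ * y] : E 4) i * Z4 c d u p !₂[x, y, w, τ * y] j =
      (!₂[x, y, w, τ * y] : E 4) j * Z4 c d u p !₂[x, y, w, τ * y] i := fun i j =>
    mul_left_cancel₀ hε (by
      have := hs i j
      simp only [PiLp.smul_apply, smul_eq_mul] at this
      linear_combination this)
  have hA : AA c d x y w (τ * y) = 0 := by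
    simpa [A4] using A4_eq_zero hf4 (by simpa using hne) (hs 2 0) (hs 0 1) (hs 1 2)
  rcases hw with rfl | ⟨rfl, rfl⟩
  · have hT : ZT c d u x y 1 (τ * y) = τ * y * ZU c x y (τ * y) := by simpa [Z4] using hs 2 3
    have hy : y ≠ 0 := by
      rintro rfl
      refine hN.br0 x ?_ (by simpa using hT)
      have : (0 : ℂ) ^ 4 - x ^ 4 + 1 ^ 4 = 0 := hf
      linear_combination -this
    refine Or.inr (Set.mem_iUnion₂.2 ⟨x, ⟨y, _, hf, hA, hT⟩,
      Set.mem_iUnion₂.2 ⟨y, hf, τ * y, hA, by simp [hy]⟩⟩)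
  · have hy : y ≠ 0 := by
      rintro rfl
      simp [fF] at hf
    left
    simpa [AA, P0, hN.c_ne, hy] using hA

end A590
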