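import Pool.Agent.Lib.A590Rep
import Pool.Agent.Lib.A590Alg
import Pool.Agent.Lib.A590Ode3
import Pool.Agent.Lib.A590Exist
import Pool.Agent.Lib.A590Geo
import Pool.Agent.Lib.A590Poly
import Pool.Agent.Lib.A590Ind1
import Pool.Agent.Lib.A590Ind2

open scoped ComplexConjugate ComplexOrder ContDiff Topology InnerProductSpace
open MeasureTheory Filter

noncomputable section

namespace A590

variable {n : ℕ}

theorem liftV_cns (V : E n → E n) (M : E n →L[ℂ] E n) (ε : ℂ) (z : E n) :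
    liftV V M ε (cns 0 z) = ε • cns 0 (V z) := by
  have h1 : cns 0 z 0 = 0 := rfl
  have h2 : tl (cns 0 z) = z := rfl
  simp [liftV, h1, h2]

theorem Fam.succ (h : Fam n) : Fam (n + 1) := by
  obtain ⟨R, hR, c, hc, hF, hT, t0, ht0, hN⟩ := h
  obtain ⟨M, ε, hε, hN'⟩ := noMeas_succ (homMap_field (c t0)) (exists_not_sing (hF t0 ht0)) hN
  obtain ⟨C, hC, hCf⟩ := coeff_succ hc M ε
  have h0 : (ε : ℂ) ≠ 0 := Complex.ofReal_ne_zero.2 hε.ne'
  have hV : ∀ t z, field (C t) (cns 0 z) = (ε : ℂ) • cns 0 (field (c t) z) := fun t z => by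
    rw [hCf, liftV_cns]
  exact ⟨R, hR, C, hC, fun t ht => fol_succ (hF t ht) h0 (hV t),
    fun t ht => current_succ h0 (hV t) (hT t ht), t0, ht0, hCf t0 ▸ hN'⟩

theorem fam4 : Fam 4 := by
  obtain ⟨R, hR, c, d, u, hc, hd, hu, hG, hU, t0, ht0, hI⟩ := family nice_nhds
  have hN : ∀ t ∈ Metric.ball (0 : ℂ) R, Nice (c t) (d t) (u t) := fun t ht =>
    (hG t ht).2 (hG t ht).1
  obtain ⟨a, -, ε, hε, hM⟩ := noMeas4 (hN t0 ht0) hI
  obtain ⟨C, hC, hCf⟩ := exists_coeff4 hc hd hu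
    (p := fun t => -2 * a ^ 3 * (c t ^ 2 + 2 * a ^ 2 * c t * d t + d t ^ 2) / (1 - a ^ 4))
    (by fun_prop) a ε
  have h0 : (ε : ℂ) ≠ 0 := Complex.ofReal_ne_zero.2 hε.ne'
  have hV := fun t z (hz : f4 z = 0) => (hCf t z).trans (by
    rw [hz, zero_pow two_ne_zero, zero_smul, zero_add])
  exact ⟨R, hR, C, hC, fun t ht => fol4 (hN t ht) h0 (hV t),
    fun t ht => exist4 (hN t (by simpa using ht)) (hU t ht) (hV t) h0, t0, ht0,
    (funext (hCf t0) : field (C t0) = _) ▸ hM⟩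

/-- The identity theorem for a holomorphic disc and an analytic subset. -/
theorem IsAnalyticSubset.eventually {X : Type*} [NormedAddCommGroup X] [NormedSpace ℂ X]
    {B A : Set X} (hA : IsAnalyticSubset B A) {O : Set ℂ} (hO : IsOpen O) {c : ℂ → X}
    (hc : DifferentiableOn ℂ c O) (hB : ∀ t ∈ O, c t ∈ B) {t : ℂ} (ht : t ∈ O)
    (h : ∃ᶠ s in 𝓝[≠] t, c s ∈ A) : ∀ᶠ s in 𝓝 t, c s ∈ A := by
  obtain ⟨U, hU, hp, r, g, hg, he⟩ := hA.2 _ (hB t ht)
  have hO' := hc.continuousOn.isOpen_inter_preimage hO hU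
  have h1 := hO'.mem_nhds (show t ∈ O ∩ c ⁻¹' U from ⟨ht, hp⟩)
  have h2 : ∀ i, ∀ᶠ s in 𝓝 t, g i (c s) = 0 := fun i =>
    (((hg i).comp (hc.mono Set.inter_subset_left) fun s hs => hs.2).analyticAt
      h1).frequently_zero_iff_eventually_zero.1
      ((h.and_eventually (nhdsWithin_le_nhds h1)).mono fun s hs =>
        (he.subset ⟨hs.1, hs.2.2⟩).2 i)
  filter_upwards [h1, eventually_all.2 h2] with s hs h3
  exact (he.symm.subset ⟨⟨hB s hs.1, hs.2⟩, h3⟩).1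

theorem Fam.not_union (h : Fam n) : ¬ ∃ A : ℕ → Set (Coeff n 8),
    (∀ i, IsAnalyticSubset (Fol n 8) (A i)) ∧ Fol n 8 ∩ BcStrong n 8 ⊆ ⋃ i, A i ∧
      ⋃ i, A i ⊆ Bc n 8 := by
  obtain ⟨R, hR, c, hc, hF, hT, t0, ht0, hN⟩ := h
  rintro ⟨A, hA, h1, h2⟩
  have hb : ∀ t ∈ Set.Icc (0 : ℝ) (R / 2), |t| < R := fun t ht => by
    rw [abs_of_nonneg ht.1]; linarith [ht.2]
  obtain ⟨i, hi⟩ : ∃ i, {t ∈ Set.Icc (0 : ℝ) (R / 2) | c t ∈ A i}.Infinite := by
    by_contra! H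
    have h3 := (Set.countable_iUnion fun i => (H i).countable).mono
      (s₁ := Set.Icc (0 : ℝ) (R / 2)) fun t ht => by
        obtain ⟨T, a1, a2, a3, a4⟩ := hT t (hb t ht)
        obtain ⟨i, hi⟩ := Set.mem_iUnion.1 (h1 ⟨hF t (by simpa using hb t ht),
          T, a1, a2, a2.orderZero, a3, a4⟩)
        exact Set.mem_iUnion.2 ⟨i, ht, hi⟩
    have h4 := h3.measure_zero volume
    simp at h4
    linarith
  obtain ⟨x, hx, hacc⟩ := hi.exists_accPt_of_subset_isCompact isCompact_Icc (Set.sep_subset _ _)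
  have key := fun t => (hA i).eventually Metric.isOpen_ball hc hF (t := t)
  have hx' : (x : ℂ) ∈ Metric.ball (0 : ℂ) R := by simpa using hb x hx
  have h3 : Tendsto (fun t : ℝ => (t : ℂ)) (𝓝[≠] x) (𝓝[≠] x) :=
    Complex.continuous_ofReal.continuousWithinAt.tendsto_nhdsWithin fun t ht h =>
      ht (Complex.ofReal_injective h)
  have h4 := (convex_ball (0 : ℂ) R).isPreconnected.subset_of_closure_inter_subset
    (isOpen_setOfPred_eventually_nhds (p := fun s => c s ∈ A i))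
    ⟨x, hx', key x hx' (h3.frequently ((accPt_iff_frequently_nhdsNE.1 hacc).mono fun t ht => ht.2))⟩
    fun t ht => by_contra fun h5 => h5 (key t ht.2 ((frequently_nhdsWithin_iff.2
      ((mem_closure_iff_frequently.1 ht.1).mono fun s hs =>
        ⟨hs.self_of_nhds, fun h6 => h5 (Set.mem_singleton_iff.1 h6 ▸ hs)⟩))))
  exact not_mem_Bc hN (h2 (Set.mem_iUnion.2 ⟨i, (h4 ht0).self_of_nhds⟩))

theorem final (k : ℕ) (hk : 3 ≤ k) : ¬ ∃ A : ℕ → Set (Coeff (k + 1) 8),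
    (∀ i, IsAnalyticSubset (Fol (k + 1) 8) (A i)) ∧
      Fol (k + 1) 8 ∩ BcStrong (k + 1) 8 ⊆ ⋃ i, A i ∧ ⋃ i, A i ⊆ Bc (k + 1) 8 := by
  have h : ∀ j, Fam (4 + j) := fun j => by
    induction j with
    | zero => exact fam4
    | succ j ih => exact ih.succ
  have := h (k - 3)
  rw [show 4 + (k - 3) = k + 1 by omega] at this
  exact this.not_union

end A590
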