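import Pool.Agent.Lib.A590Calc

/-!
Algebraic and local lemmas for block G of MP_a590e5_an.
-/

open scoped ComplexConjugate ComplexOrder ContDiff Topology InnerProductSpace
open MeasureTheory Filter

noncomputable section

namespace A590

namespace Geo

theorem root_quartic {c0 c1 c2 c3 c4 : ℂ} (h : c4 ≠ 0) :
    ∃ s : ℂ, c4 * s ^ 4 + c3 * s ^ 3 + c2 * s ^ 2 + c1 * s + c0 = 0 := by
  have hd : (Polynomial.C c4 * Polynomial.X ^ 4 + Polynomial.C c3 * Polynomial.X ^ 3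
      + Polynomial.C c2 * Polynomial.X ^ 2 + Polynomial.C c1 * Polynomial.X
      + Polynomial.C c0 : Polynomial ℂ).degree = 4 := by
    compute_degree!
  obtain ⟨s, hs⟩ := Complex.exists_root (f := Polynomial.C c4 * Polynomial.X ^ 4
      + Polynomial.C c3 * Polynomial.X ^ 3
      + Polynomial.C c2 * Polynomial.X ^ 2 + Polynomial.C c1 * Polynomial.X
      + Polynomial.C c0) (by rw [hd]; norm_num)
  exact ⟨s, by simpa using hs⟩

theorem root_cubic {c0 c1 c2 c3 : ℂ} (h : c3 ≠ 0) :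
    ∃ s : ℂ, c3 * s ^ 3 + c2 * s ^ 2 + c1 * s + c0 = 0 := by
  have hd : (Polynomial.C c3 * Polynomial.X ^ 3
      + Polynomial.C c2 * Polynomial.X ^ 2 + Polynomial.C c1 * Polynomial.X
      + Polynomial.C c0 : Polynomial ℂ).degree = 3 := by
    compute_degree!
  obtain ⟨s, hs⟩ := Complex.exists_root (f := Polynomial.C c3 * Polynomial.X ^ 3
      + Polynomial.C c2 * Polynomial.X ^ 2 + Polynomial.C c1 * Polynomial.X
      + Polynomial.C c0) (by rw [hd]; norm_num)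
  exact ⟨s, by simpa using hs⟩

theorem root_quad {c0 c1 c2 : ℂ} (h : c2 ≠ 0) :
    ∃ s : ℂ, c2 * s ^ 2 + c1 * s + c0 = 0 := by
  have hd : (Polynomial.C c2 * Polynomial.X ^ 2 + Polynomial.C c1 * Polynomial.X
      + Polynomial.C c0 : Polynomial ℂ).degree = 2 := by
    compute_degree!
  obtain ⟨s, hs⟩ := Complex.exists_root (f := Polynomial.C c2 * Polynomial.X ^ 2
      + Polynomial.C c1 * Polynomial.X + Polynomial.C c0) (by rw [hd]; norm_num)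
  exact ⟨s, by simpa using hs⟩

theorem finite_pow_eq {k : ℕ} (hk : 0 < k) (b : ℂ) : {x : ℂ | x ^ k = b}.Finite := by
  refine (Polynomial.nthRoots k b).toFinset.finite_toSet.subset ?_
  intro x hx
  simp only [Finset.mem_coe, Multiset.mem_toFinset]
  exact (Polynomial.mem_nthRoots hk).2 hx

/-- a double root is neither triple nor accompanied by a second double root -/
theorem double_root {a X Y U : ℂ} (ha : a ≠ 0) (h1 : a ^ 4 ≠ 1) (h2 : a ^ 4 ≠ -1) (hY : Y ≠ 0)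
    (hf : fF X Y U = 0) (hW : U ^ 3 = a * X ^ 3) :
    U ^ 2 - a ^ 2 * X ^ 2 ≠ 0 ∧
      (4 * (U - a ^ 3 * X)) ^ 2 - 4 * (1 - a ^ 4) * (6 * (U ^ 2 - a ^ 2 * X ^ 2)) ≠ 0 := by
  have hX : X ≠ 0 := by
    rintro rfl
    have hU : U = 0 := by simpa using hW
    apply hY
    simpa [fF, hU] using hf
  obtain ⟨y, rfl⟩ : ∃ y, U = y * X := ⟨U / X, by field_simp⟩
  have hy : a = y ^ 3 := by
    have : (y ^ 3 - a) * X ^ 3 = 0 := by linear_combination hW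
    have h3 := (mul_eq_zero.1 this).resolve_right (pow_ne_zero _ hX)
    linear_combination -h3
  subst hy
  have hy0 : y ≠ 0 := by rintro rfl; simp at ha
  have hw : y ^ 4 - 1 ≠ 0 := by
    intro h
    apply h1
    have : y ^ 4 = 1 := by linear_combination h
    calc (y ^ 3) ^ 4 = (y ^ 4) ^ 3 := by ring
      _ = 1 := by rw [this]; norm_num
  have hw2 : (y ^ 4) ^ 2 - y ^ 4 + 1 ≠ 0 := by
    intro h
    apply h2
    linear_combination (y ^ 4 + 1) * h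
  constructor
  · have : (y * X) ^ 2 - (y ^ 3) ^ 2 * X ^ 2 = -(y ^ 2 * X ^ 2 * (y ^ 4 - 1)) := by ring
    rw [this]
    exact neg_ne_zero.2 (mul_ne_zero (mul_ne_zero (pow_ne_zero _ hy0) (pow_ne_zero _ hX)) hw)
  · have : (4 * (y * X - (y ^ 3) ^ 3 * X)) ^ 2
        - 4 * (1 - (y ^ 3) ^ 4) * (6 * ((y * X) ^ 2 - (y ^ 3) ^ 2 * X ^ 2))
        = -(8 * (y ^ 2 * X ^ 2 * (y ^ 4 - 1) ^ 2 * ((y ^ 4) ^ 2 - y ^ 4 + 1))) := by ring
    rw [this]
    exact neg_ne_zero.2 (mul_ne_zero (by norm_num) (mul_ne_zero (mul_ne_zero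
      (mul_ne_zero (pow_ne_zero _ hy0) (pow_ne_zero _ hX)) (pow_ne_zero _ hw)) hw2))

end Geo

open Geo in
theorem two_simple {a X Y U : ℂ} (ha : a ≠ 0) (h1 : a ^ 4 ≠ 1) (h2 : a ^ 4 ≠ -1) (hY : Y ≠ 0) :
    ∃ μ1 μ2 : ℂ, μ1 ≠ μ2 ∧ fF (X + μ1 * a) Y (U + μ1) = 0 ∧ fF (X + μ2 * a) Y (U + μ2) = 0 ∧
      (U + μ1) ^ 3 ≠ a * (X + μ1 * a) ^ 3 ∧ (U + μ2) ^ 3 ≠ a * (X + μ2 * a) ^ 3 := by
  have hc4 : 1 - a ^ 4 ≠ 0 := sub_ne_zero.2 h1.symm
  by_cases hd : ∃ r : ℂ, fF (X + r * a) Y (U + r) = 0 ∧ (U + r) ^ 3 = a * (X + r * a) ^ 3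
  · obtain ⟨r, hf, hW⟩ := hd
    obtain ⟨hc2, hdisc⟩ := double_root ha h1 h2 hY hf hW
    set X' := X + r * a with hX'
    set U' := U + r with hU'
    obtain ⟨s, hs⟩ := root_quad (c0 := 6 * (U' ^ 2 - a ^ 2 * X' ^ 2)) (c1 := 4 * (U' - a ^ 3 * X'))
      hc4
    obtain ⟨t, ht⟩ : ∃ t, (1 - a ^ 4) * (s + t) = -(4 * (U' - a ^ 3 * X')) :=
      ⟨-(4 * (U' - a ^ 3 * X')) / (1 - a ^ 4) - s, by field_simp; ring⟩
    have hp : (1 - a ^ 4) * (s * t) = 6 * (U' ^ 2 - a ^ 2 * X' ^ 2) := by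
      linear_combination s * ht - hs
    have hst : s ≠ t := by
      intro h
      apply hdisc
      subst h
      linear_combination (-(4 * (U' - a ^ 3 * X')) + (1 - a ^ 4) * (s + s)) * (-1) * ht
        + 4 * (1 - a ^ 4) * hp
    have hs0 : s ≠ 0 := by
      rintro rfl
      apply hc2
      linear_combination (-1 / 6) * hp
    have ht0 : t ≠ 0 := by
      rintro rfl
      apply hc2
      linear_combination (-1 / 6) * hp
    have e1 : ∀ s : ℂ, X + (r + s) * a = X' + s * a := fun s => by rw [hX']; ring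
    have e2 : ∀ s : ℂ, U + (r + s) = U' + s := fun s => by rw [hU']; ring
    refine ⟨r + s, r + t, fun h => hst (add_left_cancel h), ?_, ?_, ?_, ?_⟩
    · rw [e1, e2]
      unfold fF at hf ⊢
      linear_combination hf + 4 * s * hW - s ^ 2 * hp + s ^ 3 * ht
    · rw [e1, e2]
      unfold fF at hf ⊢
      linear_combination hf + 4 * t * hW - t ^ 2 * hp + t ^ 3 * ht
    · rw [e1, e2]
      intro h
      have : (1 - a ^ 4) * s ^ 2 * (s - t) = 0 := by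
        linear_combination 4 * h - 4 * hW + 2 * s * hp - 3 * s ^ 2 * ht
      rcases mul_eq_zero.1 this with h' | h'
      · exact mul_ne_zero hc4 (pow_ne_zero _ hs0) h'
      · exact hst (sub_eq_zero.1 h')
    · rw [e1, e2]
      intro h
      have : (1 - a ^ 4) * t ^ 2 * (t - s) = 0 := by
        linear_combination 4 * h - 4 * hW + 2 * t * hp - 3 * t ^ 2 * ht
      rcases mul_eq_zero.1 this with h' | h'
      · exact mul_ne_zero hc4 (pow_ne_zero _ ht0) h'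
      · exact hst (sub_eq_zero.1 h').symm
  · push Not at hd
    obtain ⟨r, hr⟩ := root_quartic (c0 := fF X Y U) (c1 := 4 * (U ^ 3 - a * X ^ 3))
      (c2 := 6 * (U ^ 2 - a ^ 2 * X ^ 2)) (c3 := 4 * (U - a ^ 3 * X)) hc4
    have hf : fF (X + r * a) Y (U + r) = 0 := by
      unfold fF at hr ⊢
      linear_combination hr
    have hW := hd r hf
    obtain ⟨s, hs⟩ := root_cubic (c0 := 4 * ((U + r) ^ 3 - a * (X + r * a) ^ 3))
      (c1 := 6 * ((U + r) ^ 2 - a ^ 2 * (X + r * a) ^ 2))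
      (c2 := 4 * ((U + r) - a ^ 3 * (X + r * a))) hc4
    have hs0 : s ≠ 0 := by
      rintro rfl
      apply hW
      linear_combination (1 / 4) * hs
    have hf' : fF (X + (r + s) * a) Y (U + (r + s)) = 0 := by
      unfold fF at hf ⊢
      linear_combination hf + s * hs
    exact ⟨r, r + s, fun h => hs0 (by linear_combination -h), hf, hf', hW, hd _ hf'⟩

namespace Geo

variable {n : ℕ}

theorem diff_clm (l : E n →L[ℂ] ℂ) (z : E n) : DifferentiableAt ℝ (fun w => l w) z :=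
  (l.restrictScalars ℝ).differentiableAt

theorem dz_clm (l : E n →L[ℂ] ℂ) (z v : E n) : dz (fun w => l w) z v = l v := by
  rw [dz_holo l.differentiableAt]
  exact congrArg (fun T : E n →L[ℂ] ℂ => T v) l.fderiv

theorem dzb_clm (l : E n →L[ℂ] ℂ) (z v : E n) : dzb (fun w => l w) z v = 0 :=
  dzb_holo l.differentiableAt v

theorem cd_clm (l : E n →L[ℂ] ℂ) : ContDiff ℝ ∞ (fun w => l w) :=
  (l.restrictScalars ℝ).contDiff

theorem rz_sq_clm (l : E n →L[ℂ] ℂ) (z v : E n) :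
    rz (fun w => ‖l w‖ ^ 2) z v = conj (l z) * l v := by
  rw [rz_normSq l.differentiableAt]
  have : fderiv ℂ (fun w => l w) z v = l v := congrArg (fun T : E n →L[ℂ] ℂ => T v) l.fderiv
  rw [this, RCLike.inner_apply, mul_comm]

def aN (k : ℂ) (l1 l3 : E n →L[ℂ] ℂ) (z : E n) : ℝ := (conj k * l1 z * conj (l3 z)).re
def aD (l0 l1 l3 : E n →L[ℂ] ℂ) (z : E n) : ℝ := ‖l0 z‖ ^ 2 + ‖l1 z‖ ^ 2 + ‖l3 z‖ ^ 2
def aF (k : ℂ) (l0 l1 l3 : E n →L[ℂ] ℂ) (z : E n) : ℝ := aN k l1 l3 z * (aD l0 l1 l3 z)⁻¹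

theorem cd_aG (k : ℂ) (l1 l3 : E n →L[ℂ] ℂ) :
    ContDiff ℝ ∞ fun z => conj k * l1 z * conj (l3 z) :=
  (contDiff_const.mul (cd_clm l1)).mul (Complex.conjCLE.contDiff.comp (cd_clm l3))

theorem cd_aN (k : ℂ) (l1 l3 : E n →L[ℂ] ℂ) : ContDiff ℝ ∞ (aN k l1 l3) :=
  Complex.reCLM.contDiff.comp (cd_aG k l1 l3)

theorem cd_sq (l : E n →L[ℂ] ℂ) : ContDiff ℝ ∞ fun z => ‖l z‖ ^ 2 := (cd_clm l).norm_sq ℂ

theorem cd_aD (l0 l1 l3 : E n →L[ℂ] ℂ) : ContDiff ℝ ∞ (aD l0 l1 l3) :=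
  ((cd_sq l0).add (cd_sq l1)).add (cd_sq l3)

theorem rz_aN (k : ℂ) (l1 l3 : E n →L[ℂ] ℂ) (z v : E n) :
    rz (aN k l1 l3) z v = (conj k * l1 v * conj (l3 z) + k * conj (l1 z) * l3 v) / 2 := by
  have hc : DifferentiableAt ℝ (fun w => conj (l3 w)) z :=
    (Complex.conjCLE.contDiff.comp (cd_clm l3)).differentiable (by simp) z
  have h1 : DifferentiableAt ℝ (fun w => conj k * l1 w) z :=
    (differentiableAt_const _).mul (diff_clm l1 z)
  unfold aN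
  rw [rz_re ((cd_aG k l1 l3).differentiable (by simp) z), dz_mul h1 hc, dzb_mul h1 hc,
    dz_mul (differentiableAt_const _) (diff_clm l1 z),
    dzb_mul (differentiableAt_const _) (diff_clm l1 z), dz_const, dzb_const, dz_conj, dzb_conj,
    dz_clm, dzb_clm, dz_clm, dzb_clm]
  simp

theorem rz_aD (l0 l1 l3 : E n →L[ℂ] ℂ) (z v : E n) :
    rz (aD l0 l1 l3) z v = conj (l0 z) * l0 v + conj (l1 z) * l1 v + conj (l3 z) * l3 v := by
  unfold aD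
  rw [rz_add (((cd_sq l0).add (cd_sq l1)).differentiable (by simp) z)
    ((cd_sq l3).differentiable (by simp) z),
    rz_add ((cd_sq l0).differentiable (by simp) z) ((cd_sq l1).differentiable (by simp) z),
    rz_sq_clm, rz_sq_clm, rz_sq_clm]

theorem rz_aF (k : ℂ) (l0 l1 l3 : E n →L[ℂ] ℂ) {z : E n} (hz : aD l0 l1 l3 z ≠ 0) (v : E n) :
    rz (aF k l0 l1 l3) z v = rz (aN k l1 l3) z v * ((aD l0 l1 l3 z)⁻¹ : ℝ)
      + aN k l1 l3 z * (-rz (aD l0 l1 l3) z v / (aD l0 l1 l3 z : ℂ) ^ 2) := by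
  have hD := (cd_aD l0 l1 l3).differentiable (by simp) z
  have hI : DifferentiableAt ℝ (fun w => (aD l0 l1 l3 w)⁻¹) z := hD.inv hz
  unfold aF
  rw [rz_mul ((cd_aN k l1 l3).differentiable (by simp) z) hI, rz_inv hD hz]

theorem aF_smul (k : ℂ) (l0 l1 l3 : E n →L[ℂ] ℂ) (z : E n) {c : ℂ} (hc : c ≠ 0) :
    aF k l0 l1 l3 (c • z) = aF k l0 l1 l3 z := by
  have h1 : aN k l1 l3 (c • z) = ‖c‖ ^ 2 * aN k l1 l3 z := by
    unfold aN
    have : conj k * l1 (c • z) * conj (l3 (c • z))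
        = ((‖c‖ ^ 2 : ℝ) : ℂ) * (conj k * l1 z * conj (l3 z)) := by
      rw [map_smul, map_smul, smul_eq_mul, smul_eq_mul, map_mul, ← Complex.normSq_eq_norm_sq,
        ← Complex.mul_conj]
      ring
    rw [this, Complex.re_ofReal_mul]
  have h2 : aD l0 l1 l3 (c • z) = ‖c‖ ^ 2 * aD l0 l1 l3 z := by
    unfold aD
    simp only [map_smul, norm_smul, mul_pow]
    ring
  have h3 : ‖c‖ ^ 2 ≠ 0 := pow_ne_zero _ (norm_ne_zero_iff.2 hc)
  unfold aF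
  rw [h1, h2, mul_inv]
  field_simp

theorem aD_eq_zero {l0 l1 l3 : E n →L[ℂ] ℂ} {z : E n} (h : aD l0 l1 l3 z = 0) :
    l0 z = 0 ∧ l1 z = 0 ∧ l3 z = 0 := by
  unfold aD at h
  have a0 := sq_nonneg ‖l0 z‖
  have a1 := sq_nonneg ‖l1 z‖
  have a3 := sq_nonneg ‖l3 z‖
  refine ⟨?_, ?_, ?_⟩ <;> rw [← norm_eq_zero, ← sq_eq_zero_iff] <;> linarith

theorem E4_ext {z w : E 4} (h0 : z 0 = w 0) (h1 : z 1 = w 1) (h2 : z 2 = w 2) (h3 : z 3 = w 3) :
    z = w := by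
  ext i
  fin_cases i
  exacts [h0, h1, h2, h3]

theorem norm_sq4 (z : E 4) : ‖z‖ ^ 2 = ‖z 0‖ ^ 2 + ‖z 1‖ ^ 2 + ‖z 2‖ ^ 2 + ‖z 3‖ ^ 2 := by
  rw [EuclideanSpace.norm_sq_eq, Fin.sum_univ_four]

theorem inner_q4 (a : ℂ) (z : E 4) : ⟪z, q4 a⟫_ℂ = conj (z 0) * a + conj (z 2) := by
  rw [PiLp.inner_apply, Fin.sum_univ_four]
  simp [q4, mul_comm]

/-- projection on the plane over the point `(1, υ, κ)` -/
def prL (κ υ : ℂ) : E 4 →L[ℂ] E 4 :=
  (EuclideanSpace.proj (0 : Fin 4) : E 4 →L[ℂ] ℂ).smulRight (!₂[1, υ, κ, 0] : E 4)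
    + (EuclideanSpace.proj (3 : Fin 4) : E 4 →L[ℂ] ℂ).smulRight (!₂[0, 0, 0, 1] : E 4)

theorem prL_0 (κ υ : ℂ) (z : E 4) : prL κ υ z 0 = z 0 := by simp [prL]
theorem prL_1 (κ υ : ℂ) (z : E 4) : prL κ υ z 1 = υ * z 0 := by simp [prL, mul_comm]
theorem prL_2 (κ υ : ℂ) (z : E 4) : prL κ υ z 2 = κ * z 0 := by simp [prL, mul_comm]
theorem prL_3 (κ υ : ℂ) (z : E 4) : prL κ υ z 3 = z 3 := by simp [prL]

theorem prL_fix {κ υ : ℂ} {z : E 4} : prL κ υ z = z ↔ z 1 = υ * z 0 ∧ z 2 = κ * z 0 := by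
  constructor
  · intro h
    exact ⟨by rw [← prL_1 κ υ z, h], by rw [← prL_2 κ υ z, h]⟩
  · rintro ⟨h1, h2⟩
    exact E4_ext (prL_0 _ _ _) (by rw [prL_1, h1]) (by rw [prL_2, h2]) (prL_3 _ _ _)

theorem norm_sub_prL (κ υ : ℂ) (z : E 4) :
    ‖z - prL κ υ z‖ ≤ ‖z 1 - υ * z 0‖ + ‖z 2 - κ * z 0‖ := by
  refine (pow_le_pow_iff_left₀ (norm_nonneg _) (by positivity) two_ne_zero).1 ?_
  rw [norm_sq4]
  simp only [PiLp.sub_apply, prL_0, prL_1, prL_2, prL_3, sub_self, norm_zero]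
  have := norm_nonneg (z 1 - υ * z 0)
  have := norm_nonneg (z 2 - κ * z 0)
  nlinarith

theorem cont_coord (i : Fin 4) : Continuous fun z : E 4 => z i :=
  (EuclideanSpace.proj i : E 4 →L[ℂ] ℂ).continuous

theorem dist_le {κ υ a : ℂ} (hκ : κ ^ 3 = a) (hυ : υ ^ 4 = 1 - κ ^ 4) (hκ0 : κ ≠ 0) (hυ0 : υ ≠ 0)
    {p : E 4} (hp0 : p 0 ≠ 0) (hp : prL κ υ p = p) : ∃ C : ℝ, ∀ᶠ z in 𝓝 p,
      ‖z - prL κ υ z‖ ≤ C * (‖f4 z‖ + ‖4 * (z 2 ^ 3 - a * z 0 ^ 3)‖) := by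
  obtain ⟨h1, h2⟩ := prL_fix.1 hp
  have c0 := cont_coord 0
  have c1 := cont_coord 1
  have c2 := cont_coord 2
  let g0 : E 4 → ℂ := fun z => 4 * (z 2 ^ 2 + κ * z 0 * z 2 + κ ^ 2 * z 0 ^ 2)
  let g1 : E 4 → ℂ := fun z => z 1 ^ 3 + z 1 ^ 2 * (υ * z 0) + z 1 * (υ * z 0) ^ 2 + (υ * z 0) ^ 3
  let g2 : E 4 → ℂ := fun z => z 2 ^ 3 + z 2 ^ 2 * (κ * z 0) + z 2 * (κ * z 0) ^ 2 + (κ * z 0) ^ 3
  have hg0 : Continuous g0 := by fun_prop
  have hg1 : Continuous g1 := by fun_prop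
  have hg2 : Continuous g2 := by fun_prop
  have n0 : g0 p ≠ 0 := by
    have : g0 p = 12 * κ ^ 2 * p 0 ^ 2 := by simp only [g0, h2]; ring
    rw [this]
    exact mul_ne_zero (mul_ne_zero (by norm_num) (pow_ne_zero _ hκ0)) (pow_ne_zero _ hp0)
  have n1 : g1 p ≠ 0 := by
    have : g1 p = 4 * υ ^ 3 * p 0 ^ 3 := by simp only [g1, h1]; ring
    rw [this]
    exact mul_ne_zero (mul_ne_zero (by norm_num) (pow_ne_zero _ hυ0)) (pow_ne_zero _ hp0)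
  have k0 : ContinuousAt (fun z => ‖(g0 z)⁻¹‖) p := (hg0.continuousAt.inv₀ n0).norm
  have k1 : ContinuousAt (fun z => ‖(g1 z)⁻¹‖) p := (hg1.continuousAt.inv₀ n1).norm
  have k2 : ContinuousAt (fun z => ‖g2 z‖) p := hg2.continuousAt.norm
  set M0 := ‖(g0 p)⁻¹‖ + 1
  set M1 := ‖(g1 p)⁻¹‖ + 1
  set M2 := ‖g2 p‖ + 1
  have hM0 : 0 ≤ M0 := by positivity
  have hM1 : 0 ≤ M1 := by positivity
  have hM2 : 0 ≤ M2 := by positivity
  refine ⟨M1 + (M1 * M2 + 1) * M0, ?_⟩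
  filter_upwards [k0.eventually_lt continuousAt_const (lt_add_one _),
    k1.eventually_lt continuousAt_const (lt_add_one _),
    k2.eventually_lt continuousAt_const (lt_add_one _),
    hg0.continuousAt.eventually_ne n0, hg1.continuousAt.eventually_ne n1] with z b0 b1 b2 m0 m1
  have e0 : z 2 - κ * z 0 = (g0 z)⁻¹ * (4 * (z 2 ^ 3 - a * z 0 ^ 3)) := by
    rw [eq_inv_mul_iff_mul_eq₀ m0, ← hκ]
    simp only [g0]; ring
  have e1 : z 1 - υ * z 0 = (g1 z)⁻¹ * (f4 z - g2 z * (z 2 - κ * z 0)) := by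
    rw [eq_inv_mul_iff_mul_eq₀ m1]
    simp only [g1, g2, f4, fF]
    linear_combination (-z 0 ^ 4) * hυ
  have u0 : ‖z 2 - κ * z 0‖ ≤ M0 * ‖4 * (z 2 ^ 3 - a * z 0 ^ 3)‖ := by
    rw [e0, norm_mul]
    exact mul_le_mul_of_nonneg_right b0.le (norm_nonneg _)
  have u1 : ‖z 1 - υ * z 0‖ ≤ M1 * (‖f4 z‖ + M2 * ‖z 2 - κ * z 0‖) := by
    rw [e1, norm_mul]
    refine mul_le_mul b1.le ((norm_sub_le _ _).trans ?_) (norm_nonneg _) hM1
    rw [norm_mul]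
    exact add_le_add le_rfl (mul_le_mul_of_nonneg_right b2.le (norm_nonneg _))
  refine (norm_sub_prL κ υ z).trans ?_
  have w0 := norm_nonneg (f4 z)
  have w1 := norm_nonneg (4 * (z 2 ^ 3 - a * z 0 ^ 3))
  have u2 : (M1 * M2 + 1) * ‖z 2 - κ * z 0‖
      ≤ (M1 * M2 + 1) * (M0 * ‖4 * (z 2 ^ 3 - a * z 0 ^ 3)‖) :=
    mul_le_mul_of_nonneg_left u0 (by positivity)
  have u3 : 0 ≤ M1 * ‖4 * (z 2 ^ 3 - a * z 0 ^ 3)‖ := by positivity
  have u4 : 0 ≤ (M1 * M2 + 1) * M0 * ‖f4 z‖ := by positivity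
  nlinarith

/-- the plane points with `Y = 1` whose abscissa is in a finite set -/
theorem finite_B {S : Set ℂ} (hS : S.Finite) :
    {w : ℂ × ℂ | fF w.1 1 w.2 = 0 ∧ (w.2 = 0 ∨ w.1 / w.2 ∈ S)}.Finite := by
  have h1 : ((fun X : ℂ => (X, (0 : ℂ))) '' {X : ℂ | X ^ 4 = 1}).Finite :=
    (finite_pow_eq (by norm_num) 1).image _
  have h2 : (⋃ x ∈ S, (fun U : ℂ => (x * U, U)) '' {U : ℂ | U ^ 4 = (x ^ 4 - 1)⁻¹}).Finite :=
    hS.biUnion fun x _ => (finite_pow_eq (by norm_num) _).image _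
  refine (h1.union h2).subset ?_
  rintro ⟨X, U⟩ ⟨hf, h⟩
  simp only [fF] at hf h
  by_cases hU : U = 0
  · left
    refine ⟨X, ?_, by simp [hU]⟩
    simp only [Set.mem_ofPred_eq]
    rw [hU] at hf
    linear_combination -hf
  · right
    have hx := h.resolve_left hU
    simp only [Set.mem_iUnion]
    refine ⟨X / U, hx, U, ?_, by simp [hU]⟩
    simp only [Set.mem_ofPred_eq]
    refine eq_inv_of_mul_eq_one_left ?_
    field_simp
    linear_combination -hf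

end Geo

end A590
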