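import Pool.Agent.Lib.A590Defs

/-!
Internal definitions for the proof of MP_a590e5_an.
-/

open scoped ComplexConjugate ComplexOrder ContDiff Topology InnerProductSpace
open MeasureTheory Filter

noncomputable section

namespace A590

variable {n : ℕ}

/-- Orthonormal pairs `(z, v)`. -/
def XiSet (n : ℕ) : Set (E n × E n) := {p | ‖p.1‖ = 1 ∧ ‖p.2‖ = 1 ∧ ⟪p.1, p.2⟫_ℂ = 0}

abbrev Xi (n : ℕ) : Type := ↥(XiSet n)

def Xi.z (ξ : Xi n) : E n := ξ.1.1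
def Xi.v (ξ : Xi n) : E n := ξ.1.2

theorem Xi.norm_z (ξ : Xi n) : ‖ξ.z‖ = 1 := ξ.2.1
theorem Xi.norm_v (ξ : Xi n) : ‖ξ.v‖ = 1 := ξ.2.2.1
theorem Xi.inner_zv (ξ : Xi n) : ⟪ξ.z, ξ.v⟫_ℂ = 0 := ξ.2.2.2
theorem Xi.inner_vz (ξ : Xi n) : ⟪ξ.v, ξ.z⟫_ℂ = 0 := by
  rw [← inner_conj_symm, ξ.inner_zv, map_zero]
theorem Xi.z_ne (ξ : Xi n) : ξ.z ≠ 0 := by
  intro h; have := ξ.norm_z; rw [h, norm_zero] at this; exact zero_ne_one this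

@[fun_prop] theorem Xi.continuous_z : Continuous (Xi.z : Xi n → E n) :=
  continuous_fst.comp continuous_subtype_val
@[fun_prop] theorem Xi.continuous_v : Continuous (Xi.v : Xi n → E n) :=
  continuous_snd.comp continuous_subtype_val

theorem isCompact_XiSet : IsCompact (XiSet n) := by
  have h1 : IsCompact ((Metric.sphere (0 : E n) 1) ×ˢ (Metric.sphere (0 : E n) 1)) :=
    (isCompact_sphere _ _).prod (isCompact_sphere _ _)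
  refine h1.of_isClosed_subset ?_ ?_
  · refine (isClosed_eq (by fun_prop) continuous_const).inter
      ((isClosed_eq (by fun_prop) continuous_const).inter
        (isClosed_eq (continuous_fst.inner continuous_snd) continuous_const))
  · rintro p ⟨h1, h2, -⟩
    exact ⟨by simpa using h1, by simpa using h2⟩

instance : CompactSpace (Xi n) := isCompact_iff_compactSpace.1 isCompact_XiSet

/-- The measure `m` on orthonormal pairs represents a closed current. -/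
def ClosedM (m : Measure (Xi n)) : Prop :=
  ∀ α : E n → Fin n → ℂ, IsForm10 α →
    ∫ ξ, ∑ j, dzb (fun w => α w j) ξ.z ξ.v * ξ.v j ∂m = 0

/-- The vector `V` lies in the span of `z` and `v`. -/
def Dir (V : E n) (ξ : Xi n) : Prop := V = ⟪ξ.z, V⟫_ℂ • ξ.z + ⟪ξ.v, V⟫_ℂ • ξ.v

/-- No closed probability measure is directed by `V`. -/
def NoMeas (V : E n → E n) : Prop :=
  ∀ m : Measure (Xi n), IsProbabilityMeasure m → ClosedM m → (∀ᵐ ξ ∂m, Dir (V ξ.z) ξ) → False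

/-- `P` is holomorphic (complex smooth) and homogeneous of degree `r`. -/
structure HomMap {F : Type*} [NormedAddCommGroup F] [NormedSpace ℂ F] (P : E n → F) (r : ℕ) :
    Prop where
  cd : ContDiff ℂ ∞ P
  hom : ∀ (c : ℂ) (z : E n), P (c • z) = c ^ r • P z

/-- A smooth real function on projective space. -/
structure RHom0 (ψ : E n → ℝ) : Prop where
  cd : ContDiffOn ℝ ∞ ψ {0}ᶜ
  hom : ∀ z : E n, z ≠ 0 → ∀ c : ℂ, c ≠ 0 → ψ (c • z) = ψ z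

/-- An open cone not containing `0`. -/
structure IsCone (O : Set (E n)) : Prop where
  isOpen : IsOpen O
  zero : (0 : E n) ∉ O
  smul : ∀ z ∈ O, ∀ c : ℂ, c ≠ 0 → c • z ∈ O

/-- `dz` of a real function. -/
def rz {V : Type*} [NormedAddCommGroup V] [NormedSpace ℝ V] [SMul ℂ V]
    (ψ : V → ℝ) (z v : V) : ℂ := dz (fun w => (ψ w : ℂ)) z v

/-- The Levi form of `a` at `z` on the vector `v`. -/
def Lam (a : E n → ℂ) (z v : E n) : ℂ := dzb (fun w => dz a w v) z v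

/-- The normalized square norm of a homogeneous map. -/
def sP {F : Type*} [NormedAddCommGroup F] (P : E n → F) (r : ℕ) (z : E n) : ℝ :=
  ‖P z‖ ^ 2 / ‖z‖ ^ (2 * r)

/-- Smooth step: `0` on `(-∞, 1]`, `1` on `[2, ∞)`, monotone. -/
def st (x : ℝ) : ℝ := Real.smoothTransition (x - 1)

/-- The data of a degenerating family `f ^ j • q + ε • Z`. -/
structure Setup (n : ℕ) where
  f : E n → ℂ
  r : ℕ
  j : ℕ
  d : ℕ
  q : E n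
  Z : E n → E n
  h : E n → ℂ
  hf : HomMap f r
  hr : 1 ≤ r
  hj : 2 ≤ j
  hq : f q ≠ 0
  hZ : HomMap Z d
  hh : Continuous h
  tang : ∀ z, fderiv ℂ f z (Z z) = h z * f z

def Setup.V (S : Setup n) (ε : ℝ) (z : E n) : E n := S.f z ^ S.j • S.q + (ε : ℂ) • S.Z z

/-- The derivative of `f` along `q`. -/
def Setup.W (S : Setup n) (z : E n) : ℂ := fderiv ℂ S.f z S.q

/-- A point of `f = 0` where the line through `q` is transverse and `Z` is regular. -/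
def Setup.Good (S : Setup n) (p : E n) : Prop :=
  S.f p = 0 ∧ S.W p ≠ 0 ∧ ∀ c : ℂ, S.Z p ≠ c • p

/-- Closed directed probability measures for `ε k → 0`, with a weak limit. -/
structure Degen (S : Setup n) where
  ε : ℕ → ℝ
  pos : ∀ k, 0 < ε k
  lim : Tendsto ε atTop (𝓝 0)
  m : ℕ → ProbabilityMeasure (Xi n)
  m0 : ProbabilityMeasure (Xi n)
  conv : Tendsto m atTop (𝓝 m0)
  closed : ∀ k, ClosedM (m k : Measure (Xi n))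
  dir : ∀ k, ∀ᵐ ξ ∂(m k : Measure (Xi n)), Dir (S.V (ε k) ξ.z) ξ

/-- The invariant of the induction on the dimension. -/
def Fam (n : ℕ) : Prop :=
  ∃ R : ℝ, 0 < R ∧ ∃ c : ℂ → Coeff n 8, DifferentiableOn ℂ c (Metric.ball 0 R) ∧
    (∀ t ∈ Metric.ball (0 : ℂ) R, c t ∈ Fol n 8) ∧
    (∀ t : ℝ, |t| < R →
      ∃ T : Current n, T ≠ 0 ∧ Positive T ∧ Closed T ∧ StronglyDirected (field (c t)) T) ∧
    ∃ t0 ∈ Metric.ball (0 : ℂ) R, NoMeas (field (c t0))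

/-! ### The family on the cone over the Fermat quartic -/

section Family

variable {K : Type*} [CommRing K]

def fF (X Y U : K) : K := Y ^ 4 - X ^ 4 + U ^ 4
def P0 (c d X U : K) : K := d * U ^ 2 + c * X ^ 2
def Q0 (X Y U : K) : K := Y ^ 2 - X * U
def s1 (c d X Y U T : K) : K := P0 c d X U * T ^ 2 + Y * U ^ 3
def s2 (c d X Y U T : K) : K := Q0 X Y U * T ^ 2 + Y * P0 c d X U * T
def AA (c d X Y U T : K) : K :=
  P0 c d X U ^ 2 * T ^ 2 - 2 * Q0 X Y U * U ^ 3 * T - Y * P0 c d X U * U ^ 3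
/-- `AA = X * (c ^ 2 * X ^ 3 * T ^ 2) + U * cp`. -/
def cp (c d X Y U T : K) : K :=
  (2 * c * d * X ^ 2 * U + d ^ 2 * U ^ 3) * T ^ 2 - 2 * Q0 X Y U * U ^ 2 * T
    - Y * P0 c d X U * U ^ 2
/-- The rows of the matrix `N` (twice the numerator of the connection matrix) applied to
`(w1, w2)`. -/
def N1 (c d u X U w1 w2 : K) : K :=
  u * X * U * w1 + ((c + d * u) * U ^ 2 + (d + c * u) * X ^ 2) * w2
def N2 (c d u X U w1 w2 : K) : K :=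
  (-(d + c * u) * U ^ 2 + (c + d * u) * X ^ 2) * w1 - u * X * U * w2
def ZX (c d X Y U T : K) : K := 2 * Y ^ 3 * cp c d X Y U T
def ZY (c d p X Y U T : K) : K :=
  2 * (U ^ 3 * (c ^ 2 * X ^ 3 * T ^ 2) + X ^ 3 * cp c d X Y U T) + p * fF X Y U * U ^ 2 * T ^ 2
def ZU (c X Y T : K) : K := -2 * Y ^ 3 * (c ^ 2 * X ^ 3 * T ^ 2)
def ZT (c d u X Y U T : K) : K :=
  c ^ 2 * (d + c * u) * X ^ 6 * T ^ 2 + 4 * c * X ^ 5 * U ^ 2 * T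
  + 2 * c * (d + c * u) * X ^ 4 * Y * T ^ 3
  + (c + 3 * c * d * (d + c * u)) * X ^ 4 * U ^ 2 * T ^ 2 + 2 * X ^ 3 * Y * U ^ 2 * T ^ 2
  + 2 * c * u * X ^ 3 * U ^ 4 * T + 2 * d * X ^ 3 * U * T ^ 4
  + (c + d - c * d ^ 2 + c * u - d ^ 3 * u - d * u) * X ^ 2 * Y ^ 2 * T ^ 4
  + (2 + 4 * d * (d + c * u)) * X ^ 2 * Y * U ^ 2 * T ^ 3 - (c + d * u) * X ^ 2 * U ^ 6
  + (2 * d + 3 * d ^ 2 * (d + c * u)) * X ^ 2 * U ^ 4 * T ^ 2 + 2 * c * d * X * Y ^ 3 * U * T ^ 3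
  + 2 * u * X * Y * U ^ 4 * T ^ 2 + (2 * d * u - 4 * c) * X * U ^ 6 * T
  + 2 * c * X * U ^ 3 * T ^ 4 - 2 * c * (c + d * u) * Y ^ 3 * U ^ 3 * T ^ 2
  + (c - 2 * d - d ^ 3 + d * u - c * d ^ 2 * u) * Y ^ 2 * U ^ 2 * T ^ 4
  + 2 * d * (c + d * u) * Y * U ^ 4 * T ^ 3 + (d + c * u) * U ^ 8
  + d ^ 2 * (c + d * u) * U ^ 6 * T ^ 2

end Family

/-- The quartic on `E 4` (coordinates `X = z 0`, `Y = z 1`, `U = z 2`, `T = z 3`). -/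
def f4 (z : E 4) : ℂ := fF (z 0) (z 1) (z 2)

/-- The field tangent to the cone. -/
def Z4 (c d u p : ℂ) (z : E 4) : E 4 :=
  !₂[ZX c d (z 0) (z 1) (z 2) (z 3), ZY c d p (z 0) (z 1) (z 2) (z 3), ZU c (z 0) (z 1) (z 3),
    ZT c d u (z 0) (z 1) (z 2) (z 3)]

def q4 (a : ℂ) : E 4 := !₂[a, 0, 1, 0]

def A4 (c d : ℂ) (z : E 4) : ℂ := AA c d (z 0) (z 1) (z 2) (z 3)

/-- The section `s`. -/
def s4 (c d : ℂ) (z : E 4) : ℂ × ℂ :=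
  (s1 c d (z 0) (z 1) (z 2) (z 3), s2 c d (z 0) (z 1) (z 2) (z 3))

def det2 (a b : ℂ × ℂ) : ℂ := a.1 * b.2 - a.2 * b.1

/-- The right-hand side of the linear system. -/
def Mx (c d u x : ℂ) (w : ℂ × ℂ) : ℂ × ℂ :=
  (N1 c d u x 1 w.1 w.2 / (2 * (x ^ 4 - 1)), N2 c d u x 1 w.1 w.2 / (2 * (x ^ 4 - 1)))

def IsSol (c d u : ℂ) (φ : ℂ → ℂ × ℂ) (x : ℂ) : Prop := HasDerivAt φ (Mx c d u x (φ x)) x

/-- The plane slit along the rays from the fourth roots of unity to infinity. -/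
def Sp : Set ℂ := {x | 1 - x ^ 4 ∈ Complex.slitPlane}
/-- The plane slit along the segments from `0` to the fourth roots of unity. -/
def Sm : Set ℂ := {x | x ≠ 0 ∧ x⁻¹ ∈ Sp}

/-- The system has a flat positive Hermitian form. -/
def Unitary (c d u : ℂ) : Prop :=
  ∃ H : ℂ → ℂ × ℂ → ℝ, ∃ g : ℝ, 0 < g ∧ ∀ x0 : ℂ, x0 ^ 4 ≠ 1 → ∃ φ1 φ2 : ℂ → ℂ × ℂ,
    ∀ᶠ x in 𝓝 x0, IsSol c d u φ1 x ∧ IsSol c d u φ2 x ∧ ‖det2 (φ1 x) (φ2 x)‖ = g ∧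
      ∀ w, H x w = ‖det2 (φ1 x) w‖ ^ 2 + ‖det2 (φ2 x) w‖ ^ 2

/-- `φ1, φ2` are the eigen-solutions of a loxodromic monodromy. -/
def Lox (c d u : ℂ) (φ1 φ2 : ℂ → ℂ × ℂ) : Prop :=
  (∀ x ∈ Sp, IsSol c d u φ1 x ∧ IsSol c d u φ2 x ∧ det2 (φ1 x) (φ2 x) ≠ 0) ∧
  ∃ ψ1 ψ2 : ℂ → ℂ × ℂ,
    (∀ x ∈ Sm, IsSol c d u ψ1 x ∧ IsSol c d u ψ2 x ∧ det2 (ψ1 x) (ψ2 x) ≠ 0) ∧
    (∃ x0 ∈ Sp ∩ Sm, ∀ᶠ x in 𝓝 x0, ψ1 x = φ1 x ∧ ψ2 x = φ2 x) ∧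
    ∃ x1 ∈ Sp ∩ Sm, ∃ l1 l2 : ℂ, ‖l1‖ < ‖l2‖ ∧
      ∀ᶠ x in 𝓝 x1, ψ1 x = l1 • φ1 x ∧ ψ2 x = l2 • φ2 x

/-- Two loxodromic monodromies without common eigenvector. -/
def NoInv (c d u : ℂ) : Prop :=
  ∃ φ1 φ2 χ1 χ2 : ℂ → ℂ × ℂ, Lox c d u φ1 φ2 ∧ Lox c d u χ1 χ2 ∧
    ∀ x ∈ Sp, det2 (φ1 x) (χ1 x) ≠ 0 ∧ det2 (φ1 x) (χ2 x) ≠ 0 ∧
      det2 (φ2 x) (χ1 x) ≠ 0 ∧ det2 (φ2 x) (χ2 x) ≠ 0

/-- Open algebraic conditions on the parameters. -/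
structure Nice (c d u : ℂ) : Prop where
  rel : c ^ 2 - d ^ 2 = 1
  c_ne : c ≠ 0
  noPQ : ∀ x y : ℂ, fF x y 1 = 0 → P0 c d x 1 ≠ 0 ∨ Q0 x y 1 ≠ 0
  finD : {x : ℂ | ∃ y, fF x y 1 = 0 ∧ Q0 x y 1 ^ 2 + y * P0 c d x 1 ^ 3 = 0}.Finite
  finS : {x : ℂ | ∃ y t, fF x y 1 = 0 ∧ AA c d x y 1 t = 0 ∧
    ZT c d u x y 1 t = t * ZU c x y t}.Finite
  br1 : ∀ t : ℂ, AA c d 1 0 1 t = 0 → ZT c d u 1 0 1 t ≠ 0
  br0 : ∀ x : ℂ, x ^ 4 = 1 → ZT c d u x 0 1 0 ≠ 0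

/-! ### The system on the rays `x = r * w`, `w ^ 4 = -1` -/

/-- Parameters `p = (ρ, β, γ)`. -/
def rayA (p : ℂ × ℂ × ℂ) (r : ℝ) (w : ℂ × ℂ) : ℂ × ℂ :=
  ((p.2.2 * r * w.1 + (p.1 - p.2.1 * r ^ 2) * w.2) / (2 * (1 + r ^ 4)),
    ((p.2.1 - p.1 * r ^ 2) * w.1 - p.2.2 * r * w.2) / (2 * (1 + r ^ 4)))

def RaySol (p : ℂ × ℂ × ℂ) (y : ℝ → ℂ × ℂ) (y0 : ℂ × ℂ) : Prop :=
  y 0 = y0 ∧ ∀ r ∈ Set.Icc (0 : ℝ) 1, HasDerivWithinAt y (rayA p r (y r)) (Set.Icc 0 1) r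

/-- The fundamental solution on the rays, for all parameters. -/
structure RayData where
  y : ℂ × ℂ × ℂ → ℝ → ℂ × ℂ
  yh : ℂ × ℂ × ℂ → ℝ → ℂ × ℂ
  sol : ∀ p, RaySol p (y p) (1, 0)
  solh : ∀ p, RaySol p (yh p) (0, 1)
  cd : ContDiff ℂ 1 fun p => y p 1
  cdh : ContDiff ℂ 1 fun p => yh p 1

def RayData.al (D : RayData) (p : ℂ × ℂ × ℂ) : ℂ := (D.yh p 1).2 ^ 2 - (D.yh p 1).1 ^ 2
def RayData.de (D : RayData) (p : ℂ × ℂ × ℂ) : ℂ := (D.y p 1).1 ^ 2 - (D.y p 1).2 ^ 2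
def RayData.ee (D : RayData) (p : ℂ × ℂ × ℂ) : ℂ :=
  (D.y p 1).1 * (D.yh p 1).1 - (D.y p 1).2 * (D.yh p 1).2

/-- The open quadrant around `w`. -/
def Quad (w : ℂ) : Set ℂ := {x | |(x * conj w).im| < (x * conj w).re}

/-- Fundamental systems on `Sp` and `Sm` and their transition matrices. -/
def RayData.Mono (D : RayData) (c d u : ℂ) : Prop :=
  ∃ Φ1 Φ2 Ψ1 Ψ2 : ℂ → ℂ × ℂ,
    (∀ x ∈ Sp, IsSol c d u Φ1 x ∧ IsSol c d u Φ2 x ∧ det2 (Φ1 x) (Φ2 x) = 1) ∧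
    (∀ x ∈ Sm, IsSol c d u Ψ1 x ∧ IsSol c d u Ψ2 x ∧ det2 (Ψ1 x) (Ψ2 x) = 1) ∧
    ∀ w σ : ℂ, (σ = 1 ∨ σ = -1) → w ^ 2 = σ * Complex.I → ∀ x ∈ Quad w,
      Ψ1 x = D.al (c + d * u, -σ * Complex.I * (d + c * u), -σ * Complex.I * u) • Φ1 x
        + (D.ee (c + d * u, -σ * Complex.I * (d + c * u), -σ * Complex.I * u) * w ^ 3) • Φ2 x ∧
      Ψ2 x = (-D.ee (c + d * u, -σ * Complex.I * (d + c * u), -σ * Complex.I * u) * conj w ^ 3)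
          • Φ1 x
        + D.de (c + d * u, -σ * Complex.I * (d + c * u), -σ * Complex.I * u) • Φ2 x

/-! ### Passing from `n` to `n + 1` variables -/

def tl (z : E (n + 1)) : E n := WithLp.toLp 2 fun i => z i.succ
def cns (w : ℂ) (z : E n) : E (n + 1) := WithLp.toLp 2 (Fin.cons w fun i => z i)

/-- The field `w ^ 8 e_0 + ε (V z + w ^ 7 M z)`. -/
def liftV (V : E n → E n) (M : E n →L[ℂ] E n) (ε : ℂ) (z : E (n + 1)) : E (n + 1) :=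
  z 0 ^ 8 • cns 1 0 + ε • cns 0 (V (tl z) + z 0 ^ 7 • M (tl z))

end A590
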