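import Pool.Agent.Lib.A590Calc

/-!
Induction on the dimension (measures), part 1: linear algebra and lifting of forms.
-/

open scoped ComplexConjugate ComplexOrder ContDiff Topology InnerProductSpace
open MeasureTheory Filter

noncomputable section

namespace A590

namespace I2

variable {n : ℕ}

@[simp] theorem cns_zero (w : ℂ) (z : E n) : cns w z 0 = w := rfl
@[simp] theorem cns_succ (w : ℂ) (z : E n) (i : Fin n) : cns w z i.succ = z i := rfl
@[simp] theorem tl_apply (z : E (n + 1)) (i : Fin n) : tl z i = z i.succ := rfl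
@[simp] theorem tl_cns (w : ℂ) (z : E n) : tl (cns w z) = z := by ext i; simp

theorem ext_succ {z z' : E (n + 1)} (h0 : z 0 = z' 0) (h1 : tl z = tl z') : z = z' := by
  ext i
  refine Fin.cases h0 (fun j => ?_) i
  have := congrArg (fun x : E n => x j) h1
  simpa using this

/-- `tl` as a continuous linear map -/
def tlL (n : ℕ) : E (n + 1) →L[ℂ] E n := LinearMap.toContinuousLinearMap
  { toFun := tl
    map_add' := fun x y => by ext i; simp
    map_smul' := fun c x => by ext i; simp }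

@[simp] theorem tlL_apply (z : E (n + 1)) : tlL n z = tl z := rfl

/-- `cns 0` as a continuous linear map -/
def cnL (n : ℕ) : E n →L[ℂ] E (n + 1) := LinearMap.toContinuousLinearMap
  { toFun := cns 0
    map_add' := fun x y => by
      ext i; refine Fin.cases ?_ (fun j => ?_) i <;> simp
    map_smul' := fun c x => by
      ext i; refine Fin.cases ?_ (fun j => ?_) i <;> simp }

@[simp] theorem cnL_apply (z : E n) : cnL n z = cns 0 z := rfl

/-- the first coordinate -/
def hdL (n : ℕ) : E (n + 1) →L[ℂ] ℂ := EuclideanSpace.proj 0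

@[simp] theorem hdL_apply (z : E (n + 1)) : hdL n z = z 0 := rfl

theorem tl_smul (c : ℂ) (z : E (n + 1)) : tl (c • z) = c • tl z := (tlL n).map_smul c z
theorem tl_add (z z' : E (n + 1)) : tl (z + z') = tl z + tl z' := (tlL n).map_add z z'

theorem norm_sq_succ (z : E (n + 1)) : ‖z‖ ^ 2 = ‖z 0‖ ^ 2 + ‖tl z‖ ^ 2 := by
  rw [EuclideanSpace.norm_sq_eq, EuclideanSpace.norm_sq_eq, Fin.sum_univ_succ]; rfl

theorem inner_succ (z z' : E (n + 1)) :
    ⟪z, z'⟫_ℂ = z' 0 * conj (z 0) + ⟪tl z, tl z'⟫_ℂ := by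
  simp only [PiLp.inner_apply, Fin.sum_univ_succ]; rfl

theorem inner_cns (x y : E n) : ⟪cns 0 x, cns 0 y⟫_ℂ = ⟪x, y⟫_ℂ := by
  rw [inner_succ]; simp

theorem norm_cns (x : E n) : ‖cns 0 x‖ = ‖x‖ := by
  have h := norm_sq_succ (cns 0 x)
  simp only [cns_zero, norm_zero, tl_cns] at h
  exact (pow_left_inj₀ (norm_nonneg _) (norm_nonneg _) two_ne_zero).1 (by linarith)

theorem not_line_iff (z : E (n + 1)) : (∀ c : ℂ, z ≠ c • cns 1 (0 : E n)) ↔ tl z ≠ 0 := by
  constructor
  · intro h h0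
    exact h (z 0) (ext_succ (by simp) (by rw [tl_smul, h0]; simp))
  · rintro h c rfl
    exact h (by rw [tl_smul]; simp)

/-- the inclusion of orthonormal pairs -/
def inc (ξ : Xi n) : Xi (n + 1) :=
  ⟨(cns 0 ξ.z, cns 0 ξ.v), by rw [norm_cns]; exact ξ.norm_z, by rw [norm_cns]; exact ξ.norm_v,
    by rw [inner_cns]; exact ξ.inner_zv⟩

@[simp] theorem inc_z (ξ : Xi n) : (inc ξ).z = cns 0 ξ.z := rfl
@[simp] theorem inc_v (ξ : Xi n) : (inc ξ).v = cns 0 ξ.v := rfl

theorem inc_continuous : Continuous (inc : Xi n → Xi (n + 1)) :=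
  Continuous.subtype_mk (((cnL n).continuous.comp Xi.continuous_z).prodMk
    ((cnL n).continuous.comp Xi.continuous_v)) _

theorem inc_injective : Function.Injective (inc : Xi n → Xi (n + 1)) := by
  intro ξ η h
  have h1 := congrArg (fun x => tl (Xi.z x)) h
  have h2 := congrArg (fun x => tl (Xi.v x)) h
  simp only [inc_z, inc_v, tl_cns] at h1 h2
  exact Subtype.ext (Prod.ext h1 h2)

theorem inc_meas : MeasurableEmbedding (inc : Xi n → Xi (n + 1)) :=
  (inc_continuous.isClosedEmbedding inc_injective).measurableEmbedding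

theorem mem_range_inc {ξ : Xi (n + 1)} (h1 : ξ.z 0 = 0) (h2 : ξ.v 0 = 0) :
    ξ ∈ Set.range (inc : Xi n → Xi (n + 1)) := by
  have e1 : cns 0 (tl ξ.z) = ξ.z := ext_succ (by simp [h1]) (by simp)
  have e2 : cns 0 (tl ξ.v) = ξ.v := ext_succ (by simp [h2]) (by simp)
  refine ⟨⟨(tl ξ.z, tl ξ.v), ?_, ?_, ?_⟩, Subtype.ext (Prod.ext e1 e2)⟩
  · rw [← norm_cns, e1]; exact ξ.norm_z
  · rw [← norm_cns, e2]; exact ξ.norm_v
  · rw [← inner_cns, e1, e2]; exact ξ.inner_zv

theorem dir_of_inc {x : E n} {ξ : Xi n} (h : Dir (cns 0 x) (inc ξ)) : Dir x ξ := by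
  have := congrArg tl h
  rw [inc_z, inc_v, inner_cns, inner_cns, tl_add, tl_smul, tl_smul] at this
  simpa only [tl_cns, Dir] using this

/-! ### lifting of `(1,0)`-forms -/

def rat (z : E (n + 1)) : ℝ := 4 * ‖z 0‖ ^ 2 / ‖z‖ ^ 2

def chi (z : E (n + 1)) : ℝ := 1 - st (rat z)

theorem rat_cd {z : E (n + 1)} (hz : z ≠ 0) : ContDiffAt ℝ ∞ rat z := by
  have h1 : ContDiffAt ℝ ∞ (fun w : E (n + 1) => ‖w 0‖ ^ 2) z :=
    (((hdL n).restrictScalars ℝ).contDiff.contDiffAt).norm_sq ℂ
  have h2 : ContDiffAt ℝ ∞ (fun w : E (n + 1) => ‖w‖ ^ 2) z := contDiffAt_id.norm_sq ℂ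
  exact (contDiffAt_const.mul h1).div h2 (by simpa using hz)

theorem chi_cd {z : E (n + 1)} (hz : z ≠ 0) : ContDiffAt ℝ ∞ chi z :=
  contDiffAt_const.sub (st_contDiff.contDiffAt.comp z (rat_cd hz))

theorem chi_smul (z : E (n + 1)) {c : ℂ} (hc : c ≠ 0) : chi (c • z) = chi z := by
  have : ‖c‖ ^ 2 ≠ 0 := by simpa using hc
  unfold chi rat
  rw [PiLp.smul_apply, norm_smul, norm_smul, mul_pow, mul_pow, mul_left_comm,
    mul_div_mul_left _ _ this]

theorem chi_one {z : E (n + 1)} (hz : z ≠ 0) (h : z 0 = 0) : ∀ᶠ w in 𝓝 z, chi w = 1 := by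
  have h1 : rat z < 1 := by simp [rat, h]
  filter_upwards [(rat_cd hz).continuousAt.eventually_lt continuousAt_const h1] with w hw
  rw [chi, st_zero hw.le, sub_zero]

theorem chi_zero {z : E (n + 1)} (hz : z ≠ 0) (h : tl z = 0) : ∀ᶠ w in 𝓝 z, chi w = 0 := by
  have h1 : 2 < rat z := by
    have h2 := norm_sq_succ z
    have h3 : 0 < ‖z‖ ^ 2 := by positivity
    rw [h, norm_zero] at h2
    rw [rat, lt_div_iff₀ h3]
    linarith
  filter_upwards [continuousAt_const.eventually_lt (rat_cd hz).continuousAt h1] with w hw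
  rw [chi, st_one hw.le, sub_self]

def lift (α : E n → Fin n → ℂ) (z : E (n + 1)) : Fin (n + 1) → ℂ :=
  Fin.cons 0 fun j => (chi z : ℂ) * α (tl z) j

@[simp] theorem lift_zero (α : E n → Fin n → ℂ) (z : E (n + 1)) : lift α z 0 = 0 := rfl
@[simp] theorem lift_succ (α : E n → Fin n → ℂ) (z : E (n + 1)) (j : Fin n) :
    lift α z j.succ = (chi z : ℂ) * α (tl z) j := rfl

theorem form_cd {α : E n → Fin n → ℂ} (h : IsForm10 α) {z : E n} (hz : z ≠ 0) (j : Fin n) :
    ContDiffAt ℝ ∞ (fun w => α w j) z :=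
  contDiffAt_pi.1 (h.1.contDiffAt (isOpen_compl_singleton.mem_nhds hz)) j

theorem lift_form {α : E n → Fin n → ℂ} (h : IsForm10 α) : IsForm10 (lift α) := by
  refine ⟨fun z hz => ContDiffAt.contDiffWithinAt (contDiffAt_pi.2 fun j => ?_),
    fun z hz c hc j => ?_, fun z hz => ?_⟩
  · refine Fin.cases contDiffAt_const (fun j => ?_) j
    by_cases h0 : tl z = 0
    · refine (contDiffAt_const (c := (0 : ℂ))).congr_of_eventuallyEq ?_
      filter_upwards [chi_zero hz h0] with w hw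
      simp [hw]
    · exact (Complex.ofRealCLM.contDiff.contDiffAt.comp z (chi_cd hz)).mul
        ((form_cd h h0 j).comp z ((tlL n).restrictScalars ℝ).contDiff.contDiffAt)
  · refine Fin.cases (by simp) (fun j => ?_) j
    rw [lift_succ, lift_succ, chi_smul z hc]
    by_cases h0 : tl z = 0
    · simp [(chi_zero hz h0).self_of_nhds]
    · rw [tl_smul, h.2.1 _ h0 c hc]; ring
  · rw [Fin.sum_univ_succ]
    simp only [lift_zero, zero_mul, zero_add, lift_succ, mul_assoc, ← Finset.mul_sum]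
    by_cases h0 : tl z = 0
    · simp [(chi_zero hz h0).self_of_nhds]
    · have := h.2.2 _ h0
      simp only [tl_apply] at this
      rw [this, mul_zero]

theorem lift_integrand {α : E n → Fin n → ℂ} (h : IsForm10 α) (ξ : Xi n) :
    ∑ j, dzb (fun w => lift α w j) (inc ξ).z (inc ξ).v * (inc ξ).v j =
      ∑ j, dzb (fun w => α w j) ξ.z ξ.v * ξ.v j := by
  rw [Fin.sum_univ_succ]
  simp only [inc_z, inc_v, cns_zero, mul_zero, zero_add, cns_succ]
  refine Finset.sum_congr rfl fun j _ => ?_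
  congr 1
  have hz : cns 0 ξ.z ≠ 0 := (inc ξ).z_ne
  have e1 : (fun w => lift α w j.succ) =ᶠ[𝓝 (cns 0 ξ.z)] fun w => α (tlL n w) j := by
    filter_upwards [chi_one hz rfl] with w hw
    simp [hw]
  rw [dzb_congr e1, dzb_comp_holo (G := fun w => α w j) (x := tlL n) ?_ (tlL n).differentiableAt,
    ContinuousLinearMap.fderiv]
  · simp
  · simpa using (form_cd h ξ.z_ne j).differentiableAt (by simp)

theorem closed_comap {m : Measure (Xi (n + 1))} (hm : ClosedM m)
    (hr : ∀ᵐ ξ ∂m, ξ ∈ Set.range (inc : Xi n → Xi (n + 1))) :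
    ClosedM (m.comap (inc : Xi n → Xi (n + 1))) := by
  intro α hα
  have e : (m.comap (inc : Xi n → Xi (n + 1))).map inc = m := by
    rw [inc_meas.map_comap, Measure.restrict_eq_self_of_ae_mem hr]
  have h1 := hm _ (lift_form hα)
  rw [← e, inc_meas.integral_map] at h1
  simpa only [lift_integrand hα] using h1

/-! ### a basis of regular vectors -/

theorem isOpen_reg {V : E n → E n} (hV : Continuous V) :
    IsOpen {z : E n | ∃ i j, z i * V z j ≠ z j * V z i} := by
  simp only [Set.ofPred_exists]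
  refine isOpen_iUnion fun i => isOpen_iUnion fun j => isOpen_ne_fun ?_ ?_ <;> fun_prop

theorem exists_basis {V : E n → E n} (hV : Continuous V) (h0 : ∃ z, z ≠ 0 ∧ z ∉ Sing V) :
    ∃ (k : ℕ) (b : Module.Basis (Fin k) ℂ (E n)), ∀ i, ∀ c : ℂ, V (b i) ≠ c • b i := by
  set U := {z : E n | ∃ i j, z i * V z j ≠ z j * V z i} with hU
  have hne : U.Nonempty := by
    obtain ⟨z, h1, h2⟩ := h0
    refine ⟨z, ?_⟩
    by_contra h3
    simp only [hU, Set.mem_ofPred_eq, not_exists, not_not] at h3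
    exact h2 ⟨h1, h3⟩
  have hspan : Submodule.span ℂ U = ⊤ := by
    apply Submodule.eq_top_of_nonempty_interior'
    obtain ⟨z, hz⟩ := hne
    exact ⟨z, interior_mono Submodule.subset_span ((isOpen_reg hV).interior_eq.symm ▸ hz)⟩
  obtain ⟨s, hs, hsp, hli⟩ := exists_linearIndependent ℂ U
  let b0 : Module.Basis s ℂ (E n) := Module.Basis.mk hli (by
    rw [Subtype.range_coe_subtype, Set.ofPred_mem_eq, hsp, hspan])
  have : Finite s := Module.Finite.finite_basis b0
  let _ : Fintype s := Fintype.ofFinite s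
  refine ⟨Fintype.card s, b0.reindex (Fintype.equivFin s), fun i c hc => ?_⟩
  rw [Module.Basis.reindex_apply] at hc
  have e : b0 ((Fintype.equivFin s).symm i) = ((Fintype.equivFin s).symm i : E n) := by
    simp [b0]
  rw [e] at hc
  obtain ⟨a, a', h⟩ := hs ((Fintype.equivFin s).symm i).2
  apply h
  rw [hc]
  simp only [PiLp.smul_apply, smul_eq_mul]
  ring

end I2

end A590
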