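import Pool.Agent.Lib.A590Limit

/-!
The leak estimates, part 1: the general inequality and the pointwise identities.
-/

open scoped ComplexConjugate ComplexOrder ContDiff Topology InnerProductSpace
open MeasureTheory Filter

noncomputable section

namespace A590

variable {n : ℕ}

namespace PL

theorem cont_stdiv (θ : ℝ) : Continuous fun x : ℝ => st (x / θ) := by fun_prop

theorem ineq {m : Measure (Xi n)} [IsFiniteMeasure m] (hm : ClosedM m) {P : E n → ℂ} {r : ℕ}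
    (hP : HomMap P r) {ψ : E n → ℝ} (hψ : RHom0 ψ) (hpos : ∀ z, 0 ≤ ψ z) {θ δ0 δ1 C0 : ℝ}
    (hδ0 : 0 < δ0) (hθ : δ0 ≤ θ) (hδ1 : 0 < δ1)
    (h0 : ∀ᵐ ξ ∂m, ψ ξ.z ≠ 0 → ‖P ξ.z‖ ^ 2 ≤ δ1 → ‖fderiv ℂ P ξ.z ξ.v‖ ≤ C0 * ‖P ξ.z‖)
    {g : Xi n → ℝ} (hg : Integrable g m) (hg0 : ∀ ξ, 0 ≤ g ξ)
    (hle : ∀ᵐ ξ ∂m, P ξ.z ≠ 0 → ‖P ξ.z‖ ^ 2 ≤ 2 * θ →
      ‖fderiv ℂ P ξ.z ξ.v‖ * ‖rz ψ ξ.z ξ.v‖ ≤ ‖P ξ.z‖ * g ξ) :
    ∫ ξ, ψ ξ.z * (deriv st (‖P ξ.z‖ ^ 2 / θ) / θ * ‖fderiv ℂ P ξ.z ξ.v‖ ^ 2) ∂m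
      + r * ∫ ξ, ψ ξ.z * (st (‖P ξ.z‖ ^ 2 / δ0) - st (‖P ξ.z‖ ^ 2 / θ)) ∂m ≤ ∫ ξ, g ξ ∂m := by
  obtain ⟨C, hC⟩ := st_deriv
  have hC0 : 0 ≤ C := (hC 0).1.trans (hC 0).2.1
  have hθ0 : 0 < θ := hδ0.trans_le hθ
  have hPc0 := hP.cont
  have hPc : Continuous fun ξ : Xi n => P ξ.z := hP.cont.comp Xi.continuous_z
  have hDc := hP.cont_Dxi Xi.continuous_v
  have hψc := hψ.cont
  have hrc := hψ.cont_rz Xi.continuous_v
  have hs : Continuous fun ξ : Xi n => ‖P ξ.z‖ ^ 2 := by fun_prop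
  have FBx : ∀ a : ℝ, 0 < a →
      ((∫ ξ, ψ ξ.z * (deriv st (‖P ξ.z‖ ^ 2 / a) / a * ‖fderiv ℂ P ξ.z ξ.v‖ ^ 2) ∂m
      - r * ∫ ξ, ψ ξ.z * st (‖P ξ.z‖ ^ 2 / a) ∂m : ℝ) : ℂ)
      + ∫ ξ, ((st (‖P ξ.z‖ ^ 2 / a) / ‖P ξ.z‖ ^ 2 : ℝ) : ℂ)
          * (conj (P ξ.z) * fderiv ℂ P ξ.z ξ.v) * conj (rz ψ ξ.z ξ.v) ∂m = 0 := by
    intro a ha
    have h1 := FB_B hm hP hψ (fun s _ => contDiffAt_st_div ha s)
      (B := fun x => st (x / a)) fun s _ => Eventually.of_forall (st_div_mul ha)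
    simpa only [deriv_st_div] using h1
  have cL : ∀ a : ℝ, 0 < a → Continuous fun ξ : Xi n =>
      ((st (‖P ξ.z‖ ^ 2 / a) / ‖P ξ.z‖ ^ 2 : ℝ) : ℂ)
          * (conj (P ξ.z) * fderiv ℂ P ξ.z ξ.v) * conj (rz ψ ξ.z ξ.v) := fun a ha =>
    ((Complex.continuous_ofReal.comp (cont_comp_nonneg (fun s _ => contDiffAt_st_div ha s) hs
      fun ξ => sq_nonneg _).1).mul ((Complex.continuous_conj.comp hPc).mul hDc)).mul
      (Complex.continuous_conj.comp hrc)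
  have cM : ∀ a : ℝ, Continuous fun ξ : Xi n => ψ ξ.z * st (‖P ξ.z‖ ^ 2 / a) := fun a =>
    hψc.mul ((cont_stdiv a).comp hs)
  have t1 : Tendsto (fun δ : ℝ => ∫ ξ, ψ ξ.z * (deriv st (‖P ξ.z‖ ^ 2 / δ) / δ
      * ‖fderiv ℂ P ξ.z ξ.v‖ ^ 2) ∂m) (𝓝[>] 0) (𝓝 (∫ _ : Xi n, (0 : ℝ) ∂m)) := by
    refine tendsto_integral_filter_of_dominated_convergence (fun ξ => ψ ξ.z * (2 * C * C0 ^ 2))
      (Eventually.of_forall fun δ => Continuous.aestronglyMeasurable ?_) ?_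
      (cont_integrable (hψc.mul continuous_const)) (Eventually.of_forall fun ξ => ?_)
    · exact hψc.mul (((st_deriv_continuous.comp (hs.div_const δ)).div_const δ).mul
        (hDc.norm.pow 2))
    · filter_upwards [Ioo_mem_nhdsGT (half_pos hδ1)] with δ hδ
      filter_upwards [h0] with ξ hξ
      have hδ' := hδ.1
      have k0 := (hC (‖P ξ.z‖ ^ 2 / δ)).1
      have k0' := hpos ξ.z
      rw [Real.norm_eq_abs, abs_of_nonneg (by positivity)]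
      by_cases h1 : ψ ξ.z = 0
      · simp [h1]
      refine mul_le_mul_of_nonneg_left ?_ k0'
      by_cases h2 : ‖P ξ.z‖ ^ 2 ≤ 2 * δ
      · have k1 := hξ h1 (by linarith [hδ.2])
        have k2 : ‖fderiv ℂ P ξ.z ξ.v‖ ^ 2 ≤ C0 ^ 2 * (2 * δ) :=
          calc _ ≤ (C0 * ‖P ξ.z‖) ^ 2 := pow_le_pow_left₀ (norm_nonneg _) k1 2
            _ = C0 ^ 2 * ‖P ξ.z‖ ^ 2 := by ring
            _ ≤ _ := by gcongr
        calc _ ≤ C / δ * (C0 ^ 2 * (2 * δ)) := by gcongr; exact (hC _).2.1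
          _ = _ := by field_simp
      · rw [(hC _).2.2 (Or.inr (by rw [lt_div_iff₀ hδ']; linarith))]
        simp only [zero_div, zero_mul]; positivity
    · refine tendsto_const_nhds.congr' ?_
      by_cases h : P ξ.z = 0
      · refine Eventually.of_forall fun δ => ?_
        simp only [h, norm_zero]
        rw [(hC _).2.2 (Or.inl (by simp))]; simp
      · have h1 : 0 < ‖P ξ.z‖ ^ 2 := by positivity
        filter_upwards [Ioo_mem_nhdsGT (half_pos h1)] with δ hδ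
        rw [(hC _).2.2 (Or.inr (by rw [lt_div_iff₀ hδ.1]; linarith [hδ.2]))]; simp
  rw [integral_zero] at t1
  have t2 := t1.add_const (∫ ξ, g ξ ∂m)
  rw [zero_add] at t2
  refine ge_of_tendsto t2 ?_
  filter_upwards [Ioo_mem_nhdsGT hδ0] with δ hδ
  have e1 := FBx θ hθ0
  have e2 := FBx δ hδ.1
  have hL : ‖∫ ξ, ((st (‖P ξ.z‖ ^ 2 / δ) / ‖P ξ.z‖ ^ 2 : ℝ) : ℂ)
          * (conj (P ξ.z) * fderiv ℂ P ξ.z ξ.v) * conj (rz ψ ξ.z ξ.v) ∂m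
      - ∫ ξ, ((st (‖P ξ.z‖ ^ 2 / θ) / ‖P ξ.z‖ ^ 2 : ℝ) : ℂ)
          * (conj (P ξ.z) * fderiv ℂ P ξ.z ξ.v) * conj (rz ψ ξ.z ξ.v) ∂m‖ ≤ ∫ ξ, g ξ ∂m := by
    rw [← integral_sub (cont_integrable (cL δ hδ.1)) (cont_integrable (cL θ hθ0))]
    refine norm_integral_le_of_norm_le hg ?_
    filter_upwards [hle] with ξ hξ
    rw [← sub_mul, ← sub_mul, ← Complex.ofReal_sub, ← sub_div, norm_mul, norm_mul, norm_mul,
      Complex.norm_real, RCLike.norm_conj, RCLike.norm_conj, Real.norm_eq_abs]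
    by_cases h : P ξ.z = 0
    · simpa [h] using hg0 ξ
    have h1 : 0 < ‖P ξ.z‖ := norm_pos_iff.2 h
    by_cases h2 : ‖P ξ.z‖ ^ 2 ≤ 2 * θ
    · have k1 : |st (‖P ξ.z‖ ^ 2 / δ) - st (‖P ξ.z‖ ^ 2 / θ)| ≤ 1 := by
        rw [abs_le]
        constructor <;> linarith [st_nonneg (‖P ξ.z‖ ^ 2 / δ), st_le_one (‖P ξ.z‖ ^ 2 / δ),
          st_nonneg (‖P ξ.z‖ ^ 2 / θ), st_le_one (‖P ξ.z‖ ^ 2 / θ)]
      rw [abs_div, abs_of_pos (by positivity : 0 < ‖P ξ.z‖ ^ 2)]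
      calc _ ≤ 1 / ‖P ξ.z‖ ^ 2 * (‖P ξ.z‖ * ‖fderiv ℂ P ξ.z ξ.v‖) * ‖rz ψ ξ.z ξ.v‖ := by gcongr
        _ = ‖P ξ.z‖⁻¹ * (‖fderiv ℂ P ξ.z ξ.v‖ * ‖rz ψ ξ.z ξ.v‖) := by field_simp
        _ ≤ ‖P ξ.z‖⁻¹ * (‖P ξ.z‖ * g ξ) :=
            mul_le_mul_of_nonneg_left (hξ h h2) (by positivity)
        _ = g ξ := by field_simp
    · rw [st_one (x := ‖P ξ.z‖ ^ 2 / θ) (by rw [le_div_iff₀ hθ0]; linarith),
        st_one (x := ‖P ξ.z‖ ^ 2 / δ) (by rw [le_div_iff₀ hδ.1]; linarith [hδ.2])]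
      simpa using hg0 ξ
  have hM : ∫ ξ, ψ ξ.z * (st (‖P ξ.z‖ ^ 2 / δ0) - st (‖P ξ.z‖ ^ 2 / θ)) ∂m
      ≤ ∫ ξ, ψ ξ.z * st (‖P ξ.z‖ ^ 2 / δ) ∂m - ∫ ξ, ψ ξ.z * st (‖P ξ.z‖ ^ 2 / θ) ∂m := by
    rw [← integral_sub (cont_integrable (cM δ)) (cont_integrable (cM θ))]
    refine integral_mono (cont_integrable ?_) (cont_integrable ((cM δ).sub (cM θ))) fun ξ => ?_
    · exact hψc.mul (((cont_stdiv δ0).comp hs).sub ((cont_stdiv θ).comp hs))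
    · simp only
      rw [← mul_sub]
      refine mul_le_mul_of_nonneg_left (sub_le_sub_right (st_mono ?_) _) (hpos _)
      exact div_le_div_of_nonneg_left (sq_nonneg _) hδ.1 hδ.2.le
  rw [eq_neg_of_add_eq_zero_right e1, eq_neg_of_add_eq_zero_right e2, ← Complex.ofReal_neg,
    ← Complex.ofReal_neg, ← Complex.ofReal_sub, Complex.norm_real, Real.norm_eq_abs] at hL
  have hL' := (abs_le.1 hL).2
  have hr : (0 : ℝ) ≤ r := Nat.cast_nonneg r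
  nlinarith [mul_le_mul_of_nonneg_left hM hr]

/-- the component of `x` orthogonal to the unit vector `z` -/
def perp (z x : E n) : E n := x - ⟪z, x⟫_ℂ • z

def eta (S : Setup n) (z : E n) : ℂ := S.W z - S.r * S.f z * ⟪z, S.q⟫_ℂ
def ht (S : Setup n) (z : E n) : ℂ := S.h z - S.r * ⟪z, S.Z z⟫_ℂ

theorem cont_W (S : Setup n) : Continuous S.W :=
  S.hf.cont_D.comp (f := fun z : E n => (z, S.q)) (by fun_prop)

theorem cont_eta (S : Setup n) : Continuous (eta S) :=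
  (cont_W S).sub ((continuous_const.mul S.hf.cont).mul (continuous_id.inner continuous_const))

theorem cont_ht (S : Setup n) : Continuous (ht S) :=
  S.hh.sub (continuous_const.mul (continuous_id.inner S.hZ.cont))

theorem cont_perp {W : E n → E n} (hW : Continuous W) : Continuous fun z => perp z (W z) :=
  hW.sub ((Continuous.inner (𝕜 := ℂ) continuous_id hW).smul continuous_id)

theorem dir_vec {S : Setup n} {ε : ℝ} {ξ : Xi n} (h : Dir (S.V ε ξ.z) ξ) :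
    S.f ξ.z ^ S.j • perp ξ.z S.q + (ε : ℂ) • perp ξ.z (S.Z ξ.z) = ⟪ξ.v, S.V ε ξ.z⟫_ℂ • ξ.v := by
  have h1 : S.V ε ξ.z - ⟪ξ.z, S.V ε ξ.z⟫_ℂ • ξ.z = ⟪ξ.v, S.V ε ξ.z⟫_ℂ • ξ.v :=
    sub_eq_of_eq_add' h
  rw [← h1]
  simp only [Setup.V, perp, inner_add_right, inner_smul_right]
  module

theorem dir_D {S : Setup n} {ε : ℝ} {ξ : Xi n} (h : Dir (S.V ε ξ.z) ξ) :
    ⟪ξ.v, S.V ε ξ.z⟫_ℂ * fderiv ℂ S.f ξ.z ξ.v
      = S.f ξ.z * (S.f ξ.z ^ (S.j - 1) * eta S ξ.z + ε * ht S ξ.z) := by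
  have h1 := congrArg (fderiv ℂ S.f ξ.z) (dir_vec h)
  simp only [perp, map_add, map_smul, map_sub, S.hf.euler, S.tang, smul_eq_mul] at h1
  rw [← h1]
  have : S.f ξ.z ^ S.j = S.f ξ.z * S.f ξ.z ^ (S.j - 1) := by
    rw [← pow_succ']; congr 1; have := S.hj; omega
  rw [this]
  simp only [eta, ht, Setup.W]
  ring

theorem dir_rz {S : Setup n} {ε : ℝ} {ξ : Xi n} (h : Dir (S.V ε ξ.z) ξ) {ψ : E n → ℝ}
    (hψ : RHom0 ψ) : ⟪ξ.v, S.V ε ξ.z⟫_ℂ * rz ψ ξ.z ξ.v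
      = S.f ξ.z ^ S.j * rz ψ ξ.z S.q + ε * rz ψ ξ.z (S.Z ξ.z) := by
  rw [← h.rz_eq (hψ.rz_self ξ.z_ne), Setup.V, rz_add_vec, rz_smul_vec, rz_smul_vec]

theorem dir_N {S : Setup n} {ε : ℝ} (hε : 0 < ε) {ξ : Xi n} (h : Dir (S.V ε ξ.z) ξ) :
    ε * ‖perp ξ.z (S.Z ξ.z)‖ - ‖S.f ξ.z‖ ^ S.j * ‖perp ξ.z S.q‖ ≤ ‖⟪ξ.v, S.V ε ξ.z⟫_ℂ‖ := by
  have h1 := congrArg norm (dir_vec h)
  rw [norm_smul, ξ.norm_v, mul_one] at h1
  rw [← h1, add_comm]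
  have h2 := norm_sub_norm_le ((ε : ℂ) • perp ξ.z (S.Z ξ.z)) (-(S.f ξ.z ^ S.j • perp ξ.z S.q))
  rw [sub_neg_eq_add, norm_neg, norm_smul, norm_smul, norm_pow, Complex.norm_real,
    Real.norm_eq_abs, abs_of_pos hε] at h2
  exact h2

theorem exists_bound {G : Type*} [NormedAddCommGroup G] {a : Xi n → G} (ha : Continuous a) :
    ∃ A : ℝ, 0 < A ∧ ∀ ξ, ‖a ξ‖ ≤ A := by
  obtain ⟨A, hA⟩ := isCompact_univ.exists_bound_of_continuousOn ha.continuousOn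
  exact ⟨max A 1, by positivity, fun ξ => (hA ξ trivial).trans (le_max_left _ _)⟩

theorem exists_lower {K : Set (Xi n)} (hK : IsClosed K) {g s : Xi n → ℝ} (hg : Continuous g)
    (hs : Continuous s) (hg0 : ∀ ξ, 0 ≤ g ξ) (hs0 : ∀ ξ, 0 ≤ s ξ)
    (h : ∀ ξ ∈ K, s ξ = 0 → g ξ ≠ 0) : ∃ c : ℝ, 0 < c ∧ ∀ ξ ∈ K, s ξ ≤ c → c ≤ g ξ := by
  rcases K.eq_empty_or_nonempty with rfl | hne
  · exact ⟨1, one_pos, by simp⟩
  obtain ⟨ξ0, h0, hmin⟩ := hK.isCompact.exists_isMinOn hne (hg.add hs).continuousOn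
  have hpos : 0 < g ξ0 + s ξ0 := by
    rcases (hs0 ξ0).eq_or_lt with h1 | h1
    · have := lt_of_le_of_ne (hg0 ξ0) (h ξ0 h0 h1.symm).symm
      linarith
    · linarith [hg0 ξ0]
  refine ⟨(g ξ0 + s ξ0) / 2, by linarith, fun ξ hξ h1 => ?_⟩
  have : g ξ0 + s ξ0 ≤ g ξ + s ξ := hmin hξ
  linarith

theorem small_null {S : Setup n} (D : Degen S) {a : Xi n → ℝ} (ha : Continuous a)
    (ha0 : ∀ ξ, 0 ≤ a ξ) (h : ∀ᵐ ξ ∂(D.m0 : Measure (Xi n)), S.f ξ.z = 0 → a ξ = 0) {η : ℝ}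
    (hη : 0 < η) : ∃ e : ℝ, 0 < e ∧ ∀ᶠ k in atTop,
      ∫ ξ, a ξ * (1 - st (‖S.f ξ.z‖ ^ 2 / e)) ∂(D.m k : Measure (Xi n)) ≤ η := by
  have hf := S.hf.cont
  have hc : ∀ e : ℝ, Continuous fun ξ : Xi n => a ξ * (1 - st (‖S.f ξ.z‖ ^ 2 / e)) := fun e => by
    fun_prop
  have t1 : Tendsto (fun e : ℝ => ∫ ξ, a ξ * (1 - st (‖S.f ξ.z‖ ^ 2 / e))
      ∂(D.m0 : Measure (Xi n))) (𝓝[>] 0) (𝓝 (∫ _ : Xi n, (0 : ℝ) ∂(D.m0 : Measure (Xi n)))) := by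
    refine tendsto_integral_filter_of_dominated_convergence a
      (Eventually.of_forall fun e => (hc e).aestronglyMeasurable)
      (Eventually.of_forall fun e => Eventually.of_forall fun ξ => ?_) (cont_integrable ha) ?_
    · have k1 := st_nonneg (‖S.f ξ.z‖ ^ 2 / e)
      have k2 := st_le_one (‖S.f ξ.z‖ ^ 2 / e)
      rw [Real.norm_eq_abs, abs_of_nonneg (mul_nonneg (ha0 ξ) (by linarith))]
      nlinarith [ha0 ξ]
    · filter_upwards [h] with ξ hξ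
      refine tendsto_const_nhds.congr' ?_
      by_cases h1 : S.f ξ.z = 0
      · exact Eventually.of_forall fun e => by simp [hξ h1]
      · have h2 : 0 < ‖S.f ξ.z‖ ^ 2 := by positivity
        filter_upwards [Ioo_mem_nhdsGT (half_pos h2)] with e he
        rw [st_one (by rw [le_div_iff₀ he.1]; linarith [he.2])]; simp
  rw [integral_zero] at t1
  obtain ⟨e, he1, he2⟩ := ((t1.eventually (gt_mem_nhds hη)).and self_mem_nhdsWithin).exists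
  exact ⟨e, he2, ((D.tendsto_fixed_real (hc e)).eventually (gt_mem_nhds he1)).mono
    fun k hk => hk.le⟩

theorem rz_of_not_mem {ψ : E n → ℝ} {z : E n} (h : z ∉ tsupport ψ) (v : E n) : rz ψ z v = 0 := by
  rw [rz_congr (notMem_tsupport_iff_eventuallyEq.1 h)]
  exact rz_const 0 z v

theorem perp_ne {z x : E n} (h : ∀ c : ℂ, x ≠ c • z) : ‖perp z x‖ ≠ 0 := by
  rw [norm_ne_zero_iff, perp, sub_ne_zero]; exact h _

theorem half_bound {l t D : ℝ} (ht : 0 < t) (h : t ≤ l) :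
    t * D ^ 2 / l ^ 3 ≤ 3 * (√(t ^ 2) * D ^ 2 / √(l ^ 2 + t ^ 2) ^ 3) := by
  have hl : 0 < l := ht.trans_le h
  have h1 : √(l ^ 2 + t ^ 2) ≤ 10 / 7 * l := by
    rw [Real.sqrt_le_left (by positivity)]; nlinarith
  have h2 : 0 < √(l ^ 2 + t ^ 2) := Real.sqrt_pos.2 (by positivity)
  have h3 : √(l ^ 2 + t ^ 2) ^ 3 ≤ 3 * l ^ 3 :=
    calc _ ≤ (10 / 7 * l) ^ 3 := by gcongr
      _ ≤ _ := by have : 0 < l ^ 3 := by positivity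
                  nlinarith
  rw [Real.sqrt_sq ht.le, ← mul_div_assoc, div_le_div_iff₀ (by positivity) (by positivity)]
  nlinarith [mul_le_mul_of_nonneg_left h3 (show 0 ≤ t * D ^ 2 by positivity)]

theorem low_bound {s θ D : ℝ} (hθ : 0 < θ) (hs : 0 ≤ s) (h : s ≤ 2 * θ) :
    D ^ 2 ≤ 9 * θ * (θ * D ^ 2 / (s + θ) ^ 2) := by
  rw [← mul_div_assoc, le_div_iff₀ (by positivity)]
  have h3 : (s + θ) ^ 2 ≤ (3 * θ) ^ 2 := pow_le_pow_left₀ (by positivity) (by linarith) 2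
  nlinarith [sq_nonneg D]

end PL

end A590
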