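import Pool.Agent.Lib.A590Ode0

/-!
Block O1: existence and smooth dependence for linear systems, and the monodromy data.
-/

open scoped ComplexConjugate Topology
open Filter Set

noncomputable section

namespace A590

namespace O1

/-- The unit interval. -/
abbrev UI : Type := Icc (0 : ℝ) 1

theorem isUnit_of_bound {X : Type*} [NormedAddCommGroup X] [NormedSpace ℂ X] [CompleteSpace X]
    (K : X →L[ℂ] X) {c : ℝ} (hc : 0 ≤ c)
    (hK : ∀ (n : ℕ) (y : X), ‖(K ^ n) y‖ ≤ c ^ n / n.factorial * ‖y‖) : IsUnit (1 - K) := by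
  have h : Summable fun n : ℕ => K ^ n :=
    Summable.of_norm_bounded (Real.summable_pow_div_factorial c) fun n =>
      ContinuousLinearMap.opNorm_le_bound _ (by positivity) (hK n)
  exact ⟨⟨1 - K, ∑' n : ℕ, K ^ n, h.one_sub_mul_tsum_pow, h.tsum_pow_mul_one_sub⟩, rfl⟩

theorem contDiff_inv {X : Type*} [NormedRing X] [NormedAlgebra ℂ X] [CompleteSpace X]
    (P : X →L[ℂ] X) (h : ∀ a : X, IsUnit (1 - P.comp (ContinuousLinearMap.mul ℂ X a))) :
    ContDiff ℂ 1 fun a : X => Ring.inverse (1 - P.comp (ContinuousLinearMap.mul ℂ X a)) 1 := by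
  refine contDiff_iff_contDiffAt.2 fun a => ?_
  have h1 : ContDiff ℂ 1 fun a : X => 1 - P.comp (ContinuousLinearMap.mul ℂ X a) :=
    contDiff_const.sub (contDiff_const.clm_comp (ContinuousLinearMap.mul ℂ X).contDiff)
  have h2 := ContDiffAt.comp a (f := fun a : X => 1 - P.comp (ContinuousLinearMap.mul ℂ X a))
    (contDiffAt_ringInverse ℂ (h a).unit) h1.contDiffAt
  exact h2.clm_apply contDiffAt_const

section Banach

variable {R : Type*} [NormedRing R] [NormedAlgebra ℂ R] [NormedSpace ℝ R] [CompleteSpace R]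

/-- Extension of a function on the unit interval to the line. -/
def ex {V : Type*} [TopologicalSpace V] (y : C(UI, V)) (t : ℝ) : V := y (projIcc 0 1 zero_le_one t)

theorem continuous_ex {V : Type*} [TopologicalSpace V] (y : C(UI, V)) : Continuous (ex y) :=
  y.continuous.comp continuous_projIcc

theorem ex_coe {V : Type*} [TopologicalSpace V] (y : C(UI, V)) (t : UI) : ex y t = y t := by
  rw [ex, projIcc_val]

theorem ex_of_mem {V : Type*} [TopologicalSpace V] (y : C(UI, V)) {t : ℝ} (ht : t ∈ Icc (0 : ℝ) 1) :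
    ex y t = y ⟨t, ht⟩ := ex_coe y ⟨t, ht⟩

/-- The primitive, as a function. -/
def prim0 (y : C(UI, R)) : C(UI, R) :=
  ⟨fun r => ∫ t in (0 : ℝ)..r, ex y t, (intervalIntegral.continuous_primitive
    (fun a b => (continuous_ex y).intervalIntegrable a b) 0).comp continuous_subtype_val⟩

/-- The primitive, as an operator. -/
def prim (R : Type*) [NormedRing R] [NormedAlgebra ℂ R] [NormedSpace ℝ R] [CompleteSpace R] :
    C(UI, R) →L[ℂ] C(UI, R) :=
  LinearMap.mkContinuous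
    { toFun := prim0
      map_add' := fun y z => ContinuousMap.ext fun r =>
        intervalIntegral.integral_add ((continuous_ex y).intervalIntegrable _ _)
          ((continuous_ex z).intervalIntegrable _ _)
      map_smul' := fun c y => ContinuousMap.ext fun r => intervalIntegral.integral_smul c (ex y) }
    1 fun y => by
      rw [one_mul]
      refine (ContinuousMap.norm_le _ (norm_nonneg _)).2 fun r => ?_
      refine (intervalIntegral.norm_integral_le_of_norm_le_const (C := ‖y‖)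
        fun t _ => y.norm_coe_le_norm _).trans ?_
      rw [sub_zero, abs_of_nonneg r.2.1]
      exact mul_le_of_le_one_right (norm_nonneg _) r.2.2

theorem prim_apply (y : C(UI, R)) (r : UI) : prim R y r = ∫ t in (0 : ℝ)..r, ex y t := rfl

/-- The Volterra operator. -/
def vol (a : C(UI, R)) : C(UI, R) →L[ℂ] C(UI, R) :=
  (prim R).comp (ContinuousLinearMap.mul ℂ _ a)

theorem vol_apply (a y : C(UI, R)) (r : UI) :
    vol a y r = ∫ t in (0 : ℝ)..r, ex a t * ex y t := rfl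

theorem norm_vol_pow_apply (a y : C(UI, R)) (n : ℕ) (r : UI) :
    ‖(vol a ^ n) y r‖ ≤ (‖a‖ * r) ^ n / n.factorial * ‖y‖ := by
  induction n generalizing r with
  | zero => simpa using y.norm_coe_le_norm r
  | succ n ih =>
    rw [pow_succ', mul_apply_eq_comp, vol_apply]
    have h : ∀ t ∈ Ioc (0 : ℝ) r, ‖ex a t * ex ((vol a ^ n) y) t‖ ≤
        ‖a‖ ^ (n + 1) / n.factorial * ‖y‖ * t ^ n := fun t ht => by
      have ht' : t ∈ Icc (0 : ℝ) 1 := ⟨ht.1.le, ht.2.trans r.2.2⟩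
      rw [ex_of_mem _ ht', ex_of_mem _ ht']
      refine (norm_mul_le _ _).trans ((mul_le_mul (a.norm_coe_le_norm _) (ih _) (norm_nonneg _)
        (norm_nonneg _)).trans_eq ?_)
      simp only
      ring
    refine (intervalIntegral.norm_integral_le_of_norm_le r.2.1 (Eventually.of_forall h)
      ((by fun_prop : Continuous fun t : ℝ =>
        ‖a‖ ^ (n + 1) / n.factorial * ‖y‖ * t ^ n).intervalIntegrable _ _)).trans_eq ?_
    rw [intervalIntegral.integral_const_mul, integral_pow, Nat.factorial_succ]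
    push_cast
    field_simp
    ring

theorem isUnit_vol (a : C(UI, R)) : IsUnit (1 - vol a) := by
  refine isUnit_of_bound (vol a) (norm_nonneg a) fun n y => ?_
  refine (ContinuousMap.norm_le _ (by positivity)).2 fun r => (norm_vol_pow_apply a y n r).trans ?_
  have h1 := r.2.1
  gcongr
  exact mul_le_of_le_one_right (norm_nonneg _) r.2.2

/-- The fundamental solution. -/
def fund (a : C(UI, R)) : C(UI, R) := Ring.inverse (1 - vol a) 1

theorem fund_eq (a : C(UI, R)) (r : UI) :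
    fund a r = 1 + ∫ t in (0 : ℝ)..r, ex a t * ex (fund a) t := by
  have h : (1 - vol a) (fund a) = 1 := by
    rw [fund, ← mul_apply_eq_comp, Ring.mul_inverse_cancel _ (isUnit_vol a)]
    rfl
  have h2 : fund a r - vol a (fund a) r = 1 := congrArg (fun f : C(UI, R) => f r) h
  rw [← vol_apply, ← h2, sub_add_cancel]

theorem fund_zero (a : C(UI, R)) : ex (fund a) 0 = 1 := by
  rw [ex_of_mem _ (left_mem_Icc.2 zero_le_one), fund_eq]
  simp

theorem fund_deriv (a : C(UI, R)) {r : ℝ} (hr : r ∈ Icc (0 : ℝ) 1) :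
    HasDerivWithinAt (ex (fund a)) (ex a r * ex (fund a) r) (Icc 0 1) r := by
  have h := (((continuous_ex a).mul (continuous_ex (fund a))).integral_hasStrictDerivAt
    0 r).hasDerivAt.const_add 1
  refine h.hasDerivWithinAt.congr (fun t ht => ?_) ?_
  · rw [ex_of_mem _ ht, fund_eq]
    rfl
  · rw [ex_of_mem _ hr, fund_eq]
    rfl

theorem contDiff_fund : ContDiff ℂ 1 (fund : C(UI, R) → C(UI, R)) :=
  contDiff_inv (prim R) isUnit_vol

end Banach

/-- Triples of continuous coefficients. -/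
abbrev Co : Type := C(UI, ℂ) × C(UI, ℂ) × C(UI, ℂ)

/-- A scalar function times a constant matrix. -/
def sm (e : ℂ × ℂ →L[ℂ] ℂ × ℂ) : C(UI, ℂ) →L[ℂ] C(UI, ℂ × ℂ →L[ℂ] ℂ × ℂ) :=
  (ContinuousLinearMap.toSpanSingleton ℂ e).compLeftContinuous ℂ UI

/-- The matrix of the system. -/
def mat (g : Co) : C(UI, ℂ × ℂ →L[ℂ] ℂ × ℂ) :=
  sm ((ContinuousLinearMap.fst ℂ ℂ ℂ).prod (-ContinuousLinearMap.snd ℂ ℂ ℂ)) g.1
    + sm ((ContinuousLinearMap.snd ℂ ℂ ℂ).prod 0) g.2.1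
    + sm ((0 : ℂ × ℂ →L[ℂ] ℂ).prod (ContinuousLinearMap.fst ℂ ℂ ℂ)) g.2.2

theorem mat_apply (g : Co) (r : ℝ) (w : ℂ × ℂ) :
    ex (mat g) r w = tlm (ex g.1 r) (ex g.2.1 r) (ex g.2.2 r) w := by
  refine Prod.ext ?_ ?_ <;> simp [ex, mat, sm, tlm]
  ring

/-- The solution with initial value `y0`. -/
def sol (g : Co) (y0 : ℂ × ℂ) (r : ℝ) : ℂ × ℂ := ex (fund (mat g)) r y0

theorem sol_zero (g : Co) (y0 : ℂ × ℂ) : sol g y0 0 = y0 := by
  rw [sol, fund_zero]
  rfl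

theorem sol_tsol (g : Co) (y0 : ℂ × ℂ) : TSol (ex g.1) (ex g.2.1) (ex g.2.2) (sol g y0) := by
  intro r hr
  rw [← mat_apply]
  exact ((ContinuousLinearMap.apply ℂ (ℂ × ℂ) y0).restrictScalars ℝ).hasFDerivAt.comp_hasDerivWithinAt
    r (fund_deriv (mat g) hr)

theorem contDiff_sol (y0 : ℂ × ℂ) : ContDiff ℂ 1 fun g : Co => sol g y0 1 := by
  have h1 : ContDiff ℂ 1 mat := by
    unfold mat
    fun_prop
  exact ((ContinuousMap.evalCLM ℂ (projIcc 0 1 zero_le_one 1)).contDiff.comp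
    (contDiff_fund.comp h1)).clm_apply contDiff_const

theorem tsol_congr {α β γ α' β' γ' : ℝ → ℂ} {y : ℝ → ℂ × ℂ} (h : TSol α β γ y)
    (e : ∀ r ∈ Icc (0 : ℝ) 1, α r = α' r ∧ β r = β' r ∧ γ r = γ' r) : TSol α' β' γ' y := by
  intro r hr
  rw [← (e r hr).1, ← (e r hr).2.1, ← (e r hr).2.2]
  exact h r hr

/-- The coordinate. -/
def rr : C(UI, ℂ) := ⟨fun r => ((r : ℝ) : ℂ), by fun_prop⟩

/-- The denominator of the system on the rays. -/
def kk : C(UI, ℂ) := ⟨fun r => (2 * (1 + ((r : ℝ) : ℂ) ^ 4))⁻¹,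
  Continuous.inv₀ (by fun_prop) fun r => ray_den_ne r⟩

/-- The coefficients of the system on the rays. -/
def rayCo (p : ℂ × ℂ × ℂ) : Co :=
  (p.2.2 • (rr * kk), p.1 • kk - p.2.1 • (rr ^ 2 * kk), p.2.1 • kk - p.1 • (rr ^ 2 * kk))

theorem raySol (p : ℂ × ℂ × ℂ) (y0 : ℂ × ℂ) : RaySol p (sol (rayCo p) y0) y0 := by
  refine ⟨sol_zero _ _, fun r hr => ?_⟩
  rw [rayA_eq]
  refine tsol_congr (sol_tsol (rayCo p) y0)
    (α' := fun r => p.2.2 * r / (2 * (1 + r ^ 4)))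
    (β' := fun r => (p.1 - p.2.1 * r ^ 2) / (2 * (1 + r ^ 4)))
    (γ' := fun r => (p.2.1 - p.1 * r ^ 2) / (2 * (1 + r ^ 4))) (fun t ht => ?_) r hr
  simp only [ex_of_mem _ ht, rayCo, rr, kk, ContinuousMap.smul_apply, ContinuousMap.mul_apply,
    ContinuousMap.sub_apply, ContinuousMap.pow_apply, ContinuousMap.coe_mk, smul_eq_mul]
  refine ⟨?_, ?_, ?_⟩ <;> ring

theorem contDiff_rayCo : ContDiff ℂ 1 rayCo := by
  unfold rayCo
  fun_prop

/-- The fundamental solution on the rays. -/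
def rayData : RayData where
  y p := sol (rayCo p) (1, 0)
  yh p := sol (rayCo p) (0, 1)
  sol p := raySol p _
  solh p := raySol p _
  cd := (contDiff_sol _).comp contDiff_rayCo
  cdh := (contDiff_sol _).comp contDiff_rayCo

/-! ### Holomorphic solutions on `Sp` -/

/-- The entries of the matrix of the system. -/
def m1 (u x : ℂ) : ℂ := u * x / (2 * (x ^ 4 - 1))
def m2 (A B x : ℂ) : ℂ := (A + B * x ^ 2) / (2 * (x ^ 4 - 1))

theorem Mx_eq (c d u x : ℂ) (w : ℂ × ℂ) : Mx c d u x w =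
    tlm (m1 u x) (m2 (c + d * u) (d + c * u) x) (m2 (-(d + c * u)) (c + d * u) x) w := by
  refine Prod.ext ?_ ?_ <;> simp only [Mx, tlm, N1, N2, m1, m2] <;> ring

theorem den_ne {x : ℂ} (hx : x ∈ Sp) {r : ℝ} (hr : r ∈ Icc (0 : ℝ) 1) :
    2 * (((r : ℂ) * x) ^ 4 - 1) ≠ 0 :=
  mul_ne_zero two_ne_zero (sub_ne_zero.2 (ne_one_of_mem (Or.inl (smul_mem_Sp hx hr.1 hr.2))))

/-- The denominator along the segment from `0` to `x`. -/
def dn (x : ℂ) : C(UI, ℂ) := (2 : ℂ) • (x ^ 4 • rr ^ 4 - 1)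

theorem dn_apply (x : ℂ) (r : UI) : dn x r = 2 * ((((r : ℝ) : ℂ) * x) ^ 4 - 1) := by
  simp only [dn, rr, ContinuousMap.smul_apply, ContinuousMap.sub_apply, ContinuousMap.pow_apply,
    ContinuousMap.coe_mk, ContinuousMap.one_apply, smul_eq_mul]
  ring

theorem isUnit_dn {x : ℂ} (hx : x ∈ Sp) : IsUnit (dn x) :=
  (ContinuousMap.isUnit_iff_forall_ne_zero _).2 fun r => dn_apply x r ▸ den_ne hx r.2

theorem inv_dn_apply {x : ℂ} (hx : x ∈ Sp) (r : UI) :
    Ring.inverse (dn x) r = (2 * ((((r : ℝ) : ℂ) * x) ^ 4 - 1))⁻¹ := by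
  have h : dn x r * Ring.inverse (dn x) r = 1 :=
    congrArg (fun f : C(UI, ℂ) => f r) (Ring.mul_inverse_cancel _ (isUnit_dn hx))
  rw [dn_apply] at h
  exact eq_inv_of_mul_eq_one_right h

theorem differentiableAt_inv_dn {x : ℂ} (hx : x ∈ Sp) :
    DifferentiableAt ℂ (fun x => Ring.inverse (dn x)) x := by
  have h : Differentiable ℂ dn := by
    unfold dn
    fun_prop
  exact (differentiableAt_inverse (isUnit_dn hx)).comp x (h x)

/-- The coefficients of the system along the segment from `0` to `x`. -/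
def starCo (A B u x : ℂ) : Co :=
  ((u * x ^ 2) • (rr * Ring.inverse (dn x)),
    x • ((A • 1 + (B * x ^ 2) • rr ^ 2) * Ring.inverse (dn x)),
    x • (((-B) • 1 + (A * x ^ 2) • rr ^ 2) * Ring.inverse (dn x)))

theorem differentiableAt_starCo (A B u : ℂ) {x : ℂ} (hx : x ∈ Sp) :
    DifferentiableAt ℂ (starCo A B u) x := by
  have h := differentiableAt_inv_dn hx
  unfold starCo
  fun_prop

/-- Solutions along the segment from `0` to `x`. -/
def SSol (A B u x : ℂ) (y : ℝ → ℂ × ℂ) : Prop :=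
  TSol (fun r => x * m1 u (r * x)) (fun r => x * m2 A B (r * x)) (fun r => x * m2 (-B) A (r * x)) y

theorem ssol (A B u : ℂ) {x : ℂ} (hx : x ∈ Sp) (y0 : ℂ × ℂ) :
    SSol A B u x (sol (starCo A B u x) y0) := by
  refine tsol_congr (sol_tsol _ y0) fun t ht => ?_
  simp only [ex_of_mem _ ht, starCo, rr, ContinuousMap.smul_apply, ContinuousMap.mul_apply,
    ContinuousMap.add_apply, ContinuousMap.pow_apply, ContinuousMap.coe_mk, smul_eq_mul,
    ContinuousMap.one_apply, inv_dn_apply hx, m1, m2]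
  refine ⟨?_, ?_, ?_⟩ <;> ring

/-- The holomorphic solution on `Sp` with value `y0` at `0`. -/
def Phi (A B u : ℂ) (y0 : ℂ × ℂ) (x : ℂ) : ℂ × ℂ := sol (starCo A B u x) y0 1

theorem differentiableAt_Phi (A B u : ℂ) (y0 : ℂ × ℂ) {x : ℂ} (hx : x ∈ Sp) :
    DifferentiableAt ℂ (Phi A B u y0) x :=
  (((contDiff_sol y0).differentiable one_ne_zero) _).comp x (differentiableAt_starCo A B u hx)

theorem Phi_eq {A B u x : ℂ} (hx : x ∈ Sp) {y : ℝ → ℂ × ℂ} (hy : SSol A B u x y) :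
    Phi A B u (y 0) x = y 1 := by
  refine TSol.unique ?_ ?_ ?_ (ssol A B u hx _) hy (sol_zero _ _) 1 (right_mem_Icc.2 zero_le_one)
  all_goals
    simp only [m1, m2]
    exact continuousOn_const.mul (ContinuousOn.div (by fun_prop) (by fun_prop)
      fun r hr => den_ne hx hr)

theorem smul_tlm (l α β γ : ℂ) (w : ℂ × ℂ) : l • tlm α β γ w = tlm (l * α) (l * β) (l * γ) w := by
  refine Prod.ext ?_ ?_ <;> simp only [tlm, Prod.smul_fst, Prod.smul_snd, smul_eq_mul] <;> ring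

theorem Phi_smul (A B u : ℂ) (y0 : ℂ × ℂ) {x : ℂ} (hx : x ∈ Sp) {l : ℝ} (hl : l ∈ Icc (0 : ℝ) 1) :
    Phi A B u y0 (l * x) = sol (starCo A B u x) y0 l := by
  have h : SSol A B u (l * x) fun r => sol (starCo A B u x) y0 (l * r) := by
    intro r hr
    have hm : MapsTo (fun r : ℝ => l * r) (Icc 0 1) (Icc 0 1) := fun t ht =>
      ⟨mul_nonneg hl.1 ht.1, mul_le_one₀ hl.2 ht.1 ht.2⟩
    have h1 := (ssol A B u hx y0 (l * r) (hm hr)).scomp r
      ((hasDerivAt_id' r).const_mul l).hasDerivWithinAt hm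
    refine h1.congr_deriv ?_
    rw [mul_one, ← Complex.coe_smul, smul_tlm]
    push_cast
    simp only [mul_assoc, mul_left_comm (r : ℂ) l x]
  have h2 := Phi_eq (smul_mem_Sp hx hl.1 hl.2) h
  simpa only [mul_zero, mul_one, sol_zero] using h2

theorem Phi_zero (A B u : ℂ) (y0 : ℂ × ℂ) : Phi A B u y0 0 = y0 := by
  have h := Phi_smul A B u y0 zero_mem_Sp (left_mem_Icc.2 zero_le_one)
  rwa [mul_zero, sol_zero] at h

theorem Phi_deriv_aux (A B u : ℂ) (y0 : ℂ × ℂ) {x : ℂ} (hx : x ∈ Sp) (hx0 : x ≠ 0) {l : ℝ}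
    (hl : l ∈ Icc (0 : ℝ) 1) : HasDerivAt (Phi A B u y0)
      (tlm (m1 u (l * x)) (m2 A B (l * x)) (m2 (-B) A (l * x)) (Phi A B u y0 (l * x))) (l * x) := by
  have h1 := (differentiableAt_Phi A B u y0 (smul_mem_Sp hx hl.1 hl.2)).hasDerivAt
  have h2 : HasDerivAt (fun l : ℝ => (l : ℂ) * x) x l := by
    simpa using (Complex.ofRealCLM.hasDerivAt (x := l)).mul_const x
  have h3 := (h1.scomp l h2).hasDerivWithinAt (s := Icc 0 1)
  have h4 := (ssol A B u hx y0 l hl).congr (f₁ := fun l : ℝ => Phi A B u y0 (l * x))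
    (fun t ht => Phi_smul A B u y0 hx ht) (Phi_smul A B u y0 hx hl)
  have h5 := (uniqueDiffOn_Icc_zero_one l hl).eq_deriv _ h3 h4
  rw [← smul_tlm, ← Phi_smul A B u y0 hx hl] at h5
  rwa [smul_right_injective _ hx0 h5] at h1

theorem isSol_Phi (c d u : ℂ) (y0 : ℂ × ℂ) {x : ℂ} (hx : x ∈ Sp) :
    IsSol c d u (Phi (c + d * u) (d + c * u) u y0) x := by
  rw [IsSol, Mx_eq]
  by_cases h0 : x = 0
  · have h := Phi_deriv_aux (c + d * u) (d + c * u) u y0 (x := 1 / 2)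
      (mem_Sp_of_norm_lt (by norm_num)) (by norm_num) (left_mem_Icc.2 zero_le_one)
    rwa [Complex.ofReal_zero, zero_mul, ← h0] at h
  · have h := Phi_deriv_aux (c + d * u) (d + c * u) u y0 hx h0 (right_mem_Icc.2 zero_le_one)
    rwa [Complex.ofReal_one, one_mul] at h

/-! ### Wronskians -/

theorem der_fst {φ : ℂ → ℂ × ℂ} {v : ℂ × ℂ} {x : ℂ} (h : HasDerivAt φ v x) :
    HasDerivAt (fun x => (φ x).1) v.1 x :=
  (ContinuousLinearMap.fst ℂ ℂ ℂ).hasFDerivAt.comp_hasDerivAt x h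

theorem der_snd {φ : ℂ → ℂ × ℂ} {v : ℂ × ℂ} {x : ℂ} (h : HasDerivAt φ v x) :
    HasDerivAt (fun x => (φ x).2) v.2 x :=
  (ContinuousLinearMap.snd ℂ ℂ ℂ).hasFDerivAt.comp_hasDerivAt x h

theorem derw_fst {φ : ℝ → ℂ × ℂ} {v : ℂ × ℂ} {x : ℝ} {s : Set ℝ} (h : HasDerivWithinAt φ v s x) :
    HasDerivWithinAt (fun x => (φ x).1) v.1 s x :=
  (ContinuousLinearMap.fst ℝ ℂ ℂ).hasFDerivAt.comp_hasDerivWithinAt x h

theorem derw_snd {φ : ℝ → ℂ × ℂ} {v : ℂ × ℂ} {x : ℝ} {s : Set ℝ} (h : HasDerivWithinAt φ v s x) :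
    HasDerivWithinAt (fun x => (φ x).2) v.2 s x :=
  (ContinuousLinearMap.snd ℝ ℂ ℂ).hasFDerivAt.comp_hasDerivWithinAt x h

theorem det_deriv {c d u x : ℂ} {φ ψ : ℂ → ℂ × ℂ} (h : IsSol c d u φ x) (h' : IsSol c d u ψ x) :
    HasDerivAt (fun x => det2 (φ x) (ψ x)) 0 x := by
  rw [IsSol, Mx_eq] at h h'
  refine (((der_fst h).mul (der_snd h')).sub ((der_snd h).mul (der_fst h'))).congr_deriv ?_
  simp only [tlm]
  ring

theorem det_const {c d u : ℂ} {φ ψ : ℂ → ℂ × ℂ} {U : Set ℂ} (hU : IsOpen U) (hc : IsPreconnected U)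
    (h : ∀ x ∈ U, IsSol c d u φ x) (h' : ∀ x ∈ U, IsSol c d u ψ x) {x y : ℂ} (hx : x ∈ U)
    (hy : y ∈ U) : det2 (φ x) (ψ x) = det2 (φ y) (ψ y) :=
  hU.is_const_of_deriv_eq_zero (𝕜 := ℂ) (f := fun x => det2 (φ x) (ψ x)) hc
    (fun z hz => (det_deriv (h z hz) (h' z hz)).differentiableAt.differentiableWithinAt)
    (fun z hz => (det_deriv (h z hz) (h' z hz)).deriv) hx hy

theorem det_Phi (c d u : ℂ) {x : ℂ} (hx : x ∈ Sp) :
    det2 (Phi (c + d * u) (d + c * u) u (1, 0) x) (Phi (c + d * u) (d + c * u) u (0, 1) x) = 1 := by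
  rw [det_const isOpen_Sp isPreconnected_Sp (fun z hz => isSol_Phi c d u _ hz)
    (fun z hz => isSol_Phi c d u _ hz) hx zero_mem_Sp, Phi_zero, Phi_zero]
  simp [det2]

theorem cramer {a b : ℂ × ℂ} (h : det2 a b = 1) (v : ℂ × ℂ) :
    v = det2 v b • a + det2 a v • b := by
  simp only [det2] at h
  refine Prod.ext ?_ ?_ <;>
    simp only [det2, Prod.fst_add, Prod.snd_add, Prod.smul_fst, Prod.smul_snd, smul_eq_mul]
  · linear_combination (-v.1) * h
  · linear_combination (-v.2) * h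

theorem det_comb {a b : ℂ × ℂ} (h : det2 a b = 1) (s t : ℂ) :
    det2 (s • a + t • b) b = s ∧ det2 a (s • a + t • b) = t := by
  simp only [det2, Prod.fst_add, Prod.snd_add, Prod.smul_fst, Prod.smul_snd, smul_eq_mul] at h ⊢
  exact ⟨by linear_combination s * h, by linear_combination t * h⟩

theorem eq_comb {c d u : ℂ} {φ1 φ2 ψ : ℂ → ℂ × ℂ} {U : Set ℂ} (hU : IsOpen U)
    (hc : IsPreconnected U) (h1 : ∀ x ∈ U, IsSol c d u φ1 x) (h2 : ∀ x ∈ U, IsSol c d u φ2 x)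
    (h : ∀ x ∈ U, IsSol c d u ψ x) (hd : ∀ x ∈ U, det2 (φ1 x) (φ2 x) = 1) {w s t : ℂ}
    (hw : w ∈ U) (e : ψ w = s • φ1 w + t • φ2 w) {x : ℂ} (hx : x ∈ U) :
    ψ x = s • φ1 x + t • φ2 x := by
  rw [cramer (hd x hx) (ψ x), det_const hU hc h h2 hx hw, det_const hU hc h1 h hx hw, e,
    (det_comb (hd w hw) s t).1, (det_comb (hd w hw) s t).2]

/-! ### Solutions on `Sm` -/

theorem isSol_swap {c d u x : ℂ} {χ : ℂ → ℂ × ℂ} (h0 : x ≠ 0) (h1 : x ^ 4 ≠ 1)
    (h : IsSol c (-d) (-u) χ x⁻¹) : IsSol c d u (fun x => (χ x⁻¹).swap) x := by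
  rw [IsSol, Mx_eq] at h ⊢
  have h2 := h.scomp x (hasDerivAt_inv h0)
  have h3 : x ^ 4 - 1 ≠ 0 := sub_ne_zero.2 h1
  have h4 : 1 - x ^ 4 ≠ 0 := sub_ne_zero.2 h1.symm
  have e : x⁻¹ ^ 4 - 1 = -(x ^ 4 - 1) / x ^ 4 := by
    field_simp
    ring
  refine ((der_snd h2).prodMk (der_fst h2)).congr_deriv (Prod.ext ?_ ?_) <;>
    simp only [tlm, m1, m2, Prod.smul_fst, Prod.smul_snd, smul_eq_mul, Prod.fst_swap,
      Prod.snd_swap, e] <;> field_simp <;> ring

/-! ### The values on the rays -/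

theorem isOpen_Quad (w : ℂ) : IsOpen (Quad w) :=
  isOpen_lt (by fun_prop) (by fun_prop)

theorem isPreconnected_Quad (w : ℂ) : IsPreconnected (Quad w) := by
  refine Convex.isPreconnected fun x hx y hy a b ha hb hab => ?_
  simp only [Quad, mem_ofPred_eq, abs_lt] at hx hy ⊢
  have e : (a • x + b • y) * conj w = a • (x * conj w) + b • (y * conj w) := by
    rw [add_mul, smul_mul_assoc, smul_mul_assoc]
  rw [e]
  simp only [Complex.add_re, Complex.add_im, Complex.smul_re, Complex.smul_im, smul_eq_mul]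
  obtain ⟨h1, h2⟩ := hx
  obtain ⟨h3, h4⟩ := hy
  rcases ha.eq_or_lt with rfl | ha
  · obtain rfl : b = 1 := by linarith
    constructor <;> linarith
  · constructor
    · nlinarith [mul_lt_mul_of_pos_left h1 ha, mul_le_mul_of_nonneg_left h3.le hb]
    · nlinarith [mul_lt_mul_of_pos_left h2 ha, mul_le_mul_of_nonneg_left h4.le hb]

theorem mul_conj_eq_one {w : ℂ} (hw : w ^ 4 = -1) : w * conj w = 1 := by
  have h : ‖w‖ ^ 4 = 1 := by rw [← norm_pow, hw, norm_neg, norm_one]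
  have h1 : ‖w‖ = 1 := (pow_eq_one_iff_of_nonneg (norm_nonneg _) (by norm_num)).1 h
  rw [Complex.mul_conj', h1]
  simp

theorem self_mem_Quad {w : ℂ} (hw : w ^ 4 = -1) : w ∈ Quad w := by
  simp only [Quad, mem_ofPred_eq, mul_conj_eq_one hw]
  simp

theorem Phi_ray {A B u w : ℂ} (hw : w ^ 4 = -1) {y : ℝ → ℂ × ℂ} {y0 : ℂ × ℂ}
    (hy : RaySol (A, -w ^ 2 * B, -w ^ 2 * u) y y0) (s : ℂ) :
    Phi A B u (s * y0.1, s * w ^ 3 * y0.2) w = (s * (y 1).1, s * w ^ 3 * (y 1).2) := by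
  have h : SSol A B u w fun r => (s * (y r).1, s * w ^ 3 * (y r).2) := by
    intro r hr
    have h1 := hy.2 r hr
    have e : 2 * (((r : ℂ) * w) ^ 4 - 1) = -(2 * (1 + (r : ℂ) ^ 4)) := by
      rw [mul_pow, hw]
      ring
    refine (((derw_fst h1).const_mul s).prodMk ((derw_snd h1).const_mul (s * w ^ 3))).congr_deriv
      (Prod.ext ?_ ?_) <;> simp only [rayA, tlm, m1, m2, e, div_eq_mul_inv, inv_neg]
    · linear_combination (s * (y r).2 * (A + B * r ^ 2 * w ^ 2) * (2 * (1 + (r : ℂ) ^ 4))⁻¹) * hw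
    · linear_combination (s * (-B * w * (y r).1) * (2 * (1 + (r : ℂ) ^ 4))⁻¹) * hw
  have h2 := Phi_eq (Quad_subset hw (self_mem_Quad hw)).1 h
  simpa only [hy.1] using h2

theorem mono (D : RayData) (c d u : ℂ) : D.Mono c d u := by
  have hΨ : ∀ y0, ∀ x ∈ Sm, IsSol c d u
      (fun x => (Phi (c + -d * -u) (-d + c * -u) (-u) y0 x⁻¹).swap) x := fun y0 x hx =>
    isSol_swap hx.1 (ne_one_of_mem (Or.inr hx)) (isSol_Phi c (-d) (-u) y0 hx.2)
  refine ⟨Phi (c + d * u) (d + c * u) u (1, 0), Phi (c + d * u) (d + c * u) u (0, 1),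
    fun x => (Phi (c + -d * -u) (-d + c * -u) (-u) (0, 1) x⁻¹).swap,
    fun x => (Phi (c + -d * -u) (-d + c * -u) (-u) (1, 0) x⁻¹).swap,
    fun x hx => ⟨isSol_Phi c d u _ hx, isSol_Phi c d u _ hx, det_Phi c d u hx⟩,
    fun x hx => ⟨hΨ _ x hx, hΨ _ x hx, ?_⟩, fun w σ hσ hw2 => ?_⟩
  · have h := det_Phi c (-d) (-u) hx.2
    simp only [det2, Prod.fst_swap, Prod.snd_swap] at h ⊢
    linear_combination h
  have hw : w ^ 4 = -1 := by
    have e : w ^ 4 = (w ^ 2) ^ 2 := by ring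
    rw [e, hw2, mul_pow, Complex.I_sq]
    rcases hσ with rfl | rfl <;> norm_num
  have hi : w⁻¹ = -w ^ 3 := inv_eq_of_mul_eq_one_right (by linear_combination -hw)
  have hcj : conj w = -w ^ 3 := hi ▸ eq_inv_of_mul_eq_one_right (mul_conj_eq_one hw)
  have hw' : (-w ^ 3) ^ 4 = -1 := by
    linear_combination (w ^ 8 - w ^ 4 + 1) * hw
  set p : ℂ × ℂ × ℂ := (c + d * u, -σ * Complex.I * (d + c * u), -σ * Complex.I * u) with hp
  have e1 : p = (c + d * u, -w ^ 2 * (d + c * u), -w ^ 2 * u) := by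
    rw [hp, hw2, neg_mul]
  have e2 : p = (c + -d * -u, -(-w ^ 3) ^ 2 * (-d + c * -u), -(-w ^ 3) ^ 2 * -u) := by
    rw [e1]
    refine Prod.ext (by ring) (Prod.ext ?_ ?_)
    · linear_combination (-w ^ 2 * (d + c * u)) * hw
    · linear_combination (-w ^ 2 * u) * hw
  have a1 := Phi_ray hw (e1 ▸ D.sol p) 1
  have a2 := Phi_ray hw (e1 ▸ D.solh p) (-w)
  have a3 := Phi_ray hw' (e2 ▸ D.sol p) 1
  have a4 := Phi_ray hw' (e2 ▸ D.solh p) (w ^ 3)
  have b2 : -w * w ^ 3 = 1 := by linear_combination -hw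
  have b4 : w ^ 3 * (-w ^ 3) ^ 3 = 1 := by linear_combination -hw'
  simp only [mul_zero, mul_one, one_mul, b2, b4, ← e1, ← e2] at a1 a2 a3 a4
  have hQ := Quad_subset hw
  have hd := det_Phi c d u (hQ (self_mem_Quad hw)).1
  rw [a1, a2] at hd
  simp only [det2] at hd
  have hd' : (D.y p 1).1 * (D.yh p 1).2 - (D.y p 1).2 * (D.yh p 1).1 = 1 := by
    linear_combination hd - (D.y p 1).2 * (D.yh p 1).1 * hw
  intro x hx
  refine ⟨eq_comb (isOpen_Quad w) (isPreconnected_Quad w) (fun z hz => isSol_Phi c d u _ (hQ hz).1)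
      (fun z hz => isSol_Phi c d u _ (hQ hz).1) (fun z hz => hΨ _ z (hQ hz).2)
      (fun z hz => det_Phi c d u (hQ hz).1) (self_mem_Quad hw) ?_ hx,
    eq_comb (isOpen_Quad w) (isPreconnected_Quad w) (fun z hz => isSol_Phi c d u _ (hQ hz).1)
      (fun z hz => isSol_Phi c d u _ (hQ hz).1) (fun z hz => hΨ _ z (hQ hz).2)
      (fun z hz => det_Phi c d u (hQ hz).1) (self_mem_Quad hw) ?_ hx⟩
  · rw [hi, a1, a2, a4]
    refine Prod.ext ?_ ?_ <;> simp only [RayData.al, RayData.ee, Prod.fst_swap, Prod.snd_swap,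
      Prod.fst_add, Prod.snd_add, Prod.smul_fst, Prod.smul_snd, smul_eq_mul]
    · linear_combination (-(D.yh p 1).2) * hd' + ((D.y p 1).1 * (D.yh p 1).1
        - (D.y p 1).2 * (D.yh p 1).2) * (D.yh p 1).1 * hw
    · linear_combination (-w ^ 3 * (D.yh p 1).1) * hd'
  · rw [hi, hcj, a1, a2, a3]
    have b : (-w ^ 3) ^ 3 = -w := by linear_combination (-w * (w ^ 4 - 1)) * hw
    rw [b]
    refine Prod.ext ?_ ?_ <;> simp only [RayData.de, RayData.ee, Prod.fst_swap, Prod.snd_swap,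
      Prod.fst_add, Prod.snd_add, Prod.smul_fst, Prod.smul_snd, smul_eq_mul]
    · linear_combination (w * (D.y p 1).2) * hd'
    · linear_combination (-(D.y p 1).1) * hd' - ((D.y p 1).1 * (D.yh p 1).1
        - (D.y p 1).2 * (D.yh p 1).2) * (D.y p 1).2 * hw

end O1

theorem exists_rayData : ∃ D : RayData, ∀ c d u, D.Mono c d u :=
  ⟨O1.rayData, O1.mono _⟩

end A590
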