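import Pool.Agent.Lib.A590Drift

/-!
The part of the limit measure off the hypersurface, for MP_a590e5_an.
-/

open scoped ComplexConjugate ComplexOrder ContDiff Topology InnerProductSpace
open MeasureTheory Filter

noncomputable section

namespace A590

variable {n : ℕ}

namespace Off

theorem cpt {X : Type*} [TopologicalSpace X] {K U : Set X} (hK : IsCompact K) (hU : IsOpen U)
    {g : X → ℝ} (hg : Continuous g) (h0 : ∀ x ∈ K, g x ≤ 0 → x ∈ U) :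
    ∃ δ : ℝ, 0 < δ ∧ ∀ x ∈ K, g x < δ → x ∈ U := by
  obtain ⟨δ, hδ, h⟩ := (hK.diff hU).exists_forall_le' hg.continuousOn (a := 0)
    fun x hx => lt_of_not_ge fun h => hx.2 (h0 x hx.1 h)
  refine ⟨δ, hδ, fun x hx h1 => ?_⟩
  by_contra h2
  exact absurd (h x ⟨hx, h2⟩) (not_le.2 h1)

theorem exists_form {p q : E n} (h : ∀ c : ℂ, q ≠ c • p) :
    ∃ P : E n →L[ℂ] ℂ, P p = 0 ∧ P q = 1 := by
  have h1 : q ∉ (Submodule.span ℂ {p} : Submodule ℂ (E n)) := by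
    rw [Submodule.mem_span_singleton]
    rintro ⟨c, hc⟩
    exact h c hc.symm
  obtain ⟨L, hL, hL'⟩ := Submodule.exists_le_ker_of_notMem h1
  have h2 : L p = 0 := hL' (Submodule.mem_span_singleton_self p)
  refine ⟨LinearMap.toContinuousLinearMap ((L q)⁻¹ • L), ?_, ?_⟩
  · simp [h2]
  · simp [hL]

theorem good_smul {S : Setup n} {p : E n} (h : S.Good p) {c : ℂ} (hc : c ≠ 0) :
    S.Good (c • p) := by
  refine ⟨?_, ?_, fun e he => ?_⟩
  · rw [S.hf.hom, h.1, smul_zero]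
  · rw [Setup.W, S.hf.fderiv_smul hc]
    exact smul_ne_zero (mul_ne_zero (pow_ne_zero _ hc) (inv_ne_zero hc)) h.2.1
  · rw [S.hZ.hom] at he
    refine h.2.2 ((c ^ S.d)⁻¹ * (e * c)) ?_
    rw [mul_smul, mul_smul, ← he, smul_smul, inv_mul_cancel₀ (pow_ne_zero _ hc), one_smul]

theorem perp_ne_iff {z w : E n} (hz : ‖z‖ = 1) :
    w - ⟪z, w⟫_ℂ • z ≠ 0 ↔ ∀ c : ℂ, w ≠ c • z := by
  constructor
  · rintro h c rfl
    refine h ?_
    rw [inner_smul_right, inner_self_eq_norm_sq_to_K, hz]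
    simp
  · exact fun h h1 => h _ (sub_eq_zero.1 h1)

theorem simple_zero {S : Setup n} {p : E n} (h : S.Good p) :
    ∃ η : ℝ, 0 < η ∧ ∀ μ : ℂ, ‖μ‖ < η → S.f (p + μ • S.q) = 0 → μ = 0 := by
  have h1 : HasDerivAt (fun μ : ℂ => p + μ • S.q) S.q 0 := by
    simpa using ((hasDerivAt_id (0 : ℂ)).smul_const S.q).const_add p
  have h2 : HasFDerivAt S.f (fderiv ℂ S.f p) (p + (0 : ℂ) • S.q) := by
    simpa using (S.hf.cd.differentiable (by simp) p).hasFDerivAt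
  have h3 := (h2.comp_hasDerivAt (0 : ℂ) h1).eventually_ne (c := 0) h.2.1
  rw [eventually_nhdsWithin_iff, Metric.eventually_nhds_iff] at h3
  obtain ⟨η, hη, h4⟩ := h3
  refine ⟨η, hη, fun μ hμ h5 => ?_⟩
  by_contra h6
  exact h4 (by simpa using hμ) h6 h5

/-- A cut-off function which is constant along the kernel of `π`. -/
def cut (π Q : E n →L[ℂ] E n) (ρ : ℝ) (z : E n) : ℝ := 1 - st (sP Q 1 (π z) / ρ)

theorem cut_outer (Q : E n →L[ℂ] E n) (ρ : ℝ) {w : E n} (hw : w ≠ 0) :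
    ContDiffAt ℝ ∞ (fun w => 1 - st (sP Q 1 w / ρ)) w :=
  contDiffAt_const.sub (st_contDiff.contDiffAt.comp w
    ((contAt_sP (HomMap.of_clm Q) hw).div_const ρ))

theorem cut_cd (π Q : E n →L[ℂ] E n) (ρ : ℝ) {z : E n} (hz : π z ≠ 0) :
    ContDiffAt ℝ ∞ (cut π Q ρ) z :=
  (cut_outer Q ρ hz).comp z (π.restrictScalars ℝ).contDiff.contDiffAt

theorem cut_hom (π Q : E n →L[ℂ] E n) (ρ : ℝ) {z : E n} (hz : π z ≠ 0) {c : ℂ} (hc : c ≠ 0) :
    cut π Q ρ (c • z) = cut π Q ρ z := by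
  simp only [cut, map_smul, (HomMap.of_clm Q).rhom0.hom _ hz c hc]

theorem cut_ker (π Q : E n →L[ℂ] E n) (ρ : ℝ) {z q : E n} (hz : π z ≠ 0) (hq : π q = 0) :
    rz (cut π Q ρ) z q = 0 := by
  have h := rz_comp_holo (G := fun w => 1 - st (sP Q 1 w / ρ)) (x := π) (z := z)
    ((cut_outer Q ρ hz).differentiableAt (by simp)) π.differentiableAt q
  rw [π.fderiv, hq] at h
  exact h.trans (dz_zero_vec _ _)

theorem cut_nonneg (π Q : E n →L[ℂ] E n) (ρ : ℝ) (z : E n) : 0 ≤ cut π Q ρ z :=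
  sub_nonneg.2 (st_le_one _)

theorem cut_le_one (π Q : E n →L[ℂ] E n) (ρ : ℝ) (z : E n) : cut π Q ρ z ≤ 1 :=
  sub_le_self _ (st_nonneg _)

theorem cut_ne_iff (π Q : E n →L[ℂ] E n) {ρ : ℝ} (hρ : 0 < ρ) (z : E n) :
    cut π Q ρ z ≠ 0 ↔ sP Q 1 (π z) < 2 * ρ := by
  rw [← div_lt_iff₀ hρ]
  constructor
  · intro h
    by_contra h1
    exact h (by rw [cut, st_one (not_lt.1 h1), sub_self])
  · exact fun h => (sub_pos.2 (st_lt_one h)).ne'

theorem sP_bound (π Q : E n →L[ℂ] E n) {z : E n} (hz : ‖z‖ = 1) {ρ : ℝ} (hπ : π z ≠ 0)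
    (h : sP Q 1 (π z) ≤ ρ) : ‖Q (π z)‖ ^ 2 ≤ ρ * (‖π‖ ^ 2 + 1) := by
  have h1 : 0 < ‖π z‖ ^ 2 := by positivity
  rw [sP, mul_one, div_le_iff₀ h1] at h
  have h2 : ‖π z‖ ≤ ‖π‖ := by simpa [hz] using π.le_opNorm z
  have h3 : ‖π z‖ ^ 2 ≤ ‖π‖ ^ 2 := by gcongr
  have h4 : 0 ≤ ρ := by
    by_contra h5
    nlinarith [sq_nonneg ‖Q (π z)‖]
  nlinarith

theorem off_local {S : Setup n} (D : Degen S)
    (hpl : ∀ ψ : E n → ℝ, RHom0 ψ → (∀ z, 0 ≤ ψ z) → ∀ s1 : ℝ, 0 < s1 →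
      (∀ z ∈ tsupport ψ, ‖z‖ = 1 → S.f z = 0 → S.Good z) →
      (∀ z ∈ tsupport ψ, ‖z‖ = 1 → ‖S.f z‖ ^ 2 ≤ s1 → rz ψ z S.q = 0) →
      ∃ s2 : ℝ, 0 < s2 ∧ ∀ᵐ ξ ∂(D.m0 : Measure (Xi n)),
        S.f ξ.z ≠ 0 → ‖S.f ξ.z‖ ^ 2 < s2 → ψ ξ.z = 0)
    {p : E n} (hp : S.Good p)
    (hp0 : p ≠ 0) : ∃ O : Set (E n), IsOpen O ∧ (∀ μ : ℂ, p + μ • S.q ∈ O) ∧
      ∀ᵐ ξ ∂(D.m0 : Measure (Xi n)), S.f ξ.z ≠ 0 → ξ.z ∉ O := by
  have hf := S.hf.cd.continuous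
  have hZ := S.hZ.cd.continuous
  have hD := S.hf.cd.continuous_fderiv (by simp)
  obtain ⟨P, hPp, hPq⟩ := exists_form (p := p) (q := S.q) fun c hc =>
    S.hq (by rw [hc, S.hf.hom, hp.1, smul_zero])
  obtain ⟨l, hl⟩ := SeparatingDual.exists_eq_one (R := ℂ) hp0
  obtain ⟨η, hη, hη'⟩ := simple_zero hp
  obtain ⟨π, hπ⟩ : ∃ π : E n →L[ℂ] E n, ∀ z, π z = z - P z • S.q :=
    ⟨ContinuousLinearMap.id ℂ _ - P.smulRight S.q, fun z => by simp⟩
  obtain ⟨Q, hQ⟩ : ∃ Q : E n →L[ℂ] E n, ∀ z, Q z = z - l z • p :=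
    ⟨ContinuousLinearMap.id ℂ _ - l.smulRight p, fun z => by simp⟩
  have hπq : π S.q = 0 := by rw [hπ, hPq, one_smul, sub_self]
  have hπp : π p = p := by rw [hπ, hPp, zero_smul, sub_zero]
  have hQp : Q p = 0 := by rw [hQ, hl, one_smul, sub_self]
  have hPh := HomMap.of_clm P
  have hτ : ∀ z : E n, ‖z‖ = 1 → sP P 1 z = ‖P z‖ ^ 2 := fun z hz => by simp [sP, hz]
  have hτq : 0 < sP P 1 S.q := by
    have := norm_pos_iff.2 (q_ne S)
    simp only [sP, hPq, norm_one]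
    positivity
  have hτ0 : ∀ z : E n, z ≠ 0 → π z = 0 → sP P 1 z = sP P 1 S.q := by
    intro z hz h
    rw [hπ, sub_eq_zero] at h
    have h1 : P z ≠ 0 := fun h1 => hz (by rw [h, h1, zero_smul])
    rw [h]
    exact hPh.rhom0.hom _ (q_ne S) _ h1
  have hsph := isCompact_sphere (0 : E n) 1
  obtain ⟨δ0, hδ0, hδ0'⟩ := cpt hsph (U := {z | ‖P z‖ * ‖p‖ < η * ‖π z‖})
    (isOpen_lt (by fun_prop) (by fun_prop)) (g := fun z => ‖P z‖ ^ 2) (by fun_prop)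
    fun z hz h => by
      have h1 : P z = 0 := by simpa using h
      have h2 : ‖z‖ = 1 := by simpa using hz
      simp [hπ, h1, h2, hη]
  obtain ⟨ρ, hρ, hρ1, hρ2⟩ : ∃ ρ : ℝ, 0 < ρ ∧ 2 * ρ < δ0 ∧ 2 * ρ < sP P 1 S.q :=
    ⟨min δ0 (sP P 1 S.q) / 3, by positivity,
      by linarith [min_le_left δ0 (sP P 1 S.q), lt_min hδ0 hτq],
      by linarith [min_le_right δ0 (sP P 1 S.q), lt_min hδ0 hτq]⟩
  have hK1 : IsCompact (Metric.sphere (0 : E n) 1 ∩ {z | ‖P z‖ ^ 2 ≤ 2 * ρ}) :=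
    hsph.inter_right (isClosed_le (by fun_prop) continuous_const)
  have hc1 : Continuous S.W := by unfold Setup.W; fun_prop
  have hc2 : Continuous fun z : E n => S.Z z - ⟪z, S.Z z⟫_ℂ • z := by fun_prop
  have hc3 : Continuous fun z : E n => ‖P z‖ ^ 2 := by fun_prop
  have hc4 : Continuous fun z : E n => ‖S.f z‖ ^ 2 := by fun_prop
  obtain ⟨δ1, hδ1, hδ1'⟩ := cpt hK1
    (U := {z | S.W z ≠ 0 ∧ S.Z z - ⟪z, S.Z z⟫_ℂ • z ≠ 0 ∧ ‖P z‖ ^ 2 < ρ})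
    ((isOpen_ne_fun hc1 continuous_const).inter
      ((isOpen_ne_fun hc2 continuous_const).inter (isOpen_lt hc3 continuous_const)))
    (g := fun z => ‖Q (π z)‖ ^ 2 + ‖S.f z‖ ^ 2) (by fun_prop) fun z hz h => by
      have h1 : ‖z‖ = 1 := by simpa using hz.1
      have h2 : Q (π z) = 0 := by
        have : ‖Q (π z)‖ ^ 2 ≤ 0 := by linarith [sq_nonneg ‖S.f z‖]
        simpa using this
      have h3 : S.f z = 0 := by
        have : ‖S.f z‖ ^ 2 ≤ 0 := by linarith [sq_nonneg ‖Q (π z)‖]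
        simpa using this
      have h4 : ‖P z‖ * ‖p‖ < η * ‖π z‖ := hδ0' z hz.1 (lt_of_le_of_lt hz.2 hρ1)
      rw [hQ, sub_eq_zero] at h2
      set c := l (π z) with hc
      have h5 : c ≠ 0 := by
        intro h5
        rw [h2, h5, zero_smul, norm_zero, mul_zero] at h4
        exact absurd h4 (not_lt.2 (by positivity))
      have h6 : z = c • (p + (c⁻¹ * P z) • S.q) := by
        rw [smul_add, smul_smul, mul_inv_cancel_left₀ h5, ← h2, hπ, sub_add_cancel]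
      have h7 : c⁻¹ * P z = 0 := by
        refine hη' _ ?_ ?_
        · rw [h2, norm_smul, ← mul_assoc] at h4
          have h8 := lt_of_mul_lt_mul_right h4 (norm_nonneg p)
          rw [norm_mul, norm_inv, inv_mul_lt_iff₀ (norm_pos_iff.2 h5)]
          linarith
        · rw [h6, S.hf.hom] at h3
          exact (smul_eq_zero.1 h3).resolve_left (pow_ne_zero _ h5)
      rw [h7, zero_smul, add_zero] at h6
      have h8 : S.Good z := h6 ▸ good_smul hp h5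
      have h9 : P z = 0 := (mul_eq_zero.1 h7).resolve_left (inv_ne_zero h5)
      exact ⟨h8.2.1, (perp_ne_iff h1).2 h8.2.2, by simpa [h9] using hρ⟩
  have hC : 0 < ‖π‖ ^ 2 + 1 := by positivity
  obtain ⟨ρ', hρ', hρ'1⟩ : ∃ ρ' : ℝ, 0 < ρ' ∧ 2 * ρ' * (‖π‖ ^ 2 + 1) < δ1 / 2 :=
    ⟨δ1 / (8 * (‖π‖ ^ 2 + 1)), by positivity, by field_simp; linarith⟩
  let χ : E n → ℝ := fun z => 1 - st (sP P 1 z / ρ)
  let ψ : E n → ℝ := fun z => cut π Q ρ' z * χ z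
  have hχ0 : ∀ z : E n, z ≠ 0 → 2 * ρ < sP P 1 z → ψ =ᶠ[𝓝 z] 0 := by
    intro z hz h
    filter_upwards [(contAt_sP hPh hz).continuousAt.eventually (lt_mem_nhds h)] with w hw
    simp only [ψ, χ, st_one ((le_div_iff₀ hρ).2 hw.le), sub_self, mul_zero, Pi.zero_apply]
  have hψ : RHom0 ψ := by
    constructor
    · intro z hz
      refine ContDiffAt.contDiffWithinAt ?_
      by_cases h : π z = 0
      · exact (contDiffAt_const (c := (0 : ℝ))).congr_of_eventuallyEq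
          (hχ0 z hz (by rw [hτ0 z hz h]; exact hρ2))
      · exact (cut_cd π Q ρ' h).mul (contDiffAt_const.sub (st_contDiff.contDiffAt.comp z
          ((contAt_sP hPh hz).div_const ρ)))
    · intro z hz c hc
      by_cases h : π z = 0
      · simp only [ψ, χ, cut, map_smul, h, smul_zero, hPh.rhom0.hom z hz c hc]
      · simp only [ψ, χ, cut_hom π Q ρ' h hc, hPh.rhom0.hom z hz c hc]
  have hsupp : ∀ z ∈ tsupport ψ, ‖z‖ = 1 → ‖S.f z‖ ^ 2 ≤ δ1 / 2 → π z ≠ 0 ∧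
      S.W z ≠ 0 ∧ S.Z z - ⟪z, S.Z z⟫_ℂ • z ≠ 0 ∧ ‖P z‖ ^ 2 < ρ := by
    intro z hz h1 h2
    have hz0 : z ≠ 0 := by rintro rfl; simp at h1
    have h3 : sP P 1 z ≤ 2 * ρ := by
      by_contra h3
      exact notMem_tsupport_iff_eventuallyEq.2 (hχ0 z hz0 (not_le.1 h3)) hz
    have h4 : π z ≠ 0 := fun h => by
      rw [hτ0 z hz0 h] at h3
      linarith
    have h5 : sP Q 1 (π z) ≤ 2 * ρ' := by
      by_contra h5
      refine notMem_tsupport_iff_eventuallyEq.2 ?_ hz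
      have h6 : ContinuousAt (fun w => sP Q 1 (π w)) z :=
        (contAt_sP (HomMap.of_clm Q) h4).continuousAt.comp π.continuous.continuousAt
      filter_upwards [h6.eventually (lt_mem_nhds (not_le.1 h5))] with w hw
      have h7 : cut π Q ρ' w = 0 := by
        by_contra h7
        exact absurd ((cut_ne_iff π Q hρ' w).1 h7) (not_lt.2 hw.le)
      simp only [ψ, h7, zero_mul, Pi.zero_apply]
    have h6 := sP_bound π Q h1 h4 h5
    exact ⟨h4, hδ1' z ⟨by simpa using h1, (hτ z h1).symm.le.trans h3⟩ (by linarith)⟩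
  obtain ⟨s2, hs2, hs2'⟩ := hpl ψ hψ
    (fun z => mul_nonneg (cut_nonneg _ _ _ _) (sub_nonneg.2 (st_le_one _))) _ (half_pos hδ1)
    (fun z hz h1 h2 => by
      obtain ⟨-, h3, h4, -⟩ := hsupp z hz h1 (by rw [h2]; simpa using (half_pos hδ1).le)
      exact ⟨h2, h3, (perp_ne_iff h1).1 h4⟩)
    (fun z hz h1 h2 => by
      obtain ⟨h3, -, -, h4⟩ := hsupp z hz h1 h2
      have hz0 : z ≠ 0 := by rintro rfl; simp at h1
      rw [← hτ z h1] at h4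
      rw [rz_congr (h := cut π Q ρ') ?_, cut_ker π Q ρ' h3 hπq]
      filter_upwards [(contAt_sP hPh hz0).continuousAt.eventually (gt_mem_nhds h4)] with w hw
      simp only [ψ, χ, st_zero ((div_le_one hρ).2 hw.le), sub_zero, mul_one])
  obtain ⟨δ2, hδ2, hδ2'⟩ := cpt hsph (U := {z | ‖P z‖ ^ 2 < ρ ∧ ‖S.f z‖ ^ 2 < s2})
    ((isOpen_lt hc3 continuous_const).inter (isOpen_lt hc4 continuous_const))
    (g := fun z => ‖Q (π z)‖ ^ 2 + ‖P z‖ ^ 2) (by fun_prop) fun z hz h => by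
      have h2 : Q (π z) = 0 := by
        have : ‖Q (π z)‖ ^ 2 ≤ 0 := by linarith [sq_nonneg ‖P z‖]
        simpa using this
      have h3 : P z = 0 := by
        have : ‖P z‖ ^ 2 ≤ 0 := by linarith [sq_nonneg ‖Q (π z)‖]
        simpa using this
      rw [hπ, h3, zero_smul, sub_zero, hQ, sub_eq_zero] at h2
      have h4 : S.f z = 0 := by rw [h2, S.hf.hom, hp.1, smul_zero]
      exact ⟨by simpa [h3] using hρ, by simpa [h4] using hs2⟩
  obtain ⟨ρ2, hρ2a, hρ2b, hρ2c⟩ :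
      ∃ ρ2 : ℝ, 0 < ρ2 ∧ ρ2 ≤ ρ' ∧ 2 * ρ2 * (‖π‖ ^ 2 + 1) ≤ δ2 / 2 := by
    refine ⟨min ρ' (δ2 / (4 * (‖π‖ ^ 2 + 1))), by positivity, min_le_left _ _, ?_⟩
    have h1 := min_le_right ρ' (δ2 / (4 * (‖π‖ ^ 2 + 1)))
    rw [le_div_iff₀ (by positivity)] at h1
    linarith
  have hm1 : MeasurableSet {ξ : Xi n | S.f ξ.z ≠ 0} :=
    (isOpen_ne_fun (by fun_prop) continuous_const).measurableSet
  have hm2 : MeasurableSet {ξ : Xi n | π ξ.z ≠ 0} :=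
    (isOpen_ne_fun (by fun_prop) continuous_const).measurableSet
  have hm3 : Measurable fun ξ : Xi n => ENNReal.ofReal (cut π Q ρ2 ξ.z) := by
    have h1 : Measurable fun ξ : Xi n => ‖Q (π ξ.z)‖ ^ 2 := Continuous.measurable (by fun_prop)
    have h2 : Measurable fun ξ : Xi n => ‖π ξ.z‖ ^ (2 * 1) := Continuous.measurable (by fun_prop)
    exact (measurable_const.sub
      (st_continuous.measurable.comp ((h1.div h2).div_const ρ2))).ennreal_ofReal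
  have hd : ∀ᵐ ξ ∂((D.m0 : Measure (Xi n)).restrict {ξ | S.f ξ.z ≠ 0}),
      π ξ.z ≠ 0 → rz (cut π Q ρ2) ξ.z ξ.v = 0 := by
    rw [ae_restrict_iff' hm1]
    filter_upwards [D.dir_off] with ξ hξ h1 h2
    have h3 := (hξ h1).rz_eq (rz_radial ((cut_cd π Q ρ2 h2).differentiableAt (by simp))
      fun c hc => cut_hom π Q ρ2 h2 hc)
    rw [cut_ker π Q ρ2 h2 hπq] at h3
    refine (mul_eq_zero.1 h3.symm).resolve_left fun h4 => ?_
    have h5 : S.q = ⟪ξ.z, S.q⟫_ℂ • ξ.z := by simpa [Dir, h4] using hξ h1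
    have h6 : ⟪ξ.z, S.q⟫_ℂ ≠ 0 := fun h => q_ne S (by rw [h5, h, zero_smul])
    rw [h5, map_smul] at hπq
    exact h2 ((smul_eq_zero.1 hπq).resolve_left h6)
  obtain ⟨hfin, hcl⟩ := closed_weight (closed_ne D.closed0 S.hf S.hr) (HomMap.of_clm π)
    (ψ := cut π Q ρ2) (fun z hz => (cut_cd π Q ρ2 hz).contDiffWithinAt)
    (fun z hz c hc => cut_hom π Q ρ2 hz hc)
    (fun z _ => ⟨cut_nonneg _ _ _ _, cut_le_one _ _ _ _⟩) hd le_rfl
  have h0 := propagate hcl hPh le_rfl (half_pos hδ2) (by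
    rw [ae_withDensity_iff hm3, ae_restrict_iff' hm2, ae_restrict_iff' hm1]
    filter_upwards [hs2'] with ξ hξ h1 h2 h3
    by_contra h4
    have h5 : cut π Q ρ2 ξ.z ≠ 0 := fun h => h3 (by rw [h, ENNReal.ofReal_zero])
    have h6 := (cut_ne_iff π Q hρ2a _).1 h5
    have h7 := sP_bound π Q ξ.norm_z h2 h6.le
    have h8 := hδ2' ξ.z (by simpa using ξ.norm_z) (by linarith [not_le.1 h4])
    have h9 := hξ h1 h8.2
    have h10 : sP P 1 ξ.z / ρ ≤ 1 := by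
      rw [div_le_one hρ, hτ _ ξ.norm_z]
      exact h8.1.le
    simp only [ψ, χ, st_zero h10, sub_zero, mul_one] at h9
    exact (cut_ne_iff π Q hρ' _).2 (by linarith) h9)
  refine ⟨{z | ‖Q (π z)‖ ^ 2 < ρ2 * ‖π z‖ ^ 2}, isOpen_lt (by fun_prop) (by fun_prop),
    fun μ => ?_, ?_⟩
  · have := norm_pos_iff.2 hp0
    have h1 : π (p + μ • S.q) = p := by rw [map_add, map_smul, hπq, hπp, smul_zero, add_zero]
    change ‖Q (π (p + μ • S.q))‖ ^ 2 < ρ2 * ‖π (p + μ • S.q)‖ ^ 2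
    rw [h1, hQp, norm_zero, zero_pow two_ne_zero]
    positivity
  · rw [withDensity_eq_zero_iff hm3.aemeasurable, EventuallyEq, ae_restrict_iff' hm2,
      ae_restrict_iff' hm1] at h0
    filter_upwards [h0] with ξ hξ h1 h2
    have h2' : ‖Q (π ξ.z)‖ ^ 2 < ρ2 * ‖π ξ.z‖ ^ 2 := h2
    have h3 : π ξ.z ≠ 0 := by
      intro h3
      rw [h3] at h2'
      simp at h2'
    have h4 := hξ h1 h3
    have h5 : sP Q 1 (π ξ.z) / ρ2 ≤ 1 := by
      rw [div_le_one hρ2a, sP, mul_one, div_le_iff₀ (by positivity)]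
      exact h2'.le
    simp [cut, st_zero h5] at h4

theorem offY_of {S : Setup n} (D : Degen S)
    (hpl : ∀ ψ : E n → ℝ, RHom0 ψ → (∀ z, 0 ≤ ψ z) → ∀ s1 : ℝ, 0 < s1 →
      (∀ z ∈ tsupport ψ, ‖z‖ = 1 → S.f z = 0 → S.Good z) →
      (∀ z ∈ tsupport ψ, ‖z‖ = 1 → ‖S.f z‖ ^ 2 ≤ s1 → rz ψ z S.q = 0) →
      ∃ s2 : ℝ, 0 < s2 ∧ ∀ᵐ ξ ∂(D.m0 : Measure (Xi n)),
        S.f ξ.z ≠ 0 → ‖S.f ξ.z‖ ^ 2 < s2 → ψ ξ.z = 0) :
    ∀ᵐ ξ ∂(D.m0 : Measure (Xi n)), S.f ξ.z ≠ 0 → ∀ μ : ℂ, ¬ S.Good (ξ.z + μ • S.q) := by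
  have h := measure_null_of_locally_null (μ := (D.m0 : Measure (Xi n)))
    {ξ | (∀ c : ℂ, ξ.z ≠ c • S.q) ∧ S.f ξ.z ≠ 0 ∧ ∃ μ : ℂ, S.Good (ξ.z + μ • S.q)} ?_
  · filter_upwards [point_ae D.closed0 S.q, measure_eq_zero_iff_ae_notMem.1 h]
      with ξ h1 h2 h3 μ h4
    exact h2 ⟨h1, h3, μ, h4⟩
  · rintro ξ ⟨h1, -, μ, h3⟩
    have h4 : ξ.z + μ • S.q ≠ 0 := fun h => h1 (-μ) (by rw [neg_smul, eq_neg_iff_add_eq_zero, h])
    obtain ⟨O, hO, hO1, hO2⟩ := off_local D hpl h3 h4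
    refine ⟨{w | S.f w.z ≠ 0 ∧ w.z ∈ O}, ?_, ?_⟩
    · have h5 : ξ.z ∈ O := by simpa using hO1 (-μ)
      filter_upwards [self_mem_nhdsWithin,
        mem_nhdsWithin_of_mem_nhds (Xi.continuous_z.continuousAt (hO.mem_nhds h5))] with w h6 h7
      exact ⟨h6.2.1, h7⟩
    · rw [measure_eq_zero_iff_ae_notMem]
      filter_upwards [hO2] with w h5 h6
      exact h5 h6.1 h6.2

end Off

end A590
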