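import Pool.Agent.Lib.A590Calc

/-!
Block R of MP_a590e5_an: positive currents are represented by measures on orthonormal pairs.
-/

open scoped ComplexConjugate ComplexOrder ContDiff Topology InnerProductSpace CompactlySupported
open MeasureTheory Filter

noncomputable section

namespace A590

variable {n : ℕ}

namespace Rep

theorem exists_measure_of_pos {X : Type*} [MetricSpace X] [CompactSpace X] [MeasurableSpace X]
    [BorelSpace X] {H : Type*} [AddCommGroup H] [Module ℝ H] (e : H →ₗ[ℝ] C(X, ℝ))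
    (t : H →ₗ[ℝ] ℝ) (hpos : ∀ h, (∀ x, 0 ≤ e h x) → 0 ≤ t h) (o : H) (ho : ∀ x, e o x = 1) :
    ∃ m : Measure X, IsFiniteMeasure m ∧ ∀ h, t h = ∫ x, e h x ∂m := by
  have hker : ∀ h h', e h = e h' → t h = t h' := by
    intro h h' he
    have h1 := hpos (h - h') (fun x => by rw [map_sub, he, sub_self]; rfl)
    have h2 := hpos (h' - h) (fun x => by rw [map_sub, he, sub_self]; rfl)
    rw [map_sub] at h1 h2
    linarith
  obtain ⟨s, hs⟩ := e.rangeRestrict.exists_rightInverse_of_surjective e.range_rangeRestrict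
  have hs' : ∀ y : LinearMap.range e, e (s y) = y := fun y =>
    congrArg Subtype.val (LinearMap.congr_fun hs y)
  obtain ⟨g, hg1, hg2⟩ := riesz_extension (PointedCone.positive ℝ C(X, ℝ))
    ⟨LinearMap.range e, t.comp s⟩ (by
      intro y hy
      apply hpos
      intro x
      rw [hs']
      exact hy x) (by
      intro y
      refine ⟨⟨e (‖y‖ • o), LinearMap.mem_range_self _ _⟩, fun x => ?_⟩
      have h1 := y.norm_coe_le_norm x
      have h2 := neg_abs_le (y x)
      rw [Real.norm_eq_abs] at h1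
      change 0 ≤ e (‖y‖ • o) x + y x
      rw [map_smul, ContinuousMap.smul_apply, ho, smul_eq_mul]
      linarith)
  let Λ : C_c(X, ℝ) →ₚ[ℝ] ℝ :=
    { toFun := fun f => g f.toContinuousMap
      map_add' := fun f f' => g.map_add _ _
      map_smul' := fun c f => g.map_smul c _
      monotone' := fun f f' hff => by
        have h1 := hg2 (f'.toContinuousMap - f.toContinuousMap) (fun x => sub_nonneg.2 (hff x))
        rw [map_sub] at h1
        exact sub_nonneg.1 h1 }
  refine ⟨RealRMK.rieszMeasure Λ, inferInstance, fun h => ?_⟩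
  have h1 := RealRMK.integral_rieszMeasure Λ ⟨e h, HasCompactSupport.of_compactSpace _⟩
  have h2 := hg1 ⟨e h, LinearMap.mem_range_self _ _⟩
  have h3 := hker _ _ (hs' ⟨e h, LinearMap.mem_range_self _ _⟩)
  exact (h3.symm.trans h2.symm).trans h1.symm

theorem inner_eq_sum (x y : E n) : ⟪x, y⟫_ℂ = ∑ i, conj (x i) * y i := by
  simp [PiLp.inner_apply, mul_comm]

theorem sum_conj_mul (x : E n) : ∑ i, conj (x i) * x i = ((‖x‖ ^ 2 : ℝ) : ℂ) := by
  rw [← inner_eq_sum, inner_self_eq_norm_sq_to_K]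
  simp

/-- The value of a `(1,1)`-form at `z` on the vector `v`. -/
def ev (φ : Form11 n) (z v : E n) : ℂ := ∑ j, ∑ k, φ.1 z j k * (v j * conj (v k))

theorem ev_add (φ ψ : Form11 n) (z v : E n) : ev (φ + ψ) z v = ev φ z v + ev ψ z v := by
  simp [ev, add_mul, Finset.sum_add_distrib]

theorem ev_smul (a : ℂ) (φ : Form11 n) (z v : E n) : ev (a • φ) z v = a * ev φ z v := by
  simp [ev, Finset.mul_sum, mul_assoc]

theorem ev_sub (φ ψ : Form11 n) (z v : E n) : ev (φ - ψ) z v = ev φ z v - ev ψ z v := by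
  simp [ev, sub_mul, Finset.sum_sub_distrib]

theorem ev_smul_vec (φ : Form11 n) (z v : E n) (c : ℂ) :
    ev φ z (c • v) = c * conj c * ev φ z v := by
  simp only [ev, Finset.mul_sum, PiLp.smul_apply, smul_eq_mul, map_mul]
  exact Finset.sum_congr rfl fun j _ => Finset.sum_congr rfl fun k _ => by ring

theorem ev_smul_pt (φ : Form11 n) {z : E n} (hz : z ≠ 0) (v : E n) {c : ℂ} (hc : c ≠ 0) :
    ev φ (c • z) v = (c * conj c)⁻¹ * ev φ z v := by
  simp only [ev, Finset.mul_sum, φ.2.2.1 z hz c hc, mul_assoc]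

theorem ev_add_radial (φ : Form11 n) {z : E n} (hz : z ≠ 0) (w : E n) (a : ℂ) :
    ev φ z (w + a • z) = ev φ z w := by
  have h1 : ev φ z (w + a • z) = ev φ z w +
      (∑ j, (conj a * w j) * ∑ k, φ.1 z j k * conj (z k)) +
      ∑ k, (a * conj (w k + a * z k)) * ∑ j, φ.1 z j k * z j := by
    simp only [Finset.mul_sum]
    rw [Finset.sum_comm (f := fun k j => a * conj (w k + a * z k) * (φ.1 z j k * z j))]
    simp only [ev, ← Finset.sum_add_distrib, PiLp.add_apply, PiLp.smul_apply, smul_eq_mul,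
      map_add, map_mul]
    exact Finset.sum_congr rfl fun j _ => Finset.sum_congr rfl fun k _ => by ring
  rw [h1]
  simp [φ.2.2.2.1 z hz, φ.2.2.2.2 z hz]

theorem continuous_ev (φ : Form11 n) : Continuous fun ξ : Xi n => ev φ ξ.z ξ.v := by
  have h1 : Continuous fun ξ : Xi n => φ.1 ξ.z :=
    φ.2.1.continuousOn.comp_continuous Xi.continuous_z fun ξ => ξ.z_ne
  have h2 : ∀ k, Continuous fun ξ : Xi n => ξ.v k := fun k => by fun_prop
  exact continuous_finsetSum _ fun j _ => continuous_finsetSum _ fun k _ =>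
    ((continuous_apply k).comp ((continuous_apply j).comp h1)).mul
      ((h2 j).mul (Complex.continuous_conj.comp (h2 k)))

theorem nonneg_of_Xi (φ : Form11 n) (h : ∀ ξ : Xi n, 0 ≤ ev φ ξ.z ξ.v) {z : E n} (hz : z ≠ 0)
    (v : E n) : 0 ≤ ev φ z v := by
  have key : ∀ z : E n, ‖z‖ = 1 → 0 ≤ ev φ z v := by
    intro z hz1
    have hz : z ≠ 0 := by rintro rfl; simp at hz1
    set w := v - ⟪z, v⟫_ℂ • z with hw
    have h1 : v = w + ⟪z, v⟫_ℂ • z := by rw [hw, sub_add_cancel]
    have h2 : ⟪z, w⟫_ℂ = 0 := by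
      rw [hw, inner_sub_right, inner_smul_right, inner_self_eq_norm_sq_to_K, hz1]
      simp
    rw [h1, ev_add_radial φ hz]
    by_cases hw0 : w = 0
    · rw [hw0]; simp [ev]
    · have h3 : (‖w‖ : ℂ) ≠ 0 := by simpa using hw0
      have h4 : w = (‖w‖ : ℂ) • ((‖w‖ : ℂ)⁻¹ • w) := by rw [smul_inv_smul₀ h3]
      rw [h4, ev_smul_vec]
      apply mul_nonneg
      · rw [Complex.mul_conj]; exact_mod_cast Complex.normSq_nonneg _
      · refine h ⟨(z, (‖w‖ : ℂ)⁻¹ • w), hz1, ?_, ?_⟩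
        · simp [norm_smul, hw0]
        · simp [h2]
  have h3 : (‖z‖ : ℂ) ≠ 0 := by simpa using hz
  have h4 : z = (‖z‖ : ℂ) • ((‖z‖ : ℂ)⁻¹ • z) := by rw [smul_inv_smul₀ h3]
  rw [h4, ev_smul_pt φ (smul_ne_zero (inv_ne_zero h3) hz) v h3]
  apply mul_nonneg
  · rw [Complex.mul_conj, ← Complex.ofReal_inv]
    exact_mod_cast inv_nonneg.2 (Complex.normSq_nonneg _)
  · exact key _ (by simp [norm_smul, hz])

theorem pos_of_Xi {T : Current n} (hT : Positive T) (φ : Form11 n)
    (h : ∀ ξ : Xi n, 0 ≤ ev φ ξ.z ξ.v) : 0 ≤ T φ :=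
  hT φ fun _ hz v => nonneg_of_Xi φ h hz v

theorem contDiff_coord (j : Fin n) : ContDiff ℝ ∞ fun z : E n => z j := by fun_prop

theorem contDiff_conj : ContDiff ℝ ∞ fun z : ℂ => conj z := Complex.conjCLE.contDiff

theorem contDiff_nsq : ContDiff ℝ ∞ fun z : E n => ((‖z‖ ^ 2 : ℝ) : ℂ) :=
  Complex.ofRealCLM.contDiff.comp (contDiff_norm_sq ℂ)

theorem nsq_ne {z : E n} (hz : z ≠ 0) : ((‖z‖ ^ 2 : ℝ) : ℂ) ≠ 0 := by simpa using hz

theorem contDiffOn_div {f g : E n → ℂ} {s : Set (E n)} (hf : ContDiffOn ℝ ∞ f s)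
    (hg : ContDiffOn ℝ ∞ g s) (h : ∀ z ∈ s, g z ≠ 0) : ContDiffOn ℝ ∞ (fun z => f z / g z) s := by
  simp only [div_eq_mul_inv]
  exact hf.mul (hg.inv h)

theorem nsq_smul (c : ℂ) (z : E n) :
    ((‖c • z‖ ^ 2 : ℝ) : ℂ) = c * conj c * ((‖z‖ ^ 2 : ℝ) : ℂ) := by
  rw [norm_smul, mul_pow, Complex.mul_conj, Complex.normSq_eq_norm_sq]
  push_cast
  ring

/-- The Fubini-Study form. -/
def fs (n : ℕ) : Form11 n :=
  ⟨fun z j k => (if j = k then 1 else 0) / ((‖z‖ ^ 2 : ℝ) : ℂ) -
      conj (z j) * z k / ((‖z‖ ^ 2 : ℝ) : ℂ) ^ 2, by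
    refine ⟨?_, ?_, ?_, ?_⟩
    · refine contDiffOn_pi.2 fun j => contDiffOn_pi.2 fun k => ?_
      refine (contDiffOn_div contDiffOn_const contDiff_nsq.contDiffOn fun z hz => nsq_ne hz).sub
        (contDiffOn_div ?_ (contDiff_nsq.contDiffOn.pow 2) fun z hz => pow_ne_zero _ (nsq_ne hz))
      exact ((contDiff_conj.comp (contDiff_coord j)).mul (contDiff_coord k)).contDiffOn
    · intro z hz c hc j k
      have h1 := nsq_ne hz
      have h2 : conj c ≠ 0 := by simpa using hc
      simp only [nsq_smul, PiLp.smul_apply, smul_eq_mul, map_mul]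
      field_simp
    · intro z hz k
      have h1 := nsq_ne hz
      have h2 : ∀ j, conj (z j) * z k / ((‖z‖ ^ 2 : ℝ) : ℂ) ^ 2 * z j =
          conj (z j) * z j * (z k / ((‖z‖ ^ 2 : ℝ) : ℂ) ^ 2) := fun j => by ring
      simp only [sub_mul, Finset.sum_sub_distrib, h2, ← Finset.sum_mul, sum_conj_mul, ite_div,
        ite_mul, zero_div, zero_mul, Finset.sum_ite_eq', Finset.mem_univ, if_true]
      field_simp
      ring
    · intro z hz j
      have h1 := nsq_ne hz
      have h2 : ∀ k, conj (z j) * z k / ((‖z‖ ^ 2 : ℝ) : ℂ) ^ 2 * conj (z k) =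
          conj (z k) * z k * (conj (z j) / ((‖z‖ ^ 2 : ℝ) : ℂ) ^ 2) := fun j => by ring
      simp only [sub_mul, Finset.sum_sub_distrib, h2, ← Finset.sum_mul, sum_conj_mul, ite_div,
        ite_mul, zero_div, zero_mul, Finset.sum_ite_eq, Finset.mem_univ, if_true]
      field_simp
      ring⟩

theorem ev_fs (ξ : Xi n) : ev (fs n) ξ.z ξ.v = 1 := by
  have h1 := ξ.inner_zv
  rw [inner_eq_sum] at h1
  have h2 := sum_conj_mul ξ.v
  have h3 : ∀ j k, conj (ξ.z j) * ξ.z k * (ξ.v j * conj (ξ.v k)) =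
      conj (ξ.z j) * ξ.v j * (ξ.z k * conj (ξ.v k)) := fun j k => by ring
  rw [ξ.norm_v] at h2
  simp only [ev, fs, ξ.norm_z, one_pow, Complex.ofReal_one, div_one, sub_mul,
    Finset.sum_sub_distrib, h3, ← Finset.mul_sum, ← Finset.sum_mul, h1, zero_mul, sub_zero, ite_mul,
    one_mul, Finset.sum_ite_eq, Finset.mem_univ, if_true]
  simpa [mul_comm] using h2

/-- The conjugate form. -/
def adj (φ : Form11 n) : Form11 n :=
  ⟨fun z j k => conj (φ.1 z k j), by
    obtain ⟨h1, h2, h3, h4⟩ := φ.2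
    refine ⟨?_, ?_, ?_, ?_⟩
    · refine contDiffOn_pi.2 fun j => contDiffOn_pi.2 fun k => ?_
      exact contDiff_conj.comp_contDiffOn (contDiffOn_pi.1 (contDiffOn_pi.1 h1 k) j)
    · intro z hz c hc j k
      simp only [h2 z hz c hc, map_mul, map_inv₀, Complex.conj_conj, mul_comm (conj c) c]
    · intro z hz k
      simpa using congrArg conj (h4 z hz k)
    · intro z hz j
      simpa using congrArg conj (h3 z hz j)⟩

theorem ev_adj (φ : Form11 n) (z v : E n) : ev (adj φ) z v = conj (ev φ z v) := by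
  unfold ev
  rw [Finset.sum_comm]
  simp only [adj, map_sum, map_mul, Complex.conj_conj]
  exact Finset.sum_congr rfl fun j _ => Finset.sum_congr rfl fun k _ => by ring

theorem pos_im_eq_zero {T : Current n} (hT : Positive T) (φ : Form11 n)
    (h : ∀ ξ : Xi n, (ev φ ξ.z ξ.v).im = 0) : (T φ).im = 0 := by
  obtain ⟨C, hC⟩ := isCompact_univ.exists_bound_of_continuousOn (continuous_ev φ).continuousOn
  have h1 := pos_of_Xi hT (fs n) fun ξ => by rw [ev_fs]; exact zero_le_one
  have h2 := pos_of_Xi hT ((C : ℂ) • fs n + φ) fun ξ => by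
    rw [ev_add, ev_smul, ev_fs, Complex.nonneg_iff]
    have h3 := (Complex.abs_re_le_norm _).trans (hC ξ trivial)
    have h4 := neg_abs_le (ev φ ξ.z ξ.v).re
    constructor
    · simp only [mul_one, Complex.add_re, Complex.ofReal_re]; linarith
    · simp [h ξ]
  rw [map_add, map_smul, Complex.nonneg_iff] at h2
  rw [Complex.nonneg_iff] at h1
  have h3 := h2.2
  simpa [← h1.2] using h3.symm

theorem pos_re_nonneg {T : Current n} (hT : Positive T) (φ : Form11 n)
    (h : ∀ ξ : Xi n, 0 ≤ (ev φ ξ.z ξ.v).re) : 0 ≤ (T φ).re := by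
  have h1 := pos_of_Xi hT (φ + adj φ) fun ξ => by
    rw [ev_add, ev_adj, Complex.add_conj]
    exact_mod_cast mul_nonneg zero_le_two (h ξ)
  have h2 := pos_im_eq_zero hT (Complex.I • (φ - adj φ)) fun ξ => by
    rw [ev_smul, ev_sub, ev_adj]
    simp
  rw [map_add, Complex.nonneg_iff] at h1
  rw [map_smul, map_sub] at h2
  have h3 := h1.1
  simp only [smul_eq_mul, Complex.mul_im, Complex.I_re, zero_mul, Complex.I_im, one_mul, zero_add,
    Complex.sub_re, Complex.add_re] at h2 h3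
  linarith

theorem integrable_of_continuous {F : Type*} [NormedAddCommGroup F] {f : Xi n → F}
    (hf : Continuous f) (m : Measure (Xi n)) [IsFiniteMeasure m] : Integrable f m :=
  hf.integrable_of_hasCompactSupport (HasCompactSupport.of_compactSpace _)

end Rep

open Rep

theorem rep (T : Current n) (hT : Positive T) : ∃ m : Measure (Xi n), IsFiniteMeasure m ∧
    ∀ φ : Form11 n, T φ = ∫ ξ, ∑ j, ∑ k, φ.1 ξ.z j k * (ξ.v j * conj (ξ.v k)) ∂m := by
  let e : Form11 n →ₗ[ℝ] C(Xi n, ℝ) :=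
    { toFun := fun φ => ⟨fun ξ => (ev φ ξ.z ξ.v).re, Complex.continuous_re.comp (continuous_ev φ)⟩
      map_add' := fun φ ψ => by ext ξ; simp [ev_add]
      map_smul' := fun a φ => by
        ext ξ
        have : a • φ = (a : ℂ) • φ := rfl
        simp [this, ev_smul] }
  obtain ⟨m, hm, h⟩ := exists_measure_of_pos e (Complex.reLm.comp (T.restrictScalars ℝ))
    (fun φ hφ => pos_re_nonneg hT φ hφ) (fs n) (fun ξ => by simp [e, ev_fs])
  refine ⟨m, hm, fun φ => ?_⟩
  have h1 : (T φ).re = ∫ ξ, (ev φ ξ.z ξ.v).re ∂m := h φ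
  have h2 : (T ((-Complex.I) • φ)).re = ∫ ξ, (ev ((-Complex.I) • φ) ξ.z ξ.v).re ∂m := h _
  have h3 := integrable_of_continuous (continuous_ev φ) m
  change T φ = ∫ ξ, ev φ ξ.z ξ.v ∂m
  apply Complex.ext
  · rw [h1]; exact integral_re h3
  · simp only [map_smul, ev_smul, smul_eq_mul, neg_mul, Complex.neg_re, Complex.mul_re,
      Complex.I_re, zero_mul, Complex.I_im, one_mul, zero_sub, neg_neg] at h2
    rw [h2]; exact integral_im h3

theorem Positive.orderZero {T : Current n} (hT : Positive T) : OrderZero T := by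
  obtain ⟨m, hm, h⟩ := rep T hT
  refine ⟨n ^ 2 * m.real Set.univ, fun φ M hM => ?_⟩
  rw [h, mul_right_comm]
  refine norm_integral_le_of_norm_le_const (ae_of_all _ fun ξ => ?_)
  have hv : ∀ j, ‖ξ.v j‖ ≤ 1 := fun j => (PiLp.norm_apply_le ξ.v j).trans ξ.norm_v.le
  calc _ ≤ ∑ _j : Fin n, ∑ _k : Fin n, M := by
        refine (norm_sum_le _ _).trans (Finset.sum_le_sum fun j _ => ?_)
        refine (norm_sum_le _ _).trans (Finset.sum_le_sum fun k _ => ?_)
        rw [norm_mul, norm_mul, Complex.norm_conj]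
        exact (mul_le_of_le_one_right (norm_nonneg _)
          (mul_le_one₀ (hv j) (norm_nonneg _) (hv k))).trans (hM _ ξ.norm_z j k)
    _ = _ := by simp; ring

namespace Rep

theorem form10_contDiffAt {α : E n → Fin n → ℂ} (hα : IsForm10 α) {z : E n} (hz : z ≠ 0)
    (j : Fin n) : ContDiffAt ℝ ∞ (fun w => α w j) z :=
  (contDiffOn_pi.1 hα.1 j).contDiffAt (isOpen_compl_singleton.mem_nhds hz)

/-- The form `- dbar α`. -/
def dbarF {α : E n → Fin n → ℂ} (hα : IsForm10 α) : Form11 n :=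
  ⟨fun z j k => -pdb k (fun w => α w j) z, by
    have hd : ∀ z : E n, z ≠ 0 → ∀ j, DifferentiableAt ℝ (fun w => α w j) z := fun z hz j =>
      (form10_contDiffAt hα hz j).differentiableAt (by simp)
    refine ⟨?_, ?_, ?_, ?_⟩
    · refine contDiffOn_pi.2 fun j => contDiffOn_pi.2 fun k => fun z hz => ?_
      exact ((contDiffAt_dz_fixed (form10_contDiffAt hα hz j) _).2.neg).contDiffWithinAt
    · intro z hz c hc j k
      have h1 := (dz_scale hc (hd z hz j) (hd _ (smul_ne_zero hc hz) j) (a := c⁻¹)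
        (by filter_upwards [isOpen_compl_singleton.mem_nhds hz] with w hw using hα.2.1 w hw c hc j)
        (EuclideanSpace.single k 1)).2
      simp only [pdb, h1, mul_inv, mul_neg]
    · intro z hz k
      have hc : ∀ j, DifferentiableAt ℂ (fun w : E n => w j) z := fun j => by fun_prop
      have h1 : dzb (fun w => ∑ j, α w j * w j) z (EuclideanSpace.single k 1) = 0 := by
        rw [dzb_congr (h := fun _ => 0), dzb_const]
        filter_upwards [isOpen_compl_singleton.mem_nhds hz] with w hw using hα.2.2 w hw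
      rw [dzb_sum (g := fun j w => α w j * w j) _
        fun j _ => (hd z hz j).mul ((hc j).restrictScalars ℝ)] at h1
      simp only [pdb, neg_mul, Finset.sum_neg_distrib, neg_eq_zero]
      rw [← h1]
      refine Finset.sum_congr rfl fun j _ => ?_
      rw [dzb_mul (hd z hz j) ((hc j).restrictScalars ℝ), dzb_holo (hc j), mul_zero, add_zero]
    · intro z hz j
      have h1 := (dz_radial (hd z hz j) (-1) (by
        filter_upwards [isOpen_compl_singleton.mem_nhds (one_ne_zero (α := ℂ))] with c hc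
        rw [zpow_neg_one]
        exact hα.2.1 z hz c hc j)).2
      rw [dzb_eq_sum] at h1
      simp only [neg_mul, Finset.sum_neg_distrib, h1, neg_zero]⟩

theorem closedM_of_closed {T : Current n} (hT : Closed T) {m : Measure (Xi n)}
    (h : ∀ φ : Form11 n, T φ = ∫ ξ, ev φ ξ.z ξ.v ∂m) : ClosedM m := by
  intro α hα
  have h1 := hT α 0 hα ⟨contDiffOn_const, by simp, by simp⟩ (dbarF hα) fun z _ j k => by
    simp only [dbarF, pd, Pi.zero_apply, dz_const, zero_sub]
  rw [h] at h1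
  rw [← neg_eq_zero, ← integral_neg, ← h1]
  congr 1
  ext ξ
  simp only [ev, dbarF, dzb_eq_sum, Finset.sum_mul, ← Finset.sum_neg_distrib]
  exact Finset.sum_congr rfl fun j _ => Finset.sum_congr rfl fun k _ => by ring

theorem form10_conj {α : E n → Fin n → ℂ} (hα : IsForm10 α) :
    IsForm01 fun z k => conj (α z k) := by
  refine ⟨contDiffOn_pi.2 fun k => contDiff_conj.comp_contDiffOn (contDiffOn_pi.1 hα.1 k), ?_, ?_⟩
  · intro z hz c hc k
    simp only [hα.2.1 z hz c hc, map_mul, map_inv₀]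
  · intro z hz
    simpa using congrArg conj (hα.2.2 z hz)

/-- The wedge product of a `(1,0)`-form and a `(0,1)`-form. -/
def wedge {α γ : E n → Fin n → ℂ} (hα : IsForm10 α) (hγ : IsForm01 γ) : Form11 n :=
  ⟨fun z j k => α z j * γ z k, by
    refine ⟨?_, ?_, ?_, ?_⟩
    · exact contDiffOn_pi.2 fun j => contDiffOn_pi.2 fun k =>
        (contDiffOn_pi.1 hα.1 j).mul (contDiffOn_pi.1 hγ.1 k)
    · intro z hz c hc j k
      simp only [hα.2.1 z hz c hc, hγ.2.1 z hz c hc, mul_inv]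
      ring
    · intro z hz k
      simp only [mul_right_comm _ (γ z k), ← Finset.sum_mul, hα.2.2 z hz, zero_mul]
    · intro z hz j
      simp only [mul_assoc, ← Finset.mul_sum, hγ.2.2 z hz, mul_zero]⟩

theorem ae_zero_of_directed {V : E n → E n} {T : Current n} (hT : Directed V T)
    {m : Measure (Xi n)} [IsFiniteMeasure m] (h : ∀ φ : Form11 n, T φ = ∫ ξ, ev φ ξ.z ξ.v ∂m)
    {α : E n → Fin n → ℂ} (hα : IsForm10 α) (h1 : ∀ z : E n, z ≠ 0 → ∑ j, α z j * V z j = 0)
    (h2 : ∀ z ∈ Sing V, ∀ᶠ w in 𝓝 z, α w = 0) : ∀ᵐ ξ ∂m, ∑ j, α ξ.z j * ξ.v j = 0 := by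
  have h3 := hT α _ hα (form10_conj hα) h1 h2 (wedge hα (form10_conj hα)) fun _ _ _ _ => rfl
  have h4 : ∀ ξ : Xi n, ev (wedge hα (form10_conj hα)) ξ.z ξ.v =
      ((‖∑ j, α ξ.z j * ξ.v j‖ ^ 2 : ℝ) : ℂ) := by
    intro ξ
    rw [← Complex.normSq_eq_norm_sq, ← Complex.mul_conj, map_sum, Finset.sum_mul_sum]
    simp only [ev, wedge, map_mul]
    exact Finset.sum_congr rfl fun j _ => Finset.sum_congr rfl fun k _ => by ring
  rw [h] at h3
  simp only [h4] at h3
  rw [integral_complex_ofReal, Complex.ofReal_eq_zero] at h3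
  have h5 : Continuous fun ξ : Xi n => α ξ.z :=
    hα.1.continuousOn.comp_continuous Xi.continuous_z fun ξ => ξ.z_ne
  have h6 : ∀ k, Continuous fun ξ : Xi n => ξ.v k := fun k => by fun_prop
  have h7 : Continuous fun ξ : Xi n => ‖∑ j, α ξ.z j * ξ.v j‖ ^ 2 :=
    (continuous_finsetSum _ fun j _ => ((continuous_apply j).comp h5).mul (h6 j)).norm.pow 2
  rw [integral_eq_zero_iff_of_nonneg (fun ξ => by positivity)
    (integrable_of_continuous h7 m)] at h3
  filter_upwards [h3] with ξ hξ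
  simpa using hξ

/-- The minors of the matrix `(z, V z)`. -/
def mnr (V : E n → E n) (z : E n) (a b : Fin n) : ℂ := z a * V z b - z b * V z a

/-- The linear form `u ↦ det (z, V z, u)` in the rows `i, j, k`. -/
def det3 (V : E n → E n) (i j k : Fin n) (z : E n) (b : Fin n) : ℂ :=
  (if k = b then mnr V z i j else 0) - (if j = b then mnr V z i k else 0) +
    if i = b then mnr V z j k else 0

theorem det3_sum (V : E n → E n) (i j k : Fin n) (z u : E n) :
    ∑ b, det3 V i j k z b * u b =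
      mnr V z i j * u k - mnr V z i k * u j + mnr V z j k * u i := by
  simp [det3, add_mul, sub_mul, Finset.sum_add_distrib, Finset.sum_sub_distrib]

theorem dir_of_det3 (V : E n → E n) (ξ : Xi n)
    (h : ∀ i j k, ∑ b, det3 V i j k ξ.z b * ξ.v b = 0) : Dir (V ξ.z) ξ := by
  have h1 := sum_conj_mul ξ.z
  have h2 := sum_conj_mul ξ.v
  have h3 := ξ.inner_zv
  have h4 := ξ.inner_vz
  rw [inner_eq_sum] at h3 h4
  rw [ξ.norm_z] at h1
  rw [ξ.norm_v] at h2
  ext j
  have h5 : ∑ i, ∑ k, conj (ξ.z i) * conj (ξ.v k) * ∑ b, det3 V i j k ξ.z b * ξ.v b = 0 := by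
    simp [h]
  have h6 : ∑ i, ∑ k, conj (ξ.z i) * conj (ξ.v k) * ∑ b, det3 V i j k ξ.z b * ξ.v b =
      (∑ i, conj (ξ.z i) * ξ.z i) * ((∑ k, conj (ξ.v k) * ξ.v k) * V ξ.z j
        - (∑ k, conj (ξ.v k) * V ξ.z k) * ξ.v j)
      - (∑ i, conj (ξ.z i) * V ξ.z i) * ((∑ k, conj (ξ.v k) * ξ.v k) * ξ.z j
        - (∑ k, conj (ξ.v k) * ξ.z k) * ξ.v j)
      + (∑ i, conj (ξ.z i) * ξ.v i) * ((∑ k, conj (ξ.v k) * V ξ.z k) * ξ.z j
        - (∑ k, conj (ξ.v k) * ξ.z k) * V ξ.z j) := by
    simp only [det3_sum, mnr, Finset.sum_mul, Finset.mul_sum, ← Finset.sum_sub_distrib,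
      ← Finset.sum_add_distrib]
    rw [Finset.sum_comm]
    exact Finset.sum_congr rfl fun i _ => Finset.sum_congr rfl fun k _ => by ring
  rw [h6, h1, h2, h3, h4] at h5
  simp only [PiLp.add_apply, PiLp.smul_apply, smul_eq_mul, inner_eq_sum]
  push_cast at h5
  linear_combination h5

theorem dir_of_directed {V : E n → E n} {d : ℕ} (hV : HomMap V d) {T : Current n}
    (hT : Directed V T) {m : Measure (Xi n)} [IsFiniteMeasure m]
    (h : ∀ φ : Form11 n, T φ = ∫ ξ, ev φ ξ.z ξ.v ∂m) : ∀ᵐ ξ ∂m, Dir (V ξ.z) ξ := by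
  have hVc : ∀ a, ContDiff ℝ ∞ fun z => V z a := fun a =>
    (contDiff_coord a).comp (hV.cd.restrict_scalars ℝ)
  have hm : ∀ a b, ContDiff ℝ ∞ fun z => mnr V z a b := fun a b =>
    ((contDiff_coord a).mul (hVc b)).sub ((contDiff_coord b).mul (hVc a))
  have hms : ∀ (c : ℂ) z a b, mnr V (c • z) a b = c ^ (d + 1) * mnr V z a b := by
    intro c z a b
    simp only [mnr, hV.hom, PiLp.smul_apply, smul_eq_mul]
    ring
  set σ : E n → ℝ := fun z => (∑ a, ∑ b, ‖mnr V z a b‖ ^ 2) / (‖z‖ ^ 2) ^ (d + 1) with hσ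
  have hσc : ContDiffOn ℝ ∞ σ {0}ᶜ := by
    refine ContDiffOn.div (ContDiff.contDiffOn ?_) ((contDiff_norm_sq ℂ).pow _).contDiffOn
      fun z hz => by simpa using hz
    exact ContDiff.sum fun a _ => ContDiff.sum fun b _ => (hm a b).norm_sq ℂ
  have hσs : ∀ z : E n, z ≠ 0 → ∀ c : ℂ, c ≠ 0 → σ (c • z) = σ z := by
    intro z hz c hc
    have h1 : ‖z‖ ≠ 0 := by simpa using hz
    have h2 : ‖c‖ ≠ 0 := by simpa using hc
    simp only [hσ, hms, norm_mul, norm_pow, mul_pow, ← Finset.mul_sum, norm_smul]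
    field_simp
    ring
  have key : ∀ (N : ℕ) (l i j k : Fin n), ∀ᵐ ξ ∂m, ∑ b, ((st ((N + 1) * σ ξ.z) : ℂ) *
      (conj (ξ.z l) / ((‖ξ.z‖ ^ 2 : ℝ) : ℂ)) ^ (d + 2) * det3 V i j k ξ.z b) * ξ.v b = 0 := by
    intro N l i j k
    refine ae_zero_of_directed hT h (α := fun z b => (st ((N + 1) * σ z) : ℂ) *
      (conj (z l) / ((‖z‖ ^ 2 : ℝ) : ℂ)) ^ (d + 2) * det3 V i j k z b) ⟨?_, ?_, ?_⟩ ?_ ?_
    · refine contDiffOn_pi.2 fun b => ContDiffOn.mul (ContDiffOn.mul ?_ (ContDiffOn.pow ?_ _)) ?_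
      · exact Complex.ofRealCLM.contDiff.comp_contDiffOn
          (st_contDiff.comp_contDiffOn (contDiffOn_const.mul hσc))
      · exact contDiffOn_div (contDiff_conj.comp (contDiff_coord l)).contDiffOn
          contDiff_nsq.contDiffOn fun z hz => nsq_ne hz
      · unfold det3
        refine ContDiff.contDiffOn (ContDiff.add (ContDiff.sub ?_ ?_) ?_) <;> split_ifs <;>
          first | exact hm _ _ | exact contDiff_const
    · intro z hz c hc b
      have h1 := nsq_ne hz
      have h2 : conj c ≠ 0 := by simpa using hc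
      have h3 : det3 V i j k (c • z) b = c ^ (d + 1) * det3 V i j k z b := by
        simp only [det3, hms, mul_add, mul_sub, mul_ite, mul_zero]
      have h4 : conj ((c • z) l) / ((‖c • z‖ ^ 2 : ℝ) : ℂ) =
          c⁻¹ * (conj (z l) / ((‖z‖ ^ 2 : ℝ) : ℂ)) := by
        simp only [nsq_smul, PiLp.smul_apply, smul_eq_mul, map_mul]
        field_simp
      have h5 : c⁻¹ ^ (d + 2) * c ^ (d + 1) = c⁻¹ := by
        rw [pow_succ, mul_right_comm, ← mul_pow, inv_mul_cancel₀ hc, one_pow, one_mul]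
      simp only [hσs z hz c hc, h3, h4, mul_pow]
      linear_combination (st ((N + 1) * σ z) : ℂ) *
        (conj (z l) / ((‖z‖ ^ 2 : ℝ) : ℂ)) ^ (d + 2) * det3 V i j k z b * h5
    · intro z _
      simp only [mul_assoc, ← Finset.mul_sum, det3_sum, mnr]
      ring
    · intro z _
      simp only [mul_assoc, ← Finset.mul_sum, det3_sum, mnr]
      ring
    · intro z hz
      have h1 : σ z = 0 := by
        simp [hσ, mnr, hz.2]
      have h2 : ContinuousAt (fun w => ((N : ℝ) + 1) * σ w) z :=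
        continuousAt_const.mul
          (hσc.contDiffAt (isOpen_compl_singleton.mem_nhds hz.1)).continuousAt
      filter_upwards [h2.eventually (gt_mem_nhds (show ((N : ℝ) + 1) * σ z < 1 by simp [h1]))]
        with w hw
      ext b
      simp [st_zero hw.le]
  have key2 := ae_all_iff.2 fun N => ae_all_iff.2 fun l => ae_all_iff.2 fun i =>
    ae_all_iff.2 fun j => ae_all_iff.2 fun k => key N l i j k
  filter_upwards [key2] with ξ hξ
  apply dir_of_det3
  intro i j k
  by_cases h0 : σ ξ.z = 0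
  · have h1 : ∑ a, ∑ b, ‖mnr V ξ.z a b‖ ^ 2 = 0 := by simpa [hσ, ξ.norm_z] using h0
    have h2 : ∀ a b, mnr V ξ.z a b = 0 := by
      intro a b
      rw [Finset.sum_eq_zero_iff_of_nonneg fun _ _ => by positivity] at h1
      have h3 := h1 a (Finset.mem_univ _)
      rw [Finset.sum_eq_zero_iff_of_nonneg fun _ _ => by positivity] at h3
      simpa using h3 b (Finset.mem_univ _)
    simp [det3_sum, h2]
  · have h1 : 0 < σ ξ.z := lt_of_le_of_ne (by simp only [hσ]; positivity) (Ne.symm h0)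
    obtain ⟨N, hN⟩ := exists_nat_gt (1 / σ ξ.z)
    rw [div_lt_iff₀ h1] at hN
    have h2 := st_pos (show 1 < ((N : ℝ) + 1) * σ ξ.z by nlinarith)
    obtain ⟨l, hl⟩ : ∃ l, ξ.z l ≠ 0 := by
      by_contra hc
      push Not at hc
      exact ξ.z_ne (by ext l; simp [hc l])
    have h3 := hξ N l i j k
    simp only [mul_assoc, ← Finset.mul_sum] at h3
    have h4 : conj (ξ.z l) / ((‖ξ.z‖ ^ 2 : ℝ) : ℂ) ≠ 0 :=
      div_ne_zero (by simpa using hl) (nsq_ne ξ.z_ne)
    rcases mul_eq_zero.1 h3 with h5 | h5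
    · exact absurd (by exact_mod_cast h5) h2.ne'
    · exact (mul_eq_zero.1 h5).resolve_left (pow_ne_zero _ h4)

theorem homMap_field' {d : ℕ} (c : Coeff n d) : HomMap (field c) d := by
  have h1 : ∀ z i, field c z i = ∑ m, c i m * ∏ j, z j ^ m.1 j := by
    intro z i
    simp [field, poly, MvPolynomial.eval_monomial, Finsupp.prod_fintype]
  constructor
  · rw [contDiff_euclidean]
    intro i
    simp only [h1]
    fun_prop
  · intro a z
    ext i
    simp only [h1, PiLp.smul_apply, smul_eq_mul, Finset.mul_sum, mul_pow, Finset.prod_mul_distrib,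
      Finset.prod_pow_eq_pow_sum]
    refine Finset.sum_congr rfl fun m _ => ?_
    rw [(Finset.mem_finsuppAntidiag.1 m.2).1]
    ring

end Rep

theorem not_mem_Bc {d : ℕ} {c : Coeff n d} (h : NoMeas (field c)) : c ∉ Bc n d := by
  rintro ⟨T, h0, h1, h2, h3⟩
  obtain ⟨m, hm, hr⟩ := rep T h1
  have hm0 : m ≠ 0 := by
    rintro rfl
    exact h0 (LinearMap.ext fun φ => by rw [hr]; simp)
  have : NeZero m := ⟨hm0⟩
  refine h ((m Set.univ)⁻¹ • m) inferInstance (fun α hα => ?_)
    (Measure.ae_smul_measure (dir_of_directed (homMap_field' c) h3 hr) _)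
  rw [integral_smul_measure, closedM_of_closed h2 hr α hα, smul_zero]

end A590
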