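import Pool.Agent.Lib.A590Core2
import Pool.Agent.Lib.A590Trans

/-!
Block B1, first part: functions constant along the directions of a closed measure and the
translation invariance of the associated transverse measures.
-/

open scoped ComplexConjugate ComplexOrder ContDiff Topology InnerProductSpace
open MeasureTheory Filter

noncomputable section

namespace A590.B1

/-- The affine coordinate `X / U`. -/
def xx (z : E 4) : ℂ := z 0 / z 2

/-- Its derivative in the direction `v`. -/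
def Dx (ξ : Xi 4) : ℂ := (ξ.z 2 * ξ.v 0 - ξ.z 0 * ξ.v 2) / ξ.z 2 ^ 2

/-- The cone over an open set of the `x`-plane. -/
def cone (U : Set ℂ) : Set (E 4) := {z | z 2 ≠ 0 ∧ xx z ∈ U}

theorem xx_smul (z : E 4) {c : ℂ} (hc : c ≠ 0) : xx (c • z) = xx z := by
  simp only [xx, PiLp.smul_apply, smul_eq_mul]
  exact mul_div_mul_left _ _ hc

theorem contDiffAt_xx {z : E 4} (hz : z 2 ≠ 0) : ContDiffAt ℂ ∞ xx z := by
  unfold xx
  exact ContDiffAt.div (by fun_prop) (by fun_prop) hz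

theorem continuousAt_xx {z : E 4} (hz : z 2 ≠ 0) : ContinuousAt xx z :=
  (contDiffAt_xx hz).continuousAt

theorem differentiableAt_xx {z : E 4} (hz : z 2 ≠ 0) : DifferentiableAt ℂ xx z :=
  (contDiffAt_xx hz).differentiableAt (by simp)

theorem measurable_xx : Measurable xx := by
  unfold xx
  have h0 : Continuous fun z : E 4 => z 0 := by fun_prop
  have h2 : Continuous fun z : E 4 => z 2 := by fun_prop
  exact h0.measurable.div h2.measurable

theorem measurable_xxz : Measurable fun ξ : Xi 4 => xx ξ.z :=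
  measurable_xx.comp Xi.continuous_z.measurable

theorem measurable_Dx : Measurable Dx := by
  unfold Dx
  have h0 : Continuous fun ξ : Xi 4 => ξ.z 2 * ξ.v 0 - ξ.z 0 * ξ.v 2 := by fun_prop
  have h2 : Continuous fun ξ : Xi 4 => ξ.z 2 ^ 2 := by fun_prop
  exact h0.measurable.div h2.measurable

theorem Dx_zero {ξ : Xi 4} (h : ξ.z 2 = 0) : Dx ξ = 0 := by simp [Dx, h]

theorem fderiv_xx (ξ : Xi 4) (hz : ξ.z 2 ≠ 0) : fderiv ℂ xx ξ.z ξ.v = Dx ξ := by
  have h0 : HasFDerivAt (fun z : E 4 => z 0) (EuclideanSpace.proj (𝕜 := ℂ) (0 : Fin 4)) ξ.z :=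
    (EuclideanSpace.proj (𝕜 := ℂ) (0 : Fin 4)).hasFDerivAt
  have h2 : HasFDerivAt (fun z : E 4 => z 2) (EuclideanSpace.proj (𝕜 := ℂ) (2 : Fin 4)) ξ.z :=
    (EuclideanSpace.proj (𝕜 := ℂ) (2 : Fin 4)).hasFDerivAt
  have h3 := (hasDerivAt_inv hz).comp_hasFDerivAt ξ.z h2
  have h4 := h0.mul h3
  have h5 : xx = (fun z : E 4 => z 0) * ((fun y : ℂ => y⁻¹) ∘ fun z : E 4 => z 2) := by
    funext z; simp [xx, div_eq_mul_inv]
  rw [h5, h4.fderiv]
  simp [Dx]
  field_simp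
  ring

theorem isOpen_cone {U : Set ℂ} (hU : IsOpen U) : IsOpen (cone U) := by
  rw [isOpen_iff_mem_nhds]
  rintro z ⟨hz, hx⟩
  have h2 : Continuous fun z : E 4 => z 2 := by fun_prop
  exact inter_mem (h2.continuousAt.eventually_ne hz) ((continuousAt_xx hz) (hU.mem_nhds hx))

theorem isCone_cone {U : Set ℂ} (hU : IsOpen U) : IsCone (cone U) where
  isOpen := isOpen_cone hU
  zero := fun h => h.1 rfl
  smul := fun z hz c hc => ⟨by simpa using ⟨hc, hz.1⟩, by rw [xx_smul z hc]; exact hz.2⟩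

/-- The pair `(X, U)`. -/
def PXU : E 4 →L[ℂ] E 2 :=
  LinearMap.toContinuousLinearMap
    { toFun := fun z => !₂[z 0, z 2]
      map_add' := by intro z w; ext i; fin_cases i <;> simp
      map_smul' := by intro c z; ext i; fin_cases i <;> simp }

theorem PXU_apply (z : E 4) : PXU z = !₂[z 0, z 2] := rfl

theorem lagr (a b c d : ℂ) :
    (‖a‖ ^ 2 + ‖b‖ ^ 2) * (‖c‖ ^ 2 + ‖d‖ ^ 2) - ‖c * conj a + d * conj b‖ ^ 2
      = ‖b * c - a * d‖ ^ 2 := by
  simp only [← Complex.normSq_eq_norm_sq, Complex.normSq_apply, Complex.add_re, Complex.mul_re,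
    Complex.conj_re, Complex.conj_im, Complex.add_im, Complex.mul_im, Complex.sub_re,
    Complex.sub_im]
  ring

/-- The basic weight. -/
def w0 (ξ : Xi 4) : ℝ :=
  ‖ξ.z 2 * ξ.v 0 - ξ.z 0 * ξ.v 2‖ ^ 2 / (‖ξ.z 0‖ ^ 2 + ‖ξ.z 2‖ ^ 2) ^ 2

theorem integrable_w0 {m : Measure (Xi 4)} [IsFiniteMeasure m] (hm : ClosedM m) :
    Integrable w0 m := by
  set N : Xi 4 → ℝ := fun ξ => ‖ξ.z 2 * ξ.v 0 - ξ.z 0 * ξ.v 2‖ ^ 2 with hN
  set D : Xi 4 → ℝ := fun ξ => ‖ξ.z 0‖ ^ 2 + ‖ξ.z 2‖ ^ 2 with hD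
  have hNc : Continuous N := by simp only [hN]; fun_prop
  have hDc : Continuous D := by simp only [hD]; fun_prop
  have hD0 : ∀ ξ, 0 ≤ D ξ := fun ξ => by positivity
  have hN0 : ∀ ξ, 0 ≤ N ξ := fun ξ => by positivity
  set f : ℕ → Xi 4 → ℝ := fun k ξ => N ξ / (D ξ + 1 / ((k : ℝ) + 1)) ^ 2 with hf
  have hpos : ∀ (k : ℕ) ξ, 0 < D ξ + 1 / ((k : ℝ) + 1) := fun k ξ => by
    have := hD0 ξ; positivity
  have hfc : ∀ k, Continuous (f k) := fun k =>
    hNc.div (by fun_prop) fun ξ => pow_ne_zero _ (hpos k ξ).ne'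
  have hb : ∀ k, ∫ ξ, f k ξ ∂m ≤ m.real Set.univ := fun k => by
    have h := wedge_le hm (HomMap.of_clm PXU) (θ := 1 / ((k : ℝ) + 1)) (by positivity)
    simp only [Nat.cast_one, one_mul, ContinuousLinearMap.fderiv] at h
    refine le_trans (le_of_eq (integral_congr_ae (ae_of_all _ fun ξ => ?_))) h
    simp only [hf, hN, hD, PXU_apply, EuclideanSpace.norm_sq_eq, Fin.sum_univ_two,
      PiLp.inner_apply]
    rw [← lagr]
    simp
  have hlim : ∀ ξ, Tendsto (fun k => f k ξ) atTop (𝓝 (w0 ξ)) := fun ξ => by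
    by_cases h : D ξ = 0
    · have h0 : ξ.z 0 = 0 := by
        have : ‖ξ.z 0‖ ^ 2 = 0 := by
          simp only [hD] at h; nlinarith [sq_nonneg ‖ξ.z 0‖, sq_nonneg ‖ξ.z 2‖]
        simpa using this
      have h2 : ξ.z 2 = 0 := by
        have : ‖ξ.z 2‖ ^ 2 = 0 := by
          simp only [hD] at h; nlinarith [sq_nonneg ‖ξ.z 0‖, sq_nonneg ‖ξ.z 2‖]
        simpa using this
      simp [hf, hN, w0, h0, h2]
    · have h1 : Tendsto (fun k : ℕ => (D ξ + 1 / ((k : ℝ) + 1)) ^ 2) atTop (𝓝 ((D ξ + 0) ^ 2)) :=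
        (tendsto_const_nhds.add tendsto_one_div_add_atTop_nhds_zero_nat).pow 2
      rw [add_zero] at h1
      exact tendsto_const_nhds.div h1 (pow_ne_zero _ h)
  have hw : Measurable w0 := hNc.measurable.div (hDc.pow 2).measurable
  have hw0 : ∀ ξ, 0 ≤ w0 ξ := fun ξ => by unfold w0; positivity
  refine ⟨hw.aestronglyMeasurable, ?_⟩
  rw [hasFiniteIntegral_iff_ofReal (ae_of_all _ hw0)]
  have h1 : ∫⁻ ξ, ENNReal.ofReal (w0 ξ) ∂m
      = ∫⁻ ξ, liminf (fun k => ENNReal.ofReal (f k ξ)) atTop ∂m := by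
    refine lintegral_congr fun ξ => ?_
    exact ((ENNReal.tendsto_ofReal (hlim ξ)).liminf_eq).symm
  rw [h1]
  refine lt_of_le_of_lt (lintegral_liminf_le fun k =>
    (hfc k).measurable.ennreal_ofReal) ?_
  refine lt_of_le_of_lt (liminf_le_of_frequently_le' (Frequently.of_forall fun k => ?_))
    (ENNReal.ofReal_lt_top (r := m.real Set.univ))
  rw [← ofReal_integral_eq_lintegral_ofReal
    ((hfc k).integrable_of_hasCompactSupport (HasCompactSupport.of_compactSpace _))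
    (ae_of_all _ fun ξ => div_nonneg (hN0 ξ) (sq_nonneg _))]
  exact ENNReal.ofReal_le_ofReal (hb k)

theorem Dx_sq (ξ : Xi 4) : ‖Dx ξ‖ ^ 2 ≤ (1 + ‖xx ξ.z‖ ^ 2) ^ 2 * w0 ξ := by
  by_cases h : ξ.z 2 = 0
  · rw [Dx_zero h, norm_zero]
    have : 0 ≤ w0 ξ := by unfold w0; positivity
    have h2 : (0 : ℝ) ^ 2 = 0 := by norm_num
    rw [h2]; positivity
  · have h2 : 0 < ‖ξ.z 2‖ := norm_pos_iff.2 h
    refine le_of_eq ?_
    simp only [Dx, xx, w0, norm_div, norm_pow]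
    field_simp
    ring

/-- Integrability of functions dominated by `‖Dx‖ ^ 2` over a bounded set. -/
theorem integrable_of_Dx {m : Measure (Xi 4)} [IsFiniteMeasure m] (hm : ClosedM m)
    {F : Type*} [NormedAddCommGroup F] {H : Xi 4 → F} (hH : AEStronglyMeasurable H m) {C R : ℝ}
    (hC : 0 ≤ C) (h1 : ∀ ξ, ‖H ξ‖ ≤ C * ‖Dx ξ‖ ^ 2) (h2 : ∀ ξ, H ξ ≠ 0 → ‖xx ξ.z‖ ≤ R) :
    Integrable H m := by
  refine Integrable.mono' ((integrable_w0 hm).const_mul (C * (1 + R ^ 2) ^ 2)) hH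
    (ae_of_all _ fun ξ => ?_)
  have hw0 : 0 ≤ w0 ξ := by unfold w0; positivity
  by_cases h : H ξ = 0
  · rw [h, norm_zero]; positivity
  · refine (h1 ξ).trans ?_
    rw [mul_assoc]
    refine mul_le_mul_of_nonneg_left ((Dx_sq ξ).trans ?_) hC
    have := h2 ξ h
    gcongr

/-- `A` is a bounded function on the cone over `U`, constant along almost every direction. -/
structure Leaf (m : Measure (Xi 4)) (U : Set ℂ) (A : E 4 → ℝ) : Prop where
  cd : ContDiffOn ℝ ∞ A (cone U)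
  hom : ∀ z ∈ cone U, ∀ c : ℂ, c ≠ 0 → A (c • z) = A z
  bd : ∀ z ∈ cone U, |A z| ≤ 1
  flat : ∀ᵐ ξ ∂m, ξ.z ∈ cone U → rz A ξ.z ξ.v = 0

theorem Leaf.one (m : Measure (Xi 4)) (U : Set ℂ) : Leaf m U fun _ => 1 where
  cd := contDiffOn_const
  hom := fun _ _ _ _ => rfl
  bd := fun _ _ => by simp
  flat := ae_of_all _ fun _ _ => rz_const _ _ _

theorem Leaf.differentiableAt {m : Measure (Xi 4)} {U : Set ℂ} {A : E 4 → ℝ} (h : Leaf m U A)
    (hU : IsOpen U) {z : E 4} (hz : z ∈ cone U) : DifferentiableAt ℝ A z :=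
  (h.cd.contDiffAt ((isOpen_cone hU).mem_nhds hz)).differentiableAt (by simp)

theorem Leaf.mul {m : Measure (Xi 4)} {U : Set ℂ} {A B : E 4 → ℝ} (hU : IsOpen U)
    (h : Leaf m U A) (h' : Leaf m U B) : Leaf m U fun z => A z * B z where
  cd := h.cd.mul h'.cd
  hom := fun z hz c hc => by rw [h.hom z hz c hc, h'.hom z hz c hc]
  bd := fun z hz => by
    rw [abs_mul]
    exact mul_le_one₀ (h.bd z hz) (abs_nonneg _) (h'.bd z hz)
  flat := by
    filter_upwards [h.flat, h'.flat] with ξ h1 h2 hz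
    rw [rz_mul (h.differentiableAt hU hz) (h'.differentiableAt hU hz), h1 hz, h2 hz]
    simp

theorem Leaf.measurable_ind {m : Measure (Xi 4)} {U : Set ℂ} {A : E 4 → ℝ} (h : Leaf m U A)
    (hU : IsOpen U) : Measurable fun ξ : Xi 4 => (cone U).indicator A ξ.z := by
  classical
  have h1 : Measurable ((cone U).piecewise A fun _ => 0) :=
    h.cd.continuousOn.measurable_piecewise continuousOn_const (isOpen_cone hU).measurableSet
  exact h1.comp Xi.continuous_z.measurable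

theorem Leaf.abs_ind {m : Measure (Xi 4)} {U : Set ℂ} {A : E 4 → ℝ} (h : Leaf m U A)
    (z : E 4) : |(cone U).indicator A z| ≤ 1 := by
  by_cases hz : z ∈ cone U
  · rw [Set.indicator_of_mem hz]; exact h.bd z hz
  · rw [Set.indicator_of_notMem hz]; simp

/-- The coordinate `U` as a linear form. -/
def PU : E 4 →L[ℂ] ℂ := EuclideanSpace.proj (𝕜 := ℂ) (2 : Fin 4)

theorem PU_apply (z : E 4) : PU z = z 2 := rfl

theorem rz_one_measurable {G : ℂ → ℝ} (hG : ContDiff ℝ ∞ G) :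
    Continuous fun x : ℂ => rz G x 1 := by
  have h : ContDiff ℝ ∞ fun x : ℂ => (G x : ℂ) := Complex.ofRealCLM.contDiff.comp hG
  rw [continuous_iff_continuousAt]
  exact fun x => (contDiffAt_dz_fixed h.contDiffAt 1).1.continuousAt

theorem rz_zero_of_notMem {G : ℂ → ℝ} {x : ℂ} (hx : x ∉ tsupport G) (v : ℂ) : rz G x v = 0 := by
  rw [rz_congr (notMem_tsupport_iff_eventuallyEq.1 hx)]
  exact rz_const 0 _ _

theorem Leaf.int_zero {m : Measure (Xi 4)} [IsFiniteMeasure m] (hm : ClosedM m) {U : Set ℂ}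
    {A : E 4 → ℝ} (h : Leaf m U A) (hU : IsOpen U) {G : ℂ → ℝ} (hG : ContDiff ℝ ∞ G)
    (hGc : HasCompactSupport G) (hGU : tsupport G ⊆ U) :
    Integrable (fun ξ : Xi 4 => (((cone U).indicator A ξ.z * ‖Dx ξ‖ ^ 2 : ℝ) : ℂ)
      * conj (rz G (xx ξ.z) 1)) m ∧
    ∫ ξ, (((cone U).indicator A ξ.z * ‖Dx ξ‖ ^ 2 : ℝ) : ℂ) * conj (rz G (xx ξ.z) 1) ∂m = 0 := by
  set T : Xi 4 → ℂ := fun ξ => (((cone U).indicator A ξ.z * ‖Dx ξ‖ ^ 2 : ℝ) : ℂ)
      * conj (rz G (xx ξ.z) 1) with hT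
  obtain ⟨R, hR⟩ := hGc.isCompact.isBounded.exists_norm_le
  have hrc := rz_one_measurable hG
  obtain ⟨C1, hC1⟩ : ∃ C, ∀ x, ‖rz G x 1‖ ≤ C := by
    obtain ⟨C, hC⟩ := hGc.isCompact.exists_bound_of_continuousOn hrc.continuousOn
    refine ⟨max C 0, fun x => ?_⟩
    by_cases hx : x ∈ tsupport G
    · exact (hC x hx).trans (le_max_left _ _)
    · rw [rz_zero_of_notMem hx, norm_zero]; exact le_max_right _ _
  obtain ⟨C2, hC2⟩ : ∃ C, ∀ x, ‖G x‖ ≤ C := hG.continuous.bounded_above_of_compact_support hGc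
  have hC1' : 0 ≤ C1 := (norm_nonneg _).trans (hC1 0)
  have hC2' : 0 ≤ C2 := (norm_nonneg _).trans (hC2 0)
  have hAm := h.measurable_ind hU
  have hTm : Measurable T := by
    refine Measurable.mul (Complex.measurable_ofReal.comp
      (hAm.mul (measurable_Dx.norm.pow_const 2))) ?_
    exact (Complex.continuous_conj.comp hrc).measurable.comp measurable_xxz
  have hTi : Integrable T m := by
    refine integrable_of_Dx hm hTm.aestronglyMeasurable hC1' (R := R) (fun ξ => ?_) fun ξ hξ => ?_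
    · simp only [hT, norm_mul, Complex.norm_real, Complex.norm_conj, norm_pow, abs_norm,
        Real.norm_eq_abs]
      have h1 := h.abs_ind ξ.z
      have h2 := hC1 (xx ξ.z)
      calc _ ≤ 1 * ‖Dx ξ‖ ^ 2 * C1 := by gcongr
        _ = _ := by ring
    · refine hR _ ?_
      by_contra hx
      exact hξ (by simp [hT, rz_zero_of_notMem hx])
  refine ⟨hTi, ?_⟩
  have hP := HomMap.of_clm PU
  set g : Xi 4 → ℝ := fun ξ => (cone U).indicator A ξ.z * G (xx ξ.z) * ‖Dx ξ‖ with hg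
  have hgm : Measurable g :=
    (hAm.mul (hG.continuous.measurable.comp measurable_xxz)).mul measurable_Dx.norm
  have hg2 : MemLp g 2 m := by
    rw [memLp_two_iff_integrable_sq hgm.aestronglyMeasurable]
    refine integrable_of_Dx hm (hgm.pow_const 2).aestronglyMeasurable (sq_nonneg C2) (R := R)
      (fun ξ => ?_) fun ξ hξ => ?_
    · simp only [hg, norm_pow, norm_mul, norm_norm]
      have h1 : ‖(cone U).indicator A ξ.z‖ ≤ 1 := h.abs_ind ξ.z
      have h2 := hC2 (xx ξ.z)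
      calc _ ≤ (1 * C2 * ‖Dx ξ‖) ^ 2 := by gcongr
        _ = _ := by ring
    · refine hR _ (subset_tsupport _ ?_)
      intro hx
      exact hξ (by simp [hg, hx])
  have hcut := cutoff_tendsto hm hP hg2
  set κ : ℝ → E 4 → ℝ := fun δ w => st (sP PU 1 w / δ) with hκ
  have hκd : ∀ δ, ContDiffOn ℝ ∞ (κ δ) {0}ᶜ := fun δ =>
    st_contDiff.comp_contDiffOn (hP.rhom0.cd.div_const δ)
  have hκm : ∀ δ, Continuous fun ξ : Xi 4 => κ δ ξ.z := fun δ =>
    st_continuous.comp (hP.rhom0.cont.div_const δ)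
  have hO := isCone_cone hU
  have hsub : cone U ⊆ {0}ᶜ := fun z hz h0 => hO.zero (h0 ▸ hz)
  have hxd : ContDiffOn ℂ ∞ xx (cone U) := fun z hz => (contDiffAt_xx hz.1).contDiffWithinAt
  have key : ∀ δ, 0 < δ → ‖∫ ξ, T ξ * κ δ ξ.z ∂m‖ ≤ ∫ ξ, |g ξ| * ‖rz (κ δ) ξ.z ξ.v‖ ∂m := by
    intro δ hδ
    set b : E 4 → ℝ := fun z => A z * G (xx z) * κ δ z with hb
    have hGx : ContDiffOn ℝ ∞ (fun z => G (xx z)) (cone U) :=
      hG.comp_contDiffOn (hxd.restrict_scalars ℝ)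
    have hbd : ContDiffOn ℝ ∞ b (cone U) := (h.cd.mul hGx).mul ((hκd δ).mono hsub)
    have hbs : ∀ z : E 4, z ≠ 0 → z ∉ cone U → b =ᶠ[𝓝 z] fun _ => 0 := by
      intro z hz hzO
      by_cases h2 : z 2 = 0
      · have hc : ContinuousAt (fun w => sP PU 1 w / δ) z :=
          ((hP.rhom0.cd.contDiffAt (isOpen_compl_singleton.mem_nhds hz)).continuousAt).div_const δ
        have h0 : sP PU 1 z / δ < 1 := by simp [sP, PU_apply, h2]
        filter_upwards [hc.eventually (gt_mem_nhds h0)] with w hw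
        simp only [hb, hκ, st_zero hw.le, mul_zero]
      · have hx : xx z ∉ tsupport G := fun hx => hzO ⟨h2, hGU hx⟩
        filter_upwards [(continuousAt_xx h2).eventually
          (notMem_tsupport_iff_eventuallyEq.1 hx)] with w hw
        simp only [hb, hw, Pi.zero_apply, mul_zero, zero_mul]
    obtain ⟨hc, hi⟩ := I_holo hm hO hxd (fun z _ c hc => xx_smul z hc)
      (b := fun z => (b z : ℂ)) (Complex.ofRealCLM.contDiff.comp_contDiffOn hbd)
      (fun z hz c hc => by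
        simp only [hb, hκ, h.hom z hz c hc, xx_smul z hc, hP.rhom0.hom z (hsub hz) c hc])
      (fun z hz hzO => (hbs z hz hzO).mono fun w hw => by simp only [hw, Complex.ofReal_zero])
    set T2 : Xi 4 → ℂ := fun ξ => (((cone U).indicator A ξ.z * G (xx ξ.z) : ℝ) : ℂ)
      * conj (rz (κ δ) ξ.z ξ.v) * Dx ξ with hT2
    have hae : ∀ᵐ ξ ∂m, dzb (fun z => (b z : ℂ)) ξ.z ξ.v * fderiv ℂ xx ξ.z ξ.v
        = T ξ * κ δ ξ.z + T2 ξ := by
      filter_upwards [h.flat] with ξ hξ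
      rw [dzb_ofReal]
      by_cases hz : ξ.z ∈ cone U
      · have hn := hO.isOpen.mem_nhds hz
        have d1 := h.differentiableAt hU hz
        have d2 : DifferentiableAt ℝ (fun z => G (xx z)) ξ.z :=
          (hGx.contDiffAt hn).differentiableAt (by simp)
        have d3 : DifferentiableAt ℝ (κ δ) ξ.z :=
          (((hκd δ).mono hsub).contDiffAt hn).differentiableAt (by simp)
        have e1 : rz (fun z => G (xx z)) ξ.z ξ.v = Dx ξ * rz G (xx ξ.z) 1 := by
          rw [rz_comp_holo (hG.differentiable (by simp) _) (differentiableAt_xx hz.1),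
            fderiv_xx ξ hz.1, ← rz_smul_vec, smul_eq_mul, mul_one]
        rw [hb, rz_mul (d1.fun_mul d2) d3, rz_mul d1 d2, hξ hz, e1, fderiv_xx ξ hz.1]
        simp only [hT, hT2, Set.indicator_of_mem hz, map_add, map_mul, Complex.conj_ofReal,
          Complex.ofReal_mul, Complex.ofReal_pow, ← Complex.conj_mul', map_zero]
        ring
      · rw [rz_congr (hbs _ ξ.z_ne hz), rz_const]
        simp [hT, hT2, Set.indicator_of_notMem hz]
    have i1 : Integrable (fun ξ => T ξ * κ δ ξ.z) m := by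
      refine hTi.mul_bdd (c := 1) (Complex.continuous_ofReal.comp (hκm δ)).aestronglyMeasurable
        (ae_of_all _ fun ξ => ?_)
      rw [Complex.norm_real, Real.norm_eq_abs, abs_of_nonneg (st_nonneg _)]
      exact st_le_one _
    have i0 : Integrable (fun ξ => T ξ * κ δ ξ.z + T2 ξ) m :=
      (hc.integrable_of_hasCompactSupport (HasCompactSupport.of_compactSpace _)).congr hae
    have i2 : Integrable T2 m := (i0.sub i1).congr (ae_of_all _ fun ξ => by simp)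
    rw [integral_congr_ae hae, integral_add i1 i2] at hi
    rw [eq_neg_of_add_eq_zero_left hi, norm_neg]
    refine (norm_integral_le_integral_norm _).trans (le_of_eq (integral_congr_ae
      (ae_of_all _ fun ξ => ?_)))
    simp only [hT2, hg, norm_mul, Complex.norm_real, Complex.norm_conj, abs_mul, abs_norm,
      Real.norm_eq_abs]
    ring
  have lim1 : Tendsto (fun δ : ℝ => ∫ ξ, T ξ * κ δ ξ.z ∂m) (𝓝[>] 0) (𝓝 (∫ ξ, T ξ ∂m)) := by
    refine tendsto_integral_filter_of_dominated_convergence (fun ξ => ‖T ξ‖)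
      (Eventually.of_forall fun δ => hTm.aestronglyMeasurable.mul
        (Complex.continuous_ofReal.comp (hκm δ)).aestronglyMeasurable)
      (Eventually.of_forall fun δ => ae_of_all _ fun ξ => ?_) hTi.norm (ae_of_all _ fun ξ => ?_)
    · rw [norm_mul, Complex.norm_real, Real.norm_eq_abs, abs_of_nonneg (st_nonneg _)]
      exact mul_le_of_le_one_right (norm_nonneg _) (st_le_one _)
    · by_cases h2 : ξ.z 2 = 0
      · simp [hT, Dx_zero h2]
      · have hs : 0 < sP PU 1 ξ.z := by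
          rw [sP_unit, PU_apply]; positivity
        refine tendsto_const_nhds.congr' ?_
        filter_upwards [Ioo_mem_nhdsGT (half_pos hs)] with δ hδ
        have : 2 ≤ sP PU 1 ξ.z / δ := by
          rw [le_div_iff₀ hδ.1]; linarith [hδ.2]
        simp only [hκ, st_one this, Complex.ofReal_one, mul_one]
  have lim2 : Tendsto (fun δ : ℝ => ∫ ξ, T ξ * κ δ ξ.z ∂m) (𝓝[>] 0) (𝓝 0) :=
    squeeze_zero_norm' (eventually_nhdsWithin_of_forall fun δ hδ => key δ hδ) hcut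
  exact tendsto_nhds_unique lim1 lim2

/-- The bump function of the translation lemma. -/
def bmp (c : ℂ) (ρ : ℝ) (ξ : Xi 4) : ℝ := st (3 - ‖xx ξ.z - c‖ ^ 2 / ρ)

theorem bmp_nonneg (c : ℂ) (ρ : ℝ) (ξ : Xi 4) : 0 ≤ bmp c ρ ξ := st_nonneg _

theorem measurable_bmp (c : ℂ) (ρ : ℝ) : Measurable (bmp c ρ) := by
  have h : Continuous fun x : ℂ => st (3 - ‖x - c‖ ^ 2 / ρ) := by fun_prop
  exact h.measurable.comp measurable_xxz

theorem bmp_ne_zero_iff {c : ℂ} {ρ : ℝ} (hρ : 0 < ρ) (ξ : Xi 4) :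
    bmp c ρ ξ ≠ 0 ↔ ‖xx ξ.z - c‖ ^ 2 < 2 * ρ := by
  rw [← div_lt_iff₀ hρ]
  constructor
  · intro h
    by_contra h2
    exact h (st_zero (by linarith [not_lt.1 h2]))
  · intro h
    exact (st_pos (by linarith)).ne'

theorem bmp_small {c : ℂ} {N : Set ℂ} (hN : N ∈ 𝓝 c) :
    ∀ᶠ ρ : ℝ in 𝓝[>] 0, ∀ ξ, bmp c ρ ξ ≠ 0 → xx ξ.z ∈ N := by
  obtain ⟨e, he, hb⟩ := Metric.mem_nhds_iff.1 hN
  filter_upwards [Ioo_mem_nhdsGT (show 0 < e ^ 2 / 2 by positivity)] with ρ hρ ξ hξ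
  rw [bmp_ne_zero_iff hρ.1] at hξ
  refine hb ?_
  rw [mem_ball_iff_norm]
  exact lt_of_pow_lt_pow_left₀ 2 he.le (by linarith [hρ.2])

/-- The local mass of the transverse measure. -/
def JJ (A : E 4 → ℝ) (c : ℂ) (ρ : ℝ) (ξ : Xi 4) : ℝ := A ξ.z * ‖Dx ξ‖ ^ 2 * bmp c ρ ξ

theorem JJ_congr {A B : E 4 → ℝ} {c : ℂ} {N : Set ℂ} (hN : N ∈ 𝓝 c)
    (h : ∀ z ∈ cone N, A z = B z) : ∀ᶠ ρ : ℝ in 𝓝[>] 0, JJ A c ρ = JJ B c ρ := by
  filter_upwards [bmp_small hN] with ρ hρ
  funext ξ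
  by_cases h1 : bmp c ρ ξ = 0
  · simp [JJ, h1]
  · by_cases h2 : ξ.z 2 = 0
    · simp [JJ, Dx_zero h2]
    · simp only [JJ, h _ ⟨h2, hρ ξ h1⟩]

theorem Leaf.integrable {m : Measure (Xi 4)} [IsFiniteMeasure m] (hm : ClosedM m) {U : Set ℂ}
    {A : E 4 → ℝ} (h : Leaf m U A) (hU : IsOpen U) {c : ℂ} (hc : c ∈ U) :
    ∀ᶠ ρ : ℝ in 𝓝[>] 0, Integrable (JJ A c ρ) m := by
  filter_upwards [JJ_congr (hU.mem_nhds hc) (fun z hz => (Set.indicator_of_mem hz A).symm),
    bmp_small (Metric.ball_mem_nhds c one_pos)] with ρ h1 h2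
  rw [h1]
  refine integrable_of_Dx hm (((h.measurable_ind hU).mul (measurable_Dx.norm.pow_const 2)).mul
    (measurable_bmp c ρ)).aestronglyMeasurable zero_le_one (R := ‖c‖ + 1) (fun ξ => ?_)
    fun ξ hξ => ?_
  · simp only [JJ, norm_mul, norm_pow, norm_norm]
    have h3 : ‖(cone U).indicator A ξ.z‖ ≤ 1 := h.abs_ind ξ.z
    have h4 : ‖bmp c ρ ξ‖ ≤ 1 := by
      rw [Real.norm_eq_abs, abs_of_nonneg (bmp_nonneg _ _ _)]; exact st_le_one _
    calc _ ≤ 1 * ‖Dx ξ‖ ^ 2 * 1 := by gcongr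
      _ = _ := by ring
  · have h3 := h2 ξ (right_ne_zero_of_mul hξ)
    rw [mem_ball_iff_norm] at h3
    have := norm_sub_norm_le (xx ξ.z) c
    linarith

theorem fderiv_eq_re {G : ℂ → ℝ} (hG : ContDiff ℝ ∞ G) (x h : ℂ) :
    fderiv ℝ G x h = (2 * conj h * conj (rz G x 1)).re := by
  have hd : DifferentiableAt ℝ G x := hG.differentiable (by simp) x
  have h1 := dz_add_dzb (fun w => (G w : ℂ)) x h
  rw [fderiv_ofReal_apply hd, dzb_ofReal] at h1
  have h2 : rz G x h = h * rz G x 1 := by rw [← rz_smul_vec, smul_eq_mul, mul_one]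
  change rz G x h + _ = _ at h1
  have h3 := congrArg Complex.re h1
  rw [h2] at h3
  simp only [Complex.ofReal_re, Complex.add_re, Complex.conj_re] at h3
  rw [← h3, mul_assoc, ← map_mul]
  simp only [Complex.mul_re, Complex.conj_re, Complex.re_ofNat, Complex.im_ofNat]
  ring

theorem Leaf.trans {m : Measure (Xi 4)} [IsFiniteMeasure m] (hm : ClosedM m) {U : Set ℂ}
    {A : E 4 → ℝ} (h : Leaf m U A) (hU : IsOpen U) (hc : IsPreconnected U) {c0 c1 : ℂ}
    (h0 : c0 ∈ U) (h1 : c1 ∈ U) :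
    ∀ᶠ ρ : ℝ in 𝓝[>] 0, ∫ ξ, JJ A c0 ρ ξ ∂m = ∫ ξ, JJ A c1 ρ ξ ∂m := by
  have hAm := h.measurable_ind hU
  have hwm : Measurable fun ξ : Xi 4 => (cone U).indicator A ξ.z * ‖Dx ξ‖ ^ 2 :=
    hAm.mul (measurable_Dx.norm.pow_const 2)
  have key := translate (μ := m) measurable_xxz
    (w := fun ξ : Xi 4 => (cone U).indicator A ξ.z * ‖Dx ξ‖ ^ 2) hU hc ?_ ?_ h0 h1
  · filter_upwards [key,
      JJ_congr (hU.mem_nhds h0) (fun z hz => (Set.indicator_of_mem hz A).symm),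
      JJ_congr (hU.mem_nhds h1) (fun z hz => (Set.indicator_of_mem hz A).symm)] with ρ e e0 e1
    rw [e0, e1]
    exact e
  · intro K hK _
    obtain ⟨R, hR⟩ := hK.isBounded.exists_norm_le
    have hKm : MeasurableSet ((fun ξ : Xi 4 => xx ξ.z) ⁻¹' K) := measurable_xxz hK.measurableSet
    rw [← integrable_indicator_iff hKm]
    refine integrable_of_Dx hm (hwm.indicator hKm).aestronglyMeasurable zero_le_one (R := R)
      (fun ξ => ?_) fun ξ hξ => hR _ (by have := Set.mem_of_indicator_ne_zero hξ; exact this)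
    refine (norm_indicator_le_norm_self _ _).trans ?_
    simp only [norm_mul, norm_pow, norm_norm]
    have h3 : ‖(cone U).indicator A ξ.z‖ ≤ 1 := h.abs_ind ξ.z
    gcongr
  · intro G hG hGc hGU v
    obtain ⟨hi, hz⟩ := h.int_zero hm hU hG hGc hGU
    have e := integral_re (hi.const_mul (2 * conj v))
    rw [integral_const_mul, hz, mul_zero, map_zero] at e
    rw [← e]
    refine integral_congr_ae (ae_of_all _ fun ξ => ?_)
    simp only [fderiv_eq_re hG, RCLike.re_to_complex]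
    rw [mul_left_comm, Complex.re_ofReal_mul]

end A590.B1
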